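import Pool.Agent.Y928.PL.Finite

/-!
# Many numbers with digits of large linear complexity
-/

set_option autoImplicit false

open Finset

namespace Pool.Agent.Q29.Dig

open Pool.Agent.Y928.JL.Fam (digit Recurrence F)
open Pool.Agent.Y928.PL (cpx)

/-- the error term is small -/
theorem err_small (C κ : ℝ) (hC : 0 < C) (hκ : 0 < κ) : ∃ L₀ : ℕ, ∀ L : ℕ, L₀ ≤ L → ∀ m : ℕ, m ≤ L →
    C * Real.sqrt (((m : ℝ) + 1) * Real.log ((m : ℝ) + 2)) ≤ κ * L := by
  have h1 : Filter.Tendsto (fun x : ℝ => Real.log x / x) Filter.atTop (nhds 0) := by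
    have := Real.isLittleO_log_id_atTop.tendsto_div_nhds_zero
    simpa using this
  have h2 : ∀ᶠ x : ℝ in Filter.atTop, Real.log x / x < (κ / (2 * C)) ^ 2 :=
    (tendsto_order.1 h1).2 _ (by positivity)
  obtain ⟨X, hX⟩ := Filter.eventually_atTop.1 h2
  refine ⟨⌈X⌉₊ + 2, fun L hL m hm => ?_⟩
  have hL2 : (2 : ℝ) ≤ L := by exact_mod_cast (by omega : 2 ≤ L)
  have hLX : X ≤ (L : ℝ) + 2 := by
    have h3 := Nat.le_ceil X
    have h4 : ((⌈X⌉₊ + 2 : ℕ) : ℝ) ≤ L := by exact_mod_cast hL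
    push_cast at h4
    linarith
  have h3 := hX _ hLX
  rw [div_lt_iff₀ (by positivity)] at h3
  have hmL : (m : ℝ) ≤ L := by exact_mod_cast hm
  have h4 : ((m : ℝ) + 1) * Real.log ((m : ℝ) + 2) ≤ (κ / C * L) ^ 2 := by
    have h5 : Real.log ((m : ℝ) + 2) ≤ Real.log ((L : ℝ) + 2) :=
      Real.log_le_log (by positivity) (by linarith)
    have h6 : 0 ≤ Real.log ((m : ℝ) + 2) := Real.log_nonneg (by
      have : (0 : ℝ) ≤ m := Nat.cast_nonneg m
      linarith)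
    calc ((m : ℝ) + 1) * Real.log ((m : ℝ) + 2) ≤ ((L : ℝ) + 1) * Real.log ((L : ℝ) + 2) := by gcongr
      _ ≤ ((L : ℝ) + 2) * ((κ / (2 * C)) ^ 2 * ((L : ℝ) + 2)) := by
          have : 0 ≤ Real.log ((L : ℝ) + 2) := Real.log_nonneg (by linarith)
          gcongr
          linarith
      _ ≤ (2 * L) * ((κ / (2 * C)) ^ 2 * (2 * L)) := by
          gcongr <;> linarith
      _ = (κ / C * L) ^ 2 := by
          field_simp
  have h5 : Real.sqrt (((m : ℝ) + 1) * Real.log ((m : ℝ) + 2)) ≤ κ / C * L :=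
    Real.sqrt_le_iff.2 ⟨by positivity, h4⟩
  calc C * Real.sqrt (((m : ℝ) + 1) * Real.log ((m : ℝ) + 2)) ≤ C * (κ / C * L) := by gcongr
    _ = κ * L := by field_simp

/-- digits represent the number -/
theorem digit_sum (b : ℕ) (hb : 2 ≤ b) (x : ℝ) : ∃ n : ℤ,
    HasSum (fun i : ℕ => (digit b x (i + 1) : ℝ) / (b : ℝ) ^ (i + 1)) (x - n) := by
  refine ⟨⌊x⌋, ?_⟩
  have hb1 : (1 : ℝ) < b := by exact_mod_cast (by omega : 1 < b)
  have hb0 : (0 : ℝ) < b := by linarith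
  have hd0 : ∀ i, 0 ≤ digit b x i := fun i => Int.emod_nonneg _ (by omega)
  have hd1 : ∀ i, (digit b x i : ℝ) ≤ b := fun i => by
    have h : digit b x i ≤ (b : ℤ) :=
      (Int.emod_lt_of_pos (⌊x * (b : ℝ) ^ i⌋) (by omega : (0 : ℤ) < b)).le
    exact_mod_cast h
  have hs : Summable (fun i : ℕ => (digit b x (i + 1) : ℝ) / (b : ℝ) ^ (i + 1)) := by
    have h1 : Summable (fun i : ℕ => ((b : ℝ)⁻¹) ^ i) :=
      summable_geometric_of_lt_one (by positivity) (inv_lt_one_of_one_lt₀ hb1)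
    refine Summable.of_nonneg_of_le (fun i => ?_) (fun i => ?_) h1
    · have : (0 : ℝ) ≤ digit b x (i + 1) := by exact_mod_cast hd0 _
      positivity
    · rw [pow_succ, inv_pow, div_le_iff₀ (by positivity)]
      calc (digit b x (i + 1) : ℝ) ≤ b := hd1 _
        _ = ((b : ℝ) ^ i)⁻¹ * ((b : ℝ) ^ i * b) := by field_simp
  rw [hs.hasSum_iff_tendsto_nat]
  have h1 : ∀ N : ℕ, ∑ n ∈ Finset.range N, (digit b x (n + 1) : ℝ) / (b : ℝ) ^ (n + 1) =
      (⌊x * (b : ℝ) ^ N⌋ : ℝ) / (b : ℝ) ^ N - ⌊x⌋ := by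
    intro N
    induction N with
    | zero => simp
    | succ N ih =>
      rw [Finset.sum_range_succ, ih]
      have h2 : (⌊x * (b : ℝ) ^ (N + 1)⌋ : ℝ) = b * ⌊x * (b : ℝ) ^ N⌋ + (digit b x (N + 1) : ℝ) := by
        have h4 : ⌊x * (b : ℝ) ^ (N + 1)⌋ / (b : ℤ) = ⌊x * (b : ℝ) ^ N⌋ := by
          rw [← Int.floor_div_natCast, pow_succ]
          congr 1
          field_simp
        have h5 := Int.mul_ediv_add_emod ⌊x * (b : ℝ) ^ (N + 1)⌋ (b : ℤ)
        rw [h4] at h5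
        have h6 : ⌊x * (b : ℝ) ^ (N + 1)⌋ = b * ⌊x * (b : ℝ) ^ N⌋ + digit b x (N + 1) := h5.symm
        exact_mod_cast h6
      rw [h2]
      field_simp
      ring
  simp only [h1]
  have h2 : Filter.Tendsto (fun N : ℕ => (⌊x * (b : ℝ) ^ N⌋ : ℝ) / (b : ℝ) ^ N) Filter.atTop (nhds x) := by
    have h3 : Filter.Tendsto (fun N : ℕ => x - ((b : ℝ)⁻¹) ^ N) Filter.atTop (nhds (x - 0)) :=
      tendsto_const_nhds.sub (tendsto_pow_atTop_nhds_zero_of_lt_one (by positivity)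
        (inv_lt_one_of_one_lt₀ hb1))
    rw [sub_zero] at h3
    refine tendsto_of_tendsto_of_tendsto_of_le_of_le h3 tendsto_const_nhds (fun N => ?_) (fun N => ?_)
    · have h4 := Int.lt_floor_add_one (x * (b : ℝ) ^ N)
      show x - ((b : ℝ)⁻¹) ^ N ≤ (⌊x * (b : ℝ) ^ N⌋ : ℝ) / (b : ℝ) ^ N
      rw [le_div_iff₀ (by positivity), sub_mul, inv_pow, inv_mul_cancel₀ (by positivity)]
      linarith
    · show (⌊x * (b : ℝ) ^ N⌋ : ℝ) / (b : ℝ) ^ N ≤ x
      rw [div_le_iff₀ (by positivity)]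
      exact Int.floor_le _
  exact h2.sub_const _

theorem F_mono {C C' : ℝ} (h : C ≤ C') (m : ℕ) : F C m ≤ F C' m := by
  unfold F
  gcongr

/-- many numbers with a simultaneous measure have digits of large linear complexity -/
theorem many (N : Finset ℕ) (K : ℕ) (hK : 1 ≤ K) (x : ℕ → ℝ) (μ : ℝ) (hμ : 1 < μ)
    (hM : ∃ q0 : ℕ, ∀ q : ℕ, q0 ≤ q →
      K ≤ (({j : ℕ | j ∈ N ∧ ∀ p : ℤ, (q : ℝ) ^ (-(μ - 1)) ≤ |(q : ℝ) * x j - p|}).ncard)) :
    ∃ L₀ : ℕ, ∀ b : ℕ, 2 ≤ b → ∀ L : ℕ, L₀ ≤ L →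
      K ≤ ({j : ℕ | j ∈ N ∧ (L : ℝ) ≤ (μ * N.card + 2) * cpx (digit b (x j)) L}).ncard := by
  classical
  obtain ⟨q0, hq0⟩ := hM
  -- the measure for large subsets
  have hJ : ∀ J : Finset ℕ, ∃ C : ℝ, 0 < C ∧ (J ⊆ N → N.card < J.card + K → ∀ b : ℕ, 2 ≤ b → ∀ L : ℕ,
      ∃ j ∈ J, (L : ℝ) ≤ F C (cpx (digit b (x j)) L) +
        μ * ∑ i ∈ J, F C (cpx (digit b (x i)) L)) := by
    intro J
    by_cases hc : J ⊆ N ∧ N.card < J.card + K
    swap
    · exact ⟨1, one_pos, fun h1 h2 => absurd ⟨h1, h2⟩ hc⟩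
    obtain ⟨hJN, hJc⟩ := hc
    have key : ∀ q : ℕ, q0 ≤ q → ∃ j ∈ J, ∀ p : ℤ, (q : ℝ) ^ (-(μ - 1)) ≤ |(q : ℝ) * x j - p| := by
      intro q hq
      by_contra hcon
      push Not at hcon
      have h1 : {j : ℕ | j ∈ N ∧ ∀ p : ℤ, (q : ℝ) ^ (-(μ - 1)) ≤ |(q : ℝ) * x j - p|} ⊆
          ((N \ J : Finset ℕ) : Set ℕ) := by
        rintro j ⟨hj1, hj2⟩
        rw [Finset.mem_coe, Finset.mem_sdiff]
        refine ⟨hj1, fun hj3 => ?_⟩
        obtain ⟨p, hp⟩ := hcon j hj3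
        exact absurd (hj2 p) (not_le.2 hp)
      have h2 := (hq0 q hq).trans (Set.ncard_le_ncard h1 (Finset.finite_toSet _))
      rw [Set.ncard_coe_finset, Finset.card_sdiff_of_subset hJN] at h2
      have := Finset.card_le_card hJN
      omega
    have hne : J.Nonempty := by
      obtain ⟨j, hj, -⟩ := key q0 le_rfl
      exact ⟨j, hj⟩
    set Q : ℕ := q0 + 1 with hQ
    have hQ0 : (0 : ℝ) < Q := by rw [hQ]; positivity
    obtain ⟨C, hC, -, h2⟩ := Pool.Agent.Y928.PL.finite_family J hne x μ ((Q : ℝ) ^ (-μ)) hμ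
      (by positivity) (by
        intro q hq p
        have hqr : (0 : ℝ) < q := by exact_mod_cast hq
        obtain ⟨j, hj, h1⟩ := key (q * Q) (by nlinarith)
        refine ⟨j, hj, ?_⟩
        have h2 := h1 (Q * p j)
        push_cast at h2
        have e1 : (q : ℝ) * Q * x j - Q * p j = Q * (q * x j - p j) := by ring
        rw [e1, abs_mul, abs_of_pos hQ0] at h2
        have e2 : ((q : ℝ) * Q) ^ (-(μ - 1)) = (q : ℝ) ^ (-(μ - 1)) * ((Q : ℝ) ^ (-μ) * Q) := by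
          rw [Real.mul_rpow hqr.le hQ0.le]
          congr 1
          rw [show -(μ - 1) = -μ + 1 by ring, Real.rpow_add hQ0, Real.rpow_one]
        rw [e2] at h2
        have h3 : (q : ℝ) ^ (-(μ - 1)) * (Q : ℝ) ^ (-μ) ≤ |(q : ℝ) * x j - p j| := by
          have : (q : ℝ) ^ (-(μ - 1)) * (Q : ℝ) ^ (-μ) * Q ≤ |(q : ℝ) * x j - p j| * Q := by
            calc _ = (q : ℝ) ^ (-(μ - 1)) * ((Q : ℝ) ^ (-μ) * Q) := by ring
              _ ≤ Q * |(q : ℝ) * x j - p j| := h2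
              _ = _ := by ring
          exact le_of_mul_le_mul_right this hQ0
        calc (Q : ℝ) ^ (-μ) = (q : ℝ) ^ (μ - 1) * ((q : ℝ) ^ (-(μ - 1)) * (Q : ℝ) ^ (-μ)) := by
              rw [← mul_assoc, ← Real.rpow_add hqr]
              simp
          _ ≤ (q : ℝ) ^ (μ - 1) * |(q : ℝ) * x j - p j| := by gcongr) 1
    refine ⟨C, hC, fun _ _ b hb L => ?_⟩
    have hlog : 0 < Real.log b := Real.log_pos (by exact_mod_cast (by omega : 1 < b))
    obtain ⟨j, hj, h3⟩ := h2 (fun _ => b) (fun _ _ => hb) (fun j => digit b (x j))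
      (fun j _ i => by
        have h0 : 0 ≤ digit b (x j) i := Int.emod_nonneg _ (by omega)
        rw [pow_one, abs_of_nonneg h0]
        exact (Int.emod_lt_of_pos _ (by omega)).le)
      (fun j _ => digit_sum b hb (x j)) (fun _ => L)
    refine ⟨j, hj, ?_⟩
    rw [← Finset.sum_mul, ← mul_assoc, ← add_mul] at h3
    exact le_of_mul_le_mul_right h3 hlog
  choose CJ hCJ hCJ2 using hJ
  set C : ℝ := 1 + ∑ J ∈ N.powerset, CJ J with hC
  have hC0 : 0 < C := by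
    have : 0 ≤ ∑ J ∈ N.powerset, CJ J := Finset.sum_nonneg fun J _ => (hCJ J).le
    linarith
  set κ : ℝ := μ * N.card + 2 with hκ
  have hκ2 : 2 ≤ κ := by
    have : 0 ≤ μ * N.card := by positivity
    linarith
  obtain ⟨L₁, hL₁⟩ := err_small C (1 / (2 * κ ^ 2)) hC0 (by positivity)
  refine ⟨L₁ + 1, fun b hb L hL => ?_⟩
  by_contra hcon
  push Not at hcon
  have hLr : (1 : ℝ) ≤ L := by exact_mod_cast (by omega : 1 ≤ L)
  set J : Finset ℕ := N.filter fun j => κ * cpx (digit b (x j)) L < L with hJdef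
  have hJN : J ⊆ N := Finset.filter_subset _ _
  have hset : {j : ℕ | j ∈ N ∧ (L : ℝ) ≤ κ * cpx (digit b (x j)) L} = ((N \ J : Finset ℕ) : Set ℕ) := by
    ext j
    rw [Finset.mem_coe, Finset.mem_sdiff, hJdef, Finset.mem_filter]
    constructor
    · rintro ⟨h1, h2⟩
      exact ⟨h1, fun h3 => absurd h2 (not_le.2 h3.2)⟩
    · rintro ⟨h1, h2⟩
      refine ⟨h1, ?_⟩
      by_contra h3
      exact h2 ⟨h1, not_le.1 h3⟩
  rw [hset, Set.ncard_coe_finset, Finset.card_sdiff_of_subset hJN] at hcon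
  have hJle := Finset.card_le_card hJN
  obtain ⟨j, hj, h1⟩ := hCJ2 J hJN (by omega) b hb L
  have hCle : CJ J ≤ C := by
    have := Finset.single_le_sum (f := CJ) (fun J _ => (hCJ J).le) (Finset.mem_powerset.2 hJN)
    linarith
  -- the bound for the elements of `J`
  have hF : ∀ i ∈ J, F (CJ J) (cpx (digit b (x i)) L) ≤ (1 / κ + 1 / (2 * κ ^ 2)) * L := by
    intro i hi
    have h2 : κ * cpx (digit b (x i)) L < L := (Finset.mem_filter.1 hi).2
    have h3 : (cpx (digit b (x i)) L : ℝ) ≤ 1 / κ * L := by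
      rw [one_div, ← div_eq_inv_mul, le_div_iff₀ (by linarith), mul_comm]
      exact h2.le
    have h4 : cpx (digit b (x i)) L ≤ L := by
      have h5 : (cpx (digit b (x i)) L : ℝ) ≤ L := by
        refine h3.trans ?_
        have : 1 / κ ≤ 1 := by rw [div_le_one (by linarith)]; linarith
        nlinarith
      exact_mod_cast h5
    have h5 := hL₁ L (by omega) _ h4
    have h6 := F_mono hCle (cpx (digit b (x i)) L)
    unfold F at h6 ⊢
    linarith
  have h2 : ∑ i ∈ J, F (CJ J) (cpx (digit b (x i)) L) ≤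
      (J.card : ℝ) * ((1 / κ + 1 / (2 * κ ^ 2)) * L) := by
    rw [← nsmul_eq_mul]
    exact Finset.sum_le_card_nsmul _ _ _ hF
  have h3 := hF j hj
  have hJr : (J.card : ℝ) ≤ N.card := by exact_mod_cast hJle
  have h4 : (L : ℝ) ≤ (1 + μ * N.card) * ((1 / κ + 1 / (2 * κ ^ 2)) * L) := by
    have h5 : μ * ∑ i ∈ J, F (CJ J) (cpx (digit b (x i)) L) ≤
        μ * (N.card * ((1 / κ + 1 / (2 * κ ^ 2)) * L)) := by
      refine mul_le_mul_of_nonneg_left (h2.trans ?_) (by linarith)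
      gcongr
    calc (L : ℝ) ≤ _ := h1
      _ ≤ (1 / κ + 1 / (2 * κ ^ 2)) * L + μ * (N.card * ((1 / κ + 1 / (2 * κ ^ 2)) * L)) :=
        add_le_add h3 h5
      _ = _ := by ring
  have h5 : (1 + μ * N.card) = κ - 1 := by rw [hκ]; ring
  rw [h5] at h4
  have h6 : (κ - 1) * ((1 / κ + 1 / (2 * κ ^ 2)) * L) < L := by
    have h7 : (κ - 1) * (1 / κ + 1 / (2 * κ ^ 2)) < 1 := by
      have hκ0 : κ ≠ 0 := by linarith
      have h8 : (κ - 1) * (1 / κ + 1 / (2 * κ ^ 2)) = 1 - (κ + 1) / (2 * κ ^ 2) := by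
        field_simp
        ring
      rw [h8]
      have : 0 < (κ + 1) / (2 * κ ^ 2) := by positivity
      linarith
    have h9 := mul_lt_mul_of_pos_right h7 (by linarith : (0 : ℝ) < L)
    rw [one_mul] at h9
    rwa [← mul_assoc]
  linarith

end Pool.Agent.Q29.Dig
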