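import Mathlib
import Pool.Agent.Q29.DigMany
import Pool.Agent.TH550.NRZ.Elim

/-!
# The digits of linear combinations: linearly independent directions

The approximations given by a short recurrence of the digits, combined with inequalities for linearly
independent near relations.
-/

set_option autoImplicit false

namespace Pool.Agent.Q29.DD

open Finset

/-- the `i`-th digit of `x` after the point in base `g` -/
noncomputable def digit (g : ℕ) (x : ℝ) (i : ℕ) : ℤ := ⌊x * (g : ℝ) ^ i⌋ % (g : ℤ)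

/-- the linear complexity of the first `L` digits of `x` in base `g` -/
noncomputable def complexity (g : ℕ) (x : ℝ) (L : ℕ) : ℕ :=
  sInf {m | ∃ c : ℕ → ℚ, ∀ i : ℕ, 1 ≤ i → i + m ≤ L →
    (digit g x (i + m) : ℚ) = ∑ j ∈ range m, c j * (digit g x (i + j) : ℚ)}

/-- the function `m + C √((m+1) log (m+2))` -/
noncomputable def F (C : ℝ) (m : ℕ) : ℝ :=
  m + C * Real.sqrt (((m : ℝ) + 1) * Real.log ((m : ℝ) + 2))

open Pool.Agent.W47.JL in
/-- the approximations given by a recurrence of the digits -/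
theorem approx (g : ℕ) (hg : 2 ≤ g) (x : ℝ) (L : ℕ) : ∃ q : ℕ, 1 ≤ q ∧ ∃ p : ℤ,
    (q : ℝ) ≤ Real.exp (((complexity g x L : ℝ) + 15 * err (complexity g x L) + 1) * Real.log g) ∧
    |(q : ℝ) * x - p| ≤ Real.exp (((complexity g x L : ℝ) + 15 * err (complexity g x L) + 1) * Real.log g -
      L * Real.log g) := by
  have hg0 : (0 : ℝ) < g := by exact_mod_cast (by omega : 0 < g)
  obtain ⟨n, hn⟩ := Pool.Agent.Q29.Dig.digit_sum g hg x
  have hatt : ∃ c : ℕ → ℚ, ∀ i : ℕ, 1 ≤ i → i + complexity g x L ≤ L →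
      (digit g x (i + complexity g x L) : ℚ) = ∑ j ∈ range (complexity g x L), c j * (digit g x (i + j) : ℚ) := by
    refine Nat.sInf_mem (s := {m | ∃ c : ℕ → ℚ, ∀ i : ℕ, 1 ≤ i → i + m ≤ L →
      (digit g x (i + m) : ℚ) = ∑ j ∈ range m, c j * (digit g x (i + j) : ℚ)}) ?_
    exact ⟨L, fun _ => 0, fun i h1 h2 => by omega⟩
  obtain ⟨c, hc⟩ := hatt
  obtain ⟨N, hN⟩ : ∃ N, N = complexity g x L := ⟨_, rfl⟩
  rw [← hN] at hc ⊢
  have hdig : ∀ i, |digit g x (i + 1)| ≤ ((g ^ 1 : ℕ) : ℤ) := by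
    intro i
    have h0 : 0 ≤ digit g x (i + 1) := Int.emod_nonneg _ (by omega)
    rw [abs_of_nonneg h0, pow_one]
    exact (Int.emod_lt_of_pos _ (by omega : (0 : ℤ) < g)).le
  obtain ⟨q, hq, p, h1, h2⟩ := Pool.Agent.Y928.PL.core2 1 g le_rfl hg (x - n) (fun i => digit g x (i + 1)) hdig hn
    L N c (fun i hi => by
      have h3 := hc (i + 1) (by omega) (by omega)
      rw [show i + N + 1 = i + 1 + N by ring, h3]
      exact Finset.sum_congr rfl fun l _ => by rw [show i + l + 1 = i + 1 + l by ring])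
  refine ⟨q, hq, p + q * n, ?_, ?_⟩
  · rw [Real.rpow_def_of_pos hg0] at h1
    refine h1.trans (le_of_eq ?_)
    congr 1
    push_cast
    ring
  · have e : (q : ℝ) * x - ((p + q * n : ℤ) : ℝ) = (q : ℝ) * (x - n) - p := by push_cast; ring
    rw [e]
    rw [Real.rpow_def_of_pos hg0] at h2
    refine h2.trans (le_of_eq ?_)
    congr 1
    push_cast
    ring

open Pool.Agent.W47.JL in
/-- the error term is small for all bases -/
theorem err_small (ρ Λ u : ℝ) (N : ℕ) (hρ : 0 < ρ) (hρ1 : ρ ≤ 1 / 2) (hΛ : 0 < Λ) (hu : 0 < u)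
    (hu' : u ≤ ρ ^ 4 * Λ) (hN : (N : ℝ) * u ≤ Λ / 4) : err N * u ≤ 2 * ρ * Λ := by
  have hN0 : (0 : ℝ) ≤ N := Nat.cast_nonneg _
  have hρ4 : ρ ^ 4 ≤ 1 / 4 := by
    have h1 : ρ ^ 2 ≤ 1 / 4 := by nlinarith
    have h2 : 0 ≤ ρ ^ 2 := by positivity
    nlinarith
  have hu1 : u ≤ Λ / 4 := by nlinarith
  have h1 : ((N : ℝ) + 1) * u ≤ Λ := by nlinarith
  have h2 : ((N : ℝ) + 2) * u ≤ Λ := by nlinarith
  have hl0 : 0 ≤ Real.log ((N : ℝ) + 2) := Real.log_nonneg (by linarith)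
  have h3 : Real.log ((N : ℝ) + 2) ≤ 2 * Real.sqrt ((N : ℝ) + 2) := by
    have h4 : (0 : ℝ) < (N : ℝ) + 2 := by linarith
    have h5 : Real.log ((N : ℝ) + 2) = 2 * Real.log (Real.sqrt ((N : ℝ) + 2)) := by
      rw [Real.log_sqrt h4.le]; ring
    have h6 := Real.log_le_sub_one_of_pos (Real.sqrt_pos.2 h4)
    rw [h5]
    linarith
  have h4 : (u * Real.log ((N : ℝ) + 2)) ^ 2 ≤ (2 * ρ ^ 2 * Λ) ^ 2 := by
    calc (u * Real.log ((N : ℝ) + 2)) ^ 2 = u ^ 2 * (Real.log ((N : ℝ) + 2)) ^ 2 := by ring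
      _ ≤ u ^ 2 * (2 * Real.sqrt ((N : ℝ) + 2)) ^ 2 := by gcongr
      _ = 4 * u * (((N : ℝ) + 2) * u) := by
          rw [mul_pow, Real.sq_sqrt (by linarith)]
          ring
      _ ≤ 4 * (ρ ^ 4 * Λ) * Λ := by gcongr
      _ = _ := by ring
  have h5 : u * Real.log ((N : ℝ) + 2) ≤ 2 * ρ ^ 2 * Λ := by
    have := abs_le_of_sq_le_sq' h4 (by positivity)
    exact this.2
  have h6 : (err N * u) ^ 2 ≤ (2 * ρ * Λ) ^ 2 := by
    have e1 : (err N) ^ 2 = ((N : ℝ) + 1) * Real.log ((N : ℝ) + 2) := by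
      unfold err
      rw [Real.sq_sqrt (by positivity)]
    calc (err N * u) ^ 2 = (((N : ℝ) + 1) * u) * (u * Real.log ((N : ℝ) + 2)) := by
          rw [mul_pow, e1]; ring
      _ ≤ Λ * (2 * ρ ^ 2 * Λ) := by gcongr
      _ ≤ (2 * ρ * Λ) ^ 2 := by nlinarith [sq_nonneg (ρ * Λ)]
  exact (abs_le_of_sq_le_sq' h6 (by positivity)).2

/-- vectors obtained by a multiplication and the addition of a coordinate are linearly independent -/
theorem li_ext {m r n : ℕ} (a : Fin n → Fin m → ℤ) (e : Fin n → Fin r → ℤ)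
    (h : LinearIndependent ℤ (fun k => (a k, e k))) (q : Fin n → ℕ) (hq : ∀ k, 1 ≤ q k) (p : Fin n → ℤ) :
    LinearIndependent ℤ (fun k => ((Fin.cons (p k) fun j => (q k : ℤ) * a k j : Fin (m + 1) → ℤ),
      fun j => (q k : ℤ) * e k j)) := by
  rw [Fintype.linearIndependent_iff] at h ⊢
  intro g hg
  have h1 := h (fun k => g k * q k) (by
    rw [Prod.ext_iff] at hg ⊢
    obtain ⟨hg1, hg2⟩ := hg
    rw [Prod.fst_sum] at hg1
    rw [Prod.snd_sum] at hg2
    rw [Prod.fst_sum, Prod.snd_sum]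
    constructor
    · funext j
      have h2 := congrFun hg1 j.succ
      rw [Finset.sum_apply] at h2 ⊢
      simp only [Prod.smul_fst, Pi.smul_apply, Fin.cons_succ, smul_eq_mul, Prod.fst_zero, Pi.zero_apply] at h2 ⊢
      rw [← h2]
      exact Finset.sum_congr rfl fun k _ => by ring
    · funext j
      have h2 := congrFun hg2 j
      rw [Finset.sum_apply] at h2 ⊢
      simp only [Prod.smul_snd, Pi.smul_apply, smul_eq_mul, Prod.snd_zero, Pi.zero_apply] at h2 ⊢
      rw [← h2]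
      exact Finset.sum_congr rfl fun k _ => by ring)
  intro k
  have h2 := h1 k
  rcases mul_eq_zero.1 h2 with h3 | h3
  · exact h3
  · have := hq k
    have h4 : q k = 0 := by exact_mod_cast h3
    omega

open Pool.Agent.W47.JL in
/-- **The digits of linear combinations, the product form.** -/
theorem prod_digits {m : ℕ} (θ : Fin m → ℝ) (μ c : ℝ) (hμ : 0 ≤ μ) (hc : 0 < c)
    (hm : Pool.Agent.W472.AC.Meas (Fin.cons 1 θ : Fin (m + 1) → ℝ) μ c) (r : ℕ) :
    ∃ C : ℝ, 0 < C ∧ ∀ (t : Fin r → ℝ) (a : Fin (r + 1) → Fin m → ℤ) (e : Fin (r + 1) → Fin r → ℤ),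
      LinearIndependent ℤ (fun k => (a k, e k)) → ∀ M : ℝ, 1 ≤ M → (∀ k j, |(a k j : ℝ)| ≤ M) →
      (∀ k j, |(e k j : ℝ)| ≤ M) → ∀ g : Fin (r + 1) → ℕ, (∀ k, 2 ≤ g k) → ∀ (L : Fin (r + 1) → ℕ) (Λ : ℝ),
      (∀ k, Λ ≤ L k * Real.log (g k)) →
        Λ ≤ (μ + 1) * ∑ k, F C (complexity (g k) (∑ j, (a k j : ℝ) * θ j + ∑ j, (e k j : ℝ) * t j) (L k)) *
          Real.log (g k) + (μ + 1) * (r + 1) * Real.log M := by
  obtain ⟨c', hc', hp⟩ := Pool.Agent.TH550.NRZ.product_ineq (m := m) (Fin.cons 1 θ) μ c hμ hc hm r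
  obtain ⟨S, hS⟩ : ∃ S : ℝ, S = (∑ j, |θ j|) + r + 2 := ⟨_, rfl⟩
  have hθ0 : 0 ≤ ∑ j, |θ j| := Finset.sum_nonneg fun j _ => abs_nonneg _
  have hS2 : 2 ≤ S := by
    rw [hS]
    have : (0 : ℝ) ≤ r := Nat.cast_nonneg _
    linarith
  obtain ⟨K, hK⟩ : ∃ K : ℝ, K = (μ + 1) * (r + 1) * Real.log S + Real.log (r + 1) + |Real.log c'| := ⟨_, rfl⟩
  have hlS : 0 ≤ Real.log S := Real.log_nonneg (by linarith)
  have hr1 : (1 : ℝ) ≤ (r : ℝ) + 1 := by
    have : (0 : ℝ) ≤ r := Nat.cast_nonneg _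
    linarith
  have hlr : 0 ≤ Real.log ((r : ℝ) + 1) := Real.log_nonneg hr1
  have hl2 : 0.69 < Real.log 2 := by have := Real.log_two_gt_d9; linarith
  have hK0 : 0 ≤ K := by rw [hK]; positivity
  refine ⟨17 + 2 * K, by positivity, ?_⟩
  intro t a e hli M hM ha he g hg L Λ hΛ
  have hM0 : 0 < M := by linarith
  obtain ⟨x, hx⟩ : ∃ x : Fin (r + 1) → ℝ, x = fun k => ∑ j, (a k j : ℝ) * θ j + ∑ j, (e k j : ℝ) * t j := ⟨_, rfl⟩
  have hxk : ∀ k, ∑ j, (a k j : ℝ) * θ j + ∑ j, (e k j : ℝ) * t j = x k := fun k => by rw [hx]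
  simp only [hxk]
  have hg0 : ∀ k, (2 : ℝ) ≤ g k := fun k => by exact_mod_cast hg k
  obtain ⟨u, hu⟩ : ∃ u : Fin (r + 1) → ℝ, u = fun k => Real.log (g k) := ⟨_, rfl⟩
  have huk : ∀ k, Real.log (g k) = u k := fun k => by rw [hu]
  have hu2 : ∀ k, 0.69 ≤ u k := by
    intro k
    rw [← huk k]
    exact hl2.le.trans (Real.log_le_log (by norm_num) (hg0 k))
  have happ := fun k => approx (g k) (hg k) (x k) (L k)
  choose q hq p h1 h2 using happ
  obtain ⟨N, hN⟩ : ∃ N : Fin (r + 1) → ℕ, N = fun k => complexity (g k) (x k) (L k) := ⟨_, rfl⟩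
  have hNk : ∀ k, complexity (g k) (x k) (L k) = N k := fun k => by rw [hN]
  simp only [hNk, huk] at h1 h2 hΛ ⊢
  obtain ⟨A, hA⟩ : ∃ A : Fin (r + 1) → ℝ, A = fun k => ((N k : ℝ) + 15 * err (N k) + 1) * u k := ⟨_, rfl⟩
  have hAk : ∀ k, ((N k : ℝ) + 15 * err (N k) + 1) * u k = A k := fun k => by rw [hA]
  simp only [hAk] at h1 h2
  have hA0 : ∀ k, 0 ≤ A k := by
    intro k
    rw [← hAk k]
    have := err_ge (N k)
    have := hu2 k
    positivity
  -- reduction modulo one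
  obtain ⟨f, hf⟩ : ∃ f : Fin r → ℤ, f = fun j => ⌊t j⌋ := ⟨_, rfl⟩
  obtain ⟨t', ht'⟩ : ∃ t' : Fin r → ℝ, t' = fun j => t j - f j := ⟨_, rfl⟩
  have ht'1 : ∀ j, |t' j| ≤ 1 := by
    intro j
    rw [ht', hf]
    have h3 := Int.floor_le (t j)
    have h4 := Int.lt_floor_add_one (t j)
    rw [abs_le]
    constructor
    · change -1 ≤ t j - (⌊t j⌋ : ℝ)
      linarith
    · change t j - (⌊t j⌋ : ℝ) ≤ 1
      linarith
  obtain ⟨x', hx'⟩ : ∃ x' : Fin (r + 1) → ℝ, x' = fun k => ∑ j, (a k j : ℝ) * θ j + ∑ j, (e k j : ℝ) * t' j := ⟨_, rfl⟩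
  obtain ⟨n, hn⟩ : ∃ n : Fin (r + 1) → ℤ, n = fun k => ∑ j, e k j * f j := ⟨_, rfl⟩
  have hxx : ∀ k, x k = x' k + n k := by
    intro k
    rw [hx, hx', hn]
    simp only
    push_cast
    rw [add_assoc, ← Finset.sum_add_distrib]
    congr 1
    refine Finset.sum_congr rfl fun j _ => ?_
    rw [ht']
    ring
  have hx'le : ∀ k, |x' k| ≤ M * (S - 2) := by
    intro k
    rw [hx']
    refine (abs_add_le _ _).trans ?_
    have h3 : |∑ j, (a k j : ℝ) * θ j| ≤ M * ∑ j, |θ j| := by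
      refine (Finset.abs_sum_le_sum_abs _ _).trans ?_
      rw [Finset.mul_sum]
      refine Finset.sum_le_sum fun j _ => ?_
      rw [abs_mul]
      exact mul_le_mul_of_nonneg_right (ha k j) (abs_nonneg _)
    have h4 : |∑ j, (e k j : ℝ) * t' j| ≤ M * r := by
      refine (Finset.abs_sum_le_sum_abs _ _).trans ?_
      calc ∑ j, |(e k j : ℝ) * t' j| ≤ ∑ _j : Fin r, M := by
            refine Finset.sum_le_sum fun j _ => ?_
            rw [abs_mul]
            calc |(e k j : ℝ)| * |t' j| ≤ M * 1 := mul_le_mul (he k j) (ht'1 j) (abs_nonneg _) hM0.le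
              _ = M := mul_one _
        _ = M * r := by
            rw [Finset.sum_const, Finset.card_univ, Fintype.card_fin, nsmul_eq_mul]
            ring
    rw [hS]
    nlinarith
  obtain ⟨P, hP⟩ : ∃ P : Fin (r + 1) → ℤ, P = fun k => -(p k - q k * n k) := ⟨_, rfl⟩
  have hval : ∀ k, (P k : ℝ) + q k * x' k = q k * x k - p k := by
    intro k
    rw [hP, hxx k]
    push_cast
    ring
  -- the conclusion is trivial for small `Λ`
  by_cases hsmall : ∃ k, 0 < A k - L k * u k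
  · obtain ⟨k, hk⟩ := hsmall
    have h3 : Λ ≤ A k := (hΛ k).trans (by linarith)
    have h4 : A k ≤ F (17 + 2 * K) (N k) * u k := by
      rw [← hAk k]
      refine mul_le_mul_of_nonneg_right ?_ (by have := hu2 k; linarith)
      unfold F
      have e2 : Real.sqrt (((N k : ℝ) + 1) * Real.log ((N k : ℝ) + 2)) = err (N k) := rfl
      rw [e2]
      have h5 := err_ge (N k)
      have h6 : 0 ≤ K * err (N k) := by positivity
      nlinarith
    have h5 : F (17 + 2 * K) (N k) * u k ≤ ∑ k, F (17 + 2 * K) (N k) * u k := by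
      refine Finset.single_le_sum (f := fun k => F (17 + 2 * K) (N k) * u k) (fun i _ => ?_) (Finset.mem_univ k)
      have := hu2 i
      unfold F
      positivity
    have h6 : 0 ≤ ∑ k, F (17 + 2 * K) (N k) * u k := (hA0 k).trans (h4.trans h5)
    have h7 : 0 ≤ (μ + 1) * (r + 1) * Real.log M := by
      have := Real.log_nonneg hM
      positivity
    nlinarith
  push Not at hsmall
  have hforms : ∀ k, |(q k : ℝ) * x k - p k| ≤ 1 := by
    intro k
    refine (h2 k).trans ?_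
    rw [← Real.exp_zero]
    exact Real.exp_le_exp.2 (hsmall k)
  obtain ⟨h, hh⟩ : ∃ h : Fin (r + 1) → ℝ, h = fun k => Real.exp (A k) * (M * S) := ⟨_, rfl⟩
  have hhk : ∀ k, h k = Real.exp (A k) * (M * S) := fun k => by rw [hh]
  have hMS : 2 ≤ M * S := by nlinarith
  have hexp1 : ∀ k, 1 ≤ Real.exp (A k) := fun k => Real.one_le_exp (hA0 k)
  have hh1 : ∀ k, 1 ≤ h k := by
    intro k
    rw [hhk]
    nlinarith [hexp1 k]
  have hcoe : ∀ k (z : ℤ), |(z : ℝ)| ≤ M → |((q k * z : ℤ) : ℝ)| ≤ h k := by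
    intro k z hz
    rw [hhk]
    push_cast
    rw [abs_mul, Nat.abs_cast]
    calc (q k : ℝ) * |(z : ℝ)| ≤ Real.exp (A k) * M := mul_le_mul (h1 k) hz (abs_nonneg _) (Real.exp_pos _).le
      _ ≤ Real.exp (A k) * (M * S) := by
          refine mul_le_mul_of_nonneg_left ?_ (Real.exp_pos _).le
          nlinarith
  have hPle : ∀ k, |(P k : ℝ)| ≤ h k := by
    intro k
    have e1 : (P k : ℝ) = (q k * x k - p k) - q k * x' k := by rw [← hval k]; ring
    rw [e1, hhk]
    refine (abs_sub _ _).trans ?_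
    rw [abs_mul, Nat.abs_cast]
    have h3 : (q k : ℝ) * |x' k| ≤ Real.exp (A k) * (M * (S - 2)) :=
      mul_le_mul (h1 k) (hx'le k) (abs_nonneg _) (Real.exp_pos _).le
    have h4 := hforms k
    have h5 : 1 ≤ Real.exp (A k) * M := by nlinarith [hexp1 k]
    nlinarith
  have hfin := hp t' (fun k => Fin.cons (P k) fun j => (q k : ℤ) * a k j) (fun k j => (q k : ℤ) * e k j)
    (li_ext a e hli q hq P) h hh1 (by
      intro k j
      refine Fin.cases ?_ (fun i => ?_) j
      · rw [Fin.cons_zero]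
        exact hPle k
      · rw [Fin.cons_succ]
        exact hcoe k _ (ha k i)) (fun k j => hcoe k _ (he k j))
  have hsum : ∑ i, |(∑ j, (((Fin.cons (P i) fun j => (q i : ℤ) * a i j : Fin (m + 1) → ℤ) j : ℤ) : ℝ) *
      (Fin.cons 1 θ : Fin (m + 1) → ℝ) j) + ∑ j, (((q i : ℤ) * e i j : ℤ) : ℝ) * t' j| / h i ≤
      ((r : ℝ) + 1) * Real.exp (-Λ) := by
    calc _ ≤ ∑ _i : Fin (r + 1), Real.exp (-Λ) := by
          refine Finset.sum_le_sum fun k _ => ?_
          have e1 : (∑ j, (((Fin.cons (P k) fun j => (q k : ℤ) * a k j : Fin (m + 1) → ℤ) j : ℤ) : ℝ) *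
              (Fin.cons 1 θ : Fin (m + 1) → ℝ) j) + ∑ j, (((q k : ℤ) * e k j : ℤ) : ℝ) * t' j =
              q k * x k - p k := by
            rw [Fin.sum_univ_succ, ← hval k, hx']
            simp only [Fin.cons_zero, Fin.cons_succ]
            push_cast
            rw [mul_one, mul_add, Finset.mul_sum, Finset.mul_sum, add_assoc]
            congr 1
            congr 1
            · exact Finset.sum_congr rfl fun j _ => by ring
            · exact Finset.sum_congr rfl fun j _ => by ring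
          rw [e1, div_le_iff₀ (by linarith [hh1 k] : 0 < h k), hhk, ← mul_assoc, ← Real.exp_add]
          refine (h2 k).trans ?_
          have h3 : Real.exp (A k - L k * u k) ≤ Real.exp (-Λ + A k) := by
            apply Real.exp_le_exp.2
            have := hΛ k
            linarith
          have h4 : 0 < Real.exp (-Λ + A k) := Real.exp_pos _
          nlinarith
      _ = _ := by
          rw [Finset.sum_const, Finset.card_univ, Fintype.card_fin, nsmul_eq_mul]
          push_cast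
          ring
  have h3 := hfin.trans hsum
  have h4 : Real.log (c' * ∏ i, h i ^ (-(μ + 1))) ≤ Real.log (((r : ℝ) + 1) * Real.exp (-Λ)) := by
    refine Real.log_le_log ?_ h3
    refine mul_pos hc' (Finset.prod_pos fun i _ => ?_)
    exact Real.rpow_pos_of_pos (by linarith [hh1 i]) _
  rw [Real.log_mul hc'.ne' (Finset.prod_ne_zero_iff.2 fun i _ =>
    (Real.rpow_pos_of_pos (by linarith [hh1 i] : 0 < h i) _).ne'), Real.log_prod (fun i _ =>
    (Real.rpow_pos_of_pos (by linarith [hh1 i] : 0 < h i) _).ne'),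
    Real.log_mul (by positivity) (Real.exp_pos _).ne', Real.log_exp] at h4
  have h5 : ∑ i, Real.log (h i ^ (-(μ + 1))) = -(μ + 1) * ∑ k, A k - (μ + 1) * (r + 1) * (Real.log M + Real.log S) := by
    calc ∑ i, Real.log (h i ^ (-(μ + 1))) = ∑ i, (-(μ + 1) * A i + -(μ + 1) * (Real.log M + Real.log S)) := by
          refine Finset.sum_congr rfl fun i _ => ?_
          rw [Real.log_rpow (by linarith [hh1 i] : 0 < h i), hhk, Real.log_mul (Real.exp_pos _).ne' (by positivity),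
            Real.log_exp, Real.log_mul hM0.ne' (by linarith)]
          ring
      _ = _ := by
          rw [Finset.sum_add_distrib, ← Finset.mul_sum, Finset.sum_const, Finset.card_univ, Fintype.card_fin,
            nsmul_eq_mul]
          push_cast
          ring
  rw [h5] at h4
  have h6 := neg_abs_le (Real.log c')
  have key : Λ ≤ (μ + 1) * ∑ k, A k + (μ + 1) * (r + 1) * Real.log M + K := by
    rw [hK]
    nlinarith
  refine key.trans ?_
  have h7 : ∑ k, A k + K ≤ ∑ k, F (17 + 2 * K) (N k) * u k := by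
    have h8 : ∑ k, A k + ∑ k, 2 * K * (err (N k) * u k) ≤ ∑ k, F (17 + 2 * K) (N k) * u k := by
      rw [← Finset.sum_add_distrib]
      refine Finset.sum_le_sum fun k _ => ?_
      rw [← hAk k]
      unfold F
      have e2 : Real.sqrt (((N k : ℝ) + 1) * Real.log ((N k : ℝ) + 2)) = err (N k) := rfl
      rw [e2]
      have h9 := err_ge (N k)
      have h10 := hu2 k
      have h11 : (1 : ℝ) * u k ≤ 2 * err (N k) * u k := by
        apply mul_le_mul_of_nonneg_right _ (by linarith)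
        linarith
      have e3 : ((N k : ℝ) + (17 + 2 * K) * err (N k)) * u k =
        ((N k : ℝ) + 15 * err (N k)) * u k + 2 * err (N k) * u k + 2 * K * (err (N k) * u k) := by ring
      rw [e3]
      linarith
    have h9 : K ≤ ∑ k, 2 * K * (err (N k) * u k) := by
      have h10 : 2 * K * (err (N 0) * u 0) ≤ ∑ k, 2 * K * (err (N k) * u k) := by
        refine Finset.single_le_sum (f := fun k => 2 * K * (err (N k) * u k)) (fun i _ => ?_) (Finset.mem_univ 0)
        have := hu2 i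
        have := err_ge (N i)
        positivity
      refine le_trans ?_ h10
      have h11 := err_ge (N 0)
      have h12 := hu2 0
      have h13 : 0.5 ≤ err (N 0) * u 0 := by nlinarith
      nlinarith
    linarith
  have h8 : (μ + 1) * (∑ k, A k + K) ≤ (μ + 1) * ∑ k, F (17 + 2 * K) (N k) * u k :=
    mul_le_mul_of_nonneg_left h7 (by linarith)
  have h9 : K ≤ (μ + 1) * K := by nlinarith
  linarith

open Pool.Agent.W47.JL in
/-- **From the inequality to one scale.** If for `n` linearly independent directions with complexities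
`N_k ≤ a / log g_k` (up to the error term) at the scale `Λ` one has `Λ ≤ K a + D log M`, then one of the `n`
complexities is at least `(1 / K - ε) Λ / log g_k`. -/
theorem scale {n : ℕ} (K C D ε : ℝ) (hK : 4 ≤ K) (hC : 0 < C) (hD : 0 ≤ D) (hε : 0 < ε) :
    ∃ δ : ℝ, 0 < δ ∧ ∀ (Λ : ℝ), 1 ≤ Λ → ∀ (x : Fin n → ℝ) (g : Fin n → ℕ), (∀ k, 2 ≤ g k) →
      (∀ k, (g k : ℝ) ≤ Real.exp (δ * Λ)) →
      (∀ (L : Fin n → ℕ) (a Λ' : ℝ), (∀ k, Λ' ≤ L k * Real.log (g k)) →
        (∀ k, F C (complexity (g k) (x k) (L k)) * Real.log (g k) ≤ a) →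
          Λ' ≤ K * a + D * (δ * Λ)) →
      ∃ k, (1 / K - ε) * (Λ / Real.log (g k)) ≤ complexity (g k) (x k) ⌊Λ / Real.log (g k)⌋₊ := by
  obtain ⟨ρ, hρE⟩ : ∃ ρ : ℝ, ρ = min (1 / 2) (min (ε / (8 * C)) (ε / (2 * (1 + D)))) := ⟨_, rfl⟩
  have hρ0 : 0 < ρ := by rw [hρE]; positivity
  have hρ1 : ρ ≤ 1 / 2 := by rw [hρE]; exact min_le_left _ _
  have hρ2 : ρ ≤ ε / (8 * C) := by rw [hρE]; exact (min_le_right _ _).trans (min_le_left _ _)
  have hρ3 : ρ ≤ ε / (2 * (1 + D)) := by rw [hρE]; exact (min_le_right _ _).trans (min_le_right _ _)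
  have hρ2' : 8 * C * ρ ≤ ε := by
    have := (le_div_iff₀ (by positivity)).1 hρ2
    linarith
  have hρ3' : 2 * (1 + D) * ρ ≤ ε := by
    have := (le_div_iff₀ (by positivity)).1 hρ3
    linarith
  obtain ⟨δ, hδE⟩ : ∃ δ : ℝ, δ = ρ ^ 4 := ⟨_, rfl⟩
  have hδ0 : 0 < δ := by rw [hδE]; positivity
  have hδ1 : δ ≤ ρ := by
    rw [hδE]
    have h1 : ρ ^ 2 ≤ 1 / 4 := by nlinarith
    have h2 : 0 ≤ ρ ^ 2 := by positivity
    nlinarith [mul_nonneg h2 hρ0.le]
  refine ⟨δ, hδ0, ?_⟩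
  intro Λ hΛ x g hg hgL hyp
  have hΛ0 : 0 < Λ := by linarith
  have hK0 : 0 < K := by linarith
  by_contra hcon
  push Not at hcon
  have hu0 : ∀ k, 0 < Real.log (g k) := fun k => Real.log_pos (by
    have : (2 : ℝ) ≤ g k := by exact_mod_cast hg k
    linarith)
  have hu1 : ∀ k, Real.log (g k) ≤ δ * Λ := by
    intro k
    rw [← Real.log_exp (δ * Λ)]
    exact Real.log_le_log (by have : (2 : ℝ) ≤ g k := by exact_mod_cast hg k
                              linarith) (hgL k)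
  have h1 := hyp (fun k => ⌊Λ / Real.log (g k)⌋₊) ((1 / K - ε) * Λ + C * (2 * ρ * Λ)) ((1 - δ) * Λ) (by
    intro k
    have h2 := Nat.lt_floor_add_one (Λ / Real.log (g k))
    have h3 : Λ / Real.log (g k) * Real.log (g k) ≤
        (((⌊Λ / Real.log (g k)⌋₊ : ℕ) : ℝ) + 1) * Real.log (g k) := mul_le_mul_of_nonneg_right h2.le (hu0 k).le
    rw [div_mul_cancel₀ _ (hu0 k).ne'] at h3
    have := hu1 k
    linarith) (by
    intro k
    obtain ⟨N, hN⟩ : ∃ N, N = complexity (g k) (x k) ⌊Λ / Real.log (g k)⌋₊ := ⟨_, rfl⟩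
    obtain ⟨u, hu⟩ : ∃ u, u = Real.log (g k) := ⟨_, rfl⟩
    have h2 := hcon k
    have h3 := hu0 k
    have h4 := hu1 k
    rw [← hN, ← hu] at h2
    rw [← hu] at h3 h4
    rw [← hN, ← hu]
    have hNu : (N : ℝ) * u < (1 / K - ε) * Λ := by
      have := mul_lt_mul_of_pos_right h2 h3
      calc (N : ℝ) * u < (1 / K - ε) * (Λ / u) * u := this
        _ = _ := by field_simp
    have h1K : 1 / K ≤ 1 / 4 := one_div_le_one_div_of_le (by norm_num) hK
    have e1 := err_small ρ Λ u N hρ0 hρ1 hΛ0 h3 (by rw [← hδE]; exact h4) (by nlinarith)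
    have e4 : F C N * u = N * u + C * (err N * u) := by
      unfold F err
      ring
    rw [e4]
    have := mul_le_mul_of_nonneg_left e1 hC.le
    linarith)
  have h2 : (1 - δ) * Λ ≤ (K * ((1 / K - ε) + C * (2 * ρ)) + D * δ) * Λ := by
    refine h1.trans (le_of_eq ?_)
    ring
  have h3 := le_of_mul_le_mul_right h2 hΛ0
  have h4 : K * ((1 / K - ε) + C * (2 * ρ)) = 1 - K * ε + K * (2 * C * ρ) := by
    field_simp
  rw [h4] at h3
  have h5 : 2 * C * ρ ≤ ε / 4 := by linarith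
  have h6 : K * (2 * C * ρ) ≤ K * (ε / 4) := mul_le_mul_of_nonneg_left h5 hK0.le
  have h7 : (1 + D) * δ ≤ (1 + D) * ρ := mul_le_mul_of_nonneg_left hδ1 (by linarith)
  nlinarith

end Pool.Agent.Q29.DD
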