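import Mathlib
import Pool.Agent.Q29.DigDir

/-!
# The digits of linear combinations: linearly independent directions, the maximum form
-/

set_option autoImplicit false

namespace Pool.Agent.Q29.DD

open Finset

/-- the value of a form -/
noncomputable def val {m r : ℕ} (θ : Fin m → ℝ) (t : Fin r → ℝ) (v : (Fin (m + 1) → ℤ) × (Fin r → ℤ)) : ℝ :=
  v.1 0 + ∑ j, (v.1 j.succ : ℝ) * θ j + ∑ j, (v.2 j : ℝ) * t j

open Pool.Agent.W47.JL in
/-- **The digits of linear combinations, the maximum form.** -/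
theorem max_digits {m r n : ℕ} (θ : Fin m → ℝ) (E c : ℝ) (hE : 0 ≤ E) (hc : 0 < c)
    (hm : ∀ (t : Fin r → ℝ) (X : ℝ), 1 ≤ X → ∀ v : Fin n → (Fin (m + 1) → ℤ) × (Fin r → ℤ),
      LinearIndependent ℤ v → (∀ k, ‖v k‖ ≤ X) → ∃ k, c * X ^ (-E) ≤ |val θ t (v k)|) :
    ∃ C : ℝ, 0 < C ∧ ∀ (t : Fin r → ℝ) (a : Fin n → Fin m → ℤ) (e : Fin n → Fin r → ℤ),
      LinearIndependent ℤ (fun k => (a k, e k)) → ∀ M : ℝ, 1 ≤ M → (∀ k j, |(a k j : ℝ)| ≤ M) →
      (∀ k j, |(e k j : ℝ)| ≤ M) → ∀ g : Fin n → ℕ, (∀ k, 2 ≤ g k) → ∀ (L : Fin n → ℕ) (Λ α : ℝ),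
      (∀ k, Λ ≤ L k * Real.log (g k)) →
      (∀ k, F C (complexity (g k) (∑ j, (a k j : ℝ) * θ j + ∑ j, (e k j : ℝ) * t j) (L k)) *
          Real.log (g k) ≤ α) → Λ ≤ (E + 1) * α + E * Real.log M := by
  obtain ⟨S, hS⟩ : ∃ S : ℝ, S = (∑ j, |θ j|) + r + 2 := ⟨_, rfl⟩
  have hθ0 : 0 ≤ ∑ j, |θ j| := Finset.sum_nonneg fun j _ => abs_nonneg _
  have hS2 : 2 ≤ S := by
    rw [hS]
    have : (0 : ℝ) ≤ r := Nat.cast_nonneg _
    linarith
  obtain ⟨K, hK⟩ : ∃ K : ℝ, K = E * Real.log S + |Real.log c| := ⟨_, rfl⟩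
  have hlS : 0 ≤ Real.log S := Real.log_nonneg (by linarith)
  have hl2 : 0.69 < Real.log 2 := by have := Real.log_two_gt_d9; linarith
  have hK0 : 0 ≤ K := by rw [hK]; positivity
  refine ⟨17 + 2 * K, by positivity, ?_⟩
  intro t a e hli M hM ha he g hg L Λ α hΛ hα
  have hM0 : 0 < M := by linarith
  obtain ⟨x, hx⟩ : ∃ x : Fin n → ℝ, x = fun k => ∑ j, (a k j : ℝ) * θ j + ∑ j, (e k j : ℝ) * t j := ⟨_, rfl⟩
  have hxk : ∀ k, ∑ j, (a k j : ℝ) * θ j + ∑ j, (e k j : ℝ) * t j = x k := fun k => by rw [hx]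
  simp only [hxk] at hα
  have hg0 : ∀ k, (2 : ℝ) ≤ g k := fun k => by exact_mod_cast hg k
  obtain ⟨u, hu⟩ : ∃ u : Fin n → ℝ, u = fun k => Real.log (g k) := ⟨_, rfl⟩
  have huk : ∀ k, Real.log (g k) = u k := fun k => by rw [hu]
  have hu2 : ∀ k, 0.69 ≤ u k := by
    intro k
    rw [← huk k]
    exact hl2.le.trans (Real.log_le_log (by norm_num) (hg0 k))
  have happ := fun k => approx (g k) (hg k) (x k) (L k)
  choose q hq p h1 h2 using happ
  obtain ⟨N, hN⟩ : ∃ N : Fin n → ℕ, N = fun k => complexity (g k) (x k) (L k) := ⟨_, rfl⟩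
  have hNk : ∀ k, complexity (g k) (x k) (L k) = N k := fun k => by rw [hN]
  simp only [hNk, huk] at h1 h2 hΛ hα ⊢
  obtain ⟨A, hA⟩ : ∃ A : Fin n → ℝ, A = fun k => ((N k : ℝ) + 15 * err (N k) + 1) * u k := ⟨_, rfl⟩
  have hAk : ∀ k, ((N k : ℝ) + 15 * err (N k) + 1) * u k = A k := fun k => by rw [hA]
  simp only [hAk] at h1 h2
  have hA0 : ∀ k, 0 ≤ A k := by
    intro k
    rw [← hAk k]
    have := err_ge (N k)
    have := hu2 k
    positivity
  have hAK : ∀ k, A k + K ≤ α := by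
    intro k
    refine le_trans ?_ (hα k)
    rw [← hAk k]
    unfold F
    have e2 : Real.sqrt (((N k : ℝ) + 1) * Real.log ((N k : ℝ) + 2)) = err (N k) := rfl
    rw [e2]
    have h9 := err_ge (N k)
    have h10 := hu2 k
    have h11 : (1 : ℝ) * u k ≤ 2 * err (N k) * u k := by
      apply mul_le_mul_of_nonneg_right _ (by linarith)
      linarith
    have h13 : 0.5 ≤ err (N k) * u k := by nlinarith
    have h14 : K ≤ 2 * K * (err (N k) * u k) := by nlinarith
    have e3 : ((N k : ℝ) + (17 + 2 * K) * err (N k)) * u k =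
      ((N k : ℝ) + 15 * err (N k)) * u k + 2 * err (N k) * u k + 2 * K * (err (N k) * u k) := by ring
    rw [e3]
    linarith
  -- reduction modulo one
  obtain ⟨f, hf⟩ : ∃ f : Fin r → ℤ, f = fun j => ⌊t j⌋ := ⟨_, rfl⟩
  obtain ⟨t', ht'⟩ : ∃ t' : Fin r → ℝ, t' = fun j => t j - f j := ⟨_, rfl⟩
  have ht'1 : ∀ j, |t' j| ≤ 1 := by
    intro j
    rw [ht', hf]
    have h3 := Int.floor_le (t j)
    have h4 := Int.lt_floor_add_one (t j)
    rw [abs_le]
    constructor
    · change -1 ≤ t j - (⌊t j⌋ : ℝ)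
      linarith
    · change t j - (⌊t j⌋ : ℝ) ≤ 1
      linarith
  obtain ⟨x', hx'⟩ : ∃ x' : Fin n → ℝ, x' = fun k => ∑ j, (a k j : ℝ) * θ j + ∑ j, (e k j : ℝ) * t' j := ⟨_, rfl⟩
  obtain ⟨w, hw⟩ : ∃ w : Fin n → ℤ, w = fun k => ∑ j, e k j * f j := ⟨_, rfl⟩
  have hxx : ∀ k, x k = x' k + w k := by
    intro k
    rw [hx, hx', hw]
    simp only
    push_cast
    rw [add_assoc, ← Finset.sum_add_distrib]
    congr 1
    refine Finset.sum_congr rfl fun j _ => ?_
    rw [ht']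
    ring
  have hx'le : ∀ k, |x' k| ≤ M * (S - 2) := by
    intro k
    rw [hx']
    refine (abs_add_le _ _).trans ?_
    have h3 : |∑ j, (a k j : ℝ) * θ j| ≤ M * ∑ j, |θ j| := by
      refine (Finset.abs_sum_le_sum_abs _ _).trans ?_
      rw [Finset.mul_sum]
      refine Finset.sum_le_sum fun j _ => ?_
      rw [abs_mul]
      exact mul_le_mul_of_nonneg_right (ha k j) (abs_nonneg _)
    have h4 : |∑ j, (e k j : ℝ) * t' j| ≤ M * r := by
      refine (Finset.abs_sum_le_sum_abs _ _).trans ?_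
      calc ∑ j, |(e k j : ℝ) * t' j| ≤ ∑ _j : Fin r, M := by
            refine Finset.sum_le_sum fun j _ => ?_
            rw [abs_mul]
            calc |(e k j : ℝ)| * |t' j| ≤ M * 1 := mul_le_mul (he k j) (ht'1 j) (abs_nonneg _) hM0.le
              _ = M := mul_one _
        _ = M * r := by
            rw [Finset.sum_const, Finset.card_univ, Fintype.card_fin, nsmul_eq_mul]
            ring
    rw [hS]
    nlinarith
  obtain ⟨P, hP⟩ : ∃ P : Fin n → ℤ, P = fun k => -(p k - q k * w k) := ⟨_, rfl⟩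
  have hval : ∀ k, (P k : ℝ) + q k * x' k = q k * x k - p k := by
    intro k
    rw [hP, hxx k]
    push_cast
    ring
  rcases isEmpty_or_nonempty (Fin n) with hemp | hne
  · obtain ⟨k, -⟩ := hm t 1 le_rfl (fun k => (hemp.false k).elim) (linearIndependent_empty_type) (fun k => (hemp.false k).elim)
    exact (hemp.false k).elim
  have hα0 : 0 ≤ α := by
    obtain ⟨k⟩ := hne
    have := hAK k
    have := hA0 k
    linarith
  have hlM : 0 ≤ Real.log M := Real.log_nonneg hM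
  -- the conclusion is trivial for small `Λ`
  by_cases hsmall : ∃ k, 0 < A k - L k * u k
  · obtain ⟨k, hk⟩ := hsmall
    have h3 : Λ ≤ A k := (hΛ k).trans (by linarith)
    have h4 := hAK k
    have h5 : 0 ≤ E * α := by positivity
    have h6 : 0 ≤ E * Real.log M := by positivity
    nlinarith
  push Not at hsmall
  have hforms : ∀ k, |(q k : ℝ) * x k - p k| ≤ 1 := by
    intro k
    refine (h2 k).trans ?_
    rw [← Real.exp_zero]
    exact Real.exp_le_exp.2 (hsmall k)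
  obtain ⟨X, hX⟩ : ∃ X : ℝ, X = Real.exp (α - K) * (M * S) := ⟨_, rfl⟩
  have hMS : 2 ≤ M * S := by nlinarith
  have hαK : ∀ k, A k ≤ α - K := fun k => by have := hAK k; linarith
  have hexpA : ∀ k, Real.exp (A k) ≤ Real.exp (α - K) := fun k => Real.exp_le_exp.2 (hαK k)
  have hexp1 : 1 ≤ Real.exp (α - K) := by
    obtain ⟨k⟩ := hne
    exact (Real.one_le_exp (hA0 k)).trans (hexpA k)
  have hX1 : 1 ≤ X := by rw [hX]; nlinarith
  have hq1 : ∀ k, (q k : ℝ) ≤ Real.exp (α - K) := fun k => (h1 k).trans (hexpA k)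
  have hcoe : ∀ k (z : ℤ), |(z : ℝ)| ≤ M → |((q k * z : ℤ) : ℝ)| ≤ X := by
    intro k z hz
    rw [hX]
    push_cast
    rw [abs_mul, Nat.abs_cast]
    calc (q k : ℝ) * |(z : ℝ)| ≤ Real.exp (α - K) * M := mul_le_mul (hq1 k) hz (abs_nonneg _) (Real.exp_pos _).le
      _ ≤ Real.exp (α - K) * (M * S) := by
          refine mul_le_mul_of_nonneg_left ?_ (Real.exp_pos _).le
          nlinarith
  have hPle : ∀ k, |(P k : ℝ)| ≤ X := by
    intro k
    have e1 : (P k : ℝ) = (q k * x k - p k) - q k * x' k := by rw [← hval k]; ring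
    rw [e1, hX]
    refine (abs_sub _ _).trans ?_
    rw [abs_mul, Nat.abs_cast]
    have h3 : (q k : ℝ) * |x' k| ≤ Real.exp (α - K) * (M * (S - 2)) :=
      mul_le_mul (hq1 k) (hx'le k) (abs_nonneg _) (Real.exp_pos _).le
    have h4 := hforms k
    have h5 : 1 ≤ Real.exp (α - K) * M := by nlinarith
    nlinarith
  have hcast : ∀ z : ℤ, ‖z‖ = |(z : ℝ)| := fun z => rfl
  have hX0 : 0 ≤ X := by linarith
  obtain ⟨k, hk⟩ := hm t' X hX1 (fun k => ((Fin.cons (P k) fun j => (q k : ℤ) * a k j : Fin (m + 1) → ℤ),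
      fun j => (q k : ℤ) * e k j)) (li_ext a e hli q hq P) (by
      intro k
      rw [Prod.norm_def, max_le_iff]
      refine ⟨(pi_norm_le_iff_of_nonneg hX0).2 fun j => ?_, (pi_norm_le_iff_of_nonneg hX0).2 fun j => ?_⟩
      · rw [hcast]
        refine Fin.cases ?_ (fun i => ?_) j
        · exact hPle k
        · exact hcoe k _ (ha k i)
      · rw [hcast]
        exact hcoe k _ (he k j))
  have e1 : val θ t' ((Fin.cons (P k) fun j => (q k : ℤ) * a k j : Fin (m + 1) → ℤ),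
      fun j => (q k : ℤ) * e k j) = q k * x k - p k := by
    unfold val
    rw [← hval k, hx']
    simp only [Fin.cons_zero, Fin.cons_succ]
    push_cast
    rw [mul_add, Finset.mul_sum, Finset.mul_sum, add_assoc]
    congr 1
    congr 1
    · exact Finset.sum_congr rfl fun j _ => by ring
    · exact Finset.sum_congr rfl fun j _ => by ring
  rw [e1] at hk
  have h3 : c * X ^ (-E) ≤ Real.exp (α - K - Λ) := by
    refine hk.trans ((h2 k).trans (Real.exp_le_exp.2 ?_))
    have := hαK k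
    have := hΛ k
    linarith
  have h4 := Real.log_le_log (by positivity) h3
  rw [Real.log_mul hc.ne' (by positivity), Real.log_rpow (by linarith), Real.log_exp, hX,
    Real.log_mul (Real.exp_pos _).ne' (by positivity), Real.log_exp, Real.log_mul hM0.ne' (by linarith)] at h4
  have h6 := neg_abs_le (Real.log c)
  have h7 : E * Real.log S + |Real.log c| = K := hK.symm
  have h8 : -E * (α - K + (Real.log M + Real.log S)) = -(E * α) + E * K - E * Real.log M - E * Real.log S := by ring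
  rw [h8] at h4
  have h9 : 0 ≤ E * K := by positivity
  linarith

end Pool.Agent.Q29.DD
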