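import Pool.Agent.TH647.NR.Rank

/-!
# Near relations and the distance to rational planes

From a lower bound for the distance of `(1, z_0, z_1, z_2)` to rational planes to the rank of the near relations
between `1, z_0, z_1, z_2` and arbitrary numbers.
-/

set_option autoImplicit false

namespace Pool.Agent.Q29.Plane

open Finset Pool.Agent.TH647.NR

/-- the distance to rational planes -/
def PlaneDist (z : Fin 3 → ℝ) (κ : ℕ) (c : ℝ) : Prop :=
  ∀ (q : ℕ) (a b : Fin 3 → ℤ) (θ H : ℝ), 0 < q → (q : ℝ) ≤ H → (∀ i, |(b i : ℝ)| ≤ H) →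
    ∃ i, c / H ^ κ ≤ |z i - ((a i : ℝ) + θ * (b i : ℝ)) / q|

lemma third (i j : Fin 3) (hij : i ≠ j) :
    ∃ k : Fin 3, k ≠ i ∧ k ≠ j ∧ ∀ f : Fin 3 → ℝ, ∑ l, f l = f i + f j + f k := by
  fin_cases i <;> fin_cases j
  · exact absurd rfl hij
  · exact ⟨2, by decide, by decide, fun f => by rw [Fin.sum_univ_three]; rfl⟩
  · exact ⟨1, by decide, by decide, fun f => by
      rw [Fin.sum_univ_three]
      show f 0 + f 1 + f 2 = f 0 + f 2 + f 1
      ring⟩
  · exact ⟨2, by decide, by decide, fun f => by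
      rw [Fin.sum_univ_three]
      show f 0 + f 1 + f 2 = f 1 + f 0 + f 2
      ring⟩
  · exact absurd rfl hij
  · exact ⟨0, by decide, by decide, fun f => by
      rw [Fin.sum_univ_three]
      show f 0 + f 1 + f 2 = f 1 + f 2 + f 0
      ring⟩
  · exact ⟨1, by decide, by decide, fun f => by
      rw [Fin.sum_univ_three]
      show f 0 + f 1 + f 2 = f 2 + f 0 + f 1
      ring⟩
  · exact ⟨0, by decide, by decide, fun f => by
      rw [Fin.sum_univ_three]
      show f 0 + f 1 + f 2 = f 2 + f 1 + f 0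
      ring⟩
  · exact absurd rfl hij

/-- two independent near relations -/
theorem two_forms (z : Fin 3 → ℝ) (κ : ℕ) (c : ℝ) (hc : 0 < c) (hz : PlaneDist z κ c) :
    ∃ c' : ℝ, 0 < c' ∧ ∀ (a₀ a₀' : ℤ) (a a' : Fin 3 → ℤ),
      (∀ α α' : ℤ, α * a₀ + α' * a₀' = 0 → (∀ i, α * a i + α' * a' i = 0) → α = 0 ∧ α' = 0) →
      ∀ Y : ℝ, 1 ≤ Y → |(a₀ : ℝ)| ≤ Y → |(a₀' : ℝ)| ≤ Y → (∀ i, |(a i : ℝ)| ≤ Y) → (∀ i, |(a' i : ℝ)| ≤ Y) →
        c' / Y ^ (4 * κ + 1) ≤ max |(a₀ : ℝ) + ∑ i, (a i : ℝ) * z i| |(a₀' : ℝ) + ∑ i, (a' i : ℝ) * z i| := by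
  refine ⟨min (1 / 4) (c / (4 * 4 ^ κ)), by positivity, ?_⟩
  intro a₀ a₀' a a' hind Y hY ha₀ ha₀' ha ha'
  have hY0 : 0 < Y := by linarith
  obtain ⟨c', hc'⟩ : ∃ c' : ℝ, c' = min (1 / 4) (c / (4 * 4 ^ κ)) := ⟨_, rfl⟩
  rw [← hc']
  have hc1 : c' ≤ 1 / 4 := by rw [hc']; exact min_le_left _ _
  have hc2 : c' ≤ c / (4 * 4 ^ κ) := by rw [hc']; exact min_le_right _ _
  have hc0 : 0 < c' := by rw [hc']; positivity
  obtain ⟨L, hL⟩ : ∃ L : ℝ, L = (a₀ : ℝ) + ∑ i, (a i : ℝ) * z i := ⟨_, rfl⟩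
  obtain ⟨L', hL'⟩ : ∃ L' : ℝ, L' = (a₀' : ℝ) + ∑ i, (a' i : ℝ) * z i := ⟨_, rfl⟩
  rw [← hL, ← hL']
  by_contra hcon
  push Not at hcon
  obtain ⟨δ, hδ⟩ : ∃ δ : ℝ, δ = c' / Y ^ (4 * κ + 1) := ⟨_, rfl⟩
  rw [← hδ] at hcon
  have h1 : |L| < δ := (le_max_left _ _).trans_lt hcon
  have h2 : |L'| < δ := (le_max_right _ _).trans_lt hcon
  have hYκ : 1 ≤ Y ^ (4 * κ) := one_le_pow₀ hY
  have hδY : Y * δ ≤ c' := by
    rw [hδ, pow_succ, mul_div_assoc', div_le_iff₀ (by positivity)]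
    calc Y * c' ≤ Y ^ (4 * κ) * (Y * c') := le_mul_of_one_le_left (by positivity) hYκ
      _ = _ := by ring
  have hδ0 : 0 < δ := by rw [hδ]; positivity
  -- a combination with small integer coefficients
  have comb : ∀ α α' : ℝ, |α| ≤ Y → |α'| ≤ Y → |α * L + α' * L'| < 2 * Y * δ := by
    intro α α' hα hα'
    calc |α * L + α' * L'| ≤ |α * L| + |α' * L'| := abs_add_le _ _
      _ = |α| * |L| + |α'| * |L'| := by rw [abs_mul, abs_mul]
      _ ≤ Y * |L| + Y * |L'| := by gcongr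
      _ < Y * δ + Y * δ := by
          have e1 := mul_lt_mul_of_pos_left h1 hY0
          have e2 := mul_lt_mul_of_pos_left h2 hY0
          linarith
      _ = 2 * Y * δ := by ring
  by_cases hm : ∃ i j : Fin 3, i ≠ j ∧ a i * a' j - a j * a' i ≠ 0
  · obtain ⟨i, j, hij, hm⟩ := hm
    obtain ⟨k, hki, hkj, hsum⟩ := third i j hij
    obtain ⟨m, hmE⟩ : ∃ m : ℤ, m = a i * a' j - a j * a' i := ⟨_, rfl⟩
    rw [← hmE] at hm
    have hmR : (m : ℝ) ≠ 0 := by exact_mod_cast hm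
    have hm1 : (1 : ℝ) ≤ |(m : ℝ)| := by exact_mod_cast Int.one_le_abs hm
    have hmE' : (m : ℝ) = a i * a' j - a j * a' i := by rw [hmE]; push_cast; ring
    have hLs : L = a₀ + (a i * z i + a j * z j + a k * z k) := by rw [hL, hsum]
    have hLs' : L' = a₀' + (a' i * z i + a' j * z j + a' k * z k) := by rw [hL', hsum]
    have hY2 : ∀ x y u v : ℤ, |(x : ℝ)| ≤ Y → |(y : ℝ)| ≤ Y → |(u : ℝ)| ≤ Y → |(v : ℝ)| ≤ Y →
        |(x : ℝ) * y - u * v| ≤ 2 * Y ^ 2 := by
      intro x y u v hx hy hu hv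
      calc |(x : ℝ) * y - u * v| ≤ |(x : ℝ) * y| + |(u : ℝ) * v| := abs_sub _ _
        _ = |(x : ℝ)| * |(y : ℝ)| + |(u : ℝ)| * |(v : ℝ)| := by rw [abs_mul, abs_mul]
        _ ≤ Y * Y + Y * Y := by gcongr
        _ = _ := by ring
    have hmY : |(m : ℝ)| ≤ 2 * Y ^ 2 := by
      rw [hmE']
      exact hY2 _ _ _ _ (ha i) (ha' j) (ha j) (ha' i)
    have hY21 : (1 : ℝ) ≤ Y ^ 2 := one_le_pow₀ hY
    have hH2 : 2 * Y ^ 2 ≤ 4 * Y ^ 4 := by nlinarith
    obtain ⟨Ai, hAi⟩ : ∃ x : ℤ, x = a₀ * a' j - a₀' * a j := ⟨_, rfl⟩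
    obtain ⟨Bi, hBi⟩ : ∃ x : ℤ, x = a k * a' j - a' k * a j := ⟨_, rfl⟩
    obtain ⟨Aj, hAj⟩ : ∃ x : ℤ, x = a i * a₀' - a' i * a₀ := ⟨_, rfl⟩
    obtain ⟨Bj, hBj⟩ : ∃ x : ℤ, x = a i * a' k - a' i * a k := ⟨_, rfl⟩
    have hBiY : |(Bi : ℝ)| ≤ 2 * Y ^ 2 := by
      rw [hBi]; push_cast
      exact hY2 _ _ _ _ (ha k) (ha' j) (ha' k) (ha j)
    have hBjY : |(Bj : ℝ)| ≤ 2 * Y ^ 2 := by
      rw [hBj]; push_cast
      exact hY2 _ _ _ _ (ha i) (ha' k) (ha' i) (ha k)
    have e1 : (m : ℝ) * z i + Ai + Bi * z k = a' j * L + -(a j) * L' := by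
      rw [hmE', hAi, hBi, hLs, hLs']; push_cast; ring
    have e2 : (m : ℝ) * z j + Aj + Bj * z k = -(a' i) * L + a i * L' := by
      rw [hmE', hAj, hBj, hLs, hLs']; push_cast; ring
    have hq : ((m.natAbs ^ 2 : ℕ) : ℝ) = (m : ℝ) ^ 2 := by
      push_cast
      rw [Nat.cast_natAbs, Int.cast_abs, sq_abs]
    obtain ⟨l, hl⟩ := hz (m.natAbs ^ 2) (fun l => if l = i then -(Ai * m) else if l = j then -(Aj * m) else 0)
      (fun l => if l = i then -Bi else if l = j then -Bj else m) (m * z k) (4 * Y ^ 4)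
      (by have := Int.natAbs_pos.2 hm; positivity)
      (by
        rw [hq, ← sq_abs]
        calc |(m : ℝ)| ^ 2 ≤ (2 * Y ^ 2) ^ 2 := by gcongr
          _ = 4 * Y ^ 4 := by ring)
      (fun l => by
        show |(((if l = i then -Bi else if l = j then -Bj else m : ℤ)) : ℝ)| ≤ _
        split_ifs
        · rw [Int.cast_neg, abs_neg]
          exact hBiY.trans hH2
        · rw [Int.cast_neg, abs_neg]
          exact hBjY.trans hH2
        · exact hmY.trans hH2)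
    rw [hq] at hl
    have hbd : ∀ u : ℝ, |u| < 2 * Y * δ → |u / m| < 2 * Y * δ := by
      intro u hu
      rw [abs_div]
      exact (div_le_self (abs_nonneg _) hm1).trans_lt hu
    have hlt : |z l - ((((if l = i then -(Ai * m) else if l = j then -(Aj * m) else 0 : ℤ)) : ℝ) +
        m * z k * (((if l = i then -Bi else if l = j then -Bj else m : ℤ)) : ℝ)) / (m : ℝ) ^ 2| < 2 * Y * δ := by
      by_cases hli : l = i
      · subst hli
        rw [if_pos rfl, if_pos rfl]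
        have e3 : z l - ((((-(Ai * m) : ℤ)) : ℝ) + m * z k * (((-Bi : ℤ)) : ℝ)) / (m : ℝ) ^ 2 =
            (a' j * L + -(a j) * L') / m := by
          rw [← e1]
          push_cast
          field_simp
          ring
        rw [e3]
        exact hbd _ (comb _ _ (ha' j) (by rw [abs_neg]; exact ha j))
      · by_cases hlj : l = j
        · subst hlj
          rw [if_neg hli, if_pos rfl, if_neg hli, if_pos rfl]
          have e3 : z l - ((((-(Aj * m) : ℤ)) : ℝ) + m * z k * (((-Bj : ℤ)) : ℝ)) / (m : ℝ) ^ 2 =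
              (-(a' i) * L + a i * L') / m := by
            rw [← e2]
            push_cast
            field_simp
            ring
          rw [e3]
          exact hbd _ (comb _ _ (by rw [abs_neg]; exact ha' i) (ha i))
        · have hlk : l = k := by
            have h3 : ∀ i j k l : Fin 3, i ≠ j → k ≠ i → k ≠ j → l ≠ i → l ≠ j → l = k := by decide
            exact h3 i j k l hij hki hkj hli hlj
          subst hlk
          rw [if_neg hli, if_neg hlj, if_neg hli, if_neg hlj]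
          have e3 : z l - (((0 : ℤ) : ℝ) + m * z l * (m : ℝ)) / (m : ℝ) ^ 2 = 0 := by
            push_cast
            field_simp
            ring
          rw [e3, abs_zero]
          positivity
    have h3 := hl.trans_lt hlt
    rw [mul_pow, ← pow_mul, div_lt_iff₀ (by positivity)] at h3
    have h4 : 2 * Y * δ * (4 ^ κ * Y ^ (4 * κ)) = 2 * 4 ^ κ * c' := by
      rw [hδ, pow_succ]
      field_simp
    rw [h4] at h3
    have h5 : c' * (4 * 4 ^ κ) ≤ c := by
      rwa [le_div_iff₀ (by positivity)] at hc2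
    have h6 : (0 : ℝ) < 4 ^ κ := by positivity
    nlinarith
  · push Not at hm
    obtain ⟨α, α', hα, hα', hne, hz0⟩ : ∃ α α' : ℤ, |(α : ℝ)| ≤ Y ∧ |(α' : ℝ)| ≤ Y ∧ ¬ (α = 0 ∧ α' = 0) ∧
        ∀ i, α * a i + α' * a' i = 0 := by
      by_cases h3 : ∃ i, a' i ≠ 0
      · obtain ⟨i, hi⟩ := h3
        refine ⟨a' i, - a i, ha' i, by rw [Int.cast_neg, abs_neg]; exact ha i, fun h => hi h.1, fun j => ?_⟩
        by_cases hij : i = j
        · subst hij; ring
        · have := hm j i (fun e => hij e.symm)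
          linarith
      · push Not at h3
        refine ⟨0, 1, by simpa using hY0.le, by simpa using hY, by simp, fun i => by rw [h3 i]; ring⟩
    have hN : α * a₀ + α' * a₀' ≠ 0 := fun h => hne (hind α α' h hz0)
    have hN1 : (1 : ℝ) ≤ |(α : ℝ) * a₀ + α' * a₀'| := by exact_mod_cast Int.one_le_abs hN
    have e1 : (α : ℝ) * a₀ + α' * a₀' = α * L + α' * L' := by
      rw [hL, hL', mul_add, mul_add, Finset.mul_sum, Finset.mul_sum]
      have h4 : ∑ i, (α : ℝ) * ((a i : ℝ) * z i) + ∑ i, (α' : ℝ) * ((a' i : ℝ) * z i) = 0 := by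
        rw [← Finset.sum_add_distrib]
        refine Finset.sum_eq_zero fun i _ => ?_
        have h5 : (α : ℝ) * a i + α' * a' i = 0 := by exact_mod_cast hz0 i
        calc (α : ℝ) * ((a i : ℝ) * z i) + (α' : ℝ) * ((a' i : ℝ) * z i) =
              ((α : ℝ) * a i + α' * a' i) * z i := by ring
          _ = 0 := by rw [h5, zero_mul]
      linarith
    rw [e1] at hN1
    have h3 := comb α α' hα hα'
    linarith

/-- the value of the form `a + b_0 z_0 + b_1 z_1 + b_2 z_2 + e_1 t_1 + … + e_r t_r` -/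
noncomputable def val {r : ℕ} (z : Fin 3 → ℝ) (t : Fin r → ℝ) (v : (Fin 4 → ℤ) × (Fin r → ℤ)) : ℝ :=
  (v.1 0 : ℝ) + ∑ i : Fin 3, (v.1 i.succ : ℝ) * z i + ∑ j, (v.2 j : ℝ) * t j

/-- **the rank of the near relations** -/
theorem rank_plane (z : Fin 3 → ℝ) (κ : ℕ) (c : ℝ) (hc : 0 < c) (hz : PlaneDist z κ c) (r : ℕ) :
    ∃ c' : ℝ, 0 < c' ∧ ∀ (t : Fin r → ℝ) (X : ℝ), 1 ≤ X →
      ∀ v : Fin (r + 2) → (Fin 4 → ℤ) × (Fin r → ℤ), LinearIndependent ℤ v → (∀ k, ‖v k‖ ≤ X) →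
        ∃ k, c' / X ^ ((4 * κ + 1) * (r + 1) + r) ≤ |val z t (v k)| := by
  obtain ⟨c₁, hc₁, h₁⟩ := two_forms z κ c hc hz
  obtain ⟨R, hR⟩ : ∃ R : ℝ, R = ((r + 1 : ℕ) : ℝ) := ⟨_, rfl⟩
  have hR1 : 1 ≤ R := by rw [hR]; push_cast; linarith [Nat.cast_nonneg (α := ℝ) r]
  have hR0 : 0 < R := by linarith
  refine ⟨c₁ / (2 * (R ^ ((r + 1) * (4 * κ + 1)) * (R * R ^ r))), by positivity, ?_⟩
  intro t X hX v hv hvX
  have hX0 : 0 < X := by linarith
  have hcast : ∀ n : ℤ, ‖n‖ = |(n : ℝ)| := fun n => rfl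
  -- the first combination
  obtain ⟨l, hl0, hl, hlb⟩ := exists_comb X hX (fun k : Fin (r + 1) => v k.castSucc) (fun k => hvX _)
  obtain ⟨k₀, hk₀⟩ : ∃ k, l k ≠ 0 := by
    by_contra hcon
    push Not at hcon
    exact hl0 (funext hcon)
  -- the second one, without the vector `k₀`
  obtain ⟨l', hl0', hl', hlb'⟩ := exists_comb X hX
    (fun k : Fin (r + 1) => v (k₀.castSucc.succAbove k)) (fun k => hvX _)
  obtain ⟨k₁, hk₁⟩ : ∃ k, l' k ≠ 0 := by
    by_contra hcon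
    push Not at hcon
    exact hl0' (funext hcon)
  rw [← hR] at hlb hlb'
  obtain ⟨a, ha⟩ : ∃ a : Fin 4 → ℤ, a = fun i => ∑ k, l k * (v k.castSucc).1 i := ⟨_, rfl⟩
  obtain ⟨a', ha'⟩ : ∃ a' : Fin 4 → ℤ, a' = fun i => ∑ k, l' k * (v (k₀.castSucc.succAbove k)).1 i := ⟨_, rfl⟩
  have hind : ∀ α α' : ℤ, (∀ i, α * a i + α' * a' i = 0) → α = 0 ∧ α' = 0 := by
    intro α α' h0
    rw [Fintype.linearIndependent_iff] at hv
    obtain ⟨g, hg⟩ : ∃ g : Fin (r + 2) → ℤ, g = fun k => α * (Fin.snoc (α := fun _ => ℤ) l 0 k) +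
      α' * (Fin.insertNth (α := fun _ => ℤ) k₀.castSucc 0 l' k) := ⟨_, rfl⟩
    have hsum1 : ∀ f : Fin (r + 2) → ℤ, ∑ k, (Fin.snoc (α := fun _ => ℤ) l 0 k) * f k =
        ∑ k : Fin (r + 1), l k * f k.castSucc := by
      intro f
      rw [Fin.sum_univ_castSucc]
      simp
    have hsum2 : ∀ f : Fin (r + 2) → ℤ, ∑ k, (Fin.insertNth (α := fun _ => ℤ) k₀.castSucc 0 l' k) * f k =
        ∑ k : Fin (r + 1), l' k * f (k₀.castSucc.succAbove k) := by
      intro f
      rw [Fin.sum_univ_succAbove _ k₀.castSucc]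
      simp
    have hgv : ∑ k, g k • v k = 0 := by
      refine Prod.ext ?_ ?_
      · rw [Prod.fst_sum]
        funext i
        rw [Finset.sum_apply]
        simp only [Prod.smul_fst, Pi.smul_apply, smul_eq_mul, Prod.fst_zero, Pi.zero_apply]
        have e1 : ∑ k, g k * (v k).1 i = α * ∑ k, (Fin.snoc (α := fun _ => ℤ) l 0 k) * (v k).1 i +
            α' * ∑ k, (Fin.insertNth (α := fun _ => ℤ) k₀.castSucc 0 l' k) * (v k).1 i := by
          rw [hg, Finset.mul_sum, Finset.mul_sum, ← Finset.sum_add_distrib]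
          exact Finset.sum_congr rfl fun k _ => by ring
        rw [e1, hsum1, hsum2]
        have := h0 i
        rw [ha, ha'] at this
        exact this
      · rw [Prod.snd_sum]
        funext j
        rw [Finset.sum_apply]
        simp only [Prod.smul_snd, Pi.smul_apply, smul_eq_mul, Prod.snd_zero, Pi.zero_apply]
        have e1 : ∑ k, g k * (v k).2 j = α * ∑ k, (Fin.snoc (α := fun _ => ℤ) l 0 k) * (v k).2 j +
            α' * ∑ k, (Fin.insertNth (α := fun _ => ℤ) k₀.castSucc 0 l' k) * (v k).2 j := by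
          rw [hg, Finset.mul_sum, Finset.mul_sum, ← Finset.sum_add_distrib]
          exact Finset.sum_congr rfl fun k _ => by ring
        rw [e1, hsum1, hsum2, hl j, hl' j]
        ring
    have hg0 := hv g hgv
    have h1 := hg0 k₀.castSucc
    rw [hg] at h1
    simp only [Fin.snoc_castSucc, Fin.insertNth_apply_same, mul_zero, add_zero] at h1
    have hα : α = 0 := (mul_eq_zero.1 h1).resolve_right hk₀
    have h2 := hg0 (k₀.castSucc.succAbove k₁)
    rw [hg] at h2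
    simp only [hα, zero_mul, zero_add, Fin.insertNth_apply_succAbove] at h2
    exact ⟨hα, (mul_eq_zero.1 h2).resolve_right hk₁⟩
  have hbd : ∀ (w : Fin (r + 1) → ℤ) (s : Fin (r + 1) → Fin (r + 2)), (∀ k, |(w k : ℝ)| ≤ (R * X) ^ r) →
      ∀ i, |((∑ k, w k * (v (s k)).1 i : ℤ) : ℝ)| ≤ (R * X) ^ (r + 1) := by
    intro w s hw i
    push_cast
    calc |∑ k, (w k : ℝ) * ((v (s k)).1 i : ℝ)| ≤ ∑ k, |(w k : ℝ) * ((v (s k)).1 i : ℝ)| :=
          Finset.abs_sum_le_sum_abs _ _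
      _ ≤ ∑ _k : Fin (r + 1), (R * X) ^ r * X := by
          refine Finset.sum_le_sum fun k _ => ?_
          rw [abs_mul]
          have h1 : |((v (s k)).1 i : ℝ)| ≤ X := by
            rw [← hcast]
            exact ((norm_le_pi_norm (v (s k)).1 i).trans (_root_.norm_fst_le (v (s k)))).trans (hvX _)
          have h2 := hw k
          gcongr
      _ = (R * X) ^ (r + 1) := by
          rw [Finset.sum_const, Finset.card_univ, Fintype.card_fin, nsmul_eq_mul, ← hR]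
          ring
  have hRX : 1 ≤ (R * X) ^ (r + 1) := one_le_pow₀ (by nlinarith)
  have key := h₁ (a 0) (a' 0) (fun i => a i.succ) (fun i => a' i.succ) (by
    intro α α' h0 hi
    refine hind α α' fun i => ?_
    refine Fin.cases h0 (fun i => ?_) i
    exact hi i) ((R * X) ^ (r + 1)) hRX (by rw [ha]; exact hbd l _ hlb 0) (by rw [ha']; exact hbd l' _ hlb' 0)
    (fun i => by rw [ha]; exact hbd l _ hlb _) (fun i => by rw [ha']; exact hbd l' _ hlb' _)
  -- the values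
  have hval : ∀ (w : Fin (r + 1) → ℤ) (s : Fin (r + 1) → Fin (r + 2)), (∀ j, ∑ k, w k * (v (s k)).2 j = 0) →
      (((∑ k, w k * (v (s k)).1 0 : ℤ)) : ℝ) + ∑ i : Fin 3, (((∑ k, w k * (v (s k)).1 i.succ : ℤ)) : ℝ) * z i =
        ∑ k, (w k : ℝ) * val z t (v (s k)) := by
    intro w s hw
    unfold val
    simp only [mul_add, Finset.sum_add_distrib]
    have h1 : ∑ k, (w k : ℝ) * ∑ j, ((v (s k)).2 j : ℝ) * t j = 0 := by
      simp only [Finset.mul_sum]
      rw [Finset.sum_comm]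
      refine Finset.sum_eq_zero fun j _ => ?_
      have h2 : ∑ k, (w k : ℝ) * (((v (s k)).2 j : ℝ) * t j) = (∑ k, (w k : ℝ) * ((v (s k)).2 j : ℝ)) * t j := by
        rw [Finset.sum_mul]
        exact Finset.sum_congr rfl fun k _ => by ring
      have h4 : ∑ k, (w k : ℝ) * ((v (s k)).2 j : ℝ) = 0 := by exact_mod_cast hw j
      rw [h2, h4, zero_mul]
    rw [h1, add_zero]
    push_cast
    congr 1
    simp only [Finset.mul_sum, Finset.sum_mul]
    rw [Finset.sum_comm]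
    exact Finset.sum_congr rfl fun k _ => Finset.sum_congr rfl fun i _ => by ring
  by_contra hcon
  push Not at hcon
  obtain ⟨B, hB⟩ : ∃ B : ℝ, B = c₁ / (2 * (R ^ ((r + 1) * (4 * κ + 1)) * (R * R ^ r))) /
    X ^ ((4 * κ + 1) * (r + 1) + r) := ⟨_, rfl⟩
  rw [← hB] at hcon
  have hsmall : ∀ (w : Fin (r + 1) → ℤ) (s : Fin (r + 1) → Fin (r + 2)), (∀ k, |(w k : ℝ)| ≤ (R * X) ^ r) →
      |∑ k, (w k : ℝ) * val z t (v (s k))| ≤ R * ((R * X) ^ r * B) := by
    intro w s hw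
    calc |∑ k, (w k : ℝ) * val z t (v (s k))| ≤ ∑ k, |(w k : ℝ) * val z t (v (s k))| :=
          Finset.abs_sum_le_sum_abs _ _
      _ ≤ ∑ _k : Fin (r + 1), (R * X) ^ r * B := by
          refine Finset.sum_le_sum fun k _ => ?_
          rw [abs_mul]
          have h1 := hw k
          have h2 := (hcon (s k)).le
          gcongr
      _ = _ := by
          rw [Finset.sum_const, Finset.card_univ, Fintype.card_fin, nsmul_eq_mul, ← hR]
  have e1 := hval l (fun k => k.castSucc) hl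
  have e2 := hval l' (fun k => k₀.castSucc.succAbove k) hl'
  rw [ha, ha'] at key
  rw [e1, e2] at key
  have h3 := key.trans (max_le (hsmall l _ hlb) (hsmall l' _ hlb'))
  have hB' : R * ((R * X) ^ r * B) = c₁ / (R * X) ^ ((r + 1) * (4 * κ + 1)) / 2 := by
    rw [hB, mul_pow, mul_pow, pow_add, mul_comm (4 * κ + 1) (r + 1)]
    field_simp
  rw [hB', ← pow_mul] at h3
  have h4 : 0 < c₁ / (R * X) ^ ((r + 1) * (4 * κ + 1)) := by positivity
  linarith

end Pool.Agent.Q29.Plane
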