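import Mathlib
import Pool.Agent.TH647.NR.Rank

/-!
# Irrationality exponents as measures of linear independence

Copy of two lemmas of `Pool/Agent/TH647/NR/Zeta34.lean`, without its imports.
-/

set_option autoImplicit false

namespace Pool.Agent.Q29.NR

open Pool.Agent.W472.AC

/-- an irrationality exponent as a measure for linear forms -/
theorem lin_of_exp (z μ : ℝ) (hμ : 1 ≤ μ) (c : ℝ) (hc : 0 < c)
    (h : ∀ (p : ℤ) (q : ℕ), 0 < q → c / (q : ℝ) ^ μ ≤ |z - (p : ℝ) / q|) :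
    ∀ (a b : ℤ), b ≠ 0 → ∀ H : ℝ, 1 ≤ H → |(b : ℝ)| ≤ H → c * H ^ (-(μ - 1)) ≤ |(a : ℝ) + b * z| := by
  intro a b hb H hH hbH
  have hq : 0 < b.natAbs := Int.natAbs_pos.2 hb
  obtain ⟨B, hB⟩ : ∃ B : ℝ, B = |(b : ℝ)| := ⟨_, rfl⟩
  have hbR : 0 < B := by
    have : (b : ℝ) ≠ 0 := by exact_mod_cast hb
    rw [hB]
    positivity
  obtain ⟨p, hp⟩ : ∃ p : ℤ, p = -a * b.sign := ⟨_, rfl⟩
  have h1 := h p b.natAbs hq
  have e1 : ((b.natAbs : ℕ) : ℝ) = B := by
    rw [Nat.cast_natAbs, Int.cast_abs, hB]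
  rw [e1] at h1
  rw [← hB] at hbH
  have e2 : B * |z - (p : ℝ) / B| = |(a : ℝ) + b * z| := by
    have e3 : B * |z - (p : ℝ) / B| = |B * z - p| := by
      rw [← abs_of_pos hbR, ← abs_mul, abs_of_pos hbR]
      congr 1
      field_simp
    rw [e3, hp, hB]
    rcases lt_or_gt_of_ne hb with hb' | hb'
    · have h2 : (b : ℝ) < 0 := by exact_mod_cast hb'
      rw [abs_of_neg h2, Int.sign_eq_neg_one_of_neg hb']
      rw [← abs_neg]
      congr 1
      push_cast
      ring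
    · have h2 : (0 : ℝ) < b := by exact_mod_cast hb'
      rw [abs_of_pos h2, Int.sign_eq_one_of_pos hb']
      congr 1
      push_cast
      ring
  rw [← e2]
  calc c * H ^ (-(μ - 1)) ≤ c * B ^ (-(μ - 1)) := by
        gcongr c * ?_
        exact Real.rpow_le_rpow_of_nonpos hbR hbH (by linarith)
    _ = B * (c / B ^ μ) := by
        have e4 : B ^ μ = B ^ (μ - 1) * B := by
          nth_rewrite 3 [← Real.rpow_one B]
          rw [← Real.rpow_add hbR, sub_add_cancel]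
        have e5 : 0 < B ^ (μ - 1) := by positivity
        rw [e4, Real.rpow_neg hbR.le]
        field_simp
    _ ≤ B * |z - (p : ℝ) / B| := by gcongr

/-- an irrationality exponent as a measure for `1, z` -/
theorem meas_of_exp (z μ : ℝ) (hμ : 1 ≤ μ) (c : ℝ) (hc : 0 < c)
    (h : ∀ (p : ℤ) (q : ℕ), 0 < q → c / (q : ℝ) ^ μ ≤ |z - (p : ℝ) / q|) :
    Meas (![1, z] : Fin (1 + 1) → ℝ) (μ - 1) (min c 1) := by
  intro a ha H hH hb
  have hH0 : 0 < H := by linarith
  have hval : ∑ j, (a j : ℝ) * (![1, z] : Fin (1 + 1) → ℝ) j = a 0 + a 1 * z := by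
    rw [Fin.sum_univ_two]
    simp
  rw [hval]
  have hp : 0 < H ^ (μ - 1) := by positivity
  by_cases h1 : a 1 = 0
  · have h0 : a 0 ≠ 0 := by
      intro h0
      apply ha
      funext i
      fin_cases i
      · exact h0
      · exact h1
    rw [h1, Int.cast_zero, zero_mul, add_zero]
    have h4 : (1 : ℝ) ≤ |(a 0 : ℝ)| := by exact_mod_cast Int.one_le_abs h0
    have h5 : (1 : ℝ) ≤ H ^ (μ - 1) := Real.one_le_rpow hH (by linarith)
    calc min c 1 ≤ 1 := min_le_right _ _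
      _ = 1 * 1 := (one_mul 1).symm
      _ ≤ H ^ (μ - 1) * |(a 0 : ℝ)| := by gcongr
  · have h2 := lin_of_exp z μ hμ c hc h (a 0) (a 1) h1 H hH (hb 1)
    calc min c 1 ≤ c := min_le_left _ _
      _ = H ^ (μ - 1) * (c * H ^ (-(μ - 1))) := by
          rw [mul_left_comm, ← Real.rpow_add hH0, add_neg_cancel, Real.rpow_zero, mul_one]
      _ ≤ H ^ (μ - 1) * |(a 0 : ℝ) + a 1 * z| := by gcongr


end Pool.Agent.Q29.NR
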