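import Pool.Agent.Q29.EqWeyl
import Pool.Agent.W110.HV.Vino
import Pool.Agent.TH915.PW.PrimeSum

set_option autoImplicit false

/-! # Numbers without good rational approximation at a scale: multiples by primes -/

namespace Pool.Agent.Q29.Eqd

open Finset
open Pool.Agent.H469R2.NK (e norm_e e_add)
open Pool.Agent.TH915.PW (class_bound prime_bound abel_bound)

theorem ee_eq' (x : ℝ) : Pool.Agent.Helper112.ee x = e x := by
  unfold Pool.Agent.Helper112.ee Pool.Agent.H469R2.NK.e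
  congr 1
  push_cast
  ring

theorem ev_log (a : ℝ) (ha : 0 < a) (C : ℝ) : ∃ M₀ : ℕ, 2 ≤ M₀ ∧ ∀ M : ℕ, M₀ ≤ M →
    C * Real.log M ≤ (M : ℝ) ^ a := by
  obtain ⟨N0, h⟩ := Pool.Agent.W110.HV.ev_pow C 1 a ha
  refine ⟨max N0 2, le_max_right _ _, fun M hM => ?_⟩
  have := h M ((le_max_left _ _).trans hM)
  simpa using this

/-- the sums of Vinogradov, all prefixes -/
theorem mangoldt (δ : ℝ) (hδ : 0 < δ) (hδ1 : δ ≤ 1) : ∃ κ : ℝ, 0 < κ ∧ ∃ M₀ : ℕ, 2 ≤ M₀ ∧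
    ∀ M : ℕ, M₀ ≤ M → ∀ α : ℝ, ¬ Res δ M α → ∀ T : ℕ, 1 ≤ T → T ≤ M →
    ‖∑ n ∈ Ioc 1 T, ((ArithmeticFunction.vonMangoldt n : ℝ) : ℂ) * e (α * n)‖ ≤ (M : ℝ) ^ (1 - κ) := by
  obtain ⟨η, hηE⟩ : ∃ η : ℝ, η = δ / 20 := ⟨_, rfl⟩
  have hη : 0 < η := by rw [hηE]; positivity
  have hη1 : η ≤ 1 / 10 := by rw [hηE]; linarith
  obtain ⟨N0, hN0⟩ := Pool.Agent.W110.HV.vino η hη hη1
  obtain ⟨M₁, hM₁2, hM₁⟩ := ev_log (δ / 8) (by positivity) 1
  obtain ⟨M₂, hM₂1, hM₂⟩ := ev_rpow (1 - δ / 4) N0 (by linarith)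
  refine ⟨9 / 20 * η, by positivity, max M₁ M₂, hM₁2.trans (le_max_left _ _), fun M hM α hα T hT hTM => ?_⟩
  have hMpos : 2 ≤ M := (hM₁2.trans (le_max_left _ _)).trans hM
  have hM1 : (1 : ℝ) ≤ M := by exact_mod_cast (by omega : 1 ≤ M)
  have hM0 : (0 : ℝ) < M := by linarith
  have hlog := hM₁ M ((le_max_left _ _).trans hM)
  have hNM := hM₂ M ((le_max_right _ _).trans hM)
  have hTR1 : (1 : ℝ) ≤ T := by exact_mod_cast hT
  have hTR0 : (0 : ℝ) < T := by linarith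
  have hTMR : (T : ℝ) ≤ M := by exact_mod_cast hTM
  rcases lt_or_ge (T : ℝ) ((M : ℝ) ^ (1 - δ / 4)) with hsm | hbig
  · calc ‖∑ n ∈ Ioc 1 T, ((ArithmeticFunction.vonMangoldt n : ℝ) : ℂ) * e (α * n)‖
        ≤ ∑ n ∈ Ioc 1 T, ‖((ArithmeticFunction.vonMangoldt n : ℝ) : ℂ) * e (α * n)‖ := norm_sum_le _ _
      _ ≤ ∑ _n ∈ Ioc 1 T, Real.log M := by
          refine sum_le_sum fun n hn => ?_
          rw [mem_Ioc] at hn
          rw [norm_mul, norm_e, mul_one, Complex.norm_real, Real.norm_of_nonneg ArithmeticFunction.vonMangoldt_nonneg]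
          refine ArithmeticFunction.vonMangoldt_le_log.trans ?_
          apply Real.log_le_log
          · exact_mod_cast (by omega : 0 < n)
          · exact_mod_cast (by omega : n ≤ M)
      _ = (T - 1 : ℕ) * Real.log M := by rw [sum_const, Nat.card_Ioc, nsmul_eq_mul]
      _ ≤ (M : ℝ) ^ (1 - δ / 4) * (M : ℝ) ^ (δ / 8) := by
          have h1 : (((T - 1 : ℕ)) : ℝ) ≤ (M : ℝ) ^ (1 - δ / 4) := by
            have : (((T - 1 : ℕ)) : ℝ) ≤ T := by exact_mod_cast Nat.sub_le _ _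
            linarith
          have h2 : 0 ≤ Real.log M := Real.log_nonneg hM1
          apply mul_le_mul h1 (by linarith) h2 (by positivity)
      _ = (M : ℝ) ^ (1 - δ / 8) := by
          rw [← Real.rpow_add hM0]
          congr 1
          ring
      _ ≤ _ := Real.rpow_le_rpow_of_exponent_le hM1 (by rw [hηE]; linarith)
  · have hTN : N0 ≤ T := by
      have : (N0 : ℝ) ≤ T := hNM.trans hbig
      exact_mod_cast this
    have hsum : ∑ n ∈ Ioc 1 T, ((ArithmeticFunction.vonMangoldt n : ℝ) : ℂ) * e (α * n) =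
        ∑ n ∈ Icc 1 T, ((ArithmeticFunction.vonMangoldt n : ℝ) : ℂ) * Pool.Agent.Helper112.ee ((n : ℝ) * α) := by
      have e1 : Finset.Icc 1 T = insert 1 (Ioc 1 T) := by
        ext n
        rw [Finset.mem_insert, Finset.mem_Icc, Finset.mem_Ioc]
        omega
      rw [e1, sum_insert (by simp)]
      simp only [ArithmeticFunction.vonMangoldt_apply_one]
      push_cast
      rw [zero_mul, zero_add]
      refine sum_congr rfl fun n _ => ?_
      rw [ee_eq', mul_comm α]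
    rw [hsum]
    have hn1 : 1 ≤ ⌊(T : ℝ) ^ (1 - η)⌋₊ := by
      rw [Nat.one_le_floor_iff]
      exact Real.one_le_rpow hTR1 (by linarith)
    obtain ⟨q, h1, h2⟩ := Real.exists_rat_abs_sub_le_and_den_le α hn1
    have hD0 : (0 : ℝ) < q.den := by exact_mod_cast q.den_pos
    have hDle : (q.den : ℝ) ≤ (T : ℝ) ^ (1 - η) := by
      have h3 : (q.den : ℝ) ≤ (⌊(T : ℝ) ^ (1 - η)⌋₊ : ℕ) := by exact_mod_cast h2
      exact h3.trans (Nat.floor_le (by positivity))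
    have hqe : (q : ℝ) = (q.num : ℝ) / (q.den : ℝ) := Rat.cast_def q
    have hflo : (T : ℝ) ^ (1 - η) ≤ (⌊(T : ℝ) ^ (1 - η)⌋₊ : ℕ) + 1 := (Nat.lt_floor_add_one _).le
    have hTp : 0 < (T : ℝ) ^ (1 - η) := by positivity
    rw [hqe] at h1
    have hq1 : |(q.den : ℝ) * α - q.num| ≤ ((T : ℝ) ^ (1 - η))⁻¹ := by
      have e1 : (q.den : ℝ) * α - q.num = q.den * (α - q.num / q.den) := by
        field_simp
      rw [e1, abs_mul, abs_of_pos hD0]
      calc (q.den : ℝ) * |α - q.num / q.den| ≤ q.den * (1 / (((⌊(T : ℝ) ^ (1 - η)⌋₊ : ℕ) + 1) * q.den)) := by gcongr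
        _ = ((((⌊(T : ℝ) ^ (1 - η)⌋₊ : ℕ) : ℝ) + 1))⁻¹ := by field_simp
        _ ≤ _ := inv_anti₀ hTp hflo
    rcases lt_or_ge (q.den : ℝ) ((T : ℝ) ^ η) with hlt | hge
    · exfalso
      apply hα
      refine ⟨q.den, q.den_pos, ?_, q.num, ?_⟩
      · calc (q.den : ℝ) ≤ (T : ℝ) ^ η := hlt.le
          _ ≤ (M : ℝ) ^ η := Real.rpow_le_rpow hTR0.le hTMR hη.le
          _ ≤ _ := Real.rpow_le_rpow_of_exponent_le hM1 (by rw [hηE]; linarith)
      · refine hq1.trans ?_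
        have h3 : ((M : ℝ) ^ (1 - δ / 4)) ^ (1 - η) ≤ (T : ℝ) ^ (1 - η) :=
          Real.rpow_le_rpow (by positivity) hbig (by linarith)
        rw [← Real.rpow_mul hM0.le] at h3
        calc ((T : ℝ) ^ (1 - η))⁻¹ ≤ ((M : ℝ) ^ ((1 - δ / 4) * (1 - η)))⁻¹ := inv_anti₀ (by positivity) h3
          _ = (M : ℝ) ^ (-((1 - δ / 4) * (1 - η))) := by rw [Real.rpow_neg hM0.le]
          _ ≤ _ := by
              apply Real.rpow_le_rpow_of_exponent_le hM1
              rw [hηE]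
              nlinarith
    · have hcop : IsCoprime q.num (q.den : ℤ) := by
        rw [Int.isCoprime_iff_gcd_eq_one]
        exact q.reduced
      have h3 := hN0 T hTN q.den hge hDle q.num hcop α (by
        refine h1.trans ?_
        apply one_div_le_one_div_of_le (by positivity)
        rw [sq]
        apply mul_le_mul_of_nonneg_right _ hD0.le
        have h4 : (q.den : ℝ) ≤ (⌊(T : ℝ) ^ (1 - η)⌋₊ : ℕ) := by exact_mod_cast h2
        linarith)
      refine h3.trans ?_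
      exact Real.rpow_le_rpow hTR0.le hTMR (by linarith)

/-- the sums over the primes of a residue class -/
theorem prime_sums (δ : ℝ) (hδ : 0 < δ) (hδ1 : δ ≤ 1) : ∃ κ : ℝ, 0 < κ ∧ ∃ M₀ : ℕ, 2 ≤ M₀ ∧
    ∀ M : ℕ, M₀ ≤ M → ∀ x : ℝ, ¬ Res δ M x → ∀ b : ℤ, b ≠ 0 → |(b : ℝ)| ≤ (M : ℝ) ^ κ →
    ∀ d r : ℕ, 1 ≤ d → (d : ℝ) ≤ (M : ℝ) ^ κ →
    ‖∑ p ∈ (range (M + 1)).filter (fun p => p.Prime ∧ p ≡ r [MOD d]), e (b * x * p)‖ ≤ (M : ℝ) ^ (1 - κ) := by
  obtain ⟨κ₁, hκ₁, M₁, hM₁2, h1⟩ := mangoldt (δ / 2) (by positivity) (by linarith)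
  obtain ⟨κ, hκE⟩ : ∃ κ : ℝ, κ = min (min (κ₁ / 2) (δ / 8)) (1 / 8) := ⟨_, rfl⟩
  have hκ : 0 < κ := by rw [hκE]; positivity
  have hκκ : κ ≤ κ₁ / 2 := by rw [hκE]; exact (min_le_left _ _).trans (min_le_left _ _)
  have hκδ : κ ≤ δ / 8 := by rw [hκE]; exact (min_le_left _ _).trans (min_le_right _ _)
  have hκ8 : κ ≤ 1 / 8 := by rw [hκE]; exact min_le_right _ _
  obtain ⟨M₂, hM₂2, h2⟩ := ev_log (1 / 4) (by norm_num) 8
  obtain ⟨M₃, hM₃1, h3⟩ := ev_rpow (κ₁ / 2) 4 (by positivity)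
  refine ⟨κ, hκ, max M₁ (max M₂ M₃), hM₁2.trans (le_max_left _ _), fun M hM x hx b hb hbM d r hd hdM => ?_⟩
  have hMpos : 2 ≤ M := (hM₁2.trans (le_max_left _ _)).trans hM
  have hM1 : (1 : ℝ) ≤ M := by exact_mod_cast (by omega : 1 ≤ M)
  have hM0 : (0 : ℝ) < M := by linarith
  have hd0 : (0 : ℝ) < d := by exact_mod_cast hd
  have hlog := h2 M ((le_max_left _ _).trans ((le_max_right _ _).trans hM))
  have h4M := h3 M ((le_max_right _ _).trans ((le_max_right _ _).trans hM))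
  have hbabs : ((b.natAbs : ℕ) : ℝ) = |(b : ℝ)| := by
    rw [← Int.cast_abs, Int.abs_eq_natAbs]
    simp
  have hbn : 1 ≤ b.natAbs := Int.natAbs_pos.2 hb
  -- the frequencies are not resonant
  have hres : ∀ j : ℕ, ¬ Res (δ / 2) M (b * x + (j : ℝ) / d) := by
    rintro j ⟨q, hq, hqM, a, ha⟩
    apply hx
    have hle : (d : ℝ) * (M : ℝ) ^ (δ / 2 - 1) ≤ (M : ℝ) ^ (δ - 1) := by
      calc (d : ℝ) * (M : ℝ) ^ (δ / 2 - 1) ≤ (M : ℝ) ^ κ * (M : ℝ) ^ (δ / 2 - 1) := by gcongr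
        _ = (M : ℝ) ^ (κ + (δ / 2 - 1)) := by rw [← Real.rpow_add hM0]
        _ ≤ _ := Real.rpow_le_rpow_of_exponent_le hM1 (by linarith)
    have key : ∀ s : ℤ, (s = 1 ∨ s = -1) → (b : ℝ) * s = |(b : ℝ)| → Res δ M x := by
      intro s hs hbs
      refine ⟨q * d * b.natAbs, Nat.mul_pos (Nat.mul_pos hq hd) hbn, ?_, s * (d * a - q * j), ?_⟩
      · push_cast
        rw [hbabs]
        calc (q : ℝ) * d * |(b : ℝ)| ≤ (M : ℝ) ^ (δ / 2) * (M : ℝ) ^ κ * (M : ℝ) ^ κ := by gcongr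
          _ = (M : ℝ) ^ (δ / 2 + κ + κ) := by rw [← Real.rpow_add hM0, ← Real.rpow_add hM0]
          _ ≤ _ := Real.rpow_le_rpow_of_exponent_le hM1 (by linarith)
      · have e1 : ((q * d * b.natAbs : ℕ) : ℝ) * x - ((s * (d * a - q * j) : ℤ) : ℝ) =
            s * (d * (q * (b * x + (j : ℝ) / d) - a)) := by
          rw [Nat.cast_mul, Nat.cast_mul, hbabs, ← hbs]
          push_cast
          field_simp
          ring
        rw [e1, abs_mul, abs_mul, abs_of_pos hd0]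
        have hs1 : |(s : ℝ)| = 1 := by
          rcases hs with h | h <;> rw [h] <;> simp
        rw [hs1, one_mul]
        calc (d : ℝ) * |(q : ℝ) * (b * x + (j : ℝ) / d) - a| ≤ d * (M : ℝ) ^ (δ / 2 - 1) := by gcongr
          _ ≤ _ := hle
    rcases le_or_gt 0 b with h | h
    · exact key 1 (Or.inl rfl) (by push_cast; rw [mul_one, abs_of_nonneg (by exact_mod_cast h)])
    · exact key (-1) (Or.inr rfl) (by push_cast; rw [abs_of_neg (by exact_mod_cast h)]; ring)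
  obtain ⟨w, hw⟩ : ∃ w : ℕ → ℝ, w = fun n : ℕ => (Real.log n)⁻¹ := ⟨_, rfl⟩
  obtain ⟨G, hG⟩ : ∃ G : ℕ → ℂ, G = fun n : ℕ => (((if n.Prime then Real.log n else 0 : ℝ)) : ℂ) * e (b * x * n) :=
    ⟨_, rfl⟩
  obtain ⟨E, hE⟩ : ∃ E : ℝ, E = (M : ℝ) ^ (1 - κ₁) + 2 * √(M : ℝ) * Real.log M := ⟨_, rfl⟩
  have hcls : ∀ t : ℕ, 1 < t → t ≤ M → ‖∑ n ∈ Ioc 1 t, if n ≡ r [MOD d] then G n else 0‖ ≤ E := by
    intro t ht1 ht2
    rw [← sum_filter]
    apply class_bound (Ioc 1 t) G d hd r E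
    intro j _
    have h5 := h1 M ((le_max_left _ _).trans hM) (b * x + (j : ℝ) / d) (hres j) t ht1.le ht2
    have h6 := prime_bound 1 t ht1.le (fun n => e ((b * x + (j : ℝ) / d) * n)) (fun n => (norm_e _).le) _ h5
    have h7 : ∑ n ∈ Ioc 1 t, G n * e ((j : ℝ) / d * n) =
        ∑ n ∈ Ioc 1 t, (((if n.Prime then Real.log n else 0 : ℝ)) : ℂ) * e ((b * x + (j : ℝ) / d) * n) := by
      refine sum_congr rfl fun n _ => ?_
      rw [hG]
      simp only
      rw [mul_assoc, ← e_add]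
      congr 2
      ring
    rw [h7]
    refine h6.trans ?_
    rw [hE]
    have ht0 : (0 : ℝ) < t := by exact_mod_cast (by omega : 0 < t)
    have htM : (t : ℝ) ≤ M := by exact_mod_cast ht2
    have h8 : √(t : ℝ) ≤ √(M : ℝ) := Real.sqrt_le_sqrt htM
    have h9 : Real.log t ≤ Real.log M := Real.log_le_log ht0 htM
    have h10 : 0 ≤ Real.log t := Real.log_nonneg (by exact_mod_cast ht1.le)
    gcongr
  have hlogpos : ∀ n : ℕ, 1 < n → 0 < Real.log n := fun n hn => Real.log_pos (by exact_mod_cast hn)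
  have hab := abel_bound w (fun n => if n ≡ r [MOD d] then G n else 0) 1 E
    (fun n hn => by
      rw [hw]
      exact (inv_pos.2 (hlogpos n hn)).le)
    (fun n hn => by
      rw [hw]
      simp only
      apply inv_anti₀ (hlogpos n hn)
      apply Real.log_le_log
      · exact_mod_cast (by omega : 0 < n)
      · push_cast
        linarith) M (by omega) (fun t ht1 ht2 => hcls t ht1 ht2)
  have hconv : ∑ p ∈ (range (M + 1)).filter (fun p => p.Prime ∧ p ≡ r [MOD d]), e (b * x * p) =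
      ∑ i ∈ Ioc 1 M, (w i : ℂ) * (if i ≡ r [MOD d] then G i else 0) := by
    have e1 : (range (M + 1)).filter (fun p => p.Prime ∧ p ≡ r [MOD d]) =
        (Ioc 1 M).filter (fun p => p.Prime ∧ p ≡ r [MOD d]) := by
      ext p
      rw [mem_filter, mem_filter, mem_range, mem_Ioc]
      constructor
      · rintro ⟨h5, h6, h7⟩
        exact ⟨⟨h6.one_lt, by omega⟩, h6, h7⟩
      · rintro ⟨h5, h6, h7⟩
        exact ⟨by omega, h6, h7⟩
    rw [e1, sum_filter]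
    refine sum_congr rfl fun n hn => ?_
    rw [mem_Ioc] at hn
    rw [hw, hG]
    simp only
    by_cases hp : n.Prime
    · by_cases hr : n ≡ r [MOD d]
      · rw [if_pos ⟨hp, hr⟩, if_pos hr, if_pos hp]
        rw [← mul_assoc, ← Complex.ofReal_mul, inv_mul_cancel₀ (hlogpos n hn.1).ne', Complex.ofReal_one, one_mul]
      · rw [if_neg (fun h => hr h.2), if_neg hr, mul_zero]
    · rw [if_neg (fun h => hp h.1), if_neg hp]
      simp
  rw [hconv]
  refine hab.trans ?_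
  have hw2 : w (1 + 1) ≤ 2 := by
    rw [hw]
    simp only
    have h5 : (1 : ℝ) / 2 ≤ Real.log ((1 + 1 : ℕ) : ℝ) := by
      push_cast
      have := Real.log_two_gt_d9
      norm_num
      linarith
    calc (Real.log ((1 + 1 : ℕ) : ℝ))⁻¹ ≤ ((1 : ℝ) / 2)⁻¹ := inv_anti₀ (by norm_num) h5
      _ = 2 := by norm_num
  have hE0 : 0 ≤ E := by
    rw [hE]
    have : 0 ≤ Real.log M := Real.log_nonneg hM1
    positivity
  calc w (1 + 1) * E ≤ 2 * E := mul_le_mul_of_nonneg_right hw2 hE0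
    _ = 2 * (M : ℝ) ^ (1 - κ₁) + √(M : ℝ) * (4 * Real.log M) := by rw [hE]; ring
    _ ≤ (1 / 2) * (M : ℝ) ^ (1 - κ) + (1 / 2) * (M : ℝ) ^ (1 - κ) := by
        apply add_le_add
        · have h5 : (M : ℝ) ^ (1 - κ₁ / 2) = (M : ℝ) ^ (κ₁ / 2) * (M : ℝ) ^ (1 - κ₁) := by
            rw [← Real.rpow_add hM0]
            congr 1
            ring
          have h6 : (M : ℝ) ^ (1 - κ₁ / 2) ≤ (M : ℝ) ^ (1 - κ) :=
            Real.rpow_le_rpow_of_exponent_le hM1 (by linarith)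
          have h7 : 0 < (M : ℝ) ^ (1 - κ₁) := by positivity
          nlinarith
        · have h5 : √(M : ℝ) * (M : ℝ) ^ (1 / 4 : ℝ) = (M : ℝ) ^ (3 / 4 : ℝ) := by
            rw [Real.sqrt_eq_rpow, ← Real.rpow_add hM0]
            norm_num
          have h6 : (M : ℝ) ^ (3 / 4 : ℝ) ≤ (M : ℝ) ^ (1 - κ) :=
            Real.rpow_le_rpow_of_exponent_le hM1 (by linarith)
          have h7 : 0 ≤ √(M : ℝ) := Real.sqrt_nonneg _
          nlinarith [mul_le_mul_of_nonneg_left hlog h7]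
    _ = _ := by ring

/-- equidistribution of the multiples by primes of a residue class -/
theorem prime_eq (δ : ℝ) (hδ : 0 < δ) (hδ1 : δ ≤ 1) : ∃ κ : ℝ, 0 < κ ∧ ∃ M₀ : ℕ, 2 ≤ M₀ ∧
    ∀ M : ℕ, M₀ ≤ M → ∀ x : ℝ, ¬ Res δ M x → ∀ b : ℤ, b ≠ 0 → |(b : ℝ)| ≤ (M : ℝ) ^ κ →
    ∀ d r : ℕ, 1 ≤ d → (d : ℝ) ≤ (M : ℝ) ^ κ → ∀ β : ℝ,
    Equi ((range (M + 1)).filter (fun p => p.Prime ∧ p ≡ r [MOD d])) (fun p => b * x * p + β)
      ((M : ℝ) ^ (1 - κ)) := by
  obtain ⟨κ, hκ, M₁, hM₁2, h1⟩ := prime_sums δ hδ hδ1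
  obtain ⟨M₂, hM₂1, h2⟩ := disc_pow (κ / 2) (by positivity)
  refine ⟨κ / 16, by positivity, max M₁ M₂, hM₁2.trans (le_max_left _ _),
    fun M hM x hx b hb hbM d r hd hdM β => ?_⟩
  have hMpos : 2 ≤ M := (hM₁2.trans (le_max_left _ _)).trans hM
  have hM1 : (1 : ℝ) ≤ M := by exact_mod_cast (by omega : 1 ≤ M)
  have hM0 : (0 : ℝ) < M := by linarith
  have hcard : ((range (M + 1)).filter (fun p => p.Prime ∧ p ≡ r [MOD d])).card ≤ M := by
    have hsub : (range (M + 1)).filter (fun p => p.Prime ∧ p ≡ r [MOD d]) ⊆ Ioc 0 M := by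
      intro p hp
      rw [mem_filter, mem_range] at hp
      rw [mem_Ioc]
      exact ⟨hp.2.1.pos, by omega⟩
    have := card_le_card hsub
    rwa [Nat.card_Ioc, Nat.sub_zero] at this
  have h3 := h2 M ((le_max_right _ _).trans hM)
    ((range (M + 1)).filter (fun p => p.Prime ∧ p ≡ r [MOD d])) (fun p => b * x * p + β) hcard (by
      intro h hh hhM
      have h4 := h1 M ((le_max_left _ _).trans hM) x hx (h * b) (mul_ne_zero hh hb) (by
        push_cast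
        rw [abs_mul]
        calc |(h : ℝ)| * |(b : ℝ)| ≤ (M : ℝ) ^ (κ / 2) * (M : ℝ) ^ (κ / 16) := by gcongr
          _ = (M : ℝ) ^ (κ / 2 + κ / 16) := by rw [← Real.rpow_add hM0]
          _ ≤ _ := Real.rpow_le_rpow_of_exponent_le hM1 (by linarith)) d r hd
        (hdM.trans (Real.rpow_le_rpow_of_exponent_le hM1 (by linarith)))
      have e1 : ∑ i ∈ (range (M + 1)).filter (fun p => p.Prime ∧ p ≡ r [MOD d]), e (h * (b * x * i + β)) =
          e (h * β) * ∑ p ∈ (range (M + 1)).filter (fun p => p.Prime ∧ p ≡ r [MOD d]),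
            e (((h * b : ℤ) : ℝ) * x * p) := by
        rw [mul_sum]
        refine sum_congr rfl fun n _ => ?_
        rw [← e_add]
        congr 1
        push_cast
        ring
      rw [e1, norm_mul, norm_e, one_mul]
      refine h4.trans (Real.rpow_le_rpow_of_exponent_le hM1 (by linarith)))
  exact h3.mono (Real.rpow_le_rpow_of_exponent_le hM1 (by linarith))

end Pool.Agent.Q29.Eqd
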