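import Pool.Agent.Q29.GoodScale

set_option autoImplicit false

/-! # Good scales: the main theorem -/

namespace Pool.Agent.Q29.Eqd

open Polynomial Finset
open Pool.Agent.TH456.TM (hgt vl IR σx MeasT core core_zero le_hgt hgt_pos σx_coeff)

theorem small_of (D : ℕ) (hD : 1 ≤ D) (δ : ℝ) (hδ : 0 < δ) : ∃ N₀ : ℕ, 1 ≤ N₀ ∧ ∀ N : ℕ, N₀ ≤ N → ∀ z t : ℂ,
    ∀ R : ℤ[X][X], R ≠ 0 → R.natDegree ≤ D → (∀ j, (R.coeff j).natDegree ≤ D) → (hgt R : ℝ) ≤ (N : ℝ) ^ δ →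
      ‖vl z t R‖ < (N : ℝ) ^ (-(1 / 2) : ℝ) → ∃ Q ∈ SmallI D δ z t N, Q ∣ R := by
  have hDR : (1 : ℝ) ≤ D := by exact_mod_cast hD
  have hD0 : (0 : ℝ) < D := by linarith
  obtain ⟨M₂, hM₂, hbig2⟩ := ev_rpow δ (2 ^ ((D + 1) ^ 2) * (D + 1) ^ 2) hδ
  refine ⟨M₂, hM₂, fun N hN z t R hR0 hRy hRx hhgt hRv => ?_⟩
  have hN1 : (1 : ℝ) ≤ N := by exact_mod_cast hM₂.trans hN
  have hN0 : (0 : ℝ) < N := by linarith
  have hbigN2 := hbig2 N hN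
  have e1 : ((N : ℝ) ^ (-(1 / (4 * D)) : ℝ)) ^ (2 * D) = (N : ℝ) ^ (-(1 / 2) : ℝ) := by
    rw [← Real.rpow_natCast, ← Real.rpow_mul hN0.le]
    congr 1
    push_cast
    field_simp
    norm_num
  obtain ⟨Q, hQI, hQR, hQv, hQh⟩ := small_factor z t D ((N : ℝ) ^ (-(1 / (4 * D)) : ℝ)) (by positivity)
    (Real.rpow_le_one_of_one_le_of_nonpos hN1 (by
      have : (0 : ℝ) ≤ 1 / (4 * D) := by positivity
      linarith)) R hR0 hRy hRx (by rw [e1]; exact hRv)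
  refine ⟨Q, ⟨hQI, ?_, hQv.le⟩, hQR⟩
  calc (hgt Q : ℝ) ≤ 2 ^ ((D + 1) ^ 2) * ((D + 1) ^ 2 * hgt R) := hQh
    _ = (2 ^ ((D + 1) ^ 2) * (D + 1) ^ 2) * hgt R := by ring
    _ ≤ (N : ℝ) ^ δ * (N : ℝ) ^ δ := mul_le_mul hbigN2 hhgt (Nat.cast_nonneg _) (by positivity)
    _ = (N : ℝ) ^ (2 * δ) := by
        rw [← Real.rpow_add hN0]
        congr 1
        ring

/-- **Good scales.** -/
theorem good_main (z : ℝ) (hz : MeasT (z : ℂ)) (D : ℕ) (hD : 1 ≤ D) (s : ℕ) (hs : 1 ≤ s) (K : ℕ) (A : ℝ)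
    (hA : 1 ≤ A) : ∃ κ : ℝ, 0 < κ ∧
      (∀ T : ℝ, ∃ N₀ : ℕ, ∀ N : ℕ, N₀ ≤ N → ∀ t : ℝ, |t| ≤ T → ∃ Q ∈ IR D, 0 < Q.natDegree ∧
        (∀ P : ℤ[X][X], P.natDegree ≤ D → (∀ j, (P.coeff j).natDegree ≤ D) → (hgt P : ℝ) ≤ (N : ℝ) ^ κ →
          ¬ Q ∣ P → 1 / (N : ℝ) ≤ |rv z t P|) ∧
        (∀ P : Fin s → ℤ[X][X], (∀ i, (P i).natDegree ≤ D) → (∀ i j, ((P i).coeff j).natDegree ≤ D) →
          (∀ i, (hgt (P i) : ℝ) ≤ (N : ℝ) ^ κ) →
          (∀ l : Fin s → ℤ, l ≠ 0 → ∀ a : ℤ, ¬ Q ∣ (∑ i, l i • P i) - C (C a)) →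
          ∀ M : ℕ, N ≤ M → (M : ℝ) ≤ (N : ℝ) ^ A → Joint κ K M (fun i => rv z t (P i)))) ∧
      ∀ t : ℝ, ∃ G : Set ℕ,
        (∀ N ∈ G,
          (∀ P : ℤ[X][X], P.natDegree ≤ D → (∀ j, (P.coeff j).natDegree ≤ D) → (hgt P : ℝ) ≤ (N : ℝ) ^ κ →
            rv z t P ≠ 0 → 1 / (N : ℝ) ≤ |rv z t P|) ∧
          (∀ P : Fin s → ℤ[X][X], (∀ i, (P i).natDegree ≤ D) → (∀ i j, ((P i).coeff j).natDegree ≤ D) →
            (∀ i, (hgt (P i) : ℝ) ≤ (N : ℝ) ^ κ) →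
            (∀ l : Fin s → ℤ, l ≠ 0 → ∀ a : ℤ, ∑ i, (l i : ℝ) * rv z t (P i) ≠ a) →
            ∀ M : ℕ, N ≤ M → (M : ℝ) ≤ (N : ℝ) ^ A → Joint κ K M (fun i => rv z t (P i)))) ∧
        (∀ N₁ : ℕ, ∃ N ∈ G, N₁ ≤ N) ∧
        ((∃ Q ∈ IR D, rv z t Q = 0) → ∃ N₁ : ℕ, ∀ N : ℕ, N₁ ≤ N → N ∈ G) := by
  obtain ⟨δ₀, hδ₀, huniq⟩ := small_uniq (z : ℂ) hz D hD
  obtain ⟨δ, hδE⟩ : ∃ δ : ℝ, δ = min δ₀ 1 := ⟨_, rfl⟩
  have hδ : 0 < δ := by rw [hδE]; exact lt_min hδ₀ one_pos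
  have hδδ₀ : δ ≤ δ₀ := by rw [hδE]; exact min_le_left _ _
  have hδ1 : δ ≤ 1 := by rw [hδE]; exact min_le_right _ _
  obtain ⟨κ₁, hκ₁, heng⟩ := good_engine z D hD s hs K A hA δ hδ hδ1
  obtain ⟨N₃, hN₃, hsm⟩ := small_of D hD δ hδ
  have hlt : ∀ N : ℕ, 2 ≤ N → 1 / (N : ℝ) < (N : ℝ) ^ (-(1 / 2) : ℝ) := by
    intro N hN
    have hN2 : (2 : ℝ) ≤ N := by exact_mod_cast hN
    rw [one_div, ← Real.rpow_neg_one]
    exact Real.rpow_lt_rpow_of_exponent_lt (by linarith) (by norm_num)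
  have hκδ : ∀ N : ℕ, 1 ≤ N → (N : ℝ) ^ (min κ₁ δ) ≤ (N : ℝ) ^ κ₁ ∧ (N : ℝ) ^ (min κ₁ δ) ≤ (N : ℝ) ^ δ := by
    intro N hN
    have hN1 : (1 : ℝ) ≤ N := by exact_mod_cast hN
    exact ⟨Real.rpow_le_rpow_of_exponent_le hN1 (min_le_left _ _),
      Real.rpow_le_rpow_of_exponent_le hN1 (min_le_right _ _)⟩
  refine ⟨min κ₁ δ, lt_min hκ₁ hδ, ?_, ?_⟩
  · intro T
    obtain ⟨N₁, hN₁, h1⟩ := heng T
    obtain ⟨N₂, hN₂, h2⟩ := huniq δ hδ hδδ₀ T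
    refine ⟨max 2 (max N₁ (max N₂ N₃)), fun N hN t ht => ?_⟩
    have hNa : 2 ≤ N := (le_max_left _ _).trans hN
    have hNb : N₁ ≤ N := (le_max_left _ _).trans ((le_max_right _ _).trans hN)
    have hNc : N₂ ≤ N := (le_max_left _ _).trans ((le_max_right _ _).trans ((le_max_right _ _).trans hN))
    have hNd : N₃ ≤ N := (le_max_right _ _).trans ((le_max_right _ _).trans ((le_max_right _ _).trans hN))
    have ht' : ‖(t : ℂ)‖ ≤ T := by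
      rw [Complex.norm_real, Real.norm_eq_abs]
      exact ht
    obtain ⟨h2a, h2b⟩ := h2 N hNc t ht'
    have hQ : ∃ Q ∈ IR D, 0 < Q.natDegree ∧ ∀ Q' ∈ SmallI D δ (z : ℂ) (t : ℂ) N, Q' = Q := by
      by_cases hex : ∃ Q, Q ∈ SmallI D δ (z : ℂ) (t : ℂ) N
      · obtain ⟨Q, hQ⟩ := hex
        exact ⟨Q, hQ.1, h2a Q hQ, fun Q' hQ' => h2b Q' hQ' Q (Or.inl hQ)⟩
      · refine ⟨X, ⟨irreducible_X, ?_, fun j => ?_, ?_⟩, ?_, fun Q' hQ' => absurd ⟨Q', hQ'⟩ hex⟩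
        · rw [natDegree_X]; exact hD
        · rw [coeff_X]
          split_ifs
          · rw [natDegree_one]; exact Nat.zero_le _
          · rw [natDegree_zero]; exact Nat.zero_le _
        · rw [leadingCoeff_X, leadingCoeff_one]
          norm_num
        · rw [natDegree_X]
          norm_num
    obtain ⟨Q, hQI, hQpos, hQu⟩ := hQ
    refine ⟨Q, hQI, hQpos, ?_, ?_⟩
    · intro P hPy hPx hPh hQP
      by_contra hcon
      push Not at hcon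
      have hP0 : P ≠ 0 := by rintro rfl; exact hQP (dvd_zero _)
      rw [abs_rv] at hcon
      obtain ⟨Q', hQ', hQ'P⟩ := hsm N hNd (z : ℂ) (t : ℂ) P hP0 hPy hPx (hPh.trans (hκδ N (by omega)).2)
        (hcon.trans (hlt N hNa))
      rw [hQu Q' hQ'] at hQ'P
      exact hQP hQ'P
    · intro P hPy hPx hPh hind M hNM hMA
      rcases h1 N hNb t ht P hPy hPx (fun i => (hPh i).trans (hκδ N (by omega)).1) M hNM hMA with h3 | h3
      · exact h3.mono (by omega) (min_le_left _ _)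
      · exfalso
        obtain ⟨l, hl, a, h4 | ⟨Q', hQ', h4⟩⟩ := h3
        · exact hind l hl a (by rw [h4]; exact dvd_zero _)
        · rw [hQu Q' hQ'] at h4
          exact hind l hl a h4
  · intro t
    obtain ⟨N₁, hN₁, h1⟩ := heng |t|
    obtain ⟨N₂, hN₂, h2⟩ := huniq δ hδ hδδ₀ |t|
    have ht' : ‖(t : ℂ)‖ ≤ |t| := by
      rw [Complex.norm_real, Real.norm_eq_abs]
    refine ⟨{N | max 2 (max N₁ (max N₂ N₃)) ≤ N ∧ ∀ Q ∈ SmallI D δ (z : ℂ) (t : ℂ) N, vl (z : ℂ) (t : ℂ) Q = 0},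
      ?_, ?_, ?_⟩
    · rintro N ⟨hN, hS⟩
      have hNa : 2 ≤ N := (le_max_left _ _).trans hN
      have hNb : N₁ ≤ N := (le_max_left _ _).trans ((le_max_right _ _).trans hN)
      have hNc : N₂ ≤ N := (le_max_left _ _).trans ((le_max_right _ _).trans ((le_max_right _ _).trans hN))
      have hNd : N₃ ≤ N := (le_max_right _ _).trans ((le_max_right _ _).trans ((le_max_right _ _).trans hN))
      have hdv : ∀ R : ℤ[X][X], ∀ Q ∈ SmallI D δ (z : ℂ) (t : ℂ) N, Q ∣ R → rv z t R = 0 := by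
        rintro R Q hQ ⟨S, rfl⟩
        have e1 : ((rv z t (Q * S) : ℝ) : ℂ) = 0 := by
          rw [rv_coe, vl_mul, hS Q hQ, zero_mul]
        exact_mod_cast e1
      constructor
      · intro P hPy hPx hPh hPv
        by_contra hcon
        push Not at hcon
        have hP0 : P ≠ 0 := by rintro rfl; exact hPv (map_zero _)
        rw [abs_rv] at hcon
        obtain ⟨Q', hQ', hQ'P⟩ := hsm N hNd (z : ℂ) (t : ℂ) P hP0 hPy hPx (hPh.trans (hκδ N (by omega)).2)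
          (hcon.trans (hlt N hNa))
        exact hPv (hdv P Q' hQ' hQ'P)
      · intro P hPy hPx hPh hind M hNM hMA
        rcases h1 N hNb t le_rfl P hPy hPx (fun i => (hPh i).trans (hκδ N (by omega)).1) M hNM hMA with h3 | h3
        · exact h3.mono (by omega) (min_le_left _ _)
        · exfalso
          obtain ⟨l, hl, a, h4⟩ := h3
          have h5 : rv z t ((∑ i, l i • P i) - C (C a)) = 0 := by
            rcases h4 with h4 | ⟨Q', hQ', h4⟩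
            · rw [h4, map_zero]
            · exact hdv _ Q' hQ' h4
          apply hind l hl a
          rw [map_sub, map_sum, rv_CC, sub_eq_zero] at h5
          rw [← h5]
          refine Finset.sum_congr rfl fun i _ => ?_
          rw [map_zsmul, zsmul_eq_mul]
    · intro N₄
      obtain ⟨N, hN, hNS⟩ := good_inf (z : ℂ) D hD δ (t : ℂ) N₂ (fun N hN => (h2 N hN t ht').2)
        (max N₄ (max 2 (max N₁ (max N₂ N₃))))
      exact ⟨N, ⟨(le_max_right _ _).trans hN, hNS⟩, (le_max_left _ _).trans hN⟩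
    · rintro ⟨Q, hQI, hQ0⟩
      obtain ⟨N₅, hN₅, h5⟩ := ev_rpow (2 * δ) (hgt Q) (by positivity)
      refine ⟨max N₅ (max 2 (max N₁ (max N₂ N₃))), fun N hN => ?_⟩
      refine ⟨(le_max_right _ _).trans hN, fun Q' hQ' => ?_⟩
      have hNc : N₂ ≤ N := (le_max_left _ _).trans ((le_max_right _ _).trans ((le_max_right _ _).trans
        ((le_max_right _ _).trans hN)))
      have hv0 : vl (z : ℂ) (t : ℂ) Q = 0 := by rw [← rv_coe, hQ0]; simp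
      have hQS : Q ∈ SmallI D δ (z : ℂ) (t : ℂ) N := by
        refine ⟨hQI, h5 N ((le_max_left _ _).trans hN), ?_⟩
        rw [hv0, norm_zero]
        positivity
      rw [(h2 N hNc t ht').2 Q' hQ' Q (Or.inl hQS)]
      exact hv0

end Pool.Agent.Q29.Eqd
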