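import Pool.Agent.Q29.HypInd3
import Pool.Agent.Q23.AQ.Comb

/-!
# The periods of `y² = ∏ (x - a_i) (x - t)` together with the periods of Legendre families
-/

set_option autoImplicit false

open Matrix Polynomial Set

namespace Pool.Agent.Q29.HypInd

open Pool.Agent.Y118.HP Pool.Agent.TH818.AP

variable {n N : ℕ}

/-- points in a gap -/
theorem inGap_of {a : Fin n → ℝ} {m : Fin (n + 1)} {t : ℝ} (h : StrictMono (er a m t)) :
    StrictMono a ∧ InGap a m t := by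
  have h1 : ∀ i, er a m t (m.succAbove i) = a i := fun i => by simp [er]
  have h2 : er a m t m = t := by simp [er]
  refine ⟨fun i k hik => ?_, fun i => ⟨fun hi => ?_, fun hi => ?_⟩⟩
  · rw [← h1 i, ← h1 k]
    exact h ((Fin.succAbove_lt_succAbove_iff).2 hik)
  · have h3 := h ((Fin.succAbove_lt_iff_castSucc_lt _ _).2 hi)
    rwa [h1, h2] at h3
  · have h3 := h ((Fin.lt_succAbove_iff_le_castSucc _ _).2 hi)
    rwa [h1, h2] at h3

/-- the functions -/
noncomputable def fHL (a : Fin n → ℝ) (m : Fin (n + 1)) (α γ : Fin N → ℝ) : (Fin N × Fin 3) ⊕ LT n → ℝ → ℝ :=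
  Sum.elim (fun z : Fin N × Fin 3 => KC (α z.1) (γ z.1) z.2) (fH a m)

theorem fHL_an (a : Fin n → ℝ) (m : Fin (n + 1)) (α γ : Fin N → ℝ) (c y A B : ℝ) (hcA : c < A) (hBy : B < y) (hAB : A < B)
    (hgap : ∀ t, c < t → t < y → StrictMono (er a m t)) (h : ∀ j, α j < A ∧ B < γ j) (p : (Fin N × Fin 3) ⊕ LT n) :
    AnalyticOnNhd ℝ (fHL a m α γ p) (Icc A B) := by
  rcases p with z | x <;> intro t ht
  · exact kc_an _ _ ((h z.1).1.trans (hAB.trans (h z.1).2)) z.2 t ((h z.1).1.trans_le ht.1)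
      (lt_of_le_of_lt ht.2 (h z.1).2)
  · obtain ⟨h1, h2⟩ := inGap_of (hgap t (hcA.trans_le ht.1) (lt_of_le_of_lt ht.2 hBy))
    exact fH_an h1 m x h2

theorem fHL_ind (hn : Even n) (a : Fin n → ℝ) (m : Fin (n + 1)) (α γ : Fin N → ℝ) (hα : StrictAnti α) (hγ : StrictMono γ)
    (c y A B : ℝ) (hcA : c < A) (hBy : B < y) (hAB : A < B)
    (hgap : ∀ t, c < t → t < y → StrictMono (er a m t)) (h : ∀ j, α j < A ∧ B < γ j) (hc : ∀ j, c < α j) (hy : ∀ j, γ j < y)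
    (d : ℕ) : RIndep (fun (e : ((Fin N × Fin 3) ⊕ LT n) → Fin (d + 1)) (t : ℝ) =>
      ∏ p, fHL a m α γ p t ^ (e p : ℕ)) A B := by
  classical
  have hA : c < A ∧ A < y := ⟨hcA, hAB.trans hBy⟩
  obtain ⟨ha, -⟩ := inGap_of (hgap A hA.1 hA.2)
  have hg : ∀ t, c < t → t < y → InGap a m t := fun t h1 h2 => (inGap_of (hgap t h1 h2)).2
  refine Pool.Agent.Q23.AQ.comb_leg (fH a m) c y A B hcA.le hAB hBy.le ?_ ?_ α γ hα hγ
    (fun j => (h j).1.trans (hAB.trans (h j).2)) hc hy (fun j => ⟨(h j).1.le, (h j).2.le⟩)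
  · intro x t ht
    exact fH_an ha m x (hg t ht.1 ht.2)
  · intro a' b' ha' hab' hb'
    exact fH_ind hn ha m d a' b' hab' fun t ht => hg t (by linarith [ht.1]) (by linarith [ht.2])

end Pool.Agent.Q29.HypInd
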