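import Mathlib
import Pool.Agent.Q29.DigDir
import Pool.Agent.TH456.TM.Pair
import Pool.Agent.TH456.TM.E

/-!
# The digits of the values of two polynomials in two variables
-/

set_option autoImplicit false

namespace Pool.Agent.Q29.DD

open Finset Polynomial
open Pool.Agent.TH456.TM (MeasT vl σx σx_coeff core_res)

/-- the value `f(z, t)`, the inner variable is `z` -/
noncomputable def val2 (z t : ℝ) (f : ℤ[X][X]) : ℝ := eval₂ (aeval z : ℤ[X] →ₐ[ℤ] ℝ).toRingHom t f

theorem val2_coe (z t : ℝ) (P : ℤ[X][X]) : ((val2 z t P : ℝ) : ℂ) = vl z t P := by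
  unfold val2 vl
  rw [eval_map, ← Complex.ofRealHom_eq_coe, hom_eval₂]
  congr 1
  refine Polynomial.ringHom_ext (fun n => ?_) ?_
  · simp [σx]
  · simp [σx]

theorem abs_val2 (z t : ℝ) (P : ℤ[X][X]) : |val2 z t P| = ‖vl (z : ℂ) (t : ℂ) P‖ := by
  rw [← val2_coe, Complex.norm_real, Real.norm_eq_abs]

/-- `f - a` and `f' - a'` are coprime over the field `ℚ(x)` for all rational `a`, `a'` -/
def Indep (f f' : ℤ[X][X]) : Prop :=
  ∀ a a' : ℚ, IsCoprime (f.map (algebraMap ℤ[X] (FractionRing ℤ[X])) - C (a : FractionRing ℤ[X]))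
    (f'.map (algebraMap ℤ[X] (FractionRing ℤ[X])) - C (a' : FractionRing ℤ[X]))

/-- the polynomial `q f - p` -/
noncomputable def comb2 (q : ℕ) (p : ℤ) (f : ℤ[X][X]) : ℤ[X][X] := C (C (q : ℤ)) * f - C (C p)

theorem comb2_natDegree (q : ℕ) (hq : 1 ≤ q) (p : ℤ) (f : ℤ[X][X]) (hf : 0 < f.natDegree) :
    (comb2 q p f).natDegree = f.natDegree := by
  unfold comb2
  have hne : (C (C (q : ℤ)) : ℤ[X][X]) ≠ 0 := by
    rw [Ne, C_eq_zero, C_eq_zero]
    exact_mod_cast (by omega : q ≠ 0)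
  have h1 : (C (C (q : ℤ)) * f : ℤ[X][X]).natDegree = f.natDegree := by
    rw [natDegree_mul hne (by rintro rfl; simp at hf), natDegree_C, zero_add]
  rw [natDegree_sub_eq_left_of_natDegree_lt (by rw [natDegree_C, h1]; exact hf), h1]

theorem comb2_val (q : ℕ) (p : ℤ) (f : ℤ[X][X]) (z t : ℝ) : val2 z t (comb2 q p f) = q * val2 z t f - p := by
  unfold comb2 val2
  rw [eval₂_sub, eval₂_mul, eval₂_C, eval₂_C]
  simp

theorem comb2_res (f f' : ℤ[X][X]) (h : Indep f f') (hf : 0 < f.natDegree) (q q' : ℕ) (hq : 1 ≤ q) (hq' : 1 ≤ q')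
    (p p' : ℤ) : resultant (comb2 q p f) (comb2 q' p' f') (comb2 q p f).natDegree (comb2 q' p' f').natDegree ≠ 0 := by
  obtain ⟨φ, hφ⟩ : ∃ φ : ℤ[X] →+* FractionRing ℤ[X], φ = algebraMap ℤ[X] (FractionRing ℤ[X]) := ⟨_, rfl⟩
  have hinj : Function.Injective φ := by
    rw [hφ]
    exact IsFractionRing.injective _ _
  have key : ∀ (f : ℤ[X][X]) (q : ℕ) (p : ℤ), 1 ≤ q → (comb2 q p f).map φ =
      C ((q : FractionRing ℤ[X])) * (f.map φ - C (((p : ℚ) / q : ℚ) : FractionRing ℤ[X])) := by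
    intro f q p hq
    unfold comb2
    rw [Polynomial.map_sub, Polynomial.map_mul, map_C, map_C, mul_sub, ← C_mul]
    have hq0 : ((q : ℕ) : FractionRing ℤ[X]) ≠ 0 := by exact_mod_cast (by omega : q ≠ 0)
    congr 2
    · congr 1
      rw [map_natCast, map_natCast]
    · rw [show (((p : ℚ) / q : ℚ) : FractionRing ℤ[X]) = (p : FractionRing ℤ[X]) / q by push_cast; rfl,
        mul_div_cancel₀ _ hq0]
      simp
  intro h0
  have h1 : φ (resultant (comb2 q p f) (comb2 q' p' f') (comb2 q p f).natDegree (comb2 q' p' f').natDegree) = 0 := by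
    rw [h0, map_zero]
  rw [← resultant_map_map] at h1
  have h2 : resultant ((comb2 q p f).map φ) ((comb2 q' p' f').map φ) = 0 := by
    rw [natDegree_map_eq_of_injective hinj, natDegree_map_eq_of_injective hinj]
    exact h1
  rw [resultant_eq_zero_iff] at h2
  apply h2.2
  rw [key f q p hq, key f' q' p' hq']
  have hu : ∀ q : ℕ, 1 ≤ q → IsUnit (C ((q : FractionRing ℤ[X]))) := by
    intro q hq
    refine isUnit_C.2 (isUnit_iff_ne_zero.2 ?_)
    exact_mod_cast (by omega : q ≠ 0)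
  rw [isCoprime_mul_unit_left_left (hu q hq), isCoprime_mul_unit_left_right (hu q' hq')]
  have h3 := h ((p : ℚ) / q) ((p' : ℚ) / q')
  rw [← hφ] at h3
  exact h3

theorem sum_bound (z t T S M : ℝ) (D E : ℕ) (htT : |t| ≤ T) (hT : 1 ≤ T) (f : ℤ[X][X]) (hfD : f.natDegree ≤ D)
    (hfE : ∀ j, (f.coeff j).natDegree ≤ E) (hM : 1 ≤ M) (hfM : ∀ j i, |((f.coeff j).coeff i : ℝ)| ≤ M)
    (hS : S = (D + 1) * ((E + 1) * (max 1 |z|) ^ E * T ^ D)) : |val2 z t f| ≤ M * S := by
  have e1 : val2 z t f = ∑ j ∈ range (D + 1), aeval z (f.coeff j) * t ^ j := by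
    unfold val2
    rw [eval₂_eq_sum_range' _ (show f.natDegree < D + 1 by omega)]
    rfl
  rw [e1]
  refine (Finset.abs_sum_le_sum_abs _ _).trans ?_
  calc ∑ j ∈ range (D + 1), |aeval z (f.coeff j) * t ^ j|
      ≤ ∑ _j ∈ range (D + 1), ((E + 1) * (max 1 |z|) ^ E * M) * T ^ D := by
        refine Finset.sum_le_sum fun j hj => ?_
        rw [Finset.mem_range] at hj
        rw [abs_mul, abs_pow]
        have h1 : |aeval z (f.coeff j)| ≤ (E + 1) * (max 1 |z|) ^ E * M := by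
          have h2 := σx_coeff (z : ℂ) E (f.coeff j) M (hfE j) (hfM j)
          have h3 : ‖σx (z : ℂ) (f.coeff j)‖ = |aeval z (f.coeff j)| := by
            rw [Pool.Agent.TH456.TM.abs_aeval]
            rfl
          rw [h3, Complex.norm_real, Real.norm_eq_abs] at h2
          exact h2
        have h2 : |t| ^ j ≤ T ^ D :=
          (pow_le_pow_left₀ (abs_nonneg _) htT j).trans (pow_le_pow_right₀ hT (by omega))
        exact mul_le_mul h1 h2 (by positivity) (by positivity)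
    _ = M * S := by
        rw [Finset.sum_const, Finset.card_range, nsmul_eq_mul, hS]
        push_cast
        ring

/-- the coefficients of `q f - p` -/
theorem comb2_coeff (z t R M S : ℝ) (f : ℤ[X][X]) (hM : 1 ≤ M) (hS : 1 ≤ S) (hfM : ∀ j i, |((f.coeff j).coeff i : ℝ)| ≤ M)
    (hval : |val2 z t f| ≤ M * S) (q : ℕ) (hq : 1 ≤ q) (p : ℤ) (hqR : (q : ℝ) ≤ R)
    (hsmall : |(q : ℝ) * val2 z t f - p| ≤ 1) (j i : ℕ) :
    |((((comb2 q p f).coeff j).coeff i : ℤ) : ℝ)| ≤ R * M * (3 * S) := by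
  have hq1 : (1 : ℝ) ≤ q := by exact_mod_cast hq
  have hR1 : 1 ≤ R := hq1.trans hqR
  have h1 : (q : ℝ) * |((f.coeff j).coeff i : ℝ)| ≤ R * M := mul_le_mul hqR (hfM j i) (abs_nonneg _) (by linarith)
  have hp : |(p : ℝ)| ≤ 1 + R * (M * S) := by
    have e : (p : ℝ) = -(q * val2 z t f - p) + q * val2 z t f := by ring
    rw [e]
    refine (abs_add_le _ _).trans ?_
    rw [abs_neg, abs_mul, Nat.abs_cast]
    have := mul_le_mul hqR hval (abs_nonneg _) (by linarith : 0 ≤ R)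
    linarith
  have hRM : 1 ≤ R * M := by nlinarith
  have hRMS : R * M ≤ R * M * S := le_mul_of_one_le_right (by linarith) hS
  have e1 : (comb2 q p f).coeff j = C (q : ℤ) * f.coeff j - if j = 0 then C p else 0 := by
    unfold comb2
    rw [coeff_sub, coeff_C_mul, coeff_C]
  rw [e1]
  by_cases hj : j = 0
  · rw [if_pos hj, coeff_sub, coeff_C_mul, coeff_C]
    push_cast
    by_cases hi : i = 0
    · rw [if_pos hi]
      refine (abs_sub _ _).trans ?_
      rw [abs_mul, Nat.abs_cast]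
      have e2 : R * (M * S) = R * M * S := by ring
      rw [e2] at hp
      linarith
    · rw [if_neg hi]
      push_cast
      rw [sub_zero, abs_mul, Nat.abs_cast]
      linarith
  · rw [if_neg hj, sub_zero, coeff_C_mul]
    push_cast
    rw [abs_mul, Nat.abs_cast]
    linarith

open Pool.Agent.W47.JL in
/-- **The digits of the values of two independent polynomials in two variables.** -/
theorem biv_digits (z : ℝ) (hz : MeasT (z : ℂ)) (D E : ℕ) (hD : 1 ≤ D) : ∃ κ : ℝ, 3 ≤ κ ∧ ∀ T : ℝ, 1 ≤ T →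
    ∃ C : ℝ, 0 < C ∧ ∀ t : ℝ, |t| ≤ T → ∀ f f' : ℤ[X][X], Indep f f' → 0 < f.natDegree → 0 < f'.natDegree →
      f.natDegree ≤ D → f'.natDegree ≤ D → (∀ j, (f.coeff j).natDegree ≤ E) → (∀ j, (f'.coeff j).natDegree ≤ E) →
      ∀ M : ℝ, 1 ≤ M → (∀ j i, |((f.coeff j).coeff i : ℝ)| ≤ M) → (∀ j i, |((f'.coeff j).coeff i : ℝ)| ≤ M) →
      ∀ g g' : ℕ, 2 ≤ g → 2 ≤ g' → ∀ (L L' : ℕ) (Λ α : ℝ), Λ ≤ L * Real.log g → Λ ≤ L' * Real.log g' →
        F C (complexity g (val2 z t f) L) * Real.log g ≤ α →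
        F C (complexity g' (val2 z t f') L') * Real.log g' ≤ α → Λ ≤ (κ + 1) * α + κ * Real.log M := by
  obtain ⟨κ₀, hκ₀, hcore⟩ := core_res (z : ℂ) hz D E hD
  obtain ⟨κ, hκE⟩ : ∃ κ : ℝ, κ = max κ₀ 3 := ⟨_, rfl⟩
  have hκ3 : 3 ≤ κ := by rw [hκE]; exact le_max_right _ _
  have hκκ : κ₀ ≤ κ := by rw [hκE]; exact le_max_left _ _
  have hκ : 0 ≤ κ := by linarith
  refine ⟨κ, hκ3, fun T hT => ?_⟩
  obtain ⟨c, hc, hcore⟩ := hcore T hT
  obtain ⟨S, hS⟩ : ∃ S : ℝ, S = (D + 1) * ((E + 1) * (max 1 |z|) ^ E * T ^ D) := ⟨_, rfl⟩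
  have hS1 : 1 ≤ S := by
    rw [hS]
    have h1 : (1 : ℝ) ≤ (D : ℝ) + 1 := by have : (0 : ℝ) ≤ D := Nat.cast_nonneg _
                                          linarith
    have h2 : (1 : ℝ) ≤ (E : ℝ) + 1 := by have : (0 : ℝ) ≤ E := Nat.cast_nonneg _
                                          linarith
    have h3 : (1 : ℝ) ≤ (max 1 |z|) ^ E := one_le_pow₀ (le_max_left _ _)
    have h4 : (1 : ℝ) ≤ T ^ D := one_le_pow₀ hT
    exact one_le_mul_of_one_le_of_one_le h1 (one_le_mul_of_one_le_of_one_le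
      (one_le_mul_of_one_le_of_one_le h2 h3) h4)
  obtain ⟨K, hK⟩ : ∃ K : ℝ, K = κ * Real.log (3 * S) + |Real.log c| := ⟨_, rfl⟩
  have hlZ : 0 ≤ Real.log (3 * S) := Real.log_nonneg (by linarith)
  have hl2 : 0.69 < Real.log 2 := by have := Real.log_two_gt_d9; linarith
  have hK0 : 0 ≤ K := by rw [hK]; positivity
  refine ⟨17 + 2 * K, by positivity, ?_⟩
  intro t ht f f' hind hf0 hf0' hfD hfD' hfE hfE' M hM hfM hfM' g g' hg hg' L L' Λ α hΛ hΛ' hα hα'
  have hM0 : 0 < M := by linarith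
  have hlM : 0 ≤ Real.log M := Real.log_nonneg hM
  -- one number
  have one : ∀ (x : ℝ) (g : ℕ), 2 ≤ g → ∀ (L : ℕ) (α : ℝ), F (17 + 2 * K) (complexity g x L) * Real.log g ≤ α →
      K ≤ α ∧ ∃ q : ℕ, 1 ≤ q ∧ ∃ p : ℤ, (q : ℝ) ≤ Real.exp (α - K) ∧
        |(q : ℝ) * x - p| ≤ Real.exp (α - K - L * Real.log g) := by
    intro x g hg L α hα
    obtain ⟨q, hq, p, h1, h2⟩ := approx g hg x L
    obtain ⟨N, hN⟩ : ∃ N, N = complexity g x L := ⟨_, rfl⟩
    obtain ⟨w, hw⟩ : ∃ w, w = Real.log g := ⟨_, rfl⟩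
    rw [← hN, ← hw] at h1 h2 hα
    have h10 : 0.69 ≤ w := by
      rw [hw]
      exact hl2.le.trans (Real.log_le_log (by norm_num) (by exact_mod_cast hg))
    have hAK : ((N : ℝ) + 15 * err N + 1) * w + K ≤ α := by
      refine le_trans ?_ hα
      unfold F
      have e2 : Real.sqrt (((N : ℝ) + 1) * Real.log ((N : ℝ) + 2)) = err N := rfl
      rw [e2]
      have h9 := err_ge N
      have h11 : (1 : ℝ) * w ≤ 2 * err N * w := by
        apply mul_le_mul_of_nonneg_right _ (by linarith)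
        linarith
      have h13 : 0.5 ≤ err N * w := by nlinarith
      have h14 : K ≤ 2 * K * (err N * w) := by nlinarith
      have e3 : ((N : ℝ) + (17 + 2 * K) * err N) * w =
        ((N : ℝ) + 15 * err N) * w + 2 * err N * w + 2 * K * (err N * w) := by ring
      rw [e3]
      linarith
    have h12 : 0 ≤ ((N : ℝ) + 15 * err N + 1) * w := by
      have := err_ge N
      positivity
    refine ⟨by linarith, q, hq, p, h1.trans (Real.exp_le_exp.2 (by linarith)), ?_⟩
    rw [← hw]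
    exact h2.trans (Real.exp_le_exp.2 (by linarith))
  obtain ⟨hKα, q, hq, p, h1, h2⟩ := one _ g hg L α hα
  obtain ⟨-, q', hq', p', h1', h2'⟩ := one _ g' hg' L' α hα'
  have h3 : |(q : ℝ) * val2 z t f - p| ≤ Real.exp (α - K - Λ) :=
    h2.trans (Real.exp_le_exp.2 (by linarith))
  have h3' : |(q' : ℝ) * val2 z t f' - p'| ≤ Real.exp (α - K - Λ) :=
    h2'.trans (Real.exp_le_exp.2 (by linarith))
  by_cases hbig : α - K - Λ ≤ 0
  · have hle1 : Real.exp (α - K - Λ) ≤ 1 := by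
      rw [← Real.exp_zero]
      exact Real.exp_le_exp.2 hbig
    have hv := sum_bound z t T S M D E ht hT f hfD hfE hM hfM hS
    have hv' := sum_bound z t T S M D E ht hT f' hfD' hfE' hM hfM' hS
    have a3 := comb2_coeff z t _ M S f hM hS1 hfM hv q hq p h1 (h3.trans hle1)
    have b3 := comb2_coeff z t _ M S f' hM hS1 hfM' hv' q' hq' p' h1' (h3'.trans hle1)
    have hexp : 1 ≤ Real.exp (α - K) := Real.one_le_exp (by linarith)
    have hMZ : 1 ≤ Real.exp (α - K) * M * (3 * S) := by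
      have h5 : 1 ≤ Real.exp (α - K) * M := by nlinarith
      nlinarith
    have hcE : ∀ (q : ℕ) (p : ℤ) (f : ℤ[X][X]), (∀ j, (f.coeff j).natDegree ≤ E) → ∀ j,
        ((comb2 q p f).coeff j).natDegree ≤ E := by
      intro q p f hf j
      have e1 : (comb2 q p f).coeff j = C (q : ℤ) * f.coeff j - if j = 0 then C p else 0 := by
        unfold comb2
        rw [coeff_sub, coeff_C_mul, coeff_C]
      rw [e1]
      refine (natDegree_sub_le _ _).trans (max_le ((natDegree_C_mul_le _ _).trans (hf j)) ?_)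
      split_ifs
      · rw [natDegree_C]; omega
      · rw [natDegree_zero]; omega
    have h4 := hcore (t : ℂ) (by rw [Complex.norm_real, Real.norm_eq_abs]; exact ht) (comb2 q p f) (comb2 q' p' f')
      (by rw [comb2_natDegree q hq p f hf0]; exact hfD) (by rw [comb2_natDegree q' hq' p' f' hf0']; exact hfD')
      (hcE q p f hfE) (hcE q' p' f' hfE') (by rw [comb2_natDegree q hq p f hf0]; omega)
      (comb2_res f f' hind hf0 q q' hq hq' p p') _ hMZ a3 b3
    rw [← abs_val2, ← abs_val2, comb2_val, comb2_val] at h4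
    have h40 : c * (Real.exp (α - K) * M * (3 * S)) ^ (-κ) ≤ c * (Real.exp (α - K) * M * (3 * S)) ^ (-κ₀) :=
      mul_le_mul_of_nonneg_left (Real.rpow_le_rpow_of_exponent_le hMZ (neg_le_neg hκκ)) hc.le
    have h5 := Real.log_le_log (by positivity) ((h40.trans h4).trans (max_le h3 h3'))
    rw [Real.log_mul hc.ne' (by positivity), Real.log_rpow (by positivity), Real.log_exp,
      Real.log_mul (by positivity) (by positivity), Real.log_mul (Real.exp_pos _).ne' hM0.ne', Real.log_exp] at h5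
    have h6 := neg_abs_le (Real.log c)
    have h7 : κ * Real.log (3 * S) + |Real.log c| = K := hK.symm
    have h8 : -κ * (α - K + Real.log M + Real.log (3 * S)) =
      -(κ * α) + κ * K - κ * Real.log M - κ * Real.log (3 * S) := by ring
    rw [h8] at h5
    have h9 : 0 ≤ κ * K := by positivity
    linarith
  · push Not at hbig
    have h5 : 0 ≤ κ * α := mul_nonneg hκ (hK0.trans hKα)
    have h6 : 0 ≤ κ * Real.log M := by positivity
    linarith

end Pool.Agent.Q29.DD
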