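import Mathlib
import Pool.Agent.Q29.DigDir

/-!
# The digits of the values of polynomials at two numbers with a simultaneous measure of transcendence
-/

set_option autoImplicit false

namespace Pool.Agent.Q29.DD

open Finset Polynomial

/-- the polynomial `q P - p` -/
theorem one_poly {D : ℕ} (u S M : ℝ) (hS : ∀ i ≤ D, |u| ^ i ≤ S) (hS1 : 1 ≤ S) (hM : 1 ≤ M) (P : ℤ[X])
    (hP0 : 0 < P.natDegree) (hPD : P.natDegree ≤ D) (hPM : ∀ i, |(P.coeff i : ℝ)| ≤ M) (q : ℕ) (hq : 1 ≤ q) (p : ℤ)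
    (R : ℝ) (hqR : (q : ℝ) ≤ R) (hsmall : |(q : ℝ) * aeval u P - p| ≤ 1) :
    ∃ P1 : ℤ[X], P1 ≠ 0 ∧ P1.natDegree ≤ D ∧ (∀ i, |(P1.coeff i : ℝ)| ≤ R * M * ((D + 2) * S)) ∧
      aeval u P1 = (q : ℝ) * aeval u P - p := by
  have hq1 : (1 : ℝ) ≤ q := by exact_mod_cast hq
  have hR1 : 1 ≤ R := hq1.trans hqR
  refine ⟨C (q : ℤ) * P - C p, ?_, ?_, ?_, ?_⟩
  · intro h0
    have h1 : (C (q : ℤ) * P - C p).coeff P.natDegree = 0 := by rw [h0, coeff_zero]
    rw [coeff_sub, coeff_C_mul, coeff_C, if_neg (by omega), sub_zero] at h1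
    rcases mul_eq_zero.1 h1 with h2 | h2
    · have : q = 0 := by exact_mod_cast h2
      omega
    · have h3 : P.leadingCoeff = 0 := h2
      rw [leadingCoeff_eq_zero] at h3
      rw [h3] at hP0
      simp at hP0
  · refine (natDegree_sub_le _ _).trans (max_le ((natDegree_C_mul_le _ _).trans hPD) ?_)
    rw [natDegree_C]
    omega
  · intro i
    have hD0 : (0 : ℝ) ≤ D := Nat.cast_nonneg _
    have hfac : 1 ≤ ((D : ℝ) + 2) * S := by nlinarith
    by_cases hi : i = 0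
    · subst hi
      rw [coeff_sub, coeff_C_mul, coeff_C_zero]
      push_cast
      have e1 : aeval u P = (P.coeff 0 : ℝ) + ∑ i ∈ range D, (P.coeff (i + 1) : ℝ) * u ^ (i + 1) := by
        rw [Polynomial.aeval_eq_sum_range' (show P.natDegree < D + 1 by omega), Finset.sum_range_succ']
        simp only [zsmul_eq_mul, pow_zero, mul_one]
        ring
      have e2 : (q : ℝ) * P.coeff 0 - p = ((q : ℝ) * aeval u P - p) -
          q * ∑ i ∈ range D, (P.coeff (i + 1) : ℝ) * u ^ (i + 1) := by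
        rw [e1]
        ring
      rw [e2]
      refine (abs_sub _ _).trans ?_
      rw [abs_mul, Nat.abs_cast]
      have h3 : |∑ i ∈ range D, (P.coeff (i + 1) : ℝ) * u ^ (i + 1)| ≤ D * (M * S) := by
        refine (Finset.abs_sum_le_sum_abs _ _).trans ?_
        calc ∑ i ∈ range D, |(P.coeff (i + 1) : ℝ) * u ^ (i + 1)| ≤ ∑ _i ∈ range D, M * S := by
              refine Finset.sum_le_sum fun i hi => ?_
              rw [Finset.mem_range] at hi
              rw [abs_mul, abs_pow]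
              exact mul_le_mul (hPM _) (hS _ (by omega)) (by positivity) (by linarith)
          _ = _ := by rw [Finset.sum_const, Finset.card_range, nsmul_eq_mul]
      have h4 : (q : ℝ) * |∑ i ∈ range D, (P.coeff (i + 1) : ℝ) * u ^ (i + 1)| ≤ R * (D * (M * S)) :=
        mul_le_mul hqR h3 (abs_nonneg _) (by linarith)
      have h5 : 1 ≤ R * (M * S) := by
        have : 1 ≤ M * S := by nlinarith
        nlinarith
      have e3 : R * M * (((D : ℝ) + 2) * S) = R * (D * (M * S)) + 2 * (R * (M * S)) := by ring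
      rw [e3]
      linarith
    · rw [coeff_sub, coeff_C_mul, coeff_C, if_neg hi, sub_zero]
      push_cast
      rw [abs_mul, Nat.abs_cast]
      calc (q : ℝ) * |(P.coeff i : ℝ)| ≤ R * M := mul_le_mul hqR (hPM i) (abs_nonneg _) (by linarith)
        _ ≤ R * M * (((D : ℝ) + 2) * S) := le_mul_of_one_le_right (by positivity) hfac
  · rw [map_sub, map_mul, aeval_C, aeval_C]
    simp

/-- the simultaneous measure of transcendence for two numbers -/
def Sep (u v : ℝ) (D : ℕ) (κ c : ℝ) : Prop :=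
  ∀ P Q : ℤ[X], P ≠ 0 → Q ≠ 0 → P.natDegree ≤ D → Q.natDegree ≤ D → ∀ H : ℝ, 1 ≤ H →
    (∀ i, |(P.coeff i : ℝ)| ≤ H) → (∀ i, |(Q.coeff i : ℝ)| ≤ H) → c * H ^ (-κ) ≤ max |aeval u P| |aeval v Q|

open Pool.Agent.W47.JL in
/-- **The digits of the values of polynomials at two numbers.** -/
theorem poly_digits (B : ℝ) (D : ℕ) (κ c : ℝ) (hκ : 0 ≤ κ) (hc : 0 < c) :
    ∃ C : ℝ, 0 < C ∧ ∀ u v : ℝ, |u| ≤ B → |v| ≤ B → Sep u v D κ c →
      ∀ P Q : ℤ[X], 0 < P.natDegree → 0 < Q.natDegree → P.natDegree ≤ D → Q.natDegree ≤ D →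
      ∀ M : ℝ, 1 ≤ M → (∀ i, |(P.coeff i : ℝ)| ≤ M) → (∀ i, |(Q.coeff i : ℝ)| ≤ M) →
      ∀ g g' : ℕ, 2 ≤ g → 2 ≤ g' → ∀ (L L' : ℕ) (Λ α : ℝ), Λ ≤ L * Real.log g → Λ ≤ L' * Real.log g' →
        F C (complexity g (aeval u P) L) * Real.log g ≤ α →
        F C (complexity g' (aeval v Q) L') * Real.log g' ≤ α → Λ ≤ (κ + 1) * α + κ * Real.log M := by
  obtain ⟨S, hS⟩ : ∃ S : ℝ, S = (max 1 B) ^ D := ⟨_, rfl⟩
  have hB1 : (1 : ℝ) ≤ max 1 B := le_max_left _ _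
  have hSu : ∀ u : ℝ, |u| ≤ B → ∀ i ≤ D, |u| ^ i ≤ S := by
    intro u hu i hi
    rw [hS]
    calc |u| ^ i ≤ (max 1 B) ^ i := pow_le_pow_left₀ (abs_nonneg _) (hu.trans (le_max_right _ _)) i
      _ ≤ _ := pow_le_pow_right₀ hB1 hi
  have hS1 : 1 ≤ S := by
    rw [hS]
    exact one_le_pow₀ hB1
  obtain ⟨Z, hZ⟩ : ∃ Z : ℝ, Z = ((D : ℝ) + 2) * S := ⟨_, rfl⟩
  have hD0 : (0 : ℝ) ≤ D := Nat.cast_nonneg _
  have hZ1 : 1 ≤ Z := by rw [hZ]; nlinarith
  obtain ⟨K, hK⟩ : ∃ K : ℝ, K = κ * Real.log Z + |Real.log c| := ⟨_, rfl⟩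
  have hlZ : 0 ≤ Real.log Z := Real.log_nonneg hZ1
  have hl2 : 0.69 < Real.log 2 := by have := Real.log_two_gt_d9; linarith
  have hK0 : 0 ≤ K := by rw [hK]; positivity
  refine ⟨17 + 2 * K, by positivity, ?_⟩
  intro u v hu hv hsep P Q hP0 hQ0 hPD hQD M hM hPM hQM g g' hg hg' L L' Λ α hΛ hΛ' hα hα'
  have hM0 : 0 < M := by linarith
  have hlM : 0 ≤ Real.log M := Real.log_nonneg hM
  -- one number
  have one : ∀ (x : ℝ) (g : ℕ), 2 ≤ g → ∀ (L : ℕ) (α : ℝ), F (17 + 2 * K) (complexity g x L) * Real.log g ≤ α →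
      K ≤ α ∧ ∃ q : ℕ, 1 ≤ q ∧ ∃ p : ℤ, (q : ℝ) ≤ Real.exp (α - K) ∧
        |(q : ℝ) * x - p| ≤ Real.exp (α - K - L * Real.log g) := by
    intro x g hg L α hα
    obtain ⟨q, hq, p, h1, h2⟩ := approx g hg x L
    obtain ⟨N, hN⟩ : ∃ N, N = complexity g x L := ⟨_, rfl⟩
    obtain ⟨w, hw⟩ : ∃ w, w = Real.log g := ⟨_, rfl⟩
    rw [← hN, ← hw] at h1 h2 hα
    have h10 : 0.69 ≤ w := by
      rw [hw]
      exact hl2.le.trans (Real.log_le_log (by norm_num) (by exact_mod_cast hg))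
    have hAK : ((N : ℝ) + 15 * err N + 1) * w + K ≤ α := by
      refine le_trans ?_ hα
      unfold F
      have e2 : Real.sqrt (((N : ℝ) + 1) * Real.log ((N : ℝ) + 2)) = err N := rfl
      rw [e2]
      have h9 := err_ge N
      have h11 : (1 : ℝ) * w ≤ 2 * err N * w := by
        apply mul_le_mul_of_nonneg_right _ (by linarith)
        linarith
      have h13 : 0.5 ≤ err N * w := by nlinarith
      have h14 : K ≤ 2 * K * (err N * w) := by nlinarith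
      have e3 : ((N : ℝ) + (17 + 2 * K) * err N) * w =
        ((N : ℝ) + 15 * err N) * w + 2 * err N * w + 2 * K * (err N * w) := by ring
      rw [e3]
      linarith
    have h12 : 0 ≤ ((N : ℝ) + 15 * err N + 1) * w := by
      have := err_ge N
      positivity
    refine ⟨by linarith, q, hq, p, h1.trans (Real.exp_le_exp.2 (by linarith)), ?_⟩
    rw [← hw]
    exact h2.trans (Real.exp_le_exp.2 (by linarith))
  obtain ⟨hKα, q, hq, p, h1, h2⟩ := one _ g hg L α hα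
  obtain ⟨-, q', hq', p', h1', h2'⟩ := one _ g' hg' L' α hα'
  have h3 : |(q : ℝ) * aeval u P - p| ≤ Real.exp (α - K - Λ) :=
    h2.trans (Real.exp_le_exp.2 (by linarith))
  have h3' : |(q' : ℝ) * aeval v Q - p'| ≤ Real.exp (α - K - Λ) :=
    h2'.trans (Real.exp_le_exp.2 (by linarith))
  by_cases hbig : α - K - Λ ≤ 0
  · have hle1 : Real.exp (α - K - Λ) ≤ 1 := by
      rw [← Real.exp_zero]
      exact Real.exp_le_exp.2 hbig
    obtain ⟨P1, a1, a2, a3, a4⟩ := one_poly u S M (hSu u hu) hS1 hM P hP0 hPD hPM q hq p _ h1 (h3.trans hle1)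
    obtain ⟨Q1, b1, b2, b3, b4⟩ := one_poly v S M (hSu v hv) hS1 hM Q hQ0 hQD hQM q' hq' p' _ h1' (h3'.trans hle1)
    rw [← hZ] at a3 b3
    have hexp : 1 ≤ Real.exp (α - K) := Real.one_le_exp (by linarith)
    have hMZ : 1 ≤ Real.exp (α - K) * M * Z := by
      have : 1 ≤ Real.exp (α - K) * M := by nlinarith
      nlinarith
    have h4 := hsep P1 Q1 a1 b1 a2 b2 _ hMZ a3 b3
    rw [a4, b4] at h4
    have h5 := Real.log_le_log (by positivity) (h4.trans (max_le h3 h3'))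
    rw [Real.log_mul hc.ne' (by positivity), Real.log_rpow (by positivity), Real.log_exp,
      Real.log_mul (by positivity) (by linarith), Real.log_mul (Real.exp_pos _).ne' hM0.ne', Real.log_exp] at h5
    have h6 := neg_abs_le (Real.log c)
    have h7 : κ * Real.log Z + |Real.log c| = K := hK.symm
    have h8 : -κ * (α - K + Real.log M + Real.log Z) = -(κ * α) + κ * K - κ * Real.log M - κ * Real.log Z := by ring
    rw [h8] at h5
    have h9 : 0 ≤ κ * K := by positivity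
    linarith
  · push Not at hbig
    have h5 : 0 ≤ κ * α := mul_nonneg hκ (hK0.trans hKα)
    have h6 : 0 ≤ κ * Real.log M := by positivity
    linarith

/-- **Families.** The digits of the values of polynomials at the numbers of a family, with the exponent `κ` -/
def DigComplex {ι : Type} (v : ι → ℝ) (D : ℕ) (κ : ℝ) : Prop :=
  (∃ C : ℝ, 0 < C ∧ ∀ i j, i ≠ j → ∀ P Q : ℤ[X], 0 < P.natDegree → 0 < Q.natDegree → P.natDegree ≤ D →
    Q.natDegree ≤ D → ∀ M : ℝ, 1 ≤ M → (∀ n, |(P.coeff n : ℝ)| ≤ M) → (∀ n, |(Q.coeff n : ℝ)| ≤ M) →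
    ∀ g g' : ℕ, 2 ≤ g → 2 ≤ g' → ∀ (L L' : ℕ) (Λ α : ℝ), Λ ≤ L * Real.log g → Λ ≤ L' * Real.log g' →
      F C (complexity g (aeval (v i) P) L) * Real.log g ≤ α →
      F C (complexity g' (aeval (v j) Q) L') * Real.log g' ≤ α → Λ ≤ (κ + 1) * α + κ * Real.log M) ∧
  ∀ ε : ℝ, 0 < ε → ∃ δ : ℝ, 0 < δ ∧ ∀ Λ : ℝ, 1 ≤ Λ → ∀ i j, i ≠ j → ∀ P Q : ℤ[X], 0 < P.natDegree →
    0 < Q.natDegree → P.natDegree ≤ D → Q.natDegree ≤ D → (∀ n, |(P.coeff n : ℝ)| ≤ Real.exp (δ * Λ)) →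
    (∀ n, |(Q.coeff n : ℝ)| ≤ Real.exp (δ * Λ)) → ∀ g g' : ℕ, 2 ≤ g → 2 ≤ g' → (g : ℝ) ≤ Real.exp (δ * Λ) →
    (g' : ℝ) ≤ Real.exp (δ * Λ) →
      (1 / (κ + 1) - ε) * (Λ / Real.log g) ≤ complexity g (aeval (v i) P) ⌊Λ / Real.log g⌋₊ ∨
      (1 / (κ + 1) - ε) * (Λ / Real.log g') ≤ complexity g' (aeval (v j) Q) ⌊Λ / Real.log g'⌋₊

theorem digComplex_of {ι : Type} [Fintype ι] (v : ι → ℝ) (D : ℕ) (κ : ℝ) (hκ : 3 ≤ κ)
    (h : ∃ c : ℝ, 0 < c ∧ ∀ i j, i ≠ j → Sep (v i) (v j) D κ c) : DigComplex v D κ := by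
  obtain ⟨c, hc, hsep⟩ := h
  obtain ⟨C, hC, h1⟩ := poly_digits (∑ i, |v i|) D κ c (by linarith) hc
  have hB : ∀ i, |v i| ≤ ∑ i, |v i| := fun i =>
    Finset.single_le_sum (f := fun i => |v i|) (fun i _ => abs_nonneg _) (Finset.mem_univ i)
  refine ⟨⟨C, hC, fun i j hij => h1 (v i) (v j) (hB i) (hB j) (hsep i j hij)⟩, ?_⟩
  intro ε hε
  obtain ⟨δ, hδ, h2⟩ := scale (n := 2) (κ + 1) C κ ε (by linarith) hC (by linarith) hε
  refine ⟨δ, hδ, ?_⟩
  intro Λ hΛ i j hij P Q hP0 hQ0 hPD hQD hPM hQM g g' hg hg' hgL hgL'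
  obtain ⟨k, hk⟩ := h2 Λ hΛ ![aeval (v i) P, aeval (v j) Q] ![g, g']
    (by intro k; fin_cases k; exacts [hg, hg']) (by intro k; fin_cases k; exacts [hgL, hgL']) (by
      intro L a Λ' hL ha
      have h3 := h1 (v i) (v j) (hB i) (hB j) (hsep i j hij) P Q hP0 hQ0 hPD hQD (Real.exp (δ * Λ))
        (Real.one_le_exp (by positivity)) hPM hQM g g' hg hg' (L 0) (L 1) Λ' a (hL 0) (hL 1) (ha 0) (ha 1)
      rwa [Real.log_exp] at h3)
  fin_cases k
  · exact Or.inl hk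
  · exact Or.inr hk

end Pool.Agent.Q29.DD
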