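import Mathlib
import Pool.Agent.Q29.DigPoly
import Pool.Agent.TH456.TM.E

/-!
# From the simultaneous measures of transcendence of the starting files to digits
-/

set_option autoImplicit false

namespace Pool.Agent.Q29.DD

open Polynomial

theorem ht_le {P : ℤ[X]} {H : ℝ} (hH : 0 ≤ H) (h : ∀ i, |(P.coeff i : ℝ)| ≤ H) :
    (Pool.Agent.TH456.TM.ht P : ℝ) ≤ H := by
  have h1 : Pool.Agent.TH456.TM.ht P ≤ ⌊H⌋₊ := by
    unfold Pool.Agent.TH456.TM.ht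
    refine Finset.sup_le fun i _ => Nat.le_floor ?_
    rw [Nat.cast_natAbs]
    push_cast
    exact h i
  exact (Nat.cast_le.2 h1).trans (Nat.floor_le hH)

theorem digComplex_of_TM {ι : Type} [Fintype ι] (v : ι → ℝ) (D : ℕ) (κ : ℝ)
    (h : ∃ C : ℝ, 0 < C ∧ ∀ i j, i ≠ j → ∀ P Q : ℤ[X], P ≠ 0 → Q ≠ 0 → P.natDegree ≤ D →
        Q.natDegree ≤ D → ∀ H : ℝ, (Pool.Agent.TH456.TM.ht P : ℝ) ≤ H → (Pool.Agent.TH456.TM.ht Q : ℝ) ≤ H →
        C * H ^ (-κ) ≤ max ‖aeval (v i : ℂ) P‖ ‖aeval (v j : ℂ) Q‖) : DigComplex v D (max κ 3) := by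
  obtain ⟨C, hC, h⟩ := h
  refine digComplex_of v D (max κ 3) (le_max_right _ _) ⟨C, hC, fun i j hij P Q hP hQ hPD hQD H hH hPH hQH => ?_⟩
  have h1 := h i j hij P Q hP hQ hPD hQD H (ht_le (by linarith) hPH) (ht_le (by linarith) hQH)
  rw [← Pool.Agent.TH456.TM.abs_aeval, ← Pool.Agent.TH456.TM.abs_aeval] at h1
  refine le_trans ?_ h1
  refine mul_le_mul_of_nonneg_left ?_ hC.le
  exact Real.rpow_le_rpow_of_exponent_le hH (neg_le_neg (le_max_left _ _))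

end Pool.Agent.Q29.DD
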