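import Pool.Agent.Q29.EqPair
import Pool.Agent.Q29.DigBiv

set_option autoImplicit false

/-! # Uniform distribution of the multiples of the values of two polynomials in two variables -/

namespace Pool.Agent.Q29.Eqd

open Finset Polynomial
open Pool.Agent.TH456.TM (MeasT vl σx σx_coeff core_res)
open Pool.Agent.Q29.DD (val2 Indep comb2 sum_bound comb2_coeff comb2_natDegree comb2_res comb2_val abs_val2)

theorem biv_good (z : ℝ) (hz : MeasT (z : ℂ)) (D E K : ℕ) (A : ℝ) (hD : 1 ≤ D) (hA : 1 ≤ A) :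
    ∃ κ : ℝ, 0 < κ ∧ ∀ T : ℝ, 1 ≤ T → ∃ N₀ : ℕ, 1 ≤ N₀ ∧ ∀ N : ℕ, N₀ ≤ N → ∀ t : ℝ, |t| ≤ T →
      ∀ f f' : ℤ[X][X], Indep f f' → 0 < f.natDegree → 0 < f'.natDegree →
      f.natDegree ≤ D → f'.natDegree ≤ D → (∀ j, (f.coeff j).natDegree ≤ E) → (∀ j, (f'.coeff j).natDegree ≤ E) →
      (∀ j i, |((f.coeff j).coeff i : ℝ)| ≤ (N : ℝ) ^ κ) → (∀ j i, |((f'.coeff j).coeff i : ℝ)| ≤ (N : ℝ) ^ κ) →
      GoodRange (val2 z t f) K A κ N ∨ GoodRange (val2 z t f') K A κ N := by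
  obtain ⟨κ₀, hκ₀, hcore⟩ := core_res (z : ℂ) hz D E hD
  obtain ⟨κ, hκ, heng⟩ := pair_engine K κ₀ A hκ₀.le hA
  refine ⟨κ, hκ, fun T hT => ?_⟩
  obtain ⟨c, hc, hcore⟩ := hcore T hT
  obtain ⟨S, hS⟩ : ∃ S : ℝ, S = (D + 1) * ((E + 1) * (max 1 |z|) ^ E * T ^ D) := ⟨_, rfl⟩
  have hS1 : 1 ≤ S := by
    rw [hS]
    have h1 : (1 : ℝ) ≤ (D : ℝ) + 1 := by have : (0 : ℝ) ≤ D := Nat.cast_nonneg _
                                          linarith
    have h2 : (1 : ℝ) ≤ (E : ℝ) + 1 := by have : (0 : ℝ) ≤ E := Nat.cast_nonneg _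
                                          linarith
    have h3 : (1 : ℝ) ≤ (max 1 |z|) ^ E := one_le_pow₀ (le_max_left _ _)
    have h4 : (1 : ℝ) ≤ T ^ D := one_le_pow₀ hT
    exact one_le_mul_of_one_le_of_one_le h1 (one_le_mul_of_one_le_of_one_le
      (one_le_mul_of_one_le_of_one_le h2 h3) h4)
  obtain ⟨N₀, hN₀1, hN₀⟩ := heng c (3 * S) hc (by positivity)
  refine ⟨N₀, hN₀1, fun N hN t ht f f' hind hf0 hf0' hfD hfD' hfE hfE' hfM hfM' => ?_⟩
  have hNpos : 1 ≤ N := hN₀1.trans hN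
  have hN1 : (1 : ℝ) ≤ N := by exact_mod_cast hNpos
  have hM : 1 ≤ (N : ℝ) ^ κ := Real.one_le_rpow hN1 hκ.le
  obtain ⟨M, hME⟩ : ∃ M : ℝ, M = (N : ℝ) ^ κ := ⟨_, rfl⟩
  rw [← hME] at hfM hfM' hM
  apply hN₀ N hN
  intro Q ε hQ hε hε1 q q' hq hq' hqQ hqQ' p p' h3 h3'
  rw [← hME]
  have hv := sum_bound z t T S M D E ht hT f hfD hfE hM hfM hS
  have hv' := sum_bound z t T S M D E ht hT f' hfD' hfE' hM hfM' hS
  have a3 := comb2_coeff z t Q M S f hM hS1 hfM hv q hq p hqQ (h3.trans hε1)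
  have b3 := comb2_coeff z t Q M S f' hM hS1 hfM' hv' q' hq' p' hqQ' (h3'.trans hε1)
  have hMZ : 1 ≤ Q * M * (3 * S) := by
    have h5 : 1 ≤ Q * M := by nlinarith
    nlinarith
  have hcE : ∀ (q : ℕ) (p : ℤ) (f : ℤ[X][X]), (∀ j, (f.coeff j).natDegree ≤ E) → ∀ j,
      ((comb2 q p f).coeff j).natDegree ≤ E := by
    intro q p f hf j
    have e1 : (comb2 q p f).coeff j = C (q : ℤ) * f.coeff j - if j = 0 then C p else 0 := by
      unfold comb2
      rw [coeff_sub, coeff_C_mul, coeff_C]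
    rw [e1]
    refine (natDegree_sub_le _ _).trans (max_le ((natDegree_C_mul_le _ _).trans (hf j)) ?_)
    split_ifs
    · rw [natDegree_C]; omega
    · rw [natDegree_zero]; omega
  have h4 := hcore (t : ℂ) (by rw [Complex.norm_real, Real.norm_eq_abs]; exact ht) (comb2 q p f) (comb2 q' p' f')
    (by rw [comb2_natDegree q hq p f hf0]; exact hfD) (by rw [comb2_natDegree q' hq' p' f' hf0']; exact hfD')
    (hcE q p f hfE) (hcE q' p' f' hfE') (by rw [comb2_natDegree q hq p f hf0]; omega)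
    (comb2_res f f' hind hf0 q q' hq hq' p p') _ hMZ a3 b3
  rw [← abs_val2, ← abs_val2, comb2_val, comb2_val] at h4
  exact h4.trans (max_le h3 h3')

end Pool.Agent.Q29.Eqd
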