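import Mathlib

set_option autoImplicit false

/-! # Linear forms in some members of a doubly indexed family -/

namespace Pool.Agent.Q29.Eqd

open Finset

theorem forms {J U : Type} [Fintype J] [DecidableEq J] [DecidableEq U] {s : ℕ} (p₀ : J × U) (p : Fin s → J × U)
    (hp : Function.Injective p) (hp₀ : ∀ k, p k ≠ p₀) (V : Finset U) (hV₀ : p₀.2 ∈ V) (hV : ∀ k, (p k).2 ∈ V)
    (w : Fin s → ℤ) (a : ℤ) (hw : w ≠ 0) (C : ℝ) (hwC : ∀ k, |(w k : ℝ)| ≤ C) (haC : |(a : ℝ)| ≤ C)
    (g : J → U → ℝ) (hg : g p₀.1 p₀.2 = 1) :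
    ∃ co : U → J → ℤ, (∀ u j, |(co u j : ℝ)| ≤ C) ∧ (∃ k, co (p k).2 (p k).1 ≠ 0) ∧
      ∑ u ∈ V, ∑ j, (co u j : ℝ) * g j u = ∑ k, (w k : ℝ) * g (p k).1 (p k).2 - a := by
  have hC : 0 ≤ C := (abs_nonneg _).trans haC
  refine ⟨fun u j => (if p₀ = (j, u) then -a else 0) + ∑ k, if p k = (j, u) then w k else 0, fun u j => ?_, ?_, ?_⟩
  · show |(((if p₀ = (j, u) then -a else 0) + ∑ k, if p k = (j, u) then w k else 0 : ℤ) : ℝ)| ≤ C
    by_cases h0 : p₀ = (j, u)
    · rw [if_pos h0, Finset.sum_eq_zero fun k _ => if_neg (fun h => hp₀ k (h.trans h0.symm)), add_zero]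
      push_cast
      rwa [abs_neg]
    · rw [if_neg h0, zero_add]
      by_cases h2 : ∃ k, p k = (j, u)
      · obtain ⟨k, hk⟩ := h2
        rw [Finset.sum_eq_single k, if_pos hk]
        · exact hwC k
        · intro k' _ hne
          rw [if_neg]
          intro h3
          exact hne (hp (h3.trans hk.symm))
        · intro h3
          exact absurd (mem_univ k) h3
      · push Not at h2
        rw [Finset.sum_eq_zero fun k _ => if_neg (h2 k)]
        simpa using hC
  · obtain ⟨k, hk⟩ : ∃ k, w k ≠ 0 := by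
      by_contra hcon
      push Not at hcon
      exact hw (funext hcon)
    refine ⟨k, ?_⟩
    have h0 : p₀ ≠ ((p k).1, (p k).2) := fun h => hp₀ k h.symm
    simp only [if_neg h0, zero_add]
    rw [Finset.sum_eq_single k]
    · simpa using hk
    · intro k' _ hne
      rw [if_neg]
      intro h3
      exact hne (hp h3)
    · intro h3
      exact absurd (mem_univ k) h3
  · have h1 : ∀ q : J × U, q.2 ∈ V → ∀ x : ℝ, ∑ u ∈ V, ∑ j, (if q = (j, u) then x else 0) * g j u = x * g q.1 q.2 := by
      intro q hq x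
      rw [Finset.sum_eq_single q.2, Finset.sum_eq_single q.1]
      · rw [if_pos rfl]
      · intro j _ hne
        rw [if_neg, zero_mul]
        intro h
        exact hne (by rw [h])
      · intro h
        exact absurd (mem_univ _) h
      · intro u _ hne
        refine Finset.sum_eq_zero fun j _ => ?_
        rw [if_neg, zero_mul]
        intro h
        exact hne (by rw [h])
      · intro h
        exact absurd hq h
    have h2 : ∀ u j, (((if p₀ = (j, u) then -a else 0) + ∑ k, if p k = (j, u) then w k else 0 : ℤ) : ℝ) * g j u =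
        (if p₀ = (j, u) then (-a : ℝ) else 0) * g j u + ∑ k, (if p k = (j, u) then (w k : ℝ) else 0) * g j u := by
      intro u j
      push_cast
      rw [add_mul, Finset.sum_mul]
    simp only [h2, Finset.sum_add_distrib]
    rw [h1 p₀ hV₀, hg, Finset.sum_congr rfl fun u _ => Finset.sum_comm, Finset.sum_comm,
      Finset.sum_congr rfl fun k _ => h1 (p k) (hV k) (w k)]
    ring

end Pool.Agent.Q29.Eqd
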