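import Pool.Agent.Q29.EqPoly
import Pool.Agent.TH659.AQ.StrRank

set_option autoImplicit false

/-! # Uniform distribution of the multiples of determinants of linear forms -/

namespace Pool.Agent.Q29.Eqd

open Finset Pool.Agent.TH659.AQ

theorem coeff_det_zero {σ : Type} [Fintype σ] [DecidableEq σ] {m : ℕ} (hm : 1 ≤ m) (c : Fin m → Fin m → σ → ℤ) :
    (linMat c).det.coeff 0 = 0 := by
  classical
  rw [det_linMat]
  simp only [MvPolynomial.coeff_sum, MvPolynomial.coeff_monomial]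
  refine Finset.sum_eq_zero fun p _ => Finset.sum_eq_zero fun f _ => ?_
  rw [if_neg]
  intro h0
  have h1 : expo f (f ⟨0, hm⟩) = 0 := by rw [h0]; rfl
  unfold expo at h1
  rw [Finsupp.finsetSum_apply] at h1
  have h2 := (Finset.sum_eq_zero_iff.1 h1) ⟨0, hm⟩ (mem_univ _)
  simp at h2

theorem det_good {σ : Type} [Fintype σ] [DecidableEq σ] {m : ℕ} (hm : 1 ≤ m) (K : ℕ) (E X B : ℝ) (hX1 : 1 ≤ X)
    (hB : 0 ≤ B) :
    ∃ κ : ℝ, 0 < κ ∧ ∃ T₀ : ℝ, 1 ≤ T₀ ∧ ∀ T : ℝ, T₀ ≤ T → ∀ y : σ → ℝ, (∀ i, |vl y i| ≤ X) →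
      (∀ P : MvPolynomial (Option σ) ℤ, P ≠ 0 → (∀ x, P.degreeOf x ≤ m) →
        (∀ c, |((P.coeff c : ℤ) : ℝ)| ≤ T) → T ^ (-B) < |MvPolynomial.aeval (vl y) P|) →
      ∀ M : ℕ, T ^ (2 * B + 1) ≤ (M : ℝ) → (M : ℝ) ≤ T ^ E → ∀ c : Fin m → Fin m → Option σ → ℤ,
        (∀ i j x, |(c i j x : ℝ)| ≤ (M : ℝ) ^ κ) →
        ((cMat c y).det.re = 0 ∨ Good κ K M (cMat c y).det.re) ∧
        ((cMat c y).det.im = 0 ∨ Good κ K M (cMat c y).det.im) ∧
        ((cMat c y).det = 0 →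
          ∃ w v : Fin m → ℚ, w ≠ 0 ∧ v ≠ 0 ∧ ∀ x, ∑ i, ∑ j, w i * (c i j x : ℚ) * v j = 0) := by
  obtain ⟨κ', hκ', hκ'E, T₁, hT₁, hgood⟩ := poly_good (ι := Option σ) m K E X B hX1 hB
  obtain ⟨κ, hκE⟩ : ∃ κ : ℝ, κ = κ' / m := ⟨_, rfl⟩
  have hmR : (1 : ℝ) ≤ m := by exact_mod_cast hm
  have hκ : 0 < κ := by rw [hκE]; positivity
  have hκκ' : κ ≤ κ' := by rw [hκE]; exact div_le_self hκ'.le hmR
  have hκm : κ * m = κ' := by
    rw [hκE]
    field_simp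
  obtain ⟨L, hL⟩ : ∃ L : ℝ, L = (m.factorial : ℝ) * (Fintype.card (Option σ) : ℝ) ^ m := ⟨_, rfl⟩
  have hL0 : 0 ≤ L := by rw [hL]; positivity
  have hlim : Filter.Tendsto (fun T : ℝ => T ^ κ') Filter.atTop Filter.atTop := tendsto_rpow_atTop hκ'
  obtain ⟨T₂, hT₂⟩ := Filter.eventually_atTop.1 (hlim.eventually_ge_atTop L)
  refine ⟨κ, hκ, max T₁ T₂, hT₁.trans (le_max_left _ _), fun T hT y hy hP M hTM hMT c hc => ?_⟩
  have hTT₁ : T₁ ≤ T := (le_max_left _ _).trans hT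
  have hTT₂ : T₂ ≤ T := (le_max_right _ _).trans hT
  have hT1 : 1 ≤ T := hT₁.trans hTT₁
  have hT0 : 0 < T := by linarith
  have hTM' : T ≤ M := by
    calc T = T ^ (1 : ℝ) := (Real.rpow_one _).symm
      _ ≤ T ^ (2 * B + 1) := Real.rpow_le_rpow_of_exponent_le hT1 (by linarith)
      _ ≤ M := hTM
  have hM1 : (1 : ℝ) ≤ M := hT1.trans hTM'
  have hM0 : (0 : ℝ) < M := by linarith
  have hMpos : 1 ≤ M := by exact_mod_cast hM1
  have hE'1 : (1 : ℝ) ≤ max E 1 := le_max_right _ _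
  have h4 : (M : ℝ) ^ (4 * κ') ≤ T := by
    calc (M : ℝ) ^ (4 * κ') ≤ (T ^ E) ^ (4 * κ') := Real.rpow_le_rpow hM0.le hMT (by positivity)
      _ = T ^ (E * (4 * κ')) := by rw [← Real.rpow_mul hT0.le]
      _ ≤ T ^ (1 : ℝ) := by
          apply Real.rpow_le_rpow_of_exponent_le hT1
          calc E * (4 * κ') ≤ max E 1 * (4 * κ') := mul_le_mul_of_nonneg_right (le_max_left _ _) (by positivity)
            _ ≤ 1 := by nlinarith
      _ = T := Real.rpow_one _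
  obtain ⟨P, hPE⟩ : ∃ P : MvPolynomial (Option σ) ℤ, P = (linMat c).det := ⟨_, rfl⟩
  have hP0 : P.coeff 0 = 0 := by
    classical
    rw [hPE]
    exact coeff_det_zero hm c
  have hcoef : ∀ u, |((P.coeff u : ℤ) : ℝ)| ≤ (M : ℝ) ^ (4 * κ') := by
    classical
    intro u
    rw [hPE]
    refine (coeff_det c u ((M : ℝ) ^ κ) hc).trans ?_
    rw [← hL, ← Real.rpow_natCast ((M : ℝ) ^ κ) m, ← Real.rpow_mul hM0.le, hκm]
    have h1 : L ≤ (M : ℝ) ^ κ' := (hT₂ T hTT₂).trans (Real.rpow_le_rpow hT0.le hTM' hκ'.le)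
    calc L * (M : ℝ) ^ κ' ≤ (M : ℝ) ^ κ' * (M : ℝ) ^ κ' := mul_le_mul_of_nonneg_right h1 (by positivity)
      _ = (M : ℝ) ^ (2 * κ') := by rw [← Real.rpow_add hM0]; congr 1; ring
      _ ≤ (M : ℝ) ^ (4 * κ') := Real.rpow_le_rpow_of_exponent_le hM1 (by linarith)
  have hdeg : ∀ x, P.degreeOf x ≤ m := by
    classical
    intro x
    rw [hPE]
    exact degree_det c x
  have hval : MvPolynomial.aeval (vc y) P = (cMat c y).det := by
    rw [hPE]
    exact eval_det c (vc y)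
  have htwc : ∀ ρ : ℕ → ℤ, (∀ k, |ρ k| ≤ 1) → ∀ u, |(((tw ρ P).coeff u : ℤ) : ℝ)| ≤ (M : ℝ) ^ (4 * κ') := by
    intro ρ hρ u
    rw [coeff_tw]
    push_cast
    rw [abs_mul]
    have h1 : |((ρ (u none) : ℤ) : ℝ)| ≤ 1 := by exact_mod_cast hρ (u none)
    calc |((P.coeff u : ℤ) : ℝ)| * |((ρ (u none) : ℤ) : ℝ)| ≤ |((P.coeff u : ℤ) : ℝ)| * 1 := by gcongr
      _ ≤ _ := by rw [mul_one]; exact hcoef u
  have htwd : ∀ ρ : ℕ → ℤ, ∀ x, (tw ρ P).degreeOf x ≤ m := fun ρ x => degree_tw ρ P x m (hdeg x)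
  have hdich : ∀ ρ : ℕ → ℤ, (∀ k, |ρ k| ≤ 1) →
      MvPolynomial.aeval (vl y) (tw ρ P) = 0 ∨ Good κ K M (MvPolynomial.aeval (vl y) (tw ρ P)) := by
    intro ρ hρ
    by_cases h0 : tw ρ P = 0
    · left
      rw [h0, map_zero]
    · right
      refine (hgood T hTT₁ (vl y) hy hP M hTM hMT (tw ρ P) (fun z hz => h0 ?_) (htwd ρ) (htwc ρ hρ)).mono hMpos hκκ' le_rfl
      have h1 : (tw ρ P).coeff 0 = 0 := by rw [coeff_tw, hP0, zero_mul]
      rw [hz, MvPolynomial.coeff_C, if_pos rfl] at h1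
      rw [hz, h1, map_zero]
  obtain ⟨h1, h2⟩ := re_im P y
  rw [hval] at h1 h2
  refine ⟨?_, ?_, fun hdet => ?_⟩
  · rw [h1]
    exact hdich rp rp_le
  · rw [h2]
    exact hdich ip ip_le
  · by_contra hcon
    have hPne : P ≠ 0 := fun h0 => hcon (zero_det c (hPE ▸ h0))
    have hne : tw rp P ≠ 0 ∨ tw ip P ≠ 0 := by
      obtain ⟨u, hu⟩ := MvPolynomial.ne_zero_iff.1 hPne
      rcases rp_or_ip (u none) with hr | hi
      · left
        intro h0
        have := coeff_tw rp P u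
        rw [h0, MvPolynomial.coeff_zero] at this
        exact (mul_ne_zero hu hr) this.symm
      · right
        intro h0
        have := coeff_tw ip P u
        rw [h0, MvPolynomial.coeff_zero] at this
        exact (mul_ne_zero hu hi) this.symm
    have hpos : 0 < T ^ (-B) := Real.rpow_pos_of_pos hT0 _
    rcases hne with hn | hn
    · have h3 := hP _ hn (htwd rp) (fun u => (htwc rp rp_le u).trans h4)
      rw [← h1, hdet, Complex.zero_re, abs_zero] at h3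
      linarith
    · have h3 := hP _ hn (htwd ip) (fun u => (htwc ip ip_le u).trans h4)
      rw [← h2, hdet, Complex.zero_im, abs_zero] at h3
      linarith

end Pool.Agent.Q29.Eqd
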