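import Pool.Agent.Q29.EqPair

set_option autoImplicit false

/-! # Uniform distribution of the multiples of linear combinations: linearly independent directions -/

namespace Pool.Agent.Q29.Eqd

open Finset

theorem multi_engine (K : ℕ) (κ₀ A : ℝ) (hκ₀ : 0 ≤ κ₀) (hA : 1 ≤ A) : ∃ κ : ℝ, 0 < κ ∧ ∀ c S : ℝ, 0 < c → 0 < S →
    ∃ N₀ : ℕ, 1 ≤ N₀ ∧ ∀ N : ℕ, N₀ ≤ N → ∀ {ι : Type} (x : ι → ℝ), (∀ Q ε : ℝ, 1 ≤ Q → 0 ≤ ε → ε ≤ 1 → ∀ q : ι → ℕ,
      (∀ k, 1 ≤ q k) → (∀ k, (q k : ℝ) ≤ Q) → ∀ p : ι → ℤ, (∀ k, |(q k : ℝ) * x k - p k| ≤ ε) →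
        c * (Q * (N : ℝ) ^ κ * S) ^ (-κ₀) ≤ ε) →
      ∃ k, GoodRange (x k) K A κ N := by
  obtain ⟨δ, hδE⟩ : ∃ δ : ℝ, δ = 1 / (4 * (A + 1) * (κ₀ + 1)) := ⟨_, rfl⟩
  have hδ : 0 < δ := by rw [hδE]; positivity
  have hδ8 : δ ≤ 1 / 8 := by
    rw [hδE]
    apply one_div_le_one_div_of_le (by norm_num)
    nlinarith
  have hδA : (A * δ + δ) * κ₀ ≤ 1 / 4 := by
    have e1 : (A * δ + δ) * (κ₀ + 1) = 1 / 4 := by
      rw [hδE]
      field_simp
    nlinarith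
  obtain ⟨κ₁, hκ₁, hκ₁1, M₀, hM₀, hgood⟩ := engine K δ hδ (by linarith)
  refine ⟨min κ₁ δ, lt_min hκ₁ hδ, fun c S hc hS0 => ?_⟩
  obtain ⟨M₁, hM₁, hbig⟩ := ev_rpow (1 / 2) (2 * (S ^ κ₀ / c)) (by norm_num)
  refine ⟨max M₀ M₁, hM₁.trans (le_max_right _ _), fun N hN ι x h => ?_⟩
  have hNpos : 1 ≤ N := hM₁.trans ((le_max_right _ _).trans hN)
  have hN1 : (1 : ℝ) ≤ N := by exact_mod_cast hNpos
  have hN0 : (0 : ℝ) < N := by linarith
  have hbigN := hbig N ((le_max_right _ _).trans hN)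
  by_contra hcon
  push Not at hcon
  have key : ∀ k, ∃ q : ℕ, 1 ≤ q ∧ (q : ℝ) ≤ (N : ℝ) ^ (A * δ) ∧
      ∃ a : ℤ, |(q : ℝ) * x k - a| ≤ (N : ℝ) ^ (δ - 1) := by
    intro k
    have hx := hcon k
    unfold GoodRange at hx
    push Not at hx
    obtain ⟨M, hNM, hMA, hbad⟩ := hx
    have hMpos : 1 ≤ M := hNpos.trans hNM
    have hres : Res δ M (x k) := by
      by_contra hcon
      exact hbad ((hgood M (((le_max_left _ _).trans hN).trans hNM) _ hcon).mono hMpos (min_le_left _ _) le_rfl)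
    obtain ⟨q, hq, hqM, a, ha⟩ := hres
    refine ⟨q, hq, ?_, a, ?_⟩
    · refine hqM.trans ?_
      rw [Real.rpow_mul hN0.le]
      exact Real.rpow_le_rpow (by positivity) hMA hδ.le
    · refine ha.trans ?_
      apply Real.rpow_le_rpow_of_nonpos hN0 (by exact_mod_cast hNM) (by linarith)
  choose q hq hqN a ha using key
  have h2 := h ((N : ℝ) ^ (A * δ)) ((N : ℝ) ^ (δ - 1)) (Real.one_le_rpow hN1 (by positivity)) (by positivity)
    (Real.rpow_le_one_of_one_le_of_nonpos hN1 (by linarith)) q hq hqN a ha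
  have h2' : c * ((N : ℝ) ^ (A * δ + δ) * S) ^ (-κ₀) ≤ (N : ℝ) ^ (δ - 1) := by
    refine le_trans (mul_le_mul_of_nonneg_left ?_ hc.le) h2
    apply Real.rpow_le_rpow_of_nonpos (by positivity) _ (by linarith)
    apply mul_le_mul_of_nonneg_right _ hS0.le
    rw [Real.rpow_add hN0]
    apply mul_le_mul_of_nonneg_left _ (by positivity)
    exact Real.rpow_le_rpow_of_exponent_le hN1 (min_le_right _ _)
  rw [Real.mul_rpow (by positivity) hS0.le, ← Real.rpow_mul hN0.le, Real.rpow_neg hS0.le] at h2'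
  have hSκ : 0 < S ^ κ₀ := by positivity
  have h3 : c ≤ S ^ κ₀ * (N : ℝ) ^ ((A * δ + δ) * κ₀ + (δ - 1)) := by
    have e1 : c = (c * ((N : ℝ) ^ ((A * δ + δ) * -κ₀) * (S ^ κ₀)⁻¹)) * ((N : ℝ) ^ ((A * δ + δ) * κ₀) * S ^ κ₀) := by
      have e2 : (N : ℝ) ^ ((A * δ + δ) * -κ₀) * (N : ℝ) ^ ((A * δ + δ) * κ₀) = 1 := by
        rw [← Real.rpow_add hN0, show (A * δ + δ) * -κ₀ + (A * δ + δ) * κ₀ = 0 by ring, Real.rpow_zero]
      calc c = c * ((N : ℝ) ^ ((A * δ + δ) * -κ₀) * (N : ℝ) ^ ((A * δ + δ) * κ₀)) * ((S ^ κ₀)⁻¹ * S ^ κ₀) := by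
            rw [e2, inv_mul_cancel₀ hSκ.ne']
            ring
        _ = _ := by ring
    rw [e1]
    calc (c * ((N : ℝ) ^ ((A * δ + δ) * -κ₀) * (S ^ κ₀)⁻¹)) * ((N : ℝ) ^ ((A * δ + δ) * κ₀) * S ^ κ₀)
        ≤ (N : ℝ) ^ (δ - 1) * ((N : ℝ) ^ ((A * δ + δ) * κ₀) * S ^ κ₀) :=
          mul_le_mul_of_nonneg_right h2' (by positivity)
      _ = _ := by
          rw [Real.rpow_add hN0]
          ring
  have h4 : (N : ℝ) ^ ((A * δ + δ) * κ₀ + (δ - 1)) ≤ (N : ℝ) ^ (-(1 / 2) : ℝ) :=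
    Real.rpow_le_rpow_of_exponent_le hN1 (by linarith)
  have h5 : c * (N : ℝ) ^ (1 / 2 : ℝ) ≤ S ^ κ₀ := by
    have e3 : (N : ℝ) ^ (-(1 / 2) : ℝ) * (N : ℝ) ^ (1 / 2 : ℝ) = 1 := by
      rw [← Real.rpow_add hN0]
      norm_num
    calc c * (N : ℝ) ^ (1 / 2 : ℝ) ≤ (S ^ κ₀ * (N : ℝ) ^ (-(1 / 2) : ℝ)) * (N : ℝ) ^ (1 / 2 : ℝ) := by
          apply mul_le_mul_of_nonneg_right _ (by positivity)
          exact h3.trans (mul_le_mul_of_nonneg_left h4 hSκ.le)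
      _ = S ^ κ₀ := by rw [mul_assoc, e3, mul_one]
  have h6 : 2 * S ^ κ₀ ≤ c * (N : ℝ) ^ (1 / 2 : ℝ) := by
    calc 2 * S ^ κ₀ = c * (2 * (S ^ κ₀ / c)) := by field_simp
      _ ≤ _ := mul_le_mul_of_nonneg_left hbigN hc.le
  linarith

/-- vectors obtained by a multiplication and the addition of a coordinate are linearly independent -/
theorem li_ext {m r n : ℕ} (a : Fin n → Fin m → ℤ) (e : Fin n → Fin r → ℤ)
    (h : LinearIndependent ℤ (fun k => (a k, e k))) (q : Fin n → ℕ) (hq : ∀ k, 1 ≤ q k) (p : Fin n → ℤ) :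
    LinearIndependent ℤ (fun k => ((Fin.cons (p k) fun j => (q k : ℤ) * a k j : Fin (m + 1) → ℤ),
      fun j => (q k : ℤ) * e k j)) := by
  rw [Fintype.linearIndependent_iff] at h ⊢
  intro g hg
  have h1 := h (fun k => g k * q k) (by
    rw [Prod.ext_iff] at hg ⊢
    obtain ⟨hg1, hg2⟩ := hg
    rw [Prod.fst_sum] at hg1
    rw [Prod.snd_sum] at hg2
    rw [Prod.fst_sum, Prod.snd_sum]
    constructor
    · funext j
      have h2 := congrFun hg1 j.succ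
      rw [Finset.sum_apply] at h2 ⊢
      simp only [Prod.smul_fst, Pi.smul_apply, Fin.cons_succ, smul_eq_mul, Prod.fst_zero, Pi.zero_apply] at h2 ⊢
      rw [← h2]
      exact Finset.sum_congr rfl fun k _ => by ring
    · funext j
      have h2 := congrFun hg2 j
      rw [Finset.sum_apply] at h2 ⊢
      simp only [Prod.smul_snd, Pi.smul_apply, smul_eq_mul, Prod.snd_zero, Pi.zero_apply] at h2 ⊢
      rw [← h2]
      exact Finset.sum_congr rfl fun k _ => by ring)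
  intro k
  have h2 := h1 k
  rcases mul_eq_zero.1 h2 with h3 | h3
  · exact h3
  · have := hq k
    have h4 : q k = 0 := by exact_mod_cast h3
    omega

/-- the value of a linear form -/
noncomputable def lval {m r : ℕ} (θ : Fin m → ℝ) (t : Fin r → ℝ) (v : (Fin (m + 1) → ℤ) × (Fin r → ℤ)) : ℝ :=
  v.1 0 + ∑ j, (v.1 j.succ : ℝ) * θ j + ∑ j, (v.2 j : ℝ) * t j

/-- the reduction to linearly independent vectors with one more coordinate -/
theorem dir_bound (E : ℝ) {m r n : ℕ} (θ : Fin m → ℝ) (c : ℝ)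
    (hm : ∀ (t : Fin r → ℝ) (X : ℝ), 1 ≤ X → ∀ v : Fin n → (Fin (m + 1) → ℤ) × (Fin r → ℤ),
      LinearIndependent ℤ v → (∀ k, ‖v k‖ ≤ X) → ∃ k, c * X ^ (-E) ≤ |lval θ t (v k)|)
    (S : ℝ) (hS : S = (∑ j, |θ j|) + r + 2) (M Q ε : ℝ) (hM : 1 ≤ M) (hQ : 1 ≤ Q) (hε1 : ε ≤ 1)
    (t : Fin r → ℝ) (a : Fin n → Fin m → ℤ) (e : Fin n → Fin r → ℤ)
    (hli : LinearIndependent ℤ (fun k => (a k, e k))) (ha : ∀ k j, |(a k j : ℝ)| ≤ M)
    (he : ∀ k j, |(e k j : ℝ)| ≤ M) (q : Fin n → ℕ) (hq : ∀ k, 1 ≤ q k) (hqQ : ∀ k, (q k : ℝ) ≤ Q)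
    (p : Fin n → ℤ)
    (hp : ∀ k, |(q k : ℝ) * (∑ j, (a k j : ℝ) * θ j + ∑ j, (e k j : ℝ) * t j) - p k| ≤ ε) :
    c * (Q * M * S) ^ (-E) ≤ ε := by
  have hθ0 : 0 ≤ ∑ j, |θ j| := Finset.sum_nonneg fun j _ => abs_nonneg _
  have hS2 : 2 ≤ S := by
    rw [hS]
    have : (0 : ℝ) ≤ r := Nat.cast_nonneg _
    linarith
  have hM0 : 0 < M := by linarith
  obtain ⟨x, hx⟩ : ∃ x : Fin n → ℝ, x = fun k => ∑ j, (a k j : ℝ) * θ j + ∑ j, (e k j : ℝ) * t j := ⟨_, rfl⟩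
  have hxk : ∀ k, ∑ j, (a k j : ℝ) * θ j + ∑ j, (e k j : ℝ) * t j = x k := fun k => by rw [hx]
  simp only [hxk] at hp
  -- reduction modulo one
  obtain ⟨f, hf⟩ : ∃ f : Fin r → ℤ, f = fun j => ⌊t j⌋ := ⟨_, rfl⟩
  obtain ⟨t', ht'⟩ : ∃ t' : Fin r → ℝ, t' = fun j => t j - f j := ⟨_, rfl⟩
  have ht'1 : ∀ j, |t' j| ≤ 1 := by
    intro j
    rw [ht', hf]
    have h3 := Int.floor_le (t j)
    have h4 := Int.lt_floor_add_one (t j)
    rw [abs_le]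
    constructor
    · change -1 ≤ t j - (⌊t j⌋ : ℝ)
      linarith
    · change t j - (⌊t j⌋ : ℝ) ≤ 1
      linarith
  obtain ⟨x', hx'⟩ : ∃ x' : Fin n → ℝ, x' = fun k => ∑ j, (a k j : ℝ) * θ j + ∑ j, (e k j : ℝ) * t' j := ⟨_, rfl⟩
  obtain ⟨ν, hν⟩ : ∃ ν : Fin n → ℤ, ν = fun k => ∑ j, e k j * f j := ⟨_, rfl⟩
  have hxx : ∀ k, x k = x' k + ν k := by
    intro k
    rw [hx, hx', hν]
    simp only
    push_cast
    rw [add_assoc, ← Finset.sum_add_distrib]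
    congr 1
    refine Finset.sum_congr rfl fun j _ => ?_
    rw [ht']
    ring
  have hx'le : ∀ k, |x' k| ≤ M * (S - 2) := by
    intro k
    rw [hx']
    refine (abs_add_le _ _).trans ?_
    have h3 : |∑ j, (a k j : ℝ) * θ j| ≤ M * ∑ j, |θ j| := by
      refine (Finset.abs_sum_le_sum_abs _ _).trans ?_
      rw [Finset.mul_sum]
      refine Finset.sum_le_sum fun j _ => ?_
      rw [abs_mul]
      exact mul_le_mul_of_nonneg_right (ha k j) (abs_nonneg _)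
    have h4 : |∑ j, (e k j : ℝ) * t' j| ≤ M * r := by
      refine (Finset.abs_sum_le_sum_abs _ _).trans ?_
      calc ∑ j, |(e k j : ℝ) * t' j| ≤ ∑ _j : Fin r, M := by
            refine Finset.sum_le_sum fun j _ => ?_
            rw [abs_mul]
            calc |(e k j : ℝ)| * |t' j| ≤ M * 1 := mul_le_mul (he k j) (ht'1 j) (abs_nonneg _) hM0.le
              _ = M := mul_one _
        _ = M * r := by
            rw [Finset.sum_const, Finset.card_univ, Fintype.card_fin, nsmul_eq_mul]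
            ring
    rw [hS]
    nlinarith
  obtain ⟨P, hP⟩ : ∃ P : Fin n → ℤ, P = fun k => -(p k - q k * ν k) := ⟨_, rfl⟩
  have hval : ∀ k, (P k : ℝ) + q k * x' k = q k * x k - p k := by
    intro k
    rw [hP, hxx k]
    push_cast
    ring
  obtain ⟨H, hH⟩ : ∃ H : ℝ, H = Q * M * S := ⟨_, rfl⟩
  have hQM : 1 ≤ Q * M := one_le_mul_of_one_le_of_one_le hQ hM
  have hH1 : 1 ≤ H := by
    rw [hH]
    exact one_le_mul_of_one_le_of_one_le hQM (by linarith)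
  have hcoe : ∀ k (z : ℤ), |(z : ℝ)| ≤ M → |((q k * z : ℤ) : ℝ)| ≤ H := by
    intro k z hz
    rw [hH]
    push_cast
    rw [abs_mul, Nat.abs_cast]
    calc (q k : ℝ) * |(z : ℝ)| ≤ Q * M := mul_le_mul (hqQ k) hz (abs_nonneg _) (by linarith)
      _ ≤ Q * M * S := le_mul_of_one_le_right (by linarith) (by linarith)
  have hPle : ∀ k, |(P k : ℝ)| ≤ H := by
    intro k
    have e1 : (P k : ℝ) = (q k * x k - p k) - q k * x' k := by rw [← hval k]; ring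
    rw [e1, hH]
    refine (abs_sub _ _).trans ?_
    rw [abs_mul, Nat.abs_cast]
    have h3 : (q k : ℝ) * |x' k| ≤ Q * (M * (S - 2)) :=
      mul_le_mul (hqQ k) (hx'le k) (abs_nonneg _) (by linarith)
    have h4 := (hp k).trans hε1
    nlinarith
  obtain ⟨k, hk⟩ := hm t' H hH1 (fun k => ((Fin.cons (P k) fun j => (q k : ℤ) * a k j : Fin (m + 1) → ℤ),
    fun j => (q k : ℤ) * e k j)) (li_ext a e hli q hq P) (fun k => by
      rw [Prod.norm_def, max_le_iff]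
      constructor
      · refine (pi_norm_le_iff_of_nonneg (by linarith)).2 fun j => ?_
        rw [Int.norm_eq_abs]
        refine Fin.cases ?_ (fun i => ?_) j
        · dsimp only
          rw [Fin.cons_zero]
          exact hPle k
        · dsimp only
          rw [Fin.cons_succ]
          exact hcoe k _ (ha k i)
      · refine (pi_norm_le_iff_of_nonneg (by linarith)).2 fun j => ?_
        rw [Int.norm_eq_abs]
        exact hcoe k _ (he k j))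
  have e1 : lval θ t' ((Fin.cons (P k) fun j => (q k : ℤ) * a k j : Fin (m + 1) → ℤ), fun j => (q k : ℤ) * e k j) =
      q k * x k - p k := by
    unfold lval
    rw [← hval k, hx']
    simp only [Fin.cons_zero, Fin.cons_succ]
    push_cast
    rw [mul_add, Finset.mul_sum, Finset.mul_sum, add_assoc]
    congr 1
    congr 1
    · exact Finset.sum_congr rfl fun j _ => by ring
    · exact Finset.sum_congr rfl fun j _ => by ring
  rw [e1, hH] at hk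
  exact hk.trans (hp k)


theorem dir_good (E A : ℝ) (hE : 0 ≤ E) (hA : 1 ≤ A) (K : ℕ) : ∃ κ : ℝ, 0 < κ ∧
    ∀ {m r n : ℕ} (θ : Fin m → ℝ) (c : ℝ), 0 < c →
    (∀ (t : Fin r → ℝ) (X : ℝ), 1 ≤ X → ∀ v : Fin n → (Fin (m + 1) → ℤ) × (Fin r → ℤ),
      LinearIndependent ℤ v → (∀ k, ‖v k‖ ≤ X) → ∃ k, c * X ^ (-E) ≤ |lval θ t (v k)|) →
    ∃ N₀ : ℕ, ∀ N : ℕ, N₀ ≤ N → ∀ (t : Fin r → ℝ) (a : Fin n → Fin m → ℤ) (e : Fin n → Fin r → ℤ),
      LinearIndependent ℤ (fun k => (a k, e k)) → (∀ k j, |(a k j : ℝ)| ≤ (N : ℝ) ^ κ) →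
      (∀ k j, |(e k j : ℝ)| ≤ (N : ℝ) ^ κ) →
      ∃ k, GoodRange (∑ j, (a k j : ℝ) * θ j + ∑ j, (e k j : ℝ) * t j) K A κ N := by
  obtain ⟨κ, hκ, heng⟩ := multi_engine K E A hE hA
  refine ⟨κ, hκ, fun {m r n} θ c hc hm => ?_⟩
  obtain ⟨S, hS⟩ : ∃ S : ℝ, S = (∑ j, |θ j|) + r + 2 := ⟨_, rfl⟩
  have hθ0 : 0 ≤ ∑ j, |θ j| := Finset.sum_nonneg fun j _ => abs_nonneg _
  have hS2 : 2 ≤ S := by
    rw [hS]
    have : (0 : ℝ) ≤ r := Nat.cast_nonneg _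
    linarith
  obtain ⟨N₀, hN₀1, hN₀⟩ := heng c S hc (by linarith)
  refine ⟨N₀, fun N hN t a e hli ha he => ?_⟩
  have hNpos : 1 ≤ N := hN₀1.trans hN
  have hN1 : (1 : ℝ) ≤ N := by exact_mod_cast hNpos
  apply hN₀ N hN (fun k => ∑ j, (a k j : ℝ) * θ j + ∑ j, (e k j : ℝ) * t j)
  intro Q ε hQ hε hε1 q hq hqQ p hp
  exact dir_bound E θ c hm S hS _ Q ε (Real.one_le_rpow hN1 hκ.le) hQ hε1 t a e hli ha he q hq hqQ p hp

end Pool.Agent.Q29.Eqd
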