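import Pool.Agent.Y961.JR.Disc

set_option autoImplicit false

/-! # Discrepancy of a finite family of reals from its exponential sums -/

namespace Pool.Agent.Q29.Eqd

open Finset
open Pool.Agent.H469R2.NK (e norm_e e_add)

/-- The fractional parts of the numbers `y n`, `n ∈ s`, are equidistributed with error `E`: every
interval `[u, v) ⊆ [0, 1)` contains `(v - u) * |s|` of them, up to `E`. -/
def Equi (s : Finset ℕ) (y : ℕ → ℝ) (E : ℝ) : Prop :=
  ∀ u v : ℝ, 0 ≤ u → u ≤ v → v ≤ 1 →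
    |((s.filter fun n => u ≤ Int.fract (y n) ∧ Int.fract (y n) < v).card : ℝ) - (v - u) * s.card| ≤ E

theorem Equi.mono {s : Finset ℕ} {y : ℕ → ℝ} {E E' : ℝ} (h : Equi s y E) (hE : E ≤ E') : Equi s y E' :=
  fun u v h0 h1 h2 => (h u v h0 h1 h2).trans hE

theorem disc1 (s : Finset ℕ) (y : ℕ → ℝ) (K : ℕ) (hK : 1 ≤ K) (E : ℝ) (hE0 : 0 ≤ E)
    (hE : ∀ h : ℤ, h ≠ 0 → h.natAbs < K ^ 3 → ‖∑ i ∈ s, e (h * y i)‖ ≤ E) :
    Equi s y (14 * s.card / K + 2 * (K : ℝ) ^ 3 * E) := by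
  classical
  have hK0 : (0 : ℝ) < K := by exact_mod_cast hK
  have hs0 : (0 : ℝ) ≤ s.card := Nat.cast_nonneg _
  have hlow : ∀ a b : ℝ, 0 ≤ a → a ≤ b → b ≤ 1 →
      (s.card : ℝ) * (b - a) - 7 * s.card / K - (K : ℝ) ^ 3 * E ≤
        ((s.filter fun n => a ≤ Int.fract (y n) ∧ Int.fract (y n) < b).card : ℝ) := by
    intro a b ha hab hb
    by_cases hw : 3 / (K : ℝ) ≤ b - a
    · have h := Pool.Agent.Y961.JR.discJ_low (r := 1) le_rfl s (fun i _ => y i) K hK E hE0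
        (by
          intro h hh hb
          have h1 : h 0 ≠ 0 := by
            intro h0
            apply hh
            funext j
            rw [Subsingleton.elim j 0, h0]
            rfl
          have := hE (h 0) h1 (hb 0)
          simpa using this) (fun _ => a) (fun _ => b) (fun _ => ha) (fun _ => hb) (b - a) (fun _ => rfl) hw
      simp only [pow_one, mul_one] at h
      have e1 : (s.filter fun i => ∀ _j : Fin 1, a ≤ Int.fract (y i) ∧ Int.fract (y i) < b) =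
          s.filter fun n => a ≤ Int.fract (y n) ∧ Int.fract (y n) < b := by
        apply filter_congr
        intro i _
        simp
      rw [e1] at h
      refine le_trans (le_of_eq ?_) h
      field_simp
      ring
    · push Not at hw
      have h1 : (s.card : ℝ) * (b - a) ≤ s.card * (3 / K) := mul_le_mul_of_nonneg_left hw.le hs0
      have h2 : (s.card : ℝ) * (3 / K) ≤ 7 * s.card / K := by
        rw [← mul_div_assoc, mul_comm]
        gcongr
        norm_num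
      have h3 : 0 ≤ (K : ℝ) ^ 3 * E := by positivity
      have h4 : (0 : ℝ) ≤ ((s.filter fun n => a ≤ Int.fract (y n) ∧ Int.fract (y n) < b).card : ℝ) :=
        Nat.cast_nonneg _
      linarith
  intro u v hu huv hv
  have h1 := hlow 0 u le_rfl hu (huv.trans hv)
  have h2 := hlow u v hu huv hv
  have h3 := hlow v 1 (hu.trans huv) hv le_rfl
  have hcard : (s.card : ℝ) = ((s.filter fun n => 0 ≤ Int.fract (y n) ∧ Int.fract (y n) < u).card : ℝ) +
      ((s.filter fun n => u ≤ Int.fract (y n) ∧ Int.fract (y n) < v).card : ℝ) +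
      ((s.filter fun n => v ≤ Int.fract (y n) ∧ Int.fract (y n) < 1).card : ℝ) := by
    have e1 : s = (s.filter fun n => 0 ≤ Int.fract (y n) ∧ Int.fract (y n) < u) ∪
        (s.filter fun n => u ≤ Int.fract (y n) ∧ Int.fract (y n) < v) ∪
        (s.filter fun n => v ≤ Int.fract (y n) ∧ Int.fract (y n) < 1) := by
      ext n
      simp only [mem_union, mem_filter]
      constructor
      · intro h
        have h4 := Int.fract_nonneg (y n)
        have h5 := Int.fract_lt_one (y n)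
        by_cases h6 : Int.fract (y n) < u
        · exact Or.inl (Or.inl ⟨h, h4, h6⟩)
        · by_cases h7 : Int.fract (y n) < v
          · exact Or.inl (Or.inr ⟨h, le_of_not_gt h6, h7⟩)
          · exact Or.inr ⟨h, le_of_not_gt h7, h5⟩
      · rintro ((h | h) | h) <;> exact h.1
    have d1 : Disjoint (s.filter fun n => 0 ≤ Int.fract (y n) ∧ Int.fract (y n) < u)
        (s.filter fun n => u ≤ Int.fract (y n) ∧ Int.fract (y n) < v) := by
      rw [disjoint_left]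
      intro n h4 h5
      rw [mem_filter] at h4 h5
      linarith [h4.2.2, h5.2.1]
    have d2 : Disjoint ((s.filter fun n => 0 ≤ Int.fract (y n) ∧ Int.fract (y n) < u) ∪
        (s.filter fun n => u ≤ Int.fract (y n) ∧ Int.fract (y n) < v))
        (s.filter fun n => v ≤ Int.fract (y n) ∧ Int.fract (y n) < 1) := by
      rw [disjoint_left]
      intro n h4 h5
      rw [mem_union, mem_filter, mem_filter] at h4
      rw [mem_filter] at h5
      rcases h4 with h4 | h4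
      · linarith [h4.2.2, h5.2.1]
      · linarith [h4.2.2, h5.2.1]
    conv_lhs => rw [e1]
    rw [card_union_of_disjoint d2, card_union_of_disjoint d1]
    push_cast
    ring
  have h7 : 0 ≤ 7 * (s.card : ℝ) / K := by positivity
  have h8 : 0 ≤ (K : ℝ) ^ 3 * E := by positivity
  have h9 : 14 * (s.card : ℝ) / K = 2 * (7 * (s.card : ℝ) / K) := by ring
  rw [h9, abs_le]
  constructor
  · linarith
  · linarith

/-- a threshold for powers -/
theorem ev_rpow (a C : ℝ) (ha : 0 < a) : ∃ M₀ : ℕ, 1 ≤ M₀ ∧ ∀ M : ℕ, M₀ ≤ M → C ≤ (M : ℝ) ^ a := by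
  have h1 := (tendsto_rpow_atTop ha).eventually_ge_atTop C
  have h2 := (tendsto_natCast_atTop_atTop (R := ℝ)).eventually h1
  obtain ⟨n, hn⟩ := Filter.eventually_atTop.1 h2
  exact ⟨max n 1, le_max_right _ _, fun M hM => hn M ((le_max_left _ _).trans hM)⟩

theorem disc_pow (κ : ℝ) (hκ : 0 < κ) : ∃ M₀ : ℕ, 1 ≤ M₀ ∧ ∀ M : ℕ, M₀ ≤ M →
    ∀ (s : Finset ℕ) (y : ℕ → ℝ), s.card ≤ M →
    (∀ h : ℤ, h ≠ 0 → |(h : ℝ)| ≤ (M : ℝ) ^ κ → ‖∑ i ∈ s, e (h * y i)‖ ≤ (M : ℝ) ^ (1 - κ)) →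
    Equi s y ((M : ℝ) ^ (1 - κ / 8)) := by
  obtain ⟨M₁, hM₁1, hM₁⟩ := ev_rpow (κ / 4) 8 (by positivity)
  obtain ⟨M₂, hM₂1, hM₂⟩ := ev_rpow (κ / 8) 30 (by positivity)
  refine ⟨max M₁ M₂, hM₁1.trans (le_max_left _ _), fun M hM s y hs hE => ?_⟩
  have h8 := hM₁ M ((le_max_left _ _).trans hM)
  have h30 := hM₂ M ((le_max_right _ _).trans hM)
  have hMpos : 1 ≤ M := (hM₁1.trans (le_max_left _ _)).trans hM
  have hM0 : (0 : ℝ) < M := by exact_mod_cast hMpos
  obtain ⟨X, hX⟩ : ∃ X : ℝ, X = (M : ℝ) ^ (κ / 4) := ⟨_, rfl⟩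
  have hX8 : 8 ≤ X := by rw [hX]; exact h8
  have hX4 : (M : ℝ) ^ κ = X ^ 4 := by
    rw [hX, ← Real.rpow_natCast, ← Real.rpow_mul hM0.le]
    congr 1
    push_cast
    ring
  obtain ⟨K, hK⟩ : ∃ K : ℕ, K = ⌈X⌉₊ := ⟨_, rfl⟩
  have hKX : X ≤ K := by rw [hK]; exact Nat.le_ceil X
  have hKX2 : (K : ℝ) ≤ 2 * X := by
    have := Nat.ceil_lt_add_one (show 0 ≤ X by linarith)
    rw [hK]
    linarith
  have hK0 : (0 : ℝ) < K := by linarith
  have hK1 : 1 ≤ K := by exact_mod_cast (by linarith : (1 : ℝ) ≤ K)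
  have hK3 : (K : ℝ) ^ 3 ≤ 8 * X ^ 3 := by
    calc (K : ℝ) ^ 3 ≤ (2 * X) ^ 3 := by gcongr
      _ = _ := by ring
  have hK34 : (K : ℝ) ^ 3 ≤ X ^ 4 := by
    refine hK3.trans ?_
    have : 0 ≤ X ^ 3 := by positivity
    nlinarith
  have hd := disc1 s y K hK1 ((M : ℝ) ^ (1 - κ)) (by positivity) (by
    intro h hh hb
    apply hE h hh
    rw [hX4]
    refine le_trans ?_ hK34
    have h1 : |(h : ℝ)| = (h.natAbs : ℝ) := by
      rw [← Int.cast_abs, Int.abs_eq_natAbs]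
      simp
    rw [h1]
    exact_mod_cast hb.le)
  refine hd.mono ?_
  have e1 : (M : ℝ) ^ (1 - κ) * X ^ 3 = (M : ℝ) ^ (1 - κ / 4) := by
    rw [hX, ← Real.rpow_natCast, ← Real.rpow_mul hM0.le, ← Real.rpow_add hM0]
    congr 1
    push_cast
    ring
  have e2 : (M : ℝ) / X = (M : ℝ) ^ (1 - κ / 4) := by
    rw [hX, Real.rpow_sub hM0, Real.rpow_one]
  have e3 : (M : ℝ) ^ (1 - κ / 4) * (M : ℝ) ^ (κ / 8) = (M : ℝ) ^ (1 - κ / 8) := by
    rw [← Real.rpow_add hM0]
    congr 1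
    ring
  have h1 : 14 * (s.card : ℝ) / K ≤ 14 * ((M : ℝ) ^ (1 - κ / 4)) := by
    rw [← e2, mul_div_assoc]
    have : (s.card : ℝ) ≤ M := by exact_mod_cast hs
    have hXpos : 0 < X := by linarith
    gcongr
  have h2 : 2 * (K : ℝ) ^ 3 * (M : ℝ) ^ (1 - κ) ≤ 16 * (M : ℝ) ^ (1 - κ / 4) := by
    rw [← e1]
    have hp : 0 < (M : ℝ) ^ (1 - κ) := by positivity
    nlinarith [mul_le_mul_of_nonneg_right hK3 hp.le]
  have h3 : 30 * (M : ℝ) ^ (1 - κ / 4) ≤ (M : ℝ) ^ (1 - κ / 8) := by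
    rw [← e3, mul_comm]
    gcongr
  linarith

end Pool.Agent.Q29.Eqd
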