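import Pool.Agent.Q29.EqPoint

set_option autoImplicit false

/-! # Joint uniform distribution of the multiples of a vector with an exponential measure of linear independence -/

namespace Pool.Agent.Q29.Eqd

open Finset

theorem joint_exp (s : ℕ) (hs : 1 ≤ s) (K : ℕ) (A B X E : ℝ) (hA : 1 < A) (hB : 1 < B) (hX : 1 ≤ X) :
    ∃ κ : ℝ, 0 < κ ∧ ∃ n₁ : ℕ, ∀ n : ℕ, n₁ ≤ n → ∀ x : Fin s → ℝ, (∀ k, |x k| ≤ X ^ n) →
      (∀ (v : Fin s → ℤ) (a : ℤ), v ≠ 0 → (∀ k, |(v k : ℝ)| ≤ A ^ n) → |(a : ℝ)| ≤ (A * X) ^ n →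
        (B ^ n)⁻¹ < |∑ k, (v k : ℝ) * x k - a|) →
      ∀ M : ℕ, (B ^ 2) ^ n ≤ (M : ℝ) → (M : ℝ) ≤ E ^ n → Joint κ K M x := by
  obtain ⟨E', hE'⟩ : ∃ E' : ℝ, E' = max |E| 2 := ⟨_, rfl⟩
  have hE2 : 2 ≤ E' := by rw [hE']; exact le_max_right _ _
  have hEE : |E| ≤ E' := by rw [hE']; exact le_max_left _ _
  have hlE : 0 < Real.log E' := Real.log_pos (by linarith)
  have hlA : 0 < Real.log A := Real.log_pos hA
  obtain ⟨δ, hδE⟩ : ∃ δ : ℝ, δ = min (1 / 2) (Real.log A / (4 * Real.log E')) := ⟨_, rfl⟩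
  have hδ : 0 < δ := by rw [hδE]; positivity
  have hδ2 : δ ≤ 1 / 2 := by rw [hδE]; exact min_le_left _ _
  have hδA : 2 * δ * Real.log E' ≤ Real.log A / 2 := by
    have h1 : δ ≤ Real.log A / (4 * Real.log E') := by rw [hδE]; exact min_le_right _ _
    calc 2 * δ * Real.log E' ≤ 2 * (Real.log A / (4 * Real.log E')) * Real.log E' := by gcongr
      _ = Real.log A / 2 := by
          field_simp
          norm_num
  obtain ⟨κ, hκ, M₀, hM₀, hjoint⟩ := joint_engine s hs K δ hδ (by linarith)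
  obtain ⟨A', hA'⟩ : ∃ A' : ℝ, A' = Real.exp (Real.log A / 2) := ⟨_, rfl⟩
  have hA'1 : 1 < A' := by rw [hA', Real.one_lt_exp_iff]; positivity
  have hA'0 : 0 < A' := by linarith
  have hA'A : A' * A' = A := by
    rw [hA', ← Real.exp_add, add_halves, Real.exp_log (by linarith)]
  have hEA : E' ^ (2 * δ) ≤ A' := by
    rw [Real.rpow_def_of_pos (by linarith), hA', Real.exp_le_exp]
    linarith
  have hB2 : 1 < B ^ 2 := one_lt_pow₀ hB (by norm_num)
  obtain ⟨n₂, hn₂⟩ := (Filter.eventually_atTop.1 ((tendsto_pow_atTop_atTop_of_one_lt hB2).eventually_ge_atTop (M₀ : ℝ)))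
  obtain ⟨n₃, hn₃⟩ := (Filter.eventually_atTop.1 ((tendsto_pow_atTop_atTop_of_one_lt hA'1).eventually_ge_atTop ((s : ℝ) + 1)))
  refine ⟨κ, hκ, n₂ + n₃, fun n hn x hx hmeas M hBM hME => ?_⟩
  have hB0 : 0 < B := by linarith
  have hM1 : (1 : ℝ) ≤ M := (one_le_pow₀ hB2.le).trans hBM
  have hM0 : (0 : ℝ) < M := by linarith
  have hME' : (M : ℝ) ≤ E' ^ n := by
    refine hME.trans ((le_abs_self _).trans ?_)
    rw [abs_pow]
    exact pow_le_pow_left₀ (abs_nonneg _) hEE n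
  have hMδ : (M : ℝ) ^ δ * (M : ℝ) ^ δ ≤ A' ^ n := by
    rw [← Real.rpow_add hM0]
    calc (M : ℝ) ^ (δ + δ) ≤ (E' ^ n) ^ (δ + δ) := Real.rpow_le_rpow hM0.le hME' (by positivity)
      _ = (E' ^ (2 * δ)) ^ n := by
          rw [← Real.rpow_natCast, ← Real.rpow_natCast, ← Real.rpow_mul (by linarith), ← Real.rpow_mul (by linarith)]
          congr 1
          ring
      _ ≤ A' ^ n := pow_le_pow_left₀ (Real.rpow_nonneg (by linarith) _) hEA n
  have hP1 : 1 ≤ (M : ℝ) ^ δ := Real.one_le_rpow hM1 hδ.le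
  have hMle : (M : ℝ) ^ (δ - 1) ≤ (B ^ n)⁻¹ := by
    calc (M : ℝ) ^ (δ - 1) ≤ (M : ℝ) ^ (-(1 / 2) : ℝ) := Real.rpow_le_rpow_of_exponent_le hM1 (by linarith)
      _ ≤ ((B ^ 2) ^ n) ^ (-(1 / 2) : ℝ) := Real.rpow_le_rpow_of_nonpos (by positivity) hBM (by norm_num)
      _ = (B ^ n)⁻¹ := by
          rw [← pow_mul, mul_comm 2 n, pow_mul, Real.rpow_neg (by positivity), ← Real.rpow_natCast _ 2,
            ← Real.rpow_mul (by positivity)]
          norm_num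
  refine hjoint M (by exact_mod_cast (hn₂ n (by omega)).trans hBM) x fun l hl0 _ hlM => ?_
  rintro ⟨q, hq, hqM, a, ha⟩
  have hq1 : (1 : ℝ) ≤ q := by exact_mod_cast hq
  obtain ⟨P, hP⟩ : ∃ P : ℝ, P = (M : ℝ) ^ δ := ⟨_, rfl⟩
  rw [← hP] at hP1 hMδ hqM hlM
  have hXn : 1 ≤ X ^ n := one_le_pow₀ hX
  have hPA : P * P ≤ A ^ n := hMδ.trans (by
    rw [← hA'A, mul_pow]
    have := one_le_pow₀ hA'1.le (n := n)
    nlinarith)
  have e2 : ∑ k, (((q : ℤ) * l k : ℤ) : ℝ) * x k = q * ∑ k, (l k : ℝ) * x k := by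
    rw [Finset.mul_sum]
    refine Finset.sum_congr rfl fun k _ => ?_
    push_cast
    ring
  have hbad := hmeas (fun k => (q : ℤ) * l k) a ?_ ?_ ?_
  · rw [e2] at hbad
    linarith
  · intro h0
    apply hl0
    funext k
    have h1 := congrFun h0 k
    rcases mul_eq_zero.1 h1 with h2 | h2
    · have : q = 0 := by exact_mod_cast h2
      omega
    · exact h2
  · intro k
    push_cast
    rw [abs_mul, Nat.abs_cast]
    calc (q : ℝ) * |(l k : ℝ)| ≤ P * P := mul_le_mul hqM (hlM k) (abs_nonneg _) (by linarith)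
      _ ≤ A ^ n := hPA
  · have h1 : |∑ k, (l k : ℝ) * x k| ≤ P * (s * X ^ n) := by
      calc |∑ k, (l k : ℝ) * x k| ≤ ∑ k, |(l k : ℝ) * x k| := Finset.abs_sum_le_sum_abs _ _
        _ ≤ ∑ _k : Fin s, P * X ^ n := by
            refine Finset.sum_le_sum fun k _ => ?_
            rw [abs_mul]
            exact mul_le_mul (hlM k) (hx k) (abs_nonneg _) (by linarith)
        _ = _ := by
            rw [Finset.sum_const, Finset.card_univ, Fintype.card_fin, nsmul_eq_mul]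
            ring
    have h2 : (M : ℝ) ^ (δ - 1) ≤ 1 := Real.rpow_le_one_of_one_le_of_nonpos hM1 (by linarith)
    have h3 : |(a : ℝ)| ≤ |(q : ℝ) * ∑ k, (l k : ℝ) * x k| + |(q : ℝ) * ∑ k, (l k : ℝ) * x k - a| := by
      have : (a : ℝ) = (q : ℝ) * ∑ k, (l k : ℝ) * x k - ((q : ℝ) * ∑ k, (l k : ℝ) * x k - a) := by ring
      calc |(a : ℝ)| = |(q : ℝ) * ∑ k, (l k : ℝ) * x k - ((q : ℝ) * ∑ k, (l k : ℝ) * x k - a)| := by rw [← this]
        _ ≤ _ := abs_sub _ _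
    rw [abs_mul, Nat.abs_cast] at h3
    have h4 : (q : ℝ) * |∑ k, (l k : ℝ) * x k| ≤ P * (P * (s * X ^ n)) :=
      mul_le_mul hqM h1 (abs_nonneg _) (by linarith)
    have h5 : (s : ℝ) + 1 ≤ A' ^ n := hn₃ n (by omega)
    have hA'n : 1 ≤ A' ^ n := one_le_pow₀ hA'1.le
    rw [mul_pow, ← hA'A, mul_pow]
    have h6 : P * (P * (s * X ^ n)) ≤ A' ^ n * (s * X ^ n) := by
      rw [← mul_assoc]
      exact mul_le_mul_of_nonneg_right hMδ (by positivity)
    have h7 : A' ^ n * (s * X ^ n) + 1 ≤ A' ^ n * A' ^ n * X ^ n := by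
      have h8 : (1 : ℝ) ≤ A' ^ n * X ^ n := by nlinarith
      have h9 : A' ^ n * X ^ n * (s + 1) ≤ A' ^ n * X ^ n * A' ^ n := mul_le_mul_of_nonneg_left h5 (by positivity)
      nlinarith
    linarith

end Pool.Agent.Q29.Eqd
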