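import Pool.Agent.Q29.EqPrime

set_option autoImplicit false

/-! # Joint uniform distribution at a scale -/

namespace Pool.Agent.Q29.Eqd

open Finset Polynomial
open Pool.Agent.H469R2.NK (e norm_e e_add)

/-- a fractional part in `[ρ / q, (ρ + 1) / q)` -/
theorem fract_cell (q : ℕ) (hq : 1 ≤ q) (ρ : ℤ) (h0 : 0 ≤ ρ) (h1 : ρ < q) (y : ℝ) :
    ((ρ : ℝ) / q ≤ Int.fract y ∧ Int.fract y < (ρ + 1) / q) ↔ (q : ℤ) ∣ ⌊(q : ℝ) * y⌋ - ρ := by
  have hq0 : (0 : ℝ) < q := by exact_mod_cast hq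
  have hf0 := Int.fract_nonneg y
  have hf1 := Int.fract_lt_one y
  have e1 : ⌊(q : ℝ) * y⌋ = q * ⌊y⌋ + ⌊(q : ℝ) * Int.fract y⌋ := by
    have : (q : ℝ) * y = ((q * ⌊y⌋ : ℤ) : ℝ) + q * Int.fract y := by
      have h2 := Int.floor_add_fract y
      push_cast
      rw [← mul_add, h2]
    rw [this, Int.floor_intCast_add]
  have hr0 : 0 ≤ ⌊(q : ℝ) * Int.fract y⌋ := Int.floor_nonneg.2 (by positivity)
  have hr1 : ⌊(q : ℝ) * Int.fract y⌋ < q := by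
    rw [Int.floor_lt]
    have : (q : ℝ) * Int.fract y < q * 1 := by gcongr
    simpa using this
  constructor
  · rintro ⟨h2, h3⟩
    rw [div_le_iff₀ hq0] at h2
    rw [lt_div_iff₀ hq0] at h3
    have h4 : ⌊(q : ℝ) * Int.fract y⌋ = ρ := by
      rw [Int.floor_eq_iff]
      constructor <;> linarith
    rw [e1, h4]
    exact ⟨⌊y⌋, by ring⟩
  · intro hdvd
    rw [e1, show (q : ℤ) * ⌊y⌋ + ⌊(q : ℝ) * Int.fract y⌋ - ρ = q * ⌊y⌋ + (⌊(q : ℝ) * Int.fract y⌋ - ρ) by ring,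
      dvd_add_right (dvd_mul_right _ _)] at hdvd
    have h4 : ⌊(q : ℝ) * Int.fract y⌋ = ρ := by
      obtain ⟨k, hk⟩ := hdvd
      have hk0 : k = 0 := by
        by_contra hk0
        rcases lt_or_gt_of_ne hk0 with h | h
        · have : (q : ℤ) * k ≤ q * (-1) := by
            apply mul_le_mul_of_nonneg_left (by omega)
            omega
          omega
        · have : (q : ℤ) * 1 ≤ q * k := by
            apply mul_le_mul_of_nonneg_left (by omega)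
            omega
          omega
      rw [hk0, mul_zero] at hk
      omega
    rw [Int.floor_eq_iff] at h4
    constructor
    · rw [div_le_iff₀ hq0]
      linarith [h4.1]
    · rw [lt_div_iff₀ hq0]
      linarith [h4.2]

/-- The points `y n`, `n ∈ s`, are equidistributed with error `E` in the cubes of side `1 / q`, `q ≤ Q`. -/
def EquiJ {s : ℕ} (S : Finset ℕ) (y : ℕ → Fin s → ℝ) (Q E : ℝ) : Prop :=
  ∀ q : ℕ, 1 ≤ q → (q : ℝ) ≤ Q → ∀ ρ : Fin s → ℤ, (∀ j, 0 ≤ ρ j ∧ ρ j < q) →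
    |((S.filter fun n => ∀ j, (ρ j : ℝ) / q ≤ Int.fract (y n j) ∧ Int.fract (y n j) < (ρ j + 1) / q).card : ℝ) -
      S.card / (q : ℝ) ^ s| ≤ E

theorem disc_powJ (s : ℕ) (hs : 1 ≤ s) (κ : ℝ) (hκ : 0 < κ) : ∃ κ' : ℝ, 0 < κ' ∧ κ' ≤ κ ∧ ∃ M₀ : ℕ, 1 ≤ M₀ ∧ ∀ M : ℕ, M₀ ≤ M →
    ∀ (S : Finset ℕ) (y : ℕ → Fin s → ℝ), S.card ≤ M →
    (∀ h : Fin s → ℤ, h ≠ 0 → (∀ j, |(h j : ℝ)| ≤ (M : ℝ) ^ κ) →
      ‖∑ i ∈ S, e (∑ j, (h j : ℝ) * y i j)‖ ≤ (M : ℝ) ^ (1 - κ)) →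
    EquiJ S y ((M : ℝ) ^ κ') ((M : ℝ) ^ (1 - κ')) := by
  have hsR : (1 : ℝ) ≤ s := by exact_mod_cast hs
  have hs0 : (0 : ℝ) < s := by linarith
  obtain ⟨c, hcE⟩ : ∃ c : ℝ, c = κ / (8 * s) := ⟨_, rfl⟩
  have hc : 0 < c := by rw [hcE]; positivity
  have hcs : c * s = κ / 8 := by rw [hcE]; field_simp
  have hcκ : c ≤ κ / 8 := by nlinarith
  obtain ⟨κ', hκ'E⟩ : ∃ κ' : ℝ, κ' = c / (4 * s) := ⟨_, rfl⟩
  have hκ' : 0 < κ' := by rw [hκ'E]; positivity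
  have hκ's : κ' * s = c / 4 := by rw [hκ'E]; field_simp
  have hκ'c : κ' ≤ c / 4 := by nlinarith
  obtain ⟨M₁, hM₁1, hM₁⟩ := ev_rpow (c / 4) (2 * (3 * s + 4) + 2 ^ (3 * s) + 8) (by positivity)
  refine ⟨κ', hκ', by linarith, M₁, hM₁1, fun M hM S y hS hE q hq hqM ρ hρ => ?_⟩
  have hbig := hM₁ M hM
  have hMpos : 1 ≤ M := hM₁1.trans hM
  have hM1 : (1 : ℝ) ≤ M := by exact_mod_cast hMpos
  have hM0 : (0 : ℝ) < M := by linarith
  have h2p : (0 : ℝ) < 2 ^ (3 * s) := by positivity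
  obtain ⟨X, hX⟩ : ∃ X : ℝ, X = (M : ℝ) ^ c := ⟨_, rfl⟩
  have hX0 : 0 < X := by rw [hX]; positivity
  have hXle : (M : ℝ) ^ (c / 4) ≤ X := by rw [hX]; exact Real.rpow_le_rpow_of_exponent_le hM1 (by linarith)
  have hX8 : 8 ≤ X := by nlinarith
  obtain ⟨K, hK⟩ : ∃ K : ℕ, K = ⌈X⌉₊ := ⟨_, rfl⟩
  have hKX : X ≤ K := by rw [hK]; exact Nat.le_ceil X
  have hKX2 : (K : ℝ) ≤ 2 * X := by
    have := Nat.ceil_lt_add_one (show 0 ≤ X by linarith)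
    rw [hK]
    linarith
  have hK0 : (0 : ℝ) < K := by linarith
  have hK1 : 1 ≤ K := by exact_mod_cast (by linarith : (1 : ℝ) ≤ K)
  have hq0 : (0 : ℝ) < q := by exact_mod_cast hq
  have h3q : 3 * q ≤ K := by
    have h1 : (q : ℝ) ≤ (M : ℝ) ^ (c / 4) := hqM.trans (Real.rpow_le_rpow_of_exponent_le hM1 hκ'c)
    have h2 : (M : ℝ) ^ (c / 4) * (M : ℝ) ^ (c / 4) ≤ X := by
      rw [hX, ← Real.rpow_add hM0]
      exact Real.rpow_le_rpow_of_exponent_le hM1 (by linarith)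
    have h3 : (3 : ℝ) * q ≤ K := by nlinarith
    exact_mod_cast h3
  have hK3 : (K : ℝ) ^ 3 ≤ (M : ℝ) ^ κ := by
    have e1 : X ^ 3 * (M : ℝ) ^ (κ / 2) ≤ (M : ℝ) ^ κ := by
      rw [hX, ← Real.rpow_natCast, ← Real.rpow_mul hM0.le, ← Real.rpow_add hM0]
      apply Real.rpow_le_rpow_of_exponent_le hM1
      push_cast
      linarith
    have e2 : (8 : ℝ) ≤ (M : ℝ) ^ (κ / 2) := by
      have : (M : ℝ) ^ (c / 4) ≤ (M : ℝ) ^ (κ / 2) := Real.rpow_le_rpow_of_exponent_le hM1 (by linarith)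
      nlinarith
    calc (K : ℝ) ^ 3 ≤ (2 * X) ^ 3 := by gcongr
      _ = X ^ 3 * 8 := by ring
      _ ≤ X ^ 3 * (M : ℝ) ^ (κ / 2) := by gcongr
      _ ≤ _ := e1
  have hd := Pool.Agent.Y961.JR.discJ hs S (fun i j => (q : ℝ) * y i j) K q hK1 hq h3q ((M : ℝ) ^ (1 - κ))
    (by positivity) (by
      intro h hh hb
      have h1 := hE h hh (fun j => by
        refine le_trans ?_ hK3
        have h2 : |(h j : ℝ)| = ((h j).natAbs : ℝ) := by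
          rw [← Int.cast_abs, Int.abs_eq_natAbs]
          simp
        rw [h2]
        exact_mod_cast (hb j).le)
      have e1 : ∑ i ∈ S, e (∑ j, (h j : ℝ) * ((q : ℝ) * y i j / q)) = ∑ i ∈ S, e (∑ j, (h j : ℝ) * y i j) := by
        refine sum_congr rfl fun i _ => ?_
        congr 1
        refine sum_congr rfl fun j _ => ?_
        rw [mul_div_cancel_left₀ _ hq0.ne']
      rw [e1]
      exact h1) ρ
  have e0 : (S.filter fun n => ∀ j, (ρ j : ℝ) / q ≤ Int.fract (y n j) ∧ Int.fract (y n j) < (ρ j + 1) / q) =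
      S.filter fun n => ∀ j, (q : ℤ) ∣ ⌊(q : ℝ) * y n j⌋ - ρ j := by
    apply filter_congr
    intro n _
    exact forall_congr' fun j => fract_cell q hq (ρ j) (hρ j).1 (hρ j).2 (y n j)
  rw [e0]
  refine hd.trans ?_
  -- the error
  have hqs : (q : ℝ) ^ s ≤ (M : ℝ) ^ (c / 4) := by
    calc (q : ℝ) ^ s ≤ ((M : ℝ) ^ κ') ^ s := by gcongr
      _ = (M : ℝ) ^ (κ' * s) := by rw [← Real.rpow_natCast, ← Real.rpow_mul hM0.le]
      _ = _ := by rw [hκ's]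
  have hcardM : (S.card : ℝ) ≤ M := by exact_mod_cast hS
  have t1 : (3 * (s : ℝ) + 4) * S.card / K ≤ (3 * s + 4) * (M : ℝ) ^ (1 - c) := by
    rw [mul_div_assoc]
    apply mul_le_mul_of_nonneg_left _ (by positivity)
    rw [div_le_iff₀ hK0]
    calc (S.card : ℝ) ≤ M := hcardM
      _ = (M : ℝ) ^ (1 - c) * X := by rw [hX, ← Real.rpow_add hM0]; simp
      _ ≤ _ := by gcongr
  have t2 : (K : ℝ) ^ (3 * s) * (M : ℝ) ^ (1 - κ) ≤ 2 ^ (3 * s) * (M : ℝ) ^ (1 - c) := by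
    calc (K : ℝ) ^ (3 * s) * (M : ℝ) ^ (1 - κ) ≤ (2 * X) ^ (3 * s) * (M : ℝ) ^ (1 - κ) := by gcongr
      _ = 2 ^ (3 * s) * (X ^ (3 * s) * (M : ℝ) ^ (1 - κ)) := by rw [mul_pow]; ring
      _ ≤ 2 ^ (3 * s) * (M : ℝ) ^ (1 - c) := by
          apply mul_le_mul_of_nonneg_left _ h2p.le
          rw [hX, ← Real.rpow_natCast, ← Real.rpow_mul hM0.le, ← Real.rpow_add hM0]
          apply Real.rpow_le_rpow_of_exponent_le hM1
          push_cast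
          nlinarith
  calc (q : ℝ) ^ s * ((3 * s + 4) * S.card / K + (K : ℝ) ^ (3 * s) * (M : ℝ) ^ (1 - κ))
      ≤ (M : ℝ) ^ (c / 4) * ((3 * s + 4) * (M : ℝ) ^ (1 - c) + 2 ^ (3 * s) * (M : ℝ) ^ (1 - c)) :=
        mul_le_mul hqs (add_le_add t1 t2) (by positivity) (by positivity)
    _ = ((3 * s + 4) + 2 ^ (3 * s)) * ((M : ℝ) ^ (c / 4) * (M : ℝ) ^ (1 - c)) := by ring
    _ ≤ (M : ℝ) ^ (c / 4) * ((M : ℝ) ^ (c / 4) * (M : ℝ) ^ (1 - c)) := by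
        apply mul_le_mul_of_nonneg_right _ (by positivity)
        nlinarith
    _ = (M : ℝ) ^ (1 - c / 2) := by
        rw [← Real.rpow_add hM0, ← Real.rpow_add hM0]
        congr 1
        ring
    _ ≤ _ := Real.rpow_le_rpow_of_exponent_le hM1 (by linarith)

end Pool.Agent.Q29.Eqd
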