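import Pool.Agent.Q29.EqJoint

set_option autoImplicit false

/-! # Joint uniform distribution at a scale: the engine -/

namespace Pool.Agent.Q29.Eqd

open Finset Polynomial
open Pool.Agent.H469R2.NK (e norm_e e_add)

theorem EquiJ.mono {s : ℕ} {S : Finset ℕ} {y : ℕ → Fin s → ℝ} {Q Q' E E' : ℝ} (h : EquiJ S y Q E) (hQ : Q' ≤ Q)
    (hE : E ≤ E') : EquiJ S y Q' E' :=
  fun q hq hqQ ρ hρ => (h q hq (hqQ.trans hQ) ρ hρ).trans hE

/-- joint uniform distribution of the multiples of `x 0, …, x (s-1)` at the scale `M` -/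
def Joint (κ : ℝ) (K M : ℕ) {s : ℕ} (x : Fin s → ℝ) : Prop :=
  (∀ k : ℕ, 1 ≤ k → k ≤ K → ∀ R : Fin s → ℝ[X], (∀ j, (R j).degree < k) →
    EquiJ (range M) (fun n j => x j * (n : ℝ) ^ k + (R j).eval (n : ℝ)) ((M : ℝ) ^ κ) ((M : ℝ) ^ (1 - κ))) ∧
  (∀ d r : ℕ, 1 ≤ d → (d : ℝ) ≤ (M : ℝ) ^ κ → ∀ β : Fin s → ℝ,
    EquiJ ((range (M + 1)).filter fun p => p.Prime ∧ p ≡ r [MOD d]) (fun p j => x j * p + β j) ((M : ℝ) ^ κ)
      ((M : ℝ) ^ (1 - κ)))

theorem joint_engine (s : ℕ) (hs : 1 ≤ s) (K : ℕ) (δ : ℝ) (hδ : 0 < δ) (hδ1 : δ ≤ 1) :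
    ∃ κ : ℝ, 0 < κ ∧ ∃ M₀ : ℕ, 2 ≤ M₀ ∧ ∀ M : ℕ, M₀ ≤ M → ∀ x : Fin s → ℝ,
      (∀ l : Fin s → ℤ, l ≠ 0 → (∀ j, |(l j : ℝ)| ≤ M) → (∀ j, |(l j : ℝ)| ≤ (M : ℝ) ^ δ) →
        ¬ Res δ M (∑ j, (l j : ℝ) * x j)) → Joint κ K M x := by
  have hpoly : ∃ κ : ℝ, 0 < κ ∧ ∃ M₀ : ℕ, 1 ≤ M₀ ∧ ∀ M : ℕ, M₀ ≤ M → ∀ x : Fin s → ℝ,
      (∀ l : Fin s → ℤ, l ≠ 0 → (∀ j, |(l j : ℝ)| ≤ M) → (∀ j, |(l j : ℝ)| ≤ (M : ℝ) ^ δ) →
        ¬ Res δ M (∑ j, (l j : ℝ) * x j)) →
      ∀ k : ℕ, 1 ≤ k → k ≤ K → ∀ R : Fin s → ℝ[X], (∀ j, (R j).degree < k) →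
      EquiJ (range M) (fun n j => x j * (n : ℝ) ^ k + (R j).eval (n : ℝ)) ((M : ℝ) ^ κ) ((M : ℝ) ^ (1 - κ)) := by
    induction K with
    | zero => exact ⟨1, one_pos, 1, le_rfl, fun M hM x hx k hk hk0 => absurd hk (by omega)⟩
    | succ K ih =>
      obtain ⟨κ₁, hκ₁, M₁, hM₁1, h1⟩ := ih
      obtain ⟨κ₂, hκ₂, M₂, hM₂1, h2⟩ := weyl_one (K + 1) (by omega) δ hδ
      obtain ⟨κ₃, hκ₃, hκ₃le, M₃, hM₃1, h3⟩ := disc_powJ s hs (min (min κ₂ δ) 1)
        (lt_min (lt_min hκ₂ hδ) one_pos)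
      refine ⟨min κ₁ κ₃, lt_min hκ₁ hκ₃, max M₁ (max M₂ M₃), hM₁1.trans (le_max_left _ _),
        fun M hM x hx k hk hkK R hR => ?_⟩
      have hMpos : 1 ≤ M := (hM₁1.trans (le_max_left _ _)).trans hM
      have hM1 : (1 : ℝ) ≤ M := by exact_mod_cast hMpos
      rcases Nat.lt_or_ge k (K + 1) with hlt | hge
      · refine (h1 M ((le_max_left _ _).trans hM) x hx k hk (by omega) R hR).mono ?_ ?_
        · exact Real.rpow_le_rpow_of_exponent_le hM1 (min_le_left _ _)
        · exact Real.rpow_le_rpow_of_exponent_le hM1 (by linarith [min_le_left κ₁ κ₃])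
      · obtain rfl : k = K + 1 := by omega
        have h4 := h3 M ((le_max_right _ _).trans ((le_max_right _ _).trans hM)) (range M)
          (fun n j => x j * (n : ℝ) ^ (K + 1) + (R j).eval (n : ℝ)) (by rw [card_range]) (by
            intro h hh hhM
            have hδM : ∀ j, |(h j : ℝ)| ≤ (M : ℝ) ^ δ := fun j => (hhM j).trans
              (Real.rpow_le_rpow_of_exponent_le hM1 ((min_le_left _ _).trans (min_le_right _ _)))
            have h1M : ∀ j, |(h j : ℝ)| ≤ M := fun j => (hhM j).trans (by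
              calc (M : ℝ) ^ (min (min κ₂ δ) 1) ≤ (M : ℝ) ^ (1 : ℝ) :=
                    Real.rpow_le_rpow_of_exponent_le hM1 (min_le_right _ _)
                _ = M := Real.rpow_one _)
            have h5 := h2 M ((le_max_left _ _).trans ((le_max_right _ _).trans hM)) _ (hx h hh h1M hδM) 1
              one_ne_zero (by
                push_cast
                rw [abs_one]
                exact Real.one_le_rpow hM1 hκ₂.le) (∑ j, C (h j : ℝ) * R j) (by
                refine lt_of_le_of_lt (degree_sum_le _ _) ?_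
                rw [Finset.sup_lt_iff (by exact WithBot.bot_lt_coe (K + 1))]
                intro j _
                refine lt_of_le_of_lt ?_ (hR j)
                by_cases h0 : (h j : ℝ) = 0
                · rw [h0, C_0, zero_mul, degree_zero]
                  exact bot_le
                · rw [degree_C_mul h0])
            have e1 : ∑ i ∈ range M, e (∑ j, (h j : ℝ) * (x j * (i : ℝ) ^ (K + 1) + (R j).eval (i : ℝ))) =
                ∑ n ∈ range M, e (((1 : ℤ) : ℝ) * (∑ j, (h j : ℝ) * x j) * (n : ℝ) ^ (K + 1) +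
                  (∑ j, C (h j : ℝ) * R j).eval (n : ℝ)) := by
              refine sum_congr rfl fun n _ => ?_
              congr 1
              rw [eval_finset_sum, Int.cast_one, one_mul, Finset.sum_mul, ← Finset.sum_add_distrib]
              refine sum_congr rfl fun j _ => ?_
              rw [eval_mul, eval_C]
              ring
            rw [e1]
            refine h5.trans (Real.rpow_le_rpow_of_exponent_le hM1 ?_)
            have : min (min κ₂ δ) 1 ≤ κ₂ := (min_le_left _ _).trans (min_le_left _ _)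
            linarith)
        refine h4.mono ?_ ?_
        · exact Real.rpow_le_rpow_of_exponent_le hM1 (min_le_right _ _)
        · exact Real.rpow_le_rpow_of_exponent_le hM1 (by linarith [min_le_right κ₁ κ₃])
  obtain ⟨κ₁, hκ₁, M₁, hM₁1, h1⟩ := hpoly
  obtain ⟨κ₂, hκ₂, M₂, hM₂2, h2⟩ := prime_sums δ hδ hδ1
  obtain ⟨κ₃, hκ₃, hκ₃le, M₃, hM₃1, h3⟩ := disc_powJ s hs (min (min κ₂ δ) 1) (lt_min (lt_min hκ₂ hδ) one_pos)
  have hκ₃κ₂ : κ₃ ≤ κ₂ := hκ₃le.trans ((min_le_left _ _).trans (min_le_left _ _))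
  refine ⟨min κ₁ κ₃, lt_min hκ₁ hκ₃, max M₁ (max M₂ M₃), hM₂2.trans ((le_max_left _ _).trans (le_max_right _ _)),
    fun M hM x hx => ?_⟩
  have hMpos : 1 ≤ M := (hM₁1.trans (le_max_left _ _)).trans hM
  have hM1 : (1 : ℝ) ≤ M := by exact_mod_cast hMpos
  constructor
  · intro k hk hkK R hR
    refine (h1 M ((le_max_left _ _).trans hM) x hx k hk hkK R hR).mono ?_ ?_
    · exact Real.rpow_le_rpow_of_exponent_le hM1 (min_le_left _ _)
    · exact Real.rpow_le_rpow_of_exponent_le hM1 (by linarith [min_le_left κ₁ κ₃])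
  · intro d r hd hdM β
    have hdM' : (d : ℝ) ≤ (M : ℝ) ^ κ₂ :=
      hdM.trans (Real.rpow_le_rpow_of_exponent_le hM1 ((min_le_right _ _).trans hκ₃κ₂))
    have hcard : ((range (M + 1)).filter (fun p => p.Prime ∧ p ≡ r [MOD d])).card ≤ M := by
      have hsub : (range (M + 1)).filter (fun p => p.Prime ∧ p ≡ r [MOD d]) ⊆ Ioc 0 M := by
        intro p hp
        rw [mem_filter, mem_range] at hp
        rw [mem_Ioc]
        exact ⟨hp.2.1.pos, by omega⟩
      have := card_le_card hsub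
      rwa [Nat.card_Ioc, Nat.sub_zero] at this
    have h4 := h3 M ((le_max_right _ _).trans ((le_max_right _ _).trans hM))
      ((range (M + 1)).filter (fun p => p.Prime ∧ p ≡ r [MOD d])) (fun p j => x j * p + β j) hcard (by
        intro h hh hhM
        have hδM : ∀ j, |(h j : ℝ)| ≤ (M : ℝ) ^ δ := fun j => (hhM j).trans
          (Real.rpow_le_rpow_of_exponent_le hM1 ((min_le_left _ _).trans (min_le_right _ _)))
        have h1M : ∀ j, |(h j : ℝ)| ≤ M := fun j => (hhM j).trans (by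
          calc (M : ℝ) ^ (min (min κ₂ δ) 1) ≤ (M : ℝ) ^ (1 : ℝ) :=
                Real.rpow_le_rpow_of_exponent_le hM1 (min_le_right _ _)
            _ = M := Real.rpow_one _)
        have h5 := h2 M ((le_max_left _ _).trans ((le_max_right _ _).trans hM)) _ (hx h hh h1M hδM) 1
          one_ne_zero (by
            push_cast
            rw [abs_one]
            exact Real.one_le_rpow hM1 hκ₂.le) d r hd hdM'
        have e1 : ∑ i ∈ (range (M + 1)).filter (fun p => p.Prime ∧ p ≡ r [MOD d]),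
            e (∑ j, (h j : ℝ) * (x j * i + β j)) = e (∑ j, (h j : ℝ) * β j) *
              ∑ p ∈ (range (M + 1)).filter (fun p => p.Prime ∧ p ≡ r [MOD d]),
                e (((1 : ℤ) : ℝ) * (∑ j, (h j : ℝ) * x j) * p) := by
          rw [mul_sum]
          refine sum_congr rfl fun n _ => ?_
          rw [← e_add]
          congr 1
          rw [Int.cast_one, one_mul, Finset.sum_mul, ← Finset.sum_add_distrib]
          exact sum_congr rfl fun j _ => by ring
        rw [e1, norm_mul, norm_e, one_mul]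
        refine h5.trans (Real.rpow_le_rpow_of_exponent_le hM1 ?_)
        have : min (min κ₂ δ) 1 ≤ κ₂ := (min_le_left _ _).trans (min_le_left _ _)
        linarith)
    refine h4.mono ?_ ?_
    · exact Real.rpow_le_rpow_of_exponent_le hM1 (min_le_right _ _)
    · exact Real.rpow_le_rpow_of_exponent_le hM1 (by linarith [min_le_right κ₁ κ₃])

end Pool.Agent.Q29.Eqd
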