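import Pool.Agent.Q29.EqPrime

set_option autoImplicit false

/-! # Uniform distribution at a scale -/

namespace Pool.Agent.Q29.Eqd

open Finset Polynomial

/-- The multiples of `x` are uniformly distributed at the scale `M`, with a power saving, along all
polynomials of degree at most `K` and along the primes of all residue classes:

* for every nonzero integer `b` with `|b| ≤ M ^ κ`, every `1 ≤ k ≤ K` and every real polynomial `R`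
  of degree less than `k`, the number of `0 ≤ n < M` with the fractional part of
  `b x n ^ k + R(n)` in `[u, v)` is `(v - u) M` up to `M ^ (1 - κ)`, for all `0 ≤ u ≤ v ≤ 1`;
* for every such `b`, every `1 ≤ d ≤ M ^ κ`, every `r` and every real `β`, the number of primes
  `p ≤ M` with `p ≡ r (mod d)` and the fractional part of `b x p + β` in `[u, v)` is `(v - u)` times
  the number of all the primes `p ≤ M` with `p ≡ r (mod d)`, up to `M ^ (1 - κ)`. -/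
def Good (κ : ℝ) (K M : ℕ) (x : ℝ) : Prop :=
  (∀ b : ℤ, b ≠ 0 → |(b : ℝ)| ≤ (M : ℝ) ^ κ → ∀ k : ℕ, 1 ≤ k → k ≤ K → ∀ R : ℝ[X], R.degree < k →
    ∀ u v : ℝ, 0 ≤ u → u ≤ v → v ≤ 1 →
      |(((range M).filter fun n : ℕ => u ≤ Int.fract (b * x * (n : ℝ) ^ k + R.eval (n : ℝ)) ∧
          Int.fract (b * x * (n : ℝ) ^ k + R.eval (n : ℝ)) < v).card : ℝ) - (v - u) * M| ≤
        (M : ℝ) ^ (1 - κ)) ∧
  (∀ b : ℤ, b ≠ 0 → |(b : ℝ)| ≤ (M : ℝ) ^ κ → ∀ d r : ℕ, 1 ≤ d → (d : ℝ) ≤ (M : ℝ) ^ κ → ∀ β : ℝ,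
    ∀ u v : ℝ, 0 ≤ u → u ≤ v → v ≤ 1 →
      |(((range (M + 1)).filter fun p : ℕ => (p.Prime ∧ p ≡ r [MOD d]) ∧
          (u ≤ Int.fract (b * x * p + β) ∧ Int.fract (b * x * p + β) < v)).card : ℝ) -
        (v - u) * ((range (M + 1)).filter fun p : ℕ => p.Prime ∧ p ≡ r [MOD d]).card| ≤
        (M : ℝ) ^ (1 - κ))

theorem Good.mono {κ κ' : ℝ} {K K' M : ℕ} {x : ℝ} (hM : 1 ≤ M) (hκ : κ' ≤ κ) (hK : K' ≤ K)
    (h : Good κ K M x) : Good κ' K' M x := by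
  have hM1 : (1 : ℝ) ≤ M := by exact_mod_cast hM
  have h1 : (M : ℝ) ^ κ' ≤ (M : ℝ) ^ κ := Real.rpow_le_rpow_of_exponent_le hM1 hκ
  have h2 : (M : ℝ) ^ (1 - κ) ≤ (M : ℝ) ^ (1 - κ') := Real.rpow_le_rpow_of_exponent_le hM1 (by linarith)
  exact ⟨fun b hb hbM k hk hkK R hR u v hu huv hv =>
      (h.1 b hb (hbM.trans h1) k hk (hkK.trans hK) R hR u v hu huv hv).trans h2,
    fun b hb hbM d r hd hdM β u v hu huv hv =>
      (h.2 b hb (hbM.trans h1) d r hd (hdM.trans h1) β u v hu huv hv).trans h2⟩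

theorem engine (K : ℕ) (δ : ℝ) (hδ : 0 < δ) (hδ1 : δ ≤ 1) : ∃ κ : ℝ, 0 < κ ∧ κ ≤ 1 ∧ ∃ M₀ : ℕ, 2 ≤ M₀ ∧
    ∀ M : ℕ, M₀ ≤ M → ∀ x : ℝ, ¬ Res δ M x → Good κ K M x := by
  -- the polynomials
  have hpoly : ∃ κ : ℝ, 0 < κ ∧ ∃ M₀ : ℕ, 1 ≤ M₀ ∧ ∀ M : ℕ, M₀ ≤ M → ∀ x : ℝ, ¬ Res δ M x →
      ∀ b : ℤ, b ≠ 0 → |(b : ℝ)| ≤ (M : ℝ) ^ κ → ∀ k : ℕ, 1 ≤ k → k ≤ K → ∀ R : ℝ[X], R.degree < k →
      Equi (range M) (fun n => b * x * (n : ℝ) ^ k + R.eval (n : ℝ)) ((M : ℝ) ^ (1 - κ)) := by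
    induction K with
    | zero => exact ⟨1, one_pos, 1, le_rfl, fun M hM x hx b hb hbM k hk hk0 => absurd hk (by omega)⟩
    | succ K ih =>
      obtain ⟨κ₁, hκ₁, M₁, hM₁1, h1⟩ := ih
      obtain ⟨κ₂, hκ₂, M₂, hM₂1, h2⟩ := poly_one (K + 1) (by omega) δ hδ
      refine ⟨min κ₁ κ₂, lt_min hκ₁ hκ₂, max M₁ M₂, hM₁1.trans (le_max_left _ _),
        fun M hM x hx b hb hbM k hk hkK R hR => ?_⟩
      have hMpos : 1 ≤ M := (hM₁1.trans (le_max_left _ _)).trans hM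
      have hM1 : (1 : ℝ) ≤ M := by exact_mod_cast hMpos
      rcases Nat.lt_or_ge k (K + 1) with hlt | hge
      · refine (h1 M ((le_max_left _ _).trans hM) x hx b hb
          (hbM.trans (Real.rpow_le_rpow_of_exponent_le hM1 (min_le_left _ _))) k hk (by omega) R hR).mono ?_
        exact Real.rpow_le_rpow_of_exponent_le hM1 (by linarith [min_le_left κ₁ κ₂])
      · obtain rfl : k = K + 1 := by omega
        refine (h2 M ((le_max_right _ _).trans hM) x hx b hb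
          (hbM.trans (Real.rpow_le_rpow_of_exponent_le hM1 (min_le_right _ _))) R hR).mono ?_
        exact Real.rpow_le_rpow_of_exponent_le hM1 (by linarith [min_le_right κ₁ κ₂])
  obtain ⟨κ₁, hκ₁, M₁, hM₁1, h1⟩ := hpoly
  obtain ⟨κ₂, hκ₂, M₂, hM₂2, h2⟩ := prime_eq δ hδ hδ1
  refine ⟨min (min κ₁ κ₂) 1, lt_min (lt_min hκ₁ hκ₂) one_pos, min_le_right _ _, max M₁ M₂,
    hM₂2.trans (le_max_right _ _), fun M hM x hx => ?_⟩
  have hMpos : 1 ≤ M := (hM₁1.trans (le_max_left _ _)).trans hM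
  have hM1 : (1 : ℝ) ≤ M := by exact_mod_cast hMpos
  have e1 : min (min κ₁ κ₂) 1 ≤ κ₁ := (min_le_left _ _).trans (min_le_left _ _)
  have e2 : min (min κ₁ κ₂) 1 ≤ κ₂ := (min_le_left _ _).trans (min_le_right _ _)
  constructor
  · intro b hb hbM k hk hkK R hR u v hu huv hv
    have h3 := h1 M ((le_max_left _ _).trans hM) x hx b hb
      (hbM.trans (Real.rpow_le_rpow_of_exponent_le hM1 e1)) k hk hkK R hR u v hu huv hv
    rw [card_range] at h3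
    exact h3.trans (Real.rpow_le_rpow_of_exponent_le hM1 (by linarith))
  · intro b hb hbM d r hd hdM β u v hu huv hv
    have h3 := h2 M ((le_max_right _ _).trans hM) x hx b hb
      (hbM.trans (Real.rpow_le_rpow_of_exponent_le hM1 e2)) d r hd
      (hdM.trans (Real.rpow_le_rpow_of_exponent_le hM1 e2)) β u v hu huv hv
    rw [filter_filter] at h3
    exact h3.trans (Real.rpow_le_rpow_of_exponent_le hM1 (by linarith))

/-- all the scales between `N` and `N ^ A` -/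
theorem engine_range (K : ℕ) (δ : ℝ) (hδ : 0 < δ) (hδ1 : δ ≤ 1) : ∃ κ : ℝ, 0 < κ ∧ κ ≤ 1 ∧ ∃ N₀ : ℕ, 2 ≤ N₀ ∧
    ∀ N : ℕ, N₀ ≤ N → ∀ x : ℝ, ∀ A : ℝ, (∀ M : ℕ, N ≤ M → (M : ℝ) ≤ (N : ℝ) ^ A → ¬ Res δ M x) →
      ∀ M : ℕ, N ≤ M → (M : ℝ) ≤ (N : ℝ) ^ A → Good κ K M x := by
  obtain ⟨κ, h1, h2, M₀, h3, h4⟩ := engine K δ hδ hδ1
  exact ⟨κ, h1, h2, M₀, h3, fun N hN x A h M hNM hMA => h4 M (hN.trans hNM) x (h M hNM hMA)⟩

end Pool.Agent.Q29.Eqd
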