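import Pool.Agent.Q29.EqSpan
import Pool.Agent.TH647.NR.Lin
import Pool.Agent.TH647.NR.Rank

set_option autoImplicit false

/-! # The bound for the rank of the near relations, in the form used for the distribution of multiples -/

namespace Pool.Agent.Q29.Eqd

open Finset

theorem hm_of_meas {m : ℕ} (r : ℕ) (θ : Fin m → ℝ) (κ c : ℝ) (hc : 0 < c)
    (h : Pool.Agent.W472.AC.Meas (Fin.cons 1 θ : Fin (m + 1) → ℝ) κ c) : ∃ c' : ℝ, 0 < c' ∧
    ∀ (t : Fin r → ℝ) (X : ℝ), 1 ≤ X → ∀ v : Fin (r + 1) → (Fin (m + 1) → ℤ) × (Fin r → ℤ),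
      LinearIndependent ℤ v → (∀ k, ‖v k‖ ≤ X) → ∃ k, c' * X ^ (-(κ * (r + 1) + r)) ≤ |lval θ t (v k)| := by
  obtain ⟨c', hc', h'⟩ := Pool.Agent.TH647.NR.rank_bound _ κ c hc h r
  refine ⟨c', hc', fun t X hX v hv hvX => ?_⟩
  obtain ⟨k, hk⟩ := h' t X hX v hv hvX
  refine ⟨k, ?_⟩
  have e1 : Pool.Agent.TH647.NR.linr (Fin.cons 1 θ : Fin (m + 1) → ℝ) t (v k) = lval θ t (v k) := by
    unfold Pool.Agent.TH647.NR.linr lval
    rw [Fin.sum_univ_succ]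
    simp
  rw [e1] at hk
  refine le_trans (le_of_eq ?_) hk
  congr 2
  ring

end Pool.Agent.Q29.Eqd
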