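import Pool.Agent.Q29.EqPoint

set_option autoImplicit false

/-! # Joint uniform distribution of the multiples of monomials in numbers without small polynomial relations -/

namespace Pool.Agent.Q29.Eqd

open Finset

/-- the monomial with the exponents `e` -/
noncomputable def mono {ι : Type} [Fintype ι] (v : ι → ℝ) (e : ι → ℕ) : ℝ := ∏ i, v i ^ e i

theorem joint_mono {ι : Type} [Fintype ι] [DecidableEq ι] (s : ℕ) (hs : 1 ≤ s) (f : Fin s → ι → ℕ)
    (hf : Function.Injective f) (hf0 : ∀ k, f k ≠ 0) (d : ℕ) (hd : ∀ k i, f k i ≤ d) (K : ℕ) (E X B : ℝ)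
    (hX1 : 1 ≤ X) (hB : 0 ≤ B) : ∃ κ : ℝ, 0 < κ ∧ ∃ T₀ : ℝ, 1 ≤ T₀ ∧ ∀ T : ℝ, T₀ ≤ T → ∀ v : ι → ℝ,
      (∀ i, |v i| ≤ X) → (∀ P : MvPolynomial ι ℤ, P ≠ 0 → (∀ x, P.degreeOf x ≤ d) →
        (∀ c, |((P.coeff c : ℤ) : ℝ)| ≤ T) → T ^ (-B) < |MvPolynomial.aeval v P|) →
      ∀ M : ℕ, T ^ (2 * B + 1) ≤ (M : ℝ) → (M : ℝ) ≤ T ^ E → Joint κ K M (fun k => mono v (f k)) := by
  obtain ⟨E', hE'⟩ : ∃ E' : ℝ, E' = max E 1 := ⟨_, rfl⟩
  have hE'1 : 1 ≤ E' := by rw [hE']; exact le_max_right _ _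
  have hEE' : E ≤ E' := by rw [hE']; exact le_max_left _ _
  obtain ⟨δ, hδE⟩ : ∃ δ : ℝ, δ = 1 / (3 * E') := ⟨_, rfl⟩
  have hδ : 0 < δ := by rw [hδE]; positivity
  have hδ3 : δ ≤ 1 / 3 := by
    rw [hδE]
    apply one_div_le_one_div_of_le (by norm_num)
    linarith
  have hδE' : E' * (3 * δ) = 1 := by
    rw [hδE]
    field_simp
  obtain ⟨κ, hκ, M₀, hM₀, hjoint⟩ := joint_point s hs K δ hδ (by linarith)
  obtain ⟨X', hX'⟩ : ∃ X' : ℝ, X' = (X ^ d) ^ Fintype.card ι := ⟨_, rfl⟩
  have hX'1 : 1 ≤ X' := by rw [hX']; exact one_le_pow₀ (one_le_pow₀ hX1)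
  have hlim : Filter.Tendsto (fun T : ℝ => T ^ δ) Filter.atTop Filter.atTop := tendsto_rpow_atTop hδ
  obtain ⟨T₁, hT₁⟩ := Filter.eventually_atTop.1 (hlim.eventually_ge_atTop (s * X' + 1))
  refine ⟨κ, hκ, max (max T₁ M₀) 1, le_max_right _ _, fun T hT v hv hP M hTM hMT => ?_⟩
  have hT1 : 1 ≤ T := (le_max_right _ _).trans hT
  have hT0 : 0 < T := by linarith
  have hTT₁ : T₁ ≤ T := ((le_max_left _ _).trans (le_max_left _ _)).trans hT
  have hTM₀ : (M₀ : ℝ) ≤ T := ((le_max_right _ _).trans (le_max_left _ _)).trans hT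
  have hTM' : T ≤ M := by
    calc T = T ^ (1 : ℝ) := (Real.rpow_one _).symm
      _ ≤ T ^ (2 * B + 1) := Real.rpow_le_rpow_of_exponent_le hT1 (by linarith)
      _ ≤ M := hTM
  have hM1 : (1 : ℝ) ≤ M := hT1.trans hTM'
  have hM0 : (0 : ℝ) < M := by linarith
  have h3δ : (M : ℝ) ^ (3 * δ) ≤ T := by
    calc (M : ℝ) ^ (3 * δ) ≤ (T ^ E) ^ (3 * δ) := Real.rpow_le_rpow hM0.le hMT (by positivity)
      _ = T ^ (E * (3 * δ)) := by rw [← Real.rpow_mul hT0.le]
      _ ≤ T ^ (1 : ℝ) := by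
          apply Real.rpow_le_rpow_of_exponent_le hT1
          calc E * (3 * δ) ≤ E' * (3 * δ) := mul_le_mul_of_nonneg_right hEE' (by positivity)
            _ = 1 := hδE'
      _ = T := Real.rpow_one _
  refine hjoint M (by exact_mod_cast hTM₀.trans hTM') _ X' (fun k => ?_) ?_ ?_
  · unfold mono
    rw [Finset.abs_prod, hX']
    calc ∏ i, |v i ^ f k i| ≤ ∏ _i : ι, X ^ d := by
          refine Finset.prod_le_prod (fun i _ => abs_nonneg _) fun i _ => ?_
          rw [abs_pow]
          exact (pow_le_pow_left₀ (abs_nonneg _) (hv i) _).trans (pow_le_pow_right₀ hX1 (hd k i))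
      _ = _ := by rw [Finset.prod_const, Finset.card_univ]
  · exact (hT₁ T hTT₁).trans (Real.rpow_le_rpow hT0.le hTM' hδ.le)
  · intro w a hw hwM haM
    obtain ⟨g, hg⟩ : ∃ g : Fin s → ι →₀ ℕ, g = fun k => Finsupp.equivFunOnFinite.symm (f k) := ⟨_, rfl⟩
    have hginj : Function.Injective g := by
      rw [hg]
      exact Finsupp.equivFunOnFinite.symm.injective.comp hf
    have hgf : ∀ k i, g k i = f k i := fun k i => by rw [hg]; rfl
    have hg0 : ∀ k, g k ≠ 0 := by
      intro k h0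
      apply hf0 k
      funext i
      rw [← hgf, h0]
      rfl
    obtain ⟨P, hPE⟩ : ∃ P : MvPolynomial ι ℤ,
      P = (∑ k, MvPolynomial.monomial (g k) (w k)) - MvPolynomial.C a := ⟨_, rfl⟩
    have hcoef : ∀ c, P.coeff c = (∑ k, if g k = c then w k else 0) - if (0 : ι →₀ ℕ) = c then a else 0 := by
      intro c
      rw [hPE, MvPolynomial.coeff_sub, MvPolynomial.coeff_sum, MvPolynomial.coeff_C]
      congr 1
      refine Finset.sum_congr rfl fun k _ => ?_
      rw [MvPolynomial.coeff_monomial]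
    have hck : ∀ k, P.coeff (g k) = w k := by
      intro k
      rw [hcoef, if_neg (fun h => hg0 k h.symm), sub_zero, Finset.sum_eq_single k]
      · rw [if_pos rfl]
      · intro k' _ hne
        rw [if_neg]
        intro h1
        exact hne (hginj h1)
      · intro h1
        exact absurd (mem_univ k) h1
    have hP0 : P ≠ 0 := by
      intro h0
      apply hw
      funext k
      rw [← hck k, h0]
      rfl
    have hev : MvPolynomial.aeval v P = ∑ k, (w k : ℝ) * mono v (f k) - a := by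
      rw [hPE, map_sub, map_sum]
      congr 1
      · refine Finset.sum_congr rfl fun k _ => ?_
        rw [MvPolynomial.aeval_monomial]
        congr 1
        unfold mono
        rw [Finsupp.prod_fintype _ _ (fun i => pow_zero _)]
        exact Finset.prod_congr rfl fun i _ => by rw [hgf]
      · rw [MvPolynomial.aeval_C]
        rfl
    have hdeg : ∀ x, P.degreeOf x ≤ d := by
      intro x
      rw [MvPolynomial.degreeOf_le_iff]
      intro c hc
      rw [MvPolynomial.mem_support_iff, hcoef] at hc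
      by_contra hcd
      push Not at hcd
      apply hc
      have h1 : ∀ k, g k ≠ c := by
        rintro k rfl
        rw [hgf] at hcd
        exact absurd (hd k x) (by omega)
      have h2 : (0 : ι →₀ ℕ) ≠ c := by
        rintro rfl
        simp at hcd
      rw [if_neg h2, sub_zero]
      exact Finset.sum_eq_zero fun k _ => if_neg (h1 k)
    have hcoe : ∀ c, |((P.coeff c : ℤ) : ℝ)| ≤ T := by
      intro c
      by_cases h1 : ∃ k, g k = c
      · obtain ⟨k, rfl⟩ := h1
        rw [hck]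
        exact (hwM k).trans h3δ
      · push Not at h1
        rw [hcoef, Finset.sum_eq_zero fun k _ => if_neg (h1 k), zero_sub]
        push_cast
        rw [abs_neg]
        split_ifs
        · exact haM.trans h3δ
        · simp only [Int.cast_zero, abs_zero]
          linarith
    have h1 := hP P hP0 hdeg hcoe
    rw [hev] at h1
    refine lt_of_le_of_lt ?_ h1
    calc (M : ℝ) ^ (δ - 1) ≤ (M : ℝ) ^ (-(1 / 2) : ℝ) := Real.rpow_le_rpow_of_exponent_le hM1 (by linarith)
      _ ≤ (T ^ (2 * B + 1)) ^ (-(1 / 2) : ℝ) :=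
          Real.rpow_le_rpow_of_nonpos (by positivity) hTM (by norm_num)
      _ = T ^ ((2 * B + 1) * (-(1 / 2))) := by rw [← Real.rpow_mul hT0.le]
      _ ≤ T ^ (-B) := Real.rpow_le_rpow_of_exponent_le hT1 (by linarith)

end Pool.Agent.Q29.Eqd
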