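import Pool.Agent.Q29.EqMain

set_option autoImplicit false

/-! # Two numbers without simultaneous good approximations -/

namespace Pool.Agent.Q29.Eqd

open Finset Polynomial

/-- the multiples of `x` are uniformly distributed at all the scales from `N` to `N ^ A` -/
def GoodRange (x : ℝ) (K : ℕ) (A κ : ℝ) (N : ℕ) : Prop :=
  ∀ M : ℕ, N ≤ M → (M : ℝ) ≤ (N : ℝ) ^ A → Good κ K M x

theorem pair_engine (K : ℕ) (κ₀ A : ℝ) (hκ₀ : 0 ≤ κ₀) (hA : 1 ≤ A) : ∃ κ : ℝ, 0 < κ ∧ ∀ c S : ℝ, 0 < c → 0 < S →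
    ∃ N₀ : ℕ, 1 ≤ N₀ ∧ ∀ N : ℕ, N₀ ≤ N → ∀ x x' : ℝ, (∀ Q ε : ℝ, 1 ≤ Q → 0 ≤ ε → ε ≤ 1 → ∀ q q' : ℕ,
      1 ≤ q → 1 ≤ q' → (q : ℝ) ≤ Q → (q' : ℝ) ≤ Q → ∀ p p' : ℤ, |(q : ℝ) * x - p| ≤ ε → |(q' : ℝ) * x' - p'| ≤ ε →
        c * (Q * (N : ℝ) ^ κ * S) ^ (-κ₀) ≤ ε) →
      GoodRange x K A κ N ∨ GoodRange x' K A κ N := by
  obtain ⟨δ, hδE⟩ : ∃ δ : ℝ, δ = 1 / (4 * (A + 1) * (κ₀ + 1)) := ⟨_, rfl⟩
  have hδ : 0 < δ := by rw [hδE]; positivity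
  have hδ8 : δ ≤ 1 / 8 := by
    rw [hδE]
    apply one_div_le_one_div_of_le (by norm_num)
    nlinarith
  have hδA : (A * δ + δ) * κ₀ ≤ 1 / 4 := by
    have e1 : (A * δ + δ) * (κ₀ + 1) = 1 / 4 := by
      rw [hδE]
      field_simp
    nlinarith
  obtain ⟨κ₁, hκ₁, hκ₁1, M₀, hM₀, hgood⟩ := engine K δ hδ (by linarith)
  refine ⟨min κ₁ δ, lt_min hκ₁ hδ, fun c S hc hS0 => ?_⟩
  obtain ⟨M₁, hM₁, hbig⟩ := ev_rpow (1 / 2) (2 * (S ^ κ₀ / c)) (by norm_num)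
  refine ⟨max M₀ M₁, hM₁.trans (le_max_right _ _), fun N hN x x' h => ?_⟩
  have hNpos : 1 ≤ N := hM₁.trans ((le_max_right _ _).trans hN)
  have hN1 : (1 : ℝ) ≤ N := by exact_mod_cast hNpos
  have hN0 : (0 : ℝ) < N := by linarith
  have hbigN := hbig N ((le_max_right _ _).trans hN)
  by_contra hcon
  push Not at hcon
  have key : ∀ x : ℝ, ¬ GoodRange x K A (min κ₁ δ) N → ∃ q : ℕ, 1 ≤ q ∧ (q : ℝ) ≤ (N : ℝ) ^ (A * δ) ∧
      ∃ a : ℤ, |(q : ℝ) * x - a| ≤ (N : ℝ) ^ (δ - 1) := by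
    intro x hx
    unfold GoodRange at hx
    push Not at hx
    obtain ⟨M, hNM, hMA, hbad⟩ := hx
    have hMpos : 1 ≤ M := hNpos.trans hNM
    have hres : Res δ M x := by
      by_contra hcon
      exact hbad ((hgood M (((le_max_left _ _).trans hN).trans hNM) _ hcon).mono hMpos (min_le_left _ _) le_rfl)
    obtain ⟨q, hq, hqM, a, ha⟩ := hres
    refine ⟨q, hq, ?_, a, ?_⟩
    · refine hqM.trans ?_
      rw [Real.rpow_mul hN0.le]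
      exact Real.rpow_le_rpow (by positivity) hMA hδ.le
    · refine ha.trans ?_
      apply Real.rpow_le_rpow_of_nonpos hN0 (by exact_mod_cast hNM) (by linarith)
  obtain ⟨q, hq, hqN, a, ha⟩ := key x hcon.1
  obtain ⟨q', hq', hqN', a', ha'⟩ := key x' hcon.2
  have h2 := h ((N : ℝ) ^ (A * δ)) ((N : ℝ) ^ (δ - 1)) (Real.one_le_rpow hN1 (by positivity)) (by positivity)
    (Real.rpow_le_one_of_one_le_of_nonpos hN1 (by linarith)) q q' hq hq' hqN hqN' a a' ha ha'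
  have h2' : c * ((N : ℝ) ^ (A * δ + δ) * S) ^ (-κ₀) ≤ (N : ℝ) ^ (δ - 1) := by
    refine le_trans (mul_le_mul_of_nonneg_left ?_ hc.le) h2
    apply Real.rpow_le_rpow_of_nonpos (by positivity) _ (by linarith)
    apply mul_le_mul_of_nonneg_right _ hS0.le
    rw [Real.rpow_add hN0]
    apply mul_le_mul_of_nonneg_left _ (by positivity)
    exact Real.rpow_le_rpow_of_exponent_le hN1 (min_le_right _ _)
  rw [Real.mul_rpow (by positivity) hS0.le, ← Real.rpow_mul hN0.le, Real.rpow_neg hS0.le] at h2'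
  have hSκ : 0 < S ^ κ₀ := by positivity
  have h3 : c ≤ S ^ κ₀ * (N : ℝ) ^ ((A * δ + δ) * κ₀ + (δ - 1)) := by
    have e1 : c = (c * ((N : ℝ) ^ ((A * δ + δ) * -κ₀) * (S ^ κ₀)⁻¹)) * ((N : ℝ) ^ ((A * δ + δ) * κ₀) * S ^ κ₀) := by
      have e2 : (N : ℝ) ^ ((A * δ + δ) * -κ₀) * (N : ℝ) ^ ((A * δ + δ) * κ₀) = 1 := by
        rw [← Real.rpow_add hN0, show (A * δ + δ) * -κ₀ + (A * δ + δ) * κ₀ = 0 by ring, Real.rpow_zero]
      calc c = c * ((N : ℝ) ^ ((A * δ + δ) * -κ₀) * (N : ℝ) ^ ((A * δ + δ) * κ₀)) * ((S ^ κ₀)⁻¹ * S ^ κ₀) := by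
            rw [e2, inv_mul_cancel₀ hSκ.ne']
            ring
        _ = _ := by ring
    rw [e1]
    calc (c * ((N : ℝ) ^ ((A * δ + δ) * -κ₀) * (S ^ κ₀)⁻¹)) * ((N : ℝ) ^ ((A * δ + δ) * κ₀) * S ^ κ₀)
        ≤ (N : ℝ) ^ (δ - 1) * ((N : ℝ) ^ ((A * δ + δ) * κ₀) * S ^ κ₀) :=
          mul_le_mul_of_nonneg_right h2' (by positivity)
      _ = _ := by
          rw [Real.rpow_add hN0]
          ring
  have h4 : (N : ℝ) ^ ((A * δ + δ) * κ₀ + (δ - 1)) ≤ (N : ℝ) ^ (-(1 / 2) : ℝ) :=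
    Real.rpow_le_rpow_of_exponent_le hN1 (by linarith)
  have h5 : c * (N : ℝ) ^ (1 / 2 : ℝ) ≤ S ^ κ₀ := by
    have e3 : (N : ℝ) ^ (-(1 / 2) : ℝ) * (N : ℝ) ^ (1 / 2 : ℝ) = 1 := by
      rw [← Real.rpow_add hN0]
      norm_num
    calc c * (N : ℝ) ^ (1 / 2 : ℝ) ≤ (S ^ κ₀ * (N : ℝ) ^ (-(1 / 2) : ℝ)) * (N : ℝ) ^ (1 / 2 : ℝ) := by
          apply mul_le_mul_of_nonneg_right _ (by positivity)
          exact h3.trans (mul_le_mul_of_nonneg_left h4 hSκ.le)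
      _ = S ^ κ₀ := by rw [mul_assoc, e3, mul_one]
  have h6 : 2 * S ^ κ₀ ≤ c * (N : ℝ) ^ (1 / 2 : ℝ) := by
    calc 2 * S ^ κ₀ = c * (2 * (S ^ κ₀ / c)) := by field_simp
      _ ≤ _ := mul_le_mul_of_nonneg_left hbigN hc.le
  linarith

end Pool.Agent.Q29.Eqd
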