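import Pool.Agent.Q29.EqJointEng

set_option autoImplicit false

/-! # Joint uniform distribution of the multiples of a vector without small linear forms -/

namespace Pool.Agent.Q29.Eqd

open Finset

theorem joint_point (s : ℕ) (hs : 1 ≤ s) (K : ℕ) (δ : ℝ) (hδ : 0 < δ) (hδ1 : δ ≤ 1) :
    ∃ κ : ℝ, 0 < κ ∧ ∃ M₀ : ℕ, 2 ≤ M₀ ∧ ∀ M : ℕ, M₀ ≤ M → ∀ (x : Fin s → ℝ) (X : ℝ), (∀ k, |x k| ≤ X) →
      s * X + 1 ≤ (M : ℝ) ^ δ →
      (∀ (v : Fin s → ℤ) (a : ℤ), v ≠ 0 → (∀ k, |(v k : ℝ)| ≤ (M : ℝ) ^ (3 * δ)) → |(a : ℝ)| ≤ (M : ℝ) ^ (3 * δ) →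
        (M : ℝ) ^ (δ - 1) < |∑ k, (v k : ℝ) * x k - a|) → Joint κ K M x := by
  obtain ⟨κ, hκ, M₀, hM₀, h⟩ := joint_engine s hs K δ hδ hδ1
  refine ⟨κ, hκ, M₀, hM₀, fun M hM x X hX hXM hv => h M hM x fun l hl0 _ hlM => ?_⟩
  rintro ⟨q, hq, hqM, a, ha⟩
  have hMpos : 1 ≤ M := by omega
  have hM1 : (1 : ℝ) ≤ M := by exact_mod_cast hMpos
  have hM0 : (0 : ℝ) < M := by linarith
  have hq1 : (1 : ℝ) ≤ q := by exact_mod_cast hq
  have hP1 : 1 ≤ (M : ℝ) ^ δ := Real.one_le_rpow hM1 hδ.le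
  have e3 : (M : ℝ) ^ (3 * δ) = (M : ℝ) ^ δ * ((M : ℝ) ^ δ * (M : ℝ) ^ δ) := by
    rw [← Real.rpow_add hM0, ← Real.rpow_add hM0]
    congr 1
    ring
  have e2 : ∑ k, (((q : ℤ) * l k : ℤ) : ℝ) * x k = q * ∑ k, (l k : ℝ) * x k := by
    rw [Finset.mul_sum]
    refine Finset.sum_congr rfl fun k _ => ?_
    push_cast
    ring
  obtain ⟨P, hP⟩ : ∃ P : ℝ, P = (M : ℝ) ^ δ := ⟨_, rfl⟩
  rw [← hP] at hP1 e3 hqM hlM hXM
  have hX0 : 0 ≤ X := (abs_nonneg _).trans (hX ⟨0, hs⟩)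
  have hbad := hv (fun k => (q : ℤ) * l k) a ?_ ?_ ?_
  · rw [e2] at hbad
    linarith
  · intro h0
    apply hl0
    funext k
    have h1 := congrFun h0 k
    rcases mul_eq_zero.1 h1 with h2 | h2
    · have : q = 0 := by exact_mod_cast h2
      omega
    · exact h2
  · intro k
    push_cast
    rw [abs_mul, Nat.abs_cast, e3]
    calc (q : ℝ) * |(l k : ℝ)| ≤ P * P := mul_le_mul hqM (hlM k) (abs_nonneg _) (by linarith)
      _ ≤ P * (P * P) := by nlinarith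
  · have h1 : |∑ k, (l k : ℝ) * x k| ≤ P * (s * X) := by
      calc |∑ k, (l k : ℝ) * x k| ≤ ∑ k, |(l k : ℝ) * x k| := Finset.abs_sum_le_sum_abs _ _
        _ ≤ ∑ _k : Fin s, P * X := by
            refine Finset.sum_le_sum fun k _ => ?_
            rw [abs_mul]
            exact mul_le_mul (hlM k) (hX k) (abs_nonneg _) (by linarith)
        _ = _ := by
            rw [Finset.sum_const, Finset.card_univ, Fintype.card_fin, nsmul_eq_mul]
            ring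
    have h2 : (M : ℝ) ^ (δ - 1) ≤ 1 := Real.rpow_le_one_of_one_le_of_nonpos hM1 (by linarith)
    have h3 : |(a : ℝ)| ≤ |(q : ℝ) * ∑ k, (l k : ℝ) * x k| + |(q : ℝ) * ∑ k, (l k : ℝ) * x k - a| := by
      have : (a : ℝ) = (q : ℝ) * ∑ k, (l k : ℝ) * x k - ((q : ℝ) * ∑ k, (l k : ℝ) * x k - a) := by ring
      calc |(a : ℝ)| = |(q : ℝ) * ∑ k, (l k : ℝ) * x k - ((q : ℝ) * ∑ k, (l k : ℝ) * x k - a)| := by rw [← this]
        _ ≤ _ := abs_sub _ _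
    rw [abs_mul, Nat.abs_cast] at h3
    rw [e3]
    have h4 : (q : ℝ) * |∑ k, (l k : ℝ) * x k| ≤ P * (P * (s * X)) :=
      mul_le_mul hqM h1 (abs_nonneg _) (by linarith)
    have h5 : P * (P * (s * X)) + 1 ≤ P * (P * P) := by
      have h6 : 0 ≤ (s : ℝ) * X := by positivity
      have h7 : P * (P * (s * X)) + P * P ≤ P * (P * P) := by
        have : P * P * (s * X + 1) ≤ P * P * P := mul_le_mul_of_nonneg_left hXM (by positivity)
        nlinarith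
      have h8 : 1 ≤ P * P := by nlinarith
      linarith
    linarith

end Pool.Agent.Q29.Eqd
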