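import Pool.Agent.Q29.EqMono
import Pool.Agent.TH659.AQ.Mixed

set_option autoImplicit false

/-! # Joint uniform distribution of the multiples of monomials in the values of functions at almost all rational points -/

namespace Pool.Agent.Q29.Eqd

open Finset

theorem rat_finite (a b T : ℝ) : {q : ℚ | a ≤ q ∧ (q : ℝ) ≤ b ∧ (q.den : ℝ) ≤ T}.Finite := by
  have h1 : {q : ℚ | a ≤ q ∧ (q : ℝ) ≤ b ∧ (q.den : ℝ) ≤ T} ⊆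
      (fun p : ℤ × ℕ => (p.1 : ℚ) / p.2) '' (Set.Icc (-⌈(|a| + |b|) * T⌉) ⌈(|a| + |b|) * T⌉ ×ˢ Set.Icc 0 ⌊T⌋₊) := by
    rintro q ⟨h1, h2, h3⟩
    refine ⟨(q.num, q.den), ?_, Rat.num_div_den q⟩
    have hd0 : (0 : ℝ) < q.den := by exact_mod_cast q.den_pos
    have hq : |(q : ℝ)| ≤ |a| + |b| := by
      rw [abs_le]
      constructor
      · have := neg_abs_le a
        have := abs_nonneg b
        linarith
      · have := le_abs_self b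
        have := abs_nonneg a
        linarith
    have hn : |(q.num : ℝ)| ≤ (|a| + |b|) * T := by
      have e1 : (q.num : ℝ) = q * q.den := by
        have := Rat.mul_den_eq_num q
        exact_mod_cast this.symm
      rw [e1, abs_mul, Nat.abs_cast]
      exact mul_le_mul hq h3 hd0.le (by positivity)
    rw [abs_le] at hn
    refine Set.mem_prod.2 ⟨⟨?_, ?_⟩, ⟨Nat.zero_le _, Nat.le_floor h3⟩⟩
    · have h4 : ((-⌈(|a| + |b|) * T⌉ : ℤ) : ℝ) ≤ q.num := by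
        push_cast
        have := Int.le_ceil ((|a| + |b|) * T)
        linarith
      exact_mod_cast h4
    · have h4 : (q.num : ℝ) ≤ ⌈(|a| + |b|) * T⌉ := hn.2.trans (Int.le_ceil _)
      exact_mod_cast h4
  exact ((Set.toFinite _).image _).subset h1

theorem rat_finite_pi {n : ℕ} (a b T : ℝ) :
    {q : Fin n → ℚ | ∀ j, a ≤ q j ∧ (q j : ℝ) ≤ b ∧ ((q j).den : ℝ) ≤ T}.Finite := by
  have h := Set.Finite.pi (fun _ : Fin n => rat_finite a b T)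
  refine h.subset ?_
  intro q hq j _
  exact hq j

/-- **Uniform distribution at almost all rational points**, from a bound for the number of the points with small
polynomial relations -/
theorem rat_joint {ι : Type} [Fintype ι] [DecidableEq ι] {n : ℕ} (val : (Fin n → ℚ) → ι → ℝ) (d : ℕ) (a b X γ : ℝ)
    (hX : ∀ q : Fin n → ℚ, (∀ j, a ≤ q j ∧ (q j : ℝ) ≤ b) → ∀ i, |val q i| ≤ X) (hγ : 0 ≤ γ)
    (h : ∃ B C : ℝ, ∀ T : ℝ, 1 ≤ T →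
      {q : Fin n → ℚ | (∀ j, a ≤ q j ∧ (q j : ℝ) ≤ b ∧ ((q j).den : ℝ) ≤ T) ∧ ∃ P : MvPolynomial ι ℤ, P ≠ 0 ∧
        (∀ x, P.degreeOf x ≤ d) ∧ (∀ c, |((P.coeff c : ℤ) : ℝ)| ≤ T ^ (1 : ℝ)) ∧
        |MvPolynomial.aeval (val q) P| ≤ T ^ (-B)}.Finite ∧
      (({q : Fin n → ℚ | (∀ j, a ≤ q j ∧ (q j : ℝ) ≤ b ∧ ((q j).den : ℝ) ≤ T) ∧ ∃ P : MvPolynomial ι ℤ, P ≠ 0 ∧
        (∀ x, P.degreeOf x ≤ d) ∧ (∀ c, |((P.coeff c : ℤ) : ℝ)| ≤ T ^ (1 : ℝ)) ∧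
        |MvPolynomial.aeval (val q) P| ≤ T ^ (-B)}.ncard : ℕ) : ℝ) ≤ C * T ^ γ) :
    ∃ B : ℝ, 1 ≤ B ∧ ∀ (s : ℕ) (f : Fin s → ι → ℕ), 1 ≤ s → Function.Injective f → (∀ k, f k ≠ 0) → (∀ k i, f k i ≤ d) →
      ∀ (K : ℕ) (E : ℝ), ∃ κ C : ℝ, 0 < κ ∧ ∀ T : ℝ, 1 ≤ T →
        {q : Fin n → ℚ | (∀ j, a ≤ q j ∧ (q j : ℝ) ≤ b ∧ ((q j).den : ℝ) ≤ T) ∧ ∃ M : ℕ, T ^ B ≤ (M : ℝ) ∧
          (M : ℝ) ≤ T ^ E ∧ ¬ Joint κ K M (fun k => mono (val q) (f k))}.Finite ∧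
        (({q : Fin n → ℚ | (∀ j, a ≤ q j ∧ (q j : ℝ) ≤ b ∧ ((q j).den : ℝ) ≤ T) ∧ ∃ M : ℕ, T ^ B ≤ (M : ℝ) ∧
          (M : ℝ) ≤ T ^ E ∧ ¬ Joint κ K M (fun k => mono (val q) (f k))}.ncard : ℕ) : ℝ) ≤ C * T ^ γ := by
  obtain ⟨B₀, C₀, h⟩ := h
  obtain ⟨B, hBE⟩ : ∃ B : ℝ, B = max B₀ 0 := ⟨_, rfl⟩
  have hB : 0 ≤ B := by rw [hBE]; exact le_max_right _ _
  have hBB : B₀ ≤ B := by rw [hBE]; exact le_max_left _ _
  refine ⟨2 * B + 1, by linarith, fun s f hs hf hf0 hd K E => ?_⟩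
  obtain ⟨κ, hκ, T₀, hT₀, hmono⟩ := joint_mono s hs f hf hf0 d hd K E (max X 1) B (le_max_right _ _) hB
  have hfin : ∀ T : ℝ, {q : Fin n → ℚ | (∀ j, a ≤ q j ∧ (q j : ℝ) ≤ b ∧ ((q j).den : ℝ) ≤ T) ∧ ∃ M : ℕ,
      T ^ (2 * B + 1) ≤ (M : ℝ) ∧ (M : ℝ) ≤ T ^ E ∧ ¬ Joint κ K M (fun k => mono (val q) (f k))}.Finite :=
    fun T => (rat_finite_pi a b T).subset fun q hq => hq.1
  refine ⟨κ, max C₀ (({q : Fin n → ℚ | ∀ j, a ≤ q j ∧ (q j : ℝ) ≤ b ∧ ((q j).den : ℝ) ≤ T₀}.ncard : ℕ) : ℝ), hκ,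
    fun T hT => ⟨hfin T, ?_⟩⟩
  have hTγ : 1 ≤ T ^ γ := Real.one_le_rpow hT hγ
  rcases le_or_gt T₀ T with hTT | hTT
  · obtain ⟨h1, h2⟩ := h T hT
    refine le_trans ?_ (h2.trans (mul_le_mul_of_nonneg_right (le_max_left _ _) (by linarith)))
    have hsub : {q : Fin n → ℚ | (∀ j, a ≤ q j ∧ (q j : ℝ) ≤ b ∧ ((q j).den : ℝ) ≤ T) ∧ ∃ M : ℕ,
        T ^ (2 * B + 1) ≤ (M : ℝ) ∧ (M : ℝ) ≤ T ^ E ∧ ¬ Joint κ K M (fun k => mono (val q) (f k))} ⊆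
        {q : Fin n → ℚ | (∀ j, a ≤ q j ∧ (q j : ℝ) ≤ b ∧ ((q j).den : ℝ) ≤ T) ∧ ∃ P : MvPolynomial ι ℤ, P ≠ 0 ∧
          (∀ x, P.degreeOf x ≤ d) ∧ (∀ c, |((P.coeff c : ℤ) : ℝ)| ≤ T ^ (1 : ℝ)) ∧
          |MvPolynomial.aeval (val q) P| ≤ T ^ (-B₀)} := by
      rintro q ⟨hq, M, hM1, hM2, hM3⟩
      refine ⟨hq, ?_⟩
      by_contra hcon
      push Not at hcon
      apply hM3
      refine hmono T hTT (val q) (fun i => (hX q (fun j => ⟨(hq j).1, (hq j).2.1⟩) i).trans (le_max_left _ _))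
        (fun P hP0 hPd hPc => ?_) M hM1 hM2
      have h3 := hcon P hP0 hPd (fun c => by
        rw [Real.rpow_one]
        exact hPc c)
      refine lt_of_le_of_lt ?_ h3
      exact Real.rpow_le_rpow_of_exponent_le hT (by linarith)
    exact_mod_cast Set.ncard_le_ncard hsub h1
  · have hsub : {q : Fin n → ℚ | (∀ j, a ≤ q j ∧ (q j : ℝ) ≤ b ∧ ((q j).den : ℝ) ≤ T) ∧ ∃ M : ℕ,
        T ^ (2 * B + 1) ≤ (M : ℝ) ∧ (M : ℝ) ≤ T ^ E ∧ ¬ Joint κ K M (fun k => mono (val q) (f k))} ⊆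
        {q : Fin n → ℚ | ∀ j, a ≤ q j ∧ (q j : ℝ) ≤ b ∧ ((q j).den : ℝ) ≤ T₀} := by
      rintro q ⟨hq, -⟩ j
      exact ⟨(hq j).1, (hq j).2.1, (hq j).2.2.trans hTT.le⟩
    have h1 := Set.ncard_le_ncard hsub (rat_finite_pi a b T₀)
    have h2 : (0 : ℝ) ≤ (({q : Fin n → ℚ | ∀ j, a ≤ q j ∧ (q j : ℝ) ≤ b ∧ ((q j).den : ℝ) ≤ T₀}.ncard : ℕ) : ℝ) :=
      Nat.cast_nonneg _
    calc _ ≤ (({q : Fin n → ℚ | ∀ j, a ≤ q j ∧ (q j : ℝ) ≤ b ∧ ((q j).den : ℝ) ≤ T₀}.ncard : ℕ) : ℝ) := by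
          exact_mod_cast h1
      _ ≤ max C₀ (({q : Fin n → ℚ | ∀ j, a ≤ q j ∧ (q j : ℝ) ≤ b ∧ ((q j).den : ℝ) ≤ T₀}.ncard : ℕ) : ℝ) :=
          le_max_right _ _
      _ ≤ _ := le_mul_of_one_le_right (h2.trans (le_max_right _ _)) hTγ

/-- bounds for the values of continuous functions -/
theorem vR_bound {κ' : Type} [Fintype κ'] {n : ℕ} (u : κ' → ℝ → ℝ) (a b : ℝ)
    (hu : ∀ k, ContinuousOn (u k) (Set.Icc a b)) : ∃ X : ℝ, ∀ q : Fin n → ℚ, (∀ j, a ≤ q j ∧ (q j : ℝ) ≤ b) →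
      ∀ i, |Pool.Agent.TH659.AQ.vR u q i| ≤ X := by
  have h1 : ∀ k, ∃ C : ℝ, ∀ t ∈ Set.Icc a b, ‖u k t‖ ≤ C := fun k =>
    isCompact_Icc.exists_bound_of_continuousOn (hu k)
  choose C hC using h1
  refine ⟨Real.pi + ∑ k, |C k|, fun q hq i => ?_⟩
  have hs : 0 ≤ ∑ k, |C k| := Finset.sum_nonneg fun k _ => abs_nonneg _
  rcases i with _ | ⟨j, k⟩
  · show |Real.pi| ≤ _
    rw [abs_of_pos Real.pi_pos]
    linarith
  · show |u k (q j)| ≤ _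
    have h2 := hC k (q j) ⟨(hq j).1, (hq j).2⟩
    rw [Real.norm_eq_abs] at h2
    have h3 : |C k| ≤ ∑ k, |C k| := Finset.single_le_sum (f := fun k => |C k|) (fun k _ => abs_nonneg _) (mem_univ k)
    have h4 := le_abs_self (C k)
    have := Real.pi_pos
    linarith

end Pool.Agent.Q29.Eqd
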