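import Pool.Agent.Q29.EqMain
import Pool.Agent.Q29.EqRatPts

set_option autoImplicit false

/-! # Uniform distribution of the multiples of the values of polynomials at numbers without small polynomial relations -/

namespace Pool.Agent.Q29.Eqd

open Finset

theorem card_support_le {ι : Type} [Fintype ι] [DecidableEq ι] (P : MvPolynomial ι ℤ) (d : ℕ) (hd : ∀ x, P.degreeOf x ≤ d) :
    P.support.card ≤ (d + 1) ^ Fintype.card ι := by
  have h1 : P.support.card ≤ (Fintype.piFinset fun _ : ι => range (d + 1)).card := by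
    refine Finset.card_le_card_of_injOn (fun c => (c : ι → ℕ)) (fun c hc => ?_) (fun c _ c' _ h => DFunLike.coe_injective h)
    rw [mem_coe, Fintype.mem_piFinset]
    intro x
    rw [mem_range]
    have h2 := (MvPolynomial.degreeOf_le_iff.1 (hd x)) c hc
    show c x < d + 1
    omega
  refine h1.trans (le_of_eq ?_)
  rw [Fintype.card_piFinset, Finset.prod_const, Finset.card_univ, card_range]

theorem abs_mv_le {ι : Type} [Fintype ι] [DecidableEq ι] (P : MvPolynomial ι ℤ) (d : ℕ) (hd : ∀ x, P.degreeOf x ≤ d)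
    (R X : ℝ) (hX1 : 1 ≤ X) (hR : 0 ≤ R) (hP : ∀ c, |((P.coeff c : ℤ) : ℝ)| ≤ R) (v : ι → ℝ) (hv : ∀ i, |v i| ≤ X) :
    |MvPolynomial.aeval v P| ≤ R * (((d : ℝ) + 1) ^ Fintype.card ι * (X ^ d) ^ Fintype.card ι) := by
  rw [MvPolynomial.aeval_def, MvPolynomial.eval₂_eq']
  refine (Finset.abs_sum_le_sum_abs _ _).trans ?_
  have h1 : ∀ c ∈ P.support, |(algebraMap ℤ ℝ) (P.coeff c) * ∏ i, v i ^ c i| ≤ R * (X ^ d) ^ Fintype.card ι := by
    intro c hc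
    rw [abs_mul, Finset.abs_prod]
    apply mul_le_mul _ _ (Finset.prod_nonneg fun i _ => abs_nonneg _) hR
    · exact hP c
    · calc ∏ i, |v i ^ c i| ≤ ∏ _i : ι, X ^ d := by
            refine Finset.prod_le_prod (fun i _ => abs_nonneg _) fun i _ => ?_
            rw [abs_pow]
            have := (MvPolynomial.degreeOf_le_iff.1 (hd i)) c hc
            exact (pow_le_pow_left₀ (abs_nonneg _) (hv i) _).trans (pow_le_pow_right₀ hX1 this)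
        _ = _ := by rw [Finset.prod_const, Finset.card_univ]
  refine (Finset.sum_le_sum h1).trans ?_
  rw [Finset.sum_const, nsmul_eq_mul]
  have h2 : (P.support.card : ℝ) ≤ ((d : ℝ) + 1) ^ Fintype.card ι := by exact_mod_cast card_support_le P d hd
  have h3 : 0 ≤ R * (X ^ d) ^ Fintype.card ι := by positivity
  calc (P.support.card : ℝ) * (R * (X ^ d) ^ Fintype.card ι) ≤ ((d : ℝ) + 1) ^ Fintype.card ι * (R * (X ^ d) ^ Fintype.card ι) :=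
        mul_le_mul_of_nonneg_right h2 h3
    _ = _ := by ring

/-- numbers without small polynomial relations: all nonconstant polynomials have uniformly distributed multiples -/
theorem poly_good {ι : Type} [Fintype ι] [DecidableEq ι] (d K : ℕ) (E X B : ℝ)
    (hX1 : 1 ≤ X) (hB : 0 ≤ B) : ∃ κ : ℝ, 0 < κ ∧ κ * (8 * max E 1) ≤ 1 ∧ ∃ T₀ : ℝ, 1 ≤ T₀ ∧ ∀ T : ℝ, T₀ ≤ T → ∀ v : ι → ℝ,
      (∀ i, |v i| ≤ X) → (∀ P : MvPolynomial ι ℤ, P ≠ 0 → (∀ x, P.degreeOf x ≤ d) →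
        (∀ c, |((P.coeff c : ℤ) : ℝ)| ≤ T) → T ^ (-B) < |MvPolynomial.aeval v P|) →
      ∀ M : ℕ, T ^ (2 * B + 1) ≤ (M : ℝ) → (M : ℝ) ≤ T ^ E → ∀ P : MvPolynomial ι ℤ, (∀ c : ℤ, P ≠ MvPolynomial.C c) →
        (∀ x, P.degreeOf x ≤ d) → (∀ c, |((P.coeff c : ℤ) : ℝ)| ≤ (M : ℝ) ^ (4 * κ)) →
        Good κ K M (MvPolynomial.aeval v P) := by
  obtain ⟨E', hE'⟩ : ∃ E' : ℝ, E' = max E 1 := ⟨_, rfl⟩
  have hE'1 : 1 ≤ E' := by rw [hE']; exact le_max_right _ _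
  have hEE' : E ≤ E' := by rw [hE']; exact le_max_left _ _
  obtain ⟨δ, hδE⟩ : ∃ δ : ℝ, δ = 1 / (8 * E') := ⟨_, rfl⟩
  have hδ : 0 < δ := by rw [hδE]; positivity
  have hδ8 : δ ≤ 1 / 8 := by
    rw [hδE]
    apply one_div_le_one_div_of_le (by norm_num)
    linarith
  have hδE' : E' * (8 * δ) = 1 := by
    rw [hδE]
    field_simp
  obtain ⟨κ₁, hκ₁, hκ₁1, M₀, hM₀, hgood⟩ := engine K δ hδ (by linarith)
  obtain ⟨L, hL⟩ : ∃ L : ℝ, L = ((d : ℝ) + 1) ^ Fintype.card ι * (X ^ d) ^ Fintype.card ι := ⟨_, rfl⟩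
  have hL1 : 1 ≤ L := by
    rw [hL]
    have h1 : (1 : ℝ) ≤ ((d : ℝ) + 1) ^ Fintype.card ι := one_le_pow₀ (by linarith [Nat.cast_nonneg (α := ℝ) d])
    have h2 : (1 : ℝ) ≤ (X ^ d) ^ Fintype.card ι := one_le_pow₀ (one_le_pow₀ hX1)
    nlinarith
  have hlim : Filter.Tendsto (fun T : ℝ => T ^ δ) Filter.atTop Filter.atTop := tendsto_rpow_atTop hδ
  obtain ⟨T₁, hT₁⟩ := Filter.eventually_atTop.1 (hlim.eventually_ge_atTop (L + 2))
  obtain ⟨κ, hκE⟩ : ∃ κ : ℝ, κ = min κ₁ (δ / 4) := ⟨_, rfl⟩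
  have hκ : 0 < κ := by rw [hκE]; exact lt_min hκ₁ (by positivity)
  have hκκ₁ : κ ≤ κ₁ := by rw [hκE]; exact min_le_left _ _
  have hκδ : 4 * κ ≤ δ := by
    have : κ ≤ δ / 4 := by rw [hκE]; exact min_le_right _ _
    linarith
  refine ⟨κ, hκ, ?_, max (max T₁ M₀) 1, le_max_right _ _, fun T hT v hv hP M hTM hMT P hPc hPd hPM => ?_⟩
  · rw [← hE']
    nlinarith
  have hT1 : 1 ≤ T := (le_max_right _ _).trans hT
  have hT0 : 0 < T := by linarith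
  have hTT₁ : T₁ ≤ T := ((le_max_left _ _).trans (le_max_left _ _)).trans hT
  have hTM₀ : (M₀ : ℝ) ≤ T := ((le_max_right _ _).trans (le_max_left _ _)).trans hT
  have hTM' : T ≤ M := by
    calc T = T ^ (1 : ℝ) := (Real.rpow_one _).symm
      _ ≤ T ^ (2 * B + 1) := Real.rpow_le_rpow_of_exponent_le hT1 (by linarith)
      _ ≤ M := hTM
  have hM1 : (1 : ℝ) ≤ M := hT1.trans hTM'
  have hM0 : (0 : ℝ) < M := by linarith
  have hMpos : 1 ≤ M := by exact_mod_cast hM1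
  have hMM₀ : M₀ ≤ M := by exact_mod_cast hTM₀.trans hTM'
  have h4δ : (M : ℝ) ^ (4 * δ) ≤ T := by
    calc (M : ℝ) ^ (4 * δ) ≤ (T ^ E) ^ (4 * δ) := Real.rpow_le_rpow hM0.le hMT (by positivity)
      _ = T ^ (E * (4 * δ)) := by rw [← Real.rpow_mul hT0.le]
      _ ≤ T ^ (1 : ℝ) := by
          apply Real.rpow_le_rpow_of_exponent_le hT1
          calc E * (4 * δ) ≤ E' * (4 * δ) := mul_le_mul_of_nonneg_right hEE' (by positivity)
            _ ≤ 1 := by linarith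
      _ = T := Real.rpow_one _
  have hLM : L + 2 ≤ (M : ℝ) ^ δ := (hT₁ T hTT₁).trans (Real.rpow_le_rpow hT0.le hTM' hδ.le)
  refine (hgood M hMM₀ _ ?_).mono hMpos hκκ₁ le_rfl
  rintro ⟨q, hq, hqM, a, ha⟩
  have hq1 : (1 : ℝ) ≤ q := by exact_mod_cast hq
  have hMδ1 : 1 ≤ (M : ℝ) ^ δ := Real.one_le_rpow hM1 hδ.le
  have hMδ0 : 0 < (M : ℝ) ^ δ := by linarith
  have hP' : ∀ c, |((P.coeff c : ℤ) : ℝ)| ≤ (M : ℝ) ^ δ := fun c =>
    (hPM c).trans (Real.rpow_le_rpow_of_exponent_le hM1 hκδ)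
  have hval : |MvPolynomial.aeval v P| ≤ (M : ℝ) ^ δ * L := by
    rw [hL]
    exact abs_mv_le P d hPd _ X hX1 hMδ0.le hP' v hv
  have hsmall : (M : ℝ) ^ (δ - 1) ≤ 1 := Real.rpow_le_one_of_one_le_of_nonpos hM1 (by linarith)
  have haM : |(a : ℝ)| ≤ (M : ℝ) ^ δ * ((M : ℝ) ^ δ * L) + 1 := by
    have e : (a : ℝ) = q * MvPolynomial.aeval v P - (q * MvPolynomial.aeval v P - a) := by ring
    rw [e]
    refine (abs_sub _ _).trans ?_
    rw [abs_mul, Nat.abs_cast]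
    refine add_le_add ?_ (ha.trans hsmall)
    exact mul_le_mul hqM hval (abs_nonneg _) hMδ0.le
  obtain ⟨Q, hQE⟩ : ∃ Q : MvPolynomial ι ℤ, Q = MvPolynomial.C (q : ℤ) * P - MvPolynomial.C a := ⟨_, rfl⟩
  have hcoef : ∀ c, Q.coeff c = (q : ℤ) * P.coeff c - if (0 : ι →₀ ℕ) = c then a else 0 := by
    intro c
    rw [hQE, MvPolynomial.coeff_sub, MvPolynomial.coeff_C_mul, MvPolynomial.coeff_C]
  have hQ0 : Q ≠ 0 := by
    intro h0
    apply hPc (P.coeff 0)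
    ext c
    rw [MvPolynomial.coeff_C]
    split_ifs with h1
    · rw [← h1]
    · have h2 := hcoef c
      rw [h0, MvPolynomial.coeff_zero, if_neg h1, sub_zero] at h2
      have hq0 : (q : ℤ) ≠ 0 := by exact_mod_cast (by omega : q ≠ 0)
      exact (mul_eq_zero.1 h2.symm).resolve_left hq0
  have hQd : ∀ x, Q.degreeOf x ≤ d := by
    intro x
    rw [MvPolynomial.degreeOf_le_iff]
    intro c hc
    rw [MvPolynomial.mem_support_iff, hcoef] at hc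
    by_cases h1 : (0 : ι →₀ ℕ) = c
    · rw [← h1]
      simp
    · rw [if_neg h1, sub_zero] at hc
      exact (MvPolynomial.degreeOf_le_iff.1 (hPd x)) c (MvPolynomial.mem_support_iff.2 (right_ne_zero_of_mul hc))
  have hQc : ∀ c, |((Q.coeff c : ℤ) : ℝ)| ≤ T := by
    intro c
    refine le_trans ?_ h4δ
    have e4 : (M : ℝ) ^ (4 * δ) = (M : ℝ) ^ δ * (M : ℝ) ^ δ * ((M : ℝ) ^ δ * (M : ℝ) ^ δ) := by
      rw [← Real.rpow_add hM0, ← Real.rpow_add hM0]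
      congr 1
      ring
    rw [e4, hcoef]
    push_cast
    refine (abs_sub _ _).trans ?_
    rw [abs_mul, Nat.abs_cast]
    have h1 : (q : ℝ) * |((P.coeff c : ℤ) : ℝ)| ≤ (M : ℝ) ^ δ * (M : ℝ) ^ δ :=
      mul_le_mul hqM (hP' c) (abs_nonneg _) hMδ0.le
    have h2 : |(((if (0 : ι →₀ ℕ) = c then a else 0 : ℤ)) : ℝ)| ≤ (M : ℝ) ^ δ * ((M : ℝ) ^ δ * L) + 1 := by
      split_ifs
      · exact haM
      · simp
        positivity
    push_cast at h2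
    have hMM1 : 1 ≤ (M : ℝ) ^ δ * (M : ℝ) ^ δ := by nlinarith
    have h3 : (M : ℝ) ^ δ * (M : ℝ) ^ δ * (L + 2) ≤ (M : ℝ) ^ δ * (M : ℝ) ^ δ * ((M : ℝ) ^ δ * (M : ℝ) ^ δ) := by
      apply mul_le_mul_of_nonneg_left _ (by positivity)
      nlinarith
    nlinarith
  have hQv : MvPolynomial.aeval v Q = q * MvPolynomial.aeval v P - a := by
    rw [hQE, map_sub, map_mul, MvPolynomial.aeval_C, MvPolynomial.aeval_C]
    simp
  have h1 := hP Q hQ0 hQd hQc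
  rw [hQv] at h1
  have h2 : (M : ℝ) ^ (δ - 1) ≤ T ^ (-B) := by
    calc (M : ℝ) ^ (δ - 1) ≤ (T ^ (2 * B + 1)) ^ (δ - 1) :=
          Real.rpow_le_rpow_of_nonpos (Real.rpow_pos_of_pos hT0 _) hTM (by linarith)
      _ = T ^ ((2 * B + 1) * (δ - 1)) := by rw [← Real.rpow_mul hT0.le]
      _ ≤ T ^ (-B) := by
          apply Real.rpow_le_rpow_of_exponent_le hT1
          nlinarith
  linarith

/-- transfer of a bound for the number of the exceptional rational points -/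
theorem rat_transfer {n : ℕ} (a b γ C₀ T₀ : ℝ) (hγ : 0 ≤ γ) (S Ex : ℝ → Set (Fin n → ℚ))
    (hS : ∀ T, S T ⊆ {q : Fin n → ℚ | ∀ j, a ≤ q j ∧ (q j : ℝ) ≤ b ∧ ((q j).den : ℝ) ≤ T})
    (hEx : ∀ T : ℝ, 1 ≤ T → (Ex T).Finite ∧ ((Ex T).ncard : ℝ) ≤ C₀ * T ^ γ) (hSE : ∀ T : ℝ, 1 ≤ T → T₀ ≤ T → S T ⊆ Ex T) :
    ∃ C : ℝ, ∀ T : ℝ, 1 ≤ T → (S T).Finite ∧ ((S T).ncard : ℝ) ≤ C * T ^ γ := by
  have hfin : ∀ T, (S T).Finite := fun T => (rat_finite_pi a b T).subset (hS T)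
  refine ⟨max C₀ (({q : Fin n → ℚ | ∀ j, a ≤ q j ∧ (q j : ℝ) ≤ b ∧ ((q j).den : ℝ) ≤ T₀}.ncard : ℕ) : ℝ),
    fun T hT => ⟨hfin T, ?_⟩⟩
  have hTγ : 1 ≤ T ^ γ := Real.one_le_rpow hT hγ
  rcases le_or_gt T₀ T with hTT | hTT
  · obtain ⟨h1, h2⟩ := hEx T hT
    refine le_trans ?_ (h2.trans (mul_le_mul_of_nonneg_right (le_max_left _ _) (by linarith)))
    exact_mod_cast Set.ncard_le_ncard (hSE T hT hTT) h1
  · have hsub : S T ⊆ {q : Fin n → ℚ | ∀ j, a ≤ q j ∧ (q j : ℝ) ≤ b ∧ ((q j).den : ℝ) ≤ T₀} := by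
      intro q hq j
      have := hS T hq j
      exact ⟨this.1, this.2.1, this.2.2.trans hTT.le⟩
    have h1 := Set.ncard_le_ncard hsub (rat_finite_pi a b T₀)
    have h2 : (0 : ℝ) ≤ (({q : Fin n → ℚ | ∀ j, a ≤ q j ∧ (q j : ℝ) ≤ b ∧ ((q j).den : ℝ) ≤ T₀}.ncard : ℕ) : ℝ) :=
      Nat.cast_nonneg _
    calc ((S T).ncard : ℝ) ≤ (({q : Fin n → ℚ | ∀ j, a ≤ q j ∧ (q j : ℝ) ≤ b ∧ ((q j).den : ℝ) ≤ T₀}.ncard : ℕ) : ℝ) := by
          exact_mod_cast h1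
      _ ≤ max C₀ (({q : Fin n → ℚ | ∀ j, a ≤ q j ∧ (q j : ℝ) ≤ b ∧ ((q j).den : ℝ) ≤ T₀}.ncard : ℕ) : ℝ) :=
          le_max_right _ _
      _ ≤ _ := le_mul_of_one_le_right (h2.trans (le_max_right _ _)) hTγ

end Pool.Agent.Q29.Eqd
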