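import Pool.Agent.Q29.EqPair
import Pool.Agent.Q29.EqTM
import Pool.Agent.Q29.DigBiv

set_option autoImplicit false

/-! # Uniform distribution of the multiples of the values of polynomials at `t + r z`, `r` rational -/

namespace Pool.Agent.Q29.Eqd

open Finset Polynomial
open Pool.Agent.TH456.TM (MeasT vl σx σx_coeff core_res)
open Pool.Agent.Q29.DD (val2 abs_val2)

/-- the polynomial `v ^ d P((v y + u x) / v)`, `d` the degree of `P` -/
noncomputable def GG (P : ℤ[X]) (u : ℤ) (v : ℕ) : ℤ[X][X] :=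
  ((P.scaleRoots (v : ℤ)).map (C : ℤ →+* ℤ[X])).comp (C (C (v : ℤ)) * X + C (C u * X))

theorem lin_natDegree (u : ℤ) (v : ℕ) (hv : 1 ≤ v) :
    (C (C (v : ℤ)) * X + C (C u * X) : ℤ[X][X]).natDegree = 1 := by
  apply natDegree_linear
  rw [Ne, C_eq_zero]
  exact_mod_cast (by omega : v ≠ 0)

theorem GG_natDegree (P : ℤ[X]) (u : ℤ) (v : ℕ) (hv : 1 ≤ v) : (GG P u v).natDegree = P.natDegree := by
  unfold GG
  rw [natDegree_comp, lin_natDegree u v hv, mul_one, natDegree_map_eq_of_injective C_injective,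
    natDegree_scaleRoots]

theorem lin_pow_coeff (u : ℤ) (v i j : ℕ) :
    ((C (C (v : ℤ)) * X + C (C u * X) : ℤ[X][X]) ^ i).coeff j =
      if j ≤ i then C ((v : ℤ) ^ j * u ^ (i - j) * (i.choose j : ℤ)) * X ^ (i - j) else 0 := by
  rw [add_pow, finsetSum_coeff]
  have h1 : ∀ m ∈ range (i + 1), ((C (C (v : ℤ)) * X) ^ m * (C (C u * X)) ^ (i - m) * ((i.choose m : ℕ) : ℤ[X][X])).coeff j =
      if m = j then C ((v : ℤ) ^ j * u ^ (i - j) * (i.choose j : ℤ)) * X ^ (i - j) else 0 := by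
    intro m _
    have e1 : ((C (C (v : ℤ)) * X) ^ m * (C (C u * X)) ^ (i - m) * ((i.choose m : ℕ) : ℤ[X][X]) : ℤ[X][X]) =
        C (C ((v : ℤ) ^ m * u ^ (i - m) * (i.choose m : ℤ)) * X ^ (i - m)) * X ^ m := by
      have hc : ((i.choose m : ℕ) : ℤ[X][X]) = C (C ((i.choose m : ℕ) : ℤ)) := by simp
      rw [hc]
      simp only [mul_pow, C_mul, C_pow]
      ring
    rw [e1, coeff_C_mul_X_pow]
    by_cases h : m = j
    · subst h; simp
    · rw [if_neg h, if_neg (fun h' => h h'.symm)]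
  rw [sum_congr rfl h1, sum_ite_eq' (range (i + 1)) j]
  simp only [mem_range]
  by_cases h : j ≤ i
  · rw [if_pos h, if_pos (by omega)]
  · rw [if_neg h, if_neg (by omega)]

theorem GG_coeff (P : ℤ[X]) (u : ℤ) (v : ℕ) (j : ℕ) : (GG P u v).coeff j =
    ∑ i ∈ range (P.natDegree + 1), C ((P.scaleRoots (v : ℤ)).coeff i) *
      (if j ≤ i then C ((v : ℤ) ^ j * u ^ (i - j) * (i.choose j : ℤ)) * X ^ (i - j) else 0) := by
  unfold GG
  rw [comp, eval₂_eq_sum_range' _ (show ((P.scaleRoots (v : ℤ)).map (C : ℤ →+* ℤ[X])).natDegree < P.natDegree + 1 by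
    rw [natDegree_map_eq_of_injective C_injective, natDegree_scaleRoots]; omega), finsetSum_coeff]
  refine sum_congr rfl fun i _ => ?_
  rw [coeff_C_mul, coeff_map, lin_pow_coeff]

theorem GG_coeff_natDegree (P : ℤ[X]) (u : ℤ) (v : ℕ) (D : ℕ) (hP : P.natDegree ≤ D) (j : ℕ) :
    ((GG P u v).coeff j).natDegree ≤ D := by
  rw [GG_coeff]
  refine natDegree_sum_le_of_forall_le _ _ fun i hi => ?_
  rw [mem_range] at hi
  refine (natDegree_C_mul_le _ _).trans ?_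
  split_ifs with h
  · refine (natDegree_C_mul_X_pow_le _ _).trans ?_
    omega
  · simp

theorem GG_coeff_le (P : ℤ[X]) (u : ℤ) (v : ℕ) (D : ℕ) (hPD : P.natDegree ≤ D) (R U : ℝ) (hR : 0 ≤ R) (hU : 1 ≤ U)
    (hP : ∀ n, |(P.coeff n : ℝ)| ≤ R) (hu : |(u : ℝ)| ≤ U) (hv : (v : ℝ) ≤ U) (j k : ℕ) :
    |(((GG P u v).coeff j).coeff k : ℝ)| ≤ (D + 1) * (R * U ^ D * (U ^ D * U ^ D * 2 ^ D)) := by
  rw [GG_coeff, finsetSum_coeff]
  push_cast
  refine (Finset.abs_sum_le_sum_abs _ _).trans ?_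
  calc ∑ i ∈ range (P.natDegree + 1), |((C ((P.scaleRoots (v : ℤ)).coeff i) *
      (if j ≤ i then C ((v : ℤ) ^ j * u ^ (i - j) * (i.choose j : ℤ)) * X ^ (i - j) else 0)).coeff k : ℝ)|
      ≤ ∑ _i ∈ range (P.natDegree + 1), R * U ^ D * (U ^ D * U ^ D * 2 ^ D) := by
        refine sum_le_sum fun i hi => ?_
        rw [mem_range] at hi
        have hp0 : 0 ≤ R * U ^ D * (U ^ D * U ^ D * 2 ^ D) := by positivity
        have hv0 : (0 : ℝ) ≤ v := Nat.cast_nonneg _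
        by_cases hj : j ≤ i
        · rw [if_pos hj, coeff_C_mul, coeff_C_mul_X_pow, coeff_scaleRoots]
          by_cases hk : k = i - j
          · rw [if_pos hk]
            push_cast
            rw [abs_mul, abs_mul, abs_mul, abs_mul, abs_pow, abs_pow, abs_pow, Nat.abs_cast, Nat.abs_cast]
            have h1 : (v : ℝ) ^ (P.natDegree - i) ≤ U ^ D :=
              (pow_le_pow_left₀ hv0 hv _).trans (pow_le_pow_right₀ hU (by omega))
            have h2 : (v : ℝ) ^ j ≤ U ^ D :=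
              (pow_le_pow_left₀ hv0 hv _).trans (pow_le_pow_right₀ hU (by omega))
            have h3 : |(u : ℝ)| ^ (i - j) ≤ U ^ D :=
              (pow_le_pow_left₀ (abs_nonneg _) hu _).trans (pow_le_pow_right₀ hU (by omega))
            have h4 : ((i.choose j : ℕ) : ℝ) ≤ 2 ^ D := by
              have h5 : i.choose j ≤ 2 ^ i := Nat.choose_le_two_pow i j
              have h6 : 2 ^ i ≤ 2 ^ D := Nat.pow_le_pow_right (by norm_num) (by omega)
              exact_mod_cast h5.trans h6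
            exact mul_le_mul (mul_le_mul (hP i) h1 (by positivity) hR)
              (mul_le_mul (mul_le_mul h2 h3 (by positivity) (by positivity)) h4 (by positivity) (by positivity))
              (by positivity) (by positivity)
          · rw [if_neg hk, mul_zero, Int.cast_zero, abs_zero]
            exact hp0
        · rw [if_neg hj, mul_zero, coeff_zero, Int.cast_zero, abs_zero]
          exact hp0
    _ = (P.natDegree + 1) * (R * U ^ D * (U ^ D * U ^ D * 2 ^ D)) := by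
        rw [sum_const, card_range, nsmul_eq_mul]
        push_cast
        ring
    _ ≤ _ := by
        have h1 : (P.natDegree : ℝ) ≤ D := by exact_mod_cast hPD
        have hp0 : 0 ≤ R * U ^ D * (U ^ D * U ^ D * 2 ^ D) := by positivity
        apply mul_le_mul_of_nonneg_right _ hp0
        linarith

/-- the value of this polynomial -/
theorem GG_eval {A : Type*} [CommRing A] (P : ℤ[X]) (u : ℤ) (v : ℕ) (ξ β : A) :
    eval₂ (aeval ξ : ℤ[X] →ₐ[ℤ] A).toRingHom β (GG P u v) = aeval ((v : A) * β + u * ξ) (P.scaleRoots (v : ℤ)) := by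
  unfold GG
  rw [eval₂_comp, eval₂_map]
  have h1 : eval₂ (aeval ξ : ℤ[X] →ₐ[ℤ] A).toRingHom β (C (C (v : ℤ)) * X + C (C u * X)) = (v : A) * β + u * ξ := by
    rw [eval₂_add, eval₂_mul, eval₂_C, eval₂_C, eval₂_X]
    simp
  rw [h1, aeval_def]
  congr 1
  ext n
  simp

theorem GG_no_root {L : Type*} [Field L] (ψ : ℤ[X] →+* L) (hinj : Function.Injective ψ) (P Q : ℤ[X]) (hP : P ≠ 0)
    (hQ : Q ≠ 0) (u u' : ℤ) (v v' : ℕ) (hne : u * v' ≠ u' * v) (β : L) (h1 : eval₂ ψ β (GG P u v) = 0)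
    (h2 : eval₂ ψ β (GG Q u' v') = 0) : False := by
  obtain ⟨ξ, hξ⟩ : ∃ ξ, ξ = ψ X := ⟨_, rfl⟩
  have hψ2 : ψ = (aeval ξ : ℤ[X] →ₐ[ℤ] L).toRingHom := by
    refine Polynomial.ringHom_ext (fun n => ?_) ?_
    · simp
    · simp [hξ]
  have key : ∀ (P : ℤ[X]) (u : ℤ) (v : ℕ), P ≠ 0 →
      eval₂ ψ β (GG P u v) = 0 → IsAlgebraic ℤ ((v : L) * β + u * ξ) := by
    intro P u v hP h
    refine ⟨P.scaleRoots (v : ℤ), scaleRoots_ne_zero hP _, ?_⟩
    rw [← GG_eval P u v ξ β, ← hψ2]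
    exact h
  have h3 := key P u v hP h1
  have h4 := key Q u' v' hQ h2
  have h5 : IsAlgebraic ℤ (((u * v' - u' * v : ℤ) : L) * ξ) := by
    have h6 : IsAlgebraic ℤ ((v' : L) * ((v : L) * β + u * ξ)) := by
      have := (isAlgebraic_algebraMap (R := ℤ) (A := L) (v' : ℤ)).mul h3
      simpa using this
    have h7 : IsAlgebraic ℤ ((v : L) * ((v' : L) * β + u' * ξ)) := by
      have := (isAlgebraic_algebraMap (R := ℤ) (A := L) (v : ℤ)).mul h4
      simpa using this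
    have h8 := h6.sub h7
    have e : (v' : L) * ((v : L) * β + u * ξ) - (v : L) * ((v' : L) * β + u' * ξ) =
        ((u * v' - u' * v : ℤ) : L) * ξ := by
      push_cast
      ring
    rwa [e] at h8
  obtain ⟨p, hp, hp0⟩ := h5
  have hn : u * v' - u' * v ≠ 0 := sub_ne_zero.2 hne
  have h9 : aeval ξ (p.comp (C (u * v' - u' * v) * X)) = 0 := by
    rw [aeval_comp]
    simpa using hp0
  have h10 : ψ (p.comp (C (u * v' - u' * v) * X)) = 0 := by
    rw [hψ2]
    exact h9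
  rw [← map_zero ψ] at h10
  have h11 := hinj h10
  apply hp
  ext n
  have h12 : (p.comp (C (u * v' - u' * v) * X)).coeff n = 0 := by rw [h11, coeff_zero]
  rw [comp_C_mul_X_coeff] at h12
  rcases mul_eq_zero.1 h12 with h | h
  · rw [h, coeff_zero]
  · exact absurd h (pow_ne_zero _ hn)

/-- the polynomials attached to different rational numbers are coprime -/
theorem GG_coprime (P Q : ℤ[X]) (hP : P ≠ 0) (hQ : Q ≠ 0) (u u' : ℤ) (v v' : ℕ) (hne : u * v' ≠ u' * v) :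
    IsCoprime ((GG P u v).map (algebraMap ℤ[X] (FractionRing ℤ[X])))
      ((GG Q u' v').map (algebraMap ℤ[X] (FractionRing ℤ[X]))) := by
  refine (isCoprime_iff_aeval_ne_zero_of_isAlgClosed _ (AlgebraicClosure (FractionRing ℤ[X])) _ _).2 fun β => ?_
  by_contra hcon
  push Not at hcon
  obtain ⟨h1, h2⟩ := hcon
  obtain ⟨ψ, hψ⟩ : ∃ ψ : ℤ[X] →+* AlgebraicClosure (FractionRing ℤ[X]),
      ψ = (algebraMap (FractionRing ℤ[X]) (AlgebraicClosure (FractionRing ℤ[X]))).comp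
        (algebraMap ℤ[X] (FractionRing ℤ[X])) := ⟨_, rfl⟩
  have hinj : Function.Injective ψ := by
    rw [hψ]
    exact (algebraMap (FractionRing ℤ[X]) (AlgebraicClosure (FractionRing ℤ[X]))).injective.comp
      (IsFractionRing.injective _ _)
  refine GG_no_root ψ hinj P Q hP hQ u u' v v' hne β ?_ ?_
  · rw [hψ, ← eval₂_map, ← aeval_def]
    exact h1
  · rw [hψ, ← eval₂_map, ← aeval_def]
    exact h2

theorem GG_res (P Q : ℤ[X]) (hP : P ≠ 0) (hQ : Q ≠ 0) (u u' : ℤ) (v v' : ℕ) (hne : u * v' ≠ u' * v) :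
    resultant (GG P u v) (GG Q u' v') (GG P u v).natDegree (GG Q u' v').natDegree ≠ 0 := by
  obtain ⟨φ, hφ⟩ : ∃ φ : ℤ[X] →+* FractionRing ℤ[X], φ = algebraMap ℤ[X] (FractionRing ℤ[X]) := ⟨_, rfl⟩
  have hinj : Function.Injective φ := by
    rw [hφ]
    exact IsFractionRing.injective _ _
  intro h0
  have h1 : φ (resultant (GG P u v) (GG Q u' v') (GG P u v).natDegree (GG Q u' v').natDegree) = 0 := by
    rw [h0, map_zero]
  rw [← resultant_map_map] at h1
  have h2 : resultant ((GG P u v).map φ) ((GG Q u' v').map φ) = 0 := by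
    rw [natDegree_map_eq_of_injective hinj, natDegree_map_eq_of_injective hinj]
    exact h1
  rw [resultant_eq_zero_iff] at h2
  apply h2.2
  rw [hφ]
  exact GG_coprime P Q hP hQ u u' v v' hne

theorem GG_val (z t : ℝ) (P : ℤ[X]) (r : ℚ) :
    val2 z t (GG P r.num r.den) = (r.den : ℝ) ^ P.natDegree * aeval (t + r * z) P := by
  unfold val2
  rw [GG_eval]
  have hden : (r.den : ℝ) ≠ 0 := by exact_mod_cast r.den_nz
  have hr : (r : ℝ) = (r.num : ℝ) / (r.den : ℝ) := Rat.cast_def r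
  have e1 : (r.den : ℝ) * t + r.num * z = (Int.castRingHom ℝ) ((r.den : ℕ) : ℤ) * (t + r * z) := by
    rw [hr, eq_intCast]
    push_cast
    field_simp
  rw [e1, aeval_def, show (algebraMap ℤ ℝ) = Int.castRingHom ℝ from rfl, scaleRoots_eval₂_mul, aeval_def,
    show (algebraMap ℤ ℝ) = Int.castRingHom ℝ from rfl]
  simp

theorem rat_good (z : ℝ) (hz : MeasT (z : ℂ)) (D K : ℕ) (A : ℝ) (hD : 1 ≤ D) (hA : 1 ≤ A) :
    ∃ κ : ℝ, 0 < κ ∧ ∀ T : ℝ, 1 ≤ T → ∃ N₀ : ℕ, ∀ N : ℕ, N₀ ≤ N → ∀ t : ℝ, |t| ≤ T →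
      {r : ℚ | |(r.num : ℝ)| ≤ (N : ℝ) ^ κ ∧ (r.den : ℝ) ≤ (N : ℝ) ^ κ ∧
        ¬ AllGood (t + r * z) D K A κ N}.Subsingleton := by
  obtain ⟨κ₀, hκ₀, hcore⟩ := core_res (z : ℂ) hz D D hD
  obtain ⟨κ₂, hκ₂E⟩ : ∃ κ₂ : ℝ, κ₂ = max κ₀ 1 := ⟨_, rfl⟩
  have hκ₂1 : 1 ≤ κ₂ := by rw [hκ₂E]; exact le_max_right _ _
  have hκ₂κ : κ₀ ≤ κ₂ := by rw [hκ₂E]; exact le_max_left _ _
  obtain ⟨κ₁, hκ₁, heng⟩ := pair_engine K κ₂ A (by linarith) hA
  obtain ⟨m, hm⟩ : ∃ m : ℕ, m = 5 * D + 1 := ⟨_, rfl⟩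
  have hm0 : (0 : ℝ) < m := by rw [hm]; positivity
  have hm1 : (1 : ℝ) ≤ m := by rw [hm]; push_cast; have : (0 : ℝ) ≤ D := Nat.cast_nonneg _
                               linarith
  refine ⟨κ₁ / m, by positivity, fun T hT => ?_⟩
  obtain ⟨c, hc, hcore⟩ := hcore T hT
  obtain ⟨S₁, hS₁⟩ : ∃ S₁ : ℝ, S₁ = (D + 1) * (T + |z|) ^ D + 2 := ⟨_, rfl⟩
  have hz0 := abs_nonneg z
  have hS₁1 : 1 ≤ S₁ := by
    rw [hS₁]
    have : 0 ≤ (D + 1 : ℝ) * (T + |z|) ^ D := by positivity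
    linarith
  obtain ⟨S, hS⟩ : ∃ S : ℝ, S = (D + 1) * (S₁ * 2 ^ D) := ⟨_, rfl⟩
  have hS1 : 1 ≤ S := by
    rw [hS]
    have h1 : (1 : ℝ) ≤ (D : ℝ) + 1 := by have : (0 : ℝ) ≤ D := Nat.cast_nonneg _
                                          linarith
    exact one_le_mul_of_one_le_of_one_le h1 (one_le_mul_of_one_le_of_one_le hS₁1 (one_le_pow₀ (by norm_num)))
  obtain ⟨N₀, hN₀1, hN₀⟩ := heng c S hc (by linarith)
  refine ⟨N₀, fun N hN t ht r hr r' hr' => ?_⟩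
  rw [Set.mem_ofPred_eq] at hr hr'
  by_contra hne
  have hNpos : 1 ≤ N := hN₀1.trans hN
  have hN1 : (1 : ℝ) ≤ N := by exact_mod_cast hNpos
  have hN0 : (0 : ℝ) < N := by linarith
  obtain ⟨U, hUE⟩ : ∃ U : ℝ, U = (N : ℝ) ^ (κ₁ / m) := ⟨_, rfl⟩
  have hU1 : 1 ≤ U := by rw [hUE]; exact Real.one_le_rpow hN1 (by positivity)
  have hU0 : 0 < U := by linarith
  have hUm : U ^ m = (N : ℝ) ^ κ₁ := by
    rw [hUE, ← Real.rpow_natCast, ← Real.rpow_mul hN0.le]
    congr 1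
    field_simp
  obtain ⟨hr1, hr2, hr3⟩ := hr
  obtain ⟨hr1', hr2', hr3'⟩ := hr'
  unfold AllGood at hr3 hr3'
  push Not at hr3 hr3'
  obtain ⟨P, hP0, hPD, hPc, M, hNM, hMA, hbad⟩ := hr3
  obtain ⟨P', hP0', hPD', hPc', M', hNM', hMA', hbad'⟩ := hr3'
  rw [← hUE] at hr1 hr2 hPc hr1' hr2' hPc'
  have hκle : κ₁ / m ≤ κ₁ := div_le_self hκ₁.le hm1
  -- the size of the numbers
  have hw : ∀ r : ℚ, |(r.num : ℝ)| ≤ U → |t + r * z| ≤ U * (T + |z|) := by
    intro r hr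
    have hden1 : (1 : ℝ) ≤ r.den := by exact_mod_cast r.den_pos
    have h1 : |(r : ℝ)| ≤ U := by
      have h2 : (r : ℝ) = (r.num : ℝ) / (r.den : ℝ) := Rat.cast_def r
      rw [h2, abs_div, Nat.abs_cast]
      exact (div_le_self (abs_nonneg _) hden1).trans hr
    calc |t + r * z| ≤ |t| + |(r : ℝ) * z| := abs_add_le _ _
      _ ≤ U * T + U * |z| := by
          rw [abs_mul]
          apply add_le_add
          · nlinarith
          · exact mul_le_mul_of_nonneg_right h1 hz0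
      _ = _ := by ring
  -- the height of the polynomials
  have hht : ∀ (r : ℚ) (P : ℤ[X]), |(r.num : ℝ)| ≤ U → (r.den : ℝ) ≤ U → 0 < P.natDegree → P.natDegree ≤ D →
      (∀ n, |(P.coeff n : ℝ)| ≤ U) → ∀ Q ε : ℝ, 1 ≤ Q → ε ≤ 1 → ∀ q : ℕ, 1 ≤ q → (q : ℝ) ≤ Q → ∀ p : ℤ,
      |(q : ℝ) * aeval (t + r * z) P - p| ≤ ε →
      (∀ j k, |((((GG (comb q p P) r.num r.den).coeff j).coeff k : ℤ) : ℝ)| ≤ Q * U ^ (4 * D + 1) * S) ∧
      |val2 z t (GG (comb q p P) r.num r.den)| ≤ U ^ D * ε := by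
    intro r P hr1 hr2 hP0 hPD hPc Q ε hQ hε q hq hqQ p hp
    have hB1 : 1 ≤ U * (T + |z|) := by
      have : 1 ≤ T + |z| := by linarith
      exact one_le_mul_of_one_le_of_one_le hU1 this
    have h1 := comb_coeff q hq p P D hPD U hU1 hPc (t + r * z) (U * (T + |z|)) hB1 (hw r hr1) Q hqQ
      (hp.trans hε)
    have hUD : 1 ≤ U ^ D := one_le_pow₀ hU1
    have h2 : ∀ n, |((comb q p P).coeff n : ℝ)| ≤ Q * U ^ (D + 1) * S₁ := by
      intro n
      refine (h1 n).trans ?_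
      rw [mul_pow]
      have e1 : Q * U ^ (D + 1) * S₁ = Q * U * ((D + 1) * (U ^ D * (T + |z|) ^ D) + 2 * U ^ D) := by
        rw [hS₁]
        ring
      rw [e1]
      apply mul_le_mul_of_nonneg_left _ (by positivity)
      linarith
    constructor
    · intro j k
      have h3 := GG_coeff_le (comb q p P) r.num r.den D ((comb_natDegree q hq p P hP0).le.trans hPD)
        (Q * U ^ (D + 1) * S₁) U (by positivity) hU1 h2 hr1 hr2 j k
      refine h3.trans (le_of_eq ?_)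
      rw [hS]
      ring
    · rw [GG_val, abs_mul, comb_aeval, abs_pow, Nat.abs_cast, comb_natDegree q hq p P hP0]
      have h4 : (r.den : ℝ) ^ P.natDegree ≤ U ^ D :=
        (pow_le_pow_left₀ (Nat.cast_nonneg _) hr2 _).trans (pow_le_pow_right₀ hU1 hPD)
      exact mul_le_mul h4 hp (abs_nonneg _) (by positivity)
  have hmain := hN₀ N hN (aeval (t + r * z) P) (aeval (t + r' * z) P') (by
    intro Q ε hQ hε hε1 q q' hq hq' hqQ hqQ' p p' h3 h3'
    obtain ⟨a1, a2⟩ := hht r P hr1 hr2 hP0 hPD hPc Q ε hQ hε1 q hq hqQ p h3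
    obtain ⟨b1, b2⟩ := hht r' P' hr1' hr2' hP0' hPD' hPc' Q ε hQ hε1 q' hq' hqQ' p' h3'
    obtain ⟨H, hHE⟩ : ∃ H : ℝ, H = Q * U ^ (4 * D + 1) * S := ⟨_, rfl⟩
    rw [← hHE] at a1 b1
    have hH1 : 1 ≤ H := by
      rw [hHE]
      exact one_le_mul_of_one_le_of_one_le (one_le_mul_of_one_le_of_one_le hQ (one_le_pow₀ hU1)) hS1
    have hneq : r.num * (r'.den : ℤ) ≠ r'.num * (r.den : ℤ) := by
      intro h
      apply hne
      rw [Rat.eq_iff_mul_eq_mul]
      exact h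
    have h4 := hcore (t : ℂ) (by rw [Complex.norm_real, Real.norm_eq_abs]; exact ht)
      (GG (comb q p P) r.num r.den) (GG (comb q' p' P') r'.num r'.den)
      (by rw [GG_natDegree _ _ _ r.den_pos, comb_natDegree q hq p P hP0]; exact hPD)
      (by rw [GG_natDegree _ _ _ r'.den_pos, comb_natDegree q' hq' p' P' hP0']; exact hPD')
      (fun j => GG_coeff_natDegree _ _ _ D (by rw [comb_natDegree q hq p P hP0]; exact hPD) j)
      (fun j => GG_coeff_natDegree _ _ _ D (by rw [comb_natDegree q' hq' p' P' hP0']; exact hPD') j)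
      (by rw [GG_natDegree _ _ _ r.den_pos, comb_natDegree q hq p P hP0]; omega)
      (GG_res _ _ (comb_ne q hq p P hP0) (comb_ne q' hq' p' P' hP0') _ _ _ _ hneq) H hH1 a1 b1
    rw [← abs_val2, ← abs_val2] at h4
    have h5 := h4.trans (max_le a2 b2)
    have hUD : 1 ≤ U ^ D := one_le_pow₀ hU1
    have h6 : (H * U ^ D) ^ (-κ₂) ≤ H ^ (-κ₀) * (U ^ D)⁻¹ := by
      rw [Real.mul_rpow (by linarith) (by positivity)]
      apply mul_le_mul
      · exact Real.rpow_le_rpow_of_exponent_le hH1 (neg_le_neg hκ₂κ)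
      · rw [← Real.rpow_neg_one]
        exact Real.rpow_le_rpow_of_exponent_le hUD (neg_le_neg hκ₂1)
      · positivity
      · positivity
    have e7 : Q * (N : ℝ) ^ κ₁ * S = H * U ^ D := by
      rw [hHE, ← hUm, hm]
      ring
    rw [e7]
    calc c * (H * U ^ D) ^ (-κ₂) ≤ c * (H ^ (-κ₀) * (U ^ D)⁻¹) := mul_le_mul_of_nonneg_left h6 hc.le
      _ = (c * H ^ (-κ₀)) * (U ^ D)⁻¹ := by ring
      _ ≤ (U ^ D * ε) * (U ^ D)⁻¹ := mul_le_mul_of_nonneg_right h5 (by positivity)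
      _ = ε := by field_simp)
  rcases hmain with h | h
  · exact hbad ((h M hNM hMA).mono (hNpos.trans hNM) hκle le_rfl)
  · exact hbad' ((h M' hNM' hMA').mono (hNpos.trans hNM') hκle le_rfl)

end Pool.Agent.Q29.Eqd
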