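import Pool.Agent.Q29.EqMain

set_option autoImplicit false

/-! # Uniform distribution of the multiples of the terms of a sequence for which Roth's theorem holds -/

namespace Pool.Agent.Q29.Eqd

open Finset Filter Topology

/-- Let `x n → β` be such that the rational numbers `p / q ≠ β` with `q ≤ C ^ n` satisfy
`|x n - p / q| > 1 / (q ^ 2 B ^ n)` for large `n`, for every `C` and every `B > 1`, and such that `β` is irrational or
`|x n - β| ≥ c / m ^ n`. Then the multiples of `x n` are uniformly distributed at the scales from `D ^ n` to `C ^ n`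
for every `D > m`. -/
theorem roth_good (x : ℕ → ℝ) (β m : ℝ) (hm : 1 ≤ m)
    (hR : ∀ C B : ℝ, 1 < B → ∃ n0 : ℕ, ∀ n : ℕ, n0 ≤ n → ∀ p q : ℤ, 1 ≤ q → (q : ℝ) ≤ C ^ n → (p : ℝ) / q ≠ β →
      1 / ((q : ℝ) ^ 2 * B ^ n) < |x n - p / q|)
    (hL : (∀ p q : ℤ, 1 ≤ q → (p : ℝ) / q ≠ β) ∨ ∃ c : ℝ, 0 < c ∧ ∃ n1 : ℕ, ∀ n : ℕ, n1 ≤ n → c / m ^ n ≤ |x n - β|)
    (K : ℕ) (D C : ℝ) (hD : m < D) (hC : 0 ≤ C) : ∃ κ : ℝ, 0 < κ ∧ ∃ n0 : ℕ, ∀ n : ℕ, n0 ≤ n → ∀ M : ℕ,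
      D ^ n ≤ (M : ℝ) → (M : ℝ) ≤ C ^ n → Good κ K M (x n) := by
  have hD1 : 1 < D := by linarith
  have hD0 : 0 < D := by linarith
  have hm0 : 0 < m := by linarith
  have hLD : 0 < Real.log D := Real.log_pos hD1
  have hLm : 0 ≤ Real.log m := Real.log_nonneg hm
  have hLL : Real.log m < Real.log D := Real.log_lt_log hm0 hD
  obtain ⟨δ, hδE⟩ : ∃ δ : ℝ, δ = min (1 / 8) ((Real.log D - Real.log m) / (2 * Real.log D)) := ⟨_, rfl⟩
  have hδ : 0 < δ := by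
    rw [hδE]
    exact lt_min (by norm_num) (div_pos (by linarith) (by positivity))
  have hδ8 : δ ≤ 1 / 8 := by rw [hδE]; exact min_le_left _ _
  have hδD : δ * Real.log D ≤ (Real.log D - Real.log m) / 2 := by
    have h1 : δ ≤ (Real.log D - Real.log m) / (2 * Real.log D) := by rw [hδE]; exact min_le_right _ _
    rw [le_div_iff₀ (by positivity)] at h1
    linarith
  obtain ⟨κ, hκ, hκ1, M₀, hM₀, hgood⟩ := engine K δ hδ (by linarith)
  obtain ⟨n0, hn0⟩ := hR (max C 1) (Real.sqrt D) (by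
    rw [show (1 : ℝ) = Real.sqrt 1 by simp]
    exact Real.sqrt_lt_sqrt (by norm_num) hD1)
  -- `D ^ n` is large
  have hlim : Tendsto (fun n : ℕ => D ^ n) atTop atTop := tendsto_pow_atTop_atTop_of_one_lt hD1
  obtain ⟨n2, hn2⟩ := (eventually_atTop.1 (hlim.eventually_ge_atTop (M₀ : ℝ)))
  -- `(m D ^ (δ - 1)) ^ n` is small
  have hρ : m * D ^ (δ - 1) < 1 := by
    have h1 : m * D ^ (δ - 1) = Real.exp (Real.log m + Real.log D * (δ - 1)) := by
      rw [Real.exp_add, Real.exp_log hm0, Real.rpow_def_of_pos hD0]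
    rw [h1, Real.exp_lt_one_iff]
    nlinarith
  have hρ0 : 0 < m * D ^ (δ - 1) := by positivity
  have hlim2 : Tendsto (fun n : ℕ => (m * D ^ (δ - 1)) ^ n) atTop (𝓝 0) :=
    tendsto_pow_atTop_nhds_zero_of_lt_one hρ0.le hρ
  have key : ∃ n3 : ℕ, ∀ n : ℕ, n3 ≤ n → ∀ M : ℕ, D ^ n ≤ (M : ℝ) → (M : ℝ) ≤ C ^ n → ∀ q : ℕ, 1 ≤ q →
      (q : ℝ) ≤ (M : ℝ) ^ δ → ∀ a : ℤ, |(q : ℝ) * x n - a| ≤ (M : ℝ) ^ (δ - 1) → (a : ℝ) / q ≠ β := by
    rcases hL with hL | ⟨c, hc, n1, hn1⟩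
    · exact ⟨0, fun n _ M _ _ q hq _ a _ => by
        have := hL a q (by exact_mod_cast hq)
        rwa [Int.cast_natCast] at this⟩
    · obtain ⟨n3, hn3⟩ := eventually_atTop.1 (hlim2.eventually_lt_const hc)
      refine ⟨max n1 n3, fun n hn M hDM hMC q hq hqM a ha heq => ?_⟩
      have h1 := hn1 n ((le_max_left _ _).trans hn)
      have h2 := hn3 n ((le_max_right _ _).trans hn)
      have hq1 : (1 : ℝ) ≤ q := by exact_mod_cast hq
      have hq0 : (0 : ℝ) < q := by linarith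
      have e1 : (q : ℝ) * x n - a = q * (x n - β) := by
        rw [← heq]
        field_simp
      rw [e1, abs_mul, Nat.abs_cast] at ha
      have h3 : c / m ^ n ≤ (M : ℝ) ^ (δ - 1) := by
        calc c / m ^ n ≤ |x n - β| := h1
          _ ≤ q * |x n - β| := le_mul_of_one_le_left (abs_nonneg _) hq1
          _ ≤ _ := ha
      have h4 : (M : ℝ) ^ (δ - 1) ≤ (D ^ (δ - 1)) ^ n := by
        calc (M : ℝ) ^ (δ - 1) ≤ (D ^ n) ^ (δ - 1) :=
              Real.rpow_le_rpow_of_nonpos (by positivity) hDM (by linarith)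
          _ = (D ^ (δ - 1)) ^ n := by
              rw [← Real.rpow_natCast, ← Real.rpow_natCast, ← Real.rpow_mul hD0.le, ← Real.rpow_mul hD0.le,
                mul_comm]
      have h5 : c ≤ (m * D ^ (δ - 1)) ^ n := by
        rw [div_le_iff₀ (by positivity)] at h3
        rw [mul_pow, mul_comm]
        exact h3.trans (mul_le_mul_of_nonneg_right h4 (by positivity))
      linarith
  obtain ⟨n3, hn3⟩ := key
  refine ⟨κ, hκ, max (max n0 n2) n3, fun n hn M hDM hMC => ?_⟩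
  have hn0' := hn0 n (((le_max_left _ _).trans (le_max_left _ _)).trans hn)
  have hn2' := hn2 n (((le_max_right _ _).trans (le_max_left _ _)).trans hn)
  have hn3' := hn3 n ((le_max_right _ _).trans hn) M hDM hMC
  have hM1 : (1 : ℝ) ≤ M := (one_le_pow₀ hD1.le).trans hDM
  have hM0 : (0 : ℝ) < M := by linarith
  refine hgood M (by exact_mod_cast hn2'.trans hDM) _ ?_
  rintro ⟨q, hq, hqM, a, ha⟩
  have hne := hn3' q hq hqM a ha
  have hq1 : (1 : ℝ) ≤ q := by exact_mod_cast hq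
  have hq0 : (0 : ℝ) < q := by linarith
  have hqC : (q : ℝ) ≤ (max C 1) ^ n := by
    calc (q : ℝ) ≤ (M : ℝ) ^ δ := hqM
      _ ≤ (M : ℝ) ^ (1 : ℝ) := Real.rpow_le_rpow_of_exponent_le hM1 (by linarith)
      _ = M := Real.rpow_one _
      _ ≤ max C 1 ^ n := hMC.trans (pow_le_pow_left₀ hC (le_max_left _ _) n)
  have h1 := hn0' a q (by exact_mod_cast hq) (by rw [Int.cast_natCast]; exact hqC) (by
    rw [Int.cast_natCast]; exact hne)
  rw [Int.cast_natCast] at h1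
  have e1 : |x n - a / q| = |(q : ℝ) * x n - a| / q := by
    rw [eq_div_iff hq0.ne', mul_comm, ← Nat.abs_cast q, ← abs_mul, Nat.abs_cast]
    congr 1
    field_simp
  rw [e1] at h1
  have h2 : 1 / ((q : ℝ) ^ 2 * Real.sqrt D ^ n) < (M : ℝ) ^ (δ - 1) / q :=
    h1.trans_le (div_le_div_of_nonneg_right ha hq0.le)
  have hB0 : 0 < Real.sqrt D ^ n := pow_pos (Real.sqrt_pos.2 hD0) n
  have h3 : 1 < (M : ℝ) ^ (δ - 1) * ((M : ℝ) ^ δ * Real.sqrt D ^ n) := by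
    rw [div_lt_div_iff₀ (by positivity) hq0] at h2
    have h4 : (1 : ℝ) * q < (M : ℝ) ^ (δ - 1) * (q * Real.sqrt D ^ n) * q := by
      calc (1 : ℝ) * q < (M : ℝ) ^ (δ - 1) * ((q : ℝ) ^ 2 * Real.sqrt D ^ n) := h2
        _ = _ := by ring
    have h5 := lt_of_mul_lt_mul_right h4 hq0.le
    refine h5.trans_le ?_
    exact mul_le_mul_of_nonneg_left (mul_le_mul_of_nonneg_right hqM hB0.le) (by positivity)
  have h4 : (M : ℝ) ^ (δ - 1) * (M : ℝ) ^ δ ≤ (D ^ n) ^ (-(1 / 2) : ℝ) := by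
    rw [← Real.rpow_add hM0]
    calc (M : ℝ) ^ (δ - 1 + δ) ≤ (M : ℝ) ^ (-(1 / 2) : ℝ) :=
          Real.rpow_le_rpow_of_exponent_le hM1 (by linarith)
      _ ≤ (D ^ n) ^ (-(1 / 2) : ℝ) := Real.rpow_le_rpow_of_nonpos (by positivity) hDM (by norm_num)
  have h5 : (D ^ n) ^ (-(1 / 2) : ℝ) * Real.sqrt D ^ n = 1 := by
    rw [Real.sqrt_eq_rpow, ← Real.rpow_natCast, ← Real.rpow_natCast, ← Real.rpow_mul hD0.le,
      ← Real.rpow_mul hD0.le, ← Real.rpow_add hD0]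
    rw [show (n : ℝ) * -(1 / 2) + 1 / 2 * n = 0 by ring, Real.rpow_zero]
  have h6 : (M : ℝ) ^ (δ - 1) * ((M : ℝ) ^ δ * Real.sqrt D ^ n) ≤ 1 := by
    calc (M : ℝ) ^ (δ - 1) * ((M : ℝ) ^ δ * Real.sqrt D ^ n) = (M : ℝ) ^ (δ - 1) * (M : ℝ) ^ δ * Real.sqrt D ^ n := by
          ring
      _ ≤ (D ^ n) ^ (-(1 / 2) : ℝ) * Real.sqrt D ^ n := mul_le_mul_of_nonneg_right h4 hB0.le
      _ = 1 := h5
  linarith

end Pool.Agent.Q29.Eqd
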