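import Pool.Agent.Q29.EqDir

set_option autoImplicit false

/-! # Uniform distribution of the multiples of one of finitely many numbers with a simultaneous measure -/

namespace Pool.Agent.Q29.Eqd

open Finset

theorem GoodRange.mono {x : ℝ} {K : ℕ} {A κ κ' : ℝ} {N : ℕ} (hN : 1 ≤ N) (h : GoodRange x K A κ N) (hκ : κ' ≤ κ) :
    GoodRange x K A κ' N :=
  fun M hNM hMA => (h M hNM hMA).mono (hN.trans hNM) hκ le_rfl

theorem simul_good' (T : Finset ℕ) (w : ℝ) (hw : 0 ≤ w) (z : ℕ → ℝ) (c : ℝ) (hc : 0 < c)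
    (h : ∀ q : ℕ, 1 ≤ q → ∀ a : ℕ → ℤ, ∃ j ∈ T, c ≤ (q : ℝ) ^ w * |(q : ℝ) * z j - a j|)
    (K : ℕ) (A : ℝ) (hA : 1 ≤ A) : ∃ κ : ℝ, 0 < κ ∧ ∃ N₀ : ℕ, 1 ≤ N₀ ∧ ∀ N : ℕ, N₀ ≤ N →
      ∃ j ∈ T, GoodRange (z j) K A κ N := by
  obtain ⟨κ, hκ, heng⟩ := multi_engine K ((T.card : ℝ) * (w + 1)) A (by positivity) hA
  obtain ⟨N₀, hN₀1, hN₀⟩ := heng c 1 hc one_pos
  refine ⟨κ, hκ, N₀, hN₀1, fun N hN => ?_⟩
  have hN1 : (1 : ℝ) ≤ N := by exact_mod_cast hN₀1.trans hN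
  obtain ⟨k, hk⟩ := hN₀ N hN (fun k : T => z k) (by
    intro Q ε hQ hε hε1 q hq hqQ p hp
    obtain ⟨r, hr⟩ : ∃ r : ℕ → ℕ,
        r = fun j => ∏ i ∈ (univ : Finset T).filter (fun i : T => (i : ℕ) ≠ j), q i := ⟨_, rfl⟩
    obtain ⟨D, hD⟩ : ∃ D : ℕ, D = ∏ i : T, q i := ⟨_, rfl⟩
    have hDr : ∀ k : T, D = q k * r k := by
      intro k
      rw [hD, hr, ← Finset.mul_prod_erase univ q (mem_univ k)]
      congr 1
      refine Finset.prod_congr ?_ fun _ _ => rfl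
      ext i
      simp only [mem_erase, mem_univ, and_true, mem_filter, true_and, ne_eq, Subtype.ext_iff]
    have hD0 : 0 < D := by
      rw [hD]
      exact Finset.prod_pos fun i _ => hq i
    have hDR : (0 : ℝ) < D := by exact_mod_cast hD0
    have hDQ : (D : ℝ) ≤ Q ^ T.card := by
      rw [hD]
      push_cast
      calc ∏ i : T, (q i : ℝ) ≤ ∏ _i : T, Q :=
            Finset.prod_le_prod (fun i _ => Nat.cast_nonneg _) fun i _ => hqQ i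
        _ = Q ^ T.card := by rw [Finset.prod_const, Finset.card_univ, Fintype.card_coe]
    obtain ⟨j, hj, hjm⟩ := h D hD0 (fun j => if hj : j ∈ T then p ⟨j, hj⟩ * r j else 0)
    simp only [dif_pos hj] at hjm
    have hqj : (1 : ℝ) ≤ q ⟨j, hj⟩ := by exact_mod_cast hq ⟨j, hj⟩
    have hD' : (D : ℝ) = q ⟨j, hj⟩ * r j := by
      have := hDr ⟨j, hj⟩
      exact_mod_cast this
    have hr0 : (0 : ℝ) ≤ r j := Nat.cast_nonneg _
    have hrD : (r j : ℝ) ≤ D := by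
      rw [hD']
      nlinarith
    have e1 : (D : ℝ) * z j - ((p ⟨j, hj⟩ * r j : ℤ) : ℝ) = r j * ((q ⟨j, hj⟩ : ℝ) * z j - p ⟨j, hj⟩) := by
      rw [hD']
      push_cast
      ring
    rw [e1, abs_mul, Nat.abs_cast] at hjm
    have h2 : (r j : ℝ) * |(q ⟨j, hj⟩ : ℝ) * z j - p ⟨j, hj⟩| ≤ D * ε :=
      mul_le_mul hrD (hp ⟨j, hj⟩) (abs_nonneg _) hDR.le
    have h3 : c ≤ (D : ℝ) ^ (w + 1) * ε := by
      rw [Real.rpow_add hDR, Real.rpow_one, mul_assoc]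
      exact hjm.trans (mul_le_mul_of_nonneg_left h2 (by positivity))
    have hQ0 : 0 < Q := by linarith
    have h4 : (D : ℝ) ^ (w + 1) ≤ Q ^ ((T.card : ℝ) * (w + 1)) := by
      rw [Real.rpow_mul hQ0.le, Real.rpow_natCast]
      exact Real.rpow_le_rpow hDR.le hDQ (by linarith)
    have h5 : c ≤ Q ^ ((T.card : ℝ) * (w + 1)) * ε := h3.trans (mul_le_mul_of_nonneg_right h4 hε)
    have h6 : (Q * (N : ℝ) ^ κ * 1) ^ (-((T.card : ℝ) * (w + 1))) ≤ Q ^ (-((T.card : ℝ) * (w + 1))) := by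
      apply Real.rpow_le_rpow_of_nonpos hQ0
      · rw [mul_one]
        exact le_mul_of_one_le_right (by linarith) (Real.one_le_rpow hN1 hκ.le)
      · have : 0 ≤ (T.card : ℝ) * (w + 1) := by positivity
        linarith
    refine (mul_le_mul_of_nonneg_left h6 hc.le).trans ?_
    rw [Real.rpow_neg hQ0.le, ← div_eq_mul_inv, div_le_iff₀ (by positivity)]
    linarith)
  exact ⟨k, k.2, hk⟩

theorem simul_good (T : Finset ℕ) (w : ℕ) (z : ℕ → ℝ) (c : ℝ) (hc : 0 < c)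
    (h : ∀ (a : ℕ → ℤ) (q : ℕ), 0 < q → ∃ j ∈ T, c / (q : ℝ) ^ w ≤ |z j - (a j : ℝ) / q|)
    (K : ℕ) (A : ℝ) (hA : 1 ≤ A) : ∃ κ : ℝ, 0 < κ ∧ ∃ N₀ : ℕ, ∀ N : ℕ, N₀ ≤ N →
      ∃ j ∈ T, GoodRange (z j) K A κ N := by
  obtain ⟨κ, hκ, N₀, -, h'⟩ := simul_good' T w (Nat.cast_nonneg _) z c hc (fun q hq a => by
    obtain ⟨j, hj, h1⟩ := h a q hq
    refine ⟨j, hj, ?_⟩
    have hq1 : (1 : ℝ) ≤ q := by exact_mod_cast hq
    have hq0 : (0 : ℝ) < q := by linarith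
    rw [div_le_iff₀ (by positivity)] at h1
    rw [Real.rpow_natCast]
    have e1 : |(q : ℝ) * z j - a j| = q * |z j - (a j : ℝ) / q| := by
      rw [← Nat.abs_cast q, ← abs_mul, Nat.abs_cast]
      congr 1
      field_simp
    rw [e1]
    have h2 : |z j - (a j : ℝ) / q| ≤ q * |z j - (a j : ℝ) / q| :=
      le_mul_of_one_le_left (abs_nonneg _) hq1
    calc c ≤ |z j - (a j : ℝ) / q| * (q : ℝ) ^ w := h1
      _ ≤ (q * |z j - (a j : ℝ) / q|) * (q : ℝ) ^ w := mul_le_mul_of_nonneg_right h2 (by positivity)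
      _ = _ := by ring) K A hA
  exact ⟨κ, hκ, N₀, h'⟩

end Pool.Agent.Q29.Eqd
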