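import Pool.Agent.Q29.EqSub

set_option autoImplicit false

/-! # Uniform distribution of the multiples of linear combinations: the exceptional linear equation -/

namespace Pool.Agent.Q29.Eqd

open Finset

theorem good_struct (E A : ℝ) (hE : 0 ≤ E) (hA : 1 ≤ A) (K : ℕ) : ∃ κ : ℝ, 0 < κ ∧
    ∀ {m r : ℕ} (θ : Fin m → ℝ) (c : ℝ), 0 < c →
    (∀ (t : Fin r → ℝ) (X : ℝ), 1 ≤ X → ∀ v : Fin (r + 1) → (Fin (m + 1) → ℤ) × (Fin r → ℤ),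
      LinearIndependent ℤ v → (∀ k, ‖v k‖ ≤ X) → ∃ k, c * X ^ (-E) ≤ |lval θ t (v k)|) →
    ∃ N₀ : ℕ, ∀ N : ℕ, N₀ ≤ N → ∀ t : Fin r → ℝ, ∃ W : Submodule ℚ ((Fin m → ℚ) × (Fin r → ℚ)),
      Module.finrank ℚ W ≤ r ∧ ∀ (a : Fin m → ℤ) (e : Fin r → ℤ),
      (∀ j, |(a j : ℝ)| ≤ (N : ℝ) ^ κ) → (∀ j, |(e j : ℝ)| ≤ (N : ℝ) ^ κ) → castv (a, e) ∉ W →
      GoodRange (∑ j, (a j : ℝ) * θ j + ∑ j, (e j : ℝ) * t j) K A κ N := by
  obtain ⟨κ, hκ, h⟩ := dir_good E A hE hA K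
  refine ⟨κ, hκ, fun {m r} θ c hc hm => ?_⟩
  obtain ⟨N₀, hN₀⟩ := h θ c hc hm
  refine ⟨N₀, fun N hN t => ?_⟩
  obtain ⟨B, hB⟩ : ∃ B : Set ((Fin m → ℚ) × (Fin r → ℚ)), B = {w | ∃ v : (Fin m → ℤ) × (Fin r → ℤ),
    castv v = w ∧ (∀ j, |(v.1 j : ℝ)| ≤ (N : ℝ) ^ κ) ∧ (∀ j, |(v.2 j : ℝ)| ≤ (N : ℝ) ^ κ) ∧
    ¬ GoodRange (∑ j, (v.1 j : ℝ) * θ j + ∑ j, (v.2 j : ℝ) * t j) K A κ N} := ⟨_, rfl⟩
  have hBm : ∀ w, w ∈ B ↔ ∃ v : (Fin m → ℤ) × (Fin r → ℤ),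
      castv v = w ∧ (∀ j, |(v.1 j : ℝ)| ≤ (N : ℝ) ^ κ) ∧ (∀ j, |(v.2 j : ℝ)| ≤ (N : ℝ) ^ κ) ∧
      ¬ GoodRange (∑ j, (v.1 j : ℝ) * θ j + ∑ j, (v.2 j : ℝ) * t j) K A κ N := fun w => by
    rw [hB, Set.mem_ofPred_eq]
  clear hB
  refine ⟨Submodule.span ℚ B, ?_, ?_⟩
  · by_contra hcon
    push Not at hcon
    obtain ⟨f, hf, -, hli⟩ := Submodule.exists_fun_fin_finrank_span_eq ℚ B
    have hle : r + 1 ≤ Module.finrank ℚ (Submodule.span ℚ B) := hcon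
    have hli' : LinearIndependent ℚ (fun k : Fin (r + 1) => f (Fin.castLE hle k)) :=
      hli.comp _ (Fin.castLE_injective hle)
    have hf' : ∀ k : Fin (r + 1), ∃ v : (Fin m → ℤ) × (Fin r → ℤ), castv v = f (Fin.castLE hle k) ∧
        (∀ j, |(v.1 j : ℝ)| ≤ (N : ℝ) ^ κ) ∧ (∀ j, |(v.2 j : ℝ)| ≤ (N : ℝ) ^ κ) ∧
        ¬ GoodRange (∑ j, (v.1 j : ℝ) * θ j + ∑ j, (v.2 j : ℝ) * t j) K A κ N := by
      intro k
      exact (hBm _).1 (hf (Fin.castLE hle k))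
    choose v hv hv1 hv2 hbad using hf'
    have hvli : LinearIndependent ℤ v := by
      apply castv_li
      have e1 : (fun k => castv (v k)) = fun k => f (Fin.castLE hle k) := funext hv
      rw [e1]
      exact hli'
    obtain ⟨k, hk⟩ := hN₀ N hN t (fun k => (v k).1) (fun k => (v k).2) hvli hv1 hv2
    exact hbad k hk
  · intro a e ha he hW
    by_contra hbad
    apply hW
    apply Submodule.subset_span
    rw [hBm]
    exact ⟨(a, e), rfl, ha, he, hbad⟩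

/-- the version with a linear equation -/
theorem good_eq (E A : ℝ) (hE : 0 ≤ E) (hA : 1 ≤ A) (K : ℕ) : ∃ κ : ℝ, 0 < κ ∧
    ∀ {m r : ℕ} (θ : Fin m → ℝ) (c : ℝ), 1 ≤ m → 0 < c →
    (∀ (t : Fin r → ℝ) (X : ℝ), 1 ≤ X → ∀ v : Fin (r + 1) → (Fin (m + 1) → ℤ) × (Fin r → ℤ),
      LinearIndependent ℤ v → (∀ k, ‖v k‖ ≤ X) → ∃ k, c * X ^ (-E) ≤ |lval θ t (v k)|) →
    ∃ N₀ : ℕ, ∀ N : ℕ, N₀ ≤ N → ∀ t : Fin r → ℝ, ∃ (u : Fin m → ℚ) (w : Fin r → ℚ), (u, w) ≠ 0 ∧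
      ∀ (a : Fin m → ℤ) (e : Fin r → ℤ),
      (∀ j, |(a j : ℝ)| ≤ (N : ℝ) ^ κ) → (∀ j, |(e j : ℝ)| ≤ (N : ℝ) ^ κ) →
      ∑ j, u j * a j + ∑ j, w j * e j ≠ 0 →
      GoodRange (∑ j, (a j : ℝ) * θ j + ∑ j, (e j : ℝ) * t j) K A κ N := by
  obtain ⟨κ, hκ, h⟩ := good_struct E A hE hA K
  refine ⟨κ, hκ, fun {m r} θ c hm1 hc hm => ?_⟩
  obtain ⟨N₀, hN₀⟩ := h θ c hc hm
  refine ⟨N₀, fun N hN t => ?_⟩
  obtain ⟨W, hW, hW2⟩ := hN₀ N hN t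
  have hWtop : W < ⊤ := by
    rw [lt_top_iff_ne_top]
    rintro rfl
    rw [finrank_top, Module.finrank_prod, Module.finrank_fin_fun, Module.finrank_fin_fun] at hW
    omega
  obtain ⟨f, hf0, hf⟩ := Submodule.exists_le_ker_of_lt_top W hWtop
  have hfv : ∀ (a : Fin m → ℚ) (e : Fin r → ℚ), f (a, e) =
      ∑ j, f (Pi.single j 1, 0) * a j + ∑ j, f (0, Pi.single j 1) * e j := by
    intro a e
    have e1 : ((a, e) : (Fin m → ℚ) × (Fin r → ℚ)) = (∑ j, a j • ((Pi.single j 1, 0) : (Fin m → ℚ) × (Fin r → ℚ))) +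
        ∑ j, e j • ((0, Pi.single j 1) : (Fin m → ℚ) × (Fin r → ℚ)) := by
      rw [Prod.ext_iff]
      constructor
      · rw [Prod.fst_add, Prod.fst_sum, Prod.fst_sum]
        funext i
        simp [Pi.single_apply]
      · rw [Prod.snd_add, Prod.snd_sum, Prod.snd_sum]
        funext i
        simp [Pi.single_apply]
    rw [e1, map_add, map_sum, map_sum]
    congr 1
    · refine Finset.sum_congr rfl fun j _ => ?_
      rw [map_smul, smul_eq_mul, mul_comm]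
    · refine Finset.sum_congr rfl fun j _ => ?_
      rw [map_smul, smul_eq_mul, mul_comm]
  refine ⟨fun j => f (Pi.single j 1, 0), fun j => f (0, Pi.single j 1), ?_, fun a e ha he hne => ?_⟩
  · intro h0
    apply hf0
    rw [Prod.ext_iff] at h0
    apply LinearMap.ext
    rintro ⟨a, e⟩
    rw [hfv]
    have h1 : ∀ j, f (Pi.single j 1, 0) = 0 := fun j => congrFun h0.1 j
    have h2 : ∀ j, f (0, Pi.single j 1) = 0 := fun j => congrFun h0.2 j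
    simp [h1, h2]
  · apply hW2 a e ha he
    intro hmem
    apply hne
    have h1 := hf hmem
    rw [LinearMap.mem_ker] at h1
    unfold castv at h1
    rw [hfv] at h1
    exact h1

end Pool.Agent.Q29.Eqd
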