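import Pool.Agent.Q29.EqDir
import Pool.Agent.Q29.EqJointEng

set_option autoImplicit false

/-! # Joint uniform distribution of the multiples of linear combinations: the exceptional subspace -/

namespace Pool.Agent.Q29.Eqd

open Finset

theorem Joint.mono {κ κ' : ℝ} {K M s : ℕ} {x : Fin s → ℝ} (hM : 1 ≤ M) (h : Joint κ K M x) (hκ : κ' ≤ κ) :
    Joint κ' K M x := by
  have hM1 : (1 : ℝ) ≤ M := by exact_mod_cast hM
  have h1 : (M : ℝ) ^ κ' ≤ (M : ℝ) ^ κ := Real.rpow_le_rpow_of_exponent_le hM1 hκ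
  have h2 : (M : ℝ) ^ (1 - κ) ≤ (M : ℝ) ^ (1 - κ') := Real.rpow_le_rpow_of_exponent_le hM1 (by linarith)
  exact ⟨fun k hk hkK R hR => (h.1 k hk hkK R hR).mono h1 h2,
    fun d r hd hdM β => (h.2 d r hd (hdM.trans h1) β).mono h1 h2⟩

/-- the rational vector of an integer vector -/
def castv {m r : ℕ} (v : (Fin m → ℤ) × (Fin r → ℤ)) : (Fin m → ℚ) × (Fin r → ℚ) :=
  (fun j => (v.1 j : ℚ), fun j => (v.2 j : ℚ))

theorem castv_li {m r n : ℕ} (v : Fin n → (Fin m → ℤ) × (Fin r → ℤ))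
    (h : LinearIndependent ℚ (fun k => castv (v k))) : LinearIndependent ℤ v := by
  rw [Fintype.linearIndependent_iff] at h ⊢
  intro g hg k
  have h1 := h (fun k => (g k : ℚ)) (by
    rw [Prod.ext_iff] at hg ⊢
    obtain ⟨hg1, hg2⟩ := hg
    rw [Prod.fst_sum] at hg1
    rw [Prod.snd_sum] at hg2
    rw [Prod.fst_sum, Prod.snd_sum]
    constructor
    · funext j
      have h2 := congrFun hg1 j
      rw [Finset.sum_apply] at h2 ⊢
      simp only [Prod.smul_fst, Pi.smul_apply, smul_eq_mul, Prod.fst_zero, Pi.zero_apply, castv] at h2 ⊢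
      exact_mod_cast h2
    · funext j
      have h2 := congrFun hg2 j
      rw [Finset.sum_apply] at h2 ⊢
      simp only [Prod.smul_snd, Pi.smul_apply, smul_eq_mul, Prod.snd_zero, Pi.zero_apply, castv] at h2 ⊢
      exact_mod_cast h2) k
  exact_mod_cast h1

theorem joint_struct (E A : ℝ) (hE : 0 ≤ E) (hA : 1 ≤ A) (s : ℕ) (hs : 1 ≤ s) (K : ℕ) : ∃ κ : ℝ, 0 < κ ∧
    ∀ {m r : ℕ} (θ : Fin m → ℝ) (c : ℝ), 0 < c →
    (∀ (t : Fin r → ℝ) (X : ℝ), 1 ≤ X → ∀ v : Fin (r + 1) → (Fin (m + 1) → ℤ) × (Fin r → ℤ),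
      LinearIndependent ℤ v → (∀ k, ‖v k‖ ≤ X) → ∃ k, c * X ^ (-E) ≤ |lval θ t (v k)|) →
    ∃ N₀ : ℕ, ∀ N : ℕ, N₀ ≤ N → ∀ t : Fin r → ℝ, ∃ W : Submodule ℚ ((Fin m → ℚ) × (Fin r → ℚ)),
      Module.finrank ℚ W ≤ r ∧ ∀ (a : Fin s → Fin m → ℤ) (e : Fin s → Fin r → ℤ),
      (∀ i j, |(a i j : ℝ)| ≤ (N : ℝ) ^ κ) → (∀ i j, |(e i j : ℝ)| ≤ (N : ℝ) ^ κ) →
      (∀ l : Fin s → ℤ, l ≠ 0 → castv (fun j => ∑ i, l i * a i j, fun j => ∑ i, l i * e i j) ∉ W) →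
      ∀ M : ℕ, N ≤ M → (M : ℝ) ≤ (N : ℝ) ^ A →
        Joint κ K M (fun i => ∑ j, (a i j : ℝ) * θ j + ∑ j, (e i j : ℝ) * t j) := by
  obtain ⟨δ, hδE⟩ : ∃ δ : ℝ, δ = 1 / (4 * (A + 1) * (E + 1)) := ⟨_, rfl⟩
  have hδ : 0 < δ := by rw [hδE]; positivity
  have hδ8 : δ ≤ 1 / 8 := by
    rw [hδE]
    apply one_div_le_one_div_of_le (by norm_num)
    nlinarith
  have hδA : (A * δ + δ) * E ≤ 1 / 4 := by
    have e1 : (A * δ + δ) * (E + 1) = 1 / 4 := by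
      rw [hδE]
      field_simp
    nlinarith
  obtain ⟨δ₂, hδ₂E⟩ : ∃ δ₂ : ℝ, δ₂ = δ / (4 * A) := ⟨_, rfl⟩
  have hδ₂ : 0 < δ₂ := by rw [hδ₂E]; positivity
  have hAδ₂ : A * δ₂ = δ / 4 := by rw [hδ₂E]; field_simp
  have hδ₂δ : δ₂ ≤ δ := by nlinarith
  obtain ⟨κ₁, hκ₁, M₀, hM₀2, hjoint⟩ := joint_engine s hs K δ₂ hδ₂ (by linarith)
  refine ⟨min κ₁ (δ / 4), lt_min hκ₁ (by positivity), fun {m r} θ c hc hm => ?_⟩
  obtain ⟨S, hS⟩ : ∃ S : ℝ, S = (∑ j, |θ j|) + r + 2 := ⟨_, rfl⟩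
  have hθ0 : 0 ≤ ∑ j, |θ j| := Finset.sum_nonneg fun j _ => abs_nonneg _
  have hS2 : 2 ≤ S := by
    rw [hS]
    have : (0 : ℝ) ≤ r := Nat.cast_nonneg _
    linarith
  have hS0 : 0 < S := by linarith
  obtain ⟨M₁, hM₁, hbig⟩ := ev_rpow (1 / 2) (2 * (S ^ E / c)) (by norm_num)
  obtain ⟨M₂, hM₂, hbig2⟩ := ev_rpow (δ / 2) s (by positivity)
  refine ⟨max M₀ (max M₁ M₂), fun N hN t => ?_⟩
  have hNM₀ : M₀ ≤ N := (le_max_left _ _).trans hN
  have hNM₁ : M₁ ≤ N := (le_max_left _ _).trans ((le_max_right _ _).trans hN)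
  have hNM₂ : M₂ ≤ N := (le_max_right _ _).trans ((le_max_right _ _).trans hN)
  have hNpos : 1 ≤ N := hM₁.trans hNM₁
  have hN1 : (1 : ℝ) ≤ N := by exact_mod_cast hNpos
  have hN0 : (0 : ℝ) < N := by linarith
  have hbigN := hbig N hNM₁
  have hbigN2 := hbig2 N hNM₂
  -- the bad directions
  obtain ⟨x, hx⟩ : ∃ x : (Fin m → ℤ) × (Fin r → ℤ) → ℝ,
    x = fun v => ∑ j, (v.1 j : ℝ) * θ j + ∑ j, (v.2 j : ℝ) * t j := ⟨_, rfl⟩
  obtain ⟨B, hB⟩ : ∃ B : Set ((Fin m → ℚ) × (Fin r → ℚ)), B = {w | ∃ v : (Fin m → ℤ) × (Fin r → ℤ),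
    castv v = w ∧ (∀ j, |(v.1 j : ℝ)| ≤ (N : ℝ) ^ δ) ∧ (∀ j, |(v.2 j : ℝ)| ≤ (N : ℝ) ^ δ) ∧
    ∃ M : ℕ, N ≤ M ∧ (M : ℝ) ≤ (N : ℝ) ^ A ∧ Res δ M (x v)} := ⟨_, rfl⟩
  have hBm : ∀ w, w ∈ B ↔ ∃ v : (Fin m → ℤ) × (Fin r → ℤ),
      castv v = w ∧ (∀ j, |(v.1 j : ℝ)| ≤ (N : ℝ) ^ δ) ∧ (∀ j, |(v.2 j : ℝ)| ≤ (N : ℝ) ^ δ) ∧
      ∃ M : ℕ, N ≤ M ∧ (M : ℝ) ≤ (N : ℝ) ^ A ∧ Res δ M (x v) := fun w => by rw [hB, Set.mem_ofPred_eq]
  clear hB
  refine ⟨Submodule.span ℚ B, ?_, ?_⟩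
  · by_contra hcon
    push Not at hcon
    obtain ⟨f, hf, -, hli⟩ := Submodule.exists_fun_fin_finrank_span_eq ℚ B
    have hle : r + 1 ≤ Module.finrank ℚ (Submodule.span ℚ B) := hcon
    have hli' : LinearIndependent ℚ (fun k : Fin (r + 1) => f (Fin.castLE hle k)) :=
      hli.comp _ (Fin.castLE_injective hle)
    have hf' : ∀ k : Fin (r + 1), ∃ v : (Fin m → ℤ) × (Fin r → ℤ), castv v = f (Fin.castLE hle k) ∧
        (∀ j, |(v.1 j : ℝ)| ≤ (N : ℝ) ^ δ) ∧ (∀ j, |(v.2 j : ℝ)| ≤ (N : ℝ) ^ δ) ∧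
        ∃ M : ℕ, N ≤ M ∧ (M : ℝ) ≤ (N : ℝ) ^ A ∧ Res δ M (x v) := by
      intro k
      exact (hBm _).1 (hf (Fin.castLE hle k))
    choose v hv hv1 hv2 M hNM hMA hres using hf'
    have hvli : LinearIndependent ℤ v := by
      apply castv_li
      have e1 : (fun k => castv (v k)) = fun k => f (Fin.castLE hle k) := funext hv
      rw [e1]
      exact hli'
    choose q hq hqM p hp using hres
    have h2 := dir_bound E θ c hm S hS ((N : ℝ) ^ δ) ((N : ℝ) ^ (A * δ)) ((N : ℝ) ^ (δ - 1))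
      (Real.one_le_rpow hN1 hδ.le) (Real.one_le_rpow hN1 (by positivity))
      (Real.rpow_le_one_of_one_le_of_nonpos hN1 (by linarith)) t (fun k => (v k).1) (fun k => (v k).2)
      hvli hv1 hv2 q hq (fun k => by
        refine (hqM k).trans ?_
        rw [Real.rpow_mul hN0.le]
        exact Real.rpow_le_rpow (by positivity) (hMA k) hδ.le) p (fun k => by
        have h3 := hp k
        rw [hx] at h3
        refine h3.trans ?_
        apply Real.rpow_le_rpow_of_nonpos hN0 (by exact_mod_cast hNM k) (by linarith))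
    have h2' : c * ((N : ℝ) ^ (A * δ + δ) * S) ^ (-E) ≤ (N : ℝ) ^ (δ - 1) := by
      rw [Real.rpow_add hN0]
      exact h2
    rw [Real.mul_rpow (by positivity) hS0.le, ← Real.rpow_mul hN0.le, Real.rpow_neg hS0.le] at h2'
    have hSκ : 0 < S ^ E := by positivity
    have h3 : c ≤ S ^ E * (N : ℝ) ^ ((A * δ + δ) * E + (δ - 1)) := by
      have e1 : c = (c * ((N : ℝ) ^ ((A * δ + δ) * -E) * (S ^ E)⁻¹)) * ((N : ℝ) ^ ((A * δ + δ) * E) * S ^ E) := by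
        have e2 : (N : ℝ) ^ ((A * δ + δ) * -E) * (N : ℝ) ^ ((A * δ + δ) * E) = 1 := by
          rw [← Real.rpow_add hN0, show (A * δ + δ) * -E + (A * δ + δ) * E = 0 by ring, Real.rpow_zero]
        calc c = c * ((N : ℝ) ^ ((A * δ + δ) * -E) * (N : ℝ) ^ ((A * δ + δ) * E)) * ((S ^ E)⁻¹ * S ^ E) := by
              rw [e2, inv_mul_cancel₀ hSκ.ne']
              ring
          _ = _ := by ring
      rw [e1]
      calc (c * ((N : ℝ) ^ ((A * δ + δ) * -E) * (S ^ E)⁻¹)) * ((N : ℝ) ^ ((A * δ + δ) * E) * S ^ E)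
          ≤ (N : ℝ) ^ (δ - 1) * ((N : ℝ) ^ ((A * δ + δ) * E) * S ^ E) :=
            mul_le_mul_of_nonneg_right h2' (by positivity)
        _ = _ := by
            rw [Real.rpow_add hN0]
            ring
    have h4 : (N : ℝ) ^ ((A * δ + δ) * E + (δ - 1)) ≤ (N : ℝ) ^ (-(1 / 2) : ℝ) :=
      Real.rpow_le_rpow_of_exponent_le hN1 (by linarith)
    have h5 : c * (N : ℝ) ^ (1 / 2 : ℝ) ≤ S ^ E := by
      have e3 : (N : ℝ) ^ (-(1 / 2) : ℝ) * (N : ℝ) ^ (1 / 2 : ℝ) = 1 := by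
        rw [← Real.rpow_add hN0]
        norm_num
      calc c * (N : ℝ) ^ (1 / 2 : ℝ) ≤ (S ^ E * (N : ℝ) ^ (-(1 / 2) : ℝ)) * (N : ℝ) ^ (1 / 2 : ℝ) := by
            apply mul_le_mul_of_nonneg_right _ (by positivity)
            exact h3.trans (mul_le_mul_of_nonneg_left h4 hSκ.le)
        _ = S ^ E := by rw [mul_assoc, e3, mul_one]
    have h6 : 2 * S ^ E ≤ c * (N : ℝ) ^ (1 / 2 : ℝ) := by
      calc 2 * S ^ E = c * (2 * (S ^ E / c)) := by field_simp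
        _ ≤ _ := mul_le_mul_of_nonneg_left hbigN hc.le
    linarith
  · intro a e ha he hl M hNM hMA
    have hMpos : 1 ≤ M := hNpos.trans hNM
    refine (hjoint M (hNM₀.trans hNM) _ ?_).mono hMpos (min_le_left _ _)
    intro l hl0 _ hlM hres
    have hlN : ∀ j, |(l j : ℝ)| ≤ (N : ℝ) ^ (δ / 4) := by
      intro j
      refine (hlM j).trans ?_
      rw [← hAδ₂, Real.rpow_mul hN0.le]
      exact Real.rpow_le_rpow (by positivity) hMA hδ₂.le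
    have hκδ : (N : ℝ) ^ (min κ₁ (δ / 4)) ≤ (N : ℝ) ^ (δ / 4) :=
      Real.rpow_le_rpow_of_exponent_le hN1 (min_le_right _ _)
    have hcomb : ∀ z : Fin s → ℤ, (∀ i, |(z i : ℝ)| ≤ (N : ℝ) ^ (min κ₁ (δ / 4))) →
        |((∑ i, l i * z i : ℤ) : ℝ)| ≤ (N : ℝ) ^ δ := by
      intro z hz
      push_cast
      calc |∑ i, (l i : ℝ) * z i| ≤ ∑ i, |(l i : ℝ) * z i| := Finset.abs_sum_le_sum_abs _ _
        _ ≤ ∑ _i : Fin s, (N : ℝ) ^ (δ / 4) * (N : ℝ) ^ (δ / 4) := by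
            refine Finset.sum_le_sum fun i _ => ?_
            rw [abs_mul]
            exact mul_le_mul (hlN i) ((hz i).trans hκδ) (abs_nonneg _) (by positivity)
        _ = s * (N : ℝ) ^ (δ / 2) := by
            rw [Finset.sum_const, Finset.card_univ, Fintype.card_fin, nsmul_eq_mul, ← Real.rpow_add hN0]
            congr 2
            ring
        _ ≤ (N : ℝ) ^ (δ / 2) * (N : ℝ) ^ (δ / 2) := mul_le_mul_of_nonneg_right hbigN2 (by positivity)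
        _ = (N : ℝ) ^ δ := by
            rw [← Real.rpow_add hN0]
            congr 1
            ring
    apply hl l hl0
    apply Submodule.subset_span
    rw [hBm]
    refine ⟨_, rfl, fun j => hcomb _ fun i => ha i j, fun j => hcomb _ fun i => he i j, M, hNM, hMA, ?_⟩
    have e1 : x (fun j => ∑ i, l i * a i j, fun j => ∑ i, l i * e i j) =
        ∑ i, (l i : ℝ) * (∑ j, (a i j : ℝ) * θ j + ∑ j, (e i j : ℝ) * t j) := by
      rw [hx]
      simp only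
      push_cast
      simp only [Finset.sum_mul, mul_add, Finset.mul_sum, Finset.sum_add_distrib]
      congr 1
      · rw [Finset.sum_comm]
        exact Finset.sum_congr rfl fun i _ => Finset.sum_congr rfl fun j _ => by ring
      · rw [Finset.sum_comm]
        exact Finset.sum_congr rfl fun i _ => Finset.sum_congr rfl fun j _ => by ring
    rw [e1]
    exact hres.mono (by exact_mod_cast hMpos) hδ₂δ

end Pool.Agent.Q29.Eqd
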