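import Pool.Agent.Q29.EqDisc
import Pool.Agent.H373R2.NB.Weyl

set_option autoImplicit false

/-! # Numbers without good rational approximation at a scale: values of polynomials -/

namespace Pool.Agent.Q29.Eqd

open Finset Polynomial
open Pool.Agent.H469R2.NK (e norm_e e_add)
open Pool.Agent.H373R2.NB (Ph IW IW_all)

/-- The number `x` has a good rational approximation at the scale `M`: there is an integer
`1 ≤ q ≤ M ^ δ` with `q x` at distance at most `M ^ (δ - 1)` from an integer. -/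
def Res (δ M x : ℝ) : Prop :=
  ∃ q : ℕ, 1 ≤ q ∧ (q : ℝ) ≤ M ^ δ ∧ ∃ a : ℤ, |(q : ℝ) * x - a| ≤ M ^ (δ - 1)

theorem Res.mono {δ δ' M x : ℝ} (hM : 1 ≤ M) (h : δ ≤ δ') (hr : Res δ M x) : Res δ' M x := by
  obtain ⟨q, h1, h2, a, h3⟩ := hr
  exact ⟨q, h1, h2.trans (Real.rpow_le_rpow_of_exponent_le hM h), a,
    h3.trans (Real.rpow_le_rpow_of_exponent_le hM (by linarith))⟩

/-- real polynomials are polynomial phases -/
theorem ph_poly (d : ℕ) : ∀ f : ℝ[X], f.natDegree ≤ d →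
    Ph d ((d.factorial : ℝ) * f.coeff d) (fun n => f.eval (n : ℝ)) := by
  induction d with
  | zero =>
    intro f hf n
    have h1 : f = C (f.coeff 0) := eq_C_of_natDegree_le_zero hf
    show f.eval (n : ℝ) = _
    conv_lhs => rw [h1]
    rw [eval_C]
    simp
  | succ d ih =>
    intro f hf h
    set g : ℝ[X] := taylor (h : ℝ) f - f with hg
    have hcoef : ∀ j, d ≤ j → (taylor (h : ℝ) f).coeff j = f.coeff j + (if j = d then ((d : ℝ) + 1) * f.coeff (d + 1) * h else 0) := by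
      intro j hj
      rw [taylor_coeff]
      have h1 : (hasseDeriv j f).natDegree < 2 := by
        have := natDegree_hasseDeriv_le f j
        omega
      rw [eval_eq_sum_range' h1, sum_range_succ, sum_range_succ, sum_range_zero, hasseDeriv_coeff, hasseDeriv_coeff]
      rcases eq_or_ne j d with h2 | h2
      · subst h2
        rw [if_pos rfl, zero_add, zero_add, Nat.choose_self, add_comm 1 j, Nat.choose_succ_self_right]
        push_cast
        ring
      · rw [if_neg h2]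
        have h3 : f.coeff (1 + j) = 0 := coeff_eq_zero_of_natDegree_lt (by omega)
        rw [h3, zero_add, zero_add, Nat.choose_self]
        push_cast
        ring
    have hgd : g.natDegree ≤ d := by
      rw [natDegree_le_iff_coeff_eq_zero]
      intro j hj
      rw [hg, coeff_sub, hcoef j (by omega), if_neg (by omega)]
      ring
    have hgc : g.coeff d = ((d : ℝ) + 1) * f.coeff (d + 1) * h := by
      rw [hg, coeff_sub, hcoef d le_rfl, if_pos rfl]; ring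
    have h1 := ih g hgd
    have h2 : (fun n : ℕ => g.eval (n : ℝ)) = fun n : ℕ => f.eval ((n + h : ℕ) : ℝ) - f.eval (n : ℝ) := by
      funext n
      rw [hg, eval_sub, taylor_eval]
      push_cast
      ring
    have h3 : (d.factorial : ℝ) * g.coeff d = h * (((d + 1).factorial : ℝ) * f.coeff (d + 1)) := by
      rw [hgc, Nat.factorial_succ]
      push_cast
      ring
    rw [h2, h3] at h1
    exact h1

theorem ee_eq (x : ℝ) : Pool.Agent.Helper602.MK.ee x = e x := by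
  unfold Pool.Agent.Helper602.MK.ee Pool.Agent.H469R2.NK.e
  congr 1
  push_cast
  ring

/-- the sums of Weyl, one degree -/
theorem weyl_one (k : ℕ) (hk : 1 ≤ k) (δ : ℝ) (hδ : 0 < δ) : ∃ κ : ℝ, 0 < κ ∧ ∃ M₀ : ℕ, 1 ≤ M₀ ∧
    ∀ M : ℕ, M₀ ≤ M → ∀ x : ℝ, ¬ Res δ M x → ∀ b : ℤ, b ≠ 0 → |(b : ℝ)| ≤ (M : ℝ) ^ κ →
    ∀ R : ℝ[X], R.degree < k →
    ‖∑ n ∈ range M, e (b * x * (n : ℝ) ^ k + R.eval (n : ℝ))‖ ≤ (M : ℝ) ^ (1 - κ) := by
  obtain ⟨c, m, hc, hI⟩ := IW_all k hk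
  have hm0 : (0 : ℝ) ≤ m := Nat.cast_nonneg m
  obtain ⟨κ, hκE⟩ : ∃ κ : ℝ, κ = δ / (2 * (m + 1)) := ⟨_, rfl⟩
  have hκ : 0 < κ := by rw [hκE]; positivity
  have hκm : κ * (m + 1) = δ / 2 := by rw [hκE]; field_simp
  obtain ⟨M₀, hM₀1, hM₀⟩ := ev_rpow (δ / 2) (c * k.factorial) (by positivity)
  refine ⟨κ, hκ, M₀, hM₀1, fun M hM x hx b hb hbM R hR => ?_⟩
  by_contra hcon
  push Not at hcon
  apply hx
  have hc0 : (0 : ℝ) < c := by exact_mod_cast hc
  have hf0 : (0 : ℝ) < k.factorial := by exact_mod_cast k.factorial_pos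
  have hf1 : (1 : ℝ) ≤ k.factorial := by exact_mod_cast k.factorial_pos
  have hMpos : 1 ≤ M := hM₀1.trans hM
  have hM1 : (1 : ℝ) ≤ M := by exact_mod_cast hMpos
  have hM0 : (0 : ℝ) < M := by linarith
  have hcM := hM₀ M hM
  obtain ⟨f, hf⟩ : ∃ f : ℝ[X], f = C (b * x) * X ^ k + R := ⟨_, rfl⟩
  have hRk : R.coeff k = 0 := coeff_eq_zero_of_degree_lt hR
  have hRn : R.natDegree ≤ k := natDegree_le_of_degree_le hR.le
  have hfn : f.natDegree ≤ k := by
    rw [hf]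
    exact natDegree_add_le_of_degree_le (natDegree_C_mul_X_pow_le _ _) hRn
  have hfc : f.coeff k = b * x := by
    rw [hf, coeff_add, coeff_C_mul_X_pow, if_pos rfl, hRk, add_zero]
  have hph := ph_poly k f hfn
  rw [hfc] at hph
  have hsum : ∑ n ∈ range M, Pool.Agent.Helper602.MK.ee (f.eval (n : ℝ)) =
      ∑ n ∈ range M, e (b * x * (n : ℝ) ^ k + R.eval (n : ℝ)) := by
    refine sum_congr rfl fun n _ => ?_
    rw [ee_eq, hf]
    simp
  have hu : (1 : ℝ) ≤ (M : ℝ) ^ κ := Real.one_le_rpow hM1 hκ.le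
  obtain ⟨q, hq, hqM, a, ha⟩ := hI M ((M : ℝ) ^ κ) _ _ hMpos hu hph (by
    rw [hsum]
    have h1 : (M : ℝ) = (M : ℝ) ^ κ * (M : ℝ) ^ (1 - κ) := by
      rw [← Real.rpow_add hM0, show κ + (1 - κ) = 1 by ring, Real.rpow_one]
    calc (M : ℝ) = (M : ℝ) ^ κ * (M : ℝ) ^ (1 - κ) := h1
      _ ≤ _ := mul_le_mul_of_nonneg_left hcon.le (by positivity))
  have hpow : ((M : ℝ) ^ κ) ^ m * (M : ℝ) ^ κ = (M : ℝ) ^ (δ / 2) := by
    rw [← Real.rpow_natCast, ← Real.rpow_mul hM0.le, ← Real.rpow_add hM0, ← hκm]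
    congr 1
    ring
  have hpos : 0 < ((M : ℝ) ^ κ) ^ m := by positivity
  have hhalf : (M : ℝ) ^ (δ / 2) * (M : ℝ) ^ (δ / 2) = (M : ℝ) ^ δ := by
    rw [← Real.rpow_add hM0]
    congr 1
    ring
  have hbabs : ((b.natAbs : ℕ) : ℝ) = |(b : ℝ)| := by
    rw [← Int.cast_abs, Int.abs_eq_natAbs]
    simp
  have hbn : 1 ≤ b.natAbs := Int.natAbs_pos.2 hb
  refine ⟨q * (k.factorial * b.natAbs), Nat.mul_pos hq (Nat.mul_pos k.factorial_pos hbn), ?_, ?_⟩
  · push_cast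
    rw [hbabs]
    calc (q : ℝ) * (k.factorial * |(b : ℝ)|) ≤ (c * ((M : ℝ) ^ κ) ^ m) * (k.factorial * (M : ℝ) ^ κ) := by
          gcongr
      _ = (c * k.factorial) * (((M : ℝ) ^ κ) ^ m * (M : ℝ) ^ κ) := by ring
      _ ≤ (M : ℝ) ^ (δ / 2) * (M : ℝ) ^ (δ / 2) := by
          rw [hpow]
          gcongr
      _ = _ := hhalf
  · have hle : (c : ℝ) * ((M : ℝ) ^ κ) ^ m / (M : ℝ) ^ k ≤ (M : ℝ) ^ (δ - 1) := by
      have h1 : (c : ℝ) * ((M : ℝ) ^ κ) ^ m ≤ (M : ℝ) ^ δ := by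
        rw [← hhalf]
        calc (c : ℝ) * ((M : ℝ) ^ κ) ^ m ≤ (c * k.factorial) * (((M : ℝ) ^ κ) ^ m * (M : ℝ) ^ κ) := by
              have e1 : (c : ℝ) * ((M : ℝ) ^ κ) ^ m = (c * 1) * (((M : ℝ) ^ κ) ^ m * 1) := by ring
              rw [e1]
              gcongr
          _ ≤ _ := by
              rw [hpow]
              gcongr
      rw [Real.rpow_sub hM0, Real.rpow_one]
      apply div_le_div₀ (by positivity) h1 hM0
      exact le_self_pow₀ hM1 (by omega)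
    rcases le_or_gt 0 b with hbe | hbe
    · refine ⟨a, ?_⟩
      have hb' : ((b.natAbs : ℕ) : ℝ) = b := by rw [hbabs, abs_of_nonneg (by exact_mod_cast hbe)]
      have e1 : ((q * (k.factorial * b.natAbs) : ℕ) : ℝ) * x - a = q * (k.factorial * (b * x)) - a := by
        rw [Nat.cast_mul, Nat.cast_mul, hb']
        ring
      rw [e1]
      exact ha.trans hle
    · refine ⟨-a, ?_⟩
      have hb' : ((b.natAbs : ℕ) : ℝ) = -b := by rw [hbabs, abs_of_neg (by exact_mod_cast hbe)]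
      have e1 : ((q * (k.factorial * b.natAbs) : ℕ) : ℝ) * x - ((-a : ℤ) : ℝ) =
          -(q * (k.factorial * (b * x)) - a) := by
        rw [Nat.cast_mul, Nat.cast_mul, hb']
        push_cast
        ring
      rw [e1, abs_neg]
      exact ha.trans hle

/-- equidistribution of the values of polynomials, one degree -/
theorem poly_one (k : ℕ) (hk : 1 ≤ k) (δ : ℝ) (hδ : 0 < δ) : ∃ κ : ℝ, 0 < κ ∧ ∃ M₀ : ℕ, 1 ≤ M₀ ∧
    ∀ M : ℕ, M₀ ≤ M → ∀ x : ℝ, ¬ Res δ M x → ∀ b : ℤ, b ≠ 0 → |(b : ℝ)| ≤ (M : ℝ) ^ κ →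
    ∀ R : ℝ[X], R.degree < k →
    Equi (range M) (fun n => b * x * (n : ℝ) ^ k + R.eval (n : ℝ)) ((M : ℝ) ^ (1 - κ)) := by
  obtain ⟨κ, hκ, M₁, hM₁1, h1⟩ := weyl_one k hk δ hδ
  obtain ⟨M₂, hM₂1, h2⟩ := disc_pow (κ / 2) (by positivity)
  refine ⟨κ / 16, by positivity, max M₁ M₂, hM₁1.trans (le_max_left _ _), fun M hM x hx b hb hbM R hR => ?_⟩
  have hMpos : 1 ≤ M := (hM₁1.trans (le_max_left _ _)).trans hM
  have hM1 : (1 : ℝ) ≤ M := by exact_mod_cast hMpos
  have hM0 : (0 : ℝ) < M := by linarith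
  have h3 := h2 M ((le_max_right _ _).trans hM) (range M) (fun n => b * x * (n : ℝ) ^ k + R.eval (n : ℝ))
    (by rw [card_range]) (by
      intro h hh hhM
      have h4 := h1 M ((le_max_left _ _).trans hM) x hx (h * b) (mul_ne_zero hh hb) (by
        push_cast
        rw [abs_mul]
        calc |(h : ℝ)| * |(b : ℝ)| ≤ (M : ℝ) ^ (κ / 2) * (M : ℝ) ^ (κ / 16) := by gcongr
          _ = (M : ℝ) ^ (κ / 2 + κ / 16) := by rw [← Real.rpow_add hM0]
          _ ≤ _ := Real.rpow_le_rpow_of_exponent_le hM1 (by linarith)) (C (h : ℝ) * R) (by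
        refine lt_of_le_of_lt ?_ hR
        rw [degree_C_mul (by exact_mod_cast hh)])
      have e1 : ∑ i ∈ range M, e (h * (b * x * (i : ℝ) ^ k + R.eval (i : ℝ))) =
          ∑ n ∈ range M, e (((h * b : ℤ) : ℝ) * x * (n : ℝ) ^ k + (C (h : ℝ) * R).eval (n : ℝ)) := by
        refine sum_congr rfl fun n _ => ?_
        congr 1
        rw [eval_mul, eval_C]
        push_cast
        ring
      rw [e1]
      refine h4.trans (Real.rpow_le_rpow_of_exponent_le hM1 (by linarith)))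
  exact h3.mono (Real.rpow_le_rpow_of_exponent_le hM1 (by linarith))

end Pool.Agent.Q29.Eqd
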