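import Pool.Agent.TH456.TM.Near
import Mathlib.Analysis.Polynomial.MahlerMeasure

set_option autoImplicit false

/-! # Heights and values of the irreducible factors of a polynomial in two variables -/

namespace Pool.Agent.Q29.Eqd

open Polynomial Finset
open Pool.Agent.TH456.TM (hgt vl IR σx MeasT le_hgt hgt_pos)

theorem swap_coeff (P : ℤ[X][X]) (i j : ℕ) : ((Bivariate.swap P).coeff i).coeff j = (P.coeff j).coeff i := by
  induction P using Polynomial.induction_on' with
  | add p q hp hq => rw [map_add, coeff_add, coeff_add, coeff_add, coeff_add, hp, hq]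
  | monomial n f =>
    induction f using Polynomial.induction_on' with
    | add p q hp hq =>
      rw [map_add, map_add, coeff_add, coeff_add, hp, hq, coeff_add, coeff_add]
    | monomial m r =>
      rw [Bivariate.swap_monomial_monomial, coeff_monomial, coeff_monomial]
      by_cases h1 : m = i
      · rw [if_pos h1, coeff_monomial]
        by_cases h2 : n = j
        · rw [if_pos h2, if_pos h2, coeff_monomial, if_pos h1]
        · rw [if_neg h2, if_neg h2, coeff_zero]
      · rw [if_neg h1, coeff_zero]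
        by_cases h2 : n = j
        · rw [if_pos h2, coeff_monomial, if_neg h1]
        · rw [if_neg h2, coeff_zero]

theorem xdeg_iff (P : ℤ[X][X]) (D : ℕ) : (Bivariate.swap P).natDegree ≤ D ↔ ∀ j, (P.coeff j).natDegree ≤ D := by
  rw [natDegree_le_iff_coeff_eq_zero]
  constructor
  · intro h j
    rw [natDegree_le_iff_coeff_eq_zero]
    intro i hi
    rw [← swap_coeff, h i hi, coeff_zero]
  · intro h i hi
    ext j
    rw [swap_coeff, coeff_zero]
    exact coeff_eq_zero_of_natDegree_lt (lt_of_le_of_lt (h j) hi)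

theorem xdeg_dvd {P Q : ℤ[X][X]} (hP : P ≠ 0) (h : Q ∣ P) {D : ℕ} (hD : ∀ j, (P.coeff j).natDegree ≤ D) :
    ∀ j, (Q.coeff j).natDegree ≤ D := by
  rw [← xdeg_iff] at hD ⊢
  refine (natDegree_le_of_dvd (map_dvd Bivariate.swap h) ?_).trans hD
  rw [Ne, EmbeddingLike.map_eq_zero_iff]
  exact hP

/-- Kronecker's substitution -/
noncomputable def kron (D : ℕ) : ℤ[X][X] →+* ℤ[X] := evalRingHom (X ^ (D + 1))

theorem kron_coeff (D : ℕ) (P : ℤ[X][X]) (hD : ∀ j, (P.coeff j).natDegree ≤ D) (n : ℕ) :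
    (kron D P).coeff n = (P.coeff (n / (D + 1))).coeff (n % (D + 1)) := by
  have e1 : kron D P = P.sum fun j a => a * X ^ ((D + 1) * j) := by
    show eval (X ^ (D + 1)) P = _
    rw [eval_eq_sum]
    simp only [pow_mul]
  have hn := Nat.div_add_mod n (D + 1)
  have hm := Nat.mod_lt n (show 0 < D + 1 by omega)
  rw [e1, Polynomial.sum_def, finsetSum_coeff, Finset.sum_eq_single (n / (D + 1))]
  · rw [coeff_mul_X_pow', if_pos (by omega)]
    congr 1
    omega
  · intro j _ hj
    rw [coeff_mul_X_pow']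
    split_ifs with h
    · apply coeff_eq_zero_of_natDegree_lt
      refine lt_of_le_of_lt (hD j) ?_
      rcases lt_or_gt_of_ne hj with h1 | h1
      · have h2 : (D + 1) * (j + 1) ≤ (D + 1) * (n / (D + 1)) := Nat.mul_le_mul_left _ h1
        rw [mul_add] at h2
        omega
      · exfalso
        have h2 : (D + 1) * (n / (D + 1) + 1) ≤ (D + 1) * j := Nat.mul_le_mul_left _ h1
        rw [mul_add] at h2
        omega
    · rfl
  · intro h
    rw [notMem_support_iff] at h
    rw [h, zero_mul, coeff_zero]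

theorem isom_cast : Isometry (Int.castRingHom ℂ) := by
  apply Isometry.of_dist_eq
  intro a b
  rw [dist_eq_norm, dist_eq_norm, ← map_sub, eq_intCast, Complex.norm_intCast, Int.norm_eq_abs]

theorem one_le_mahler {P : ℤ[X]} (hP : P ≠ 0) : 1 ≤ P.mapMahlerMeasure (Int.castRingHom ℂ) := by
  refine le_trans ?_ (leadingCoeff_le_mapMahlerMeasure P _ isom_cast)
  rw [Int.norm_eq_abs, ← Int.cast_abs]
  exact_mod_cast Int.one_le_abs (leadingCoeff_ne_zero.2 hP)

/-- the height of a factor -/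
theorem hgt_factor (D : ℕ) (P Q : ℤ[X][X]) (hP : P ≠ 0) (hQ : Q ∣ P) (hy : P.natDegree ≤ D)
    (hx : ∀ j, (P.coeff j).natDegree ≤ D) :
    (hgt Q : ℝ) ≤ 2 ^ ((D + 1) ^ 2) * ((D + 1) ^ 2 * hgt P) := by
  obtain ⟨S, hS⟩ := hQ
  have hQ0 : Q ≠ 0 := by rintro rfl; rw [zero_mul] at hS; exact hP hS
  have hS0 : S ≠ 0 := by rintro rfl; rw [mul_zero] at hS; exact hP hS
  have hQx := xdeg_dvd hP ⟨S, hS⟩ hx
  have hSx := xdeg_dvd hP ⟨Q, by rw [hS, mul_comm]⟩ hx
  have hne : ∀ R : ℤ[X][X], R ≠ 0 → (∀ j, (R.coeff j).natDegree ≤ D) → kron D R ≠ 0 := by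
    intro R hR hRx h0
    apply hR
    ext j i
    rw [coeff_zero, coeff_zero]
    by_cases hi : i < D + 1
    · have h1 := kron_coeff D R hRx (i + (D + 1) * j)
      rw [Nat.add_mul_div_left _ _ (by omega), Nat.div_eq_of_lt hi, zero_add, Nat.add_mul_mod_self_left,
        Nat.mod_eq_of_lt hi, h0, coeff_zero] at h1
      exact h1.symm
    · exact coeff_eq_zero_of_natDegree_lt (lt_of_le_of_lt (hRx j) (by omega))
  have hkP := hne P hP hx
  have hkS := hne S hS0 hSx
  have hPn : ∀ n, (D + 1) ^ 2 ≤ n → (kron D P).coeff n = 0 := by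
    intro n hn
    rw [kron_coeff D P hx, coeff_eq_zero_of_natDegree_lt (p := P), coeff_zero]
    refine lt_of_le_of_lt hy ?_
    rw [Nat.lt_iff_add_one_le, Nat.le_div_iff_mul_le (by omega)]
    calc (D + 1) * (D + 1) = (D + 1) ^ 2 := by ring
      _ ≤ n := hn
  have hdegP : (kron D P).natDegree ≤ (D + 1) ^ 2 := by
    rw [natDegree_le_iff_coeff_eq_zero]
    intro n hn
    exact hPn n hn.le
  have hmul : kron D P = kron D Q * kron D S := by rw [hS, map_mul]
  have hdegQ : (kron D Q).natDegree ≤ (D + 1) ^ 2 :=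
    (natDegree_le_of_dvd ⟨_, hmul⟩ hkP).trans hdegP
  have hMP : (kron D P).mapMahlerMeasure (Int.castRingHom ℂ) ≤ (D + 1) ^ 2 * hgt P := by
    refine (mapMahlerMeasure_le_sum_norm_coeff _ _ isom_cast).trans ?_
    rw [Polynomial.sum_def]
    have hsub : (kron D P).support ⊆ range ((D + 1) ^ 2) := by
      intro n hn
      rw [mem_support_iff] at hn
      rw [Finset.mem_range]
      by_contra h
      exact hn (hPn n (by omega))
    calc ∑ n ∈ (kron D P).support, ‖(kron D P).coeff n‖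
        ≤ ∑ n ∈ range ((D + 1) ^ 2), ‖(kron D P).coeff n‖ :=
          Finset.sum_le_sum_of_subset_of_nonneg hsub fun _ _ _ => norm_nonneg _
      _ ≤ ∑ _n ∈ range ((D + 1) ^ 2), (hgt P : ℝ) := by
          refine Finset.sum_le_sum fun n _ => ?_
          rw [kron_coeff D P hx, Int.norm_eq_abs, ← Int.cast_abs, Int.abs_eq_natAbs]
          exact_mod_cast le_hgt P _ _
      _ = _ := by
          rw [Finset.sum_const, Finset.card_range, nsmul_eq_mul]
          push_cast
          ring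
  have hMQ : (kron D Q).mapMahlerMeasure (Int.castRingHom ℂ) ≤ (D + 1) ^ 2 * hgt P := by
    refine le_trans ?_ hMP
    rw [hmul, mapMahlerMeasure_mul]
    exact le_mul_of_one_le_right (mapMahlerMeasure_nonneg _ _) (one_le_mahler hkS)
  have hall : ∀ j i, (((Q.coeff j).coeff i).natAbs : ℝ) ≤ 2 ^ ((D + 1) ^ 2) * ((D + 1) ^ 2 * hgt P) := by
    intro j i
    have h0 : (0 : ℝ) ≤ 2 ^ ((D + 1) ^ 2) * ((D + 1) ^ 2 * hgt P) := by positivity
    by_cases hi : i < D + 1
    · have h1 := kron_coeff D Q hQx (i + (D + 1) * j)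
      rw [Nat.add_mul_div_left _ _ (by omega), Nat.div_eq_of_lt hi, zero_add, Nat.add_mul_mod_self_left,
        Nat.mod_eq_of_lt hi] at h1
      have h2 := norm_coeff_le_choose_mul_mapMahlerMeasure _ isom_cast (i + (D + 1) * j) (kron D Q)
      rw [h1, Int.norm_eq_abs, ← Int.cast_abs] at h2
      rw [Nat.cast_natAbs]
      have h3 : (((kron D Q).natDegree.choose (i + (D + 1) * j) : ℕ) : ℝ) ≤ 2 ^ ((D + 1) ^ 2) := by
        have h4 : (kron D Q).natDegree.choose (i + (D + 1) * j) ≤ 2 ^ (kron D Q).natDegree :=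
          Nat.choose_le_two_pow _ _
        have h5 : (2 : ℕ) ^ (kron D Q).natDegree ≤ 2 ^ ((D + 1) ^ 2) := Nat.pow_le_pow_right (by norm_num) hdegQ
        exact_mod_cast h4.trans h5
      refine h2.trans ?_
      exact mul_le_mul h3 hMQ (mapMahlerMeasure_nonneg _ _) (by positivity)
    · rw [coeff_eq_zero_of_natDegree_lt (lt_of_le_of_lt (hQx j) (by omega))]
      simpa using h0
  have h6 : hgt Q ≤ ⌊(2 : ℝ) ^ ((D + 1) ^ 2) * ((D + 1) ^ 2 * hgt P)⌋₊ := by
    unfold hgt
    refine Finset.sup_le fun j _ => Finset.sup_le fun i _ => ?_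
    exact Nat.le_floor (hall j i)
  exact (by exact_mod_cast h6 : (hgt Q : ℝ) ≤ _).trans (Nat.floor_le (by positivity))

theorem vl_mul (x t : ℂ) (P Q : ℤ[X][X]) : vl x t (P * Q) = vl x t P * vl x t Q := by
  unfold vl
  rw [Polynomial.map_mul, eval_mul]

theorem vl_CC (x t : ℂ) (n : ℤ) : vl x t (C (C n)) = n := by
  unfold vl σx
  simp

theorem vl_neg (x t : ℂ) (P : ℤ[X][X]) : vl x t (-P) = -vl x t P := by
  unfold vl
  rw [Polynomial.map_neg, eval_neg]

theorem vl_const (x t : ℂ) (P : ℤ[X][X]) (hP : P ≠ 0) (h1 : P.natDegree = 0)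
    (h2 : (Bivariate.swap P).natDegree = 0) : 1 ≤ ‖vl x t P‖ := by
  have e1 := eq_C_of_natDegree_eq_zero h1
  have h3 := (xdeg_iff P 0).1 h2.le 0
  have e2 := eq_C_of_natDegree_le_zero h3
  rw [e2] at e1
  rw [e1, vl_CC, Complex.norm_intCast]
  have h4 : (P.coeff 0).coeff 0 ≠ 0 := by
    intro h
    rw [h, C_0, C_0] at e1
    exact hP e1
  rw [← Int.cast_abs]
  exact_mod_cast Int.one_le_abs h4

/-- a polynomial whose irreducible factors are not small is not small -/
theorem value_ge (x t : ℂ) (δ : ℝ) (hδ : 0 < δ) (hδ1 : δ ≤ 1) (P : ℤ[X][X]) : P ≠ 0 →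
    (∀ Q, Irreducible Q → Q ∣ P → δ ≤ ‖vl x t Q‖) →
    δ ^ (P.natDegree + (Bivariate.swap P).natDegree) ≤ ‖vl x t P‖ := by
  induction P using WfDvdMonoid.induction_on_irreducible with
  | zero => exact fun h => absurd rfl h
  | unit u hu =>
    intro h0 _
    have h1 : u.natDegree = 0 := natDegree_eq_zero_of_isUnit hu
    have h2 : (Bivariate.swap u).natDegree = 0 := natDegree_eq_zero_of_isUnit (hu.map Bivariate.swap)
    exact (pow_le_one₀ hδ.le hδ1).trans (vl_const x t u h0 h1 h2)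
  | mul a i ha hi ih =>
    intro h0 h
    have h1 := ih ha fun Q hQ hQa => h Q hQ (hQa.trans (Dvd.intro_left i rfl))
    have h2 := h i hi (dvd_mul_right i a)
    have hsi : Bivariate.swap i ≠ 0 := by
      rw [Ne, EmbeddingLike.map_eq_zero_iff]; exact hi.ne_zero
    have hsa : Bivariate.swap a ≠ 0 := by
      rw [Ne, EmbeddingLike.map_eq_zero_iff]; exact ha
    rw [natDegree_mul hi.ne_zero ha, map_mul, natDegree_mul hsi hsa, vl_mul, norm_mul,
      show i.natDegree + a.natDegree + ((Bivariate.swap i).natDegree + (Bivariate.swap a).natDegree) =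
        (i.natDegree + (Bivariate.swap i).natDegree) + (a.natDegree + (Bivariate.swap a).natDegree) by ring,
      pow_add]
    refine mul_le_mul ?_ h1 (by positivity) (norm_nonneg _)
    rcases Nat.eq_zero_or_pos (i.natDegree + (Bivariate.swap i).natDegree) with h3 | h3
    · rw [h3, pow_zero]
      exact vl_const x t i hi.ne_zero (by omega) (by omega)
    · exact (pow_le_of_le_one hδ.le hδ1 (by omega)).trans h2

/-- a small polynomial has a small irreducible factor -/
theorem small_factor (x t : ℂ) (D : ℕ) (δ : ℝ) (hδ : 0 < δ) (hδ1 : δ ≤ 1) (P : ℤ[X][X]) (hP : P ≠ 0)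
    (hy : P.natDegree ≤ D) (hx : ∀ j, (P.coeff j).natDegree ≤ D) (hv : ‖vl x t P‖ < δ ^ (2 * D)) :
    ∃ Q ∈ IR D, Q ∣ P ∧ ‖vl x t Q‖ < δ ∧ (hgt Q : ℝ) ≤ 2 ^ ((D + 1) ^ 2) * ((D + 1) ^ 2 * hgt P) := by
  have h1 : ∃ Q, Irreducible Q ∧ Q ∣ P ∧ ‖vl x t Q‖ < δ := by
    by_contra hcon
    push Not at hcon
    have h2 := value_ge x t δ hδ hδ1 P hP hcon
    have h3 : δ ^ (2 * D) ≤ δ ^ (P.natDegree + (Bivariate.swap P).natDegree) := by
      apply pow_le_pow_of_le_one hδ.le hδ1
      have := (xdeg_iff P D).2 hx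
      omega
    linarith
  obtain ⟨Q, hQ, hQP, hQv⟩ := h1
  have h4 : Q.leadingCoeff.leadingCoeff ≠ 0 := by
    rw [Ne, leadingCoeff_eq_zero, leadingCoeff_eq_zero]
    exact hQ.ne_zero
  have key : ∀ Q' : ℤ[X][X], Irreducible Q' → Q' ∣ P → 0 < Q'.leadingCoeff.leadingCoeff → ‖vl x t Q'‖ < δ →
      ∃ Q ∈ IR D, Q ∣ P ∧ ‖vl x t Q‖ < δ ∧ (hgt Q : ℝ) ≤ 2 ^ ((D + 1) ^ 2) * ((D + 1) ^ 2 * hgt P) := by
    intro Q' h1 h2 h3 h4
    exact ⟨Q', ⟨h1, (natDegree_le_of_dvd h2 hP).trans hy, xdeg_dvd hP h2 hx, h3⟩, h2, h4,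
      hgt_factor D P Q' hP h2 hy hx⟩
  rcases lt_or_gt_of_ne h4 with h5 | h5
  · refine key (-Q) ((Associated.refl Q).neg_right.irreducible hQ) ((neg_dvd).2 hQP) ?_ ?_
    · rw [leadingCoeff_neg, leadingCoeff_neg]
      linarith
    · rw [vl_neg, norm_neg]
      exact hQv
  · exact key Q hQ hQP h5 hQv

end Pool.Agent.Q29.Eqd
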