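import Pool.Agent.Q29.GoodMain

set_option autoImplicit false

/-! # Good scales for the numbers which are algebraic over `ℚ(z, t)` -/

namespace Pool.Agent.Q29.Eqd

open Polynomial Finset
open Pool.Agent.TH456.TM (hgt vl IR σx MeasT core core_zero le_hgt hgt_pos σx_coeff)

/-- the polynomial `q ^ D F(p / q)` in two variables -/
noncomputable def subst (D : ℕ) (F : Fin (D + 1) → ℤ[X][X]) (p : ℤ) (q : ℕ) : ℤ[X][X] :=
  ∑ k : Fin (D + 1), (p ^ (k : ℕ) * (q : ℤ) ^ (D - (k : ℕ))) • F k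

theorem rv_subst (z t : ℝ) (D : ℕ) (F : Fin (D + 1) → ℤ[X][X]) (p : ℤ) (q : ℕ) :
    rv z t (subst D F p q) = ∑ k : Fin (D + 1), (p : ℝ) ^ (k : ℕ) * (q : ℝ) ^ (D - (k : ℕ)) * rv z t (F k) := by
  unfold subst
  rw [map_sum]
  refine Finset.sum_congr rfl fun k _ => ?_
  rw [map_zsmul, zsmul_eq_mul]
  push_cast
  ring

/-- **the engine** -/
theorem alg_engine (z : ℝ) (D : ℕ) (hD : 1 ≤ D) (K : ℕ) (A : ℝ) (hA : 1 ≤ A) (δ : ℝ) (hδ : 0 < δ)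
    (hδ1 : δ ≤ 1 / 4) : ∃ κ : ℝ, 0 < κ ∧ ∀ T : ℝ, ∃ N₀ : ℕ, 1 ≤ N₀ ∧ ∀ N : ℕ, N₀ ≤ N →
      ∀ t : ℝ, |t| ≤ T → ∀ F : Fin (D + 1) → ℤ[X][X], (∀ k, (F k).natDegree ≤ D) →
      (∀ k j, ((F k).coeff j).natDegree ≤ D) → (∀ k, (hgt (F k) : ℝ) ≤ (N : ℝ) ^ κ) →
      ∀ x : ℝ, |x| ≤ (N : ℝ) ^ κ → ∑ k, rv z t (F k) * x ^ (k : ℕ) = 0 →
      ∀ M : ℕ, N ≤ M → (M : ℝ) ≤ (N : ℝ) ^ A → Joint κ K M (fun _ : Fin 1 => x) ∨
        ∃ (p : ℤ) (q : ℕ), 1 ≤ q ∧ (subst D F p q = 0 ∨ ∃ Q ∈ SmallI D δ z t N, Q ∣ subst D F p q) := by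
  have hDR : (1 : ℝ) ≤ D := by exact_mod_cast hD
  have hD0 : (0 : ℝ) < D := by linarith
  obtain ⟨η, hηE⟩ : ∃ η : ℝ, η = δ / (16 * (D + 1)) := ⟨_, rfl⟩
  have hη : 0 < η := by rw [hηE]; positivity
  have hηD : (3 * D + 1) * η ≤ δ / 4 := by
    rw [hηE, mul_div_assoc', div_le_iff₀ (by positivity)]
    nlinarith
  obtain ⟨δ₂, hδ₂E⟩ : ∃ δ₂ : ℝ, δ₂ = η / A := ⟨_, rfl⟩
  have hA0 : 0 < A := by linarith
  have hδ₂ : 0 < δ₂ := by rw [hδ₂E]; positivity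
  have hAδ₂ : A * δ₂ = η := by rw [hδ₂E]; field_simp
  have hη8 : η ≤ 1 / 8 := by nlinarith
  have hδ₂4 : δ₂ ≤ 1 / 8 := by nlinarith
  obtain ⟨κ₁, hκ₁, M₀, hM₀2, hjoint⟩ := joint_engine 1 le_rfl K δ₂ hδ₂ (by linarith)
  refine ⟨min κ₁ η, lt_min hκ₁ hη, fun T => ?_⟩
  obtain ⟨X, hX⟩ : ∃ X : ℝ, X = ((D + 1) * (max 1 T) ^ D * ((D + 1) * (max 1 ‖(z : ℂ)‖) ^ D)) := ⟨_, rfl⟩
  have hX0 : 0 ≤ X := by rw [hX]; positivity
  obtain ⟨C₁, hC₁⟩ : ∃ C₁ : ℝ, C₁ = (D + 1) * 2 ^ D := ⟨_, rfl⟩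
  have hC₁0 : 0 ≤ C₁ := by rw [hC₁]; positivity
  obtain ⟨M₁, hM₁, hbig⟩ := ev_rpow (δ / 2) C₁ (by positivity)
  obtain ⟨M₂, hM₂, hbig2⟩ := ev_rpow (1 / 8) (C₁ * (X * D) + 1) (by norm_num)
  obtain ⟨M₃, hM₃, hbig3⟩ := small_of D hD δ hδ
  refine ⟨max (max M₀ M₃) (max M₁ M₂), hM₁.trans ((le_max_left _ _).trans (le_max_right _ _)),
    fun N hN t ht F hFy hFx hFh x hxN hroot M hNM hMA => ?_⟩
  have hNM₀ : M₀ ≤ N := (le_max_left _ _).trans ((le_max_left _ _).trans hN)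
  have hNM₃ : M₃ ≤ N := (le_max_right _ _).trans ((le_max_left _ _).trans hN)
  have hbigN := hbig N ((le_max_left _ _).trans ((le_max_right _ _).trans hN))
  have hbigN2 := hbig2 N ((le_max_right _ _).trans ((le_max_right _ _).trans hN))
  have hNpos : 2 ≤ N := hM₀2.trans hNM₀
  have hN2 : (2 : ℝ) ≤ N := by exact_mod_cast hNpos
  have hN1 : (1 : ℝ) ≤ N := by linarith
  have hN0 : (0 : ℝ) < N := by linarith
  have hMpos : 1 ≤ M := by omega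
  have hM1 : (1 : ℝ) ≤ M := by exact_mod_cast hMpos
  by_cases hgood : ∀ l : Fin 1 → ℤ, l ≠ 0 → (∀ j, |(l j : ℝ)| ≤ M) → (∀ j, |(l j : ℝ)| ≤ (M : ℝ) ^ δ₂) →
      ¬ Res δ₂ M (∑ j, (l j : ℝ) * x)
  · exact Or.inl ((hjoint M (hNM₀.trans hNM) (fun _ => x) hgood).mono hMpos (min_le_left _ _))
  right
  push Not at hgood
  obtain ⟨l, hl0, -, hlM, q₀, hq1, hqM, a, ha⟩ := hgood
  have hl00 : l 0 ≠ 0 := by
    intro h
    apply hl0
    funext i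
    rw [Subsingleton.elim i 0, h, Pi.zero_apply]
  rw [Fin.sum_univ_succ, Finset.univ_eq_empty, Finset.sum_empty, add_zero] at ha
  have hMδ : (M : ℝ) ^ δ₂ ≤ (N : ℝ) ^ η := by
    rw [← hAδ₂, Real.rpow_mul hN0.le]
    exact Real.rpow_le_rpow (by positivity) hMA hδ₂.le
  obtain ⟨q, hq⟩ : ∃ q : ℕ, q = q₀ * (l 0).natAbs := ⟨_, rfl⟩
  obtain ⟨p, hp⟩ : ∃ p : ℤ, p = (l 0).sign * a := ⟨_, rfl⟩
  have hq1' : 1 ≤ q := by
    rw [hq]
    exact Nat.one_le_iff_ne_zero.2 (mul_ne_zero (by omega) (Int.natAbs_ne_zero.2 hl00))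
  have hsgn : |((l 0).sign : ℝ)| = 1 := by
    rcases lt_or_gt_of_ne hl00 with h | h
    · rw [Int.sign_eq_neg_one_of_neg h]; simp
    · rw [Int.sign_eq_one_of_pos h]; simp
  have hqx : (q : ℝ) * x - p = ((l 0).sign : ℝ) * ((q₀ : ℝ) * ((l 0 : ℝ) * x) - a) := by
    have e1 : ((l 0).natAbs : ℝ) = ((l 0).sign : ℝ) * (l 0 : ℝ) := by
      have := Int.sign_mul_self_eq_natAbs (l 0)
      rw [← Int.cast_mul, this, Int.cast_natCast]
    rw [hq, hp]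
    push_cast
    rw [e1]
    ring
  have herr : |(q : ℝ) * x - p| ≤ (M : ℝ) ^ (δ₂ - 1) := by
    rw [hqx, abs_mul, hsgn, one_mul]
    exact ha
  have hqN : (q : ℝ) ≤ (N : ℝ) ^ (2 * η) := by
    rw [hq]
    push_cast
    have e1 : (((l 0).natAbs : ℕ) : ℝ) = |(l 0 : ℝ)| := by rw [Nat.cast_natAbs, Int.cast_abs]
    rw [e1, two_mul, Real.rpow_add hN0]
    exact mul_le_mul (hqM.trans hMδ) ((hlM 0).trans hMδ) (abs_nonneg _) (by positivity)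
  have hκη : (N : ℝ) ^ (min κ₁ η) ≤ (N : ℝ) ^ η := Real.rpow_le_rpow_of_exponent_le hN1 (min_le_right _ _)
  have hqx3 : |(q : ℝ) * x| ≤ (N : ℝ) ^ (3 * η) := by
    rw [abs_mul, Nat.abs_cast, show 3 * η = 2 * η + η by ring, Real.rpow_add hN0]
    exact mul_le_mul hqN (hxN.trans hκη) (abs_nonneg _) (by positivity)
  have h3η1 : (1 : ℝ) ≤ (N : ℝ) ^ (3 * η) := Real.one_le_rpow hN1 (by positivity)
  have herr1 : (M : ℝ) ^ (δ₂ - 1) ≤ 1 := Real.rpow_le_one_of_one_le_of_nonpos hM1 (by linarith)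
  obtain ⟨Y, hY⟩ : ∃ Y : ℝ, Y = 2 * (N : ℝ) ^ (3 * η) := ⟨_, rfl⟩
  have hY1 : 1 ≤ Y := by rw [hY]; linarith
  have hpY : |(p : ℝ)| ≤ Y := by
    have h1 : |(p : ℝ)| ≤ |(q : ℝ) * x| + |(q : ℝ) * x - p| := by
      have := abs_sub_abs_le_abs_sub (p : ℝ) ((q : ℝ) * x)
      rw [abs_sub_comm] at this
      linarith
    rw [hY]
    linarith
  have hqY : (q : ℝ) ≤ Y := by
    have : (N : ℝ) ^ (2 * η) ≤ (N : ℝ) ^ (3 * η) := Real.rpow_le_rpow_of_exponent_le hN1 (by linarith)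
    rw [hY]
    linarith
  have hqxY : |(q : ℝ) * x| ≤ Y := by rw [hY]; linarith
  refine ⟨p, q, hq1', ?_⟩
  by_cases hR0 : subst D F p q = 0
  · exact Or.inl hR0
  right
  have hYD : Y ^ D = 2 ^ D * (N : ℝ) ^ (3 * η * D) := by
    rw [hY, mul_pow, ← Real.rpow_natCast ((N : ℝ) ^ (3 * η)) D, ← Real.rpow_mul hN0.le]
  have hNη : (N : ℝ) ^ (3 * η * D) * (N : ℝ) ^ η ≤ (N : ℝ) ^ (δ / 4) := by
    rw [← Real.rpow_add hN0]
    exact Real.rpow_le_rpow_of_exponent_le hN1 (by linarith)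
  -- powers
  have hpow : ∀ k : Fin (D + 1), |(p : ℝ)| ^ (k : ℕ) * (q : ℝ) ^ (D - (k : ℕ)) ≤ Y ^ D := by
    intro k
    calc |(p : ℝ)| ^ (k : ℕ) * (q : ℝ) ^ (D - (k : ℕ)) ≤ Y ^ (k : ℕ) * Y ^ (D - (k : ℕ)) :=
          mul_le_mul (pow_le_pow_left₀ (abs_nonneg _) hpY _) (pow_le_pow_left₀ (Nat.cast_nonneg _) hqY _)
            (by positivity) (by positivity)
      _ = Y ^ D := by rw [← pow_add]; congr 1; have := k.2; omega
  apply hbig3 N hNM₃ (z : ℂ) (t : ℂ) _ hR0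
  · unfold subst
    exact natDegree_sum_le_of_forall_le _ _ fun k _ => (natDegree_smul_le _ _).trans (hFy k)
  · intro j
    have e1 : (subst D F p q).coeff j = ∑ k : Fin (D + 1), (p ^ (k : ℕ) * (q : ℤ) ^ (D - (k : ℕ))) • (F k).coeff j := by
      unfold subst
      rw [finsetSum_coeff]
      congr 1
    rw [e1]
    exact natDegree_sum_le_of_forall_le _ _ fun k _ => (natDegree_smul_le _ _).trans (hFx k j)
  · have hcoef : ∀ j i, |(((subst D F p q).coeff j).coeff i : ℝ)| ≤ (N : ℝ) ^ δ := by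
      intro j i
      have e1 : ((subst D F p q).coeff j).coeff i =
          ∑ k : Fin (D + 1), (p ^ (k : ℕ) * (q : ℤ) ^ (D - (k : ℕ))) * ((F k).coeff j).coeff i := by
        unfold subst
        rw [finsetSum_coeff, finsetSum_coeff]
        congr 1
      rw [e1]
      push_cast
      calc |∑ k : Fin (D + 1), (p : ℝ) ^ (k : ℕ) * (q : ℝ) ^ (D - (k : ℕ)) * (((F k).coeff j).coeff i : ℝ)|
          ≤ ∑ k : Fin (D + 1), |(p : ℝ) ^ (k : ℕ) * (q : ℝ) ^ (D - (k : ℕ)) * (((F k).coeff j).coeff i : ℝ)| :=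
            Finset.abs_sum_le_sum_abs _ _
        _ ≤ ∑ _k : Fin (D + 1), Y ^ D * (N : ℝ) ^ η := by
            refine Finset.sum_le_sum fun k _ => ?_
            rw [abs_mul, abs_mul, abs_pow, abs_pow, Nat.abs_cast]
            have h3 : |(((F k).coeff j).coeff i : ℝ)| ≤ (N : ℝ) ^ η := by
              refine le_trans ?_ ((hFh k).trans hκη)
              rw [← Int.cast_abs, Int.abs_eq_natAbs]
              exact_mod_cast le_hgt (F k) j i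
            exact mul_le_mul (hpow k) h3 (abs_nonneg _) (by positivity)
        _ = C₁ * ((N : ℝ) ^ (3 * η * D) * (N : ℝ) ^ η) := by
            rw [Finset.sum_const, Finset.card_univ, Fintype.card_fin, nsmul_eq_mul, hYD, hC₁]
            push_cast
            ring
        _ ≤ (N : ℝ) ^ (δ / 2) * (N : ℝ) ^ (δ / 4) := mul_le_mul hbigN hNη (by positivity) (by positivity)
        _ ≤ (N : ℝ) ^ δ := by
            rw [← Real.rpow_add hN0]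
            exact Real.rpow_le_rpow_of_exponent_le hN1 (by linarith)
    have h6 : hgt (subst D F p q) ≤ ⌊(N : ℝ) ^ δ⌋₊ := by
      unfold hgt
      refine Finset.sup_le fun j _ => Finset.sup_le fun i _ => ?_
      apply Nat.le_floor
      have h7 := hcoef j i
      rw [Nat.cast_natAbs, Int.cast_abs]
      exact h7
    exact (by exact_mod_cast h6 : (hgt (subst D F p q) : ℝ) ≤ _).trans (Nat.floor_le (by positivity))
  · rw [← abs_rv, rv_subst]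
    have e0 : ∑ k : Fin (D + 1), ((q : ℝ) * x) ^ (k : ℕ) * (q : ℝ) ^ (D - (k : ℕ)) * rv z t (F k) = 0 := by
      have e1 : ∑ k : Fin (D + 1), ((q : ℝ) * x) ^ (k : ℕ) * (q : ℝ) ^ (D - (k : ℕ)) * rv z t (F k) =
          (q : ℝ) ^ D * ∑ k : Fin (D + 1), rv z t (F k) * x ^ (k : ℕ) := by
        rw [Finset.mul_sum]
        refine Finset.sum_congr rfl fun k _ => ?_
        have e2 : (q : ℝ) ^ D = (q : ℝ) ^ (k : ℕ) * (q : ℝ) ^ (D - (k : ℕ)) := by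
          rw [← pow_add]; congr 1; have := k.2; omega
        rw [e2, mul_pow]
        ring
      rw [e1, hroot, mul_zero]
    rw [← sub_zero (∑ k : Fin (D + 1), (p : ℝ) ^ (k : ℕ) * (q : ℝ) ^ (D - (k : ℕ)) * rv z t (F k)), ← e0,
      ← Finset.sum_sub_distrib]
    have hterm : ∀ k : Fin (D + 1), |(p : ℝ) ^ (k : ℕ) * (q : ℝ) ^ (D - (k : ℕ)) * rv z t (F k) -
        ((q : ℝ) * x) ^ (k : ℕ) * (q : ℝ) ^ (D - (k : ℕ)) * rv z t (F k)| ≤
          (M : ℝ) ^ (δ₂ - 1) * (D * (Y ^ D * (X * (N : ℝ) ^ η))) := by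
      intro k
      have h1 : |rv z t (F k)| ≤ X * (N : ℝ) ^ η := by
        rw [abs_rv, hX]
        refine vl_le (z : ℂ) (t : ℂ) D (F k) (hFy k) (hFx k) _ T ?_ ((hFh k).trans hκη)
        rw [Complex.norm_real, Real.norm_eq_abs]
        exact ht
      have h2 : |(p : ℝ) ^ (k : ℕ) - ((q : ℝ) * x) ^ (k : ℕ)| ≤ (M : ℝ) ^ (δ₂ - 1) * (D * Y ^ (k : ℕ)) := by
        refine (abs_pow_sub_pow_le _ _ _).trans ?_
        rw [mul_assoc]
        refine mul_le_mul (by rw [abs_sub_comm]; exact herr) ?_ (by positivity) (by positivity)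
        refine mul_le_mul (by exact_mod_cast (by have := k.2; omega : (k : ℕ) ≤ D)) ?_ (by positivity) (by positivity)
        calc (max |(p : ℝ)| |(q : ℝ) * x|) ^ ((k : ℕ) - 1) ≤ Y ^ ((k : ℕ) - 1) :=
              pow_le_pow_left₀ (le_max_of_le_left (abs_nonneg _)) (max_le hpY hqxY) _
          _ ≤ Y ^ (k : ℕ) := pow_le_pow_right₀ hY1 (Nat.sub_le _ _)
      have e3 : (p : ℝ) ^ (k : ℕ) * (q : ℝ) ^ (D - (k : ℕ)) * rv z t (F k) -
          ((q : ℝ) * x) ^ (k : ℕ) * (q : ℝ) ^ (D - (k : ℕ)) * rv z t (F k) =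
          ((p : ℝ) ^ (k : ℕ) - ((q : ℝ) * x) ^ (k : ℕ)) * ((q : ℝ) ^ (D - (k : ℕ)) * rv z t (F k)) := by ring
      rw [e3, abs_mul, abs_mul, abs_pow, Nat.abs_cast]
      calc |(p : ℝ) ^ (k : ℕ) - ((q : ℝ) * x) ^ (k : ℕ)| * ((q : ℝ) ^ (D - (k : ℕ)) * |rv z t (F k)|)
          ≤ ((M : ℝ) ^ (δ₂ - 1) * (D * Y ^ (k : ℕ))) * (Y ^ (D - (k : ℕ)) * (X * (N : ℝ) ^ η)) := by
            refine mul_le_mul h2 (mul_le_mul (pow_le_pow_left₀ (Nat.cast_nonneg _) hqY _) h1 (abs_nonneg _)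
              (by positivity)) (by positivity) (by positivity)
        _ = (M : ℝ) ^ (δ₂ - 1) * (D * ((Y ^ (k : ℕ) * Y ^ (D - (k : ℕ))) * (X * (N : ℝ) ^ η))) := by ring
        _ = _ := by
            have e4 : Y ^ (k : ℕ) * Y ^ (D - (k : ℕ)) = Y ^ D := by
              rw [← pow_add]; congr 1; have := k.2; omega
            rw [e4]
    have hM8 : (M : ℝ) ^ (δ₂ - 1) ≤ (N : ℝ) ^ (-(7 / 8) : ℝ) :=
      (Real.rpow_le_rpow_of_nonpos hN0 (by exact_mod_cast hNM) (by linarith)).trans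
        (Real.rpow_le_rpow_of_exponent_le hN1 (by linarith))
    calc |∑ k : Fin (D + 1), ((p : ℝ) ^ (k : ℕ) * (q : ℝ) ^ (D - (k : ℕ)) * rv z t (F k) -
          ((q : ℝ) * x) ^ (k : ℕ) * (q : ℝ) ^ (D - (k : ℕ)) * rv z t (F k))|
        ≤ ∑ _k : Fin (D + 1), (M : ℝ) ^ (δ₂ - 1) * (D * (Y ^ D * (X * (N : ℝ) ^ η))) :=
          (Finset.abs_sum_le_sum_abs _ _).trans (Finset.sum_le_sum fun k _ => hterm k)
      _ = (M : ℝ) ^ (δ₂ - 1) * ((C₁ * (X * D)) * ((N : ℝ) ^ (3 * η * D) * (N : ℝ) ^ η)) := by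
          rw [Finset.sum_const, Finset.card_univ, Fintype.card_fin, nsmul_eq_mul, hYD, hC₁]
          push_cast
          ring
      _ ≤ (N : ℝ) ^ (-(7 / 8) : ℝ) * ((C₁ * (X * D)) * (N : ℝ) ^ (δ / 4)) := by
          refine mul_le_mul hM8 (mul_le_mul_of_nonneg_left hNη (by positivity)) (by positivity) (by positivity)
      _ < (N : ℝ) ^ (-(7 / 8) : ℝ) * ((N : ℝ) ^ (1 / 8 : ℝ) * (N : ℝ) ^ (δ / 4)) := by
          apply mul_lt_mul_of_pos_left _ (by positivity)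
          apply mul_lt_mul_of_pos_right _ (by positivity)
          linarith
      _ ≤ (N : ℝ) ^ (-(1 / 2) : ℝ) := by
          rw [← Real.rpow_add hN0, ← Real.rpow_add hN0]
          exact Real.rpow_le_rpow_of_exponent_le hN1 (by linarith)

/-- **Good scales for algebraic elements.** -/
theorem alg_main (z : ℝ) (hz : MeasT (z : ℂ)) (D : ℕ) (hD : 1 ≤ D) (K : ℕ) (A : ℝ)
    (hA : 1 ≤ A) : ∃ κ : ℝ, 0 < κ ∧
      (∀ T : ℝ, ∃ N₀ : ℕ, ∀ N : ℕ, N₀ ≤ N → ∀ t : ℝ, |t| ≤ T → ∃ Q ∈ IR D, 0 < Q.natDegree ∧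
        ∀ F : Fin (D + 1) → ℤ[X][X], (∀ k, (F k).natDegree ≤ D) → (∀ k j, ((F k).coeff j).natDegree ≤ D) →
          (∀ k, (hgt (F k) : ℝ) ≤ (N : ℝ) ^ κ) →
          (∀ (p : ℤ) (q : ℕ), 1 ≤ q → ¬ Q ∣ subst D F p q) →
          ∀ x : ℝ, |x| ≤ (N : ℝ) ^ κ → ∑ k, rv z t (F k) * x ^ (k : ℕ) = 0 →
          ∀ M : ℕ, N ≤ M → (M : ℝ) ≤ (N : ℝ) ^ A → Joint κ K M (fun _ : Fin 1 => x)) ∧
      ∀ t : ℝ, ∃ G : Set ℕ,
        (∀ N ∈ G,
          ∀ F : Fin (D + 1) → ℤ[X][X], (∀ k, (F k).natDegree ≤ D) → (∀ k j, ((F k).coeff j).natDegree ≤ D) →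
            (∀ k, (hgt (F k) : ℝ) ≤ (N : ℝ) ^ κ) →
            (∀ r : ℚ, ∑ k, rv z t (F k) * (r : ℝ) ^ (k : ℕ) ≠ 0) →
            ∀ x : ℝ, |x| ≤ (N : ℝ) ^ κ → ∑ k, rv z t (F k) * x ^ (k : ℕ) = 0 →
            ∀ M : ℕ, N ≤ M → (M : ℝ) ≤ (N : ℝ) ^ A → Joint κ K M (fun _ : Fin 1 => x)) ∧
        (∀ N₁ : ℕ, ∃ N ∈ G, N₁ ≤ N) ∧
        ((∃ Q ∈ IR D, rv z t Q = 0) → ∃ N₁ : ℕ, ∀ N : ℕ, N₁ ≤ N → N ∈ G) := by
  obtain ⟨δ₀, hδ₀, huniq⟩ := small_uniq (z : ℂ) hz D hD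
  obtain ⟨δ, hδE⟩ : ∃ δ : ℝ, δ = min δ₀ (1 / 4) := ⟨_, rfl⟩
  have hδ : 0 < δ := by rw [hδE]; exact lt_min hδ₀ (by norm_num)
  have hδδ₀ : δ ≤ δ₀ := by rw [hδE]; exact min_le_left _ _
  have hδ1 : δ ≤ 1 / 4 := by rw [hδE]; exact min_le_right _ _
  obtain ⟨κ, hκ, heng⟩ := alg_engine z D hD K A hA δ hδ hδ1
  refine ⟨κ, hκ, ?_, ?_⟩
  · intro T
    obtain ⟨N₁, hN₁, h1⟩ := heng T
    obtain ⟨N₂, hN₂, h2⟩ := huniq δ hδ hδδ₀ T
    refine ⟨max N₁ N₂, fun N hN t ht => ?_⟩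
    have hNb : N₁ ≤ N := (le_max_left _ _).trans hN
    have hNc : N₂ ≤ N := (le_max_right _ _).trans hN
    have ht' : ‖(t : ℂ)‖ ≤ T := by
      rw [Complex.norm_real, Real.norm_eq_abs]
      exact ht
    obtain ⟨h2a, h2b⟩ := h2 N hNc t ht'
    have hQ : ∃ Q ∈ IR D, 0 < Q.natDegree ∧ ∀ Q' ∈ SmallI D δ (z : ℂ) (t : ℂ) N, Q' = Q := by
      by_cases hex : ∃ Q, Q ∈ SmallI D δ (z : ℂ) (t : ℂ) N
      · obtain ⟨Q, hQ⟩ := hex
        exact ⟨Q, hQ.1, h2a Q hQ, fun Q' hQ' => h2b Q' hQ' Q (Or.inl hQ)⟩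
      · refine ⟨X, ⟨irreducible_X, ?_, fun j => ?_, ?_⟩, ?_, fun Q' hQ' => absurd ⟨Q', hQ'⟩ hex⟩
        · rw [natDegree_X]; exact hD
        · rw [coeff_X]
          split_ifs
          · rw [natDegree_one]; exact Nat.zero_le _
          · rw [natDegree_zero]; exact Nat.zero_le _
        · rw [leadingCoeff_X, leadingCoeff_one]
          norm_num
        · rw [natDegree_X]
          norm_num
    obtain ⟨Q, hQI, hQpos, hQu⟩ := hQ
    refine ⟨Q, hQI, hQpos, ?_⟩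
    intro F hFy hFx hFh hind x hx hroot M hNM hMA
    rcases h1 N hNb t ht F hFy hFx hFh x hx hroot M hNM hMA with h3 | ⟨p, q, hq, h4 | ⟨Q', hQ', h4⟩⟩
    · exact h3
    · exact absurd (by rw [h4]; exact dvd_zero _) (hind p q hq)
    · rw [hQu Q' hQ'] at h4
      exact absurd h4 (hind p q hq)
  · intro t
    obtain ⟨N₁, hN₁, h1⟩ := heng |t|
    obtain ⟨N₂, hN₂, h2⟩ := huniq δ hδ hδδ₀ |t|
    have ht' : ‖(t : ℂ)‖ ≤ |t| := by
      rw [Complex.norm_real, Real.norm_eq_abs]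
    refine ⟨{N | max N₁ N₂ ≤ N ∧ ∀ Q ∈ SmallI D δ (z : ℂ) (t : ℂ) N, vl (z : ℂ) (t : ℂ) Q = 0},
      ?_, ?_, ?_⟩
    · rintro N ⟨hN, hS⟩ F hFy hFx hFh hind x hx hroot M hNM hMA
      have hNb : N₁ ≤ N := (le_max_left _ _).trans hN
      rcases h1 N hNb t le_rfl F hFy hFx hFh x hx hroot M hNM hMA with h3 | ⟨p, q, hq, h4⟩
      · exact h3
      · exfalso
        have h5 : rv z t (subst D F p q) = 0 := by
          rcases h4 with h4 | ⟨Q', hQ', S, hS'⟩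
          · rw [h4, map_zero]
          · have e1 : ((rv z t (subst D F p q) : ℝ) : ℂ) = 0 := by
              rw [rv_coe, hS', vl_mul, hS Q' hQ', zero_mul]
            exact_mod_cast e1
        rw [rv_subst] at h5
        have hq0 : (q : ℝ) ≠ 0 := by
          have : (1 : ℝ) ≤ q := by exact_mod_cast hq
          positivity
        apply hind ((p : ℚ) / (q : ℚ))
        have e2 : (q : ℝ) ^ D * ∑ k : Fin (D + 1), rv z t (F k) * (((p : ℚ) / (q : ℚ) : ℚ) : ℝ) ^ (k : ℕ) = 0 := by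
          rw [← h5, Finset.mul_sum]
          refine Finset.sum_congr rfl fun k _ => ?_
          have e3 : (q : ℝ) ^ D = (q : ℝ) ^ (k : ℕ) * (q : ℝ) ^ (D - (k : ℕ)) := by
            rw [← pow_add]; congr 1; have := k.2; omega
          rw [e3]
          push_cast
          rw [div_pow]
          field_simp
        exact (mul_eq_zero.1 e2).resolve_left (pow_ne_zero _ hq0)
    · intro N₄
      obtain ⟨N, hN, hNS⟩ := good_inf (z : ℂ) D hD δ (t : ℂ) N₂ (fun N hN => (h2 N hN t ht').2)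
        (max N₄ (max N₁ N₂))
      exact ⟨N, ⟨(le_max_right _ _).trans hN, hNS⟩, (le_max_left _ _).trans hN⟩
    · rintro ⟨Q, hQI, hQ0⟩
      obtain ⟨N₅, hN₅, h5⟩ := ev_rpow (2 * δ) (hgt Q) (by positivity)
      refine ⟨max N₅ (max N₁ N₂), fun N hN => ?_⟩
      refine ⟨(le_max_right _ _).trans hN, fun Q' hQ' => ?_⟩
      have hNc : N₂ ≤ N := (le_max_right _ _).trans ((le_max_right _ _).trans hN)
      have hv0 : vl (z : ℂ) (t : ℂ) Q = 0 := by rw [← rv_coe, hQ0]; simp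
      have hQS : Q ∈ SmallI D δ (z : ℂ) (t : ℂ) N := by
        refine ⟨hQI, h5 N ((le_max_left _ _).trans hN), ?_⟩
        rw [hv0, norm_zero]
        positivity
      rw [(h2 N hNc t ht').2 Q' hQ' Q (Or.inl hQS)]
      exact hv0

end Pool.Agent.Q29.Eqd
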