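import Pool.Agent.Q29.FacHt
import Pool.Agent.Q29.EqSub

set_option autoImplicit false

/-! # Good scales for all polynomials in two numbers, one of which has a measure of transcendence -/

namespace Pool.Agent.Q29.Eqd

open Polynomial Finset
open Pool.Agent.TH456.TM (hgt vl IR σx MeasT core core_zero le_hgt hgt_pos σx_coeff)

theorem num_gap (D : ℕ) (hD : 1 ≤ D) (κ C : ℝ) (hκ : 0 < κ) (hC : 0 < C) (δ : ℝ)
    (hδ1 : δ ≤ 1 / (16 * D * κ)) : ∃ N₀ : ℕ, 1 ≤ N₀ ∧ ∀ N : ℕ, N₀ ≤ N →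
      (N : ℝ) ^ (-(1 / (4 * D)) : ℝ) < C * (((N + 1 : ℕ) : ℝ) ^ (2 * δ)) ^ (-κ) := by
  have hDR : (1 : ℝ) ≤ D := by exact_mod_cast hD
  have hD0 : (0 : ℝ) < D := by linarith
  obtain ⟨N₀, hN₀, h⟩ := ev_rpow (1 / (8 * D)) (4 / C) (by positivity)
  refine ⟨N₀, hN₀, fun N hN => ?_⟩
  have hN1 : (1 : ℝ) ≤ N := by exact_mod_cast hN₀.trans hN
  have hN0 : (0 : ℝ) < N := by linarith
  have h1 := h N hN
  have h2 : (((N + 1 : ℕ) : ℝ)) ≤ 2 * N := by push_cast; linarith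
  have hM1 : (1 : ℝ) ≤ ((N + 1 : ℕ) : ℝ) := by push_cast; linarith
  have hM0 : (0 : ℝ) < ((N + 1 : ℕ) : ℝ) := by linarith
  have h3 : 2 * δ * κ ≤ 1 / (8 * D) := by
    have e1 : 1 / (16 * D * κ) * κ = 1 / (16 * D) := by field_simp
    have e2 : δ * κ ≤ 1 / (16 * D) := by
      rw [← e1]
      exact mul_le_mul_of_nonneg_right hδ1 hκ.le
    have e3 : 2 * (1 / (16 * (D : ℝ))) = 1 / (8 * D) := by field_simp; norm_num
    nlinarith
  have h4 : (2 * (N : ℝ)) ^ (-(1 / (8 * D)) : ℝ) ≤ (((N + 1 : ℕ) : ℝ) ^ (2 * δ)) ^ (-κ) := by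
    rw [← Real.rpow_mul hM0.le]
    calc (2 * (N : ℝ)) ^ (-(1 / (8 * D)) : ℝ) ≤ (((N + 1 : ℕ) : ℝ)) ^ (-(1 / (8 * D)) : ℝ) := by
          apply Real.rpow_le_rpow_of_nonpos hM0 h2
          have : (0 : ℝ) ≤ 1 / (8 * D) := by positivity
          linarith
      _ ≤ _ := Real.rpow_le_rpow_of_exponent_le hM1 (by linarith)
  have h5 : (2 : ℝ)⁻¹ ≤ (2 : ℝ) ^ (-(1 / (8 * D)) : ℝ) := by
    rw [← Real.rpow_neg_one]
    apply Real.rpow_le_rpow_of_exponent_le (by norm_num)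
    have : 1 / (8 * (D : ℝ)) ≤ 1 := by
      rw [div_le_one (by positivity)]
      linarith
    linarith
  have h6 : (2 * (N : ℝ)) ^ (-(1 / (8 * D)) : ℝ) = (2 : ℝ) ^ (-(1 / (8 * D)) : ℝ) * (N : ℝ) ^ (-(1 / (8 * D)) : ℝ) :=
    Real.mul_rpow (by norm_num) hN0.le
  have h7 : (N : ℝ) ^ (-(1 / (8 * D)) : ℝ) * (N : ℝ) ^ (1 / (8 * D) : ℝ) = 1 := by
    rw [← Real.rpow_add hN0]
    simp
  have h8 : (N : ℝ) ^ (-(1 / (4 * D)) : ℝ) = (N : ℝ) ^ (-(1 / (8 * D)) : ℝ) * (N : ℝ) ^ (-(1 / (8 * D)) : ℝ) := by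
    rw [← Real.rpow_add hN0]
    congr 1
    field_simp
    norm_num
  have hn8 : 0 < (N : ℝ) ^ (-(1 / (8 * D)) : ℝ) := by positivity
  rw [h8]
  have h9 : (N : ℝ) ^ (-(1 / (8 * D)) : ℝ) < C * 2⁻¹ := by
    have e1 : (4 / C) * (N : ℝ) ^ (-(1 / (8 * D)) : ℝ) ≤ 1 := by
      calc (4 / C) * (N : ℝ) ^ (-(1 / (8 * D)) : ℝ)
          ≤ (N : ℝ) ^ (1 / (8 * D) : ℝ) * (N : ℝ) ^ (-(1 / (8 * D)) : ℝ) := by gcongr
        _ = 1 := by rw [mul_comm]; exact h7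
    rw [div_mul_eq_mul_div, div_le_one hC] at e1
    linarith
  calc (N : ℝ) ^ (-(1 / (8 * D)) : ℝ) * (N : ℝ) ^ (-(1 / (8 * D)) : ℝ)
      < (C * 2⁻¹) * (N : ℝ) ^ (-(1 / (8 * D)) : ℝ) := mul_lt_mul_of_pos_right h9 hn8
    _ = C * (2⁻¹ * (N : ℝ) ^ (-(1 / (8 * D)) : ℝ)) := by ring
    _ ≤ C * ((2 * (N : ℝ)) ^ (-(1 / (8 * D)) : ℝ)) := by
        rw [h6]
        gcongr
    _ ≤ _ := mul_le_mul_of_nonneg_left h4 hC.le

/-- the small irreducible polynomials at the scale `N` -/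
def SmallI (D : ℕ) (δ : ℝ) (z t : ℂ) (N : ℕ) : Set ℤ[X][X] :=
  {Q | Q ∈ IR D ∧ (hgt Q : ℝ) ≤ (N : ℝ) ^ (2 * δ) ∧ ‖vl z t Q‖ ≤ (N : ℝ) ^ (-(1 / (4 * D)) : ℝ)}

theorem small_uniq (z : ℂ) (hz : MeasT z) (D : ℕ) (hD : 1 ≤ D) : ∃ δ₀ : ℝ, 0 < δ₀ ∧ ∀ δ : ℝ, 0 < δ → δ ≤ δ₀ →
    ∀ T : ℝ, ∃ N₀ : ℕ, 1 ≤ N₀ ∧ ∀ N : ℕ, N₀ ≤ N → ∀ t : ℂ, ‖t‖ ≤ T →
      (∀ Q ∈ SmallI D δ z t N, 0 < Q.natDegree) ∧
      (∀ Q ∈ SmallI D δ z t N, ∀ Q' ∈ SmallI D δ z t N ∪ SmallI D δ z t (N + 1), Q = Q') := by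
  have hDR : (1 : ℝ) ≤ D := by exact_mod_cast hD
  have hD0 : (0 : ℝ) < D := by linarith
  obtain ⟨κ₁, hκ₁, h1⟩ := core z hz D hD
  obtain ⟨κ₂, hκ₂, C₂, hC₂, h2⟩ := core_zero z hz D
  refine ⟨min (1 / (16 * D * κ₁)) (1 / (16 * D * κ₂)), lt_min (by positivity) (by positivity),
    fun δ hδ hδ1 T => ?_⟩
  obtain ⟨C₁, hC₁, h1⟩ := h1 T
  obtain ⟨N₁, hN₁, g1⟩ := num_gap D hD κ₁ C₁ hκ₁ hC₁ δ (hδ1.trans (min_le_left _ _))
  obtain ⟨N₂, hN₂, g2⟩ := num_gap D hD κ₂ C₂ hκ₂ hC₂ δ (hδ1.trans (min_le_right _ _))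
  refine ⟨max N₁ N₂, hN₁.trans (le_max_left _ _), fun N hN t ht => ?_⟩
  have hN1' : 1 ≤ N := hN₁.trans ((le_max_left _ _).trans hN)
  have hN1 : (1 : ℝ) ≤ N := by exact_mod_cast hN1'
  have hmono : (N : ℝ) ^ (2 * δ) ≤ (((N + 1 : ℕ) : ℝ)) ^ (2 * δ) := by
    apply Real.rpow_le_rpow (by linarith) (by push_cast; linarith) (by positivity)
  have hmono2 : (((N + 1 : ℕ) : ℝ)) ^ (-(1 / (4 * D)) : ℝ) ≤ (N : ℝ) ^ (-(1 / (4 * D)) : ℝ) := by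
    apply Real.rpow_le_rpow_of_nonpos (by linarith) (by push_cast; linarith)
    have : (0 : ℝ) ≤ 1 / (4 * D) := by positivity
    linarith
  constructor
  · rintro Q ⟨hQ1, hQ2, hQ3⟩
    by_contra h0
    have h3 := h2 t Q hQ1 (by omega) _ (hQ2.trans hmono)
    have h4 := g2 N ((le_max_right _ _).trans hN)
    linarith
  · rintro Q ⟨hQ1, hQ2, hQ3⟩ Q' hQ'
    by_contra hne
    have h5 : Q' ∈ IR D ∧ (hgt Q' : ℝ) ≤ (((N + 1 : ℕ) : ℝ)) ^ (2 * δ) ∧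
        ‖vl z t Q'‖ ≤ (N : ℝ) ^ (-(1 / (4 * D)) : ℝ) := by
      rcases hQ' with ⟨a, b, c⟩ | ⟨a, b, c⟩
      · exact ⟨a, b.trans hmono, c⟩
      · exact ⟨a, b, c.trans hmono2⟩
    have h3 := h1 t ht Q hQ1 Q' h5.1 hne _ (hQ2.trans hmono) h5.2.1
    have h4 := g1 N ((le_max_left _ _).trans hN)
    have h6 : max ‖vl z t Q‖ ‖vl z t Q'‖ ≤ (N : ℝ) ^ (-(1 / (4 * D)) : ℝ) := max_le hQ3 h5.2.2
    linarith

/-- for infinitely many scales all small irreducible polynomials vanish -/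
theorem good_inf (z : ℂ) (D : ℕ) (hD : 1 ≤ D) (δ : ℝ) (t : ℂ) (N₀ : ℕ)
    (hu : ∀ N : ℕ, N₀ ≤ N → ∀ Q ∈ SmallI D δ z t N, ∀ Q' ∈ SmallI D δ z t N ∪ SmallI D δ z t (N + 1), Q = Q')
    (N₁ : ℕ) : ∃ N : ℕ, N₁ ≤ N ∧ ∀ Q ∈ SmallI D δ z t N, vl z t Q = 0 := by
  have hDR : (1 : ℝ) ≤ D := by exact_mod_cast hD
  have hD0 : (0 : ℝ) < D := by linarith
  by_contra hcon
  push Not at hcon
  obtain ⟨q, hq, hq0⟩ := hcon (max N₁ N₀) (le_max_left _ _)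
  have hall : ∀ n : ℕ, q ∈ SmallI D δ z t (max N₁ N₀ + n) := by
    intro n
    induction n with
    | zero => exact hq
    | succ n ih =>
      obtain ⟨q', hq', -⟩ := hcon (max N₁ N₀ + (n + 1)) (by have := le_max_left N₁ N₀; omega)
      have e1 := hu (max N₁ N₀ + n) (by have := le_max_right N₁ N₀; omega) q ih q' (Or.inr hq')
      rw [e1]
      exact hq'
  apply hq0
  rw [← norm_eq_zero]
  refine le_antisymm ?_ (norm_nonneg _)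
  have hpos : (0 : ℝ) < 1 / (4 * D) := by positivity
  have hlim : Filter.Tendsto (fun n : ℕ => (((max N₁ N₀ + n : ℕ) : ℝ)) ^ (-(1 / (4 * D)) : ℝ)) Filter.atTop (nhds 0) := by
    refine (tendsto_rpow_neg_atTop hpos).comp ?_
    refine tendsto_natCast_atTop_atTop.comp ?_
    exact Filter.tendsto_atTop_mono (fun n => Nat.le_add_left n _) Filter.tendsto_id
  exact ge_of_tendsto' hlim fun n => (hall n).2.2

/-- the value `P(z, t)` of a polynomial in two variables, the inner variable is `z` -/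
noncomputable def rv (z t : ℝ) : ℤ[X][X] →+* ℝ := eval₂RingHom (aeval z : ℤ[X] →ₐ[ℤ] ℝ).toRingHom t

theorem rv_coe (z t : ℝ) (P : ℤ[X][X]) : ((rv z t P : ℝ) : ℂ) = vl z t P := by
  show ((eval₂ (aeval z : ℤ[X] →ₐ[ℤ] ℝ).toRingHom t P : ℝ) : ℂ) = _
  unfold vl
  rw [eval_map, ← Complex.ofRealHom_eq_coe, hom_eval₂]
  congr 1
  refine Polynomial.ringHom_ext (fun n => ?_) ?_
  · simp [σx]
  · simp [σx]

theorem abs_rv (z t : ℝ) (P : ℤ[X][X]) : |rv z t P| = ‖vl (z : ℂ) (t : ℂ) P‖ := by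
  rw [← rv_coe, Complex.norm_real, Real.norm_eq_abs]

theorem rv_CC (z t : ℝ) (n : ℤ) : rv z t (C (C n)) = n := by
  show eval₂ (aeval z : ℤ[X] →ₐ[ℤ] ℝ).toRingHom t (C (C n)) = n
  rw [eval₂_C]
  show aeval z (C n) = _
  rw [aeval_C]
  simp

theorem vl_le (x t : ℂ) (D : ℕ) (P : ℤ[X][X]) (hy : P.natDegree ≤ D) (hx : ∀ j, (P.coeff j).natDegree ≤ D)
    (h T : ℝ) (hT : ‖t‖ ≤ T) (hh : (hgt P : ℝ) ≤ h) :
    ‖vl x t P‖ ≤ ((D + 1) * (max 1 T) ^ D * ((D + 1) * (max 1 ‖x‖) ^ D)) * h := by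
  have h0 : 0 ≤ h := le_trans (Nat.cast_nonneg _) hh
  have hc : ∀ j, ‖σx x (P.coeff j)‖ ≤ (D + 1) * (max 1 ‖x‖) ^ D * h := fun j =>
    σx_coeff x D _ h (hx j) fun i => by
      refine le_trans ?_ hh
      rw [← Int.cast_abs, Int.abs_eq_natAbs]
      exact_mod_cast le_hgt P j i
  have e1 : vl x t P = ∑ j ∈ range (D + 1), σx x (P.coeff j) * t ^ j := by
    unfold vl
    rw [eval_eq_sum_range' (n := D + 1) (lt_of_le_of_lt natDegree_map_le (by omega))]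
    simp only [coeff_map]
  rw [e1]
  calc ‖∑ j ∈ range (D + 1), σx x (P.coeff j) * t ^ j‖
      ≤ ∑ j ∈ range (D + 1), ‖σx x (P.coeff j) * t ^ j‖ := norm_sum_le _ _
    _ ≤ ∑ _j ∈ range (D + 1), ((D + 1) * (max 1 ‖x‖) ^ D * h) * (max 1 T) ^ D := by
        refine Finset.sum_le_sum fun j hj => ?_
        rw [norm_mul, norm_pow]
        have h3 : ‖t‖ ^ j ≤ (max 1 T) ^ D := by
          rw [Finset.mem_range] at hj
          calc ‖t‖ ^ j ≤ (max 1 T) ^ j := pow_le_pow_left₀ (norm_nonneg _) (hT.trans (le_max_right _ _)) j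
            _ ≤ (max 1 T) ^ D := pow_le_pow_right₀ (le_max_left _ _) (by omega)
        exact mul_le_mul (hc j) h3 (by positivity) (by positivity)
    _ = _ := by
        rw [Finset.sum_const, Finset.card_range, nsmul_eq_mul]
        push_cast
        ring

/-- **the engine**: at each large scale a vector of polynomials is uniformly distributed, or a small irreducible
polynomial divides an integer combination -/
theorem good_engine (z : ℝ) (D : ℕ) (hD : 1 ≤ D) (s : ℕ) (hs : 1 ≤ s) (K : ℕ) (A : ℝ) (hA : 1 ≤ A) (δ : ℝ)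
    (hδ : 0 < δ) (hδ1 : δ ≤ 1) : ∃ κ : ℝ, 0 < κ ∧ ∀ T : ℝ, ∃ N₀ : ℕ, 1 ≤ N₀ ∧ ∀ N : ℕ, N₀ ≤ N →
      ∀ t : ℝ, |t| ≤ T → ∀ P : Fin s → ℤ[X][X], (∀ i, (P i).natDegree ≤ D) →
      (∀ i j, ((P i).coeff j).natDegree ≤ D) → (∀ i, (hgt (P i) : ℝ) ≤ (N : ℝ) ^ κ) →
      ∀ M : ℕ, N ≤ M → (M : ℝ) ≤ (N : ℝ) ^ A → Joint κ K M (fun i => rv z t (P i)) ∨
        ∃ l : Fin s → ℤ, l ≠ 0 ∧ ∃ a : ℤ, ((∑ i, l i • P i) - C (C a) = 0 ∨
          ∃ Q ∈ SmallI D δ z t N, Q ∣ (∑ i, l i • P i) - C (C a)) := by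
  have hDR : (1 : ℝ) ≤ D := by exact_mod_cast hD
  have hD0 : (0 : ℝ) < D := by linarith
  obtain ⟨δ₂, hδ₂E⟩ : ∃ δ₂ : ℝ, δ₂ = δ / (8 * A) := ⟨_, rfl⟩
  have hA0 : 0 < A := by linarith
  have hδ₂ : 0 < δ₂ := by rw [hδ₂E]; positivity
  have hAδ₂ : A * δ₂ = δ / 8 := by rw [hδ₂E]; field_simp
  have hδ₂4 : δ₂ ≤ 1 / 8 := by nlinarith
  obtain ⟨κ₁, hκ₁, M₀, hM₀2, hjoint⟩ := joint_engine s hs K δ₂ hδ₂ (by linarith)
  refine ⟨min κ₁ (δ / 4), lt_min hκ₁ (by positivity), fun T => ?_⟩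
  obtain ⟨X, hX⟩ : ∃ X : ℝ, X = ((D + 1) * (max 1 T) ^ D * ((D + 1) * (max 1 ‖(z : ℂ)‖) ^ D)) := ⟨_, rfl⟩
  have hX0 : 0 ≤ X := by rw [hX]; positivity
  obtain ⟨M₁, hM₁, hbig⟩ := ev_rpow (δ / 2) (s * (1 + X) + 1) (by positivity)
  obtain ⟨M₂, hM₂, hbig2⟩ := ev_rpow δ (2 ^ ((D + 1) ^ 2) * (D + 1) ^ 2) (by positivity)
  refine ⟨max M₀ (max M₁ M₂), hM₁.trans ((le_max_left _ _).trans (le_max_right _ _)),
    fun N hN t ht P hPy hPx hPh M hNM hMA => ?_⟩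
  have hNM₀ : M₀ ≤ N := (le_max_left _ _).trans hN
  have hbigN := hbig N ((le_max_left _ _).trans ((le_max_right _ _).trans hN))
  have hbigN2 := hbig2 N ((le_max_right _ _).trans ((le_max_right _ _).trans hN))
  have hNpos : 2 ≤ N := hM₀2.trans hNM₀
  have hN2 : (2 : ℝ) ≤ N := by exact_mod_cast hNpos
  have hN1 : (1 : ℝ) ≤ N := by linarith
  have hN0 : (0 : ℝ) < N := by linarith
  have hMpos : 1 ≤ M := by omega
  have hM1 : (1 : ℝ) ≤ M := by exact_mod_cast hMpos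
  by_cases hgood : ∀ l : Fin s → ℤ, l ≠ 0 → (∀ j, |(l j : ℝ)| ≤ M) → (∀ j, |(l j : ℝ)| ≤ (M : ℝ) ^ δ₂) →
      ¬ Res δ₂ M (∑ j, (l j : ℝ) * rv z t (P j))
  · exact Or.inl ((hjoint M (hNM₀.trans hNM) _ hgood).mono hMpos (min_le_left _ _))
  right
  push Not at hgood
  obtain ⟨l, hl0, -, hlM, q, hq1, hqM, a, ha⟩ := hgood
  have hq0 : (q : ℤ) ≠ 0 := by exact_mod_cast (show q ≠ 0 by omega)
  refine ⟨fun i => q * l i, ?_, a, ?_⟩
  · intro h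
    apply hl0
    funext i
    have h1 := congrFun h i
    simp only [Pi.zero_apply] at h1
    rcases mul_eq_zero.1 h1 with h2 | h2
    · exact absurd h2 hq0
    · exact h2
  obtain ⟨R, hR⟩ : ∃ R : ℤ[X][X], R = (∑ i, ((q : ℤ) * l i) • P i) - C (C a) := ⟨_, rfl⟩
  rw [← hR]
  by_cases hR0 : R = 0
  · exact Or.inl hR0
  right
  -- the value of R
  have hval : rv z t R = (q : ℝ) * (∑ j, (l j : ℝ) * rv z t (P j)) - a := by
    rw [hR, map_sub, map_sum, rv_CC, Finset.mul_sum]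
    congr 1
    refine Finset.sum_congr rfl fun i _ => ?_
    rw [map_zsmul, zsmul_eq_mul]
    push_cast
    ring
  have hRv : ‖vl (z : ℂ) (t : ℂ) R‖ < ((N : ℝ) ^ (-(1 / (4 * D)) : ℝ)) ^ (2 * D) := by
    rw [← abs_rv, hval]
    refine lt_of_le_of_lt ha ?_
    have e1 : ((N : ℝ) ^ (-(1 / (4 * D)) : ℝ)) ^ (2 * D) = (N : ℝ) ^ (-(1 / 2) : ℝ) := by
      rw [← Real.rpow_natCast, ← Real.rpow_mul hN0.le]
      congr 1
      push_cast
      field_simp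
      norm_num
    rw [e1]
    calc (M : ℝ) ^ (δ₂ - 1) ≤ (N : ℝ) ^ (δ₂ - 1) :=
          Real.rpow_le_rpow_of_nonpos hN0 (by exact_mod_cast hNM) (by linarith)
      _ < (N : ℝ) ^ (-(1 / 2) : ℝ) := Real.rpow_lt_rpow_of_exponent_lt (by linarith) (by linarith)
  -- the degrees
  have hRy : R.natDegree ≤ D := by
    rw [hR]
    refine (natDegree_sub_le _ _).trans (max_le ?_ ?_)
    · refine natDegree_sum_le_of_forall_le _ _ fun i _ => ?_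
      exact (natDegree_smul_le _ _).trans (hPy i)
    · rw [natDegree_C]
      exact Nat.zero_le _
  have hRc : ∀ j, R.coeff j = (∑ i, ((q : ℤ) * l i) • (P i).coeff j) - (C (C a) : ℤ[X][X]).coeff j := by
    intro j
    rw [hR, coeff_sub, finsetSum_coeff]
    congr 1
  have hRx : ∀ j, (R.coeff j).natDegree ≤ D := by
    intro j
    rw [hRc]
    refine (natDegree_sub_le _ _).trans (max_le ?_ ?_)
    · refine natDegree_sum_le_of_forall_le _ _ fun i _ => ?_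
      exact (natDegree_smul_le _ _).trans (hPx i j)
    · rw [coeff_C]
      split_ifs
      · rw [natDegree_C]; exact Nat.zero_le _
      · rw [natDegree_zero]; exact Nat.zero_le _
  -- sizes
  have hMδ : (M : ℝ) ^ δ₂ ≤ (N : ℝ) ^ (δ / 8) := by
    rw [← hAδ₂, Real.rpow_mul hN0.le]
    exact Real.rpow_le_rpow (by positivity) hMA hδ₂.le
  have hqN : (q : ℝ) ≤ (N : ℝ) ^ (δ / 8) := hqM.trans hMδ
  have hlN : ∀ j, |(l j : ℝ)| ≤ (N : ℝ) ^ (δ / 8) := fun j => (hlM j).trans hMδ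
  have hκN : (N : ℝ) ^ (min κ₁ (δ / 4)) ≤ (N : ℝ) ^ (δ / 4) :=
    Real.rpow_le_rpow_of_exponent_le hN1 (min_le_right _ _)
  have hp8 : (N : ℝ) ^ (δ / 8) * ((N : ℝ) ^ (δ / 8) * (N : ℝ) ^ (δ / 4)) = (N : ℝ) ^ (δ / 2) := by
    rw [← Real.rpow_add hN0, ← Real.rpow_add hN0]
    congr 1
    ring
  have hx : ∀ i, |rv z t (P i)| ≤ X * (N : ℝ) ^ (δ / 4) := by
    intro i
    rw [abs_rv, hX]
    refine vl_le (z : ℂ) (t : ℂ) D (P i) (hPy i) (hPx i) _ T ?_ ((hPh i).trans hκN)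
    rw [Complex.norm_real, Real.norm_eq_abs]
    exact ht
  have hsum : |(q : ℝ) * (∑ j, (l j : ℝ) * rv z t (P j))| ≤ s * X * (N : ℝ) ^ (δ / 2) := by
    rw [abs_mul, Nat.abs_cast]
    calc (q : ℝ) * |∑ j, (l j : ℝ) * rv z t (P j)|
        ≤ (N : ℝ) ^ (δ / 8) * (∑ _j : Fin s, (N : ℝ) ^ (δ / 8) * (X * (N : ℝ) ^ (δ / 4))) := by
          refine mul_le_mul hqN ?_ (abs_nonneg _) (by positivity)
          refine (Finset.abs_sum_le_sum_abs _ _).trans (Finset.sum_le_sum fun j _ => ?_)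
          rw [abs_mul]
          exact mul_le_mul (hlN j) (hx j) (abs_nonneg _) (by positivity)
      _ = s * X * ((N : ℝ) ^ (δ / 8) * ((N : ℝ) ^ (δ / 8) * (N : ℝ) ^ (δ / 4))) := by
          rw [Finset.sum_const, Finset.card_univ, Fintype.card_fin, nsmul_eq_mul]
          ring
      _ = _ := by rw [hp8]
  have hN2' : (1 : ℝ) ≤ (N : ℝ) ^ (δ / 2) := Real.one_le_rpow hN1 (by positivity)
  have ha' : |(a : ℝ)| ≤ (s * X + 1) * (N : ℝ) ^ (δ / 2) := by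
    have h1 : |(a : ℝ)| ≤ |(q : ℝ) * (∑ j, (l j : ℝ) * rv z t (P j))| +
        |(q : ℝ) * (∑ j, (l j : ℝ) * rv z t (P j)) - a| := by
      have := abs_sub_abs_le_abs_sub (a : ℝ) ((q : ℝ) * (∑ j, (l j : ℝ) * rv z t (P j)))
      rw [abs_sub_comm] at this
      linarith
    have h2 : (M : ℝ) ^ (δ₂ - 1) ≤ 1 := Real.rpow_le_one_of_one_le_of_nonpos hM1 (by linarith)
    nlinarith
  have hcoef : ∀ j i, |((R.coeff j).coeff i : ℝ)| ≤ (N : ℝ) ^ δ := by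
    intro j i
    have e1 : (R.coeff j).coeff i = (∑ k, ((q : ℤ) * l k) * ((P k).coeff j).coeff i) -
        ((C (C a) : ℤ[X][X]).coeff j).coeff i := by
      rw [hRc, coeff_sub, finsetSum_coeff]
      congr 1
    have h1 : |((((C (C a) : ℤ[X][X]).coeff j).coeff i : ℤ) : ℝ)| ≤ |(a : ℝ)| := by
      rw [coeff_C]
      split_ifs
      · rw [coeff_C]
        split_ifs
        · exact le_rfl
        · simp
      · simp
    have h2 : |((∑ k, ((q : ℤ) * l k) * ((P k).coeff j).coeff i : ℤ) : ℝ)| ≤ s * (N : ℝ) ^ (δ / 2) := by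
      push_cast
      calc |∑ k, (q : ℝ) * (l k : ℝ) * (((P k).coeff j).coeff i : ℝ)|
          ≤ ∑ k, |(q : ℝ) * (l k : ℝ) * (((P k).coeff j).coeff i : ℝ)| := Finset.abs_sum_le_sum_abs _ _
        _ ≤ ∑ _k : Fin s, (N : ℝ) ^ (δ / 8) * ((N : ℝ) ^ (δ / 8) * (N : ℝ) ^ (δ / 4)) := by
            refine Finset.sum_le_sum fun k _ => ?_
            rw [abs_mul, abs_mul, Nat.abs_cast, mul_assoc]
            have h3 : |(((P k).coeff j).coeff i : ℝ)| ≤ (N : ℝ) ^ (δ / 4) := by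
              refine le_trans ?_ ((hPh k).trans hκN)
              rw [← Int.cast_abs, Int.abs_eq_natAbs]
              exact_mod_cast le_hgt (P k) j i
            exact mul_le_mul hqN (mul_le_mul (hlN k) h3 (abs_nonneg _) (by positivity)) (by positivity) (by positivity)
        _ = _ := by
            rw [Finset.sum_const, Finset.card_univ, Fintype.card_fin, nsmul_eq_mul, hp8]
    rw [e1]
    push_cast
    push_cast at h2
    calc |(∑ k, (q : ℝ) * (l k : ℝ) * (((P k).coeff j).coeff i : ℝ)) - (((C (C a) : ℤ[X][X]).coeff j).coeff i : ℝ)|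
        ≤ |∑ k, (q : ℝ) * (l k : ℝ) * (((P k).coeff j).coeff i : ℝ)| +
          |(((C (C a) : ℤ[X][X]).coeff j).coeff i : ℝ)| := abs_sub _ _
      _ ≤ s * (N : ℝ) ^ (δ / 2) + (s * X + 1) * (N : ℝ) ^ (δ / 2) := add_le_add h2 (h1.trans ha')
      _ = (s * (1 + X) + 1) * (N : ℝ) ^ (δ / 2) := by ring
      _ ≤ (N : ℝ) ^ (δ / 2) * (N : ℝ) ^ (δ / 2) := mul_le_mul_of_nonneg_right hbigN (by positivity)
      _ = (N : ℝ) ^ δ := by
          rw [← Real.rpow_add hN0]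
          congr 1
          ring
  have hhgt : (hgt R : ℝ) ≤ (N : ℝ) ^ δ := by
    have h6 : hgt R ≤ ⌊(N : ℝ) ^ δ⌋₊ := by
      unfold hgt
      refine Finset.sup_le fun j _ => Finset.sup_le fun i _ => ?_
      apply Nat.le_floor
      have h7 := hcoef j i
      rw [Nat.cast_natAbs, Int.cast_abs]
      exact h7
    exact (by exact_mod_cast h6 : (hgt R : ℝ) ≤ _).trans (Nat.floor_le (by positivity))
  obtain ⟨Q, hQI, hQR, hQv, hQh⟩ := small_factor (z : ℂ) (t : ℂ) D ((N : ℝ) ^ (-(1 / (4 * D)) : ℝ)) (by positivity)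
    (Real.rpow_le_one_of_one_le_of_nonpos hN1 (by
      have : (0 : ℝ) ≤ 1 / (4 * D) := by positivity
      linarith)) R hR0 hRy hRx hRv
  refine ⟨Q, ⟨hQI, ?_, hQv.le⟩, hQR⟩
  calc (hgt Q : ℝ) ≤ 2 ^ ((D + 1) ^ 2) * ((D + 1) ^ 2 * hgt R) := hQh
    _ = (2 ^ ((D + 1) ^ 2) * (D + 1) ^ 2) * hgt R := by ring
    _ ≤ (N : ℝ) ^ δ * (N : ℝ) ^ δ := mul_le_mul hbigN2 hhgt (Nat.cast_nonneg _) (by positivity)
    _ = (N : ℝ) ^ (2 * δ) := by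
        rw [← Real.rpow_add hN0]
        congr 1
        ring

end Pool.Agent.Q29.Eqd
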