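import Pool.Agent.Y118.HP.Alg7

/-!
# Algebraic independence of the periods of `y² = f(x) (x - t)` up to the Riemann-Legendre relations
-/

set_option autoImplicit false

open Matrix

namespace Pool.Agent.Q29.HypInd

open Pool.Agent.Y118.HP

variable {n : ℕ}

/-- two proper subspaces do not cover -/
theorem exists_not_mem {V : Type} [AddCommGroup V] [Module ℂ V] (A B : Submodule ℂ V) (hA : A ≠ ⊤) (hB : B ≠ ⊤) :
    ∃ u, u ∉ A ∧ u ∉ B := by
  obtain ⟨u1, hu1⟩ : ∃ u, u ∉ A := by
    by_contra h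
    push Not at h
    exact hA (Submodule.eq_top_iff'.2 h)
  obtain ⟨u2, hu2⟩ : ∃ u, u ∉ B := by
    by_contra h
    push Not at h
    exact hB (Submodule.eq_top_iff'.2 h)
  by_cases h1 : u1 ∈ B
  · by_cases h2 : u2 ∈ A
    · refine ⟨u1 + u2, fun h => hu1 ?_, fun h => hu2 ?_⟩
      · have := A.sub_mem h h2
        rwa [add_sub_cancel_right] at this
      · have := B.sub_mem h h1
        rwa [add_sub_cancel_left] at this
    · exact ⟨u2, h2, hu2⟩
  · exact ⟨u1, hu1, h1⟩

theorem TV_mem (u : Fin n → ℂ) (s : ℂ) : TV u s ∈ SpS ℂ n := by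
  rw [TV_eq]
  exact TVK_mem two_ne_zero u s

/-- general position -/
theorem exists_disjoint (hn : Even n) (E : Submodule ℂ (Fin n → ℂ)) : ∀ (k : ℕ) (W : Submodule ℂ (Fin n → ℂ)),
    Module.finrank ℂ (W ⊓ E : Submodule ℂ (Fin n → ℂ)) = k →
    Module.finrank ℂ W + Module.finrank ℂ E ≤ n → ∃ g ∈ SpS ℂ n, Disjoint (W.map (Matrix.toLin' g)) E := by
  intro k
  induction k using Nat.strong_induction_on with
  | _ k ih =>
  intro W hk h
  by_cases h0 : W ⊓ E = ⊥
  · refine ⟨1, SpS_one, ?_⟩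
    rw [toLin'_one, Submodule.map_id]
    exact disjoint_iff.2 h0
  obtain ⟨w, hw, hw0⟩ := Submodule.exists_mem_ne_zero_of_ne_bot h0
  have hkpos : 0 < k := by
    rcases Nat.eq_zero_or_pos k with h1 | h1
    · rw [h1] at hk
      exact absurd (Submodule.finrank_eq_zero.1 hk) h0
    · exact h1
  have hA : (W ⊔ E) ≠ ⊤ := by
    intro htop
    have h1 := Submodule.finrank_sup_add_finrank_inf_eq W E
    rw [htop, finrank_top, Module.finrank_fin_fun, hk] at h1
    omega
  have hdet : IsUnit (jm ℂ n).det := (jm_det hn).isUnit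
  have hA' : (W ⊔ E).comap (Matrix.toLin' (jm ℂ n)) ≠ ⊤ := by
    intro htop
    apply hA
    rw [Submodule.eq_top_iff'] at htop ⊢
    intro y
    have := htop ((jm ℂ n)⁻¹ *ᵥ y)
    rw [Submodule.mem_comap, toLin'_apply, mulVec_mulVec, mul_nonsing_inv _ hdet, one_mulVec] at this
    exact this
  obtain ⟨i, hi⟩ : ∃ i, w i ≠ 0 := by
    by_contra hcon
    push Not at hcon
    exact hw0 (funext hcon)
  let B : Submodule ℂ (Fin n → ℂ) :=
    { carrier := {u | u ⬝ᵥ w = 0}
      add_mem' := by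
        intro a b ha hb
        simp only [Set.mem_ofPred_eq] at *
        rw [add_dotProduct, ha, hb, add_zero]
      zero_mem' := by simp
      smul_mem' := by
        intro c a ha
        simp only [Set.mem_ofPred_eq] at *
        rw [smul_dotProduct, ha, smul_zero] }
  have hB : B ≠ ⊤ := by
    intro htop
    rw [Submodule.eq_top_iff'] at htop
    have h1 : (Pi.single i 1 : Fin n → ℂ) ⬝ᵥ w = 0 := htop (Pi.single i 1)
    rw [single_one_dotProduct] at h1
    exact hi h1
  obtain ⟨u, hu1, hu2⟩ := exists_not_mem _ B hA' hB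
  have hu1' : jm ℂ n *ᵥ u ∉ W ⊔ E := hu1
  have hu2' : u ⬝ᵥ w ≠ 0 := hu2
  -- the transvection
  have key : ∀ y ∈ W, TV u 1 *ᵥ y ∈ E → u ⬝ᵥ y = 0 ∧ TV u 1 *ᵥ y = y := by
    intro y hy hyE
    have h1 := TV_mulVec u 1 y
    rw [one_mul] at h1
    have h2 : u ⬝ᵥ y = 0 := by
      by_contra hne
      apply hu1'
      have h3 : jm ℂ n *ᵥ u = (u ⬝ᵥ y)⁻¹ • (TV u 1 *ᵥ y - y) := by
        rw [h1, add_sub_cancel_left, smul_smul, inv_mul_cancel₀ hne, one_smul]
      rw [h3]
      exact Submodule.smul_mem _ _ (Submodule.sub_mem _ (Submodule.mem_sup_right hyE) (Submodule.mem_sup_left hy))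
    refine ⟨h2, ?_⟩
    rw [h1, h2, zero_smul, add_zero]
  have hlt : (W.map (Matrix.toLin' (TV u 1))) ⊓ E < W ⊓ E := by
    refine lt_of_le_of_ne ?_ ?_
    · rintro x ⟨⟨y, hy, rfl⟩, hxE⟩
      rw [toLin'_apply] at hxE ⊢
      obtain ⟨h1, h2⟩ := key y hy hxE
      rw [h2] at hxE ⊢
      exact ⟨hy, hxE⟩
    · intro heq
      have hw' : w ∈ (W.map (Matrix.toLin' (TV u 1))) ⊓ E := by rw [heq]; exact hw
      obtain ⟨⟨y, hy, hyw⟩, hwE⟩ := hw'
      rw [toLin'_apply] at hyw
      have hyE : TV u 1 *ᵥ y ∈ E := by rw [hyw]; exact hwE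
      obtain ⟨h1, h2⟩ := key y hy hyE
      rw [h2] at hyw
      rw [hyw] at h1
      exact hu2' h1
  have hfr := Submodule.finrank_lt_finrank_of_lt hlt
  rw [hk] at hfr
  obtain ⟨g, hg, hd⟩ := ih _ hfr (W.map (Matrix.toLin' (TV u 1))) rfl
    (le_trans (Nat.add_le_add_right (Submodule.finrank_map_le _ _) _) h)
  refine ⟨g * TV u 1, SpS_mul hg (TV_mem u 1), ?_⟩
  rw [toLin'_mul, Submodule.map_comp]
  exact hd

/-- the leading minors of `Zᵀ Ω` -/
def Dt {R : Type*} [CommRing R] (Z Om : Matrix (Fin n) (Fin n) R) (j : Fin (n + 1)) : R :=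
  ((Z.transpose * Om).submatrix (Fin.castLE (Nat.lt_succ_iff.1 j.2)) (Fin.castLE (Nat.lt_succ_iff.1 j.2))).det

theorem Dt_map {R R' : Type*} [CommRing R] [CommRing R'] (φ : R →+* R') (Z Om : Matrix (Fin n) (Fin n) R)
    (j : Fin (n + 1)) : φ (Dt Z Om j) = Dt (Z.map φ) (Om.map φ) j := by
  unfold Dt
  rw [RingHom.map_det, RingHom.mapMatrix_apply, ← Matrix.submatrix_map, Matrix.map_mul, Matrix.transpose_map]

/-- one minor -/
theorem exists_one (hn : Even n) (Z₀ Om : Matrix (Fin n) (Fin n) ℂ) (hZ : Z₀.det ≠ 0) (hOm : Om.det ≠ 0) (j : Fin (n + 1)) :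
    ∃ g ∈ SpS ℂ n, Dt (g * Z₀) Om j ≠ 0 := by
  have hj : (j : ℕ) ≤ n := Nat.lt_succ_iff.1 j.2
  -- coordinate subspaces
  let V : Submodule ℂ (Fin n → ℂ) :=
    { carrier := {x | ∀ i : Fin n, (j : ℕ) ≤ i → x i = 0}
      add_mem' := by
        intro a b ha hb i hi
        rw [Pi.add_apply, ha i hi, hb i hi, add_zero]
      zero_mem' := fun i _ => rfl
      smul_mem' := by
        intro c a ha i hi
        rw [Pi.smul_apply, ha i hi, smul_zero] }
  let U : Submodule ℂ (Fin n → ℂ) :=
    { carrier := {x | ∀ i : Fin n, (i : ℕ) < j → x i = 0}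
      add_mem' := by
        intro a b ha hb i hi
        rw [Pi.add_apply, ha i hi, hb i hi, add_zero]
      zero_mem' := fun i _ => rfl
      smul_mem' := by
        intro c a ha i hi
        rw [Pi.smul_apply, ha i hi, smul_zero] }
  have hVU : V ⊓ U = ⊥ := by
    rw [eq_bot_iff]
    rintro x ⟨h1, h2⟩
    rw [Submodule.mem_bot]
    funext i
    rcases le_or_gt (j : ℕ) i with h | h
    · exact h1 i h
    · exact h2 i h
  have hfr : Module.finrank ℂ V + Module.finrank ℂ U ≤ n := by
    have h1 := Submodule.finrank_sup_add_finrank_inf_eq V U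
    rw [hVU, finrank_bot, add_zero] at h1
    rw [← h1]
    calc Module.finrank ℂ (V ⊔ U : Submodule ℂ (Fin n → ℂ)) ≤ Module.finrank ℂ (Fin n → ℂ) := Submodule.finrank_le _
      _ = n := Module.finrank_fin_fun ℂ
  have hOmT : IsUnit (Om.transpose).det := by
    rw [det_transpose]
    exact hOm.isUnit
  obtain ⟨g, hg, hd⟩ := exists_disjoint hn (U.map (Matrix.toLin' (Om.transpose)⁻¹)) _ (V.map (Matrix.toLin' Z₀)) rfl
    (le_trans (Nat.add_le_add (Submodule.finrank_map_le _ _) (Submodule.finrank_map_le _ _)) hfr)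
  refine ⟨g, hg, fun h0 => ?_⟩
  unfold Dt at h0
  obtain ⟨y, hy0, hy⟩ := Matrix.exists_vecMul_eq_zero_iff.2 h0
  -- the extension of `y`
  let y' : Fin n → ℂ := fun i => if h : (i : ℕ) < j then y ⟨i, h⟩ else 0
  have hy'V : y' ∈ V := by
    intro i hi
    simp only [y', dif_neg (not_lt.2 hi)]
  have hgdet : g.det ≠ 0 := by
    intro h1
    have h2 : g * jm ℂ n * g.transpose = jm ℂ n := hg
    have h3 := congrArg Matrix.det h2
    rw [det_mul, det_mul, h1, zero_mul, zero_mul] at h3
    exact jm_det hn h3.symm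
  set x : Fin n → ℂ := (g * Z₀) *ᵥ y' with hx
  have hxW : x ∈ (V.map (Matrix.toLin' Z₀)).map (Matrix.toLin' g) := by
    refine ⟨Z₀ *ᵥ y', ⟨y', hy'V, rfl⟩, ?_⟩
    rw [toLin'_apply, mulVec_mulVec]
  have hxE : x ∈ U.map (Matrix.toLin' (Om.transpose)⁻¹) := by
    refine ⟨Om.transpose *ᵥ x, ?_, ?_⟩
    · intro l hl
      have h1 := congrFun hy ⟨l, hl⟩
      rw [Pi.zero_apply] at h1
      rw [← h1, hx, mulVec_mulVec]
      show ∑ i, (Om.transpose * (g * Z₀)) l i * y' i = ∑ i, y i * _
      have h2 : ∀ i, (Om.transpose * (g * Z₀)) l i = ((g * Z₀).transpose * Om) i l := by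
        intro i
        rw [← transpose_apply (Om.transpose * (g * Z₀)), transpose_mul, transpose_transpose]
      simp only [h2]
      -- restrict the sum
      have h3 : ∑ i : Fin n, ((g * Z₀).transpose * Om) i l * y' i =
          ∑ i ∈ Finset.univ.image (Fin.castLE hj), ((g * Z₀).transpose * Om) i l * y' i := by
        refine (Finset.sum_subset (Finset.subset_univ _) fun i _ hi => ?_).symm
        have : ¬ (i : ℕ) < j := by
          intro hlt
          apply hi
          rw [Finset.mem_image]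
          exact ⟨⟨i, hlt⟩, Finset.mem_univ _, Fin.ext rfl⟩
        simp only [y', dif_neg this, mul_zero]
      rw [h3, Finset.sum_image (fun a _ b _ hab => Fin.castLE_injective hj hab)]
      refine Finset.sum_congr rfl fun i _ => ?_
      have h4 : y' (Fin.castLE hj i) = y i := by
        simp only [y', Fin.val_castLE, i.2, dif_pos]
      rw [h4, mul_comm]
      rfl
    · rw [toLin'_apply, mulVec_mulVec, nonsing_inv_mul _ hOmT, one_mulVec]
  have hx0 : x = 0 := by
    have := Submodule.disjoint_def.1 hd x hxW hxE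
    exact this
  have hy'0 : y' = 0 := by
    refine Matrix.eq_zero_of_mulVec_eq_zero (M := g * Z₀) ?_ hx0
    rw [det_mul]
    exact mul_ne_zero hgdet hZ
  apply hy0
  funext i
  have h4 : y' (Fin.castLE hj i) = y i := by
    simp only [y', Fin.val_castLE, i.2, dif_pos]
  rw [← h4, hy'0]
  rfl

/-- all minors -/
theorem exists_all (hn : Even n) (Z₀ Om : Matrix (Fin n) (Fin n) ℂ) (hZ : Z₀.det ≠ 0) (hOm : Om.det ≠ 0) :
    ∃ g ∈ SpS ℂ n, ∀ j, Dt (g * Z₀) Om j ≠ 0 := by
  classical
  have key : ∀ s : Finset (Fin (n + 1)), ∃ g ∈ SpS ℂ n, ∀ j ∈ s, Dt (g * Z₀) Om j ≠ 0 := by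
    intro s
    induction s using Finset.induction_on with
    | empty => exact ⟨1, SpS_one, fun j hj => absurd hj (Finset.notMem_empty j)⟩
    | insert j₀ s hj₀ ih =>
      obtain ⟨g, hg, hgs⟩ := ih
      obtain ⟨g', hg', hg's⟩ := exists_one hn Z₀ Om hZ hOm j₀
      obtain ⟨hgi, hgg⟩ := SpS_inv hn hg
      obtain ⟨G, hG0, hG1, hGS⟩ := exists_path hn (g' * g⁻¹) (SpS_mul hg' hgi)
      let f : Fin (n + 1) → Polynomial ℂ := fun j =>
        Dt (G * (g * Z₀).map Polynomial.C) (Om.map Polynomial.C) j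
      have hf : ∀ j s, Polynomial.eval s (f j) = Dt (G.map (Polynomial.eval s) * (g * Z₀)) Om j := by
        intro j s
        have h1 := Dt_map (Polynomial.evalRingHom s) (G * (g * Z₀).map Polynomial.C) (Om.map Polynomial.C) j
        have h2 : Polynomial.eval s (f j) = Polynomial.evalRingHom s (f j) := rfl
        rw [h2]
        refine h1.trans ?_
        rw [Matrix.map_mul]
        have h3 : ∀ M : Matrix (Fin n) (Fin n) ℂ, (M.map Polynomial.C).map (Polynomial.evalRingHom s) = M := by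
          intro M
          ext i k
          simp
        rw [h3, h3]
        rfl
      have hne : ∏ j ∈ insert j₀ s, f j ≠ 0 := by
        rw [Finset.prod_ne_zero_iff]
        intro j hj h0
        rcases Finset.mem_insert.1 hj with h1 | h1
        · apply hg's
          have h2 := hf j 1
          rw [h0, Polynomial.eval_zero, hG1] at h2
          rw [h1] at h2
          have h3 : g' * g⁻¹ * (g * Z₀) = g' * Z₀ := by
            rw [Matrix.mul_assoc, ← Matrix.mul_assoc g⁻¹, hgg, one_mul]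
          rw [h3] at h2
          exact h2.symm
        · apply hgs j h1
          have h2 := hf j 0
          rw [h0, Polynomial.eval_zero, hG0, one_mul] at h2
          exact h2.symm
      obtain ⟨s₀, hs₀⟩ : ∃ s₀, Polynomial.eval s₀ (∏ j ∈ insert j₀ s, f j) ≠ 0 := by
        by_contra hcon
        push Not at hcon
        exact hne (Polynomial.funext fun x => by rw [hcon x, Polynomial.eval_zero])
      refine ⟨G.map (Polynomial.eval s₀) * g, SpS_mul (hGS s₀) hg, fun j hj => ?_⟩
      rw [Polynomial.eval_prod, Finset.prod_ne_zero_iff] at hs₀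
      have := hs₀ j hj
      rw [hf] at this
      rw [Matrix.mul_assoc]
      exact this
  obtain ⟨g, hg, h⟩ := key Finset.univ
  exact ⟨g, hg, fun j => h j (Finset.mem_univ j)⟩

end Pool.Agent.Q29.HypInd
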