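import Pool.Agent.Q29.HypInd

/-!
# Algebraic independence of the entries on and below the diagonal on cosets of the symplectic group
-/

set_option autoImplicit false

open Matrix Filter Topology

namespace Pool.Agent.Q29.HypInd

open Pool.Agent.Y118.HP

variable {n : ℕ}

/-- index set: entries on and below the diagonal -/
abbrev LT (n : ℕ) : Type := {x : Fin n × Fin n // x.2 ≤ x.1}

/-- symmetric matrix with given entries on and below the diagonal -/
def Sy (s : LT n → ℂ) : Matrix (Fin n) (Fin n) ℂ :=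
  Matrix.of fun l j => if h : j ≤ l then s ⟨(l, j), h⟩ else s ⟨(j, l), (not_le.1 h).le⟩

theorem Sy_transpose (s : LT n → ℂ) : (Sy s).transpose = Sy s := by
  ext l j
  rw [transpose_apply]
  unfold Sy
  rw [Matrix.of_apply, Matrix.of_apply]
  by_cases h1 : l ≤ j
  · by_cases h2 : j ≤ l
    · have h3 : l = j := le_antisymm h1 h2
      subst h3
      rfl
    · rw [dif_pos h1, dif_neg h2]
  · have h2 : j ≤ l := (not_le.1 h1).le
    rw [dif_neg h1, dif_pos h2]

theorem Sy_add (s t : LT n → ℂ) : Sy (s + t) = Sy s + Sy t := by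
  ext l j
  unfold Sy
  rw [Matrix.add_apply, Matrix.of_apply, Matrix.of_apply, Matrix.of_apply]
  split_ifs <;> rfl

theorem Sy_smul (c : ℂ) (s : LT n → ℂ) : Sy (c • s) = c • Sy s := by
  ext l j
  unfold Sy
  rw [Matrix.smul_apply, Matrix.of_apply, Matrix.of_apply]
  split_ifs <;> rfl

theorem Sy_zero (s : LT n → ℂ) (h : Sy s = 0) : s = 0 := by
  funext ⟨⟨l, j⟩, hlj⟩
  have h1 : Sy s l j = 0 := by rw [h]; rfl
  unfold Sy at h1
  rw [Matrix.of_apply, dif_pos hlj] at h1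
  exact h1

/-- `exp (J S)` is symplectic -/
theorem exp_mem (hn : Even n) (S : Matrix (Fin n) (Fin n) ℂ) (hS : S.transpose = S) :
    NormedSpace.exp (jm ℂ n * S) ∈ SpS ℂ n := by
  have hdet : IsUnit (jm ℂ n).det := (jm_det hn).isUnit
  have hU : IsUnit (jm ℂ n) := (Matrix.isUnit_iff_isUnit_det _).2 hdet
  show NormedSpace.exp (jm ℂ n * S) * jm ℂ n * (NormedSpace.exp (jm ℂ n * S)).transpose = jm ℂ n
  rw [← exp_transpose, transpose_mul, hS, jm_transpose, mul_neg, Matrix.exp_neg]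
  have h1 : jm ℂ n * S = jm ℂ n * (S * jm ℂ n) * (jm ℂ n)⁻¹ := by
    rw [← Matrix.mul_assoc, Matrix.mul_assoc (jm ℂ n * S), mul_nonsing_inv _ hdet, mul_one]
  rw [h1, Matrix.exp_conj _ _ hU]
  have h2 : IsUnit (NormedSpace.exp (S * jm ℂ n)).det := (Matrix.isUnit_iff_isUnit_det _).1 (Matrix.isUnit_exp _)
  calc jm ℂ n * NormedSpace.exp (S * jm ℂ n) * (jm ℂ n)⁻¹ * jm ℂ n * (NormedSpace.exp (S * jm ℂ n))⁻¹
      = jm ℂ n * (NormedSpace.exp (S * jm ℂ n) * ((jm ℂ n)⁻¹ * jm ℂ n) * (NormedSpace.exp (S * jm ℂ n))⁻¹) := by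
        simp only [Matrix.mul_assoc]
    _ = jm ℂ n := by rw [nonsing_inv_mul _ hdet, mul_one, mul_nonsing_inv _ h2, mul_one]

/-- injectivity of the derivative -/
theorem inj (hn : Even n) (Z : Matrix (Fin n) (Fin n) ℂ) (hZ : Z.det ≠ 0) (hD : ∀ j, Dt Z (jm ℂ n)⁻¹ j ≠ 0)
    (s : LT n → ℂ) (hs : ∀ x : LT n, (jm ℂ n * Sy s * Z) x.1.1 x.1.2 = 0) : s = 0 := by
  have hdet : IsUnit (jm ℂ n).det := (jm_det hn).isUnit
  set Y := jm ℂ n * Sy s * Z with hY
  set M := Z.transpose * (jm ℂ n)⁻¹ * Y with hM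
  have hMS : M = Z.transpose * Sy s * Z := by
    rw [hM, hY]
    calc Z.transpose * (jm ℂ n)⁻¹ * (jm ℂ n * Sy s * Z) = Z.transpose * (((jm ℂ n)⁻¹ * jm ℂ n) * (Sy s * Z)) := by
          simp only [Matrix.mul_assoc]
      _ = Z.transpose * Sy s * Z := by rw [nonsing_inv_mul _ hdet, one_mul, Matrix.mul_assoc]
  have hMT : M.transpose = M := by
    rw [hMS, transpose_mul, transpose_mul, Sy_transpose, transpose_transpose, Matrix.mul_assoc]
  have hsym : ∀ i j, M i j = M j i := by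
    intro i j
    have := congrFun (congrFun hMT j) i
    rw [transpose_apply] at this
    exact this
  have hcol : ∀ k : ℕ, ∀ j : Fin n, (j : ℕ) = k → ∀ l, Y l j = 0 := by
    intro k
    induction k using Nat.strong_induction_on with
    | _ k ih =>
    intro j hjk l
    have hjn : (⟨(j : ℕ), j.2.trans (Nat.lt_succ_self n)⟩ : Fin (n + 1)).1 ≤ n := j.2.le
    -- the upper part
    have hrow : ∀ i : Fin n, i < j → M i j = 0 := by
      intro i hi
      rw [hsym]
      show (Z.transpose * (jm ℂ n)⁻¹ * Y) j i = 0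
      rw [Matrix.mul_apply]
      refine Finset.sum_eq_zero fun l' _ => ?_
      rw [ih i (by rw [← hjk]; exact hi) i rfl l', mul_zero]
    have hlow : ∀ l' : Fin n, j ≤ l' → Y l' j = 0 := fun l' hl' => hs ⟨(l', j), hl'⟩
    have hz : (fun l' : Fin (j : ℕ) => Y (Fin.castLE hjn l') j) = 0 := by
      refine Matrix.eq_zero_of_mulVec_eq_zero (hD ⟨(j : ℕ), j.2.trans (Nat.lt_succ_self n)⟩) ?_
      funext i
      rw [Pi.zero_apply]
      have h1 : M (Fin.castLE hjn i) j = 0 := hrow _ (by rw [Fin.lt_def]; exact i.2)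
      rw [← h1]
      show ∑ l' : Fin (j : ℕ), (Z.transpose * (jm ℂ n)⁻¹) (Fin.castLE hjn i) (Fin.castLE hjn l') * Y (Fin.castLE hjn l') j =
        ∑ l', (Z.transpose * (jm ℂ n)⁻¹) (Fin.castLE hjn i) l' * Y l' j
      rw [← Finset.sum_image (s := Finset.univ) (g := Fin.castLE hjn)
        (f := fun l' => (Z.transpose * (jm ℂ n)⁻¹) (Fin.castLE hjn i) l' * Y l' j)
        (fun a _ b _ hab => Fin.castLE_injective hjn hab)]
      refine Finset.sum_subset (Finset.subset_univ _) fun l' _ hl' => ?_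
      have : ¬ (l' : ℕ) < j := by
        intro hlt
        apply hl'
        rw [Finset.mem_image]
        exact ⟨⟨l', hlt⟩, Finset.mem_univ _, Fin.ext rfl⟩
      rw [hlow l' (by rw [Fin.le_def]; omega), mul_zero]
    rcases lt_or_ge l j with h1 | h1
    · exact congrFun hz ⟨l, h1⟩
    · exact hlow l h1
  have hY0 : Y = 0 := by
    ext l j
    exact hcol j j rfl l
  apply Sy_zero
  have hZu : IsUnit Z.det := hZ.isUnit
  have h1 : Sy s = (jm ℂ n)⁻¹ * Y * Z⁻¹ := by
    rw [hY, Matrix.mul_assoc (jm ℂ n), ← Matrix.mul_assoc (jm ℂ n)⁻¹, nonsing_inv_mul _ hdet, one_mul, Matrix.mul_assoc,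
      mul_nonsing_inv _ hZu, mul_one]
  rw [h1, hY0, mul_zero, zero_mul]

/-- vanishing near a point -/
theorem eq_zero_of_nhds {σ : Type} [Fintype σ] (P : MvPolynomial σ ℂ) (c : σ → ℂ)
    (h : ∀ᶠ y in 𝓝 c, MvPolynomial.eval y P = 0) : P = 0 := by
  obtain ⟨ε, hε, hball⟩ := Metric.eventually_nhds_iff.1 h
  refine MvPolynomial.funext_set (fun i => Metric.ball (c i) ε) (fun i => ?_) fun y hy => ?_
  · exact infinite_of_mem_nhds (c i) (Metric.ball_mem_nhds _ hε)
  · rw [map_zero]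
    apply hball
    rw [dist_pi_lt_iff hε]
    intro i
    exact hy i (Set.mem_univ i)

section

open scoped Matrix.Norms.Operator

/-- local surjectivity -/
theorem local_surj (hn : Even n) (Z : Matrix (Fin n) (Fin n) ℂ) (hZ : Z.det ≠ 0) (hD : ∀ j, Dt Z (jm ℂ n)⁻¹ j ≠ 0)
    (Q : (LT n → ℂ) → Prop) (hQ : ∀ g ∈ SpS ℂ n, Q fun x => (g * Z) x.1.1 x.1.2) :
    ∀ᶠ y in 𝓝 (fun x : LT n => Z x.1.1 x.1.2), Q y := by
  let L : (LT n → ℂ) →ₗ[ℂ] Matrix (Fin n) (Fin n) ℂ :=
    { toFun := fun s => jm ℂ n * Sy s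
      map_add' := fun s t => by rw [Sy_add, mul_add]
      map_smul' := fun c s => by rw [Sy_smul, Matrix.mul_smul]; rfl }
  let R : Matrix (Fin n) (Fin n) ℂ →ₗ[ℂ] (LT n → ℂ) :=
    { toFun := fun M x => (M * Z) x.1.1 x.1.2
      map_add' := fun s t => by funext x; rw [add_mul]; rfl
      map_smul' := fun c s => by funext x; rw [Matrix.smul_mul]; rfl }
  let Lc : (LT n → ℂ) →L[ℂ] Matrix (Fin n) (Fin n) ℂ := LinearMap.toContinuousLinearMap L
  let Rc : Matrix (Fin n) (Fin n) ℂ →L[ℂ] (LT n → ℂ) := LinearMap.toContinuousLinearMap R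
  let F : (LT n → ℂ) → (LT n → ℂ) := fun s => Rc (NormedSpace.exp (Lc s))
  have hF : HasStrictFDerivAt F (Rc.comp ((1 : Matrix (Fin n) (Fin n) ℂ →L[ℂ] Matrix (Fin n) (Fin n) ℂ).comp Lc)) 0 := by
    have h1 : HasStrictFDerivAt (NormedSpace.exp : Matrix (Fin n) (Fin n) ℂ → Matrix (Fin n) (Fin n) ℂ)
        (1 : Matrix (Fin n) (Fin n) ℂ →L[ℂ] Matrix (Fin n) (Fin n) ℂ) (Lc 0) := by
      rw [map_zero]
      exact hasStrictFDerivAt_exp_zero
    exact Rc.hasStrictFDerivAt.comp 0 (h1.comp 0 Lc.hasStrictFDerivAt)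
  have hinj : Function.Injective (R ∘ₗ L) := by
    rw [injective_iff_map_eq_zero]
    intro s hs
    refine inj hn Z hZ hD s fun x => ?_
    exact congrFun hs x
  have hsurj : Function.Surjective (R ∘ₗ L) := LinearMap.injective_iff_surjective.1 hinj
  have hrange : (Rc.comp ((1 : Matrix (Fin n) (Fin n) ℂ →L[ℂ] Matrix (Fin n) (Fin n) ℂ).comp Lc)).range = ⊤ := by
    rw [LinearMap.range_eq_top]
    intro y
    obtain ⟨s, hs⟩ := hsurj y
    exact ⟨s, hs⟩
  have hmap := hF.map_nhds_eq_of_surj hrange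
  have hF0 : F 0 = fun x : LT n => Z x.1.1 x.1.2 := by
    show Rc (NormedSpace.exp (Lc 0)) = _
    rw [map_zero, NormedSpace.exp_zero]
    funext x
    show ((1 : Matrix (Fin n) (Fin n) ℂ) * Z) x.1.1 x.1.2 = _
    rw [one_mul]
  rw [← hF0, ← hmap, eventually_map]
  exact Eventually.of_forall fun s => hQ _ (exp_mem hn (Sy s) (Sy_transpose s))

end

/-- the entries on and below the diagonal are algebraically independent on every coset -/
theorem coset (hn : Even n) (Z₀ : Matrix (Fin n) (Fin n) ℂ) (hZ : Z₀.det ≠ 0) (P : MvPolynomial (LT n) ℂ)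
    (hP : ∀ g ∈ SpS ℂ n, MvPolynomial.eval (fun x => (g * Z₀) x.1.1 x.1.2) P = 0) : P = 0 := by
  have hdet : IsUnit (jm ℂ n).det := (jm_det hn).isUnit
  have hJ : ((jm ℂ n)⁻¹).det ≠ 0 := by
    rw [det_nonsing_inv]
    exact (isUnit_ringInverse.2 hdet).ne_zero
  obtain ⟨g, hg, hD⟩ := exists_all hn Z₀ (jm ℂ n)⁻¹ hZ hJ
  have hgdet : g.det ≠ 0 := by
    intro h1
    have h2 : g * jm ℂ n * g.transpose = jm ℂ n := hg
    have h3 := congrArg Matrix.det h2
    rw [det_mul, det_mul, h1, zero_mul, zero_mul] at h3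
    exact jm_det hn h3.symm
  refine eq_zero_of_nhds P _ (local_surj hn (g * Z₀) (by rw [det_mul]; exact mul_ne_zero hgdet hZ) hD
    (fun y => MvPolynomial.eval y P = 0) fun h hh => ?_)
  have := hP (h * g) (SpS_mul hh hg)
  rw [Matrix.mul_assoc] at this
  exact this

end Pool.Agent.Q29.HypInd
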