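import Pool.Agent.Q29.HypInd2

/-!
# Algebraic independence over `ℝ[t]` of the periods of `y² = ∏ (x - a_i) (x - t)` on and below the diagonal
-/

set_option autoImplicit false

open Matrix Polynomial

namespace Pool.Agent.Q29.HypInd

open Pool.Agent.Y118.HP

variable {n : ℕ}

theorem RM_det (hn : Even n) {a : Fin n → ℝ} (ha : StrictMono a) {m : Fin (n + 1)} {t : ℝ} (ht : InGap a m t) :
    (RM a m t).det ≠ 0 := by
  intro h0
  have h1 := congrArg Matrix.det (legendre hn (er a m t) (er_strictMono ha ht))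
  have h2 : (perM (er a m t)).det = 0 := h0
  rw [det_mul, det_mul, h2, zero_mul, zero_mul, det_smul] at h1
  exact mul_ne_zero (pow_ne_zero _ Real.pi_ne_zero) (jm_det hn) h1.symm

/-- the functions -/
noncomputable def fH (a : Fin n → ℝ) (m : Fin (n + 1)) (x : LT n) (t : ℝ) : ℝ := per (er a m t) x.1.1 x.1.2

theorem fH_an {a : Fin n → ℝ} (ha : StrictMono a) (m : Fin (n + 1)) (x : LT n) {t : ℝ} (ht : InGap a m t) :
    AnalyticAt ℝ (fH a m x) t := per_analytic ha m x.1.1 x.1.2 ht

theorem fH_ind (hn : Even n) {a : Fin n → ℝ} (ha : StrictMono a) (m : Fin (n + 1)) (d : ℕ) (α β : ℝ) (hαβ : α < β)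
    (hgap : ∀ t ∈ Set.Icc α β, InGap a m t) :
    Pool.Agent.TH818.AP.RIndep (fun (e : LT n → Fin (d + 1)) (t : ℝ) => ∏ x, fH a m x t ^ (e x : ℕ)) α β := by
  classical
  intro p hp
  set e0 : ℂ[X] →ₐ[ℂ] MvPolynomial (Option (Fin n × Fin n)) ℂ := Polynomial.aeval (MvPolynomial.X none) with he0
  set P : MvPolynomial (Option (Fin n × Fin n)) ℂ := ∑ e : LT n → Fin (d + 1), e0 ((p e).map (algebraMap ℝ ℂ)) *
    ∏ x : LT n, MvPolynomial.X (some x.1) ^ (e x : ℕ) with hP
  have hev0 : ∀ (z : ℂ) (X : Matrix (Fin n) (Fin n) ℂ) (q : ℂ[X]), ev (e0 q) z X = q.eval z := by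
    intro z X q
    unfold ev
    rw [← MvPolynomial.coe_aeval_eq_eval, RingHom.coe_coe, he0, ← Polynomial.aeval_algHom_apply, MvPolynomial.aeval_X]
    simp [Polynomial.coe_aeval_eq_eval]
  have hev : ∀ (z : ℂ) (X : Matrix (Fin n) (Fin n) ℂ), ev P z X = ∑ e : LT n → Fin (d + 1), (aeval z (p e) : ℂ) *
      ∏ x : LT n, X x.1.1 x.1.2 ^ (e x : ℕ) := by
    intro z X
    have h1 : ev P z X = ∑ e : LT n → Fin (d + 1), ev (e0 ((p e).map (algebraMap ℝ ℂ))) z X *
        ∏ x : LT n, X x.1.1 x.1.2 ^ (e x : ℕ) := by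
      rw [hP]
      unfold ev
      simp only [map_sum, map_mul, map_prod, map_pow, MvPolynomial.eval_X, Option.elim]
    rw [h1]
    refine Finset.sum_congr rfl fun k _ => ?_
    rw [hev0, eval_map_algebraMap]
  have haev : ∀ (t : ℝ) (q : ℝ[X]), (aeval (t : ℂ) q : ℂ) = ((q.eval t : ℝ) : ℂ) := by
    intro t q
    have := Polynomial.aeval_algebraMap_apply ℂ t q
    rw [coe_aeval_eq_eval] at this
    simpa using this
  have hreal : ∀ t ∈ Set.Icc α β, ev P (t : ℂ) (PM a m t) = 0 := by
    intro t ht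
    rw [hev, PM_real ha (hgap t ht)]
    have h1 := hp t ht
    have h2 := congrArg (algebraMap ℝ ℂ) h1
    rw [map_sum, map_zero] at h2
    rw [← h2]
    refine Finset.sum_congr rfl fun e _ => ?_
    rw [haev, map_mul, map_prod]
    congr 1
    refine Finset.prod_congr rfl fun x _ => ?_
    rw [map_pow]
    rfl
  have key : ∀ t ∈ Set.Icc α β, ∀ e, (p e).eval t = 0 := by
    intro t ht e
    have htg := hgap t ht
    -- the polynomial at `t`
    let sO : (LT n → Fin (d + 1)) → (LT n →₀ ℕ) := fun e => Finsupp.equivFunOnFinite.symm fun x => (e x : ℕ)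
    have hsO : Function.Injective sO := by
      intro e e' h
      funext x
      have h1 := DFunLike.congr_fun h x
      exact Fin.ext h1
    have hZ : (PM a m (t : ℂ)).det ≠ 0 := by
      rw [PM_real ha htg]
      have h1 : ((RM a m t).map (algebraMap ℝ ℂ)).det = algebraMap ℝ ℂ (RM a m t).det := by
        rw [RingHom.map_det]
        rfl
      rw [h1]
      intro h2
      exact RM_det hn ha htg ((map_eq_zero_iff (algebraMap ℝ ℂ) (algebraMap ℝ ℂ).injective).1 h2)
    have hzero := coset hn (PM a m (t : ℂ)) hZ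
      (∑ e : LT n → Fin (d + 1), MvPolynomial.monomial (sO e) ((((p e).eval t : ℝ)) : ℂ)) (fun g hg => by
        have h3 := func_inv hn ha m P hαβ hgap hreal g hg (t : ℂ) htg.mem_Dm
        rw [hev] at h3
        rw [map_sum, ← h3]
        refine Finset.sum_congr rfl fun e _ => ?_
        rw [MvPolynomial.eval_monomial, Finsupp.prod_fintype _ _ (by simp), haev]
        rfl)
    have h4 := congrArg (MvPolynomial.coeff (sO e)) hzero
    rw [MvPolynomial.coeff_sum, MvPolynomial.coeff_zero, Finset.sum_eq_single e] at h4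
    · rw [MvPolynomial.coeff_monomial, if_pos rfl] at h4
      exact_mod_cast h4
    · intro e' _ he'
      rw [MvPolynomial.coeff_monomial, if_neg]
      intro h
      exact he' (hsO h)
    · intro h
      exact absurd (Finset.mem_univ _) h
  funext e
  rw [Pi.zero_apply]
  refine Polynomial.eq_zero_of_infinite_isRoot _ ((Set.Icc_infinite hαβ).mono ?_)
  intro t ht
  exact key t ht e

end Pool.Agent.Q29.HypInd
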