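import Pool.Agent.Y771.RP.Rel
import Pool.Agent.Y549.GM.Loc
import Pool.Agent.H340R2.LW

/-!
# Values of the Gamma function at the rational numbers with a given denominator
-/

set_option autoImplicit false

open MvPolynomial NumberField

namespace Pool.Agent.Q29.LR

/-- the numerators `a`, `1 ≤ a < q / 2`, prime to `q` -/
def Num (q : ℕ) : Finset ℕ := (Finset.range q).filter fun a => 1 ≤ a ∧ 2 * a < q ∧ a.Coprime q

theorem card_Num (q : ℕ) : (Num q).card ≤ q.totient := by
  rw [Nat.totient_eq_card_coprime]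
  refine Finset.card_le_card fun a ha => ?_
  rw [Num, Finset.mem_filter] at ha
  rw [Finset.mem_filter]
  exact ⟨ha.1, ha.2.2.2.symm⟩

/-- the segment `[0, 1]` in `ℂ` -/
def Seg : Set ℂ := (fun x : ℝ => (x : ℂ)) '' Set.Icc 0 1

theorem seg_compact : IsCompact Seg := isCompact_Icc.image Complex.continuous_ofReal

theorem seg_ne {t : ℂ} (ht : t ∈ Seg) (m : ℕ) : t + 1 ≠ -m := by
  obtain ⟨x, hx, rfl⟩ := ht
  intro h
  have h1 : ((x + 1 : ℝ) : ℂ) = ((-(m : ℝ) : ℝ) : ℂ) := by push_cast; exact h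
  have h2 : x + 1 = -(m : ℝ) := Complex.ofReal_injective h1
  have h3 := hx.1
  have h4 : (0 : ℝ) ≤ m := Nat.cast_nonneg m
  linarith

theorem gam_an {t : ℂ} (ht : t ∈ Seg) : AnalyticAt ℂ (fun s => Complex.Gamma (s + 1)) t := by
  have h1 := Pool.Agent.Y771.RP.Gamma_analyticAt (z := t + 1) (seg_ne ht)
  have h2 : AnalyticAt ℂ (fun s : ℂ => s + 1) t := by fun_prop
  exact AnalyticAt.comp (g := Complex.Gamma) (f := fun s : ℂ => s + 1) h1 h2

theorem gam_ind {t : ℂ} (ht : t ∈ Seg) :
    Pool.Agent.Y124.LocInd (fun (_ : Unit) s => Complex.Gamma (s + 1)) t := by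
  refine Pool.Agent.Y549.GM.locInd (κ := Unit) Set.univ isOpen_univ isPreconnected_univ
    (fun _ s => s + 1) (fun _ => (differentiable_id.add_const 1).differentiableOn)
    (fun _ => ?_) (fun _ v h => ?_) (fun i k hik => absurd (Subsingleton.elim i k) hik) t
    (Set.mem_univ _) (fun _ m => seg_ne ht m)
  · refine ⟨Polynomial.X - Polynomial.C (Polynomial.X + 1), Polynomial.X_sub_C_ne_zero _, fun s _ => ?_⟩
    simp [Polynomial.evalEval]
  · have h1 := h 0 (Set.mem_univ _)
    have h2 := h 1 (Set.mem_univ _)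
    rw [← h1] at h2
    norm_num at h2

/-- `Γ(a/q) = (q / a) Γ(a/q + 1)` -/
theorem gam_eq {a q : ℕ} (ha : 1 ≤ a) (hq : 1 ≤ q) :
    (a : ℂ) * Complex.Gamma ((a : ℂ) / q) = q * Complex.Gamma ((a : ℂ) / q + 1) := by
  have ha0 : (a : ℂ) ≠ 0 := by exact_mod_cast (by omega : a ≠ 0)
  have hq0 : (q : ℂ) ≠ 0 := by exact_mod_cast (by omega : q ≠ 0)
  rw [Complex.Gamma_add_one _ (div_ne_zero ha0 hq0)]
  field_simp

/-- exceptional tuples -/
def Exceptional (n d : ℕ) {g : ℕ} (q : ℕ) (F : Type) [Field F] [NumberField F] (ι : F →+* ℂ)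
    (ξ : Fin g → ℂ) (A B : ℝ) : Set (Fin n → ℕ) :=
  {a | (∀ j, a j ∈ Num q) ∧ ∃ P : MvPolynomial (Fin n) ℂ, (∀ j, P.degreeOf j ≤ d) ∧
    (∀ s, ∃ c : Fin g → 𝓞 F, (∀ i (φ : F →+* ℂ), ‖φ (c i)‖ ≤ (q : ℝ) ^ A) ∧
      P.coeff s = ∑ i, ξ i * ι (c i)) ∧
    ∃ s₀, P.coeff s₀ ≠ 0 ∧ ‖MvPolynomial.aeval (fun j => Complex.Gamma ((a j : ℂ) / q)) P‖ ≤
      (q : ℝ) ^ (-B) * ‖P.coeff s₀‖}

/-- the weight of a monomial -/
def wt {n : ℕ} (d q : ℕ) (a : Fin n → ℕ) (s : Fin n →₀ ℕ) : ℕ := ∏ j, (q ^ s j * a j ^ (d - s j))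

theorem main (n d l g : ℕ) (A ε : ℝ) (hε : 0 < ε) :
    ∃ B C : ℝ, ∃ q₀ : ℕ, 0 ≤ C ∧ 1 ≤ q₀ ∧ ∀ q : ℕ, q₀ ≤ q → ∀ (F : Type) [Field F] [NumberField F],
      Module.finrank ℚ F ≤ l → ∀ (ι : F →+* ℂ) (ξ : Fin g → ℂ),
      ((Exceptional n d q F ι ξ A B).ncard : ℝ) ≤ C * (q : ℝ) ^ ε * ((Num q).card : ℝ) ^ (n - 1) := by
  classical
  obtain ⟨B, C, T₀, hC, hT₀, H⟩ := Pool.Agent.Y771.RP.mainS l n g d
    (fun (_ : Unit) s => Complex.Gamma (s + 1)) Seg seg_compact (fun _ t ht => gam_an ht)
    (fun t ht => gam_ind ht) (A + (n * d : ℕ)) ε hε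
  refine ⟨B + (n * d : ℕ), C, ⌈T₀⌉₊ + 1, hC, by omega, fun q hq F _ _ hF ι ξ => ?_⟩
  have hq1 : 1 ≤ q := by omega
  have hqT : T₀ ≤ q := by
    have h1 : ((⌈T₀⌉₊ + 1 : ℕ) : ℝ) ≤ q := by exact_mod_cast hq
    have h2 := Nat.le_ceil T₀
    push_cast at h1
    linarith
  have hq0 : (0 : ℝ) < q := by exact_mod_cast (by omega : 0 < q)
  have hq1r : (1 : ℝ) ≤ q := by exact_mod_cast hq1
  have hqF : (q : F) ≠ 0 := by exact_mod_cast (by omega : q ≠ 0)
  set X : Finset F := (Num q).image fun a : ℕ => (a : F) / q with hX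
  have hinj : Function.Injective (fun a : ℕ => (a : F) / q) := by
    intro a b hab
    have h1 : (a : F) / q = b / q := hab
    rw [div_left_inj' hqF] at h1
    exact_mod_cast h1
  have h3 := H F hF ι ξ q hqT X (by
    intro x hx
    obtain ⟨a, ha, rfl⟩ := Finset.mem_image.1 hx
    rw [Num, Finset.mem_filter, Finset.mem_range] at ha
    refine ⟨⟨(a : ℝ) / q, ⟨by positivity, ?_⟩, ?_⟩, ((a : ℕ) : 𝓞 F), ((q : ℕ) : 𝓞 F), ?_, ?_, ?_⟩
    · rw [div_le_one hq0]
      exact_mod_cast ha.1.le
    · push_cast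
      rw [map_div₀, map_natCast, map_natCast]
    · exact_mod_cast (by omega : q ≠ 0)
    · intro φ
      have e1 : (((a : ℕ) : 𝓞 F) : F) = ((a : ℕ) : F) := by push_cast; rfl
      have e2 : (((q : ℕ) : 𝓞 F) : F) = ((q : ℕ) : F) := by push_cast; rfl
      rw [e1, e2, map_natCast, map_natCast, Complex.norm_natCast, Complex.norm_natCast]
      exact ⟨by exact_mod_cast ha.1.le, le_rfl⟩
    · push_cast
      rfl)
  rw [hX, Finset.card_image_of_injective _ hinj] at h3
  refine le_trans ?_ h3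
  -- the exceptional tuples are mapped to exceptional tuples
  set G : Set (Fin n → F) := {t | t ∈ Pool.Agent.Y771.RP.Exc n d F ι ξ
    (fun _ (_ : Unit) s => Complex.Gamma (s + 1)) (fun _ => Seg) (A + (n * d : ℕ)) B q ∧
    ∀ j, t j ∈ X} with hG
  have hGf : G.Finite := by
    refine (Finset.finite_toSet (Fintype.piFinset fun _ : Fin n => X)).subset ?_
    intro t ht
    rw [Finset.mem_coe, Fintype.mem_piFinset]
    exact ht.2
  have hinj2 : Function.Injective (fun (a : Fin n → ℕ) (j : Fin n) => (a j : F) / q) := by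
    intro a b hab
    funext j
    exact hinj (congrFun hab j)
  have hsub : (fun (a : Fin n → ℕ) (j : Fin n) => (a j : F) / q) '' (Exceptional n d q F ι ξ A
      (B + (n * d : ℕ))) ⊆ G := by
    rintro _ ⟨a, ⟨ha, P, hPd, hPc, s₀, hs₀, hs⟩, rfl⟩
    have ha1 : ∀ j, 1 ≤ a j ∧ a j < q := by
      intro j
      have h1 := ha j
      rw [Num, Finset.mem_filter, Finset.mem_range] at h1
      exact ⟨h1.2.1, h1.1⟩
    have hle : ∀ s ∈ P.support, ∀ j, s j ≤ d := fun s hs' j => by
      exact (MvPolynomial.degreeOf_le_iff.1 (hPd j)) s hs'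
    -- the new polynomial
    set e : Fin n → Fin n × Unit := fun j => (j, ()) with he
    have heinj : Function.Injective e := fun i j h => congrArg Prod.fst h
    set Q : MvPolynomial (Fin n) ℂ := ∑ s ∈ P.support, monomial s (P.coeff s * (wt d q a s : ℂ)) with hQ
    have hQc : ∀ s, Q.coeff s = P.coeff s * (wt d q a s : ℂ) := by
      intro s
      rw [hQ, coeff_sum]
      simp only [coeff_monomial]
      rw [Finset.sum_ite_eq']
      split_ifs with h1
      · rfl
      · rw [notMem_support_iff.1 h1, zero_mul]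
    have hwt1 : ∀ s, 1 ≤ wt d q a s := fun s => by
      unfold wt
      refine Finset.one_le_prod' fun j _ => ?_
      exact Nat.mul_pos (pow_pos (by omega) _) (pow_pos (by have := (ha1 j).1; omega) _)
    have hwt2 : ∀ s ∈ P.support, (wt d q a s : ℝ) ≤ (q : ℝ) ^ (n * d) := fun s hs' => by
      unfold wt
      push_cast
      have h1 : ∀ j ∈ (Finset.univ : Finset (Fin n)), (q : ℝ) ^ s j * (a j : ℝ) ^ (d - s j) ≤ (q : ℝ) ^ d := by
        intro j _
        have h2 : (a j : ℝ) ^ (d - s j) ≤ (q : ℝ) ^ (d - s j) := by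
          gcongr
          exact_mod_cast (ha1 j).2.le
        calc (q : ℝ) ^ s j * (a j : ℝ) ^ (d - s j) ≤ (q : ℝ) ^ s j * (q : ℝ) ^ (d - s j) := by gcongr
          _ = (q : ℝ) ^ d := by rw [← pow_add]; congr 1; have := hle s hs' j; omega
      refine (Finset.prod_le_prod (fun j _ => by positivity) h1).trans ?_
      rw [Finset.prod_const, Finset.card_univ, Fintype.card_fin, ← pow_mul, mul_comm]
    refine ⟨⟨fun j => ?_, rename e Q, ?_, ?_, ?_⟩, fun j => ?_⟩
    · -- the points
      refine ⟨⟨(a j : ℝ) / q, ⟨by positivity, ?_⟩, ?_⟩, ((a j : ℕ) : 𝓞 F), ((q : ℕ) : 𝓞 F), ?_, ?_, ?_⟩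
      · rw [div_le_one hq0]
        exact_mod_cast (ha1 j).2.le
      · push_cast
        rw [map_div₀, map_natCast, map_natCast]
      · exact_mod_cast (by omega : q ≠ 0)
      · intro φ
        have e1 : (((a j : ℕ) : 𝓞 F) : F) = ((a j : ℕ) : F) := by push_cast; rfl
        have e2 : (((q : ℕ) : 𝓞 F) : F) = ((q : ℕ) : F) := by push_cast; rfl
        rw [e1, e2, map_natCast, map_natCast, Complex.norm_natCast, Complex.norm_natCast]
        exact ⟨by exact_mod_cast (ha1 j).2.le, le_rfl⟩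
      · push_cast
        rfl
    · -- the degree
      rintro ⟨j, u⟩
      have h1 := degreeOf_rename_of_injective (p := Q) heinj j
      have h2 : e j = (j, u) := rfl
      rw [← h2, h1]
      refine MvPolynomial.degreeOf_le_iff.2 fun s hs' => ?_
      refine hle s ?_ j
      rw [mem_support_iff] at hs' ⊢
      intro h3
      apply hs'
      rw [hQc, h3, zero_mul]
    · -- the coefficients
      intro s
      by_cases hs' : ∃ s', Finsupp.mapDomain e s' = s ∧ s' ∈ P.support
      · obtain ⟨s', rfl, hs'⟩ := hs'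
        obtain ⟨c, hc, hc'⟩ := hPc s'
        refine ⟨fun i => c i * ((wt d q a s' : ℕ) : 𝓞 F), fun i φ => ?_, ?_⟩
        · have e1 : ((c i * ((wt d q a s' : ℕ) : 𝓞 F) : 𝓞 F) : F) = (c i : F) * ((wt d q a s' : ℕ) : F) := by
            push_cast; rfl
          rw [e1, map_mul, map_natCast, norm_mul, Complex.norm_natCast]
          rw [Real.rpow_add hq0, Real.rpow_natCast]
          exact mul_le_mul (hc i φ) (hwt2 s' hs') (by positivity) (by positivity)
        · rw [coeff_rename_mapDomain e heinj, hQc, hc', Finset.sum_mul]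
          refine Finset.sum_congr rfl fun i _ => ?_
          have e1 : ((c i * ((wt d q a s' : ℕ) : 𝓞 F) : 𝓞 F) : F) = (c i : F) * ((wt d q a s' : ℕ) : F) := by
            push_cast; rfl
          rw [e1, map_mul, map_natCast]
          ring
      · refine ⟨fun _ => 0, fun i φ => ?_, ?_⟩
        · have e1 : ((0 : 𝓞 F) : F) = 0 := rfl
          rw [e1, map_zero, norm_zero]
          positivity
        · have e1 : ((0 : 𝓞 F) : F) = 0 := rfl
          simp only [e1, map_zero, mul_zero, Finset.sum_const_zero]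
          by_contra h1
          apply hs'
          have h2 : s ∈ (rename e Q).support := mem_support_iff.2 h1
          obtain ⟨s', hs1, hs2⟩ := (MvPolynomial.coeff_rename_ne_zero e Q s h1)
          refine ⟨s', hs1, mem_support_iff.2 fun h3 => hs2 ?_⟩
          rw [hQc, h3, zero_mul]
    · -- the value
      have hs0' : s₀ ∈ P.support := mem_support_iff.2 hs₀
      refine ⟨Finsupp.mapDomain e s₀, ?_, ?_⟩
      · rw [coeff_rename_mapDomain e heinj, hQc]
        refine mul_ne_zero hs₀ ?_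
        have := hwt1 s₀
        exact_mod_cast (by omega : wt d q a s₀ ≠ 0)
      · rw [coeff_rename_mapDomain e heinj, hQc, norm_mul, Complex.norm_natCast]
        have hval : MvPolynomial.aeval (fun x : Fin n × Unit =>
            Complex.Gamma (ι ((a x.1 : F) / q) + 1)) (rename e Q) =
            (∏ j, (a j : ℂ) ^ d) * MvPolynomial.aeval (fun j => Complex.Gamma ((a j : ℂ) / q)) P := by
          rw [aeval_rename, hQ, map_sum]
          conv_rhs => rw [P.as_sum, map_sum, Finset.mul_sum]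
          refine Finset.sum_congr rfl fun s hs' => ?_
          rw [aeval_monomial, aeval_monomial, Finsupp.prod_fintype _ _ (fun _ => pow_zero _),
            Finsupp.prod_fintype _ _ (fun _ => pow_zero _)]
          have h1 : ((wt d q a s : ℕ) : ℂ) * ∏ j, ((fun x : Fin n × Unit =>
              Complex.Gamma (ι ((a x.1 : F) / q) + 1)) ∘ e) j ^ s j =
              (∏ j, (a j : ℂ) ^ d) * ∏ j, Complex.Gamma ((a j : ℂ) / q) ^ s j := by
            unfold wt
            push_cast
            rw [← Finset.prod_mul_distrib, ← Finset.prod_mul_distrib]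
            refine Finset.prod_congr rfl fun j _ => ?_
            have h2 : ((fun x : Fin n × Unit => Complex.Gamma (ι ((a x.1 : F) / q) + 1)) ∘ e) j =
                Complex.Gamma ((a j : ℂ) / q + 1) := by
              show Complex.Gamma (ι ((a j : F) / q) + 1) = _
              rw [map_div₀, map_natCast, map_natCast]
            rw [h2]
            have h3 := gam_eq (ha1 j).1 hq1
            have h4 : (a j : ℂ) ^ d = (a j : ℂ) ^ (d - s j) * (a j : ℂ) ^ s j := by
              rw [← pow_add]; congr 1; have := hle s hs' j; omega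
            calc (q : ℂ) ^ s j * (a j : ℂ) ^ (d - s j) * Complex.Gamma ((a j : ℂ) / q + 1) ^ s j
                = (a j : ℂ) ^ (d - s j) * (q * Complex.Gamma ((a j : ℂ) / q + 1)) ^ s j := by
                  rw [mul_pow]; ring
              _ = _ := by rw [← h3, mul_pow, h4]; ring
          have h5 : algebraMap ℂ ℂ (P.coeff s * (wt d q a s : ℂ)) = P.coeff s * (wt d q a s : ℂ) := rfl
          have h6 : algebraMap ℂ ℂ (P.coeff s) = P.coeff s := rfl
          rw [h5, h6, mul_assoc, h1]
          ring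
        have h7 : ‖∏ j, (a j : ℂ) ^ d‖ ≤ (q : ℝ) ^ (n * d) := by
          rw [norm_prod]
          have h8 : ∀ j ∈ (Finset.univ : Finset (Fin n)), ‖(a j : ℂ) ^ d‖ ≤ (q : ℝ) ^ d := by
            intro j _
            rw [norm_pow, Complex.norm_natCast]
            gcongr
            exact_mod_cast (ha1 j).2.le
          refine (Finset.prod_le_prod (fun j _ => norm_nonneg _) h8).trans ?_
          rw [Finset.prod_const, Finset.card_univ, Fintype.card_fin, ← pow_mul, mul_comm]
        have h9 : (1 : ℝ) ≤ wt d q a s₀ := by exact_mod_cast hwt1 s₀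
        have hgoal : ‖MvPolynomial.aeval (fun x : Fin n × Unit =>
            Complex.Gamma (ι ((a x.1 : F) / q) + 1)) (rename e Q)‖ ≤
            (q : ℝ) ^ (-B) * (‖P.coeff s₀‖ * (wt d q a s₀ : ℝ)) := by
          rw [hval, norm_mul]
          calc ‖∏ j, (a j : ℂ) ^ d‖ * ‖MvPolynomial.aeval (fun j => Complex.Gamma ((a j : ℂ) / q)) P‖
              ≤ (q : ℝ) ^ (n * d) * ((q : ℝ) ^ (-(B + (n * d : ℕ))) * ‖P.coeff s₀‖) :=
                mul_le_mul h7 hs (norm_nonneg _) (by positivity)
            _ = (q : ℝ) ^ (-B) * ‖P.coeff s₀‖ := by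
                rw [neg_add, Real.rpow_add hq0, Real.rpow_neg hq0.le ((n * d : ℕ) : ℝ),
                  Real.rpow_natCast]
                have : (q : ℝ) ^ (n * d) ≠ 0 := by positivity
                field_simp
            _ ≤ (q : ℝ) ^ (-B) * (‖P.coeff s₀‖ * (wt d q a s₀ : ℝ)) := by
                gcongr
                exact le_mul_of_one_le_right (norm_nonneg _) h9
        exact hgoal
    · exact Finset.mem_image_of_mem _ (ha j)
  have hEf : (Exceptional n d q F ι ξ A (B + (n * d : ℕ))).Finite := by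
    refine (Finset.finite_toSet (Fintype.piFinset fun _ : Fin n => Num q)).subset ?_
    intro t ht
    rw [Finset.mem_coe, Fintype.mem_piFinset]
    exact ht.1
  have h4 := Set.ncard_le_ncard hsub hGf
  rw [Set.ncard_image_of_injective _ hinj2] at h4
  exact_mod_cast h4

end Pool.Agent.Q29.LR
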