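import Pool.Agent.Q29.LRBase

/-!
# Polynomial relations between `π` and values of the Gamma function
-/

set_option autoImplicit false

open MvPolynomial NumberField

namespace Pool.Agent.Q29.LR

/-- `π` is transcendental over number fields -/
theorem pi_ne {F : Type} [Field F] [NumberField F] (ι : F →+* ℂ) (p : Polynomial (𝓞 F)) (hp : p ≠ 0) :
    p.eval₂ (ι.comp (algebraMap (𝓞 F) F)) (Real.pi : ℂ) ≠ 0 := by
  intro h
  letI := ι.toAlgebra
  have h1 : IsAlgebraic F (Real.pi : ℂ) := by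
    refine ⟨p.map (algebraMap (𝓞 F) F), ?_, ?_⟩
    · rwa [Ne, Polynomial.map_eq_zero_iff (FaithfulSMul.algebraMap_injective (𝓞 F) F)]
    · rw [Polynomial.aeval_def, Polynomial.eval₂_map]
      exact h
  haveI : IsScalarTower ℚ F ℂ := IsScalarTower.of_algebraMap_eq' (Subsingleton.elim _ _)
  exact Pool.Agent.H340R2.LW.transcendental_pi_complex (h1.restrictScalars ℚ)

/-- the value of a polynomial over `𝓞 F [X]` at `X = π` and `z` -/
noncomputable def val {σ F : Type} [Field F] [NumberField F] (ι : F →+* ℂ) (z : σ → ℂ)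
    (P : MvPolynomial σ (Polynomial (𝓞 F))) : ℂ :=
  eval₂ (Polynomial.eval₂RingHom (ι.comp (algebraMap (𝓞 F) F)) (Real.pi : ℂ)) z P

/-- degree at most `d` in `X = π` and in all variables, conjugates of the coefficients at most `H` -/
def Bounded {σ F : Type} [Field F] [NumberField F] (d : ℕ) (H : ℝ)
    (P : MvPolynomial σ (Polynomial (𝓞 F))) : Prop :=
  (∀ j, P.degreeOf j ≤ d) ∧ (∀ s, (P.coeff s).natDegree ≤ d) ∧
    ∀ s i (φ : F →+* ℂ), ‖φ ((P.coeff s).coeff i)‖ ≤ H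

/-- exact relations are exceptional -/
theorem exc_of_rel {n d q : ℕ} (hq : 1 ≤ q) (F : Type) [Field F] [NumberField F] (ι : F →+* ℂ)
    {A B : ℝ} {a : Fin n → ℕ} (ha : ∀ j, a j ∈ Num q)
    (h : ∃ P : MvPolynomial (Fin n) (Polynomial (𝓞 F)), P ≠ 0 ∧ Bounded d ((q : ℝ) ^ A) P ∧
      val ι (fun j => Complex.Gamma ((a j : ℂ) / q)) P = 0) :
    a ∈ Exceptional n d q F ι (fun i : Fin (d + 1) => (Real.pi : ℂ) ^ (i : ℕ)) A B := by
  obtain ⟨P, hP0, ⟨hPd, hPn, hPc⟩, hP⟩ := h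
  set φ₀ := Polynomial.eval₂RingHom (ι.comp (algebraMap (𝓞 F) F)) (Real.pi : ℂ) with hφ₀
  have hcoe : ∀ s, (P.map φ₀).coeff s = ∑ i : Fin (d + 1),
      (Real.pi : ℂ) ^ (i : ℕ) * ι (((P.coeff s).coeff (i : ℕ) : 𝓞 F) : F) := by
    intro s
    rw [coeff_map, hφ₀, Polynomial.coe_eval₂RingHom, Polynomial.eval₂_eq_sum_range'
      (ι.comp (algebraMap (𝓞 F) F)) (Nat.lt_succ_of_le (hPn s)), Finset.sum_range]
    refine Finset.sum_congr rfl fun i _ => ?_
    rw [mul_comm]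
    rfl
  obtain ⟨s₀, hs₀⟩ := MvPolynomial.ne_zero_iff.1 hP0
  refine ⟨ha, P.map φ₀, fun j => ?_, fun s => ⟨fun i => (P.coeff s).coeff (i : ℕ),
    fun i φ => hPc s _ φ, hcoe s⟩, s₀, ?_, ?_⟩
  · refine MvPolynomial.degreeOf_le_iff.2 fun s hs => ?_
    exact (MvPolynomial.degreeOf_le_iff.1 (hPd j)) s (support_map_subset φ₀ P hs)
  · rw [coeff_map]
    exact pi_ne ι _ hs₀
  · have h1 : MvPolynomial.aeval (fun j => Complex.Gamma ((a j : ℂ) / q)) (P.map φ₀) = 0 := by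
      rw [aeval_def, eval₂_map]
      rw [← hP]
      rfl
    rw [h1, norm_zero]
    positivity

end Pool.Agent.Q29.LR
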