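import Pool.Agent.Q29.LRPi

/-!
# Large sets of values of the Gamma function without relations in few variables
-/

set_option autoImplicit false

open MvPolynomial NumberField

namespace Pool.Agent.Q29.LR

variable {F : Type} [Field F] [NumberField F]

/-- the part of `P` of degree `k` in the variable `x`, divided by the power of this variable -/
noncomputable def part {R : Type} [CommRing R] (x k : ℕ) (P : MvPolynomial ℕ R) : MvPolynomial ℕ R :=
  ∑ s ∈ P.support.filter (fun s => s x = k), monomial (s.erase x) (P.coeff s)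

theorem erase_eq_iff {x : ℕ} {s s' : ℕ →₀ ℕ} {k : ℕ} (hk : s x = k) (hx : s' x = 0) :
    s.erase x = s' ↔ s = s' + Finsupp.single x k := by
  constructor
  · intro h
    ext j
    by_cases hj : j = x
    · subst hj
      simp [hk, hx]
    · rw [← h, Finsupp.add_apply, Finsupp.erase_ne hj, Finsupp.single_eq_of_ne hj, add_zero]
  · intro h
    ext j
    by_cases hj : j = x
    · subst hj
      simp [hx]
    · rw [Finsupp.erase_ne hj, h, Finsupp.add_apply, Finsupp.single_eq_of_ne hj, add_zero]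

theorem coeff_part {R : Type} [CommRing R] (x k : ℕ) (P : MvPolynomial ℕ R) (s' : ℕ →₀ ℕ) :
    (part x k P).coeff s' = if s' x = 0 then P.coeff (s' + Finsupp.single x k) else 0 := by
  classical
  rw [part, coeff_sum]
  simp only [coeff_monomial]
  split_ifs with h
  · rw [Finset.sum_eq_single (s' + Finsupp.single x k)]
    · rw [if_pos]
      refine (erase_eq_iff (k := k) ?_ h).2 rfl
      simp [h]
    · intro s hs hne
      rw [Finset.mem_filter] at hs
      rw [if_neg fun h1 => hne ((erase_eq_iff hs.2 h).1 h1)]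
    · intro h1
      have h2 : s' + Finsupp.single x k ∉ P.support := by
        intro h3
        apply h1
        rw [Finset.mem_filter]
        exact ⟨h3, by simp [h]⟩
      rw [notMem_support_iff.1 h2, ite_self]
  · refine Finset.sum_eq_zero fun s _ => ?_
    rw [if_neg]
    intro h1
    apply h
    rw [← h1, Finsupp.erase_same]

theorem mem_support_part {R : Type} [CommRing R] {x k : ℕ} {P : MvPolynomial ℕ R} {s' : ℕ →₀ ℕ}
    (h : s' ∈ (part x k P).support) : s' x = 0 ∧ s' + Finsupp.single x k ∈ P.support := by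
  rw [mem_support_iff, coeff_part] at h
  split_ifs at h with h1
  · exact ⟨h1, mem_support_iff.2 h⟩
  · exact absurd rfl h

theorem vars_part {R : Type} [CommRing R] (x k : ℕ) (P : MvPolynomial ℕ R) :
    (part x k P).vars ⊆ P.vars.erase x := by
  intro j hj
  rw [mem_vars] at hj
  obtain ⟨s, hs, hj⟩ := hj
  obtain ⟨h1, h2⟩ := mem_support_part hs
  rw [Finset.mem_erase, mem_vars]
  rw [Finsupp.mem_support_iff] at hj
  refine ⟨fun h => hj (h ▸ h1), _, h2, ?_⟩
  rw [Finsupp.mem_support_iff, Finsupp.add_apply]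
  omega

theorem bounded_part {d : ℕ} {H : ℝ} (hH : 0 ≤ H) {x k : ℕ}
    {P : MvPolynomial ℕ (Polynomial (𝓞 F))} (h : Bounded d H P) : Bounded d H (part x k P) := by
  refine ⟨fun j => ?_, fun s => ?_, fun s i φ => ?_⟩
  · refine degreeOf_le_iff.2 fun s hs => ?_
    obtain ⟨h1, h2⟩ := mem_support_part hs
    have h3 := (degreeOf_le_iff.1 (h.1 j)) _ h2
    rw [Finsupp.add_apply] at h3
    omega
  · rw [coeff_part]
    split_ifs
    · exact h.2.1 _
    · simp
  · rw [coeff_part]
    split_ifs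
    · exact h.2.2 _ i φ
    · simpa using hH

theorem val_part {d : ℕ} (ι : F →+* ℂ) (z : ℕ → ℂ) (x : ℕ) (P : MvPolynomial ℕ (Polynomial (𝓞 F)))
    (hP : P.degreeOf x ≤ d) :
    val ι z P = ∑ k ∈ Finset.range (d + 1), val ι z (part x k P) * z x ^ k := by
  classical
  set φ₀ := Polynomial.eval₂RingHom (ι.comp (algebraMap (𝓞 F) F)) (Real.pi : ℂ) with hφ₀
  have h1 : ∀ s ∈ P.support, s x ∈ Finset.range (d + 1) := fun s hs => by
    rw [Finset.mem_range]
    have := (degreeOf_le_iff.1 hP) s hs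
    omega
  have h2 : val ι z P = ∑ s ∈ P.support, φ₀ (P.coeff s) * s.prod fun j e => z j ^ e := by
    conv_lhs => rw [P.as_sum]
    unfold val
    rw [eval₂_sum]
    exact Finset.sum_congr rfl fun s _ => eval₂_monomial _ _
  rw [h2, ← Finset.sum_fiberwise_of_maps_to h1]
  refine Finset.sum_congr rfl fun k _ => ?_
  unfold val part
  rw [eval₂_sum, Finset.sum_mul]
  refine Finset.sum_congr rfl fun s hs => ?_
  rw [eval₂_monomial]
  have hs2 := (Finset.mem_filter.1 hs).2
  rw [mul_assoc]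
  congr 1
  rw [← hs2, mul_comm ((s.erase x).prod _)]
  exact (Finsupp.mul_prod_erase' s x (fun j e => z j ^ e) (fun _ => pow_zero _)).symm

theorem exists_part {R : Type} [CommRing R] {d : ℕ} (x : ℕ) {P : MvPolynomial ℕ R} (hP : P ≠ 0)
    (hd : P.degreeOf x ≤ d) : ∃ k ∈ Finset.range (d + 1), part x k P ≠ 0 := by
  obtain ⟨s, hs⟩ := ne_zero_iff.1 hP
  refine ⟨s x, ?_, ?_⟩
  · rw [Finset.mem_range]
    have := (degreeOf_le_iff.1 hd) s (mem_support_iff.2 hs)
    omega
  · rw [ne_zero_iff]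
    refine ⟨s.erase x, ?_⟩
    rw [coeff_part, if_pos Finsupp.erase_same]
    rwa [← (erase_eq_iff rfl Finsupp.erase_same).1 rfl]

/-- the index set of the monomials in `π` and the variables in `U` -/
abbrev Idx (d : ℕ) (U : Finset ℕ) : Type := Fin (d + 1) × (U → Fin (d + 1))

/-- the monomials -/
noncomputable def mon (d q : ℕ) (U : Finset ℕ) (i : Idx d U) : ℂ :=
  (Real.pi : ℂ) ^ (i.1 : ℕ) * ∏ a : U, Complex.Gamma (((a : ℕ) : ℂ) / q) ^ (i.2 a : ℕ)

/-- the value of a polynomial as a combination of monomials -/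
theorem val_eq_sum {d : ℕ} (q : ℕ) (ι : F →+* ℂ) (U : Finset ℕ)
    (P : MvPolynomial ℕ (Polynomial (𝓞 F))) (hU : P.vars ⊆ U) (hd : ∀ j, P.degreeOf j ≤ d)
    (hn : ∀ s, (P.coeff s).natDegree ≤ d) :
    ∃ c : Idx d U → 𝓞 F, (∀ i, (c i = 0) ∨ ∃ s k, c i = (P.coeff s).coeff k) ∧
      val ι (fun a : ℕ => Complex.Gamma ((a : ℂ) / q)) P = ∑ i, mon d q U i * ι (c i) := by
  classical
  let sf : (U → Fin (d + 1)) → (ℕ →₀ ℕ) := fun u =>
    Finsupp.onFinset U (fun j => if h : j ∈ U then (u ⟨j, h⟩ : ℕ) else 0) (fun j hj => by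
      by_contra h1
      exact hj (dif_neg h1))
  have hsf : Function.Injective sf := by
    intro u v huv
    funext j
    have h1 := DFunLike.congr_fun huv (j : ℕ)
    simp only [sf, Finsupp.onFinset_apply, j.2, dif_pos] at h1
    exact Fin.ext h1
  refine ⟨fun i => (P.coeff (sf i.2)).coeff (i.1 : ℕ), fun i => Or.inr ⟨_, _, rfl⟩, ?_⟩
  set φ₀ := Polynomial.eval₂RingHom (ι.comp (algebraMap (𝓞 F) F)) (Real.pi : ℂ) with hφ₀
  have h2 : val ι (fun a : ℕ => Complex.Gamma ((a : ℂ) / q)) P =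
      ∑ s ∈ P.support, φ₀ (P.coeff s) * s.prod fun j e => Complex.Gamma ((j : ℂ) / q) ^ e := by
    conv_lhs => rw [P.as_sum]
    unfold val
    rw [eval₂_sum]
    exact Finset.sum_congr rfl fun s _ => eval₂_monomial _ _
  have hsub : P.support ⊆ Finset.univ.image sf := by
    intro s hs
    rw [Finset.mem_image]
    refine ⟨fun j => ⟨s j, ?_⟩, Finset.mem_univ _, ?_⟩
    · have := (degreeOf_le_iff.1 (hd j)) s hs
      omega
    · ext j
      simp only [sf, Finsupp.onFinset_apply]
      split_ifs with h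
      · rfl
      · by_contra h1
        apply h
        refine hU ((mem_vars j).2 ⟨s, hs, Finsupp.mem_support_iff.2 fun h3 => h1 h3.symm⟩)
  rw [h2, Finset.sum_subset hsub (fun s _ hs => by
    rw [notMem_support_iff.1 hs, map_zero, zero_mul]), Finset.sum_image (fun u _ v _ h => hsf h)]
  rw [← Finset.univ_product_univ, Finset.sum_product_right]
  refine Finset.sum_congr rfl fun u _ => ?_
  have h3 : φ₀ (P.coeff (sf u)) = ∑ i : Fin (d + 1), (Real.pi : ℂ) ^ (i : ℕ) *
      ι (((P.coeff (sf u)).coeff (i : ℕ) : 𝓞 F) : F) := by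
    rw [hφ₀, Polynomial.coe_eval₂RingHom, Polynomial.eval₂_eq_sum_range'
      (ι.comp (algebraMap (𝓞 F) F)) (Nat.lt_succ_of_le (hn (sf u))), Finset.sum_range]
    refine Finset.sum_congr rfl fun i _ => ?_
    rw [mul_comm]
    rfl
  have h4 : ((sf u).prod fun j e => Complex.Gamma ((j : ℂ) / q) ^ e) =
      ∏ a : U, Complex.Gamma (((a : ℕ) : ℂ) / q) ^ (u a : ℕ) := by
    rw [Finsupp.prod_of_support_subset _ (s := U) Finsupp.support_onFinset_subset _
      (fun _ _ => pow_zero _), ← Finset.prod_coe_sort U]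
    refine Finset.prod_congr rfl fun a _ => ?_
    simp only [sf, Finsupp.onFinset_apply, a.2, dif_pos]
  rw [h3, h4, Finset.sum_mul]
  refine Finset.sum_congr rfl fun i _ => ?_
  unfold mon
  ring

/-- no relation in at most `n` of the numbers `Γ(a/q)`, `a ∈ S`, and `π` -/
def Free (n d q : ℕ) (F : Type) [Field F] [NumberField F] (ι : F →+* ℂ) (A : ℝ) (S : Finset ℕ) : Prop :=
  ∀ P : MvPolynomial ℕ (Polynomial (𝓞 F)), P ≠ 0 → P.vars ⊆ S → P.vars.card ≤ n →
    Bounded d ((q : ℝ) ^ A) P → val ι (fun a : ℕ => Complex.Gamma ((a : ℂ) / q)) P ≠ 0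

theorem free_empty (n d q : ℕ) (ι : F →+* ℂ) (A : ℝ) : Free n d q F ι A ∅ := by
  intro P hP hv _ _
  have h1 : P.vars = ∅ := Finset.subset_empty.1 hv
  have h2 : ∃ p, P = C p := by
    refine ⟨P.coeff 0, ?_⟩
    ext1 s
    rw [coeff_C]
    split_ifs with h
    · rw [h]
    · rw [← notMem_support_iff]
      intro hs
      apply h
      by_contra hne
      obtain ⟨j, hj⟩ := Finsupp.support_nonempty_iff.2 (Ne.symm hne)
      have : j ∈ P.vars := (mem_vars j).2 ⟨s, hs, hj⟩
      rw [h1] at this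
      exact absurd this (Finset.notMem_empty j)
  obtain ⟨p, rfl⟩ := h2
  unfold val
  rw [eval₂_C]
  refine pi_ne ι p fun h => hP ?_
  rw [h, map_zero]

/-- a new element that spoils the property is exceptional for a family of at most `n` old ones -/
theorem step {n d q : ℕ} (hq : 1 ≤ q) (ι : F →+* ℂ) {A : ℝ} {S : Finset ℕ} (hS : Free (n + 1) d q F ι A S)
    {x : ℕ} (hx : x ∈ Num q) (hxS : x ∉ S) (hn : ¬ Free (n + 1) d q F ι A (insert x S)) :
    ∃ U ⊆ S, U.card ≤ n ∧ ∀ (g : ℕ) (e : Fin g ≃ Idx d U) (B : ℝ),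
      (fun _ : Fin 1 => x) ∈ Exceptional 1 d q F ι (fun i => mon d q U (e i)) A B := by
  classical
  unfold Free at hn
  push Not at hn
  obtain ⟨P, hP0, hPv, hPn, hPb, hP⟩ := hn
  have hH : (0 : ℝ) ≤ (q : ℝ) ^ A := by positivity
  have hxv : x ∈ P.vars := by
    by_contra h
    refine hS P hP0 (fun j hj => ?_) hPn hPb hP
    rcases Finset.mem_insert.1 (hPv hj) with h1 | h1
    · exact absurd (h1 ▸ hj) h
    · exact h1
  have hUS : P.vars.erase x ⊆ S := by
    intro j hj
    rw [Finset.mem_erase] at hj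
    exact (Finset.mem_insert.1 (hPv hj.2)).resolve_left hj.1
  have hUc : (P.vars.erase x).card ≤ n := by
    rw [Finset.card_erase_of_mem hxv]
    omega
  obtain ⟨U, hU⟩ : ∃ U, U = P.vars.erase x := ⟨_, rfl⟩
  rw [← hU] at hUS hUc
  refine ⟨U, hUS, hUc, fun g e B => ?_⟩
  have hvp : ∀ k, (part x k P).vars ⊆ U := fun k => by rw [hU]; exact vars_part x k P
  set z : ℕ → ℂ := fun a => Complex.Gamma ((a : ℂ) / q) with hz
  obtain ⟨k₀, hk₀, hpk⟩ := exists_part x hP0 (hPb.1 x)
  have hv0 : val ι z (part x k₀ P) ≠ 0 := by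
    refine hS _ hpk ((hvp k₀).trans hUS) ?_ (bounded_part hH hPb)
    exact (Finset.card_le_card (hvp k₀)).trans (by omega)
  have hc : ∀ k, ∃ c : Idx d U → 𝓞 F, (∀ i, (c i = 0) ∨ ∃ s m, c i = ((part x k P).coeff s).coeff m) ∧
      val ι z (part x k P) = ∑ i, mon d q U i * ι (c i) := fun k =>
    val_eq_sum q ι U _ (hvp k) (bounded_part hH hPb).1 (bounded_part hH hPb).2.1
  choose c hc1 hc2 using hc
  set Q : MvPolynomial (Fin 1) ℂ := ∑ k ∈ Finset.range (d + 1),
    monomial (Finsupp.single 0 k) (val ι z (part x k P)) with hQ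
  have hQc : ∀ s : Fin 1 →₀ ℕ, Q.coeff s = if s 0 ∈ Finset.range (d + 1) then
      val ι z (part x (s 0) P) else 0 := by
    intro s
    rw [hQ, coeff_sum]
    simp only [coeff_monomial]
    have h1 : ∀ k, (Finsupp.single (0 : Fin 1) k = s) ↔ (k = s 0) := by
      intro k
      constructor
      · rintro rfl
        simp
      · rintro rfl
        ext
        simp
    simp only [h1]
    rw [Finset.sum_ite_eq']
  refine ⟨fun _ => hx, Q, fun j => ?_, fun s => ?_, Finsupp.single 0 k₀, ?_, ?_⟩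
  · refine degreeOf_le_iff.2 fun s hs => ?_
    rw [Subsingleton.elim j 0]
    rw [mem_support_iff, hQc] at hs
    split_ifs at hs with h1
    · rw [Finset.mem_range] at h1
      omega
    · exact absurd rfl hs
  · rw [hQc]
    split_ifs with h1
    · refine ⟨fun i => c (s 0) (e i), fun i φ => ?_, ?_⟩
      · show ‖φ ((c (s 0) (e i) : 𝓞 F) : F)‖ ≤ _
        rcases hc1 (s 0) (e i) with h2 | ⟨s', m, h2⟩
        · rw [h2]
          simpa using hH
        · rw [h2]
          exact (bounded_part hH hPb).2.2 _ _ _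
      · rw [hc2]
        exact (Equiv.sum_comp e (fun i => mon d q U i * ι ((c (s 0) i : 𝓞 F) : F))).symm
    · refine ⟨fun _ => 0, fun i φ => ?_, ?_⟩
      · simpa using hH
      · simp
  · rw [hQc, Finsupp.single_eq_same, if_pos hk₀]
    exact hv0
  · have h1 : MvPolynomial.aeval (fun _ : Fin 1 => Complex.Gamma ((x : ℂ) / q)) Q = val ι z P := by
      rw [val_part ι z x P (hPb.1 x), hQ, map_sum]
      refine Finset.sum_congr rfl fun k _ => ?_
      rw [aeval_monomial, Finsupp.prod_fintype _ _ (fun _ => pow_zero _), Finset.univ_unique,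
        Finset.prod_singleton]
      rw [show (default : Fin 1) = 0 from rfl, Finsupp.single_eq_same]
      rfl
    rw [h1, hP, norm_zero]
    positivity

/-- the large set -/
theorem large (n d l : ℕ) (hn : 1 ≤ n) (A ε : ℝ) (hε : 0 < ε) :
    ∃ C : ℝ, ∃ q₀ : ℕ, ∀ q : ℕ, q₀ ≤ q → ∀ (F : Type) [Field F] [NumberField F],
      Module.finrank ℚ F ≤ l → ∀ ι : F →+* ℂ, ∃ S ⊆ Num q, Free (n + 1) d q F ι A S ∧
        ((Num q).card : ℝ) ≤ C * (q : ℝ) ^ ε * ((S.card : ℝ) + 1) ^ n := by
  classical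
  have hm := fun g : ℕ => main 1 d l g A ε hε
  choose B C₁ q₁ hC₁ hq₁ H using hm
  set g : ℕ → ℕ := fun m => (d + 1) * (d + 1) ^ m with hg
  refine ⟨1 + ∑ m ∈ Finset.range (n + 1), C₁ (g m), 1 + ∑ m ∈ Finset.range (n + 1), q₁ (g m),
    fun q hq F _ _ hF ι => ?_⟩
  have hq1 : 1 ≤ q := by omega
  have hq1r : (1 : ℝ) ≤ q := by exact_mod_cast hq1
  -- a maximal free set
  obtain ⟨S, hS, hSmax⟩ := Finset.exists_max_image
    ((Num q).powerset.filter fun S => Free (n + 1) d q F ι A S) Finset.card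
    ⟨∅, by rw [Finset.mem_filter]; exact ⟨Finset.empty_mem_powerset _, free_empty _ _ _ _ _⟩⟩
  rw [Finset.mem_filter, Finset.mem_powerset] at hS
  refine ⟨S, hS.1, hS.2, ?_⟩
  set C₀ : ℝ := ∑ m ∈ Finset.range (n + 1), C₁ (g m) with hC₀
  have hC₀0 : 0 ≤ C₀ := Finset.sum_nonneg fun m _ => hC₁ _
  -- exceptional elements for a set `U`
  let E : Finset ℕ → Finset ℕ := fun U => (Num q).filter fun x => ∀ (g : ℕ) (e : Fin g ≃ Idx d U),
      (fun _ : Fin 1 => x) ∈ Exceptional 1 d q F ι (fun i => mon d q U (e i)) A (B g)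
  have hE : ∀ U : Finset ℕ, U.card ≤ n → ((E U).card : ℝ) ≤ C₀ * (q : ℝ) ^ ε := by
    intro U hU
    have hcard : Fintype.card (Idx d U) = g U.card := by
      rw [Fintype.card_prod, Fintype.card_fin, Fintype.card_fun, Fintype.card_fin, Fintype.card_coe]
    let e : Fin (g U.card) ≃ Idx d U := (Fintype.equivFinOfCardEq hcard).symm
    have hq' : q₁ (g U.card) ≤ q := by
      have h0 : U.card ∈ Finset.range (n + 1) := Finset.mem_range.2 (by omega)
      have : q₁ (g U.card) ≤ ∑ m ∈ Finset.range (n + 1), q₁ (g m) :=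
        Finset.single_le_sum (f := fun m => q₁ (g m)) (fun _ _ => Nat.zero_le _) h0
      omega
    have h1 := H (g U.card) q hq' F hF ι (fun i => mon d q U (e i))
    rw [Nat.sub_self, pow_zero, mul_one] at h1
    have hfin : (Exceptional 1 d q F ι (fun i => mon d q U (e i)) A (B (g U.card))).Finite := by
      refine (Finset.finite_toSet (Fintype.piFinset fun _ : Fin 1 => Num q)).subset ?_
      intro t ht
      rw [Finset.mem_coe, Fintype.mem_piFinset]
      exact ht.1
    have h2 : ((E U).image fun x => (fun _ : Fin 1 => x) : Finset (Fin 1 → ℕ)).card ≤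
        (Exceptional 1 d q F ι (fun i => mon d q U (e i)) A (B (g U.card))).ncard := by
      rw [← Set.ncard_coe_finset]
      refine Set.ncard_le_ncard ?_ hfin
      intro t ht
      rw [Finset.mem_coe, Finset.mem_image] at ht
      obtain ⟨x, hx, rfl⟩ := ht
      exact (Finset.mem_filter.1 hx).2 _ e
    rw [Finset.card_image_of_injective _ (fun x y h => congrFun h 0)] at h2
    have h3 : C₁ (g U.card) ≤ C₀ := Finset.single_le_sum (f := fun m => C₁ (g m))
      (fun m _ => hC₁ _) (Finset.mem_range.2 (Nat.lt_succ_of_le hU))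
    calc ((E U).card : ℝ) ≤ C₁ (g U.card) * (q : ℝ) ^ ε := le_trans (by exact_mod_cast h2) h1
      _ ≤ C₀ * (q : ℝ) ^ ε := by gcongr
  -- the covering
  set 𝒰 : Finset (Finset ℕ) := (Finset.range (n + 1)).biUnion fun m => S.powersetCard m with h𝒰
  have hcov : Num q ⊆ S ∪ 𝒰.biUnion E := by
    intro x hx
    rw [Finset.mem_union]
    by_cases hxS : x ∈ S
    · exact Or.inl hxS
    · right
      have hnf : ¬ Free (n + 1) d q F ι A (insert x S) := by
        intro hf
        have h1 := hSmax (insert x S) (by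
          rw [Finset.mem_filter, Finset.mem_powerset]
          exact ⟨Finset.insert_subset hx hS.1, hf⟩)
        rw [Finset.card_insert_of_notMem hxS] at h1
        omega
      have hstep : ∃ U ⊆ S, U.card ≤ n ∧ x ∈ E U := by
        obtain ⟨U, hU1, hU2, hU3⟩ := step hq1 ι hS.2 hx hxS hnf
        exact ⟨U, hU1, hU2, Finset.mem_filter.2 ⟨hx, fun g' e => hU3 g' e _⟩⟩
      obtain ⟨U, hU1, hU2, hU3⟩ := hstep
      rw [Finset.mem_biUnion]
      refine ⟨U, ?_, hU3⟩
      rw [h𝒰, Finset.mem_biUnion]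
      exact ⟨U.card, Finset.mem_range.2 (Nat.lt_succ_of_le hU2), Finset.mem_powersetCard.2 ⟨hU1, rfl⟩⟩
  -- the number of sets `U`
  have h𝒰c : (𝒰.card : ℝ) ≤ ((S.card : ℝ) + 1) ^ n := by
    have h1 : 𝒰.card ≤ ∑ m ∈ Finset.range (n + 1), S.card.choose m := by
      refine Finset.card_biUnion_le.trans (le_of_eq ?_)
      exact Finset.sum_congr rfl fun m _ => Finset.card_powersetCard m S
    have h2 : ∑ m ∈ Finset.range (n + 1), S.card.choose m ≤ (S.card + 1) ^ n := by
      rw [add_pow]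
      refine Finset.sum_le_sum fun m hm => ?_
      rw [one_pow, mul_one]
      have h3 : 1 ≤ n.choose m := Nat.choose_pos (Nat.lt_succ_iff.1 (Finset.mem_range.1 hm))
      calc S.card.choose m ≤ S.card ^ m := Nat.choose_le_pow _ _
        _ = S.card ^ m * 1 := (mul_one _).symm
        _ ≤ S.card ^ m * n.choose m := Nat.mul_le_mul_left _ h3
    exact_mod_cast h1.trans h2
  have hqε : 1 ≤ (q : ℝ) ^ ε := Real.one_le_rpow hq1r hε.le
  have h5 : ((𝒰.biUnion E).card : ℝ) ≤ 𝒰.card * (C₀ * (q : ℝ) ^ ε) := by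
    have h6 : ((𝒰.biUnion E).card : ℝ) ≤ ∑ U ∈ 𝒰, ((E U).card : ℝ) := by
      exact_mod_cast Finset.card_biUnion_le
    refine h6.trans ?_
    rw [← nsmul_eq_mul]
    refine Finset.sum_le_card_nsmul _ _ _ fun U hU => hE U ?_
    rw [h𝒰, Finset.mem_biUnion] at hU
    obtain ⟨m, hm1, hm2⟩ := hU
    rw [Finset.mem_range] at hm1
    rw [(Finset.mem_powersetCard.1 hm2).2]
    omega
  have h7 : ((Num q).card : ℝ) ≤ S.card + (𝒰.biUnion E).card := by
    exact_mod_cast (Finset.card_le_card hcov).trans (Finset.card_union_le _ _)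
  have hs0 : (0 : ℝ) ≤ S.card := Nat.cast_nonneg _
  have h8 : (S.card : ℝ) ≤ ((S.card : ℝ) + 1) ^ n := by
    calc (S.card : ℝ) ≤ ((S.card : ℝ) + 1) ^ 1 := by linarith
      _ ≤ ((S.card : ℝ) + 1) ^ n := pow_le_pow_right₀ (by linarith) hn
  have h9 : (0 : ℝ) ≤ ((S.card : ℝ) + 1) ^ n := by positivity
  calc ((Num q).card : ℝ) ≤ S.card + (𝒰.biUnion E).card := h7
    _ ≤ ((S.card : ℝ) + 1) ^ n + ((S.card : ℝ) + 1) ^ n * (C₀ * (q : ℝ) ^ ε) := by
        refine add_le_add h8 (h5.trans ?_)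
        gcongr
    _ ≤ ((S.card : ℝ) + 1) ^ n * (q : ℝ) ^ ε + ((S.card : ℝ) + 1) ^ n * (C₀ * (q : ℝ) ^ ε) := by
        gcongr
        exact le_mul_of_one_le_right h9 hqε
    _ = (1 + C₀) * (q : ℝ) ^ ε * ((S.card : ℝ) + 1) ^ n := by ring

/-- `φ(q) ≤ 2 |Num q|` -/
theorem totient_le {q : ℕ} (hq : 3 ≤ q) : q.totient ≤ 2 * (Num q).card := by
  classical
  have h1 : (Finset.range q).filter (fun a => q.Coprime a) ⊆ Num q ∪ (Num q).image (fun a => q - a) := by
    intro a ha
    rw [Finset.mem_filter, Finset.mem_range] at ha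
    obtain ⟨h1, h2⟩ := ha
    have h0 : 1 ≤ a := by
      by_contra h3
      have h4 : a = 0 := by omega
      rw [h4, Nat.coprime_zero_right] at h2
      omega
    have h2a : 2 * a ≠ q := by
      intro h3
      have h4 : a ∣ q := ⟨2, by omega⟩
      have h5 : a = 1 := h2.symm.eq_one_of_dvd h4
      omega
    rw [Finset.mem_union]
    rcases Nat.lt_or_gt_of_ne h2a with h3 | h3
    · left
      rw [Num, Finset.mem_filter, Finset.mem_range]
      exact ⟨h1, h0, h3, h2.symm⟩
    · right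
      rw [Finset.mem_image]
      refine ⟨q - a, ?_, by omega⟩
      rw [Num, Finset.mem_filter, Finset.mem_range]
      refine ⟨by omega, by omega, by omega, ?_⟩
      exact (Nat.coprime_self_sub_left h1.le).2 h2.symm
  rw [Nat.totient_eq_card_coprime]
  refine (Finset.card_le_card h1).trans ((Finset.card_union_le _ _).trans ?_)
  have := Finset.card_image_le (s := Num q) (f := fun a => q - a)
  omega

end Pool.Agent.Q29.LR
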