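import Pool.Agent.Q232.LiS

/-!
# Independence of the real functions `Li_k(c_j t)`, `log (t + x_i)`, `log t`, `Li_k(t)` (from helper23 and helper232)
-/

set_option autoImplicit false

open Set Polynomial Filter Topology

namespace Pool.Agent.Q29.LiInd

open Pool.Agent Pool.Agent.TH818.AP

/-- the functions -/
noncomputable def fL {r m : ℕ} (w : ℕ) (c : Fin r → ℝ) (x : Fin m → ℝ) : (((Fin r × Fin w) ⊕ Fin m) ⊕ Fin (w + 1)) → ℝ → ℝ :=
  Sum.elim (Sum.elim (fun (z : Fin r × Fin w) (t : ℝ) => TH818.AP.Li ((z.2 : ℕ) + 1) (c z.1 * t)) (TH659.AQ.lf x))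
    (fun k : Fin (w + 1) => TH818.AP.pl (k : ℕ))

theorem fL_an {r m : ℕ} (w : ℕ) (c : Fin r → ℝ) (hc0 : ∀ j, 0 < c j) (hc1 : ∀ j, c j < 1)
    (x : Fin m → ℝ) (hx0 : ∀ i, 0 < x i) (p) (t : ℝ) (h0 : 0 < t) (h1 : t < 1) : AnalyticAt ℝ (fL w c x p) t := by
  rcases p with ((⟨j, k⟩ | i) | k)
  · refine Q232.li_an_mul _ ⟨?_, ?_⟩
    · have := mul_pos (hc0 j) h0
      linarith
    · have h2 : c j * t ≤ c j * 1 := mul_le_mul_of_nonneg_left h1.le (hc0 j).le
      linarith [hc1 j]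
  · apply TH659.AQ.lf_an
    linarith [hx0 i]
  · show AnalyticAt ℝ (TH818.AP.pl (k : ℕ)) t
    by_cases hk : (k : ℕ) = 0
    · rw [hk]
      have : TH818.AP.pl 0 = Real.log := by
        funext t
        simp [TH818.AP.pl]
      rw [this]
      exact analyticAt_log h0
    · have : TH818.AP.pl (k : ℕ) = TH818.AP.Li (k : ℕ) := by
        funext t
        simp [TH818.AP.pl, hk]
      rw [this]
      exact TH818.AP.liAn _ t ⟨by linarith, h1⟩

theorem fL_ind {r m : ℕ} (w : ℕ) (c : Fin r → ℝ) (hc : StrictAnti c) (hc0 : ∀ j, 0 < c j) (hc1 : ∀ j, c j < 1)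
    (x : Fin m → ℝ) (hx : Function.Injective x) (hx0 : ∀ i, 0 < x i) (d : ℕ) (a b : ℝ) (ha : 0 < a) (hab : a < b)
    (hb : b < 1) : TH818.AP.RIndep (fun (e : (((Fin r × Fin w) ⊕ Fin m) ⊕ Fin (w + 1)) → Fin (d + 1)) (t : ℝ) =>
      ∏ p, fL w c x p t ^ (e p : ℕ)) a b := by
  -- a point between the singularities of the logarithms and 0
  obtain ⟨x₀, hx₀, hx₀'⟩ : ∃ x₀ : ℝ, x₀ < 0 ∧ ∀ i, -x i < x₀ := by
    have h1 : ∀ᶠ s in 𝓝[<] (0 : ℝ), ∀ i, -x i < s := by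
      rw [eventually_all]
      intro i
      exact mem_nhdsWithin_of_mem_nhds (lt_mem_nhds (by linarith [hx0 i]))
    obtain ⟨s, hs1, hs2⟩ := (h1.and self_mem_nhdsWithin).exists
    exact ⟨s, hs2, hs1⟩
  obtain ⟨y, hy1, hy⟩ : ∃ y : ℝ, 1 < y ∧ ∀ j, 1 < c j * y := by
    have h1 : ∀ᶠ s in atTop, ∀ j, 1 < c j * s := by
      rw [eventually_all]
      intro j
      exact (tendsto_id.const_mul_atTop (hc0 j)).eventually_gt_atTop 1
    obtain ⟨s, hs1, hs2⟩ := (h1.and (eventually_gt_atTop 1)).exists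
    exact ⟨s, hs2, hs1⟩
  have hlf : ∀ i t, x₀ < t → AnalyticAt ℝ (TH659.AQ.lf x i) t := by
    intro i t ht
    apply TH659.AQ.lf_an
    linarith [hx₀' i]
  have hlogs : ∀ (d : ℕ) (a b : ℝ), 0 < a → a < b →
      TH818.AP.RIndep (fun (e : Fin m → Fin (d + 1)) (t : ℝ) => ∏ j, TH659.AQ.lf x j t ^ (e j : ℕ)) a b := by
    intro d a b ha hab p hp
    obtain ⟨c', hc'a, hc'x⟩ : ∃ c' : ℝ, c' < a ∧ ∀ j, c' < -x j := by
      have h1 : ∀ᶠ s in atBot, ∀ j, s < -x j := by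
        rw [eventually_all]
        intro j
        exact eventually_lt_atBot _
      obtain ⟨s, hs1, hs2⟩ := (h1.and (eventually_lt_atBot a)).exists
      exact ⟨s, hs2, hs1⟩
    have h1 := Q23.AQ.logC d m c' x hx hc'x a b (fun j => by linarith [hx0 j]) hc'a hab (fun e t => (p e).eval t)
      (fun e t _ => AnalyticOnNhd.eval_polynomial _ t (mem_univ _)) hp
    funext e
    have h3 : ∀ t, c' < t → (p e).eval t = 0 := h1 e
    refine Polynomial.eq_zero_of_infinite_isRoot _ ((Set.Ioi_infinite c').mono ?_)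
    intro t ht
    exact h3 t ht
  -- the polylogarithms of the multiples
  have h1 : ∀ (d : ℕ) (a b : ℝ), 0 < a → a < b → b < 1 →
      TH818.AP.RIndep (fun (e : ((Fin r × Fin w) ⊕ Fin m) → Fin (d + 1)) (t : ℝ) =>
        ∏ p, Sum.elim (fun (z : Fin r × Fin w) (t : ℝ) => TH818.AP.Li ((z.2 : ℕ) + 1) (c z.1 * t))
          (TH659.AQ.lf x) p t ^ (e p : ℕ)) a b := by
    intro d a b ha hab hb
    refine Q232.comb_lis (TH659.AQ.lf x) c hc hc0 x₀ y hx₀ hy a b ha hab (by linarith) (fun j => ?_)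
      (fun i t ht => hlf i t ht.1) (hlogs d a b ha hab)
    have h2 : c j * b ≤ 1 * b := mul_le_mul_of_nonneg_right (hc1 j).le (by linarith)
    linarith
  set u : ((Fin r × Fin w) ⊕ Fin m) → ℝ → ℝ :=
    Sum.elim (fun (z : Fin r × Fin w) (t : ℝ) => TH818.AP.Li ((z.2 : ℕ) + 1) (c z.1 * t)) (TH659.AQ.lf x) with hu
  have huan : ∀ p, ∀ t ∈ Icc (0 : ℝ) 1, AnalyticAt ℝ (u p) t := by
    rintro (⟨j, k⟩ | i) t ht
    · refine Q232.li_an_mul _ ⟨?_, ?_⟩
      · have := mul_nonneg (hc0 j).le ht.1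
        linarith
      · have h2 : c j * t ≤ c j * 1 := mul_le_mul_of_nonneg_left ht.2 (hc0 j).le
        linarith [hc1 j]
    · exact hlf i t (hx₀.trans_le ht.1)
  exact Q23.AQ.comb_li u a b ha hab hb huan
      (fun a' b' ha' hab' hb' => h1 d a' b' (by linarith) hab' (by linarith)) a b le_rfl hab le_rfl

end Pool.Agent.Q29.LiInd
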