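import Pool.Agent.Q29.EqSub

set_option autoImplicit false

/-! # Good scales for the linear forms in numbers with a measure of linear independence and one arbitrary number -/

namespace Pool.Agent.Q29.Eqd

open Finset

/-- the small vectors at the scale `N` -/
def LSmall {m : ℕ} (θ : Fin m → ℝ) (t : Fin 1 → ℝ) (δ : ℝ) (N : ℕ) : Set ((Fin (m + 1) → ℤ) × (Fin 1 → ℤ)) :=
  {v | v ≠ 0 ∧ ‖v‖ ≤ (N : ℝ) ^ δ ∧ |lval θ t v| ≤ (N : ℝ) ^ (-(1 / 2) : ℝ)}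

/-- parallel vectors -/
def Par {V : Type} [AddCommGroup V] (v w : V) : Prop := ∃ a b : ℤ, a ≠ 0 ∧ b ≠ 0 ∧ a • v = b • w

theorem Par.trans {V : Type} [AddCommGroup V] {u v w : V} (h1 : Par u v) (h2 : Par v w) : Par u w := by
  obtain ⟨a, b, ha, hb, h⟩ := h1
  obtain ⟨a', b', ha', hb', h'⟩ := h2
  refine ⟨a' * a, b * b', mul_ne_zero ha' ha, mul_ne_zero hb hb', ?_⟩
  rw [mul_smul, h, smul_comm, h', mul_smul]

theorem par_of_dep {m : ℕ} (v w : (Fin (m + 1) → ℤ) × (Fin 1 → ℤ)) (hv : v ≠ 0) (hw : w ≠ 0)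
    (h : ¬ LinearIndependent ℤ ![v, w]) : Par v w := by
  rw [LinearIndependent.pair_iff] at h
  push Not at h
  obtain ⟨a, b, h1, h2⟩ := h
  have ha : a ≠ 0 := by
    intro h0
    apply h2 h0
    rw [h0, zero_smul, zero_add, smul_eq_zero] at h1
    exact h1.resolve_right hw
  have hb : b ≠ 0 := by
    intro h0
    rw [h0, zero_smul, add_zero, smul_eq_zero] at h1
    exact h1.elim ha hv
  refine ⟨a, -b, ha, neg_ne_zero.2 hb, ?_⟩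
  rw [neg_smul]
  exact eq_neg_of_add_eq_zero_left h1

theorem lin_uniq {m : ℕ} (θ : Fin m → ℝ) (E c δ : ℝ) (hc : 0 < c) (hδ : 0 < δ) (hδE : δ * E ≤ 1 / 8)
    (hm : ∀ (t : Fin 1 → ℝ) (X : ℝ), 1 ≤ X → ∀ v : Fin (1 + 1) → (Fin (m + 1) → ℤ) × (Fin 1 → ℤ),
      LinearIndependent ℤ v → (∀ k, ‖v k‖ ≤ X) → ∃ k, c * X ^ (-E) ≤ |lval θ t (v k)|) :
    ∃ N₀ : ℕ, 1 ≤ N₀ ∧ ∀ N : ℕ, N₀ ≤ N → ∀ t : Fin 1 → ℝ, ∀ v ∈ LSmall θ t δ N,
      ∀ w ∈ LSmall θ t δ N ∪ LSmall θ t δ (N + 1), Par v w := by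
  obtain ⟨N₀, hN₀, hbig⟩ := ev_rpow (1 / 4) (4 / c) (by norm_num)
  refine ⟨N₀, hN₀, fun N hN t v hv w hw => ?_⟩
  have hN1 : (1 : ℝ) ≤ N := by exact_mod_cast hN₀.trans hN
  have hN0 : (0 : ℝ) < N := by linarith
  have h1 := hbig N hN
  have hM1 : (1 : ℝ) ≤ ((N + 1 : ℕ) : ℝ) := by push_cast; linarith
  have hM0 : (0 : ℝ) < ((N + 1 : ℕ) : ℝ) := by linarith
  have h2 : (((N + 1 : ℕ) : ℝ)) ≤ 2 * N := by push_cast; linarith
  have hw0 : w ≠ 0 ∧ ‖w‖ ≤ (((N + 1 : ℕ) : ℝ)) ^ δ ∧ |lval θ t w| ≤ (N : ℝ) ^ (-(1 / 2) : ℝ) := by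
    rcases hw with ⟨a, b, c'⟩ | ⟨a, b, c'⟩
    · refine ⟨a, b.trans ?_, c'⟩
      exact Real.rpow_le_rpow hN0.le (by push_cast; linarith) hδ.le
    · refine ⟨a, b, c'.trans ?_⟩
      exact Real.rpow_le_rpow_of_nonpos hN0 (by push_cast; linarith) (by norm_num)
  have hv2 : ‖v‖ ≤ (((N + 1 : ℕ) : ℝ)) ^ δ :=
    hv.2.1.trans (Real.rpow_le_rpow hN0.le (by push_cast; linarith) hδ.le)
  apply par_of_dep v w hv.1 hw0.1
  intro hli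
  obtain ⟨k, hk⟩ := hm t ((((N + 1 : ℕ) : ℝ)) ^ δ) (Real.one_le_rpow hM1 hδ.le) ![v, w] hli (by
    intro k
    fin_cases k
    · exact hv2
    · exact hw0.2.1)
  have hk2 : |lval θ t (![v, w] k)| ≤ (N : ℝ) ^ (-(1 / 2) : ℝ) := by
    fin_cases k
    · exact hv.2.2
    · exact hw0.2.2
  have h3 : (2 * (N : ℝ)) ^ (-(1 / 8) : ℝ) ≤ ((((N + 1 : ℕ) : ℝ)) ^ δ) ^ (-E) := by
    rw [← Real.rpow_mul hM0.le]
    calc (2 * (N : ℝ)) ^ (-(1 / 8) : ℝ) ≤ (((N + 1 : ℕ) : ℝ)) ^ (-(1 / 8) : ℝ) :=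
          Real.rpow_le_rpow_of_nonpos hM0 h2 (by norm_num)
      _ ≤ _ := Real.rpow_le_rpow_of_exponent_le hM1 (by linarith)
  have h5 : (2 : ℝ)⁻¹ ≤ (2 : ℝ) ^ (-(1 / 8) : ℝ) := by
    rw [← Real.rpow_neg_one]
    exact Real.rpow_le_rpow_of_exponent_le (by norm_num) (by norm_num)
  have h6 : (2 * (N : ℝ)) ^ (-(1 / 8) : ℝ) = (2 : ℝ) ^ (-(1 / 8) : ℝ) * (N : ℝ) ^ (-(1 / 8) : ℝ) :=
    Real.mul_rpow (by norm_num) hN0.le
  have h7 : (N : ℝ) ^ (-(1 / 4) : ℝ) * (N : ℝ) ^ (1 / 4 : ℝ) = 1 := by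
    rw [← Real.rpow_add hN0]
    simp
  have h8 : (N : ℝ) ^ (-(1 / 4) : ℝ) ≤ (N : ℝ) ^ (-(1 / 8) : ℝ) :=
    Real.rpow_le_rpow_of_exponent_le hN1 (by norm_num)
  have h9 : (N : ℝ) ^ (-(1 / 2) : ℝ) = (N : ℝ) ^ (-(1 / 4) : ℝ) * (N : ℝ) ^ (-(1 / 4) : ℝ) := by
    rw [← Real.rpow_add hN0]
    norm_num
  have hn4 : 0 < (N : ℝ) ^ (-(1 / 4) : ℝ) := by positivity
  have h10 : c * (2⁻¹ * (N : ℝ) ^ (-(1 / 4) : ℝ)) ≤ (N : ℝ) ^ (-(1 / 4) : ℝ) * (N : ℝ) ^ (-(1 / 4) : ℝ) := by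
    rw [← h9]
    refine le_trans ?_ (hk.trans hk2)
    apply mul_le_mul_of_nonneg_left _ hc.le
    refine le_trans ?_ h3
    rw [h6]
    gcongr
  have h11 : c * 2⁻¹ ≤ (N : ℝ) ^ (-(1 / 4) : ℝ) := by
    have : c * 2⁻¹ * (N : ℝ) ^ (-(1 / 4) : ℝ) ≤ (N : ℝ) ^ (-(1 / 4) : ℝ) * (N : ℝ) ^ (-(1 / 4) : ℝ) := by linarith
    exact le_of_mul_le_mul_right this hn4
  have h12 : c * 2⁻¹ * (4 / c) ≤ 1 := by
    calc c * 2⁻¹ * (4 / c) ≤ (N : ℝ) ^ (-(1 / 4) : ℝ) * (N : ℝ) ^ (1 / 4 : ℝ) := by gcongr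
      _ = 1 := h7
  have h13 : c * 2⁻¹ * (4 / c) = 2 := by field_simp; norm_num
  linarith

theorem norm_ge_one {m : ℕ} (v : (Fin (m + 1) → ℤ) × (Fin 1 → ℤ)) (hv : v ≠ 0) : 1 ≤ ‖v‖ := by
  have hz : ∀ n : ℤ, n ≠ 0 → 1 ≤ ‖n‖ := by
    intro n hn
    rw [Int.norm_eq_abs, ← Int.cast_abs]
    exact_mod_cast Int.one_le_abs hn
  by_contra hcon
  push Not at hcon
  apply hv
  have h1 : ‖v.1‖ < 1 := lt_of_le_of_lt (norm_fst_le v) hcon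
  have h2 : ‖v.2‖ < 1 := lt_of_le_of_lt (norm_snd_le v) hcon
  rw [Prod.ext_iff]
  constructor
  · funext i
    by_contra h0
    have := hz _ h0
    have h3 := norm_le_pi_norm v.1 i
    linarith
  · funext i
    by_contra h0
    have := hz _ h0
    have h3 := norm_le_pi_norm v.2 i
    linarith

theorem lval_smul {m r : ℕ} (θ : Fin m → ℝ) (t : Fin r → ℝ) (a : ℤ) (v : (Fin (m + 1) → ℤ) × (Fin r → ℤ)) :
    lval θ t (a • v) = a * lval θ t v := by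
  unfold lval
  simp only [Prod.smul_fst, Prod.smul_snd, Pi.smul_apply, smul_eq_mul]
  push_cast
  rw [mul_add, mul_add, Finset.mul_sum, Finset.mul_sum]
  congr 1
  · congr 1
    exact Finset.sum_congr rfl fun j _ => by ring
  · exact Finset.sum_congr rfl fun j _ => by ring

theorem lin_inf {m : ℕ} (θ : Fin m → ℝ) (t : Fin 1 → ℝ) (δ : ℝ) (N₀ : ℕ)
    (hu : ∀ N : ℕ, N₀ ≤ N → ∀ v ∈ LSmall θ t δ N, ∀ w ∈ LSmall θ t δ N ∪ LSmall θ t δ (N + 1), Par v w)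
    (N₁ : ℕ) : ∃ N : ℕ, N₁ ≤ N ∧ ∀ v ∈ LSmall θ t δ N, lval θ t v = 0 := by
  by_contra hcon
  push Not at hcon
  obtain ⟨v, hv, hv0⟩ := hcon (max N₁ N₀) (le_max_left _ _)
  have hall : ∀ n : ℕ, ∃ w ∈ LSmall θ t δ (max N₁ N₀ + n), Par v w := by
    intro n
    induction n with
    | zero => exact ⟨v, hv, 1, 1, one_ne_zero, one_ne_zero, rfl⟩
    | succ n ih =>
      obtain ⟨w, hw, hvw⟩ := ih
      obtain ⟨w', hw', -⟩ := hcon (max N₁ N₀ + (n + 1)) (by have := le_max_left N₁ N₀; omega)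
      exact ⟨w', hw', hvw.trans (hu (max N₁ N₀ + n) (by have := le_max_right N₁ N₀; omega) w hw w' (Or.inr hw'))⟩
  apply hv0
  rw [← abs_eq_zero]
  refine le_antisymm ?_ (abs_nonneg _)
  have hlim : Filter.Tendsto (fun n : ℕ => ‖v‖ * (((max N₁ N₀ + n : ℕ) : ℝ)) ^ (-(1 / 2) : ℝ)) Filter.atTop
      (nhds (‖v‖ * 0)) := by
    refine Filter.Tendsto.const_mul _ ?_
    refine (tendsto_rpow_neg_atTop (by norm_num : (0 : ℝ) < 1 / 2)).comp ?_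
    refine tendsto_natCast_atTop_atTop.comp ?_
    exact Filter.tendsto_atTop_mono (fun n => Nat.le_add_left n _) Filter.tendsto_id
  rw [mul_zero] at hlim
  refine ge_of_tendsto' hlim fun n => ?_
  obtain ⟨w, hw, a, b, ha, hb, hab⟩ := hall n
  have hw1 := norm_ge_one w hw.1
  have e1 : |(a : ℝ)| * ‖v‖ = |(b : ℝ)| * ‖w‖ := by
    have := congrArg norm hab
    rw [norm_smul, norm_smul, Int.norm_eq_abs, Int.norm_eq_abs] at this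
    exact this
  have e2 : (a : ℝ) * lval θ t v = b * lval θ t w := by rw [← lval_smul, ← lval_smul, hab]
  have e3 : |(a : ℝ)| * |lval θ t v| = |(b : ℝ)| * |lval θ t w| := by rw [← abs_mul, ← abs_mul, e2]
  have ha0 : 0 < |(a : ℝ)| := abs_pos.2 (by exact_mod_cast ha)
  have hb0 : 0 < |(b : ℝ)| := abs_pos.2 (by exact_mod_cast hb)
  have h5 : |(b : ℝ)| ≤ |(a : ℝ)| * ‖v‖ := by rw [e1]; exact le_mul_of_one_le_right hb0.le hw1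
  have h6 : |(a : ℝ)| * |lval θ t v| ≤ |(a : ℝ)| * (‖v‖ * (((max N₁ N₀ + n : ℕ) : ℝ)) ^ (-(1 / 2) : ℝ)) := by
    rw [e3, ← mul_assoc]
    exact mul_le_mul h5 hw.2.2 (abs_nonneg _) (by positivity)
  exact le_of_mul_le_mul_left h6 ha0

/-- **the engine**: at each large scale a vector of linear forms is uniformly distributed, or an integer combination
is a small vector -/
theorem lin_engine {m : ℕ} (θ : Fin m → ℝ) (s : ℕ) (hs : 1 ≤ s) (K : ℕ) (A : ℝ) (hA : 1 ≤ A) (δ : ℝ)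
    (hδ : 0 < δ) (hδ1 : δ ≤ 1) : ∃ κ : ℝ, 0 < κ ∧ ∀ T : ℝ, ∃ N₀ : ℕ, 1 ≤ N₀ ∧ ∀ N : ℕ, N₀ ≤ N →
      ∀ t : Fin 1 → ℝ, |t 0| ≤ T → ∀ (a : Fin s → Fin m → ℤ) (b : Fin s → ℤ),
      (∀ i j, |(a i j : ℝ)| ≤ (N : ℝ) ^ κ) → (∀ i, |(b i : ℝ)| ≤ (N : ℝ) ^ κ) →
      ∀ M : ℕ, N ≤ M → (M : ℝ) ≤ (N : ℝ) ^ A → Joint κ K M (fun i => ∑ j, (a i j : ℝ) * θ j + b i * t 0) ∨
        ∃ l : Fin s → ℤ, l ≠ 0 ∧ ∃ u : ℤ, ∃ v : (Fin (m + 1) → ℤ) × (Fin 1 → ℤ),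
          lval θ t v = (∑ i, (l i : ℝ) * (∑ j, (a i j : ℝ) * θ j + b i * t 0)) - u ∧
          (v = 0 ∨ v ∈ LSmall θ t δ N) := by
  obtain ⟨δ₂, hδ₂E⟩ : ∃ δ₂ : ℝ, δ₂ = δ / (8 * A) := ⟨_, rfl⟩
  have hA0 : 0 < A := by linarith
  have hδ₂ : 0 < δ₂ := by rw [hδ₂E]; positivity
  have hAδ₂ : A * δ₂ = δ / 8 := by rw [hδ₂E]; field_simp
  have hδ₂4 : δ₂ ≤ 1 / 8 := by nlinarith
  obtain ⟨κ₁, hκ₁, M₀, hM₀2, hjoint⟩ := joint_engine s hs K δ₂ hδ₂ (by linarith)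
  refine ⟨min κ₁ (δ / 4), lt_min hκ₁ (by positivity), fun T => ?_⟩
  obtain ⟨X, hX⟩ : ∃ X : ℝ, X = (∑ j, |θ j|) + |T| + 1 := ⟨_, rfl⟩
  have hθ0 : 0 ≤ ∑ j, |θ j| := Finset.sum_nonneg fun j _ => abs_nonneg _
  have hX0 : 0 ≤ X := by rw [hX]; positivity
  obtain ⟨M₁, hM₁, hbig⟩ := ev_rpow (δ / 2) (s * (1 + X) + 1) (by positivity)
  refine ⟨max M₀ M₁, hM₁.trans (le_max_right _ _), fun N hN t ht a b ha hb M hNM hMA => ?_⟩
  have hNM₀ : M₀ ≤ N := (le_max_left _ _).trans hN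
  have hbigN := hbig N ((le_max_right _ _).trans hN)
  have hNpos : 2 ≤ N := hM₀2.trans hNM₀
  have hN2 : (2 : ℝ) ≤ N := by exact_mod_cast hNpos
  have hN1 : (1 : ℝ) ≤ N := by linarith
  have hN0 : (0 : ℝ) < N := by linarith
  have hMpos : 1 ≤ M := by omega
  have hM1 : (1 : ℝ) ≤ M := by exact_mod_cast hMpos
  obtain ⟨x, hx⟩ : ∃ x : Fin s → ℝ, x = fun i => ∑ j, (a i j : ℝ) * θ j + b i * t 0 := ⟨_, rfl⟩
  have hxi : ∀ i, x i = ∑ j, (a i j : ℝ) * θ j + b i * t 0 := fun i => by rw [hx]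
  rw [← hx]
  simp only [← hxi]
  by_cases hgood : ∀ l : Fin s → ℤ, l ≠ 0 → (∀ j, |(l j : ℝ)| ≤ M) → (∀ j, |(l j : ℝ)| ≤ (M : ℝ) ^ δ₂) →
      ¬ Res δ₂ M (∑ j, (l j : ℝ) * x j)
  · exact Or.inl ((hjoint M (hNM₀.trans hNM) _ hgood).mono hMpos (min_le_left _ _))
  right
  push Not at hgood
  obtain ⟨l, hl0, -, hlM, q, hq1, hqM, u, hu⟩ := hgood
  have hq0 : (q : ℤ) ≠ 0 := by exact_mod_cast (show q ≠ 0 by omega)
  obtain ⟨v, hv⟩ : ∃ v : (Fin (m + 1) → ℤ) × (Fin 1 → ℤ), v =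
    (Fin.cons (-u) (fun j => ∑ i, (q * l i) * a i j), fun _ => ∑ i, (q * l i) * b i) := ⟨_, rfl⟩
  have hsum : ∑ i, ((q * l i : ℤ) : ℝ) * x i = (q : ℝ) * ∑ j, (l j : ℝ) * x j := by
    rw [Finset.mul_sum]
    refine Finset.sum_congr rfl fun i _ => ?_
    push_cast
    ring
  have hval : lval θ t v = (∑ i, ((q * l i : ℤ) : ℝ) * x i) - u := by
    rw [hv]
    unfold lval
    simp only [Fin.cons_zero, Fin.cons_succ, hxi]
    push_cast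
    simp only [Fin.sum_univ_succ, Finset.univ_eq_empty, Finset.sum_empty, add_zero, Finset.sum_mul, mul_add,
      Finset.mul_sum, Finset.sum_add_distrib]
    rw [Finset.sum_comm]
    have e1 : ∑ i, ∑ j, (q : ℝ) * (l i : ℝ) * (a i j : ℝ) * θ j = ∑ i, ∑ j, (q : ℝ) * (l i : ℝ) * ((a i j : ℝ) * θ j) :=
      Finset.sum_congr rfl fun i _ => Finset.sum_congr rfl fun j _ => by ring
    have e2 : ∑ i, (q : ℝ) * (l i : ℝ) * (b i : ℝ) * t 0 = ∑ i, (q : ℝ) * (l i : ℝ) * ((b i : ℝ) * t 0) :=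
      Finset.sum_congr rfl fun i _ => by ring
    rw [e1, e2]
    ring
  refine ⟨fun i => q * l i, ?_, u, v, hval, ?_⟩
  · intro h
    apply hl0
    funext i
    have h1 := congrFun h i
    simp only [Pi.zero_apply] at h1
    rcases mul_eq_zero.1 h1 with h2 | h2
    · exact absurd h2 hq0
    · exact h2
  by_cases hv0 : v = 0
  · exact Or.inl hv0
  right
  -- sizes
  have hMδ : (M : ℝ) ^ δ₂ ≤ (N : ℝ) ^ (δ / 8) := by
    rw [← hAδ₂, Real.rpow_mul hN0.le]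
    exact Real.rpow_le_rpow (by positivity) hMA hδ₂.le
  have hqN : (q : ℝ) ≤ (N : ℝ) ^ (δ / 8) := hqM.trans hMδ
  have hlN : ∀ j, |(l j : ℝ)| ≤ (N : ℝ) ^ (δ / 8) := fun j => (hlM j).trans hMδ
  have hκN : (N : ℝ) ^ (min κ₁ (δ / 4)) ≤ (N : ℝ) ^ (δ / 4) :=
    Real.rpow_le_rpow_of_exponent_le hN1 (min_le_right _ _)
  have hp8 : (N : ℝ) ^ (δ / 8) * ((N : ℝ) ^ (δ / 8) * (N : ℝ) ^ (δ / 4)) = (N : ℝ) ^ (δ / 2) := by
    rw [← Real.rpow_add hN0, ← Real.rpow_add hN0]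
    congr 1
    ring
  have hcomb : ∀ z : Fin s → ℝ, ∀ Y : ℝ, 0 ≤ Y → (∀ i, |z i| ≤ Y * (N : ℝ) ^ (δ / 4)) →
      |∑ i, (q : ℝ) * (l i : ℝ) * z i| ≤ s * Y * (N : ℝ) ^ (δ / 2) := by
    intro z Y hY hz
    calc |∑ i, (q : ℝ) * (l i : ℝ) * z i| ≤ ∑ i, |(q : ℝ) * (l i : ℝ) * z i| := Finset.abs_sum_le_sum_abs _ _
      _ ≤ ∑ _i : Fin s, (N : ℝ) ^ (δ / 8) * ((N : ℝ) ^ (δ / 8) * (Y * (N : ℝ) ^ (δ / 4))) := by
          refine Finset.sum_le_sum fun i _ => ?_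
          rw [abs_mul, abs_mul, Nat.abs_cast, mul_assoc]
          exact mul_le_mul hqN (mul_le_mul (hlN i) (hz i) (abs_nonneg _) (by positivity)) (by positivity) (by positivity)
      _ = s * Y * ((N : ℝ) ^ (δ / 8) * ((N : ℝ) ^ (δ / 8) * (N : ℝ) ^ (δ / 4))) := by
          rw [Finset.sum_const, Finset.card_univ, Fintype.card_fin, nsmul_eq_mul]
          ring
      _ = _ := by rw [hp8]
  have hxb : ∀ i, |x i| ≤ X * (N : ℝ) ^ (δ / 4) := by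
    intro i
    rw [hxi]
    have h1 : |b i * t 0| ≤ (N : ℝ) ^ (δ / 4) * |T| := by
      rw [abs_mul]
      exact mul_le_mul ((hb i).trans hκN) (ht.trans (le_abs_self _)) (abs_nonneg _) (by positivity)
    calc |∑ j, (a i j : ℝ) * θ j + b i * t 0| ≤ |∑ j, (a i j : ℝ) * θ j| + |b i * t 0| := abs_add_le _ _
      _ ≤ (∑ j, (N : ℝ) ^ (δ / 4) * |θ j|) + (N : ℝ) ^ (δ / 4) * |T| := by
          refine add_le_add ((Finset.abs_sum_le_sum_abs _ _).trans (Finset.sum_le_sum fun j _ => ?_)) h1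
          rw [abs_mul]
          exact mul_le_mul_of_nonneg_right ((ha i j).trans hκN) (abs_nonneg _)
      _ ≤ X * (N : ℝ) ^ (δ / 4) := by
          rw [← Finset.mul_sum, hX]
          have : 0 ≤ (N : ℝ) ^ (δ / 4) := by positivity
          nlinarith
  have hN2' : (1 : ℝ) ≤ (N : ℝ) ^ (δ / 2) := Real.one_le_rpow hN1 (by positivity)
  have hNN : (s * (1 + X) + 1) * (N : ℝ) ^ (δ / 2) ≤ (N : ℝ) ^ δ := by
    calc (s * (1 + X) + 1) * (N : ℝ) ^ (δ / 2) ≤ (N : ℝ) ^ (δ / 2) * (N : ℝ) ^ (δ / 2) :=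
          mul_le_mul_of_nonneg_right hbigN (by positivity)
      _ = (N : ℝ) ^ δ := by
          rw [← Real.rpow_add hN0]
          congr 1
          ring
  have hM2 : (M : ℝ) ^ (δ₂ - 1) ≤ 1 := Real.rpow_le_one_of_one_le_of_nonpos hM1 (by linarith)
  have hs0 : (0 : ℝ) ≤ s := Nat.cast_nonneg _
  have hP0 : 0 ≤ (N : ℝ) ^ (δ / 2) := by positivity
  have hu' : |(u : ℝ)| ≤ (N : ℝ) ^ δ := by
    have h1 : |(u : ℝ)| ≤ |(q : ℝ) * (∑ j, (l j : ℝ) * x j)| + |(q : ℝ) * (∑ j, (l j : ℝ) * x j) - u| := by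
      have := abs_sub_abs_le_abs_sub (u : ℝ) ((q : ℝ) * (∑ j, (l j : ℝ) * x j))
      rw [abs_sub_comm] at this
      linarith
    have h2 := hcomb x X hX0 hxb
    have e1 : ∑ i, (q : ℝ) * (l i : ℝ) * x i = (q : ℝ) * ∑ j, (l j : ℝ) * x j := by
      rw [Finset.mul_sum]
      exact Finset.sum_congr rfl fun i _ => by ring
    rw [e1] at h2
    have h3 : (s : ℝ) * X * (N : ℝ) ^ (δ / 2) + 1 ≤ (s * (1 + X) + 1) * (N : ℝ) ^ (δ / 2) := by nlinarith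
    linarith
  have hz1 : ∀ z : Fin s → ℤ, (∀ i, |(z i : ℝ)| ≤ (N : ℝ) ^ (δ / 4)) → |((∑ i, (q * l i) * z i : ℤ) : ℝ)| ≤ (N : ℝ) ^ δ := by
    intro z hz
    have h2 := hcomb (fun i => (z i : ℝ)) 1 zero_le_one (fun i => by rw [one_mul]; exact hz i)
    push_cast
    refine h2.trans (le_trans ?_ hNN)
    have h4 : (s : ℝ) * 1 ≤ s * (1 + X) + 1 := by nlinarith
    exact mul_le_mul_of_nonneg_right h4 hP0
  refine ⟨hv0, ?_, ?_⟩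
  · rw [hv, norm_prod_le_iff]
    constructor
    · refine (pi_norm_le_iff_of_nonneg (by positivity)).2 fun j => ?_
      rw [Int.norm_eq_abs]
      refine Fin.cases ?_ (fun j => ?_) j
      · show |((-u : ℤ) : ℝ)| ≤ _
        push_cast
        rw [abs_neg]
        exact hu'
      · show |((∑ i, (q * l i) * a i j : ℤ) : ℝ)| ≤ _
        exact hz1 _ fun i => (ha i j).trans hκN
    · refine (pi_norm_le_iff_of_nonneg (by positivity)).2 fun j => ?_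
      rw [Int.norm_eq_abs]
      exact hz1 _ fun i => (hb i).trans hκN
  · rw [hval, hsum]
    refine hu.trans ?_
    calc (M : ℝ) ^ (δ₂ - 1) ≤ (N : ℝ) ^ (δ₂ - 1) :=
          Real.rpow_le_rpow_of_nonpos hN0 (by exact_mod_cast hNM) (by linarith)
      _ ≤ (N : ℝ) ^ (-(1 / 2) : ℝ) := Real.rpow_le_rpow_of_exponent_le hN1 (by linarith)

/-- **Good scales for linear forms.** -/
theorem lin_main {m : ℕ} (θ : Fin m → ℝ) (E c : ℝ) (hE : 0 ≤ E) (hc : 0 < c)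
    (hm : ∀ (t : Fin 1 → ℝ) (X : ℝ), 1 ≤ X → ∀ v : Fin (1 + 1) → (Fin (m + 1) → ℤ) × (Fin 1 → ℤ),
      LinearIndependent ℤ v → (∀ k, ‖v k‖ ≤ X) → ∃ k, c * X ^ (-E) ≤ |lval θ t (v k)|)
    (s : ℕ) (hs : 1 ≤ s) (K : ℕ) (A : ℝ) (hA : 1 ≤ A) : ∃ κ : ℝ, 0 < κ ∧ ∀ t : Fin 1 → ℝ, ∃ G : Set ℕ,
      (∀ N ∈ G,
        (∀ v : (Fin (m + 1) → ℤ) × (Fin 1 → ℤ), ‖v‖ ≤ (N : ℝ) ^ κ → lval θ t v ≠ 0 →
          (N : ℝ) ^ (-(1 / 2) : ℝ) ≤ |lval θ t v|) ∧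
        (∀ (a : Fin s → Fin m → ℤ) (b : Fin s → ℤ),
          (∀ i j, |(a i j : ℝ)| ≤ (N : ℝ) ^ κ) → (∀ i, |(b i : ℝ)| ≤ (N : ℝ) ^ κ) →
          (∀ l : Fin s → ℤ, l ≠ 0 → ∀ u : ℤ, ∑ i, (l i : ℝ) * (∑ j, (a i j : ℝ) * θ j + b i * t 0) ≠ u) →
          ∀ M : ℕ, N ≤ M → (M : ℝ) ≤ (N : ℝ) ^ A → Joint κ K M (fun i => ∑ j, (a i j : ℝ) * θ j + b i * t 0))) ∧
      (∀ N₁ : ℕ, ∃ N ∈ G, N₁ ≤ N) ∧
      ((∃ v : (Fin (m + 1) → ℤ) × (Fin 1 → ℤ), v ≠ 0 ∧ lval θ t v = 0) → ∃ N₁ : ℕ, ∀ N : ℕ, N₁ ≤ N → N ∈ G) := by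
  obtain ⟨δ, hδE⟩ : ∃ δ : ℝ, δ = 1 / (8 * (E + 1)) := ⟨_, rfl⟩
  have hδ : 0 < δ := by rw [hδE]; positivity
  have hδ1 : δ ≤ 1 := by
    rw [hδE, div_le_one (by positivity)]
    linarith
  have hδE' : δ * E ≤ 1 / 8 := by
    have e1 : δ * (E + 1) = 1 / 8 := by rw [hδE]; field_simp
    nlinarith
  obtain ⟨N₂, hN₂, hu⟩ := lin_uniq θ E c δ hc hδ hδE' hm
  obtain ⟨κ₁, hκ₁, heng⟩ := lin_engine θ s hs K A hA δ hδ hδ1
  refine ⟨min κ₁ δ, lt_min hκ₁ hδ, fun t => ?_⟩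
  obtain ⟨N₁, hN₁, h1⟩ := heng |t 0|
  have hκδ : ∀ N : ℕ, 1 ≤ N → (N : ℝ) ^ (min κ₁ δ) ≤ (N : ℝ) ^ κ₁ ∧ (N : ℝ) ^ (min κ₁ δ) ≤ (N : ℝ) ^ δ := by
    intro N hN
    have hN1 : (1 : ℝ) ≤ N := by exact_mod_cast hN
    exact ⟨Real.rpow_le_rpow_of_exponent_le hN1 (min_le_left _ _),
      Real.rpow_le_rpow_of_exponent_le hN1 (min_le_right _ _)⟩
  refine ⟨{N | max N₁ N₂ ≤ N ∧ ∀ v ∈ LSmall θ t δ N, lval θ t v = 0}, ?_, ?_, ?_⟩
  · rintro N ⟨hN, hS⟩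
    have hNa : N₁ ≤ N := (le_max_left _ _).trans hN
    have hNp : 1 ≤ N := hN₁.trans hNa
    constructor
    · intro v hv hv0
      by_contra hcon
      push Not at hcon
      apply hv0
      by_cases h0 : v = 0
      · rw [h0]
        unfold lval
        simp
      · exact hS v ⟨h0, hv.trans (hκδ N hNp).2, hcon.le⟩
    · intro a b ha hb hind M hNM hMA
      rcases h1 N hNa t le_rfl a b (fun i j => (ha i j).trans (hκδ N hNp).1) (fun i => (hb i).trans (hκδ N hNp).1)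
        M hNM hMA with h3 | h3
      · exact h3.mono (by omega) (min_le_left _ _)
      · exfalso
        obtain ⟨l, hl, u, v, hv, h4⟩ := h3
        apply hind l hl u
        have h5 : lval θ t v = 0 := by
          rcases h4 with h4 | h4
          · rw [h4]
            unfold lval
            simp
          · exact hS v h4
        rw [hv, sub_eq_zero] at h5
        exact h5
  · intro N₃
    obtain ⟨N, hN, hNS⟩ := lin_inf θ t δ N₂ (fun N hN => hu N hN t) (max N₃ (max N₁ N₂))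
    exact ⟨N, ⟨(le_max_right _ _).trans hN, hNS⟩, (le_max_left _ _).trans hN⟩
  · rintro ⟨v, hv0, hv⟩
    obtain ⟨N₅, hN₅, h5⟩ := ev_rpow δ ‖v‖ hδ
    refine ⟨max N₅ (max N₁ N₂), fun N hN => ⟨(le_max_right _ _).trans hN, fun w hw => ?_⟩⟩
    have hvS : v ∈ LSmall θ t δ N := by
      refine ⟨hv0, h5 N ((le_max_left _ _).trans hN), ?_⟩
      rw [hv, abs_zero]
      positivity
    obtain ⟨a, b, ha, hb, hab⟩ := hu N ((le_max_right _ _).trans ((le_max_right _ _).trans hN)) t w hw v (Or.inl hvS)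
    have e2 : (a : ℝ) * lval θ t w = b * lval θ t v := by rw [← lval_smul, ← lval_smul, hab]
    rw [hv, mul_zero] at e2
    exact (mul_eq_zero.1 e2).resolve_left (by exact_mod_cast ha)

end Pool.Agent.Q29.Eqd
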