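import Mathlib
import Pool.Agent.H380R2.CodeCF

/-!
Denominators inside a block of equal partial quotients: with `λ ^ 2 = t λ + 1` the value of
`q ‖q α‖` at a combination of two consecutive denominators is close to the norm divided by
`√(t ^ 2 + 4)`.
-/

set_option autoImplicit false

namespace Pool.Agent.Q29.LitBlk

open Pool.Agent.H380R2.LC Filter

lemma den_le_succ {α : ℝ} (hα : Irrational α) (k : ℕ) : den α k ≤ den α (k + 1) := by
  rcases k with _ | k
  · simp [den]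
  · change den α (k + 1) ≤ pq α (k + 1) * den α (k + 1) + den α k
    have h1 := pq_pos hα k
    have h2 := den_nonneg hα (k + 1)
    have h3 := den_nonneg hα k
    nlinarith

lemma den_mono {α : ℝ} (hα : Irrational α) : Monotone (den α) := monotone_nat_of_le_succ (den_le_succ hα)

lemma le_den {α : ℝ} (hα : Irrational α) (k : ℕ) : (k : ℤ) ≤ den α (k + 1) := by
  induction k using Nat.strong_induction_on with
  | _ k ih =>
    rcases k with _ | _ | k
    · simp [den]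
    · have h := den_mono hα (show 1 ≤ 1 + 1 by norm_num)
      have h1 : den α 1 = 1 := rfl
      push_cast
      linarith
    · have h0 := ih (k + 1) (by omega)
      have h1 : den α (k + 1 + 1 + 1) = pq α (k + 2) * den α (k + 2) + den α (k + 1) := rfl
      have h2 := pq_pos hα (k + 1)
      have h3 := den_nonneg hα (k + 2)
      have h4 : 1 ≤ den α (k + 1) := by
        have := den_mono hα (show 1 ≤ k + 1 by omega)
        have h1 : den α 1 = 1 := rfl
        linarith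
      have h5 : (den α (k + 1 + 1)) ≤ pq α (k + 2) * den α (k + 2) := by
        have : 1 ≤ pq α (k + 2) := h2
        change den α (k + 2) ≤ _
        nlinarith
      rw [h1]
      push_cast at h0 ⊢
      linarith

/-- the norm form in a block: `Q` and `δ` with `Q δ √(t ^ 2 + 4) ≈` norm -/
theorem block {α : ℝ} (hα : Irrational α) {t k : ℕ} (ht1 : 1 ≤ t) (ht : t ≤ 11)
    (hb : ∀ i < 256, pq α (k + 1 + i) = t) {q p : ℤ} (hq : |q| ≤ 16777216) (hp : |p| ≤ 16777216)
    (hm : p ^ 2 - t * (p * q) - q ^ 2 ≠ 0) :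
    |((q * den α (k + 128) + p * den α (k + 129) : ℤ) : ℝ)| *
      |(q : ℝ) * th α (k + 128) + p * th α (k + 129)| * √((t : ℝ) ^ 2 + 4) ≤
        ((|p ^ 2 - t * (p * q) - q ^ 2| : ℤ) : ℝ) + 1 / 1000000 ∧
    (den α (k + 128) : ℝ) ≤ 100000000 * |((q * den α (k + 128) + p * den α (k + 129) : ℤ) : ℝ)| := by
  obtain ⟨S, hS⟩ : ∃ S, S = √((t : ℝ) ^ 2 + 4) := ⟨_, rfl⟩
  have htr1 : (1 : ℝ) ≤ t := by exact_mod_cast ht1
  have htr : (t : ℝ) ≤ 11 := by exact_mod_cast ht
  have hS2 : S * S = (t : ℝ) ^ 2 + 4 := by rw [hS]; exact Real.mul_self_sqrt (by positivity)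
  have hS0 : 0 ≤ S := by rw [hS]; exact Real.sqrt_nonneg _
  have hSt : (t : ℝ) < S := by nlinarith
  have hS3 : 2.236 < S := by nlinarith
  have hS4 : S < t + 2 := by nlinarith
  obtain ⟨l, hl⟩ : ∃ l, l = ((t : ℝ) + S) / 2 := ⟨_, rfl⟩
  obtain ⟨n, hn⟩ : ∃ n, n = ((t : ℝ) - S) / 2 := ⟨_, rfl⟩
  have hl2 : l * l = t * l + 1 := by rw [hl]; linear_combination hS2 / 4
  have hln : l * n = -1 := by rw [hl, hn]; linear_combination -hS2 / 4
  have hlpn : l + n = t := by rw [hl, hn]; ring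
  have hlmn : l - n = S := by rw [hl, hn]; ring
  have hl1 : 1.618 ≤ l := by rw [hl]; linarith
  have hl12 : l ≤ 12 := by rw [hl]; linarith
  have hn0 : n < 0 := by rw [hn]; linarith
  have hn1 : -1 ≤ n := by rw [hn]; linarith
  have hnabs : |n| ≤ 1 := by rw [abs_of_neg hn0]; linarith
  -- the recurrences
  have rD : ∀ i < 256, (den α (k + i + 2) : ℝ) = t * den α (k + i + 1) + den α (k + i) := by
    intro i hi
    have h1 : den α (k + i + 2) = pq α (k + i + 1) * den α (k + i + 1) + den α (k + i) := rfl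
    have h2 := hb i hi
    rw [show k + 1 + i = k + i + 1 by ring] at h2
    rw [h2] at h1
    rw [h1]; push_cast; ring
  have rT : ∀ i < 256, th α (k + i + 2) = t * th α (k + i + 1) + th α (k + i) := by
    intro i hi
    have h1 := th_rec α (k + i)
    have h2 := hb i hi
    rw [show k + 1 + i = k + i + 1 by ring] at h2
    rw [h2] at h1
    rw [h1]; push_cast; ring
  have eD : ∀ i ≤ 256, (den α (k + i + 1) : ℝ) - l * den α (k + i) =
      n ^ i * (den α (k + 1) - l * den α k) := by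
    intro i
    induction i with
    | zero => intro _; simp
    | succ i ih =>
      intro hi
      have h1 := ih (by omega)
      have h2 := rD i (by omega)
      rw [pow_succ, mul_right_comm, ← h1, show k + (i + 1) + 1 = k + i + 2 by ring,
        show k + (i + 1) = k + i + 1 by ring, h2]
      linear_combination (den α (k + i + 1) : ℝ) * (-hlpn) + (den α (k + i) : ℝ) * hln
  have eT : ∀ i ≤ 256, th α (k + i + 1) - n * th α (k + i) = l ^ i * (th α (k + 1) - n * th α k) := by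
    intro i
    induction i with
    | zero => intro _; simp
    | succ i ih =>
      intro hi
      have h1 := ih (by omega)
      have h2 := rT i (by omega)
      rw [pow_succ, mul_right_comm, ← h1, show k + (i + 1) + 1 = k + i + 2 by ring,
        show k + (i + 1) = k + i + 1 by ring, h2]
      linear_combination (th α (k + i + 1) : ℝ) * (-hlpn) + (th α (k + i) : ℝ) * hln
  obtain ⟨η, hη⟩ : ∃ η : ℝ, η = (l ^ 128)⁻¹ := ⟨_, rfl⟩
  have hlp : (0 : ℝ) < l ^ 128 := by positivity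
  have hη0 : 0 < η := by rw [hη]; positivity
  have hηs : η * (10 : ℝ) ^ 26 ≤ 1 := by
    rw [hη, inv_mul_le_iff₀ hlp, mul_one]
    calc (10 : ℝ) ^ 26 ≤ 1.618 ^ 128 := by norm_num
      _ ≤ l ^ 128 := by gcongr
  have hnpow : |n ^ 128| = η := by
    rw [abs_pow, hη]
    have : |n| * l = 1 := by
      rw [abs_of_neg hn0]; linarith
    apply eq_inv_of_mul_eq_one_left
    rw [← mul_pow, this, one_pow]
  obtain ⟨X, hX⟩ : ∃ X : ℝ, X = den α (k + 128) := ⟨_, rfl⟩
  obtain ⟨X', hX'⟩ : ∃ X : ℝ, X = den α (k + 129) := ⟨_, rfl⟩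
  obtain ⟨Θ, hΘ⟩ : ∃ X : ℝ, X = th α (k + 128) := ⟨_, rfl⟩
  obtain ⟨Θ', hΘ'⟩ : ∃ X : ℝ, X = th α (k + 129) := ⟨_, rfl⟩
  obtain ⟨E, hE⟩ : ∃ E : ℝ, E = X' - l * X := ⟨_, rfl⟩
  obtain ⟨G, hG⟩ : ∃ G : ℝ, G = Θ' - n * Θ := ⟨_, rfl⟩
  have dnn : ∀ j, (0 : ℝ) ≤ den α j := fun j => by exact_mod_cast den_nonneg hα j
  have dm : ∀ i j, i ≤ j → (den α i : ℝ) ≤ den α j := fun i j h => by exact_mod_cast den_mono hα h
  have hX0 : 0 ≤ X := by rw [hX]; exact dnn _
  have hEb : |E| ≤ η * (13 * X) := by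
    have h1 := eD 128 (by norm_num)
    have h2 : E = n ^ 128 * (den α (k + 1) - l * den α k) := by rw [hE, hX', hX, ← h1]
    rw [h2, abs_mul, hnpow]
    gcongr
    have h3 : |(den α (k + 1) : ℝ) - l * den α k| ≤ |(den α (k + 1) : ℝ)| + |l * den α k| := abs_sub _ _
    rw [abs_of_nonneg (dnn _), abs_of_nonneg (mul_nonneg (by linarith) (dnn _))] at h3
    have h4 := dm (k + 1) (k + 128) (by omega)
    have h5 := dm k (k + 128) (by omega)
    rw [hX]
    have h6 : l * (den α k : ℝ) ≤ 12 * den α (k + 128) := by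
      have := dnn k
      nlinarith
    linarith
  have tm : ∀ j d, |th α (j + d)| ≤ |th α j| := by
    intro j d
    induction d with
    | zero => simp
    | succ d ih => exact (th_mono hα (j + d)).trans ih
  have hGb : |G| ≤ η * (2 * |Θ|) := by
    have h1 := eT 128 (by norm_num)
    have h2 := eT 256 (by norm_num)
    have h3 : G = l ^ 128 * (th α (k + 1) - n * th α k) := by rw [hG, hΘ', hΘ, ← h1]
    have h4 : th α (k + 256 + 1) - n * th α (k + 256) = l ^ 128 * G := by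
      rw [h2, h3, ← mul_assoc, ← pow_add]
    have h5 : l ^ 128 * |G| ≤ 2 * |Θ| := by
      have e1 : l ^ 128 * |G| = |l ^ 128 * G| := by rw [abs_mul, abs_of_pos hlp]
      rw [e1, ← h4]
      have h6 : |th α (k + 256 + 1) - n * th α (k + 256)| ≤
          |th α (k + 256 + 1)| + |n * th α (k + 256)| := abs_sub _ _
      rw [abs_mul] at h6
      have h7 := tm (k + 128) 129
      have h8 := tm (k + 128) 128
      rw [show k + 128 + 129 = k + 256 + 1 by ring, ← hΘ] at h7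
      rw [show k + 128 + 128 = k + 256 by ring, ← hΘ] at h8
      have h9 : |n| * |th α (k + 256)| ≤ 1 * |Θ| :=
        mul_le_mul hnabs h8 (abs_nonneg _) (by norm_num)
      linarith
    rw [hη, ← div_eq_inv_mul, le_div_iff₀ hlp]
    linarith
  have hXY1 : X * |Θ| ≤ 1 := by
    have h1 := den_mul_th hα (k + 128)
    have h2 := dm (k + 128) (k + 128 + 1) (by omega)
    have h3 : X * |Θ| ≤ (den α (k + 128 + 1) : ℝ) * |th α (k + 128)| := by
      rw [hX, hΘ]
      exact mul_le_mul h2 le_rfl (abs_nonneg _) (dnn _)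
    linarith
  have hdet : |X' * Θ - X * Θ'| = 1 := by
    rw [hX', hX, hΘ, hΘ']
    exact det_abs α (k + 128)
  have hXYS : X * |Θ| * S ≤ 1 + 15 * η := by
    have e1 : S * (X * Θ) = (X' * Θ - X * Θ') - (E * Θ - X * G) := by
      rw [hE, hG, ← hlmn]; ring
    have e2 : |S * (X * Θ)| ≤ |X' * Θ - X * Θ'| + |E * Θ - X * G| := by
      rw [e1]; exact abs_sub _ _
    rw [hdet, abs_mul, abs_mul, abs_of_nonneg hS0, abs_of_nonneg hX0] at e2
    have e3 : |E * Θ - X * G| ≤ |E| * |Θ| + X * |G| := by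
      refine (abs_sub _ _).trans ?_
      rw [abs_mul, abs_mul, abs_of_nonneg hX0]
    have e4 : |E| * |Θ| ≤ η * (13 * X) * |Θ| := by gcongr
    have e5 : X * |G| ≤ X * (η * (2 * |Θ|)) := by gcongr
    have e6 : η * (13 * X) * |Θ| + X * (η * (2 * |Θ|)) = 15 * η * (X * |Θ|) := by ring
    have e7 : 15 * η * (X * |Θ|) ≤ 15 * η * 1 := by gcongr
    nlinarith
  -- the two factors
  obtain ⟨A, hA⟩ : ∃ A : ℝ, A = q + p * l := ⟨_, rfl⟩
  obtain ⟨A', hA'⟩ : ∃ A : ℝ, A = q + p * n := ⟨_, rfl⟩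
  obtain ⟨m, hmm⟩ : ∃ m : ℝ, m = ((|p ^ 2 - t * (p * q) - q ^ 2| : ℤ) : ℝ) := ⟨_, rfl⟩
  have hm1 : 1 ≤ m := by rw [hmm]; exact_mod_cast Int.one_le_abs hm
  have hAA : |A| * |A'| = m := by
    rw [← abs_mul, hmm, hA, hA']
    push_cast
    rw [← abs_neg]
    congr 1
    linear_combination (-(q : ℝ) * p) * hlpn - (p : ℝ) ^ 2 * hln
  have hqr : |(q : ℝ)| ≤ 16777216 := by exact_mod_cast hq
  have hpr : |(p : ℝ)| ≤ 16777216 := by exact_mod_cast hp
  have hAb : |A| ≤ 218103808 := by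
    rw [hA]
    refine (abs_add_le _ _).trans ?_
    rw [abs_mul, abs_of_nonneg (by linarith : (0 : ℝ) ≤ l)]
    have : |(p : ℝ)| * l ≤ 16777216 * 12 := by gcongr
    linarith
  have hA'b : |A'| ≤ 33554432 := by
    rw [hA']
    refine (abs_add_le _ _).trans ?_
    rw [abs_mul]
    have : |(p : ℝ)| * |n| ≤ 16777216 * 1 := by gcongr
    linarith
  have hQ : ((q * den α (k + 128) + p * den α (k + 129) : ℤ) : ℝ) = A * X + p * E := by
    rw [hA, hE, hX, hX']; push_cast; ring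
  have hδ : (q : ℝ) * th α (k + 128) + p * th α (k + 129) = A' * Θ + p * G := by
    rw [hA', hG, hΘ, hΘ']; ring
  rw [hQ, hδ, ← hS, ← hmm, ← hX]
  have hΘ0 : 0 ≤ |Θ| := abs_nonneg _
  obtain ⟨e, he⟩ : ∃ e : ℝ, e = 218103808 * η := ⟨_, rfl⟩
  have he0 : 0 < e := by rw [he]; positivity
  have he1 : e * (10 : ℝ) ^ 17 ≤ 1 := by rw [he]; nlinarith
  have hpE : |(p : ℝ) * E| ≤ e * X := by
    rw [abs_mul]
    calc |(p : ℝ)| * |E| ≤ 16777216 * (η * (13 * X)) := by gcongr
      _ = e * X := by rw [he]; ring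
  have hpG : |(p : ℝ) * G| ≤ e * |Θ| := by
    rw [abs_mul]
    calc |(p : ℝ)| * |G| ≤ 16777216 * (η * (2 * |Θ|)) := by gcongr
      _ ≤ e * |Θ| := by rw [he]; nlinarith [mul_nonneg hη0.le hΘ0]
  have h1 : |A * X + p * E| ≤ (|A| + e) * X := by
    refine (abs_add_le _ _).trans ?_
    rw [abs_mul, abs_of_nonneg hX0]
    linarith
  have h2 : |A' * Θ + p * G| ≤ (|A'| + e) * |Θ| := by
    refine (abs_add_le _ _).trans ?_
    rw [abs_mul]
    linarith
  have hA0 := abs_nonneg A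
  have hA'0 := abs_nonneg A'
  refine ⟨?_, ?_⟩
  · have h3 : |A * X + p * E| * |A' * Θ + p * G| * S ≤ ((|A| + e) * (|A'| + e)) * (1 + 15 * η) := by
      calc |A * X + p * E| * |A' * Θ + p * G| * S
          ≤ ((|A| + e) * X) * ((|A'| + e) * |Θ|) * S := by gcongr
        _ = ((|A| + e) * (|A'| + e)) * (X * |Θ| * S) := by ring
        _ ≤ _ := by gcongr
    refine h3.trans ?_
    have h4 : (|A| + e) * (|A'| + e) ≤ m + 1 / 10 ^ 8 := by
      have : (|A| + e) * (|A'| + e) = m + e * (|A| + |A'| + e) := by rw [← hAA]; ring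
      rw [this]
      have h5 : |A| + |A'| + e ≤ 300000000 := by nlinarith
      have h6 : e * (|A| + |A'| + e) ≤ e * 300000000 := by gcongr
      nlinarith
    have hmb : m ≤ 10 ^ 16 := by
      rw [← hAA]
      calc |A| * |A'| ≤ 218103808 * 33554432 := by gcongr
        _ ≤ 10 ^ 16 := by norm_num
    have h7 : ((|A| + e) * (|A'| + e)) * (1 + 15 * η) ≤ (m + 1 / 10 ^ 8) * (1 + 15 * η) := by
      gcongr
    refine h7.trans ?_
    have h8 : m * (15 * η) ≤ 10 ^ 16 * (15 * η) := by gcongr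
    nlinarith
  · have h3 : |A * X| ≤ |A * X + p * E| + |(p : ℝ) * E| := by
      have := abs_sub (A * X + p * E) (p * E)
      simpa using this
    rw [abs_mul, abs_of_nonneg hX0] at h3
    have h4 : 1 ≤ 33554432 * |A| := by
      calc (1 : ℝ) ≤ |A| * |A'| := by rw [hAA]; exact hm1
        _ ≤ |A| * 33554432 := by gcongr
        _ = _ := by ring
    have h5 : X ≤ 33554432 * (|A| * X) := by nlinarith
    have h6 : 33554432 * (e * X) ≤ X / 2 := by nlinarith
    nlinarith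

/-- `q ‖q α‖ ‖q β‖ < κ` for infinitely many `q` -/
def Small (κ α β : ℝ) : Prop :=
  ∀ N : ℕ, ∃ q : ℕ, N ≤ q ∧ 0 < q ∧
    (q : ℝ) * |(q : ℝ) * α - (round ((q : ℝ) * α) : ℝ)|
      * |(q : ℝ) * β - (round ((q : ℝ) * β) : ℝ)| < κ

/-- a covering of the torus gives small products for all numbers with infinitely many blocks -/
theorem small_of_cov {α : ℝ} (hα : Irrational α) {t : ℕ} (ht1 : 1 ≤ t) (ht : t ≤ 11)
    (hb : ∃ᶠ k : ℕ in atTop, ∀ i < 256, pq α (k + i) = t) {c κ : ℝ} (hc1 : c ≤ 1)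
    (hc : c + 1 / 1000000 < κ * √((t : ℝ) ^ 2 + 4))
    (hcov : ∀ x y : ℝ, ∃ q p z : ℤ, |q| ≤ 16777216 ∧ |p| ≤ 16777216 ∧
      p ^ 2 - t * (p * q) - q ^ 2 ≠ 0 ∧
      ((|p ^ 2 - t * (p * q) - q ^ 2| : ℤ) : ℝ) * |(q : ℝ) * x + p * y - z| < c) (β : ℝ) :
    Small κ α β := by
  intro N
  obtain ⟨k', hk', hblk⟩ := frequently_atTop.1 hb (100000000 * (N + 1) + 1)
  obtain ⟨k, rfl⟩ : ∃ k, k' = k + 1 := ⟨k' - 1, by omega⟩
  obtain ⟨q, p, z, hq, hp, hm, h⟩ := hcov (den α (k + 128) * β) (den α (k + 129) * β)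
  obtain ⟨h1, h2⟩ := block hα ht1 ht hblk hq hp hm
  set Q : ℤ := q * den α (k + 128) + p * den α (k + 129) with hQ
  set P : ℤ := q * num α (k + 128) + p * num α (k + 129) with hP
  obtain ⟨m, hmm⟩ : ∃ m : ℝ, m = ((|p ^ 2 - t * (p * q) - q ^ 2| : ℤ) : ℝ) := ⟨_, rfl⟩
  rw [← hmm] at h h1
  have hm1 : 1 ≤ m := by rw [hmm]; exact_mod_cast Int.one_le_abs hm
  have hδ : (q : ℝ) * th α (k + 128) + p * th α (k + 129) = Q * α - P := by
    rw [hQ, hP]
    simp only [th]
    push_cast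
    ring
  rw [hδ] at h1
  have hzb : (q : ℝ) * (den α (k + 128) * β) + p * (den α (k + 129) * β) - z = Q * β - z := by
    rw [hQ]; push_cast; ring
  rw [hzb] at h
  have hcast : ((Q.natAbs : ℕ) : ℝ) = |(Q : ℝ)| := by
    rw [Nat.cast_natAbs]; push_cast; rfl
  have hden : (100000000 * (N + 1) : ℝ) ≤ den α (k + 128) := by
    have h3 := le_den hα (k + 127)
    have h4 : (100000000 * (N + 1) : ℤ) ≤ den α (k + 128) := by
      refine le_trans ?_ h3
      push_cast
      have : (100000000 * ((N : ℤ) + 1) + 1) ≤ (k : ℤ) + 1 := by exact_mod_cast hk'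
      linarith
    exact_mod_cast h4
  have hQN : (N : ℝ) + 1 ≤ |(Q : ℝ)| := by linarith
  refine ⟨Q.natAbs, ?_, ?_, ?_⟩
  · have : (N : ℝ) ≤ (Q.natAbs : ℝ) := by rw [hcast]; linarith
    exact_mod_cast this
  · have : (0 : ℝ) < (Q.natAbs : ℝ) := by
      rw [hcast]
      have : (0 : ℝ) ≤ N := Nat.cast_nonneg N
      linarith
    exact_mod_cast this
  · have hd : ∀ (γ : ℝ) (w : ℤ), |((Q.natAbs : ℕ) : ℝ) * γ - round (((Q.natAbs : ℕ) : ℝ) * γ)|
        ≤ |(Q : ℝ) * γ - w| := by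
      intro γ w
      rw [hcast]
      rcases abs_choice (Q : ℝ) with h1 | h1
      · rw [h1]; exact round_le _ w
      · rw [h1]
        refine (round_le _ (-w)).trans (le_of_eq ?_)
        rw [← abs_neg]
        congr 1
        push_cast
        ring
    have hd1 := hd α P
    have hd2 := hd β z
    obtain ⟨δ, hδd⟩ : ∃ δ, δ = |(Q : ℝ) * β - z| := ⟨_, rfl⟩
    obtain ⟨ρ, hρ⟩ : ∃ ρ, ρ = |(Q : ℝ) * α - P| := ⟨_, rfl⟩
    rw [← hδd] at h hd2
    rw [← hρ] at h1 hd1
    have hδ0 : 0 ≤ δ := by rw [hδd]; exact abs_nonneg _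
    have hρ0 : 0 ≤ ρ := by rw [hρ]; exact abs_nonneg _
    have hδ1 : δ ≤ 1 := by
      have : δ ≤ m * δ := le_mul_of_one_le_left hδ0 hm1
      linarith
    have h12 : |(Q : ℝ)| * ρ * δ < κ := by
      by_contra hcon
      push Not at hcon
      have h3 : κ * √((t : ℝ) ^ 2 + 4) ≤ |(Q : ℝ)| * ρ * δ * √((t : ℝ) ^ 2 + 4) :=
        mul_le_mul_of_nonneg_right hcon (Real.sqrt_nonneg _)
      have h4 : |(Q : ℝ)| * ρ * δ * √((t : ℝ) ^ 2 + 4) =
          |(Q : ℝ)| * ρ * √((t : ℝ) ^ 2 + 4) * δ := by ring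
      have h5 : |(Q : ℝ)| * ρ * √((t : ℝ) ^ 2 + 4) * δ ≤ (m + 1 / 1000000) * δ :=
        mul_le_mul_of_nonneg_right h1 hδ0
      have h6 : (m + 1 / 1000000) * δ = m * δ + 1 / 1000000 * δ := by ring
      rw [h6] at h5
      rw [h4] at h3
      linarith only [h3, h5, h, hδ1, hc]
    clear_value Q P
    obtain ⟨R, hR⟩ : ∃ R : ℝ, R = ((Q.natAbs : ℕ) : ℝ) := ⟨_, rfl⟩
    rw [← hR] at hd1 hd2 hcast ⊢
    rw [← hcast] at h12
    have hR0 : 0 ≤ R := by rw [hcast]; exact abs_nonneg _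
    have h13 : R * |R * α - (round (R * α) : ℝ)| ≤ R * ρ := mul_le_mul_of_nonneg_left hd1 hR0
    have h14 : R * |R * α - (round (R * α) : ℝ)| * |R * β - (round (R * β) : ℝ)| ≤ R * ρ * δ :=
      mul_le_mul h13 hd2 (abs_nonneg _) (mul_nonneg hR0 hρ0)
    exact lt_of_le_of_lt h14 h12

/-- large partial quotients -/
theorem small_of_large {α : ℝ} (hα : Irrational α) {a : ℕ} (ha : 1 ≤ a)
    (hb : ∃ᶠ k : ℕ in atTop, (a : ℤ) ≤ pq α k) (β : ℝ) : Small (1 / (2 * a)) α β := by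
  intro N
  obtain ⟨k', hk', hblk⟩ := frequently_atTop.1 hb (N + 3)
  obtain ⟨k, rfl⟩ : ∃ k, k' = k + 1 := ⟨k' - 1, by omega⟩
  have h1 := le_den hα k
  have h0 := le_den hα (k - 1)
  have hkk : k - 1 + 1 = k := by omega
  rw [hkk] at h0
  have hk1 : 1 ≤ den α k := by omega
  have hN : (N : ℤ) + 1 ≤ den α (k + 1) := by omega
  have hnn : 0 ≤ den α (k + 1) := by omega
  have hcast : (((den α (k + 1)).toNat : ℕ) : ℝ) = den α (k + 1) := by
    have := Int.toNat_of_nonneg hnn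
    exact_mod_cast this
  refine ⟨(den α (k + 1)).toNat, by omega, by omega, ?_⟩
  rw [hcast]
  have har : (1 : ℝ) ≤ a := by exact_mod_cast ha
  have h2 : (den α (k + 2) : ℝ) * |th α (k + 1)| ≤ 1 := den_mul_th hα (k + 1)
  have h3 : (a : ℝ) * den α (k + 1) + 1 ≤ den α (k + 2) := by
    have h4 : den α (k + 2) = pq α (k + 1) * den α (k + 1) + den α k := rfl
    have h5 : (a : ℤ) * den α (k + 1) + 1 ≤ den α (k + 2) := by
      rw [h4]
      nlinarith
    exact_mod_cast h5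
  have h4 : |(den α (k + 1) : ℝ) * α - round ((den α (k + 1) : ℝ) * α)| ≤ |th α (k + 1)| :=
    round_le _ _
  have h5 := abs_sub_round ((den α (k + 1) : ℝ) * β)
  have hth : 0 < |th α (k + 1)| := by
    apply abs_pos.2
    intro h
    have hdp : den α (k + 1) ≠ 0 := by omega
    apply hα.ne_rat ((num α (k + 1) : ℚ) / den α (k + 1))
    have hdr : (den α (k + 1) : ℝ) ≠ 0 := by exact_mod_cast hdp
    push_cast
    rw [eq_div_iff hdr]
    simp only [th] at h
    linarith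
  have hdn : (0 : ℝ) ≤ den α (k + 1) := by exact_mod_cast hnn
  have h6 : (a : ℝ) * (den α (k + 1) * |th α (k + 1)|) < 1 := by nlinarith
  have h7 : (den α (k + 1) : ℝ) * |(den α (k + 1) : ℝ) * α - round ((den α (k + 1) : ℝ) * α)| *
      |(den α (k + 1) : ℝ) * β - round ((den α (k + 1) : ℝ) * β)| ≤
      (den α (k + 1) * |th α (k + 1)|) * (1 / 2) := by gcongr
  refine lt_of_le_of_lt h7 ?_
  rw [lt_div_iff₀ (by positivity)]
  linarith

end Pool.Agent.Q29.LitBlk
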