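import Mathlib
import Pool.Agent.W765.Hb9
import Pool.Agent.Q29.LitBlk

/-!
Numbers `α` with arbitrarily long runs of good denominators satisfying one recurrence
`v (i + 2) = t v (i + 1) - v i`: the torus automorphism acts on the limit points of
`(v (i + 1) β, v i β)` in the middle of the runs.
-/

set_option autoImplicit false

open MeasureTheory Filter Topology Set TopologicalSpace

namespace Pool.Agent.Q29.LitPer

open Pool.Agent.H705R2 Pool.Agent.W765.Hb

/-- a run of good denominators around the index `n` -/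
def Run (t : ℤ) (α : ℝ) (n : ℕ) (v : ℕ → ℤ) : Prop :=
  (∀ i < 2 * n, v (i + 2) = t * v (i + 1) - v i) ∧
    ∀ i ≤ 2 * n + 1, (n : ℤ) ≤ v i ∧ (v i : ℝ) * |(v i : ℝ) * α - round ((v i : ℝ) * α)| ≤ 1

/-- arbitrarily long runs -/
def Runs (t : ℤ) (α : ℝ) : Prop := ∀ n : ℕ, ∃ v : ℕ → ℤ, Run t α n v

lemma Run.shift {t : ℤ} {α : ℝ} {n m : ℕ} {v : ℕ → ℤ} (h : Run t α n v) (hm : m ≤ n) (s : ℕ)
    (hs : s + 2 * m ≤ 2 * n) : Run t α m (fun i => v (i + s)) := by
  refine ⟨fun i hi => ?_, fun i hi => ?_⟩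
  · have := h.1 (i + s) (by omega)
    change v (i + 2 + s) = t * v (i + 1 + s) - v (i + s)
    rw [show i + 2 + s = i + s + 2 by ring, show i + 1 + s = i + s + 1 by ring]
    exact this
  · obtain ⟨h1, h2⟩ := h.2 (i + s) (by omega)
    refine ⟨?_, h2⟩
    change (m : ℤ) ≤ v (i + s)
    omega

/-- the point of the torus -/
def pt (v : ℕ → ℤ) (n : ℕ) (x : Circ) : T2 := ![v (n + 1) • x, v n • x]

/-- limit points -/
def KB (t : ℤ) (α : ℝ) (x : Circ) : Set T2 :=
  {y | ∀ η > 0, ∀ n : ℕ, ∃ v : ℕ → ℤ, Run t α n v ∧ dist (pt v n x) y < η}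

lemma KB_closed (t : ℤ) (α : ℝ) (x : Circ) : IsClosed (KB t α x) := by
  apply isClosed_of_closure_subset
  intro y hy η hη n
  obtain ⟨y', hy', hd⟩ := Metric.mem_closure_iff.1 hy (η / 2) (by positivity)
  obtain ⟨v, hv, hvd⟩ := hy' (η / 2) (by positivity) n
  refine ⟨v, hv, ?_⟩
  calc dist (pt v n x) y ≤ dist (pt v n x) y' + dist y' y := dist_triangle _ _ _
    _ < η / 2 + η / 2 := add_lt_add hvd (by rw [dist_comm]; exact hd)
    _ = η := by ring

lemma KB_nonempty {t : ℤ} {α : ℝ} (h : Runs t α) (x : Circ) : (KB t α x).Nonempty := by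
  choose v hv using h
  obtain ⟨y, φ, hφ, hlim⟩ := CompactSpace.tendsto_subseq (fun n => pt (v n) n x)
  refine ⟨y, fun η hη n => ?_⟩
  obtain ⟨M, hM⟩ := eventually_atTop.1 ((Metric.tendsto_nhds.1 hlim) η hη)
  have h1 := hM (max M n) (le_max_left _ _)
  have h2 : n ≤ φ (max M n) := (le_max_right _ _).trans (hφ.id_le _)
  refine ⟨fun i => v (φ (max M n)) (i + (φ (max M n) - n)),
    (hv (φ (max M n))).shift h2 _ (by omega), ?_⟩
  have e : pt (fun i => v (φ (max M n)) (i + (φ (max M n) - n))) n x =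
      pt (v (φ (max M n))) (φ (max M n)) x := by
    change ![v (φ (max M n)) (n + 1 + (φ (max M n) - n)) • x,
      v (φ (max M n)) (n + (φ (max M n) - n)) • x] = _
    rw [show n + 1 + (φ (max M n) - n) = φ (max M n) + 1 by omega,
      show n + (φ (max M n) - n) = φ (max M n) by omega]
    rfl
  rw [e]
  exact h1

lemma KB_inv {t : ℤ} {α : ℝ} {x : Circ} {y : T2} (hy : y ∈ KB t α x) : aut t y ∈ KB t α x := by
  intro η hη n
  obtain ⟨η', hη', hc⟩ := Metric.continuous_iff.1 (continuous_aut t) y η hη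
  obtain ⟨v, hv, hd⟩ := hy η' hη' (n + 1)
  refine ⟨fun i => v (i + 2), hv.shift (by omega) 2 (by omega), ?_⟩
  have e : pt (fun i => v (i + 2)) n x = aut t (pt v (n + 1) x) := by
    unfold pt
    rw [aut_apply]
    have h1 := hv.1 (n + 1) (by omega)
    ext i
    fin_cases i
    · simp only [Fin.zero_eta, Matrix.cons_val_zero, Matrix.cons_val_one]
      rw [show n + 1 + 2 = n + 1 + 2 from rfl, h1, sub_smul, mul_smul]
    · simp only [Fin.mk_one, Matrix.cons_val_zero, Matrix.cons_val_one]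
  rw [e]
  exact hc _ hd

lemma KB_inv_symm {t : ℤ} {α : ℝ} {x : Circ} {y : T2} (hy : y ∈ KB t α x) :
    (aut t).symm y ∈ KB t α x := by
  intro η hη n
  obtain ⟨η', hη', hc⟩ := Metric.continuous_iff.1 (continuous_aut_symm t) y η hη
  obtain ⟨v, hv, hd⟩ := hy η' hη' (n + 1)
  refine ⟨v, hv.shift (s := 0) (by omega) (by omega), ?_⟩
  have e : pt v n x = (aut t).symm (pt v (n + 1) x) := by
    unfold pt
    rw [aut_symm_apply]
    have h1 := hv.1 n (by omega)
    have h2 : v n = t * v (n + 1) - v (n + 2) := by linarith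
    ext i
    fin_cases i
    · simp only [Fin.zero_eta, Matrix.cons_val_zero, Matrix.cons_val_one]
    · simp only [Fin.mk_one, Matrix.cons_val_zero, Matrix.cons_val_one]
      rw [h2, sub_smul, mul_smul]
  rw [e]
  exact hc _ hd

/-- `q ‖q α‖ ‖q x‖ < ε` for infinitely many `q` -/
def LC (α ε : ℝ) (x : Circ) : Prop :=
  ∃ᶠ q : ℕ in atTop, (q : ℝ) * |(q : ℝ) * α - round ((q : ℝ) * α)| * ‖q • x‖ < ε

/-- multiples of one good denominator -/
lemma lc_aux {α ε : ℝ} {x : Circ} {d c w : ℕ}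
    (hv2 : (w : ℝ) * |(w : ℝ) * α - round ((w : ℝ) * α)| ≤ 1)
    (h1 : (d : ℝ) ^ 2 * ‖(d * c) • ((w : ℤ) • x)‖ < ε) :
    ((d * w : ℕ) : ℝ) * |((d * w : ℕ) : ℝ) * α - round (((d * w : ℕ) : ℝ) * α)| *
      ‖(d * w) • (c • x)‖ < ε := by
  have e1 : (d * w) • (c • x) = (d * c) • ((w : ℤ) • x) := by
    rw [natCast_zsmul, smul_smul, smul_smul]
    congr 1
    ring
  rw [e1]
  have h2 : |((d * w : ℕ) : ℝ) * α - round (((d * w : ℕ) : ℝ) * α)| ≤
      d * |(w : ℝ) * α - round ((w : ℝ) * α)| := by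
    refine (round_le _ ((d : ℤ) * round ((w : ℝ) * α))).trans (le_of_eq ?_)
    push_cast
    rw [mul_assoc, ← mul_sub, abs_mul, Nat.abs_cast]
  have h3 : ((d * w : ℕ) : ℝ) * |((d * w : ℕ) : ℝ) * α - round (((d * w : ℕ) : ℝ) * α)| ≤
      (d : ℝ) ^ 2 := by
    calc ((d * w : ℕ) : ℝ) * |((d * w : ℕ) : ℝ) * α - round (((d * w : ℕ) : ℝ) * α)|
        ≤ ((d * w : ℕ) : ℝ) * (d * |(w : ℝ) * α - round ((w : ℝ) * α)|) :=
          mul_le_mul_of_nonneg_left h2 (Nat.cast_nonneg _)
      _ = (d : ℝ) ^ 2 * ((w : ℝ) * |(w : ℝ) * α - round ((w : ℝ) * α)|) := by push_cast; ring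
      _ ≤ (d : ℝ) ^ 2 * 1 := mul_le_mul_of_nonneg_left hv2 (sq_nonneg _)
      _ = _ := mul_one _
  exact lt_of_le_of_lt (mul_le_mul_of_nonneg_right h3 (norm_nonneg _)) h1

/-- a condition on points near `y` gives `LC` -/
lemma lc_of {t : ℤ} {α ε : ℝ} {x : Circ} {y : T2} (hy : y ∈ KB t α x) {d c : ℕ} (hd : 0 < d)
    (h : (d : ℝ) ^ 2 * ‖(d * c) • y 0‖ < ε) : LC α ε (c • x) := by
  obtain ⟨F, hF⟩ : ∃ F : T2 → ℝ, F = fun z => (d : ℝ) ^ 2 * ‖(d * c) • z 0‖ := ⟨_, rfl⟩
  have hcont : Continuous F := by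
    rw [hF]
    exact continuous_const.mul (((continuous_nsmul (d * c)).comp (continuous_apply (0 : Fin 2))).norm)
  have hFy : F y < ε := by rw [hF]; exact h
  have hev : ∀ᶠ z in 𝓝 y, F z < ε := hcont.continuousAt.eventually_lt_const hFy
  obtain ⟨η, hη, hball⟩ := Metric.eventually_nhds_iff.1 hev
  unfold LC
  rw [frequently_atTop]
  intro N
  obtain ⟨v, hv, hvd⟩ := hy η hη (N + 1)
  have h1 := hball hvd
  have hval : (pt v (N + 1) x) 0 = v (N + 1 + 1) • x := rfl
  rw [hF] at h1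
  simp only [hval] at h1
  obtain ⟨hvN, hv1⟩ := hv.2 (N + 1 + 1) (by omega)
  obtain ⟨w, hw⟩ : ∃ w : ℕ, v (N + 1 + 1) = w := ⟨(v (N + 1 + 1)).toNat, by omega⟩
  rw [hw] at h1 hv1 hvN
  have hwN : N + 1 ≤ w := by omega
  refine ⟨d * w, le_trans (by omega) (Nat.le_mul_of_pos_left w hd), ?_⟩
  exact lc_aux (by exact_mod_cast hv1) h1

open Classical in
/-- the uniform statement -/
theorem uniform_runs {t : ℤ} {lam : ℝ} (E : Eig t lam) {b : ℕ} (hb : 2 ≤ b) {ε δ : ℝ}
    (hε : 0 < ε) (hδ : 0 < δ) :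
    ∃ M : ℕ, ∀ α : ℝ, Runs t α → ∀ x : Circ, ∀ s n : ℕ, M ≤ n →
      (((Finset.range n).filter (fun i => ¬ LC α ε (b ^ (s + i) • x))).card : ℝ) ≤ δ * n := by
  have hUo : IsOpen {z : T2 | ‖z 0‖ < ε} :=
    isOpen_lt ((continuous_apply (0 : Fin 2)).norm) continuous_const
  have hUne : {z : T2 | ‖z 0‖ < ε}.Nonempty := ⟨0, by simpa using hε⟩
  obtain ⟨M, hM⟩ := uniform_infinite torT2 (hyperb E) hb (theta E hb) hUo hUne hδ
  refine ⟨M, fun α hα x s n hn => ?_⟩
  by_cases hfin : (KB t α x).Finite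
  · obtain ⟨y, hy⟩ := KB_nonempty hα x
    have htor : IsOfFinAddOrder y := by
      by_contra hcon
      exact infinite_of_inv (hyperb E) (fun z hz => KB_inv hz) hy hcon hfin
    have hd := htor.addOrderOf_pos
    have hdy : addOrderOf y • y = 0 := addOrderOf_nsmul_eq_zero y
    have hempty : (Finset.range n).filter (fun i => ¬ LC α ε (b ^ (s + i) • x)) = ∅ := by
      rw [Finset.filter_eq_empty_iff]
      intro i _ hcon
      apply hcon
      refine lc_of hy hd ?_
      have h0 : addOrderOf y • y 0 = 0 := congrFun hdy 0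
      have h00 : (addOrderOf y * b ^ (s + i)) • y 0 = 0 := by
        rw [mul_comm, mul_smul, h0, smul_zero]
      rw [h00, norm_zero, mul_zero]
      exact hε
    rw [hempty]
    simp only [Finset.card_empty, Nat.cast_zero]
    positivity
  · refine le_trans ?_ (hM (KB t α x) (KB_closed t α x) (fun z hz => KB_inv hz)
      (fun z hz => KB_inv_symm hz) hfin s n hn)
    have hsub : (Finset.range n).filter (fun i => ¬ LC α ε (b ^ (s + i) • x)) ⊆
        (Finset.range n).filter (fun i => ∀ y ∈ KB t α x, b ^ (s + i) • y ∉ {z : T2 | ‖z 0‖ < ε}) := by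
      intro i hi
      rw [Finset.mem_filter] at hi ⊢
      refine ⟨hi.1, fun y hy hyU => hi.2 ?_⟩
      refine lc_of hy one_pos ?_
      rw [one_mul, Nat.cast_one, one_pow, one_mul]
      exact hyU
    exact_mod_cast Finset.card_le_card hsub

/-- the almost sure statement -/
theorem ae_runs {t : ℤ} {lam : ℝ} (E : Eig t lam) {b : ℕ} (hb : 2 ≤ b) {α : ℝ} (hα : Runs t α)
    {μ : Measure Circ} [IsProbabilityMeasure μ] (hμ : MeasurePreserving (fun x : Circ => b • x) μ μ) :
    ∀ᵐ x ∂μ, ∀ ε : ℝ, 0 < ε → LC α ε x := by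
  classical
  have hiter : ∀ (j : ℕ) (y : Circ), (fun x : Circ => b • x)^[j] y = b ^ j • y := by
    intro j y
    induction j with
    | zero => simp
    | succ j ih => rw [Function.iterate_succ_apply', ih, pow_succ', mul_smul]
  have hone : ∀ n : ℕ, ∀ᵐ x ∂μ, LC α (1 / ((n : ℝ) + 1)) x := by
    intro n
    have hε : (0 : ℝ) < 1 / ((n : ℝ) + 1) := by positivity
    have hmeas : MeasurableSet {x : Circ | LC α (1 / ((n : ℝ) + 1)) x} := by
      have : {x : Circ | LC α (1 / ((n : ℝ) + 1)) x} = ⋂ N : ℕ, ⋃ q : ℕ,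
          {x | N ≤ q ∧ (q : ℝ) * |(q : ℝ) * α - round ((q : ℝ) * α)| * ‖q • x‖ <
            1 / ((n : ℝ) + 1)} := by
        ext x
        simp only [LC, mem_ofPred_eq, mem_iInter, mem_iUnion, frequently_atTop]
      rw [this]
      refine MeasurableSet.iInter fun N => MeasurableSet.iUnion fun q => ?_
      by_cases hq : N ≤ q
      · simp only [hq, true_and]
        exact (isOpen_lt (continuous_const.mul (continuous_nsmul q).norm)
          continuous_const).measurableSet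
      · simp [hq]
    have hnull : μ {x : Circ | LC α (1 / ((n : ℝ) + 1)) x}ᶜ = 0 := by
      refine recur hμ hmeas.compl ?_
      rintro y -
      obtain ⟨Z, hZ⟩ : ∃ Z : Set ℕ, Z = {m : ℕ | (fun x : Circ => b • x)^[m] y ∈
        {x : Circ | LC α (1 / ((n : ℝ) + 1)) x}ᶜ} := ⟨_, rfl⟩
      have hZm : ∀ m, m ∈ Z ↔ ¬ LC α (1 / ((n : ℝ) + 1)) (b ^ m • y) := by
        intro m
        rw [hZ, mem_ofPred_eq, mem_compl_iff, mem_ofPred_eq, hiter]
      rw [← hZ]
      unfold DensityZero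
      rw [Metric.tendsto_atTop]
      intro δ hδ
      obtain ⟨M, hM⟩ := uniform_runs E hb hε (show 0 < δ / 2 by positivity)
      refine ⟨max M 1, fun m hm => ?_⟩
      have hmM : M ≤ m := (le_max_left _ _).trans hm
      have hm1 : 1 ≤ m := (le_max_right _ _).trans hm
      rw [Real.dist_eq, sub_zero, abs_of_nonneg (by positivity), natCard_eq]
      have hmR : (0 : ℝ) < m := by exact_mod_cast hm1
      rw [div_lt_iff₀ hmR]
      have h1 := hM α hα y 0 m hmM
      have h2 : (((Finset.range m).filter (· ∈ Z)).card : ℝ) ≤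
          (((Finset.range m).filter (fun i => ¬ LC α (1 / ((n : ℝ) + 1)) (b ^ (0 + i) • y))).card :
            ℝ) := by
        have hsub : (Finset.range m).filter (· ∈ Z) ⊆ (Finset.range m).filter
            (fun i => ¬ LC α (1 / ((n : ℝ) + 1)) (b ^ (0 + i) • y)) := by
          intro j hj
          rw [Finset.mem_filter] at hj ⊢
          refine ⟨hj.1, ?_⟩
          rw [zero_add]
          exact (hZm j).1 hj.2
        exact_mod_cast Finset.card_le_card hsub
      nlinarith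
    exact measure_eq_zero_iff_ae_notMem.1 hnull |>.mono fun x hx => by
      by_contra hcon
      exact hx hcon
  filter_upwards [ae_all_iff.2 hone] with x hx ε hε
  obtain ⟨n, hn⟩ := exists_nat_one_div_lt hε
  exact (hx n).mono fun q hq => hq.trans hn

end Pool.Agent.Q29.LitPer
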