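import Mathlib
import Pool.Agent.Q29.LitPer

/-!
Repetitions of a word in the continued fraction give runs of denominators with one recurrence.
-/

set_option autoImplicit false

open Filter

namespace Pool.Agent.Q29.LitWord

open Pool.Agent.H380R2.LC Pool.Agent.Q29.LitBlk Pool.Agent.Q29.LitPer Pool.Agent.W765.Hb

/-- the entries `(p, q, r, s)` of the matrix of a word -/
def mat : List ℤ → ℤ × ℤ × ℤ × ℤ
  | [] => (1, 0, 0, 1)
  | a :: w => ((mat w).1 * a + (mat w).2.1, (mat w).1, (mat w).2.2.1 * a + (mat w).2.2.2, (mat w).2.2.1)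

/-- the determinant -/
def det (w : List ℤ) : ℤ := (mat w).1 * (mat w).2.2.2 - (mat w).2.1 * (mat w).2.2.1

lemma det_cons (a : ℤ) (w : List ℤ) : det (a :: w) = - det w := by
  simp only [det, mat]
  ring

lemma det_sq (w : List ℤ) : det w * det w = 1 := by
  induction w with
  | nil => simp [det, mat]
  | cons a w ih => rw [det_cons]; linarith

/-- the trace of the square -/
def tr (w : List ℤ) : ℤ := ((mat w).1 + (mat w).2.2.2) ^ 2 - 2 * det w

lemma mat_apply : ∀ (w : List ℤ) (D : ℕ → ℤ) (j : ℕ),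
    (∀ i < w.length, D (j + i + 2) = w.getD i 0 * D (j + i + 1) + D (j + i)) →
    D (j + w.length + 1) = (mat w).1 * D (j + 1) + (mat w).2.1 * D j ∧
      D (j + w.length) = (mat w).2.2.1 * D (j + 1) + (mat w).2.2.2 * D j := by
  intro w
  induction w with
  | nil =>
    intro D j _
    simp [mat]
  | cons a w ih =>
    intro D j h
    have h0 := h 0 (by simp)
    simp only [add_zero, List.getD_cons_zero] at h0
    have h1 := ih D (j + 1) (by
      intro i hi
      have := h (i + 1) (by simpa using hi)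
      simp only [List.getD_cons_succ] at this
      rw [show j + 1 + i + 2 = j + (i + 1) + 2 by ring, show j + 1 + i + 1 = j + (i + 1) + 1 by ring,
        show j + 1 + i = j + (i + 1) by ring]
      exact this)
    obtain ⟨h2, h3⟩ := h1
    rw [List.length_cons, show j + (w.length + 1) + 1 = j + 1 + w.length + 1 by ring,
      show j + (w.length + 1) = j + 1 + w.length by ring, h2, h3,
      show j + 1 + 1 = j + 2 by ring, h0]
    simp only [mat]
    constructor <;> ring

/-- two copies -/
lemma mat_two {w : List ℤ} {D : ℕ → ℤ} {j : ℕ}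
    (h : ∀ i < 2 * w.length, D (j + i + 2) = w.getD (i % w.length) 0 * D (j + i + 1) + D (j + i)) :
    D (j + 2 * w.length + 1) = ((mat w).1 ^ 2 + (mat w).2.1 * (mat w).2.2.1) * D (j + 1) +
        (mat w).2.1 * ((mat w).1 + (mat w).2.2.2) * D j ∧
      D (j + 2 * w.length) = (mat w).2.2.1 * ((mat w).1 + (mat w).2.2.2) * D (j + 1) +
        ((mat w).2.2.2 ^ 2 + (mat w).2.1 * (mat w).2.2.1) * D j := by
  obtain ⟨h1, h2⟩ := mat_apply w D j (fun i hi => by
    have := h i (by omega)
    rwa [Nat.mod_eq_of_lt hi] at this)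
  obtain ⟨h3, h4⟩ := mat_apply w D (j + w.length) (fun i hi => by
    have := h (w.length + i) (by omega)
    rw [Nat.add_mod_left, Nat.mod_eq_of_lt hi] at this
    rw [add_assoc j w.length i]
    exact this)
  rw [show j + 2 * w.length + 1 = j + w.length + w.length + 1 by ring,
    show j + 2 * w.length = j + w.length + w.length by ring, h3, h4, h1, h2]
  constructor <;> ring

/-- the recurrence -/
lemma rec_of {w : List ℤ} {D : ℕ → ℤ} {j : ℕ}
    (h : ∀ i < 4 * w.length, D (j + i + 2) = w.getD (i % w.length) 0 * D (j + i + 1) + D (j + i)) :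
    D (j + 2 * w.length + 2 * w.length) = tr w * D (j + 2 * w.length) - D j := by
  obtain ⟨h1, h2⟩ := mat_two (w := w) (D := D) (j := j) (fun i hi => h i (by omega))
  obtain ⟨h3, h4⟩ := mat_two (w := w) (D := D) (j := j + 2 * w.length) (fun i hi => by
    have := h (2 * w.length + i) (by omega)
    rw [show 2 * w.length + i = i + w.length * 2 by ring, Nat.add_mul_mod_self_left] at this
    rw [show j + 2 * w.length + i = j + (i + w.length * 2) by ring]
    exact this)
  have hd := det_sq w
  rw [h4, h1, h2]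
  simp only [tr, det] at hd ⊢
  linear_combination (-(D j)) * hd

lemma den_two {α : ℝ} (hα : Irrational α) (j : ℕ) : 2 * den α j ≤ den α (j + 2) := by
  have h1 : den α (j + 2) = pq α (j + 1) * den α (j + 1) + den α j := rfl
  have h2 := pq_pos hα j
  have h3 := den_le_succ hα j
  have h4 := den_nonneg hα (j + 1)
  nlinarith

lemma den_pow {α : ℝ} (hα : Irrational α) (j : ℕ) {l : ℕ} (hl : 0 < l) :
    2 * den α j ≤ den α (j + 2 * l) :=
  (den_two hα j).trans (den_mono hα (by omega))

/-- the continued fraction of `α` has arbitrarily long blocks `w w … w` -/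
def Powers (w : List ℤ) (α : ℝ) : Prop :=
  ∀ n N : ℕ, ∃ k ≥ N, ∀ i < n * w.length, pq α (k + i) = w.getD (i % w.length) 0

lemma den_rec {w : List ℤ} {α : ℝ} {n k : ℕ}
    (h : ∀ i < n * w.length, pq α (k + 1 + i) = w.getD (i % w.length) 0) {m : ℕ}
    (hm : 2 * m + 4 ≤ n) :
    den α (k + 2 * w.length * (m + 2)) = tr w * den α (k + 2 * w.length * (m + 1)) -
      den α (k + 2 * w.length * m) := by
  have h1 := rec_of (w := w) (D := den α) (j := k + 2 * w.length * m) (by
    intro i hi
    have h2 := h (w.length * (2 * m) + i) (by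
      calc w.length * (2 * m) + i < w.length * (2 * m) + 4 * w.length := by omega
        _ = (2 * m + 4) * w.length := by ring
        _ ≤ n * w.length := Nat.mul_le_mul_right _ hm)
    rw [Nat.mul_add_mod] at h2
    have h3 : den α (k + 2 * w.length * m + i + 2) = pq α (k + 2 * w.length * m + i + 1) *
      den α (k + 2 * w.length * m + i + 1) + den α (k + 2 * w.length * m + i) := rfl
    rw [h3, ← h2]
    congr 3
    ring)
  rw [show k + 2 * w.length * (m + 2) = k + 2 * w.length * m + 2 * w.length + 2 * w.length by ring,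
    show k + 2 * w.length * (m + 1) = k + 2 * w.length * m + 2 * w.length by ring]
  exact h1

/-- the trace is at least three if a block occurs -/
lemma three_le {w : List ℤ} (hw : w ≠ []) {α : ℝ} (hα : Irrational α) (h : Powers w α) :
    3 ≤ tr w := by
  obtain ⟨k', hk', hb⟩ := h 4 3
  obtain ⟨k, rfl⟩ : ∃ k, k' = k + 1 := ⟨k' - 1, by omega⟩
  have h1 := den_rec (w := w) (α := α) (m := 0) hb (by norm_num)
  have hl : 0 < w.length := List.length_pos_of_ne_nil hw
  have h2 := den_pow hα (k + 2 * w.length * (0 + 1)) hl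
  rw [show k + 2 * w.length * (0 + 1) + 2 * w.length = k + 2 * w.length * (0 + 2) by ring] at h2
  have h3 : 1 ≤ den α (k + 2 * w.length * 0) := by
    have h4 := le_den hα (k - 1)
    rw [show k - 1 + 1 = k by omega] at h4
    simp only [mul_zero, add_zero]
    omega
  have h5 : 0 < den α (k + 2 * w.length * (0 + 1)) := by
    have := den_mono hα (show k + 2 * w.length * 0 ≤ k + 2 * w.length * (0 + 1) by omega)
    omega
  by_contra hcon
  push Not at hcon
  have h6 : tr w ≤ 2 := by omega
  nlinarith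

/-- blocks give runs -/
theorem runs_of {w : List ℤ} {α : ℝ} (hα : Irrational α) (h : Powers w α) :
    Runs (tr w) α := by
  intro n
  obtain ⟨k', hk', hb⟩ := h (4 * n + 4) (n + 2)
  obtain ⟨k, rfl⟩ : ∃ k, k' = k + 1 := ⟨k' - 1, by omega⟩
  refine ⟨fun m => den α (k + 2 * w.length * m), fun m hm => den_rec hb (by omega), fun m hm => ⟨?_, ?_⟩⟩
  · have h1 := le_den hα (k - 1)
    rw [show k - 1 + 1 = k by omega] at h1
    have h2 := den_mono hα (show k ≤ k + 2 * w.length * m by omega)
    change (n : ℤ) ≤ den α (k + 2 * w.length * m)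
    omega
  · change (den α (k + 2 * w.length * m) : ℝ) *
      |(den α (k + 2 * w.length * m) : ℝ) * α - round ((den α (k + 2 * w.length * m) : ℝ) * α)| ≤ 1
    generalize k + 2 * w.length * m = j
    have h1 := den_mul_th hα j
    have h2 : |(den α j : ℝ) * α - round ((den α j : ℝ) * α)| ≤ |th α j| := round_le _ _
    have h3 : (0 : ℝ) ≤ den α j := by exact_mod_cast den_nonneg hα j
    have h4 : (den α j : ℝ) ≤ den α (j + 1) := by exact_mod_cast den_le_succ hα j
    calc _ ≤ (den α j : ℝ) * |th α j| := mul_le_mul_of_nonneg_left h2 h3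
      _ ≤ (den α (j + 1) : ℝ) * |th α j| := mul_le_mul_of_nonneg_right h4 (abs_nonneg _)
      _ ≤ 1 := h1

lemma exists_eig {t : ℤ} (ht : 3 ≤ t) : ∃ lam : ℝ, Eig t lam := by
  have htr : (3 : ℝ) ≤ t := by exact_mod_cast ht
  have h4 : (0 : ℝ) ≤ (t : ℝ) ^ 2 - 4 := by nlinarith
  have hs := Real.mul_self_sqrt h4
  have hs0 := Real.sqrt_nonneg ((t : ℝ) ^ 2 - 4)
  refine ⟨((t : ℝ) + √((t : ℝ) ^ 2 - 4)) / 2, ht, ?_, ?_⟩
  · linarith
  · linear_combination hs / 4

open Classical in
/-- the uniform statement for words -/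
theorem uniform_word (w : List ℤ) (hw : w ≠ []) {b : ℕ} (hb : 2 ≤ b) {ε δ : ℝ} (hε : 0 < ε)
    (hδ : 0 < δ) :
    ∃ M : ℕ, ∀ α : ℝ, Irrational α → Powers w α → ∀ β : ℝ, ∀ s n : ℕ, M ≤ n →
      (((Finset.range n).filter (fun i => ¬ ∃ᶠ q : ℕ in atTop,
        (q : ℝ) * |(q : ℝ) * α - round ((q : ℝ) * α)| *
          |(q : ℝ) * ((b : ℝ) ^ (s + i) * β) - round ((q : ℝ) * ((b : ℝ) ^ (s + i) * β))| < ε)).card :
            ℝ) ≤ δ * n := by
  by_cases ht : 3 ≤ tr w
  · obtain ⟨lam, E⟩ := exists_eig ht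
    obtain ⟨M, hM⟩ := uniform_runs E hb hε hδ
    refine ⟨M, fun α hα hp β s n hn => ?_⟩
    have e : (Finset.range n).filter (fun i => ¬ ∃ᶠ q : ℕ in atTop,
        (q : ℝ) * |(q : ℝ) * α - round ((q : ℝ) * α)| *
          |(q : ℝ) * ((b : ℝ) ^ (s + i) * β) - round ((q : ℝ) * ((b : ℝ) ^ (s + i) * β))| < ε) =
        (Finset.range n).filter
          (fun i => ¬ LC α ε (b ^ (s + i) • (β : Pool.Agent.H705R2.Circ))) := by
      apply Finset.filter_congr
      intro i _
      have : ∀ q : ℕ, |(q : ℝ) * ((b : ℝ) ^ (s + i) * β) -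
          round ((q : ℝ) * ((b : ℝ) ^ (s + i) * β))| =
          ‖q • b ^ (s + i) • (β : Pool.Agent.H705R2.Circ)‖ := by
        intro q
        rw [← UnitAddCircle.norm_eq, ← AddCircle.coe_nsmul, ← AddCircle.coe_nsmul]
        congr 2
        simp only [nsmul_eq_mul]
        push_cast
        ring
      simp only [this]
      exact Iff.rfl
    rw [e]
    exact hM α (runs_of hα hp) (β : Pool.Agent.H705R2.Circ) s n hn
  · refine ⟨0, fun α hα hp => ?_⟩
    exact absurd (three_le hw hα hp) ht

/-- the almost sure statement for words -/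
theorem ae_word (w : List ℤ) (hw : w ≠ []) {b : ℕ} (hb : 2 ≤ b) {α : ℝ} (hα : Irrational α)
    (hp : Powers w α) {μ : MeasureTheory.Measure (AddCircle (1 : ℝ))}
    [MeasureTheory.IsProbabilityMeasure μ]
    (hμ : MeasureTheory.MeasurePreserving (fun x : AddCircle (1 : ℝ) => b • x) μ μ) :
    ∀ᵐ x ∂μ, ∀ β : ℝ, (β : AddCircle (1 : ℝ)) = x → ∀ ε : ℝ, 0 < ε → ∃ᶠ q : ℕ in atTop,
        (q : ℝ) * |(q : ℝ) * α - round ((q : ℝ) * α)| *
          |(q : ℝ) * β - round ((q : ℝ) * β)| < ε := by
  obtain ⟨lam, E⟩ := exists_eig (three_le hw hα hp)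
  filter_upwards [ae_runs E hb (runs_of hα hp) hμ] with x hx β hβ ε hε
  refine (hx ε hε).mono fun q hq => ?_
  have e : |(q : ℝ) * β - round ((q : ℝ) * β)| = ‖q • x‖ := by
    rw [← UnitAddCircle.norm_eq, ← hβ]
    have h2 : (q • (β : AddCircle (1 : ℝ))) = ((q • β : ℝ) : AddCircle (1 : ℝ)) :=
      (AddCircle.coe_nsmul _).symm
    rw [h2, nsmul_eq_mul]
  rw [e]
  exact hq

end Pool.Agent.Q29.LitWord
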