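import Pool.Agent.Y771.RP.Rel

/-!
# The function `log Γ` is not algebraic
-/

set_option autoImplicit false

open Filter Topology

namespace Pool.Agent.Q29.LG

/-- functions with two scales of growth -/
theorem two_scale (S : Finset (ℕ × ℕ)) (c : ℕ × ℕ → ℝ) (u l : ℕ → ℝ) (hu : Tendsto u atTop atTop)
    (hl : Tendsto l atTop atTop) (hul : ∀ k : ℕ, Tendsto (fun n => l n ^ k / u n) atTop (𝓝 0))
    (h : ∀ᶠ n in atTop, ∑ p ∈ S, c p * (u n ^ p.1 * l n ^ p.2) = 0) : ∀ p ∈ S, c p = 0 := by
  classical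
  by_contra hcon
  push Not at hcon
  obtain ⟨p₀, hp₀, hcp₀⟩ := hcon
  set S' := S.filter fun p => c p ≠ 0 with hS'
  have hne : S'.Nonempty := ⟨p₀, Finset.mem_filter.2 ⟨hp₀, hcp₀⟩⟩
  obtain ⟨q, hq, hmax⟩ := Finset.exists_max_image S' (fun p => toLex p) hne
  have hqc : c q ≠ 0 := (Finset.mem_filter.1 hq).2
  have hu1 : ∀ᶠ n in atTop, 1 ≤ u n := hu.eventually_ge_atTop 1
  have hl1 : ∀ᶠ n in atTop, 1 ≤ l n := hl.eventually_ge_atTop 1
  have hratio : ∀ p ∈ S', p ≠ q →
      Tendsto (fun n => c p * ((u n ^ p.1 * l n ^ p.2) / (u n ^ q.1 * l n ^ q.2))) atTop (𝓝 0) := by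
    intro p hp hpq
    rw [← mul_zero (c p)]
    refine Tendsto.const_mul _ ?_
    have h1 := hmax p hp
    rw [Prod.Lex.toLex_le_toLex] at h1
    rcases h1 with h1 | ⟨h1, h2⟩
    · refine squeeze_zero' ?_ ?_ (hul p.2)
      · filter_upwards [hu1, hl1] with n h3 h4
        positivity
      · filter_upwards [hu1, hl1] with n h3 h4
        have hu0 : 0 < u n := by linarith
        have hl0 : 0 < l n := by linarith
        rw [div_le_div_iff₀ (by positivity) hu0]
        have h5 : u n ^ p.1 * u n ≤ u n ^ q.1 := by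
          rw [← pow_succ]
          exact pow_le_pow_right₀ h3 h1
        have h6 : 1 ≤ l n ^ q.2 := one_le_pow₀ h4
        calc u n ^ p.1 * l n ^ p.2 * u n = (u n ^ p.1 * u n) * l n ^ p.2 := by ring
          _ ≤ u n ^ q.1 * l n ^ p.2 := by gcongr
          _ = l n ^ p.2 * (u n ^ q.1 * 1) := by ring
          _ ≤ l n ^ p.2 * (u n ^ q.1 * l n ^ q.2) := by gcongr
    · have h3 : p.2 < q.2 := by
        rcases h2.lt_or_eq with h3 | h3
        · exact h3
        · exact absurd (Prod.ext h1 h3) hpq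
      refine squeeze_zero' ?_ ?_ (tendsto_inv_atTop_zero.comp hl)
      · filter_upwards [hu1, hl1] with n h3 h4
        positivity
      · filter_upwards [hu1, hl1] with n h4 h5
        have hu0 : 0 < u n := by linarith
        have hl0 : 0 < l n := by linarith
        show _ ≤ (l n)⁻¹
        rw [div_le_iff₀ (by positivity), h1]
        have h6 : l n ^ p.2 * l n ≤ l n ^ q.2 := by
          rw [← pow_succ]
          exact pow_le_pow_right₀ h5 h3
        calc u n ^ q.1 * l n ^ p.2 = (l n)⁻¹ * (u n ^ q.1 * (l n ^ p.2 * l n)) := by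
              field_simp
          _ ≤ (l n)⁻¹ * (u n ^ q.1 * l n ^ q.2) := by gcongr
  have hsum : Tendsto (fun n => ∑ p ∈ S'.erase q,
      c p * ((u n ^ p.1 * l n ^ p.2) / (u n ^ q.1 * l n ^ q.2))) atTop (𝓝 0) := by
    rw [← Finset.sum_const_zero (s := S'.erase q)]
    exact tendsto_finsetSum _ fun p hp => hratio p (Finset.mem_of_mem_erase hp) (Finset.ne_of_mem_erase hp)
  have heq : ∀ᶠ n in atTop, ∑ p ∈ S'.erase q,
      c p * ((u n ^ p.1 * l n ^ p.2) / (u n ^ q.1 * l n ^ q.2)) = - c q := by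
    filter_upwards [h, hu1, hl1] with n h1 h2 h3
    have hu0 : 0 < u n := by linarith
    have hl0 : 0 < l n := by linarith
    have hd : u n ^ q.1 * l n ^ q.2 ≠ 0 := by positivity
    have h4 : ∑ p ∈ S', c p * (u n ^ p.1 * l n ^ p.2) = 0 := by
      rw [← h1, hS', Finset.sum_filter_of_ne]
      intro p _ h5 h6
      exact h5 (by rw [h6, zero_mul])
    rw [← Finset.add_sum_erase S' _ hq] at h4
    have h5 : ∑ p ∈ S'.erase q, c p * ((u n ^ p.1 * l n ^ p.2) / (u n ^ q.1 * l n ^ q.2)) =
        (∑ p ∈ S'.erase q, c p * (u n ^ p.1 * l n ^ p.2)) / (u n ^ q.1 * l n ^ q.2) := by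
      rw [Finset.sum_div]
      exact Finset.sum_congr rfl fun p _ => by ring
    rw [h5, div_eq_iff hd]
    linarith
  have h1 : Tendsto (fun _ : ℕ => - c q) atTop (𝓝 0) := hsum.congr' heq
  have h2 := tendsto_nhds_unique h1 tendsto_const_nhds
  exact hqc (neg_eq_zero.1 h2.symm)

/-- `log n! / (n + 1)`, shifted -/
noncomputable def ell (n : ℕ) : ℝ := Real.log (n.factorial) / ((n : ℝ) + 1)

theorem ell_ge (n : ℕ) (hn : 1 ≤ n) : Real.log n / 2 - 1 ≤ ell n := by
  have hn0 : (0 : ℝ) < n := by exact_mod_cast hn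
  have h1 := Real.pow_div_factorial_le_exp (n : ℝ) hn0.le n
  have hf : (0 : ℝ) < n.factorial := by exact_mod_cast n.factorial_pos
  have h2 : (n : ℝ) * Real.log n - n ≤ Real.log n.factorial := by
    have h3 := Real.log_le_log (by positivity) h1
    rw [Real.log_exp, Real.log_div (by positivity) hf.ne', Real.log_pow] at h3
    linarith
  unfold ell
  rw [le_div_iff₀ (by positivity)]
  have hl : 0 ≤ Real.log n := Real.log_nonneg (by exact_mod_cast hn)
  have hn1 : (1 : ℝ) ≤ n := by exact_mod_cast hn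
  nlinarith

theorem ell_le (n : ℕ) (hn : 1 ≤ n) : ell n ≤ Real.log n := by
  have hn0 : (0 : ℝ) < n := by exact_mod_cast hn
  have hf : (0 : ℝ) < n.factorial := by exact_mod_cast n.factorial_pos
  unfold ell
  rw [div_le_iff₀ (by positivity)]
  have h1 : (n.factorial : ℝ) ≤ (n : ℝ) ^ n := by exact_mod_cast n.factorial_le_pow
  have h2 := Real.log_le_log hf h1
  rw [Real.log_pow] at h2
  have hl : 0 ≤ Real.log n := Real.log_nonneg (by exact_mod_cast hn)
  nlinarith

theorem ell_tendsto : Tendsto ell atTop atTop := by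
  have h1 : Tendsto (fun n : ℕ => Real.log n / 2 - 1) atTop atTop := by
    apply tendsto_atTop_add_const_right
    apply Tendsto.atTop_div_const (by norm_num)
    exact Real.tendsto_log_atTop.comp tendsto_natCast_atTop_atTop
  refine tendsto_atTop_mono' _ ?_ h1
  filter_upwards [eventually_ge_atTop 1] with n hn
  exact ell_ge n hn

theorem ell_pow (k : ℕ) : Tendsto (fun n : ℕ => ell n ^ k / ((n : ℝ) + 1)) atTop (𝓝 0) := by
  have h1 : Tendsto (fun n : ℕ => Real.log n ^ k / n) atTop (𝓝 0) := by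
    have h3 : Tendsto (fun x : ℝ => Real.log x ^ k / x) atTop (𝓝 0) := by
      have h4 := Real.isLittleO_pow_log_id_atTop (n := k)
      exact h4.tendsto_div_nhds_zero
    exact h3.comp tendsto_natCast_atTop_atTop
  refine squeeze_zero' ?_ ?_ h1
  · filter_upwards [ell_tendsto.eventually_ge_atTop 0] with n hn
    positivity
  · filter_upwards [ell_tendsto.eventually_ge_atTop 0, eventually_ge_atTop 1] with n hn hn1
    have hn0 : (0 : ℝ) < n := by exact_mod_cast hn1
    have h2 := ell_le n hn1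
    have h3 : (n : ℝ) ≤ n + 1 := by linarith
    gcongr

/-- `log Γ` is transcendental over the field of rational functions -/
theorem ind_real (P : MvPolynomial (Option Unit) ℝ)
    (hP : ∀ t ∈ Set.Ioi (0 : ℝ), MvPolynomial.eval (fun o : Option Unit => o.elim t fun _ => Real.log (Real.Gamma t)) P = 0) :
    P = 0 := by
  classical
  -- exponents
  set e : (Option Unit →₀ ℕ) → ℕ × ℕ := fun s => (s none + s (some ()), s (some ())) with he
  have hinj : Function.Injective e := by
    intro s s' h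
    have h1 := congrArg Prod.fst h
    have h2 := congrArg Prod.snd h
    simp only [he] at h1 h2
    ext o
    rcases o with _ | ⟨⟩
    · omega
    · exact h2
  have key := two_scale (P.support.image e) (fun p => P.coeff (Function.invFun e p))
    (fun n : ℕ => (n : ℝ) + 1) ell
    (tendsto_atTop_add_const_right _ _ tendsto_natCast_atTop_atTop) ell_tendsto ell_pow (by
      refine Eventually.of_forall fun n => ?_
      rw [Finset.sum_image fun x _ y _ h => hinj h]
      have h1 := hP ((n : ℝ) + 1) (by show (0 : ℝ) < n + 1; positivity)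
      rw [MvPolynomial.eval_eq] at h1
      rw [← h1]
      refine Finset.sum_congr rfl fun s _ => ?_
      rw [Function.leftInverse_invFun hinj s]
      congr 1
      have h2 : Real.log (Real.Gamma ((n : ℝ) + 1)) = ((n : ℝ) + 1) * ell n := by
        rw [Real.Gamma_nat_eq_factorial]
        unfold ell
        have : (n : ℝ) + 1 ≠ 0 := by positivity
        field_simp
      have h3 : ∏ i ∈ s.support, (i.elim ((n : ℝ) + 1) fun _ => Real.log (Real.Gamma ((n : ℝ) + 1))) ^ s i =
          ∏ i : Option Unit, (i.elim ((n : ℝ) + 1) fun _ => Real.log (Real.Gamma ((n : ℝ) + 1))) ^ s i := by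
        refine Finset.prod_subset (Finset.subset_univ _) fun i _ hi => ?_
        rw [Finsupp.notMem_support_iff.1 hi, pow_zero]
      rw [h3, Fintype.prod_option]
      simp only [he, Option.elim, Finset.univ_unique, Finset.prod_singleton, h2]
      rw [mul_pow, pow_add]
      ring)
  by_contra hne
  obtain ⟨s, hs⟩ := MvPolynomial.ne_zero_iff.1 hne
  have h1 := key (e s) (Finset.mem_image_of_mem _ (MvPolynomial.mem_support_iff.2 hs))
  simp only [Function.leftInverse_invFun hinj s] at h1
  exact hs h1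

/-- the function `log Γ(t)` -/
noncomputable def lg (t : ℂ) : ℂ := Complex.log (Complex.Gamma t)

theorem lg_real {t : ℝ} (ht : 0 < t) : lg (t : ℂ) = ((Real.log (Real.Gamma t) : ℝ) : ℂ) := by
  unfold lg
  rw [Complex.Gamma_ofReal, Complex.ofReal_log (Real.Gamma_pos_of_pos ht).le]

/-- the positive real numbers -/
def Pos : Set ℂ := (fun x : ℝ => (x : ℂ)) '' Set.Ioi 0

theorem lg_an {t : ℂ} (ht : t ∈ Pos) : AnalyticAt ℂ lg t := by
  obtain ⟨x, hx, rfl⟩ := ht
  have hx : (0 : ℝ) < x := hx
  have h1 : AnalyticAt ℂ Complex.Gamma (x : ℂ) := by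
    refine Pool.Agent.Y771.RP.Gamma_analyticAt fun k h => ?_
    have h2 : ((x : ℝ) : ℂ) = ((-(k : ℝ) : ℝ) : ℂ) := by push_cast; exact h
    have h3 : x = -(k : ℝ) := Complex.ofReal_injective h2
    have h4 : (0 : ℝ) ≤ k := Nat.cast_nonneg k
    linarith
  refine AnalyticAt.clog h1 ?_
  show Complex.Gamma (x : ℂ) ∈ Complex.slitPlane
  rw [Complex.Gamma_ofReal]
  exact Complex.ofReal_mem_slitPlane.2 (Real.Gamma_pos_of_pos hx)

theorem lg_locInd : ∀ t ∈ Pos, Pool.Agent.Y124.LocInd (fun (_ : Unit) => lg) t := by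
  refine Pool.Agent.Y771.RP.locInd_of (fun (_ : Unit) => lg) Pos ?_ (fun _ t ht => lg_an ht) fun P hP => ?_
  · exact isPreconnected_Ioi.image _ Complex.continuous_ofReal.continuousOn
  · refine Pool.Agent.Y771.RP.ind_of_real (fun (_ : Unit) => lg) (fun _ t => Real.log (Real.Gamma t))
      (Set.Ioi 0) (fun _ t ht => lg_real ht) (fun Q hQ => ind_real Q hQ) P fun t ht => ?_
    exact hP _ ⟨t, ht, rfl⟩

end Pool.Agent.Q29.LG
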