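import Pool.Agent.TH456.TM.Fam
import Pool.Agent.TH456.TM.Close

/-!
# Mixed pairs `s`, `N(x, s) / x ^ j`: a simultaneous measure
-/

set_option autoImplicit false

namespace Pool.Agent.Q29.Mix

open Polynomial Finset Pool.Agent.TH456.TM

/-- evaluation at `(x, s)` as a ring homomorphism -/
noncomputable def vlH (x s : ℂ) : ℤ[X][X] →+* ℂ := (evalRingHom s).comp (mapRingHom (σx x))

lemma vl_eq (x s : ℂ) (P : ℤ[X][X]) : vl x s P = vlH x s P := rfl

lemma vlH_CC (x s : ℂ) (q : ℤ) : vlH x s (C (C q)) = q := by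
  unfold vlH
  simp [σx]

lemma vlH_CX (x s : ℂ) : vlH x s (C X) = x := by
  unfold vlH
  simp [σx]

lemma vlH_X (x s : ℂ) : vlH x s X = s := by
  unfold vlH
  simp

/-- the polynomial `x ^ (j d) Q(N(x, y) / x ^ j)`, `d` the degree of `Q` -/
noncomputable def ratP (N : ℤ[X][X]) (j : ℕ) (Q : ℤ[X]) : ℤ[X][X] :=
  ∑ i ∈ range (Q.natDegree + 1), C (C (Q.coeff i)) * (N ^ i * (C X) ^ (j * (Q.natDegree - i)))

lemma vl_ratP (x s : ℂ) (N : ℤ[X][X]) (j : ℕ) (Q : ℤ[X]) : vl x s (ratP N j Q) =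
    ∑ i ∈ range (Q.natDegree + 1), (Q.coeff i : ℂ) * ((vl x s N) ^ i * x ^ (j * (Q.natDegree - i))) := by
  rw [vl_eq]
  unfold ratP
  rw [map_sum]
  refine Finset.sum_congr rfl fun i _ => ?_
  rw [map_mul, map_mul, map_pow, map_pow, vlH_CC, vlH_CX, vl_eq]

lemma vl_ratP_ne (x s : ℂ) (hx : x ≠ 0) (N : ℤ[X][X]) (j : ℕ) (Q : ℤ[X]) : vl x s (ratP N j Q) =
    x ^ (j * Q.natDegree) * aeval (vl x s N / x ^ j) Q := by
  rw [vl_ratP, aeval_eq_sum_range, Finset.mul_sum]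
  refine Finset.sum_congr rfl fun i hi => ?_
  rw [mem_range] at hi
  rw [zsmul_eq_mul, div_pow]
  have h1 : x ^ (j * Q.natDegree) = x ^ (j * (Q.natDegree - i)) * (x ^ j) ^ i := by
    rw [← pow_mul, ← pow_add, ← mul_add]
    congr 2
    omega
  rw [h1]
  have h2 : (x ^ j) ^ i ≠ 0 := pow_ne_zero _ (pow_ne_zero _ hx)
  field_simp

lemma exists_bounds (N : ℤ[X][X]) (D e₀ : ℕ) : ∃ E A : ℕ, ∀ i ≤ D, ∀ e ≤ e₀,
    (∀ a, ((N ^ i * (C X) ^ e).coeff a).natDegree ≤ E) ∧ hgt (N ^ i * (C X) ^ e) ≤ A := by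
  obtain ⟨M, hM⟩ : ∃ M : ℕ × ℕ → ℤ[X][X], M = fun p => N ^ p.1 * (C X) ^ p.2 := ⟨_, rfl⟩
  refine ⟨((range (D + 1)) ×ˢ (range (e₀ + 1))).sup fun p => (M p).support.sup fun a =>
    ((M p).coeff a).natDegree, ((range (D + 1)) ×ˢ (range (e₀ + 1))).sup fun p => hgt (M p), ?_⟩
  intro i hi e he
  have hp : (i, e) ∈ (range (D + 1)) ×ˢ (range (e₀ + 1)) := by
    rw [mem_product, mem_range, mem_range]
    exact ⟨by simpa using Nat.lt_succ_of_le hi, by simpa using Nat.lt_succ_of_le he⟩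
  have hMe : M (i, e) = N ^ i * (C X) ^ e := by rw [hM]
  constructor
  · intro a
    rw [← hMe]
    by_cases h0 : (M (i, e)).coeff a = 0
    · rw [h0, natDegree_zero]
      exact Nat.zero_le _
    · exact (Finset.le_sup (f := fun a => ((M (i, e)).coeff a).natDegree) (mem_support_iff.2 h0)).trans
        (Finset.le_sup (f := fun p => (M p).support.sup fun a => ((M p).coeff a).natDegree) hp)
  · rw [← hMe]
    exact Finset.le_sup (f := fun p => hgt (M p)) hp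

/-- **mixed pairs** -/
theorem mix_core (x : ℂ) (hx : MeasT x) (N : ℤ[X][X]) (j : ℕ)
    (hN : ∀ α : ℂ, α ≠ 0 → ∀ Q : ℤ[X], Q ≠ 0 → ∃ x₀ : ℂ, vl x₀ α (ratP N j Q) ≠ 0) (D : ℕ) :
    ∃ κ : ℝ, 0 < κ ∧ ∀ s : ℂ, s ≠ 0 → ∃ c : ℝ, 0 < c ∧ ∀ P Q : ℤ[X], P ≠ 0 → Q ≠ 0 →
      P.natDegree ≤ D → Q.natDegree ≤ D → ∀ H : ℝ, 1 ≤ H → (∀ k, |((P.coeff k : ℤ) : ℝ)| ≤ H) →
      (∀ k, |((Q.coeff k : ℤ) : ℝ)| ≤ H) →
      c * H ^ (-κ) ≤ max ‖aeval s P‖ ‖aeval (vl x s N / x ^ j) Q‖ := by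
  have hx0 : x ≠ 0 := measT_ne_zero hx
  obtain ⟨E, A, hEA⟩ := exists_bounds N D (j * D)
  obtain ⟨κ, hκ, h⟩ := pairG x hx (D * (N.natDegree + 1) + 1) E (by omega)
  refine ⟨κ, hκ, fun s hs => ?_⟩
  obtain ⟨c, hc, h⟩ := h ‖s‖
  obtain ⟨μ, hμ⟩ : ∃ μ : ℝ, μ = (min 1 ‖s‖) ^ D := ⟨_, rfl⟩
  have hs0 : 0 < ‖s‖ := norm_pos_iff.2 hs
  have hm0 : 0 < min 1 ‖s‖ := lt_min one_pos hs0
  have hμ0 : 0 < μ := by rw [hμ]; positivity
  have hμ1 : μ ≤ 1 := by rw [hμ]; exact pow_le_one₀ hm0.le (min_le_left _ _)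
  obtain ⟨B, hB⟩ : ∃ B : ℝ, B = (D + 1) * (A + 1) := ⟨_, rfl⟩
  have hB1 : 1 ≤ B := by
    rw [hB]
    have h1 : (0 : ℝ) ≤ D := Nat.cast_nonneg _
    have h2 : (0 : ℝ) ≤ A := Nat.cast_nonneg _
    nlinarith
  obtain ⟨ν, hν⟩ : ∃ ν : ℝ, ν = (max 1 ‖x‖) ^ (j * D) := ⟨_, rfl⟩
  have hν1 : 1 ≤ ν := by rw [hν]; exact one_le_pow₀ (le_max_left _ _)
  have hν0 : 0 < ν := by linarith
  refine ⟨μ * (c * B ^ (-κ)) / ν, by positivity, ?_⟩
  intro P Q hP hQ hPD hQD H hH hPH hQH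
  have hH0 : 0 < H := by linarith
  obtain ⟨a, ha, P', hPP', hP0⟩ := strip D P hP hPD
  have hP'0 : P' ≠ 0 := by
    intro h
    rw [h, coeff_zero] at hP0
    exact hP0 rfl
  have hP'D : P'.natDegree ≤ D := by
    have h1 : P.natDegree = a + P'.natDegree := by
      rw [hPP', natDegree_mul (pow_ne_zero _ X_ne_zero) hP'0, natDegree_X_pow]
    omega
  have hterm : ∀ i ∈ range (Q.natDegree + 1), i ≤ D ∧ j * (Q.natDegree - i) ≤ j * D := by
    intro i hi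
    rw [mem_range] at hi
    exact ⟨by omega, Nat.mul_le_mul_left _ (by omega)⟩
  have h1 := h s le_rfl P' (ratP N j Q) hP'0 (by nlinarith [Nat.zero_le N.natDegree])
    (by
      unfold ratP
      refine natDegree_sum_le_of_forall_le _ _ fun i hi => ?_
      refine (natDegree_C_mul_le _ _).trans ?_
      refine natDegree_mul_le.trans ?_
      have e1 : ((C (X : ℤ[X])) ^ (j * (Q.natDegree - i)) : ℤ[X][X]).natDegree = 0 := by
        rw [← C_pow, natDegree_C]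
      rw [e1, add_zero]
      refine natDegree_pow_le.trans ?_
      have := (hterm i hi).1
      nlinarith [Nat.zero_le N.natDegree])
    (by
      intro b
      unfold ratP
      rw [finsetSum_coeff]
      refine natDegree_sum_le_of_forall_le _ _ fun i hi => ?_
      rw [coeff_C_mul]
      exact (natDegree_C_mul_le _ _).trans ((hEA i (hterm i hi).1 _ (hterm i hi).2).1 b))
    (by
      intro α hα
      have hα0 : α ≠ 0 := by
        rintro rfl
        rw [aeval_def, eval₂_at_zero, eq_intCast, Int.cast_eq_zero] at hα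
        exact hP0 hα
      exact hN α hα0 Q hQ) (B * H) (by nlinarith)
    (fun k => by
      have h2 : P.coeff (k + a) = P'.coeff k := by rw [hPP', coeff_X_pow_mul]
      rw [← h2]
      exact (hPH _).trans (by nlinarith))
    (fun b k => by
      unfold ratP
      rw [finsetSum_coeff, finsetSum_coeff]
      push_cast
      refine (Finset.abs_sum_le_sum_abs _ _).trans ?_
      calc ∑ i ∈ range (Q.natDegree + 1), |((((C (C (Q.coeff i)) *
            (N ^ i * (C X) ^ (j * (Q.natDegree - i)))).coeff b).coeff k : ℤ) : ℝ)|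
          ≤ ∑ _i ∈ range (Q.natDegree + 1), H * A := by
            refine Finset.sum_le_sum fun i hi => ?_
            rw [coeff_C_mul, coeff_C_mul]
            push_cast
            rw [abs_mul]
            have h3 : |((((N ^ i * (C X) ^ (j * (Q.natDegree - i))).coeff b).coeff k : ℤ) : ℝ)| ≤ A := by
              have h4 := le_hgt (N ^ i * (C X) ^ (j * (Q.natDegree - i))) b k
              have h5 := (hEA i (hterm i hi).1 _ (hterm i hi).2).2
              rw [← Int.cast_abs, Int.abs_eq_natAbs]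
              exact_mod_cast h4.trans h5
            exact mul_le_mul (hQH i) h3 (abs_nonneg _) hH0.le
        _ = (Q.natDegree + 1) * (H * A) := by
            rw [Finset.sum_const, card_range, nsmul_eq_mul]
            push_cast
            ring
        _ ≤ (D + 1) * (H * (A + 1)) := by
            have h6 : (Q.natDegree : ℝ) ≤ D := by exact_mod_cast hQD
            gcongr
            linarith
        _ = B * H := by rw [hB]; ring)
  rw [vl_ratP_ne x s hx0, norm_mul, norm_pow] at h1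
  have h2 : μ * ‖aeval s P'‖ ≤ ‖aeval s P‖ := by
    rw [hPP', map_mul, map_pow, aeval_X, norm_mul, norm_pow]
    have h3 : μ ≤ ‖s‖ ^ a := by
      rw [hμ]
      calc (min 1 ‖s‖) ^ D ≤ (min 1 ‖s‖) ^ a :=
            pow_le_pow_of_le_one hm0.le (min_le_left _ _) ha
        _ ≤ ‖s‖ ^ a := pow_le_pow_left₀ hm0.le (min_le_right _ _) _
    gcongr
  have h3 : ‖x‖ ^ (j * Q.natDegree) ≤ ν := by
    rw [hν]
    calc ‖x‖ ^ (j * Q.natDegree) ≤ (max 1 ‖x‖) ^ (j * Q.natDegree) :=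
          pow_le_pow_left₀ (norm_nonneg _) (le_max_right _ _) _
      _ ≤ _ := pow_le_pow_right₀ (le_max_left _ _) (Nat.mul_le_mul_left _ hQD)
  have h4 : ‖x‖ ^ (j * Q.natDegree) * ‖aeval (vl x s N / x ^ j) Q‖ ≤
      ν * ‖aeval (vl x s N / x ^ j) Q‖ := by gcongr
  have h5 : max ‖aeval s P'‖ (‖x‖ ^ (j * Q.natDegree) * ‖aeval (vl x s N / x ^ j) Q‖) ≤
      ν * max ‖aeval s P'‖ ‖aeval (vl x s N / x ^ j) Q‖ := by
    refine max_le ?_ (h4.trans ?_)
    · calc ‖aeval s P'‖ ≤ max ‖aeval s P'‖ ‖aeval (vl x s N / x ^ j) Q‖ := le_max_left _ _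
        _ ≤ _ := le_mul_of_one_le_left (le_max_of_le_left (norm_nonneg _)) hν1
    · gcongr
      exact le_max_right _ _
  have h6 : μ * max ‖aeval s P'‖ ‖aeval (vl x s N / x ^ j) Q‖ ≤
      max ‖aeval s P‖ ‖aeval (vl x s N / x ^ j) Q‖ := by
    rw [mul_max_of_nonneg _ _ hμ0.le]
    refine max_le_max h2 ?_
    have := norm_nonneg (aeval (vl x s N / x ^ j) Q)
    nlinarith
  rw [Real.mul_rpow (by linarith) hH0.le] at h1
  have h7 := h1.trans h5
  calc μ * (c * B ^ (-κ)) / ν * H ^ (-κ) = μ * ((c * (B ^ (-κ) * H ^ (-κ))) / ν) := by ring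
    _ ≤ μ * max ‖aeval s P'‖ ‖aeval (vl x s N / x ^ j) Q‖ := by
        gcongr
        rw [div_le_iff₀ hν0, mul_comm _ ν]
        exact h7
    _ ≤ _ := h6

lemma exists_ne (Q : ℤ[X]) (hQ : Q ≠ 0) : ∃ y : ℂ, aeval y Q ≠ 0 := by
  by_contra hcon
  push Not at hcon
  have hinj : Function.Injective (Int.castRingHom ℂ) := Int.cast_injective
  refine hQ ((Polynomial.map_eq_zero_iff hinj).1 (Polynomial.funext fun y => ?_))
  rw [eval_zero, eval_map]
  exact hcon y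

/-- the pair `s = t + r x`, `t x ^ k = (s - r x) x ^ k`, `k ≥ 0` -/
theorem mix_pos (x : ℂ) (hx : MeasT x) (r : ℤ) (hr : r ≠ 0) (k : ℕ) (D : ℕ) :
    ∃ κ : ℝ, 0 < κ ∧ ∀ t : ℂ, t + r * x ≠ 0 → ∃ c : ℝ, 0 < c ∧ ∀ P Q : ℤ[X], P ≠ 0 → Q ≠ 0 →
      P.natDegree ≤ D → Q.natDegree ≤ D → ∀ H : ℝ, 1 ≤ H → (∀ k, |((P.coeff k : ℤ) : ℝ)| ≤ H) →
      (∀ k, |((Q.coeff k : ℤ) : ℝ)| ≤ H) →
      c * H ^ (-κ) ≤ max ‖aeval (t + r * x) P‖ ‖aeval (t * x ^ k) Q‖ := by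
  obtain ⟨κ, hκ, h⟩ := mix_core x hx ((X - C (C r * X)) * C (X ^ k)) 0 (by
    intro α _ Q hQ
    obtain ⟨y, hy⟩ := exists_ne Q hQ
    obtain ⟨x₀, hx₀⟩ : ∃ x₀ : ℂ, (α - r * x₀) * x₀ ^ k = y := by
      have hdeg : ((C α - C (r : ℂ) * X) * X ^ k - C y : ℂ[X]).natDegree = k + 1 := by
        have h1 : ((C α - C (r : ℂ) * X) * X ^ k : ℂ[X]).natDegree = k + 1 := by
          have h2 : (C α - C (r : ℂ) * X : ℂ[X]) = C (-(r : ℂ)) * X + C α := by
            rw [C_neg]; ring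
          have h3 : (C α - C (r : ℂ) * X : ℂ[X]).natDegree = 1 := by
            rw [h2]
            exact natDegree_linear (neg_ne_zero.2 (by exact_mod_cast hr))
          have h4 : (C α - C (r : ℂ) * X : ℂ[X]) ≠ 0 := by
            intro h; rw [h] at h3; simp at h3
          rw [natDegree_mul h4 (pow_ne_zero _ X_ne_zero), h3, natDegree_X_pow]
          ring
        rw [natDegree_sub_C, h1]
      obtain ⟨x₀, hx₀⟩ := Complex.exists_root (f := ((C α - C (r : ℂ) * X) * X ^ k - C y : ℂ[X])) (by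
        rw [← natDegree_pos_iff_degree_pos, hdeg]
        omega)
      refine ⟨x₀, ?_⟩
      rw [IsRoot.def] at hx₀
      simp only [eval_sub, eval_mul, eval_C, eval_X, eval_pow] at hx₀
      exact sub_eq_zero.1 hx₀
    refine ⟨x₀, ?_⟩
    rw [vl_ratP]
    simp only [zero_mul, pow_zero, mul_one]
    have h1 : vl x₀ α ((X - C (C r * X)) * C (X ^ k)) = y := by
      rw [vl_eq, map_mul, map_sub, C_mul, C_pow, map_mul, map_pow, vlH_CC, vlH_CX, vlH_X, hx₀]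
    rw [h1]
    rw [aeval_eq_sum_range] at hy
    simpa only [zsmul_eq_mul] using hy) D
  refine ⟨κ, hκ, fun t ht => ?_⟩
  obtain ⟨c, hc, h⟩ := h (t + r * x) ht
  refine ⟨c, hc, fun P Q hP hQ hPD hQD H hH hPH hQH => ?_⟩
  have h1 := h P Q hP hQ hPD hQD H hH hPH hQH
  have h2 : vl x (t + r * x) ((X - C (C r * X)) * C (X ^ k)) / x ^ 0 = t * x ^ k := by
    rw [vl_eq, map_mul, map_sub, C_mul, C_pow, map_mul, map_pow, vlH_CC, vlH_CX, vlH_X, pow_zero, div_one]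
    ring
  rwa [h2] at h1

/-- the pair `s = t + r x`, `t / x ^ k = (s - r x) / x ^ k`, `k ≥ 1` -/
theorem mix_neg (x : ℂ) (hx : MeasT x) (r : ℤ) (k : ℕ) (hk : k ≠ 0) (D : ℕ) :
    ∃ κ : ℝ, 0 < κ ∧ ∀ t : ℂ, t + r * x ≠ 0 → ∃ c : ℝ, 0 < c ∧ ∀ P Q : ℤ[X], P ≠ 0 → Q ≠ 0 →
      P.natDegree ≤ D → Q.natDegree ≤ D → ∀ H : ℝ, 1 ≤ H → (∀ k, |((P.coeff k : ℤ) : ℝ)| ≤ H) →
      (∀ k, |((Q.coeff k : ℤ) : ℝ)| ≤ H) →
      c * H ^ (-κ) ≤ max ‖aeval (t + r * x) P‖ ‖aeval (t / x ^ k) Q‖ := by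
  obtain ⟨κ, hκ, h⟩ := mix_core x hx (X - C (C r * X)) k (by
    intro α hα Q hQ
    refine ⟨0, ?_⟩
    rw [vl_ratP, Finset.sum_range_succ, Finset.sum_eq_zero, zero_add, Nat.sub_self, mul_zero, pow_zero,
      mul_one]
    · have h1 : vl 0 α (X - C (C r * X)) = α := by
        rw [vl_eq, map_sub, C_mul, map_mul, vlH_CX, vlH_X, mul_zero, sub_zero]
      rw [h1]
      refine mul_ne_zero ?_ (pow_ne_zero _ hα)
      rw [Int.cast_ne_zero]
      exact leadingCoeff_ne_zero.2 hQ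
    · intro i hi
      rw [mem_range] at hi
      have h2 : k * (Q.natDegree - i) ≠ 0 := Nat.mul_ne_zero hk (by omega)
      rw [zero_pow h2, mul_zero, mul_zero]) D
  refine ⟨κ, hκ, fun t ht => ?_⟩
  obtain ⟨c, hc, h⟩ := h (t + r * x) ht
  refine ⟨c, hc, fun P Q hP hQ hPD hQD H hH hPH hQH => ?_⟩
  have h1 := h P Q hP hQ hPD hQD H hH hPH hQH
  have h2 : vl x (t + r * x) (X - C (C r * X)) = t := by
    rw [vl_eq, map_sub, C_mul, map_mul, vlH_CC, vlH_CX, vlH_X]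
    ring
  rwa [h2] at h1

end Pool.Agent.Q29.Mix
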