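import Pool.Agent.Q29.Mix
import Pool.Agent.TH456.TM.E

/-!
# Families of numbers with pairwise simultaneous measures
-/

set_option autoImplicit false

namespace Pool.Agent.Q29.Mix

open Polynomial Finset Pool.Agent.TH456.TM

/-- the simultaneous measure for a pair of numbers -/
def PairM (a b : ℂ) (D : ℕ) (κ c : ℝ) : Prop :=
  ∀ P Q : ℤ[X], P ≠ 0 → Q ≠ 0 → P.natDegree ≤ D → Q.natDegree ≤ D → ∀ H : ℝ, 1 ≤ H →
    (∀ k, |((P.coeff k : ℤ) : ℝ)| ≤ H) → (∀ k, |((Q.coeff k : ℤ) : ℝ)| ≤ H) →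
    c * H ^ (-κ) ≤ max ‖aeval a P‖ ‖aeval b Q‖

lemma PairM.symm {a b : ℂ} {D : ℕ} {κ c : ℝ} (h : PairM a b D κ c) : PairM b a D κ c :=
  fun P Q hP hQ hPD hQD H hH hPH hQH => by
    rw [max_comm]
    exact h Q P hQ hP hQD hPD H hH hQH hPH

theorem fam_of_pairs {ι : Type} [Fintype ι] (u : ι → ℂ → ℂ) (good : ℂ → Prop) (x₀ : ℂ) (hx₀ : MeasT x₀)
    (D : ℕ) (hpair : ∀ i j, i ≠ j → ∃ κ : ℝ, 0 < κ ∧ ∀ t, good t → ∃ c : ℝ, 0 < c ∧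
      PairM (u i t) (u j t) D κ c) :
    ∃ κ : ℝ, 0 < κ ∧ ∀ t : ℂ, good t → ∃ C : ℝ, 0 < C ∧
      (∀ i j, i ≠ j → ∀ P Q : ℤ[X], P ≠ 0 → Q ≠ 0 → P.natDegree ≤ D →
        Q.natDegree ≤ D → ∀ H : ℝ, (ht P : ℝ) ≤ H → (ht Q : ℝ) ≤ H →
        C * H ^ (-κ) ≤ max ‖aeval (u i t) P‖ ‖aeval (u j t) Q‖) ∧
      (∀ i, ∀ P ∈ I1 D, ∀ Q ∈ I1 D, P ≠ Q → ∀ H : ℝ, (ht P : ℝ) ≤ H → (ht Q : ℝ) ≤ H →
        C * H ^ (-κ) ≤ max ‖aeval (u i t) P‖ ‖aeval (u i t) Q‖) := by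
  classical
  obtain ⟨κ₀, hκ₀, h₀⟩ := same_core x₀ hx₀ D
  have h1 : ∀ p : ι × ι, ∃ κ : ℝ, 0 < κ ∧ (p.1 ≠ p.2 →
      ∀ t, good t → ∃ c : ℝ, 0 < c ∧ PairM (u p.1 t) (u p.2 t) D κ c) := by
    intro p
    by_cases hp : p.1 ≠ p.2
    · obtain ⟨κ, hκ, h⟩ := hpair p.1 p.2 hp
      exact ⟨κ, hκ, fun _ => h⟩
    · exact ⟨1, one_pos, fun a => absurd a hp⟩
  choose κ' hκ' h1 using h1
  obtain ⟨κ₁, hκ₁, hκle⟩ := exists_le_ge (univ : Finset (ι × ι)) κ'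
  refine ⟨max κ₀ κ₁, lt_max_of_lt_left hκ₀, fun t ht' => ?_⟩
  obtain ⟨B, hB, hBle⟩ := exists_le_ge (univ : Finset ι) fun i => ‖u i t‖
  obtain ⟨C₀, hC₀, h₀⟩ := h₀ B
  have h2 : ∀ p : ι × ι, ∃ c : ℝ, 0 < c ∧ (p.1 ≠ p.2 → PairM (u p.1 t) (u p.2 t) D (κ' p) c) := by
    intro p
    by_cases hp : p.1 ≠ p.2
    · obtain ⟨c, hc, h⟩ := h1 p hp t ht'
      exact ⟨c, hc, fun _ => h⟩
    · exact ⟨1, one_pos, fun a => absurd a hp⟩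
  choose C' hC' h2 using h2
  obtain ⟨C₁, hC₁, hCle⟩ := exists_pos_le (univ : Finset (ι × ι)) C' (fun b _ => hC' b)
  have hmono : ∀ (κ C c H : ℝ), 1 ≤ H → 0 < c → c ≤ C → κ ≤ max κ₀ κ₁ →
      c * H ^ (-(max κ₀ κ₁)) ≤ C * H ^ (-κ) := by
    intro κ C c H hH hc hcC hκ
    have h3 : H ^ (-(max κ₀ κ₁)) ≤ H ^ (-κ) :=
      Real.rpow_le_rpow_of_exponent_le hH (by linarith)
    have h4 : 0 < H ^ (-(max κ₀ κ₁)) := by positivity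
    have h5 : 0 ≤ C := hc.le.trans hcC
    gcongr
  refine ⟨min C₀ C₁, lt_min hC₀ hC₁, ?_, ?_⟩
  · intro i j hij P Q hP hQ hPD hQD H hPH hQH
    have hH : 1 ≤ H := (ht_pos P hP).trans hPH
    refine le_trans ?_ (h2 (i, j) hij P Q hP hQ hPD hQD H hH
      (fun k => (le_ht P k).trans hPH) (fun k => (le_ht Q k).trans hQH))
    refine hmono _ _ _ _ hH (lt_min hC₀ hC₁) ?_ ?_
    · exact (min_le_right _ _).trans (hCle (i, j) (mem_univ _))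
    · exact (hκle (i, j) (mem_univ _)).trans (le_max_right _ _)
  · intro i P hP Q hQ hne H hPH hQH
    have hH : 1 ≤ H := (ht_pos P hP.1.ne_zero).trans hPH
    refine le_trans ?_ (h₀ (u i t) (hBle i (mem_univ _)) P hP Q hQ hne H hPH hQH)
    exact hmono _ _ _ _ hH (lt_min hC₀ hC₁) (min_le_left _ _) (le_max_left _ _)

/-- the numbers `t + r z` and `t z ^ k` -/
noncomputable def numC (z t : ℂ) : ℤ ⊕ ℤ → ℂ
  | Sum.inl r => t + r * z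
  | Sum.inr k => t * z ^ k

theorem pair_ne (z : ℂ) (hz : MeasT z) (D : ℕ) (i j : ℤ ⊕ ℤ) (hij : i ≠ j) (hi : i ≠ Sum.inl 0)
    (hj : j ≠ Sum.inl 0) : ∃ κ : ℝ, 0 < κ ∧ ∀ t, (numC z t i ≠ 0 ∧ numC z t j ≠ 0) →
      ∃ c : ℝ, 0 < c ∧ PairM (numC z t i) (numC z t j) D κ c := by
  have hz0 : z ≠ 0 := measT_ne_zero hz
  have hmix : ∀ r k : ℤ, r ≠ 0 → ∃ κ : ℝ, 0 < κ ∧ ∀ t, (t + r * z ≠ 0) →
      ∃ c : ℝ, 0 < c ∧ PairM (t + r * z) (t * z ^ k) D κ c := by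
    intro r k hr
    obtain ⟨n, rfl | rfl⟩ := k.eq_nat_or_neg
    · obtain ⟨κ, hκ, h⟩ := mix_pos z hz r hr n D
      refine ⟨κ, hκ, fun t ht' => ?_⟩
      obtain ⟨c, hc, h⟩ := h t ht'
      refine ⟨c, hc, ?_⟩
      rw [zpow_natCast]
      exact h
    · by_cases hn : n = 0
      · subst hn
        obtain ⟨κ, hκ, h⟩ := mix_pos z hz r hr 0 D
        refine ⟨κ, hκ, fun t ht' => ?_⟩
        obtain ⟨c, hc, h⟩ := h t ht'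
        refine ⟨c, hc, ?_⟩
        simpa [PairM] using h
      · obtain ⟨κ, hκ, h⟩ := mix_neg z hz r n hn D
        refine ⟨κ, hκ, fun t ht' => ?_⟩
        obtain ⟨c, hc, h⟩ := h t ht'
        refine ⟨c, hc, ?_⟩
        rw [zpow_neg, zpow_natCast, ← div_eq_mul_inv]
        exact h
  rcases i with r | k <;> rcases j with r' | k'
  · have hr : r' - r ≠ 0 := sub_ne_zero.2 fun e => hij (by rw [e])
    have hm : MeasT (z * ((r' - r : ℤ) : ℂ)) := measT_mul_alg hz _ (isAlgebraic_int _) (by exact_mod_cast hr)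
    obtain ⟨κ, hκ, h⟩ := add_core _ hm D
    refine ⟨κ, hκ, fun t _ => ?_⟩
    obtain ⟨c, hc, h⟩ := h ‖t + r * z‖
    refine ⟨c, hc, fun P Q hP hQ hPD hQD H hH hPH hQH => ?_⟩
    have h2 := h (t + r * z) le_rfl P Q hP hQ hPD hQD H hH hPH hQH
    have h3 : z * ((r' - r : ℤ) : ℂ) + (t + r * z) = t + r' * z := by push_cast; ring
    rw [h3] at h2
    exact h2
  · obtain ⟨κ, hκ, h⟩ := hmix r k' (fun h => hi (by rw [h]))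
    exact ⟨κ, hκ, fun t ht' => h t ht'.1⟩
  · obtain ⟨κ, hκ, h⟩ := hmix r' k (fun h => hj (by rw [h]))
    refine ⟨κ, hκ, fun t ht' => ?_⟩
    obtain ⟨c, hc, h⟩ := h t ht'.2
    exact ⟨c, hc, h.symm⟩
  · have hk : k' - k ≠ 0 := sub_ne_zero.2 fun e => hij (by rw [e])
    obtain ⟨κ, hκ, h⟩ := mul_core _ (measT_zpow hz (k' - k) hk) D
    refine ⟨κ, hκ, fun t ht' => ?_⟩
    obtain ⟨c, hc, h⟩ := h (t * z ^ k) ht'.1
    refine ⟨c, hc, fun P Q hP hQ hPD hQD H hH hPH hQH => ?_⟩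
    have h2 := h P Q hP hQ hPD hQD H hH hPH hQH
    have h3 : z ^ (k' - k) * (t * z ^ k) = t * z ^ k' := by
      rw [mul_comm, mul_assoc, ← zpow_add₀ hz0]
      congr 2
      ring
    rw [h3] at h2
    exact h2

/-- **the mixed family** -/
theorem fam_mix (z : ℂ) (hz : MeasT z) (F : Finset (ℤ ⊕ ℤ)) (hF : Sum.inl 0 ∉ F) (D : ℕ) :
    ∃ κ : ℝ, 0 < κ ∧ ∀ t : ℂ, (∀ i ∈ F, numC z t i ≠ 0) → ∃ C : ℝ, 0 < C ∧
      (∀ i j : F, i ≠ j → ∀ P Q : ℤ[X], P ≠ 0 → Q ≠ 0 → P.natDegree ≤ D →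
        Q.natDegree ≤ D → ∀ H : ℝ, (ht P : ℝ) ≤ H → (ht Q : ℝ) ≤ H →
        C * H ^ (-κ) ≤ max ‖aeval (numC z t i) P‖ ‖aeval (numC z t j) Q‖) ∧
      (∀ i : F, ∀ P ∈ I1 D, ∀ Q ∈ I1 D, P ≠ Q → ∀ H : ℝ, (ht P : ℝ) ≤ H → (ht Q : ℝ) ≤ H →
        C * H ^ (-κ) ≤ max ‖aeval (numC z t i) P‖ ‖aeval (numC z t i) Q‖) := by
  refine fam_of_pairs (fun (i : F) t => numC z t i) (fun t => ∀ i ∈ F, numC z t i ≠ 0) z hz D ?_
  intro i j hij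
  obtain ⟨κ, hκ, h⟩ := pair_ne z hz D i j (fun e => hij (Subtype.ext e)) (fun e => hF (e ▸ i.2))
    (fun e => hF (e ▸ j.2))
  exact ⟨κ, hκ, fun t ht' => h t ⟨ht' i i.2, ht' j j.2⟩⟩

end Pool.Agent.Q29.Mix
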