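import Pool.Agent.Q23.AQ.Comb
import Pool.Agent.Q23.AQ.LiC
import Pool.Agent.TH818.AP.LiInd
import Pool.Agent.TH818.AP.LiLoc

/-!
# Independence of periods of Legendre families, logarithms and polylogarithms (from helper23)
-/

set_option autoImplicit false

open Set Filter Topology Polynomial

namespace Pool.Agent.Q29.MixInd

open Pool.Agent Pool.Agent.TH818.AP Pool.Agent.TH818.AR Pool.Agent.TH659.AQ

abbrev Name (N M k w : ℕ) : Type := (Fin N × Fin 3) ⊕ (((Fin M × Fin 3) ⊕ Fin k) ⊕ Fin (w + 1))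

/-- the logarithms alone -/
theorem log_base (d k : ℕ) (x : Fin k → ℝ) (hx : Function.Injective x) (a b : ℝ) (hax : ∀ j, 0 < a + x j)
    (hab : a < b) : RIndep (fun (e : Fin k → Fin (d + 1)) (t : ℝ) => ∏ j, lf x j t ^ (e j : ℕ)) a b := by
  intro p hp
  obtain ⟨c, hc1, hc2⟩ : ∃ c : ℝ, c < a ∧ ∀ j, c < -x j := by
    refine ⟨a - 1 - ∑ j, |a + x j|, ?_, fun j => ?_⟩
    · have : 0 ≤ ∑ j, |a + x j| := Finset.sum_nonneg fun j _ => abs_nonneg _
      linarith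
    · have h1 : |a + x j| ≤ ∑ j, |a + x j| :=
        Finset.single_le_sum (f := fun j => |a + x j|) (fun j _ => abs_nonneg _) (Finset.mem_univ j)
      have h2 := le_abs_self (a + x j)
      linarith
  have h1 := Q23.AQ.logC d k c x hx hc2 a b hax hc1 hab (fun e t => (p e).eval t)
    (fun e t _ => AnalyticOnNhd.eval_polynomial _ t (mem_univ _)) (by
      intro t ht
      have h2 := hp t ht
      exact h2)
  funext e
  have h3 : ∀ t, c < t → (p e).eval t = 0 := h1 e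
  refine Polynomial.eq_zero_of_infinite_isRoot _ ((Set.Ioi_infinite c).mono ?_)
  intro t ht
  exact h3 t ht

/-- independence of the functions on a real interval -/
theorem ind_real {N M k : ℕ} (w : ℕ) (α γ : Fin N → ℝ) (hα : StrictAnti α) (hγ : StrictMono γ) (hα0 : ∀ j, 0 < α j)
    (hγ1 : ∀ j, γ j < 1) (α' γ' : Fin M → ℝ) (hα' : StrictAnti α') (hγ' : StrictMono γ') (hα'0 : ∀ j, α' j < 0)
    (hγ'1 : ∀ j, 1 < γ' j) (x : Fin k → ℝ) (hx : Function.Injective x) (c : ℝ) (hc : c < 0) (hcα : ∀ j, c < α' j)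
    (hcx : ∀ j, 0 < c + x j) (a b : ℝ) (ha : 0 < a) (hab : a < b) (hb : b < 1) (h : ∀ j, α j < a ∧ b < γ j) (d : ℕ) :
    RIndep (fun (e : Name N M k w → Fin (d + 1)) (t : ℝ) =>
      ∏ p, Sum.elim (fun z : Fin N × Fin 3 => KC (α z.1) (γ z.1) z.2)
        (Sum.elim (Sum.elim (fun z : Fin M × Fin 3 => KC (α' z.1) (γ' z.1) z.2) (lf x))
          (fun k : Fin (w + 1) => pl (k : ℕ))) p t ^ (e p : ℕ)) a b := by
  have hlf : ∀ j t, c < t → AnalyticAt ℝ (TH659.AQ.lf x j) t := by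
    intro j t ht
    apply TH659.AQ.lf_an
    linarith [hcx j]
  obtain ⟨y, hy1, hyγ⟩ : ∃ y : ℝ, 1 ≤ y ∧ ∀ j, γ' j < y := by
    refine ⟨1 + ∑ j, |γ' j|, ?_, fun j => ?_⟩
    · have : 0 ≤ ∑ j, |γ' j| := Finset.sum_nonneg fun j _ => abs_nonneg _
      linarith
    · have h1 : |γ' j| ≤ ∑ j, |γ' j| :=
        Finset.single_le_sum (f := fun j => |γ' j|) (fun j _ => abs_nonneg _) (Finset.mem_univ j)
      have h2 := le_abs_self (γ' j)
      linarith
  have h1 : ∀ d a' b' : _, a ≤ a' → a' < b' → b' ≤ b →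
      TH818.AP.RIndep (fun (e : ((Fin M × Fin 3) ⊕ Fin k) → Fin (d + 1)) (t : ℝ) =>
        ∏ p, Sum.elim (fun z : Fin M × Fin 3 => TH818.AP.KC (α' z.1) (γ' z.1) z.2) (TH659.AQ.lf x) p t ^ (e p : ℕ)) a' b' := by
    intro d a' b' ha' hab' hb'
    refine Q23.AQ.comb_leg (TH659.AQ.lf x) c y a' b' (by linarith) hab' (by linarith) (fun j t ht => hlf j t ht.1) ?_
      α' γ' hα' hγ' (fun j => by linarith [hα'0 j, hγ'1 j]) hcα hyγ
      (fun j => ⟨by linarith [hα'0 j], by linarith [hγ'1 j]⟩)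
    intro a'' b'' ha'' hab'' hb''
    exact log_base d k x hx a'' b'' (fun j => by linarith [hcx j]) hab''
  set u1 : ((Fin M × Fin 3) ⊕ Fin k) → ℝ → ℝ :=
    Sum.elim (fun z : Fin M × Fin 3 => TH818.AP.KC (α' z.1) (γ' z.1) z.2) (TH659.AQ.lf x) with hu1
  have hu1an : ∀ p, ∀ t ∈ Icc (0 : ℝ) 1, AnalyticAt ℝ (u1 p) t := by
    rintro (z | j) t ht
    · exact TH818.AP.kc_an _ _ (by linarith [hα'0 z.1, hγ'1 z.1]) z.2 t ((hα'0 z.1).trans_le ht.1)
        (lt_of_le_of_lt ht.2 (hγ'1 z.1))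
    · exact hlf j t (hc.trans_le ht.1)
  have h2 : ∀ d a' b' : _, a ≤ a' → a' < b' → b' ≤ b →
      TH818.AP.RIndep (fun (e : (((Fin M × Fin 3) ⊕ Fin k) ⊕ Fin (w + 1)) → Fin (d + 1)) (t : ℝ) =>
        ∏ p, Sum.elim u1 (fun k : Fin (w + 1) => TH818.AP.pl (k : ℕ)) p t ^ (e p : ℕ)) a' b' := by
    intro d
    exact Q23.AQ.comb_li u1 a b ha hab hb hu1an (fun a' b' ha' hab' hb' => h1 d a' b' ha' hab' hb')
  set u2 : (((Fin M × Fin 3) ⊕ Fin k) ⊕ Fin (w + 1)) → ℝ → ℝ :=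
    Sum.elim u1 (fun k : Fin (w + 1) => TH818.AP.pl (k : ℕ)) with hu2
  have hu2an : ∀ p, ∀ t ∈ Ioo (0 : ℝ) 1, AnalyticAt ℝ (u2 p) t := by
    rintro (z | k) t ht
    · exact hu1an z t ⟨ht.1.le, ht.2.le⟩
    · show AnalyticAt ℝ (fun t => TH818.AP.pl (k : ℕ) t) t
      simp only [TH818.AP.pl]
      by_cases hk : (k : ℕ) = 0
      · simp only [hk, if_true]
        exact analyticAt_log ht.1
      · simp only [hk, if_false]
        exact TH818.AP.liAn _ t ⟨by linarith [ht.1], ht.2⟩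
  refine Q23.AQ.comb_leg u2 0 1 a b ha.le hab hb.le hu2an ?_ α γ hα hγ
    (fun j => (h j).1.trans (hab.trans (h j).2)) hα0 hγ1 (fun j => ⟨(h j).1.le, (h j).2.le⟩)
  intro a' b' ha' hab' hb'
  exact h2 d a' b' ha' hab' hb'


theorem an_real {N M k : ℕ} (w : ℕ) (α γ : Fin N → ℝ)
    (α' γ' : Fin M → ℝ) (hα'0 : ∀ j, α' j < 0)
    (hγ'1 : ∀ j, 1 < γ' j) (x : Fin k → ℝ) (c : ℝ) (hc : c < 0)
    (hcx : ∀ j, 0 < c + x j) (a b : ℝ) (ha : 0 < a) (hab : a < b) (hb : b < 1) (h : ∀ j, α j < a ∧ b < γ j) (p : Name N M k w) :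
    AnalyticOnNhd ℝ (Sum.elim (fun z : Fin N × Fin 3 => KC (α z.1) (γ z.1) z.2)
        (Sum.elim (Sum.elim (fun z : Fin M × Fin 3 => KC (α' z.1) (γ' z.1) z.2) (lf x))
          (fun k : Fin (w + 1) => pl (k : ℕ))) p) (Icc a b) := by
  rcases p with z | ((z | j) | k) <;> intro t ht
  · exact TH818.AP.kc_an _ _ ((h z.1).1.trans (hab.trans (h z.1).2)) z.2 t ((h z.1).1.trans_le ht.1)
        (lt_of_le_of_lt ht.2 (h z.1).2)
  · exact TH818.AP.kc_an _ _ (by linarith [hα'0 z.1, hγ'1 z.1]) z.2 t (by linarith [hα'0 z.1, ht.1])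
        (by linarith [hγ'1 z.1, ht.2])
  · exact TH659.AQ.lf_an x j (by linarith [hcx j, ht.1])
  · show AnalyticAt ℝ (fun t => TH818.AP.pl (k : ℕ) t) t
    simp only [TH818.AP.pl]
    by_cases hk : (k : ℕ) = 0
    · simp only [hk, if_true]
      exact analyticAt_log (ha.trans_le ht.1)
    · simp only [hk, if_false]
      exact TH818.AP.liAn _ t ⟨by linarith [ht.1], by linarith [ht.2]⟩

end Pool.Agent.Q29.MixInd
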