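import Pool.Agent.Y777.AM.C

set_option autoImplicit false

/-! # Multiple zeta values with a large first argument are at most two -/

namespace Pool.Agent.Q29.Eqd

open Finset Pool.Agent.Y760.ZG

theorem sum_inv_sq_succ : (Summable fun k : ℕ => 1 / ((k + 1 : ℕ) : ℝ) ^ 2) ∧ ∑' k : ℕ, 1 / ((k + 1 : ℕ) : ℝ) ^ 2 ≤ 2 := by
  have h1 : Summable fun k : ℕ => 1 / ((k + 1 : ℕ) : ℝ) ^ 2 :=
    (summable_nat_add_iff (f := fun k : ℕ => 1 / ((k : ℕ) : ℝ) ^ 2) 1).2 (Real.summable_one_div_nat_pow.2 (by norm_num))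
  refine ⟨h1, ?_⟩
  have h6 := hasSum_zeta_two.summable.sum_add_tsum_nat_add 1
  rw [Finset.sum_range_one, hasSum_zeta_two.tsum_eq] at h6
  have h7 : ∑' k : ℕ, 1 / ((k + 1 : ℕ) : ℝ) ^ 2 = Real.pi ^ 2 / 6 := by
    rw [← h6]
    simp
  rw [h7]
  have h8 := Real.pi_lt_d2
  have h9 := Real.pi_pos
  have h10 : Real.pi ^ 2 ≤ 12 := by nlinarith
  linarith

theorem mz_le_two (w : List ℕ) (h : ∀ s ∈ w.head?, w.length + 1 ≤ s) : mz w ≤ 2 := by
  cases w with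
  | nil => rw [mz]; norm_num
  | cons a u =>
    have ha : u.length + 2 ≤ a := by
      have h0 := h a (by simp)
      rw [List.length_cons] at h0
      omega
    rw [mz]
    obtain ⟨h1, h2⟩ := sum_inv_sq_succ
    have h3 : ∀ k : ℕ, hr u (k + 1) / ((k + 1 : ℕ) : ℝ) ^ a ≤ 1 / ((k + 1 : ℕ) : ℝ) ^ 2 := by
      intro k
      have h4 : (1 : ℝ) ≤ ((k + 1 : ℕ) : ℝ) := by exact_mod_cast Nat.le_add_left 1 k
      rw [div_le_div_iff₀ (by positivity) (by positivity), one_mul]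
      calc hr u (k + 1) * ((k + 1 : ℕ) : ℝ) ^ 2 ≤ ((k + 1 : ℕ) : ℝ) ^ u.length * ((k + 1 : ℕ) : ℝ) ^ 2 :=
            mul_le_mul_of_nonneg_right (hr_le u (k + 1) (by omega)) (by positivity)
        _ = ((k + 1 : ℕ) : ℝ) ^ (u.length + 2) := (pow_add _ _ _).symm
        _ ≤ ((k + 1 : ℕ) : ℝ) ^ a := pow_le_pow_right₀ h4 ha
    have h5 : ∀ k : ℕ, 0 ≤ hr u (k + 1) / ((k + 1 : ℕ) : ℝ) ^ a := fun k => div_nonneg (hr_nonneg _ _) (by positivity)
    exact ((Summable.of_nonneg_of_le h5 h3 h1).tsum_le_tsum h3 h1).trans h2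

theorem abs_mz_le (w : List ℕ) (h : ∀ s ∈ w.head?, w.length + 1 ≤ s) : |mz w| ≤ 2 := by
  rw [abs_of_nonneg (Pool.Agent.Y777.AM.mz_nonneg w)]
  exact mz_le_two w h

theorem hr_ge (R : ℕ) (hR : 1 ≤ R) (l : List ℕ) : l.length ≤ R → ∀ m : ℕ, l.length < m → ((R : ℝ) ^ l.sum)⁻¹ ≤ hr l m := by
  have hR1 : (1 : ℝ) ≤ R := by exact_mod_cast hR
  induction l with
  | nil => intro _ m _; rw [hr_nil]; simp
  | cons a l ih =>
    intro h m hm
    rw [List.length_cons] at h hm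
    rw [hr_cons]
    have h1 : hr l (l.length + 1) / ((l.length + 1 : ℕ) : ℝ) ^ a ≤ ∑ j ∈ Finset.Ico 1 m, hr l j / (j : ℝ) ^ a :=
      Finset.single_le_sum (f := fun j : ℕ => hr l j / (j : ℝ) ^ a)
        (fun j _ => div_nonneg (hr_nonneg l j) (by positivity)) (Finset.mem_Ico.2 ⟨by omega, hm⟩)
    refine le_trans ?_ h1
    have h2 := ih (by omega) (l.length + 1) (by omega)
    have h3 : ((l.length + 1 : ℕ) : ℝ) ≤ R := by exact_mod_cast h
    have h4 : (0 : ℝ) < ((l.length + 1 : ℕ) : ℝ) := by exact_mod_cast Nat.succ_pos _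
    rw [List.sum_cons, add_comm, pow_add, mul_inv, div_eq_mul_inv]
    exact mul_le_mul h2 (inv_anti₀ (pow_pos h4 a) (pow_le_pow_left₀ h4.le h3 a)) (by positivity)
      (hr_nonneg l _)

theorem mz_ge (R : ℕ) (hR : 1 ≤ R) (w : List ℕ) (hw : w.length ≤ R) (h : ∀ s ∈ w.head?, w.length + 1 ≤ s) :
    ((R : ℝ) ^ w.sum)⁻¹ ≤ mz w := by
  cases w with
  | nil => rw [mz]; simp
  | cons a u =>
    have hR1 : (1 : ℝ) ≤ R := by exact_mod_cast hR
    have ha : u.length + 2 ≤ a := by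
      have h0 := h a (by simp)
      rw [List.length_cons] at h0
      omega
    rw [List.length_cons] at hw
    rw [mz]
    obtain ⟨h1, h2⟩ := sum_inv_sq_succ
    have h3 : ∀ k : ℕ, hr u (k + 1) / ((k + 1 : ℕ) : ℝ) ^ a ≤ 1 / ((k + 1 : ℕ) : ℝ) ^ 2 := by
      intro k
      have h4 : (1 : ℝ) ≤ ((k + 1 : ℕ) : ℝ) := by exact_mod_cast Nat.le_add_left 1 k
      rw [div_le_div_iff₀ (by positivity) (by positivity), one_mul]
      calc hr u (k + 1) * ((k + 1 : ℕ) : ℝ) ^ 2 ≤ ((k + 1 : ℕ) : ℝ) ^ u.length * ((k + 1 : ℕ) : ℝ) ^ 2 :=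
            mul_le_mul_of_nonneg_right (hr_le u (k + 1) (by omega)) (by positivity)
        _ = ((k + 1 : ℕ) : ℝ) ^ (u.length + 2) := (pow_add _ _ _).symm
        _ ≤ ((k + 1 : ℕ) : ℝ) ^ a := pow_le_pow_right₀ h4 ha
    have h5 : ∀ k : ℕ, 0 ≤ hr u (k + 1) / ((k + 1 : ℕ) : ℝ) ^ a := fun k => div_nonneg (hr_nonneg _ _) (by positivity)
    have h6 := (Summable.of_nonneg_of_le h5 h3 h1).le_tsum u.length (fun k _ => h5 k)
    refine le_trans ?_ h6
    have h7 := hr_ge R hR u (by omega) (u.length + 1) (by omega)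
    have h8 : ((u.length + 1 : ℕ) : ℝ) ≤ R := by exact_mod_cast hw
    have h9 : (0 : ℝ) < ((u.length + 1 : ℕ) : ℝ) := by exact_mod_cast Nat.succ_pos _
    rw [List.sum_cons, add_comm, pow_add, mul_inv, div_eq_mul_inv]
    exact mul_le_mul h7 (inv_anti₀ (pow_pos h9 a) (pow_le_pow_left₀ h9.le h8 a)) (by positivity)
      (hr_nonneg u _)

end Pool.Agent.Q29.Eqd
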