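import Pool.Agent.Q29.OvGood
import Pool.Agent.Y890.UC.Poly

set_option autoImplicit false

/-! # Tuples of integers with relations over given constants: the real form of the counting theorem -/

namespace Pool.Agent.Q29.Eqd

open Finset Pool.Agent.Y890.UC

/-- the tuples of integers up to `N` for which the value of some polynomial is small compared to one of its coefficients -/
def ExcV {κ : Type} (m g d N : ℕ) (v : Fin m → ℕ → κ → ℝ) (A B : ℝ) (ξ : Fin g → ℝ) : Set (Fin m → ℕ) :=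
  {x | (∀ j, 1 ≤ x j ∧ x j ≤ N) ∧
    ∃ P : MvPolynomial (Fin m × κ) (MvPolynomial (Fin g) ℤ), (∀ j, P.degreeOf j ≤ d) ∧
      (∀ e i, (P.coeff e).degreeOf i ≤ d) ∧ (∀ e u, |(((P.coeff e).coeff u : ℤ) : ℝ)| ≤ (N : ℝ) ^ A) ∧
      ∃ e, MvPolynomial.aeval ξ (P.coeff e) ≠ 0 ∧
        |nval ξ (fun z => v z.1 (x z.1) z.2) P| ≤ (N : ℝ) ^ (-B) * |MvPolynomial.aeval ξ (P.coeff e)|}

theorem ExcV_sub {κ : Type} (m g d N : ℕ) (v : Fin m → ℕ → κ → ℝ) (A B : ℝ) (ξ : Fin g → ℝ) :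
    ExcV m g d N v A B ξ ⊆ (Fintype.piFinset fun _ : Fin m => Finset.Icc 1 N : Finset (Fin m → ℕ)) := by
  intro t ht
  rw [Finset.mem_coe, Fintype.mem_piFinset]
  exact fun j => Finset.mem_Icc.2 (ht.1 j)

theorem ExcV_fin {κ : Type} (m g d N : ℕ) (v : Fin m → ℕ → κ → ℝ) (A B : ℝ) (ξ : Fin g → ℝ) :
    (ExcV m g d N v A B ξ).Finite :=
  (Finset.finite_toSet _).subset (ExcV_sub m g d N v A B ξ)

theorem box_card (m N : ℕ) (S : Set (Fin m → ℕ)) (hS : S ⊆ (Fintype.piFinset fun _ : Fin m => Finset.Icc 1 N : Finset (Fin m → ℕ))) :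
    (S.ncard : ℝ) ≤ (N : ℝ) ^ m := by
  have h1 := Set.ncard_le_ncard hS (Finset.finite_toSet _)
  rw [Set.ncard_coe_finset, Fintype.card_piFinset, Finset.prod_const, Finset.card_univ, Fintype.card_fin, Nat.card_Icc,
    Nat.add_sub_cancel] at h1
  exact_mod_cast h1

theorem excV_count {κ : Type} [Fintype κ] [DecidableEq κ] (m g d : ℕ) (hm : 1 ≤ m) (v : Fin m → ℕ → κ → ℝ)
    (hv : ∀ j, OneVar (fun T => IT T) (fun (x : ℕ) (i : κ) => ((v j x i : ℝ) : ℂ))) (A ε : ℝ) (hε : 0 < ε) :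
    ∃ B C : ℝ, 0 ≤ B ∧ 0 ≤ C ∧ ∀ N : ℕ, 1 ≤ N → ∀ ξ : Fin g → ℝ,
      ((ExcV m g d N v A B ξ).ncard : ℝ) ≤ C * (N : ℝ) ^ ((m : ℝ) - 1 + ε) := by
  classical
  obtain ⟨B, C, T2, hB, hC, hT2, hu⟩ := multi_arb (κ := κ) m (fun _ => fun T => IT T)
    (fun j => fun (x : ℕ) (i : κ) => ((v j x i : ℝ) : ℂ)) hv (Fin g → Fin (d + 1)) d A ε hε
  refine ⟨B, C * m + T2 ^ m, hB, by positivity, fun N hN ξ => ?_⟩
  have hN1 : (1 : ℝ) ≤ N := by exact_mod_cast hN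
  have hNp : (0 : ℝ) < N := by linarith
  have hm1 : (1 : ℝ) ≤ m := by exact_mod_cast hm
  have hone : 1 ≤ (N : ℝ) ^ ((m : ℝ) - 1 + ε) := Real.one_le_rpow hN1 (by linarith)
  have hfin := ExcV_fin m g d N v A B ξ
  rcases le_or_gt T2 (N : ℝ) with hT | hT
  · rw [Set.ncard_eq_toFinset_card _ hfin]
    have h1 := hu N hT (fun u => ∏ i, (ξ i : ℂ) ^ (u i : ℕ)) hfin.toFinset (by
      intro x hx
      have h2 := ExcV_sub m g d N v A B ξ (hfin.mem_toFinset.1 hx)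
      rw [Finset.mem_coe, Fintype.mem_piFinset] at h2
      rw [Fintype.mem_piFinset]
      intro j
      have h3 := h2 j
      simp only [IT, Nat.floor_natCast]
      exact h3) (by
      intro x hx
      obtain ⟨hx1, P, hPd, hPc, hPh, e, he0, hes⟩ := hfin.mem_toFinset.1 hx
      -- the coefficients
      set c : (Fin m → κ → Fin (d + 1)) → (Fin g → Fin (d + 1)) → ℤ := fun e u =>
        (P.coeff (sO fun z : Fin m × κ => e z.1 z.2)).coeff (sO u) with hc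
      obtain ⟨φ, hφ⟩ : ∃ φ : MvPolynomial (Fin g) ℤ →+* ℂ,
        φ = (algebraMap ℝ ℂ).comp (MvPolynomial.aeval ξ : MvPolynomial (Fin g) ℤ →ₐ[ℤ] ℝ).toRingHom := ⟨_, rfl⟩
      have hφ1 : ∀ R, φ R = ((MvPolynomial.aeval ξ R : ℝ) : ℂ) := fun R => by rw [hφ]; rfl
      have hφ2 : ∀ R : MvPolynomial (Fin g) ℤ, MvPolynomial.aeval (fun i => (ξ i : ℂ)) R = φ R := by
        intro R
        have h5 : (MvPolynomial.aeval (fun i => (ξ i : ℂ)) : MvPolynomial (Fin g) ℤ →ₐ[ℤ] ℂ).toRingHom = φ := by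
          rw [hφ]
          apply MvPolynomial.ringHom_ext
          · intro r
            simp
          · intro i
            simp
        rw [← h5]
        rfl
      have hcoef : ∀ e : Fin m → κ → Fin (d + 1), ∑ u : Fin g → Fin (d + 1), (∏ i, (ξ i : ℂ) ^ (u i : ℕ)) * (c e u : ℂ) =
          φ (P.coeff (sO fun z : Fin m × κ => e z.1 z.2)) := by
        intro e
        rw [← hφ2, MvPolynomial.aeval_def, eval₂_eq_sum (d := d) _ _ _ (hPc _)]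
        refine Finset.sum_congr rfl fun u _ => ?_
        simp only [hc]
        rw [mul_comm]
        simp
      obtain ⟨e1, he1⟩ := exists_sO P hPd e (by
        rw [MvPolynomial.mem_support_iff]
        intro h0
        rw [h0, map_zero] at he0
        exact he0 rfl)
      refine ⟨c, fun e u => hPh _ _, fun j i => e1 (j, i), ?_, ?_⟩
      · have h9 := hcoef (fun j i => e1 (j, i))
        rw [he1] at h9
        rw [h9, hφ1]
        exact_mod_cast he0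
      · beta_reduce
        rw [hcoef (fun j i => e1 (j, i)), he1, hφ1, Complex.norm_real, Real.norm_eq_abs]
        refine le_trans (le_of_eq ?_) hes
        rw [← Real.norm_eq_abs, ← Complex.norm_real]
        congr 1
        have h6 : ((nval ξ (fun z => v z.1 (x z.1) z.2) P : ℝ) : ℂ) =
            MvPolynomial.eval₂ φ (fun z : Fin m × κ => ((v z.1 (x z.1) z.2 : ℝ) : ℂ)) P := by
          unfold nval
          rw [hφ]
          exact MvPolynomial.hom_eval₂ P _ (algebraMap ℝ ℂ) _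
        rw [h6, eval₂_eq_sum (d := d) _ _ _ hPd]
        refine Fintype.sum_equiv (Equiv.curry (Fin m) κ (Fin (d + 1))).symm _ _ fun e => ?_
        rw [hcoef]
        have h4 : (Equiv.curry (Fin m) κ (Fin (d + 1))).symm e = fun z : Fin m × κ => e z.1 z.2 := rfl
        rw [h4]
        congr 1
        rw [mg, Fintype.prod_prod_type])
    refine h1.trans ?_
    rw [Mg_const]
    have h2 : ((IT (N : ℝ)).card : ℝ) = N := by
      simp [IT]
    rw [h2]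
    have h3 : (N : ℝ) ^ ((m : ℝ) - 1 + ε) = (N : ℝ) ^ (m - 1) * (N : ℝ) ^ ε := by
      rw [Real.rpow_add hNp, ← Real.rpow_natCast, Nat.cast_sub hm, Nat.cast_one]
    rw [h3]
    have h4 : 0 ≤ (N : ℝ) ^ (m - 1) * (N : ℝ) ^ ε := by positivity
    have h5 : (0 : ℝ) ≤ T2 ^ m := by positivity
    calc C * (N : ℝ) ^ ε * (m * (N : ℝ) ^ (m - 1)) = C * m * ((N : ℝ) ^ (m - 1) * (N : ℝ) ^ ε) := by ring
      _ ≤ (C * m + T2 ^ m) * ((N : ℝ) ^ (m - 1) * (N : ℝ) ^ ε) := mul_le_mul_of_nonneg_right (by linarith) h4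
  · have h2 := box_card m N _ (ExcV_sub m g d N v A B ξ)
    have h3 : (N : ℝ) ^ m ≤ T2 ^ m := pow_le_pow_left₀ hNp.le hT.le m
    have h4 : 0 ≤ C * m := by positivity
    have h5 : (0 : ℝ) ≤ T2 ^ m := by positivity
    calc ((ExcV m g d N v A B ξ).ncard : ℝ) ≤ T2 ^ m := h2.trans h3
      _ ≤ (C * m + T2 ^ m) * 1 := by linarith
      _ ≤ (C * m + T2 ^ m) * (N : ℝ) ^ ((m : ℝ) - 1 + ε) := mul_le_mul_of_nonneg_left hone (by linarith)

/-- the tuples of integers up to `N` for which the multiples of some nonconstant value are not uniformly distributed -/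
def BadV {κ : Type} (m g d N K : ℕ) (v : Fin m → ℕ → κ → ℝ) (κ₀ B E h : ℝ) (ξ : Fin g → ℝ) : Set (Fin m → ℕ) :=
  {x | (∀ j, 1 ≤ x j ∧ x j ≤ N) ∧ ∃ M : ℕ, (N : ℝ) ^ B ≤ (M : ℝ) ∧ (M : ℝ) ≤ (N : ℝ) ^ E ∧
    ∃ P : MvPolynomial (Fin m × κ) (MvPolynomial (Fin g) ℤ), (∀ j, P.degreeOf j ≤ d) ∧
      (∀ e i, (P.coeff e).degreeOf i ≤ d) ∧ (∀ e u, |(((P.coeff e).coeff u : ℤ) : ℝ)| ≤ (M : ℝ) ^ κ₀) ∧
      (∃ e, e ≠ 0 ∧ (N : ℝ) ^ (-h) ≤ |MvPolynomial.aeval ξ (P.coeff e)|) ∧ ¬ Good κ₀ K M (nval ξ (fun z => v z.1 (x z.1) z.2) P)}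

theorem badV_count {κ : Type} [Fintype κ] [DecidableEq κ] (m g d K : ℕ) (hm : 1 ≤ m) (v : Fin m → ℕ → κ → ℝ)
    (hv : ∀ j, OneVar (fun T => IT T) (fun (x : ℕ) (i : κ) => ((v j x i : ℝ) : ℂ))) (H ε : ℝ) (hH : 0 ≤ H) (hε : 0 < ε)
    (hvH : ∃ N₁ : ℕ, ∀ N : ℕ, N₁ ≤ N → ∀ j x i, 1 ≤ x → x ≤ N → |v j x i| ≤ (N : ℝ) ^ H) :
    ∃ B : ℝ, 1 ≤ B ∧ ∀ E : ℝ, ∃ κ₀ C : ℝ, 0 < κ₀ ∧ ∀ N : ℕ, 1 ≤ N → ∀ ξ : Fin g → ℝ, (∀ i, |ξ i| ≤ (N : ℝ) ^ H) →
      (BadV m g d N K v κ₀ B E H ξ).Finite ∧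
      ((BadV m g d N K v κ₀ B E H ξ).ncard : ℝ) ≤ C * (N : ℝ) ^ ((m : ℝ) - 1 + ε) := by
  classical
  obtain ⟨N₁, hN₁⟩ := hvH
  obtain ⟨A, hA⟩ : ∃ A : ℝ, A = H * (d * (Fintype.card (Fin g) + Fintype.card (Fin m × κ))) + 2 := ⟨_, rfl⟩
  obtain ⟨B, C, hB, hC, hcount⟩ := excV_count m g d hm v hv A ε hε
  refine ⟨2 * (B + H) + 1, by linarith, fun E => ?_⟩
  obtain ⟨κ₀, hκ₀, T₀, hT₀, hgood⟩ := nested_good (G := Fin g) (τ := Fin m × κ) d K E H B A H hH hB hH (le_of_eq hA.symm)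
  refine ⟨κ₀, C + (max T₀ N₁) ^ m, hκ₀, fun N hN ξ hξ => ?_⟩
  have hN1 : (1 : ℝ) ≤ N := by exact_mod_cast hN
  have hm1 : (1 : ℝ) ≤ m := by exact_mod_cast hm
  have hone : 1 ≤ (N : ℝ) ^ ((m : ℝ) - 1 + ε) := Real.one_le_rpow hN1 (by linarith)
  have hbox : BadV m g d N K v κ₀ (2 * (B + H) + 1) E H ξ ⊆
      (Fintype.piFinset fun _ : Fin m => Finset.Icc 1 N : Finset (Fin m → ℕ)) := by
    intro t ht
    rw [Finset.mem_coe, Fintype.mem_piFinset]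
    exact fun j => Finset.mem_Icc.2 (ht.1 j)
  have hmax : (0 : ℝ) ≤ (max T₀ N₁) ^ m := by
    have : 0 ≤ max T₀ (N₁ : ℝ) := le_max_of_le_right (Nat.cast_nonneg _)
    positivity
  refine ⟨(Finset.finite_toSet _).subset hbox, ?_⟩
  rcases le_or_gt (max T₀ (N₁ : ℝ)) (N : ℝ) with hT | hT
  · have hTN : T₀ ≤ N := (le_max_left _ _).trans hT
    have hNN : N₁ ≤ N := by exact_mod_cast (le_max_right _ _).trans hT
    have hsub : BadV m g d N K v κ₀ (2 * (B + H) + 1) E H ξ ⊆ ExcV m g d N v A B ξ := by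
      rintro x ⟨hx, M, hM1, hM2, P, hPd, hPc, hPh, hPe, hbad⟩
      refine ⟨hx, ?_⟩
      by_contra hcon
      push Not at hcon
      apply hbad
      refine hgood N hTN ξ _ hξ (fun z => hN₁ N hNN z.1 (x z.1) z.2 (hx z.1).1 (hx z.1).2)
        (fun P hPd hPc hPh e he => hcon P hPd hPc hPh e he) M hM1 hM2 P hPd hPc hPh hPe
    have h1 := Set.ncard_le_ncard hsub (ExcV_fin m g d N v A B ξ)
    have h2 := hcount N hN ξ
    calc ((BadV m g d N K v κ₀ (2 * (B + H) + 1) E H ξ).ncard : ℝ) ≤ ((ExcV m g d N v A B ξ).ncard : ℝ) := by exact_mod_cast h1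
      _ ≤ C * (N : ℝ) ^ ((m : ℝ) - 1 + ε) := h2
      _ ≤ _ := mul_le_mul_of_nonneg_right (by linarith) (by linarith)
  · have h2 := box_card m N _ hbox
    have h3 : (N : ℝ) ^ m ≤ (max T₀ N₁) ^ m := pow_le_pow_left₀ (by linarith) hT.le m
    calc ((BadV m g d N K v κ₀ (2 * (B + H) + 1) E H ξ).ncard : ℝ) ≤ (max T₀ N₁) ^ m := h2.trans h3
      _ ≤ (C + (max T₀ N₁) ^ m) * 1 := by linarith
      _ ≤ (C + (max T₀ N₁) ^ m) * (N : ℝ) ^ ((m : ℝ) - 1 + ε) := mul_le_mul_of_nonneg_left hone (by linarith)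

end Pool.Agent.Q29.Eqd
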