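import Pool.Agent.Q29.OvLog
import Pool.Agent.TH659.AQ.StrRank

set_option autoImplicit false

/-! # Determinants of linear forms in logarithms of integers and one arbitrary constant -/

namespace Pool.Agent.Q29.Eqd

open Finset Pool.Agent.TH659.AQ

/-- a polynomial in two sets of variables, as a polynomial with polynomial coefficients -/
noncomputable def nest {S G : Type} (P : MvPolynomial (S ⊕ G) ℤ) : MvPolynomial S (MvPolynomial G ℤ) :=
  ∑ s ∈ P.support, MvPolynomial.monomial (Finsupp.sumFinsuppEquivProdFinsupp s).1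
    (MvPolynomial.monomial (Finsupp.sumFinsuppEquivProdFinsupp s).2 (P.coeff s))

theorem coeff_nest {S G : Type} (P : MvPolynomial (S ⊕ G) ℤ) (e : S →₀ ℕ) (u : G →₀ ℕ) :
    ((nest P).coeff e).coeff u = P.coeff (Finsupp.sumFinsuppEquivProdFinsupp.symm (e, u)) := by
  classical
  unfold nest
  simp only [MvPolynomial.coeff_sum, MvPolynomial.coeff_monomial]
  rw [Finset.sum_eq_single (Finsupp.sumFinsuppEquivProdFinsupp.symm (e, u))]
  · rw [Equiv.apply_symm_apply, if_pos rfl, MvPolynomial.coeff_monomial, if_pos rfl]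
  · intro s _ hne
    split_ifs with h1
    · rw [MvPolynomial.coeff_monomial, if_neg]
      intro h2
      apply hne
      rw [← h1, ← h2]
      exact (Equiv.symm_apply_apply _ _).symm
    · rw [MvPolynomial.coeff_zero]
  · intro h
    rw [Equiv.apply_symm_apply, if_pos rfl, MvPolynomial.coeff_monomial, if_pos rfl]
    exact MvPolynomial.notMem_support_iff.1 h

theorem nval_nest {S G : Type} [Fintype S] [Fintype G] (P : MvPolynomial (S ⊕ G) ℤ) (ξ : G → ℝ) (y : S → ℝ) :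
    nval ξ y (nest P) = MvPolynomial.aeval (Sum.elim y ξ) P := by
  unfold nval nest
  rw [MvPolynomial.eval₂_sum, MvPolynomial.aeval_def, MvPolynomial.eval₂_eq']
  refine Finset.sum_congr rfl fun s _ => ?_
  rw [MvPolynomial.eval₂_monomial]
  rw [AlgHom.toRingHom_eq_coe, RingHom.coe_coe, MvPolynomial.aeval_monomial]
  rw [Finsupp.prod_fintype _ _ (fun i => pow_zero _), Finsupp.prod_fintype _ _ (fun i => pow_zero _), Fintype.prod_sum_type,
    mul_assoc]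
  congr 1
  rw [mul_comm]
  rfl

theorem degree_nest {S G : Type} (P : MvPolynomial (S ⊕ G) ℤ) (d : ℕ) (h : ∀ z, P.degreeOf z ≤ d) :
    (∀ j, (nest P).degreeOf j ≤ d) ∧ (∀ e i, ((nest P).coeff e).degreeOf i ≤ d) := by
  classical
  constructor
  · intro j
    rw [MvPolynomial.degreeOf_le_iff]
    intro e he
    rw [MvPolynomial.mem_support_iff] at he
    obtain ⟨u, hu⟩ := MvPolynomial.ne_zero_iff.1 he
    rw [coeff_nest] at hu
    have h1 := (MvPolynomial.degreeOf_le_iff.1 (h (Sum.inl j))) _ (MvPolynomial.mem_support_iff.2 hu)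
    simpa using h1
  · intro e i
    rw [MvPolynomial.degreeOf_le_iff]
    intro u hu
    rw [MvPolynomial.mem_support_iff, coeff_nest] at hu
    have h1 := (MvPolynomial.degreeOf_le_iff.1 (h (Sum.inr i))) _ (MvPolynomial.mem_support_iff.2 hu)
    simpa using h1

theorem nest_zero {S G : Type} (P : MvPolynomial (S ⊕ G) ℤ) (h : ∀ e, (nest P).coeff e = 0) : P = 0 := by
  classical
  ext s
  have h1 := coeff_nest P (Finsupp.sumFinsuppEquivProdFinsupp s).1 (Finsupp.sumFinsuppEquivProdFinsupp s).2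
  rw [h, MvPolynomial.coeff_zero, Prod.mk.eta, Equiv.symm_apply_apply] at h1
  rw [← h1, MvPolynomial.coeff_zero]

/-- the degree of the monomials of the determinant -/
theorem det_hom {σ : Type} [Fintype σ] [DecidableEq σ] {r : ℕ} (c : Fin r → Fin r → σ → ℤ) (s : σ →₀ ℕ)
    (hs : (linMat c).det.coeff s ≠ 0) : ∑ i, s i = r := by
  rw [det_linMat] at hs
  simp only [MvPolynomial.coeff_sum, MvPolynomial.coeff_monomial] at hs
  obtain ⟨p, -, hp⟩ := Finset.exists_ne_zero_of_sum_ne_zero hs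
  obtain ⟨f, -, hf⟩ := Finset.exists_ne_zero_of_sum_ne_zero hp
  have h : expo f = s := by
    by_contra h
    exact hf (if_neg h)
  rw [← h]
  unfold expo
  simp only [Finsupp.finsetSum_apply]
  rw [Finset.sum_comm]
  simp [Finsupp.single_apply]

/-- the coefficients of the determinant, as polynomials in the constant, are monomials -/
theorem aeval_coeff {S : Type} [Fintype S] [DecidableEq S] {r : ℕ} (c : Fin r → Fin r → (S ⊕ Fin 1) → ℤ) (t : ℝ) (e : S →₀ ℕ)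
    (he : (nest (linMat c).det).coeff e ≠ 0) : ∃ n : ℤ, n ≠ 0 ∧
      MvPolynomial.aeval (fun _ : Fin 1 => t) ((nest (linMat c).det).coeff e) = n * t ^ (r - ∑ i, e i) := by
  classical
  have hu : ∀ u, ((nest (linMat c).det).coeff e).coeff u ≠ 0 → u = Finsupp.single 0 (r - ∑ i, e i) := by
    intro u hu
    rw [coeff_nest] at hu
    have h1 := det_hom c _ hu
    rw [Fintype.sum_sum_type] at h1
    simp only [Finsupp.sumFinsuppEquivProdFinsupp_symm_inl, Finsupp.sumFinsuppEquivProdFinsupp_symm_inr, Fin.sum_univ_one] at h1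
    refine Finsupp.ext fun i => ?_
    rw [Fin.fin_one_eq_zero i, Finsupp.single_eq_same]
    omega
  obtain ⟨u₀, hu₀⟩ := MvPolynomial.ne_zero_iff.1 he
  have h0 := hu u₀ hu₀
  rw [h0] at hu₀
  refine ⟨_, hu₀, ?_⟩
  have h2 : (nest (linMat c).det).coeff e = MvPolynomial.monomial (Finsupp.single 0 (r - ∑ i, e i))
      (((nest (linMat c).det).coeff e).coeff (Finsupp.single 0 (r - ∑ i, e i))) := by
    ext u
    rw [MvPolynomial.coeff_monomial]
    split_ifs with h3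
    · rw [h3]
    · by_contra h4
      exact h3 (hu u h4).symm
  conv_lhs => rw [h2]
  rw [MvPolynomial.aeval_monomial]
  congr 1
  exact Finsupp.prod_single_index (h := fun (_ : Fin 1) (k : ℕ) => t ^ k) (pow_zero _)

theorem det_ov (m r K : ℕ) (hm : 1 ≤ m) (hr : 1 ≤ r) (H ε : ℝ) (hH : 0 ≤ H) (hε : 0 < ε) :
    ∃ B : ℝ, 1 ≤ B ∧ ∀ E : ℝ, ∃ κ C : ℝ, 0 < κ ∧ ∀ N : ℕ, 1 ≤ N → ∀ t : ℝ, (N : ℝ) ^ (-H) ≤ |t| → |t| ≤ (N : ℝ) ^ H →
      ∃ S : Set (Fin m → ℕ), S.Finite ∧ (S.ncard : ℝ) ≤ C * (N : ℝ) ^ ((m : ℝ) - 1 + ε) ∧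
        ∀ x : Fin m → ℕ, (∀ j, 1 ≤ x j ∧ x j ≤ N) → x ∉ S →
          ∀ M : ℕ, (N : ℝ) ^ B ≤ (M : ℝ) → (M : ℝ) ≤ (N : ℝ) ^ E →
            ∀ c : Fin r → Fin r → (Fin m ⊕ Fin 1) → ℤ, (∀ i j z, |(c i j z : ℝ)| ≤ (M : ℝ) ^ κ) →
            ∀ Δ : ℝ, Δ = (Matrix.of fun i j => ∑ z, (c i j z : ℝ) * Sum.elim (fun j => Real.log (x j)) (fun _ => t) z).det →
              ((∃ n : ℤ, Δ = n * t ^ r) ∨ Good κ K M Δ) ∧
              (Δ = 0 → ∃ w v : Fin r → ℚ, w ≠ 0 ∧ v ≠ 0 ∧ ∀ z, ∑ i, ∑ j, w i * (c i j z : ℚ) * v j = 0) := by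
  classical
  obtain ⟨A, hA⟩ : ∃ A : ℝ, A = (H + 1) * (r * (Fintype.card (Fin 1) + Fintype.card (Fin m))) + 2 := ⟨_, rfl⟩
  obtain ⟨B, C, hB, hC, hcount⟩ := excR_count m 1 r hm A ε hε
  have hHr : 0 ≤ H * r := by positivity
  refine ⟨2 * (B + H * r) + 1, by linarith, fun E => ?_⟩
  obtain ⟨κ', hκ', T₀, hT₀, hgood⟩ := nested_good (G := Fin 1) (τ := Fin m) r K E (H + 1) B A (H * r)
    (by linarith) hB hHr (le_of_eq hA.symm)
  have hrR : (1 : ℝ) ≤ r := by exact_mod_cast hr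
  have hA2 : (2 : ℝ) ≤ A := by
    rw [hA]
    have : 0 ≤ (H + 1) * (r * ((Fintype.card (Fin 1) : ℝ) + Fintype.card (Fin m))) := by positivity
    linarith
  obtain ⟨E', hE'⟩ : ∃ E' : ℝ, E' = max E 1 := ⟨_, rfl⟩
  have hE'1 : 1 ≤ E' := by rw [hE']; exact le_max_right _ _
  have hEE' : E ≤ E' := by rw [hE']; exact le_max_left _ _
  obtain ⟨κ'', hκ''E⟩ : ∃ κ'' : ℝ, κ'' = min κ' (1 / E') := ⟨_, rfl⟩
  have hκ'' : 0 < κ'' := by rw [hκ''E]; exact lt_min hκ' (by positivity)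
  have hκκ : κ'' ≤ κ' := by rw [hκ''E]; exact min_le_left _ _
  have hκE : κ'' * E' ≤ 1 := by
    calc κ'' * E' ≤ 1 / E' * E' := mul_le_mul_of_nonneg_right (by rw [hκ''E]; exact min_le_right _ _) (by linarith)
      _ = 1 := by field_simp
  obtain ⟨κ, hκdef⟩ : ∃ κ : ℝ, κ = κ'' / (2 * r) := ⟨_, rfl⟩
  have hκ : 0 < κ := by rw [hκdef]; positivity
  have hκm : κ * r = κ'' / 2 := by
    rw [hκdef]
    field_simp
  have hκκ'' : κ ≤ κ'' := by nlinarith
  obtain ⟨L, hL⟩ : ∃ L : ℝ, L = (r.factorial : ℝ) * (Fintype.card (Fin m ⊕ Fin 1) : ℝ) ^ r := ⟨_, rfl⟩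
  have hL0 : 0 ≤ L := by rw [hL]; positivity
  have hlim : Filter.Tendsto (fun T : ℝ => T ^ (κ'' / 2)) Filter.atTop Filter.atTop := tendsto_rpow_atTop (by positivity)
  obtain ⟨T₂, hT₂⟩ := Filter.eventually_atTop.1 (hlim.eventually_ge_atTop L)
  refine ⟨κ, C + (max (max T₀ T₂) 1) ^ m, hκ, fun N hN t ht1 ht2 => ?_⟩
  have hN1 : (1 : ℝ) ≤ N := by exact_mod_cast hN
  have hN0 : (0 : ℝ) < N := by linarith
  obtain ⟨S, hS⟩ : ∃ S : Set (Fin m → ℕ), S = {x | (∀ j, 1 ≤ x j ∧ x j ≤ N) ∧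
      (max T₀ T₂ ≤ N → x ∈ ExcR m 1 r N A B (fun _ => t))} := ⟨_, rfl⟩
  obtain ⟨hSf, hSc⟩ := excR_transfer m 1 r hm A B C ε (max T₀ T₂) hε hC hcount N hN (fun _ => t) S
    (fun x hx => by rw [hS] at hx; exact hx.1) (fun hT x hx => by rw [hS] at hx; exact hx.2 hT)
  refine ⟨S, hSf, hSc, fun x hx hxS M hM1 hM2 c hc Δ hΔ => ?_⟩
  have hxS' : max T₀ T₂ ≤ N ∧ x ∉ ExcR m 1 r N A B (fun _ => t) := by
    by_contra hcon
    apply hxS
    rw [hS]
    refine ⟨hx, fun hT => ?_⟩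
    by_contra h1
    exact hcon ⟨hT, h1⟩
  obtain ⟨hT, hnot⟩ := hxS'
  have hTT₀ : T₀ ≤ N := (le_max_left _ _).trans hT
  have hTT₂ : T₂ ≤ N := (le_max_right _ _).trans hT
  have hNM : (N : ℝ) ≤ M := by
    calc (N : ℝ) = (N : ℝ) ^ (1 : ℝ) := (Real.rpow_one _).symm
      _ ≤ (N : ℝ) ^ (2 * (B + H * r) + 1) := Real.rpow_le_rpow_of_exponent_le hN1 (by linarith)
      _ ≤ M := hM1
  have hM1' : (1 : ℝ) ≤ M := hN1.trans hNM
  have hM0 : (0 : ℝ) < M := by linarith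
  have hMpos : 1 ≤ M := by exact_mod_cast hM1'
  have hmeas : ∀ P : MvPolynomial (Fin m) (MvPolynomial (Fin 1) ℤ), (∀ j, P.degreeOf j ≤ r) →
      (∀ e i, (P.coeff e).degreeOf i ≤ r) → (∀ e u, |(((P.coeff e).coeff u : ℤ) : ℝ)| ≤ (N : ℝ) ^ A) →
      ∀ e, MvPolynomial.aeval (fun _ : Fin 1 => t) (P.coeff e) ≠ 0 →
        (N : ℝ) ^ (-B) * |MvPolynomial.aeval (fun _ : Fin 1 => t) (P.coeff e)| <
          |nval (fun _ : Fin 1 => t) (fun j => Real.log (x j)) P| := by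
    intro P hPd hPc hPh e he
    by_contra hcon
    push Not at hcon
    exact hnot ⟨hx, P, hPd, hPc, hPh, e, he, hcon⟩
  obtain ⟨P, hPE⟩ : ∃ P : MvPolynomial (Fin m) (MvPolynomial (Fin 1) ℤ), P = nest (linMat c).det := ⟨_, rfl⟩
  have hval : nval (fun _ : Fin 1 => t) (fun j => Real.log (x j)) P = Δ := by
    rw [hPE, nval_nest, hΔ]
    exact eval_det c _
  obtain ⟨hPd, hPc⟩ := degree_nest (linMat c).det r (degree_det c)
  rw [← hPE] at hPd hPc
  have hPh : ∀ e u, |(((P.coeff e).coeff u : ℤ) : ℝ)| ≤ (M : ℝ) ^ κ'' := by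
    intro e u
    rw [hPE, coeff_nest]
    refine (coeff_det c _ ((M : ℝ) ^ κ) hc).trans ?_
    rw [← hL, ← Real.rpow_natCast ((M : ℝ) ^ κ) r, ← Real.rpow_mul hM0.le, hκm]
    have h1 : L ≤ (M : ℝ) ^ (κ'' / 2) := (hT₂ N hTT₂).trans (Real.rpow_le_rpow hN0.le hNM (by positivity))
    calc L * (M : ℝ) ^ (κ'' / 2) ≤ (M : ℝ) ^ (κ'' / 2) * (M : ℝ) ^ (κ'' / 2) := mul_le_mul_of_nonneg_right h1 (by positivity)
      _ = (M : ℝ) ^ κ'' := by rw [← Real.rpow_add hM0]; congr 1; ring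
  have hMN : (M : ℝ) ^ κ'' ≤ (N : ℝ) ^ A := by
    calc (M : ℝ) ^ κ'' ≤ ((N : ℝ) ^ E) ^ κ'' := Real.rpow_le_rpow hM0.le hM2 hκ''.le
      _ = (N : ℝ) ^ (E * κ'') := by rw [← Real.rpow_mul hN0.le]
      _ ≤ (N : ℝ) ^ A := by
          apply Real.rpow_le_rpow_of_exponent_le hN1
          calc E * κ'' ≤ E' * κ'' := mul_le_mul_of_nonneg_right hEE' hκ''.le
            _ ≤ 1 := by rw [mul_comm]; exact hκE
            _ ≤ A := by linarith
  have hcoef : ∀ e, P.coeff e ≠ 0 → (N : ℝ) ^ (-(H * r)) ≤ |MvPolynomial.aeval (fun _ : Fin 1 => t) (P.coeff e)| := by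
    intro e he
    rw [hPE] at he ⊢
    obtain ⟨n, hn, hval⟩ := aeval_coeff c t e he
    rw [hval, abs_mul, abs_pow]
    have h1 : (1 : ℝ) ≤ |(n : ℝ)| := by exact_mod_cast Int.one_le_abs hn
    have h2 : (N : ℝ) ^ (-(H * r)) ≤ |t| ^ (r - ∑ i, e i) := by
      calc (N : ℝ) ^ (-(H * r)) ≤ ((N : ℝ) ^ (-H)) ^ (r - ∑ i, e i) := by
            rw [← Real.rpow_natCast, ← Real.rpow_mul hN0.le]
            apply Real.rpow_le_rpow_of_exponent_le hN1
            have h3 : ((r - ∑ i, e i : ℕ) : ℝ) ≤ r := by exact_mod_cast Nat.sub_le _ _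
            nlinarith
        _ ≤ _ := pow_le_pow_left₀ (Real.rpow_nonneg hN0.le _) ht1 _
    have h3 : 0 < (N : ℝ) ^ (-(H * r)) := Real.rpow_pos_of_pos hN0 _
    nlinarith
  have hξ : ∀ i : Fin 1, |(fun _ : Fin 1 => t) i| ≤ (N : ℝ) ^ (H + 1) := fun _ =>
    ht2.trans (Real.rpow_le_rpow_of_exponent_le hN1 (by linarith))
  have hlog : ∀ j, |Real.log (x j)| ≤ (N : ℝ) ^ (H + 1) := fun j =>
    log_le_rpow N (x j) (hx j).1 (hx j).2 (H + 1) (by linarith)
  refine ⟨?_, fun hΔ0 => ?_⟩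
  · by_cases hnc : ∃ e, e ≠ 0 ∧ P.coeff e ≠ 0
    · right
      obtain ⟨e, he0, he⟩ := hnc
      rw [← hval]
      refine (hgood N hTT₀ _ _ hξ hlog hmeas M hM1 hM2 P hPd hPc
        (fun e u => (hPh e u).trans (Real.rpow_le_rpow_of_exponent_le hM1' hκκ)) ⟨e, he0, hcoef e he⟩).mono hMpos
        (hκκ''.trans hκκ) le_rfl
    · left
      push Not at hnc
      have h1 : P = MvPolynomial.C (P.coeff 0) := by
        ext1 e
        rw [MvPolynomial.coeff_C]
        split_ifs with h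
        · rw [← h]
        · exact hnc e (fun h2 => h h2.symm)
      have h2 : Δ = MvPolynomial.aeval (fun _ : Fin 1 => t) (P.coeff 0) := by
        rw [← hval]
        unfold nval
        conv_lhs => rw [h1]
        rw [MvPolynomial.eval₂_C]
        rfl
      by_cases h0 : P.coeff 0 = 0
      · refine ⟨0, ?_⟩
        rw [h2, h0, map_zero]
        simp
      · rw [hPE] at h0 h2
        obtain ⟨n, -, hn⟩ := aeval_coeff c t 0 h0
        refine ⟨n, ?_⟩
        rw [h2, hn]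
        simp
  · by_cases hP0 : ∀ e, P.coeff e = 0
    · rw [hPE] at hP0
      exact zero_det c (nest_zero _ hP0)
    · exfalso
      push Not at hP0
      obtain ⟨e, he⟩ := hP0
      have h1 : 0 < (N : ℝ) ^ (-(H * r)) := Real.rpow_pos_of_pos hN0 _
      have h2 := hcoef e he
      have h3 := hmeas P hPd hPc (fun e u => (hPh e u).trans hMN) e (fun h0 => by
        rw [h0, abs_zero] at h2
        linarith)
      rw [hval, hΔ0, abs_zero] at h3
      have h4 : 0 ≤ (N : ℝ) ^ (-B) * |MvPolynomial.aeval (fun _ : Fin 1 => t) (P.coeff e)| := by positivity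
      linarith

end Pool.Agent.Q29.Eqd
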