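import Pool.Agent.Q29.OvGood

set_option autoImplicit false

/-! # Values of polynomials whose coefficients are polynomials in given constants: coefficients up to a power of the size -/

namespace Pool.Agent.Q29.Eqd

open Finset

/-- no value of a polynomial with coefficients in `ℤ[ξ]` is small compared to one of its coefficients: the multiples of all
nonconstant values are uniformly distributed; integer coefficients up to `T ^ A₁` -/
theorem nested_good2 {G τ : Type} [Fintype G] [DecidableEq G] [Fintype τ] [DecidableEq τ] (d K : ℕ) (E H B A h A₁ : ℝ)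
    (hH : 0 ≤ H) (hB : 0 ≤ B) (hh : 0 ≤ h) (hA₁ : 0 ≤ A₁)
    (hA : A₁ + H * (d * (Fintype.card G + Fintype.card τ)) + 2 ≤ A) :
    ∃ κ : ℝ, 0 < κ ∧ ∃ T₀ : ℝ, 1 ≤ T₀ ∧ ∀ T : ℝ, T₀ ≤ T → ∀ (ξ : G → ℝ) (y : τ → ℝ),
      (∀ i, |ξ i| ≤ T ^ H) → (∀ j, |y j| ≤ T ^ H) →
      (∀ P : MvPolynomial τ (MvPolynomial G ℤ), (∀ j, P.degreeOf j ≤ d) → (∀ e i, (P.coeff e).degreeOf i ≤ d) →
        (∀ e u, |(((P.coeff e).coeff u : ℤ) : ℝ)| ≤ T ^ A) → ∀ e, MvPolynomial.aeval ξ (P.coeff e) ≠ 0 →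
          T ^ (-B) * |MvPolynomial.aeval ξ (P.coeff e)| < |nval ξ y P|) →
      ∀ M : ℕ, T ^ (2 * (B + h) + 1) ≤ (M : ℝ) → (M : ℝ) ≤ T ^ E → ∀ P : MvPolynomial τ (MvPolynomial G ℤ),
        (∀ j, P.degreeOf j ≤ d) → (∀ e i, (P.coeff e).degreeOf i ≤ d) →
        (∀ e u, |(((P.coeff e).coeff u : ℤ) : ℝ)| ≤ T ^ A₁) →
        (∃ e, e ≠ 0 ∧ T ^ (-h) ≤ |MvPolynomial.aeval ξ (P.coeff e)|) → Good κ K M (nval ξ y P) := by
  obtain ⟨E', hE'⟩ : ∃ E' : ℝ, E' = max E 1 := ⟨_, rfl⟩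
  have hE'1 : 1 ≤ E' := by rw [hE']; exact le_max_right _ _
  have hEE' : E ≤ E' := by rw [hE']; exact le_max_left _ _
  obtain ⟨δ, hδE⟩ : ∃ δ : ℝ, δ = 1 / (8 * E') := ⟨_, rfl⟩
  have hδ : 0 < δ := by rw [hδE]; positivity
  have hδ8 : δ ≤ 1 / 8 := by
    rw [hδE]
    apply one_div_le_one_div_of_le (by norm_num)
    linarith
  have hδE' : E' * (8 * δ) = 1 := by
    rw [hδE]
    field_simp
  obtain ⟨κ₁, hκ₁, hκ₁1, M₀, hM₀, hgood⟩ := engine K δ hδ (by linarith)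
  obtain ⟨L, hL⟩ : ∃ L : ℝ, L = ((d : ℝ) + 1) ^ Fintype.card G * ((d : ℝ) + 1) ^ Fintype.card τ := ⟨_, rfl⟩
  have hd1 : (1 : ℝ) ≤ (d : ℝ) + 1 := by linarith [Nat.cast_nonneg (α := ℝ) d]
  have hL1 : 1 ≤ L := by
    rw [hL]
    have h1 : (1 : ℝ) ≤ ((d : ℝ) + 1) ^ Fintype.card G := one_le_pow₀ hd1
    have h2 : (1 : ℝ) ≤ ((d : ℝ) + 1) ^ Fintype.card τ := one_le_pow₀ hd1
    nlinarith
  refine ⟨κ₁, hκ₁, max (max (L + 2) M₀) 1, le_max_right _ _,
    fun T hT ξ y hξ hy hmeas M hTM hMT P hPd hPc hPh hPe => ?_⟩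
  have hT1 : 1 ≤ T := (le_max_right _ _).trans hT
  have hT0 : 0 < T := by linarith
  have hTL : L + 2 ≤ T := ((le_max_left _ _).trans (le_max_left _ _)).trans hT
  have hTM₀ : (M₀ : ℝ) ≤ T := ((le_max_right _ _).trans (le_max_left _ _)).trans hT
  have hTM' : T ≤ M := by
    calc T = T ^ (1 : ℝ) := (Real.rpow_one _).symm
      _ ≤ T ^ (2 * (B + h) + 1) := Real.rpow_le_rpow_of_exponent_le hT1 (by linarith)
      _ ≤ M := hTM
  have hM1 : (1 : ℝ) ≤ M := hT1.trans hTM'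
  have hM0 : (0 : ℝ) < M := by linarith
  have hMpos : 1 ≤ M := by exact_mod_cast hM1
  have hMM₀ : M₀ ≤ M := by exact_mod_cast hTM₀.trans hTM'
  have h1δ : (M : ℝ) ^ δ ≤ T := by
    calc (M : ℝ) ^ δ ≤ (T ^ E) ^ δ := Real.rpow_le_rpow hM0.le hMT (by positivity)
      _ = T ^ (E * δ) := by rw [← Real.rpow_mul hT0.le]
      _ ≤ T ^ (1 : ℝ) := by
          apply Real.rpow_le_rpow_of_exponent_le hT1
          calc E * δ ≤ E' * δ := mul_le_mul_of_nonneg_right hEE' (by positivity)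
            _ ≤ 1 := by linarith
      _ = T := Real.rpow_one _
  refine (hgood M hMM₀ _ ?_).mono hMpos le_rfl le_rfl
  rintro ⟨q, hq, hqM, a, ha⟩
  have hq1 : (1 : ℝ) ≤ q := by exact_mod_cast hq
  have hq0 : (0 : ℝ) < q := by linarith
  have hqT : (q : ℝ) ≤ T := hqM.trans h1δ
  obtain ⟨X, hX⟩ : ∃ X : ℝ, X = T ^ H := ⟨_, rfl⟩
  have hX1 : 1 ≤ X := by rw [hX]; exact Real.one_le_rpow hT1 hH
  have hTA₁1 : 1 ≤ T ^ A₁ := Real.one_le_rpow hT1 hA₁
  have hval := nval_le ξ y P d _ X hX1 (by linarith) (fun i => by rw [hX]; exact hξ i) (fun j => by rw [hX]; exact hy j) hPd hPc hPh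
  obtain ⟨A₀, hA₀⟩ : ∃ A₀ : ℝ, A₀ = H * (d * ((Fintype.card G : ℝ) + Fintype.card τ)) := ⟨_, rfl⟩
  have hA₀0 : 0 ≤ A₀ := by rw [hA₀]; positivity
  rw [← hA₀] at hA
  have hXpow : (X ^ d) ^ Fintype.card G * (X ^ d) ^ Fintype.card τ = T ^ A₀ := by
    rw [hA₀, ← pow_add, ← pow_mul, hX, ← Real.rpow_natCast, ← Real.rpow_mul hT0.le]
    congr 1
    push_cast
    ring
  have hval2 : |nval ξ y P| ≤ L * T ^ (A₁ + A₀) := by
    refine hval.trans ?_
    calc T ^ A₁ * (((d : ℝ) + 1) ^ Fintype.card G * (X ^ d) ^ Fintype.card G) *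
          (((d : ℝ) + 1) ^ Fintype.card τ * (X ^ d) ^ Fintype.card τ) =
          T ^ A₁ * (L * ((X ^ d) ^ Fintype.card G * (X ^ d) ^ Fintype.card τ)) := by rw [hL]; ring
      _ = L * T ^ (A₁ + A₀) := by
          rw [hXpow, Real.rpow_add hT0]
          ring
      _ ≤ _ := le_rfl
  have hsmall : (M : ℝ) ^ (δ - 1) ≤ 1 := Real.rpow_le_one_of_one_le_of_nonpos hM1 (by linarith)
  have hTA : 1 ≤ T ^ (A₁ + A₀) := Real.one_le_rpow hT1 (by linarith)
  have haM : |(a : ℝ)| ≤ T * (L * T ^ (A₁ + A₀)) + 1 := by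
    have e : (a : ℝ) = q * nval ξ y P - (q * nval ξ y P - a) := by ring
    rw [e]
    refine (abs_sub _ _).trans ?_
    rw [abs_mul, Nat.abs_cast]
    refine add_le_add ?_ (ha.trans hsmall)
    exact mul_le_mul hqT hval2 (abs_nonneg _) hT0.le
  obtain ⟨Q, hQE⟩ : ∃ Q : MvPolynomial τ (MvPolynomial G ℤ),
    Q = MvPolynomial.C (MvPolynomial.C (q : ℤ)) * P - MvPolynomial.C (MvPolynomial.C a) := ⟨_, rfl⟩
  have hcoef : ∀ e, Q.coeff e = MvPolynomial.C (q : ℤ) * P.coeff e - if (0 : τ →₀ ℕ) = e then MvPolynomial.C a else 0 := by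
    intro e
    rw [hQE, MvPolynomial.coeff_sub, MvPolynomial.coeff_C_mul, MvPolynomial.coeff_C]
  have hQd : ∀ j, Q.degreeOf j ≤ d := by
    intro j
    rw [MvPolynomial.degreeOf_le_iff]
    intro e he
    rw [MvPolynomial.mem_support_iff, hcoef] at he
    by_cases h1 : (0 : τ →₀ ℕ) = e
    · rw [← h1]
      simp
    · rw [if_neg h1, sub_zero] at he
      exact (MvPolynomial.degreeOf_le_iff.1 (hPd j)) e (MvPolynomial.mem_support_iff.2 (right_ne_zero_of_mul he))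
  have hcoef2 : ∀ e u, (Q.coeff e).coeff u = (q : ℤ) * (P.coeff e).coeff u -
      if (0 : τ →₀ ℕ) = e ∧ (0 : G →₀ ℕ) = u then a else 0 := by
    intro e u
    rw [hcoef, MvPolynomial.coeff_sub, MvPolynomial.coeff_C_mul]
    congr 1
    by_cases h1 : (0 : τ →₀ ℕ) = e
    · rw [if_pos h1, MvPolynomial.coeff_C]
      simp [h1]
    · rw [if_neg h1, if_neg (fun h => h1 h.1), MvPolynomial.coeff_zero]
  have hQc : ∀ e i, (Q.coeff e).degreeOf i ≤ d := by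
    intro e i
    rw [MvPolynomial.degreeOf_le_iff]
    intro u hu
    rw [MvPolynomial.mem_support_iff, hcoef2] at hu
    by_cases h1 : (0 : τ →₀ ℕ) = e ∧ (0 : G →₀ ℕ) = u
    · rw [← h1.2]
      simp
    · rw [if_neg h1, sub_zero] at hu
      exact (MvPolynomial.degreeOf_le_iff.1 (hPc e i)) u (MvPolynomial.mem_support_iff.2 (right_ne_zero_of_mul hu))
  have hQh : ∀ e u, |(((Q.coeff e).coeff u : ℤ) : ℝ)| ≤ T ^ A := by
    intro e u
    have eA : T * (T * T ^ (A₁ + A₀)) ≤ T ^ A := by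
      calc T * (T * T ^ (A₁ + A₀)) = T ^ (A₁ + A₀ + 2) := by
            rw [← mul_assoc, ← sq, ← Real.rpow_natCast T 2, ← Real.rpow_add hT0]
            congr 1
            push_cast
            ring
        _ ≤ T ^ A := Real.rpow_le_rpow_of_exponent_le hT1 hA
    rw [hcoef2]
    push_cast
    refine (abs_sub _ _).trans ?_
    rw [abs_mul, Nat.abs_cast]
    have hA10 : T ^ A₁ ≤ T ^ (A₁ + A₀) := Real.rpow_le_rpow_of_exponent_le hT1 (by linarith)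
    have h1 : (q : ℝ) * |(((P.coeff e).coeff u : ℤ) : ℝ)| ≤ T * T ^ (A₁ + A₀) :=
      mul_le_mul hqT ((hPh e u).trans hA10) (abs_nonneg _) hT0.le
    have h2 : |(((if (0 : τ →₀ ℕ) = e ∧ (0 : G →₀ ℕ) = u then a else 0 : ℤ)) : ℝ)| ≤ T * (L * T ^ (A₁ + A₀)) + 1 := by
      split_ifs
      · exact haM
      · simp
        positivity
    push_cast at h2
    have h3 : T * ((L + 2) * T ^ (A₁ + A₀)) ≤ T * (T * T ^ (A₁ + A₀)) := by gcongr
    have h4 : 1 ≤ T * T ^ (A₁ + A₀) := by nlinarith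
    nlinarith
  have hQv : nval ξ y Q = q * nval ξ y P - a := by
    unfold nval
    rw [hQE, MvPolynomial.eval₂_sub, MvPolynomial.eval₂_mul, MvPolynomial.eval₂_C, MvPolynomial.eval₂_C]
    simp
  obtain ⟨e, he0, he1⟩ := hPe
  have hQe : MvPolynomial.aeval ξ (Q.coeff e) = q * MvPolynomial.aeval ξ (P.coeff e) := by
    rw [hcoef, if_neg (fun h => he0 h.symm), sub_zero, map_mul, MvPolynomial.aeval_C]
    simp
  have hTh : 0 < T ^ (-h) := Real.rpow_pos_of_pos hT0 _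
  have hQe1 : T ^ (-h) ≤ |MvPolynomial.aeval ξ (Q.coeff e)| := by
    rw [hQe, abs_mul, Nat.abs_cast]
    nlinarith
  have h1 := hmeas Q hQd hQc hQh e (fun h0 => by
    rw [h0, abs_zero] at hQe1
    linarith)
  rw [hQv] at h1
  have h2 : (M : ℝ) ^ (δ - 1) ≤ T ^ (-B) * T ^ (-h) := by
    calc (M : ℝ) ^ (δ - 1) ≤ (T ^ (2 * (B + h) + 1)) ^ (δ - 1) :=
          Real.rpow_le_rpow_of_nonpos (Real.rpow_pos_of_pos hT0 _) hTM (by linarith)
      _ = T ^ ((2 * (B + h) + 1) * (δ - 1)) := by rw [← Real.rpow_mul hT0.le]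
      _ ≤ T ^ (-B + -h) := by
          apply Real.rpow_le_rpow_of_exponent_le hT1
          nlinarith
      _ = T ^ (-B) * T ^ (-h) := Real.rpow_add hT0 _ _
  have h3 : 0 < T ^ (-B) := Real.rpow_pos_of_pos hT0 _
  have h4 : T ^ (-B) * T ^ (-h) ≤ T ^ (-B) * |MvPolynomial.aeval ξ (Q.coeff e)| := mul_le_mul_of_nonneg_left hQe1 h3.le
  linarith

end Pool.Agent.Q29.Eqd
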