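import Pool.Agent.Q29.OvDet
import Pool.Agent.Q29.OvGood2

set_option autoImplicit false

/-! # Determinants of linear forms in logarithms of integers and one arbitrary constant: coefficients up to `N ^ A` -/

namespace Pool.Agent.Q29.Eqd

open Finset Pool.Agent.TH659.AQ

theorem det_ov2 (m r K : ℕ) (hm : 1 ≤ m) (H A₁ ε : ℝ) (hH : 0 ≤ H) (hA₁ : 0 ≤ A₁) (hε : 0 < ε) :
    ∃ B : ℝ, 1 ≤ B ∧ ∀ E : ℝ, ∃ κ C : ℝ, 0 < κ ∧ ∀ N : ℕ, 1 ≤ N → ∀ t : ℝ, (N : ℝ) ^ (-H) ≤ |t| → |t| ≤ (N : ℝ) ^ H →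
      ∃ S : Set (Fin m → ℕ), S.Finite ∧ (S.ncard : ℝ) ≤ C * (N : ℝ) ^ ((m : ℝ) - 1 + ε) ∧
        ∀ x : Fin m → ℕ, (∀ j, 1 ≤ x j ∧ x j ≤ N) → x ∉ S →
          ∀ c : Fin r → Fin r → (Fin m ⊕ Fin 1) → ℤ, (∀ i j z, |(c i j z : ℝ)| ≤ (N : ℝ) ^ A₁) →
          ∀ Δ : ℝ, Δ = (Matrix.of fun i j => ∑ z, (c i j z : ℝ) * Sum.elim (fun j => Real.log (x j)) (fun _ => t) z).det →
            ((∃ n : ℤ, Δ = n * t ^ r) ∨ ∀ M : ℕ, (N : ℝ) ^ B ≤ (M : ℝ) → (M : ℝ) ≤ (N : ℝ) ^ E → Good κ K M Δ) ∧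
            (Δ = 0 → ∃ w v : Fin r → ℚ, w ≠ 0 ∧ v ≠ 0 ∧ ∀ z, ∑ i, ∑ j, w i * (c i j z : ℚ) * v j = 0) := by
  classical
  obtain ⟨A', hA'⟩ : ∃ A' : ℝ, A' = A₁ * r + 1 := ⟨_, rfl⟩
  have hA'0 : 0 ≤ A' := by rw [hA']; positivity
  obtain ⟨A, hA⟩ : ∃ A : ℝ, A = A' + (H + 1) * (r * (Fintype.card (Fin 1) + Fintype.card (Fin m))) + 2 := ⟨_, rfl⟩
  obtain ⟨B, C, hB, hC, hcount⟩ := excR_count m 1 r hm A ε hε
  have hHr : 0 ≤ H * r := by positivity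
  refine ⟨2 * (B + H * r) + 1, by linarith, fun E => ?_⟩
  obtain ⟨κ, hκ, T₀, hT₀, hgood⟩ := nested_good2 (G := Fin 1) (τ := Fin m) r K E (H + 1) B A (H * r) A'
    (by linarith) hB hHr hA'0 (le_of_eq hA.symm)
  have hAA' : A' ≤ A := by
    rw [hA]
    have : 0 ≤ (H + 1) * (r * ((Fintype.card (Fin 1) : ℝ) + Fintype.card (Fin m))) := by positivity
    linarith
  obtain ⟨L, hL⟩ : ∃ L : ℝ, L = (r.factorial : ℝ) * (Fintype.card (Fin m ⊕ Fin 1) : ℝ) ^ r := ⟨_, rfl⟩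
  have hL0 : 0 ≤ L := by rw [hL]; positivity
  refine ⟨κ, C + (max (max T₀ L) 1) ^ m, hκ, fun N hN t ht1 ht2 => ?_⟩
  have hN1 : (1 : ℝ) ≤ N := by exact_mod_cast hN
  have hN0 : (0 : ℝ) < N := by linarith
  obtain ⟨S, hS⟩ : ∃ S : Set (Fin m → ℕ), S = {x | (∀ j, 1 ≤ x j ∧ x j ≤ N) ∧
      (max T₀ L ≤ N → x ∈ ExcR m 1 r N A B (fun _ => t))} := ⟨_, rfl⟩
  obtain ⟨hSf, hSc⟩ := excR_transfer m 1 r hm A B C ε (max T₀ L) hε hC hcount N hN (fun _ => t) S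
    (fun x hx => by rw [hS] at hx; exact hx.1) (fun hT x hx => by rw [hS] at hx; exact hx.2 hT)
  refine ⟨S, hSf, hSc, fun x hx hxS c hc Δ hΔ => ?_⟩
  have hxS' : max T₀ L ≤ N ∧ x ∉ ExcR m 1 r N A B (fun _ => t) := by
    by_contra hcon
    apply hxS
    rw [hS]
    refine ⟨hx, fun hT => ?_⟩
    by_contra h1
    exact hcon ⟨hT, h1⟩
  obtain ⟨hT, hnot⟩ := hxS'
  have hTT₀ : T₀ ≤ N := (le_max_left _ _).trans hT
  have hTT₂ : L ≤ N := (le_max_right _ _).trans hT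
  have hmeas : ∀ P : MvPolynomial (Fin m) (MvPolynomial (Fin 1) ℤ), (∀ j, P.degreeOf j ≤ r) →
      (∀ e i, (P.coeff e).degreeOf i ≤ r) → (∀ e u, |(((P.coeff e).coeff u : ℤ) : ℝ)| ≤ (N : ℝ) ^ A) →
      ∀ e, MvPolynomial.aeval (fun _ : Fin 1 => t) (P.coeff e) ≠ 0 →
        (N : ℝ) ^ (-B) * |MvPolynomial.aeval (fun _ : Fin 1 => t) (P.coeff e)| <
          |nval (fun _ : Fin 1 => t) (fun j => Real.log (x j)) P| := by
    intro P hPd hPc hPh e he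
    by_contra hcon
    push Not at hcon
    exact hnot ⟨hx, P, hPd, hPc, hPh, e, he, hcon⟩
  obtain ⟨P, hPE⟩ : ∃ P : MvPolynomial (Fin m) (MvPolynomial (Fin 1) ℤ), P = nest (linMat c).det := ⟨_, rfl⟩
  have hval : nval (fun _ : Fin 1 => t) (fun j => Real.log (x j)) P = Δ := by
    rw [hPE, nval_nest, hΔ]
    exact eval_det c _
  obtain ⟨hPd, hPc⟩ := degree_nest (linMat c).det r (degree_det c)
  rw [← hPE] at hPd hPc
  have hPh : ∀ e u, |(((P.coeff e).coeff u : ℤ) : ℝ)| ≤ (N : ℝ) ^ A' := by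
    intro e u
    rw [hPE, coeff_nest]
    refine (coeff_det c _ ((N : ℝ) ^ A₁) hc).trans ?_
    rw [← hL, ← Real.rpow_natCast ((N : ℝ) ^ A₁) r, ← Real.rpow_mul hN0.le, hA', Real.rpow_add hN0, Real.rpow_one, mul_comm]
    exact mul_le_mul_of_nonneg_left hTT₂ (Real.rpow_nonneg hN0.le _)
  have hcoef : ∀ e, P.coeff e ≠ 0 → (N : ℝ) ^ (-(H * r)) ≤ |MvPolynomial.aeval (fun _ : Fin 1 => t) (P.coeff e)| := by
    intro e he
    rw [hPE] at he ⊢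
    obtain ⟨n, hn, hval⟩ := aeval_coeff c t e he
    rw [hval, abs_mul, abs_pow]
    have h1 : (1 : ℝ) ≤ |(n : ℝ)| := by exact_mod_cast Int.one_le_abs hn
    have h2 : (N : ℝ) ^ (-(H * r)) ≤ |t| ^ (r - ∑ i, e i) := by
      calc (N : ℝ) ^ (-(H * r)) ≤ ((N : ℝ) ^ (-H)) ^ (r - ∑ i, e i) := by
            rw [← Real.rpow_natCast, ← Real.rpow_mul hN0.le]
            apply Real.rpow_le_rpow_of_exponent_le hN1
            have h3 : ((r - ∑ i, e i : ℕ) : ℝ) ≤ r := by exact_mod_cast Nat.sub_le _ _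
            nlinarith
        _ ≤ _ := pow_le_pow_left₀ (Real.rpow_nonneg hN0.le _) ht1 _
    have h3 : 0 < (N : ℝ) ^ (-(H * r)) := Real.rpow_pos_of_pos hN0 _
    nlinarith
  have hξ : ∀ i : Fin 1, |(fun _ : Fin 1 => t) i| ≤ (N : ℝ) ^ (H + 1) := fun _ =>
    ht2.trans (Real.rpow_le_rpow_of_exponent_le hN1 (by linarith))
  have hlog : ∀ j, |Real.log (x j)| ≤ (N : ℝ) ^ (H + 1) := fun j =>
    log_le_rpow N (x j) (hx j).1 (hx j).2 (H + 1) (by linarith)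
  refine ⟨?_, fun hΔ0 => ?_⟩
  · by_cases hnc : ∃ e, e ≠ 0 ∧ P.coeff e ≠ 0
    · right
      intro M hM1 hM2
      obtain ⟨e, he0, he⟩ := hnc
      rw [← hval]
      exact hgood N hTT₀ _ _ hξ hlog hmeas M hM1 hM2 P hPd hPc hPh ⟨e, he0, hcoef e he⟩
    · left
      push Not at hnc
      have h1 : P = MvPolynomial.C (P.coeff 0) := by
        ext1 e
        rw [MvPolynomial.coeff_C]
        split_ifs with h
        · rw [← h]
        · exact hnc e (fun h2 => h h2.symm)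
      have h2 : Δ = MvPolynomial.aeval (fun _ : Fin 1 => t) (P.coeff 0) := by
        rw [← hval]
        unfold nval
        conv_lhs => rw [h1]
        rw [MvPolynomial.eval₂_C]
        rfl
      by_cases h0 : P.coeff 0 = 0
      · refine ⟨0, ?_⟩
        rw [h2, h0, map_zero]
        simp
      · rw [hPE] at h0 h2
        obtain ⟨n, -, hn⟩ := aeval_coeff c t 0 h0
        refine ⟨n, ?_⟩
        rw [h2, hn]
        simp
  · by_cases hP0 : ∀ e, P.coeff e = 0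
    · rw [hPE] at hP0
      exact zero_det c (nest_zero _ hP0)
    · exfalso
      push Not at hP0
      obtain ⟨e, he⟩ := hP0
      have h1 : 0 < (N : ℝ) ^ (-(H * r)) := Real.rpow_pos_of_pos hN0 _
      have h2 := hcoef e he
      have h3 := hmeas P hPd hPc (fun e u => (hPh e u).trans (Real.rpow_le_rpow_of_exponent_le hN1 hAA')) e (fun h0 => by
        rw [h0, abs_zero] at h2
        linarith)
      rw [hval, hΔ0, abs_zero] at h3
      have h4 : 0 ≤ (N : ℝ) ^ (-B) * |MvPolynomial.aeval (fun _ : Fin 1 => t) (P.coeff e)| := by positivity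
      linarith

end Pool.Agent.Q29.Eqd
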