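import Pool.Agent.Q29.OvGood2
import Pool.Agent.Y890.UC.Poly

set_option autoImplicit false

/-! # Uniform distribution of the multiples over arbitrary constants, for all systems with the one-variable property -/

namespace Pool.Agent.Q29.Eqd

open Finset Pool.Agent.Y890.UC Pool.Agent.TH818.AR Pool.Agent.TH818.AP Pool.Agent.Y120

/-- the tuples for which the value of some polynomial is small compared to one of its coefficients -/
def ExcG {α κ : Type} (n g d : ℕ) (X : Fin n → Finset α) (v : Fin n → α → κ → ℝ) (R r : ℝ) (ξ : Fin g → ℝ) : Set (Fin n → α) :=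
  {x | (∀ j, x j ∈ X j) ∧
    ∃ P : MvPolynomial (Fin n × κ) (MvPolynomial (Fin g) ℤ), (∀ j, P.degreeOf j ≤ d) ∧
      (∀ e i, (P.coeff e).degreeOf i ≤ d) ∧ (∀ e u, |(((P.coeff e).coeff u : ℤ) : ℝ)| ≤ R) ∧
      ∃ e, MvPolynomial.aeval ξ (P.coeff e) ≠ 0 ∧
        |nval ξ (fun z => v z.1 (x z.1) z.2) P| ≤ r * |MvPolynomial.aeval ξ (P.coeff e)|}

/-- the tuples for which the multiples of some nonconstant value are not uniformly distributed -/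
def BadG {α κ : Type} (n g d K : ℕ) (X : Fin n → Finset α) (v : Fin n → α → κ → ℝ) (R r κ₀ M₁ M₂ : ℝ) (ξ : Fin g → ℝ) :
    Set (Fin n → α) :=
  {x | (∀ j, x j ∈ X j) ∧
    ∃ P : MvPolynomial (Fin n × κ) (MvPolynomial (Fin g) ℤ), (∀ j, P.degreeOf j ≤ d) ∧
      (∀ e i, (P.coeff e).degreeOf i ≤ d) ∧ (∀ e u, |(((P.coeff e).coeff u : ℤ) : ℝ)| ≤ R) ∧
      (∃ e, e ≠ 0 ∧ r ≤ |MvPolynomial.aeval ξ (P.coeff e)|) ∧
      ∃ M : ℕ, M₁ ≤ (M : ℝ) ∧ (M : ℝ) ≤ M₂ ∧ ¬ Good κ₀ K M (nval ξ (fun z => v z.1 (x z.1) z.2) P)}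

theorem ncard_box {α : Type} [DecidableEq α] (n : ℕ) (X : Fin n → Finset α) (S : Set (Fin n → α)) (hS : ∀ x ∈ S, ∀ j, x j ∈ X j)
    (R : ℝ) (hR : ∀ j, ((X j).card : ℝ) ≤ R) : S.Finite ∧ (S.ncard : ℝ) ≤ R ^ n := by
  have hsub : S ⊆ (Fintype.piFinset X : Finset (Fin n → α)) := by
    intro t ht
    rw [Finset.mem_coe, Fintype.mem_piFinset]
    exact hS t ht
  refine ⟨(Finset.finite_toSet _).subset hsub, ?_⟩
  have h1 := Set.ncard_le_ncard hsub (Finset.finite_toSet _)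
  rw [Set.ncard_coe_finset, Fintype.card_piFinset] at h1
  calc (S.ncard : ℝ) ≤ ((∏ j, (X j).card : ℕ) : ℝ) := by exact_mod_cast h1
    _ = ∏ j, ((X j).card : ℝ) := by push_cast; rfl
    _ ≤ ∏ _j : Fin n, R := Finset.prod_le_prod (fun j _ => Nat.cast_nonneg _) fun j _ => hR j
    _ = R ^ n := by rw [Finset.prod_const, Finset.card_univ, Fintype.card_fin]

theorem excG_count {α κ : Type} [DecidableEq α] [Fintype κ] [DecidableEq κ] (n g d : ℕ) (hn : 1 ≤ n)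
    (X : Fin n → ℝ → Finset α) (v : Fin n → α → κ → ℝ)
    (hv : ∀ j, OneVar (X j) (fun (x : α) (i : κ) => ((v j x i : ℝ) : ℂ))) (s K₀ : ℝ) (hs : 0 ≤ s) (hK₀ : 0 ≤ K₀)
    (hcard : ∀ j, ∀ T : ℝ, 1 ≤ T → ((X j T).card : ℝ) ≤ K₀ * T ^ s) (A ε : ℝ) (hε : 0 < ε) :
    ∃ B C : ℝ, 0 ≤ B ∧ 0 ≤ C ∧ ∀ T : ℝ, 1 ≤ T → ∀ ξ : Fin g → ℝ,
      (ExcG n g d (fun j => X j T) v (T ^ A) (T ^ (-B)) ξ).Finite ∧
      ((ExcG n g d (fun j => X j T) v (T ^ A) (T ^ (-B)) ξ).ncard : ℝ) ≤ C * T ^ (s * ((n : ℝ) - 1) + ε) := by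
  classical
  obtain ⟨B, C, T2, hB, hC, hT2, hu⟩ := multi_arb (κ := κ) n X
    (fun j => fun (x : α) (i : κ) => ((v j x i : ℝ) : ℂ)) hv (Fin g → Fin (d + 1)) d A ε hε
  have hn1 : (1 : ℝ) ≤ n := by exact_mod_cast hn
  refine ⟨B, C * (n * K₀ ^ (n - 1)) + (K₀ * T2 ^ s) ^ n, hB, by positivity, fun T hT1 ξ => ?_⟩
  have hTp : (0 : ℝ) < T := by linarith
  have hone : 1 ≤ T ^ (s * ((n : ℝ) - 1) + ε) := by
    apply Real.one_le_rpow hT1
    have : 0 ≤ s * ((n : ℝ) - 1) := mul_nonneg hs (by linarith)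
    linarith
  have hTs : 1 ≤ T ^ s := Real.one_le_rpow hT1 hs
  obtain ⟨hfin, hbox⟩ := ncard_box n (fun j => X j T) (ExcG n g d (fun j => X j T) v (T ^ A) (T ^ (-B)) ξ)
    (fun x hx => hx.1) (K₀ * T ^ s) (fun j => hcard j T hT1)
  refine ⟨hfin, ?_⟩
  rcases le_or_gt T2 T with hT | hT
  · rw [Set.ncard_eq_toFinset_card _ hfin]
    have h1 := hu T hT (fun u => ∏ i, (ξ i : ℂ) ^ (u i : ℕ)) hfin.toFinset (by
      intro x hx
      rw [Fintype.mem_piFinset]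
      exact (hfin.mem_toFinset.1 hx).1) (by
      intro x hx
      obtain ⟨hx1, P, hPd, hPc, hPh, e, he0, hes⟩ := hfin.mem_toFinset.1 hx
      set c : (Fin n → κ → Fin (d + 1)) → (Fin g → Fin (d + 1)) → ℤ := fun e u =>
        (P.coeff (sO fun z : Fin n × κ => e z.1 z.2)).coeff (sO u) with hc
      obtain ⟨φ, hφ⟩ : ∃ φ : MvPolynomial (Fin g) ℤ →+* ℂ,
        φ = (algebraMap ℝ ℂ).comp (MvPolynomial.aeval ξ : MvPolynomial (Fin g) ℤ →ₐ[ℤ] ℝ).toRingHom := ⟨_, rfl⟩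
      have hφ1 : ∀ R, φ R = ((MvPolynomial.aeval ξ R : ℝ) : ℂ) := fun R => by rw [hφ]; rfl
      have hφ2 : ∀ R : MvPolynomial (Fin g) ℤ, MvPolynomial.aeval (fun i => (ξ i : ℂ)) R = φ R := by
        intro R
        have h5 : (MvPolynomial.aeval (fun i => (ξ i : ℂ)) : MvPolynomial (Fin g) ℤ →ₐ[ℤ] ℂ).toRingHom = φ := by
          rw [hφ]
          apply MvPolynomial.ringHom_ext
          · intro r
            simp
          · intro i
            simp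
        rw [← h5]
        rfl
      have hcoef : ∀ e : Fin n → κ → Fin (d + 1), ∑ u : Fin g → Fin (d + 1), (∏ i, (ξ i : ℂ) ^ (u i : ℕ)) * (c e u : ℂ) =
          φ (P.coeff (sO fun z : Fin n × κ => e z.1 z.2)) := by
        intro e
        rw [← hφ2, MvPolynomial.aeval_def, eval₂_eq_sum (d := d) _ _ _ (hPc _)]
        refine Finset.sum_congr rfl fun u _ => ?_
        simp only [hc]
        rw [mul_comm]
        simp
      obtain ⟨e1, he1⟩ := exists_sO P hPd e (by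
        rw [MvPolynomial.mem_support_iff]
        intro h0
        rw [h0, map_zero] at he0
        exact he0 rfl)
      refine ⟨c, fun e u => hPh _ _, fun j i => e1 (j, i), ?_, ?_⟩
      · have h9 := hcoef (fun j i => e1 (j, i))
        rw [he1] at h9
        rw [h9, hφ1]
        exact_mod_cast he0
      · beta_reduce
        rw [hcoef (fun j i => e1 (j, i)), he1, hφ1, Complex.norm_real, Real.norm_eq_abs]
        refine le_trans (le_of_eq ?_) hes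
        rw [← Real.norm_eq_abs, ← Complex.norm_real]
        congr 1
        have h6 : ((nval ξ (fun z => v z.1 (x z.1) z.2) P : ℝ) : ℂ) =
            MvPolynomial.eval₂ φ (fun z : Fin n × κ => ((v z.1 (x z.1) z.2 : ℝ) : ℂ)) P := by
          unfold nval
          rw [hφ]
          exact MvPolynomial.hom_eval₂ P _ (algebraMap ℝ ℂ) _
        rw [h6, eval₂_eq_sum (d := d) _ _ _ hPd]
        refine Fintype.sum_equiv (Equiv.curry (Fin n) κ (Fin (d + 1))).symm _ _ fun e => ?_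
        rw [hcoef]
        have h4 : (Equiv.curry (Fin n) κ (Fin (d + 1))).symm e = fun z : Fin n × κ => e z.1 z.2 := rfl
        rw [h4]
        congr 1
        rw [mg, Fintype.prod_prod_type])
    refine h1.trans ?_
    have hMg : Mg X T ≤ n * (K₀ * T ^ s) ^ (n - 1) := by
      unfold Mg
      calc ∑ j, ∏ i, (if i = j then (1 : ℝ) else ((X i T).card : ℝ)) ≤ ∑ _j : Fin n, (K₀ * T ^ s) ^ (n - 1) := by
            refine Finset.sum_le_sum fun j _ => ?_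
            rw [← Finset.mul_prod_erase univ _ (mem_univ j), if_pos rfl, one_mul]
            calc ∏ i ∈ univ.erase j, (if i = j then (1 : ℝ) else ((X i T).card : ℝ)) ≤ ∏ _i ∈ univ.erase j, K₀ * T ^ s := by
                  refine Finset.prod_le_prod (fun i _ => ?_) fun i hi => ?_
                  · split_ifs <;> positivity
                  · rw [if_neg (ne_of_mem_erase hi)]
                    exact hcard i T hT1
              _ = (K₀ * T ^ s) ^ (n - 1) := by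
                  rw [Finset.prod_const, Finset.card_erase_of_mem (mem_univ _), Finset.card_univ, Fintype.card_fin]
        _ = _ := by rw [Finset.sum_const, Finset.card_univ, Fintype.card_fin, nsmul_eq_mul]
    have hpow : (T ^ s) ^ (n - 1) = T ^ (s * ((n : ℝ) - 1)) := by
      rw [← Real.rpow_natCast, ← Real.rpow_mul hTp.le, Nat.cast_sub hn, Nat.cast_one]
    have h3 : T ^ (s * ((n : ℝ) - 1) + ε) = (T ^ s) ^ (n - 1) * T ^ ε := by
      rw [Real.rpow_add hTp, hpow]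
    rw [h3]
    have h4 : 0 ≤ (T ^ s) ^ (n - 1) * T ^ ε := by positivity
    have h5 : (0 : ℝ) ≤ (K₀ * T2 ^ s) ^ n := by positivity
    calc C * T ^ ε * Mg X T ≤ C * T ^ ε * (n * (K₀ * T ^ s) ^ (n - 1)) :=
          mul_le_mul_of_nonneg_left hMg (by positivity)
      _ = C * (n * K₀ ^ (n - 1)) * ((T ^ s) ^ (n - 1) * T ^ ε) := by rw [mul_pow]; ring
      _ ≤ _ := mul_le_mul_of_nonneg_right (by linarith) h4
  · have h3 : (K₀ * T ^ s) ^ n ≤ (K₀ * T2 ^ s) ^ n := by gcongr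
    have h4 : 0 ≤ C * (n * K₀ ^ (n - 1)) := by positivity
    have h5 : (0 : ℝ) ≤ (K₀ * T2 ^ s) ^ n := by positivity
    calc _ ≤ (K₀ * T2 ^ s) ^ n := hbox.trans h3
      _ ≤ (C * (n * K₀ ^ (n - 1)) + (K₀ * T2 ^ s) ^ n) * 1 := by linarith
      _ ≤ _ := mul_le_mul_of_nonneg_left hone (by linarith)

theorem badG_count {α κ : Type} [DecidableEq α] [Fintype κ] [DecidableEq κ] (n g d K : ℕ) (hn : 1 ≤ n)
    (X : Fin n → ℝ → Finset α) (v : Fin n → α → κ → ℝ)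
    (hv : ∀ j, OneVar (X j) (fun (x : α) (i : κ) => ((v j x i : ℝ) : ℂ))) (s K₀ : ℝ) (hs : 0 ≤ s) (hK₀ : 0 ≤ K₀)
    (hcard : ∀ j, ∀ T : ℝ, 1 ≤ T → ((X j T).card : ℝ) ≤ K₀ * T ^ s) (H A ε : ℝ) (hH : 0 ≤ H) (hA : 0 ≤ A) (hε : 0 < ε)
    (hvH : ∃ T₁ : ℝ, ∀ T : ℝ, T₁ ≤ T → ∀ j, ∀ x ∈ X j T, ∀ i, |v j x i| ≤ T ^ H) :
    ∃ B : ℝ, 1 ≤ B ∧ ∀ E : ℝ, ∃ κ₀ C : ℝ, 0 < κ₀ ∧ ∀ T : ℝ, 1 ≤ T → ∀ ξ : Fin g → ℝ, (∀ i, |ξ i| ≤ T ^ H) →
      (BadG n g d K (fun j => X j T) v (T ^ A) (T ^ (-H)) κ₀ (T ^ B) (T ^ E) ξ).Finite ∧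
      ((BadG n g d K (fun j => X j T) v (T ^ A) (T ^ (-H)) κ₀ (T ^ B) (T ^ E) ξ).ncard : ℝ) ≤
        C * T ^ (s * ((n : ℝ) - 1) + ε) := by
  classical
  obtain ⟨T₁, hT₁⟩ := hvH
  obtain ⟨A', hA'⟩ : ∃ A' : ℝ, A' = A + H * (d * (Fintype.card (Fin g) + Fintype.card (Fin n × κ))) + 2 := ⟨_, rfl⟩
  obtain ⟨B, C, hB, hC, hcount⟩ := excG_count n g d hn X v hv s K₀ hs hK₀ hcard A' ε hε
  refine ⟨2 * (B + H) + 1, by linarith, fun E => ?_⟩
  obtain ⟨κ₀, hκ₀, T₀, hT₀, hgood⟩ := nested_good2 (G := Fin g) (τ := Fin n × κ) d K E H B A' H A hH hB hH hA (le_of_eq hA'.symm)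
  obtain ⟨T₂, hT₂⟩ : ∃ T₂ : ℝ, T₂ = max (max T₀ T₁) 1 := ⟨_, rfl⟩
  have hT₂0 : 1 ≤ T₂ := by rw [hT₂]; exact le_max_right _ _
  refine ⟨κ₀, C + (K₀ * T₂ ^ s) ^ n, hκ₀, fun T hT1 ξ hξ => ?_⟩
  have hTp : (0 : ℝ) < T := by linarith
  have hn1 : (1 : ℝ) ≤ n := by exact_mod_cast hn
  have hone : 1 ≤ T ^ (s * ((n : ℝ) - 1) + ε) := by
    apply Real.one_le_rpow hT1
    have : 0 ≤ s * ((n : ℝ) - 1) := mul_nonneg hs (by linarith)
    linarith
  obtain ⟨hfin, hbox⟩ := ncard_box n (fun j => X j T)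
    (BadG n g d K (fun j => X j T) v (T ^ A) (T ^ (-H)) κ₀ (T ^ (2 * (B + H) + 1)) (T ^ E) ξ)
    (fun x hx => hx.1) (K₀ * T ^ s) (fun j => hcard j T hT1)
  refine ⟨hfin, ?_⟩
  have h5 : (0 : ℝ) ≤ (K₀ * T₂ ^ s) ^ n := by positivity
  rcases le_or_gt T₂ T with hT | hT
  · have hTT₀ : T₀ ≤ T := ((le_max_left _ _).trans (le_max_left _ _)).trans (hT₂ ▸ hT)
    have hTT₁ : T₁ ≤ T := ((le_max_right _ _).trans (le_max_left _ _)).trans (hT₂ ▸ hT)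
    obtain ⟨hf, hle⟩ := hcount T hT1 ξ
    have hsub : BadG n g d K (fun j => X j T) v (T ^ A) (T ^ (-H)) κ₀ (T ^ (2 * (B + H) + 1)) (T ^ E) ξ ⊆
        ExcG n g d (fun j => X j T) v (T ^ A') (T ^ (-B)) ξ := by
      rintro x ⟨hx, P, hPd, hPc, hPh, hPe, M, hM1, hM2, hbad⟩
      refine ⟨hx, ?_⟩
      by_contra hcon
      push Not at hcon
      apply hbad
      refine hgood T hTT₀ ξ _ hξ (fun z => hT₁ T hTT₁ z.1 (x z.1) (hx z.1) z.2)
        (fun P hPd hPc hPh e he => hcon P hPd hPc hPh e he) M hM1 hM2 P hPd hPc hPh hPe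
    have h1 := Set.ncard_le_ncard hsub hf
    calc ((BadG n g d K (fun j => X j T) v (T ^ A) (T ^ (-H)) κ₀ (T ^ (2 * (B + H) + 1)) (T ^ E) ξ).ncard : ℝ) ≤
          ((ExcG n g d (fun j => X j T) v (T ^ A') (T ^ (-B)) ξ).ncard : ℝ) := by exact_mod_cast h1
      _ ≤ C * T ^ (s * ((n : ℝ) - 1) + ε) := hle
      _ ≤ _ := mul_le_mul_of_nonneg_right (by linarith) (by linarith)
  · have h3 : (K₀ * T ^ s) ^ n ≤ (K₀ * T₂ ^ s) ^ n := by gcongr
    calc _ ≤ (K₀ * T₂ ^ s) ^ n := hbox.trans h3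
      _ ≤ (C + (K₀ * T₂ ^ s) ^ n) * 1 := by linarith
      _ ≤ _ := mul_le_mul_of_nonneg_left hone (by linarith)

/-- real analytic functions at rational points of compact intervals -/
theorem badQ_count {κ : Type} [Fintype κ] [DecidableEq κ] (n g d K : ℕ) (hn : 1 ≤ n) (f : Fin n → κ → ℝ → ℝ)
    (a b : Fin n → ℝ) (hab : ∀ j, a j < b j) (han : ∀ j i, AnalyticOnNhd ℝ (f j i) (Set.Icc (a j) (b j)))
    (hf : ∀ j, AInd (f j) (a j) (b j)) (H A ε : ℝ) (hH : 0 ≤ H) (hA : 0 ≤ A) (hε : 0 < ε) :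
    ∃ B : ℝ, 1 ≤ B ∧ ∀ E : ℝ, ∃ κ₀ C : ℝ, 0 < κ₀ ∧ ∀ T : ℝ, 1 ≤ T → ∀ ξ : Fin g → ℝ, (∀ i, |ξ i| ≤ T ^ H) →
      (BadG n g d K (fun j => RT (a j) (b j) T) (fun j (q : ℚ) i => f j i q) (T ^ A) (T ^ (-H)) κ₀ (T ^ B) (T ^ E) ξ).Finite ∧
      ((BadG n g d K (fun j => RT (a j) (b j) T) (fun j (q : ℚ) i => f j i q) (T ^ A) (T ^ (-H)) κ₀ (T ^ B) (T ^ E) ξ).ncard : ℝ) ≤
        C * T ^ (2 * ((n : ℝ) - 1) + ε) := by
  classical
  choose K₁ hK₁0 hK₁ using fun j => card_RT_gen (a j) (b j)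
  have hbd : ∀ j i, ∃ Y : ℝ, ∀ t ∈ Set.Icc (a j) (b j), |f j i t| ≤ Y := fun j i => by
    obtain ⟨Y, hY⟩ := (isCompact_Icc.image_of_continuousOn
      (fun t ht => ((han j i t ht).continuousAt.continuousWithinAt).abs)).bddAbove
    exact ⟨Y, fun t ht => hY ⟨t, ht, rfl⟩⟩
  choose Y hY using hbd
  obtain ⟨Z, hZ⟩ : ∃ Z : ℝ, Z = ∑ j, ∑ i, |Y j i| := ⟨_, rfl⟩
  have hZle : ∀ j i, Y j i ≤ Z := by
    intro j i
    rw [hZ]
    refine (le_abs_self _).trans ?_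
    refine (Finset.single_le_sum (f := fun i => |Y j i|) (fun i _ => abs_nonneg _) (mem_univ i)).trans ?_
    exact Finset.single_le_sum (f := fun j => ∑ i, |Y j i|) (fun j _ => Finset.sum_nonneg fun i _ => abs_nonneg _) (mem_univ j)
  obtain ⟨K₂, hK₂⟩ : ∃ K₂ : ℝ, K₂ = ∑ j, K₁ j := ⟨_, rfl⟩
  have hK₂le : ∀ j, K₁ j ≤ K₂ := fun j => by
    rw [hK₂]
    exact Finset.single_le_sum (f := K₁) (fun j _ => (hK₁0 j).le) (mem_univ j)
  have hK₂0 : 0 ≤ K₂ := by rw [hK₂]; exact Finset.sum_nonneg fun j _ => (hK₁0 j).le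
  obtain ⟨B, hB, h⟩ := badG_count n g d K hn (fun j T => RT (a j) (b j) T) (fun j (q : ℚ) i => f j i q)
    (fun j => oneVar_rat (f j) (a j) (b j) (hab j) (han j) (hf j)) 2 K₂ (by norm_num) hK₂0
    (fun j T hT => (hK₁ j T hT).trans (mul_le_mul_of_nonneg_right (hK₂le j) (Real.rpow_nonneg (by linarith) _)))
    (H + 1) A ε (by linarith) hA hε
    ⟨max Z 1, fun T hT j q hq i => by
      have hT1 : 1 ≤ T := (le_max_right _ _).trans hT
      have hTZ : Z ≤ T := (le_max_left _ _).trans hT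
      calc |f j i q| ≤ Y j i := hY j i q (mem_RT.1 hq).1
        _ ≤ T := (hZle j i).trans hTZ
        _ = T ^ (1 : ℝ) := (Real.rpow_one T).symm
        _ ≤ T ^ (H + 1) := Real.rpow_le_rpow_of_exponent_le hT1 (by linarith)⟩
  refine ⟨B, hB, fun E => ?_⟩
  obtain ⟨κ₀, C, hκ₀, hC⟩ := h E
  refine ⟨κ₀, C, hκ₀, fun T hT ξ hξ => ?_⟩
  obtain ⟨h1, h2⟩ := hC T hT ξ (fun i => (hξ i).trans (Real.rpow_le_rpow_of_exponent_le hT (by linarith)))
  have hsub : BadG n g d K (fun j => RT (a j) (b j) T) (fun j (q : ℚ) i => f j i q) (T ^ A) (T ^ (-H)) κ₀ (T ^ B) (T ^ E) ξ ⊆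
      BadG n g d K (fun j => RT (a j) (b j) T) (fun j (q : ℚ) i => f j i q) (T ^ A) (T ^ (-(H + 1))) κ₀ (T ^ B) (T ^ E) ξ := by
    rintro x ⟨hx, P, hPd, hPc, hPh, ⟨e, he0, he⟩, hbad⟩
    exact ⟨hx, P, hPd, hPc, hPh, ⟨e, he0, (Real.rpow_le_rpow_of_exponent_le hT (by linarith)).trans he⟩, hbad⟩
  refine ⟨h1.subset hsub, le_trans ?_ h2⟩
  exact_mod_cast Set.ncard_le_ncard hsub h1

end Pool.Agent.Q29.Eqd
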