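import Pool.Agent.Q29.EqPoly

set_option autoImplicit false

/-! # Values of polynomials whose coefficients are polynomials in given constants -/

namespace Pool.Agent.Q29.Eqd

open Finset

/-- the value of a polynomial whose coefficients are integer polynomials in constants -/
noncomputable def nval {G τ : Type} (ξ : G → ℝ) (y : τ → ℝ) (P : MvPolynomial τ (MvPolynomial G ℤ)) : ℝ :=
  MvPolynomial.eval₂ (MvPolynomial.aeval ξ : MvPolynomial G ℤ →ₐ[ℤ] ℝ).toRingHom y P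

theorem card_support_le' {ι R : Type} [Fintype ι] [DecidableEq ι] [CommRing R] (P : MvPolynomial ι R) (d : ℕ)
    (hd : ∀ x, P.degreeOf x ≤ d) : P.support.card ≤ (d + 1) ^ Fintype.card ι := by
  have h1 : P.support.card ≤ (Fintype.piFinset fun _ : ι => range (d + 1)).card := by
    refine Finset.card_le_card_of_injOn (fun c => (c : ι → ℕ)) (fun c hc => ?_) (fun c _ c' _ h => DFunLike.coe_injective h)
    rw [mem_coe, Fintype.mem_piFinset]
    intro x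
    rw [mem_range]
    have h2 := (MvPolynomial.degreeOf_le_iff.1 (hd x)) c hc
    show c x < d + 1
    omega
  refine h1.trans (le_of_eq ?_)
  rw [Fintype.card_piFinset, Finset.prod_const, Finset.card_univ, card_range]

theorem nval_le {G τ : Type} [Fintype G] [DecidableEq G] [Fintype τ] [DecidableEq τ] (ξ : G → ℝ) (y : τ → ℝ)
    (P : MvPolynomial τ (MvPolynomial G ℤ)) (d : ℕ) (R X : ℝ) (hX1 : 1 ≤ X) (hR : 0 ≤ R) (hξ : ∀ i, |ξ i| ≤ X)
    (hy : ∀ j, |y j| ≤ X) (hP : ∀ j, P.degreeOf j ≤ d) (hPc : ∀ e i, (P.coeff e).degreeOf i ≤ d)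
    (hPh : ∀ e u, |(((P.coeff e).coeff u : ℤ) : ℝ)| ≤ R) :
    |nval ξ y P| ≤ R * (((d : ℝ) + 1) ^ Fintype.card G * (X ^ d) ^ Fintype.card G) *
      (((d : ℝ) + 1) ^ Fintype.card τ * (X ^ d) ^ Fintype.card τ) := by
  unfold nval
  rw [MvPolynomial.eval₂_eq']
  refine (Finset.abs_sum_le_sum_abs _ _).trans ?_
  obtain ⟨R', hR'⟩ : ∃ R' : ℝ, R' = R * (((d : ℝ) + 1) ^ Fintype.card G * (X ^ d) ^ Fintype.card G) := ⟨_, rfl⟩
  have hR'0 : 0 ≤ R' := by rw [hR']; positivity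
  rw [← hR']
  have h1 : ∀ c ∈ P.support, |(MvPolynomial.aeval ξ : MvPolynomial G ℤ →ₐ[ℤ] ℝ).toRingHom (P.coeff c) * ∏ i, y i ^ c i| ≤
      R' * (X ^ d) ^ Fintype.card τ := by
    intro c hc
    rw [abs_mul, Finset.abs_prod]
    apply mul_le_mul _ _ (Finset.prod_nonneg fun i _ => abs_nonneg _) hR'0
    · rw [hR']
      exact abs_mv_le (P.coeff c) d (hPc c) R X hX1 hR (hPh c) ξ hξ
    · calc ∏ i, |y i ^ c i| ≤ ∏ _i : τ, X ^ d := by
            refine Finset.prod_le_prod (fun i _ => abs_nonneg _) fun i _ => ?_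
            rw [abs_pow]
            have := (MvPolynomial.degreeOf_le_iff.1 (hP i)) c hc
            exact (pow_le_pow_left₀ (abs_nonneg _) (hy i) _).trans (pow_le_pow_right₀ hX1 this)
        _ = _ := by rw [Finset.prod_const, Finset.card_univ]
  refine (Finset.sum_le_sum h1).trans ?_
  rw [Finset.sum_const, nsmul_eq_mul]
  have h2 : (P.support.card : ℝ) ≤ ((d : ℝ) + 1) ^ Fintype.card τ := by exact_mod_cast card_support_le' P d hP
  have h3 : 0 ≤ R' * (X ^ d) ^ Fintype.card τ := by positivity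
  calc (P.support.card : ℝ) * (R' * (X ^ d) ^ Fintype.card τ) ≤ ((d : ℝ) + 1) ^ Fintype.card τ * (R' * (X ^ d) ^ Fintype.card τ) :=
        mul_le_mul_of_nonneg_right h2 h3
    _ = _ := by ring

/-- no value of a polynomial with coefficients in `ℤ[ξ]` is small compared to one of its coefficients: the multiples of all
nonconstant values are uniformly distributed -/
theorem nested_good {G τ : Type} [Fintype G] [DecidableEq G] [Fintype τ] [DecidableEq τ] (d K : ℕ) (E H B A h : ℝ)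
    (hH : 0 ≤ H) (hB : 0 ≤ B) (hh : 0 ≤ h) (hA : H * (d * (Fintype.card G + Fintype.card τ)) + 2 ≤ A) :
    ∃ κ : ℝ, 0 < κ ∧ ∃ T₀ : ℝ, 1 ≤ T₀ ∧ ∀ T : ℝ, T₀ ≤ T → ∀ (ξ : G → ℝ) (y : τ → ℝ),
      (∀ i, |ξ i| ≤ T ^ H) → (∀ j, |y j| ≤ T ^ H) →
      (∀ P : MvPolynomial τ (MvPolynomial G ℤ), (∀ j, P.degreeOf j ≤ d) → (∀ e i, (P.coeff e).degreeOf i ≤ d) →
        (∀ e u, |(((P.coeff e).coeff u : ℤ) : ℝ)| ≤ T ^ A) → ∀ e, MvPolynomial.aeval ξ (P.coeff e) ≠ 0 →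
          T ^ (-B) * |MvPolynomial.aeval ξ (P.coeff e)| < |nval ξ y P|) →
      ∀ M : ℕ, T ^ (2 * (B + h) + 1) ≤ (M : ℝ) → (M : ℝ) ≤ T ^ E → ∀ P : MvPolynomial τ (MvPolynomial G ℤ),
        (∀ j, P.degreeOf j ≤ d) → (∀ e i, (P.coeff e).degreeOf i ≤ d) →
        (∀ e u, |(((P.coeff e).coeff u : ℤ) : ℝ)| ≤ (M : ℝ) ^ κ) →
        (∃ e, e ≠ 0 ∧ T ^ (-h) ≤ |MvPolynomial.aeval ξ (P.coeff e)|) → Good κ K M (nval ξ y P) := by
  obtain ⟨E', hE'⟩ : ∃ E' : ℝ, E' = max E 1 := ⟨_, rfl⟩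
  have hE'1 : 1 ≤ E' := by rw [hE']; exact le_max_right _ _
  have hEE' : E ≤ E' := by rw [hE']; exact le_max_left _ _
  obtain ⟨δ, hδE⟩ : ∃ δ : ℝ, δ = 1 / (8 * E') := ⟨_, rfl⟩
  have hδ : 0 < δ := by rw [hδE]; positivity
  have hδ8 : δ ≤ 1 / 8 := by
    rw [hδE]
    apply one_div_le_one_div_of_le (by norm_num)
    linarith
  have hδE' : E' * (8 * δ) = 1 := by
    rw [hδE]
    field_simp
  obtain ⟨κ₁, hκ₁, hκ₁1, M₀, hM₀, hgood⟩ := engine K δ hδ (by linarith)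
  obtain ⟨L, hL⟩ : ∃ L : ℝ, L = ((d : ℝ) + 1) ^ Fintype.card G * ((d : ℝ) + 1) ^ Fintype.card τ := ⟨_, rfl⟩
  have hd1 : (1 : ℝ) ≤ (d : ℝ) + 1 := by linarith [Nat.cast_nonneg (α := ℝ) d]
  have hL1 : 1 ≤ L := by
    rw [hL]
    have h1 : (1 : ℝ) ≤ ((d : ℝ) + 1) ^ Fintype.card G := one_le_pow₀ hd1
    have h2 : (1 : ℝ) ≤ ((d : ℝ) + 1) ^ Fintype.card τ := one_le_pow₀ hd1
    nlinarith
  refine ⟨min κ₁ δ, lt_min hκ₁ hδ, max (max (L + 2) M₀) 1, le_max_right _ _,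
    fun T hT ξ y hξ hy hmeas M hTM hMT P hPd hPc hPh hPe => ?_⟩
  have hT1 : 1 ≤ T := (le_max_right _ _).trans hT
  have hT0 : 0 < T := by linarith
  have hTL : L + 2 ≤ T := ((le_max_left _ _).trans (le_max_left _ _)).trans hT
  have hTM₀ : (M₀ : ℝ) ≤ T := ((le_max_right _ _).trans (le_max_left _ _)).trans hT
  have hTM' : T ≤ M := by
    calc T = T ^ (1 : ℝ) := (Real.rpow_one _).symm
      _ ≤ T ^ (2 * (B + h) + 1) := Real.rpow_le_rpow_of_exponent_le hT1 (by linarith)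
      _ ≤ M := hTM
  have hM1 : (1 : ℝ) ≤ M := hT1.trans hTM'
  have hM0 : (0 : ℝ) < M := by linarith
  have hMpos : 1 ≤ M := by exact_mod_cast hM1
  have hMM₀ : M₀ ≤ M := by exact_mod_cast hTM₀.trans hTM'
  have h2δ : (M : ℝ) ^ (2 * δ) ≤ T := by
    calc (M : ℝ) ^ (2 * δ) ≤ (T ^ E) ^ (2 * δ) := Real.rpow_le_rpow hM0.le hMT (by positivity)
      _ = T ^ (E * (2 * δ)) := by rw [← Real.rpow_mul hT0.le]
      _ ≤ T ^ (1 : ℝ) := by
          apply Real.rpow_le_rpow_of_exponent_le hT1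
          calc E * (2 * δ) ≤ E' * (2 * δ) := mul_le_mul_of_nonneg_right hEE' (by positivity)
            _ ≤ 1 := by linarith
      _ = T := Real.rpow_one _
  refine (hgood M hMM₀ _ ?_).mono hMpos (min_le_left _ _) le_rfl
  rintro ⟨q, hq, hqM, a, ha⟩
  have hq1 : (1 : ℝ) ≤ q := by exact_mod_cast hq
  have hq0 : (0 : ℝ) < q := by linarith
  have hMδ1 : 1 ≤ (M : ℝ) ^ δ := Real.one_le_rpow hM1 hδ.le
  have hMδ0 : 0 < (M : ℝ) ^ δ := by linarith
  have hPh' : ∀ e u, |(((P.coeff e).coeff u : ℤ) : ℝ)| ≤ (M : ℝ) ^ δ := fun e u =>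
    (hPh e u).trans (Real.rpow_le_rpow_of_exponent_le hM1 (min_le_right _ _))
  obtain ⟨X, hX⟩ : ∃ X : ℝ, X = T ^ H := ⟨_, rfl⟩
  have hX1 : 1 ≤ X := by rw [hX]; exact Real.one_le_rpow hT1 hH
  have hval := nval_le ξ y P d _ X hX1 hMδ0.le (fun i => by rw [hX]; exact hξ i) (fun j => by rw [hX]; exact hy j) hPd hPc hPh'
  have hXpow : (X ^ d) ^ Fintype.card G * (X ^ d) ^ Fintype.card τ = T ^ (H * (d * (Fintype.card G + Fintype.card τ))) := by
    rw [← pow_add, ← pow_mul, hX, ← Real.rpow_natCast, ← Real.rpow_mul hT0.le]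
    congr 1
    push_cast
    ring
  have hval2 : |nval ξ y P| ≤ (M : ℝ) ^ δ * (L * T ^ (A - 2)) := by
    refine hval.trans ?_
    calc (M : ℝ) ^ δ * (((d : ℝ) + 1) ^ Fintype.card G * (X ^ d) ^ Fintype.card G) *
          (((d : ℝ) + 1) ^ Fintype.card τ * (X ^ d) ^ Fintype.card τ) =
          (M : ℝ) ^ δ * (L * ((X ^ d) ^ Fintype.card G * (X ^ d) ^ Fintype.card τ)) := by rw [hL]; ring
      _ ≤ (M : ℝ) ^ δ * (L * T ^ (A - 2)) := by
          rw [hXpow]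
          gcongr
          linarith
  have hsmall : (M : ℝ) ^ (δ - 1) ≤ 1 := Real.rpow_le_one_of_one_le_of_nonpos hM1 (by linarith)
  have hTA2 : 1 ≤ T ^ (A - 2) := by
    apply Real.one_le_rpow hT1
    have : 0 ≤ H * (d * (Fintype.card G + Fintype.card τ)) := by positivity
    linarith
  have hMM : (M : ℝ) ^ δ * (M : ℝ) ^ δ ≤ T := by
    rw [← Real.rpow_add hM0]
    refine le_trans (le_of_eq ?_) h2δ
    congr 1
    ring
  have hMM1 : 1 ≤ (M : ℝ) ^ δ * (M : ℝ) ^ δ := by nlinarith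
  have haM : |(a : ℝ)| ≤ T * (L * T ^ (A - 2)) + 1 := by
    have e : (a : ℝ) = q * nval ξ y P - (q * nval ξ y P - a) := by ring
    rw [e]
    refine (abs_sub _ _).trans ?_
    rw [abs_mul, Nat.abs_cast]
    refine add_le_add ?_ (ha.trans hsmall)
    calc (q : ℝ) * |nval ξ y P| ≤ (M : ℝ) ^ δ * ((M : ℝ) ^ δ * (L * T ^ (A - 2))) :=
          mul_le_mul hqM hval2 (abs_nonneg _) hMδ0.le
      _ = (M : ℝ) ^ δ * (M : ℝ) ^ δ * (L * T ^ (A - 2)) := by ring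
      _ ≤ T * (L * T ^ (A - 2)) := mul_le_mul_of_nonneg_right hMM (by positivity)
  obtain ⟨Q, hQE⟩ : ∃ Q : MvPolynomial τ (MvPolynomial G ℤ),
    Q = MvPolynomial.C (MvPolynomial.C (q : ℤ)) * P - MvPolynomial.C (MvPolynomial.C a) := ⟨_, rfl⟩
  have hcoef : ∀ e, Q.coeff e = MvPolynomial.C (q : ℤ) * P.coeff e - if (0 : τ →₀ ℕ) = e then MvPolynomial.C a else 0 := by
    intro e
    rw [hQE, MvPolynomial.coeff_sub, MvPolynomial.coeff_C_mul, MvPolynomial.coeff_C]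
  have hQd : ∀ j, Q.degreeOf j ≤ d := by
    intro j
    rw [MvPolynomial.degreeOf_le_iff]
    intro e he
    rw [MvPolynomial.mem_support_iff, hcoef] at he
    by_cases h1 : (0 : τ →₀ ℕ) = e
    · rw [← h1]
      simp
    · rw [if_neg h1, sub_zero] at he
      exact (MvPolynomial.degreeOf_le_iff.1 (hPd j)) e (MvPolynomial.mem_support_iff.2 (right_ne_zero_of_mul he))
  have hcoef2 : ∀ e u, (Q.coeff e).coeff u = (q : ℤ) * (P.coeff e).coeff u -
      if (0 : τ →₀ ℕ) = e ∧ (0 : G →₀ ℕ) = u then a else 0 := by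
    intro e u
    rw [hcoef, MvPolynomial.coeff_sub, MvPolynomial.coeff_C_mul]
    congr 1
    by_cases h1 : (0 : τ →₀ ℕ) = e
    · rw [if_pos h1, MvPolynomial.coeff_C]
      simp [h1]
    · rw [if_neg h1, if_neg (fun h => h1 h.1), MvPolynomial.coeff_zero]
  have hQc : ∀ e i, (Q.coeff e).degreeOf i ≤ d := by
    intro e i
    rw [MvPolynomial.degreeOf_le_iff]
    intro u hu
    rw [MvPolynomial.mem_support_iff, hcoef2] at hu
    by_cases h1 : (0 : τ →₀ ℕ) = e ∧ (0 : G →₀ ℕ) = u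
    · rw [← h1.2]
      simp
    · rw [if_neg h1, sub_zero] at hu
      exact (MvPolynomial.degreeOf_le_iff.1 (hPc e i)) u (MvPolynomial.mem_support_iff.2 (right_ne_zero_of_mul hu))
  have hQh : ∀ e u, |(((Q.coeff e).coeff u : ℤ) : ℝ)| ≤ T ^ A := by
    intro e u
    have eA : T ^ A = T * (T * T ^ (A - 2)) := by
      rw [← mul_assoc, ← sq, ← Real.rpow_natCast T 2, ← Real.rpow_add hT0]
      congr 1
      push_cast
      ring
    rw [hcoef2]
    push_cast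
    refine (abs_sub _ _).trans ?_
    rw [abs_mul, Nat.abs_cast]
    have h1 : (q : ℝ) * |(((P.coeff e).coeff u : ℤ) : ℝ)| ≤ T :=
      (mul_le_mul hqM (hPh' e u) (abs_nonneg _) hMδ0.le).trans hMM
    have h2 : |(((if (0 : τ →₀ ℕ) = e ∧ (0 : G →₀ ℕ) = u then a else 0 : ℤ)) : ℝ)| ≤ T * (L * T ^ (A - 2)) + 1 := by
      split_ifs
      · exact haM
      · simp
        positivity
    push_cast at h2
    rw [eA]
    have h3 : T * ((L + 2) * T ^ (A - 2)) ≤ T * (T * T ^ (A - 2)) := by gcongr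
    have h4 : T * (L * T ^ (A - 2)) + 2 * T ≤ T * ((L + 2) * T ^ (A - 2)) := by nlinarith
    linarith
  have hQv : nval ξ y Q = q * nval ξ y P - a := by
    unfold nval
    rw [hQE, MvPolynomial.eval₂_sub, MvPolynomial.eval₂_mul, MvPolynomial.eval₂_C, MvPolynomial.eval₂_C]
    simp
  obtain ⟨e, he0, he1⟩ := hPe
  have hQe : MvPolynomial.aeval ξ (Q.coeff e) = q * MvPolynomial.aeval ξ (P.coeff e) := by
    rw [hcoef, if_neg (fun h => he0 h.symm), sub_zero, map_mul, MvPolynomial.aeval_C]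
    simp
  have hTh : 0 < T ^ (-h) := Real.rpow_pos_of_pos hT0 _
  have hQe1 : T ^ (-h) ≤ |MvPolynomial.aeval ξ (Q.coeff e)| := by
    rw [hQe, abs_mul, Nat.abs_cast]
    nlinarith
  have h1 := hmeas Q hQd hQc hQh e (fun h0 => by
    rw [h0, abs_zero] at hQe1
    linarith)
  rw [hQv] at h1
  have h2 : (M : ℝ) ^ (δ - 1) ≤ T ^ (-B) * T ^ (-h) := by
    calc (M : ℝ) ^ (δ - 1) ≤ (T ^ (2 * (B + h) + 1)) ^ (δ - 1) :=
          Real.rpow_le_rpow_of_nonpos (Real.rpow_pos_of_pos hT0 _) hTM (by linarith)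
      _ = T ^ ((2 * (B + h) + 1) * (δ - 1)) := by rw [← Real.rpow_mul hT0.le]
      _ ≤ T ^ (-B + -h) := by
          apply Real.rpow_le_rpow_of_exponent_le hT1
          nlinarith
      _ = T ^ (-B) * T ^ (-h) := Real.rpow_add hT0 _ _
  have h3 : 0 < T ^ (-B) := Real.rpow_pos_of_pos hT0 _
  have h4 : T ^ (-B) * T ^ (-h) ≤ T ^ (-B) * |MvPolynomial.aeval ξ (Q.coeff e)| := mul_le_mul_of_nonneg_left hQe1 h3.le
  linarith

end Pool.Agent.Q29.Eqd
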