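import Pool.Agent.Q29.OvGood
import Pool.Agent.Y890.UC.Poly

set_option autoImplicit false

/-! # Logarithms of tuples of integers over given constants: the real form of the counting theorem -/

namespace Pool.Agent.Q29.Eqd

open Finset Pool.Agent.Y890.UC

/-- the tuples of integers up to `N` for which the value of some polynomial at the logarithms is small compared to one of its
coefficients -/
def ExcR (m g d N : ℕ) (A B : ℝ) (ξ : Fin g → ℝ) : Set (Fin m → ℕ) :=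
  {x | (∀ j, 1 ≤ x j ∧ x j ≤ N) ∧
    ∃ P : MvPolynomial (Fin m) (MvPolynomial (Fin g) ℤ), (∀ j, P.degreeOf j ≤ d) ∧
      (∀ e i, (P.coeff e).degreeOf i ≤ d) ∧ (∀ e u, |(((P.coeff e).coeff u : ℤ) : ℝ)| ≤ (N : ℝ) ^ A) ∧
      ∃ e, MvPolynomial.aeval ξ (P.coeff e) ≠ 0 ∧
        |nval ξ (fun j => Real.log (x j)) P| ≤ (N : ℝ) ^ (-B) * |MvPolynomial.aeval ξ (P.coeff e)|}

theorem ExcR_sub (m g d N : ℕ) (A B : ℝ) (ξ : Fin g → ℝ) (hN : 1 ≤ N) (B' : ℝ) (hB : B' ≤ B) :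
    ExcR m g d N A B ξ ⊆ ExcLog m g d N A B' (fun i => (ξ i : ℂ)) := by
  rintro x ⟨hx, P, hPd, hPc, hPh, e, he0, hes⟩
  have hN1 : (1 : ℝ) ≤ N := by exact_mod_cast hN
  obtain ⟨φ, hφ⟩ : ∃ φ : MvPolynomial (Fin g) ℤ →+* ℂ,
    φ = (algebraMap ℝ ℂ).comp (MvPolynomial.aeval ξ : MvPolynomial (Fin g) ℤ →ₐ[ℤ] ℝ).toRingHom := ⟨_, rfl⟩
  have hφ1 : ∀ R, φ R = ((MvPolynomial.aeval ξ R : ℝ) : ℂ) := fun R => by rw [hφ]; rfl
  have hφ3 : (MvPolynomial.aeval (fun i => (ξ i : ℂ)) : MvPolynomial (Fin g) ℤ →ₐ[ℤ] ℂ).toRingHom = φ := by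
    rw [hφ]
    apply MvPolynomial.ringHom_ext
    · intro r
      simp
    · intro i
      simp
  have hφ2 : ∀ R : MvPolynomial (Fin g) ℤ, MvPolynomial.aeval (fun i => (ξ i : ℂ)) R = φ R := by
    intro R
    rw [← hφ3]
    rfl
  refine ⟨hx, P, hPd, hPc, hPh, e, ?_, ?_⟩
  · rw [hφ2, hφ1]
    exact_mod_cast he0
  · rw [hφ2, hφ1, hφ3, Complex.norm_real, Real.norm_eq_abs]
    have h6 : ((nval ξ (fun j => Real.log (x j)) P : ℝ) : ℂ) =
        MvPolynomial.eval₂ φ (fun j => ((Real.log (x j) : ℝ) : ℂ)) P := by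
      unfold nval
      rw [hφ]
      exact MvPolynomial.hom_eval₂ P _ (algebraMap ℝ ℂ) _
    rw [← h6, Complex.norm_real, Real.norm_eq_abs]
    refine hes.trans ?_
    refine mul_le_mul_of_nonneg_right ?_ (abs_nonneg _)
    exact Real.rpow_le_rpow_of_exponent_le hN1 (by linarith)

theorem excR_count (m g d : ℕ) (hm : 1 ≤ m) (A ε : ℝ) (hε : 0 < ε) : ∃ B C : ℝ, 0 ≤ B ∧ 0 ≤ C ∧ ∀ N : ℕ, 1 ≤ N →
    ∀ ξ : Fin g → ℝ, (ExcR m g d N A B ξ).Finite ∧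
      ((ExcR m g d N A B ξ).ncard : ℝ) ≤ C * (N : ℝ) ^ ((m : ℝ) - 1 + ε) := by
  obtain ⟨B, C, h⟩ := excLog_count m g d hm A ε hε
  refine ⟨max B 0, max C 0, le_max_right _ _, le_max_right _ _, fun N hN ξ => ?_⟩
  have h1 := ExcR_sub m g d N A (max B 0) ξ hN B (le_max_left _ _)
  have hfin := ExcLog_fin m g d N A B (fun i => (ξ i : ℂ))
  have h2 := Set.ncard_le_ncard h1 hfin
  refine ⟨hfin.subset h1, ?_⟩
  calc ((ExcR m g d N A (max B 0) ξ).ncard : ℝ) ≤ ((ExcLog m g d N A B (fun i => (ξ i : ℂ))).ncard : ℝ) := by exact_mod_cast h2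
    _ ≤ C * (N : ℝ) ^ ((m : ℝ) - 1 + ε) := h N hN _
    _ ≤ _ := mul_le_mul_of_nonneg_right (le_max_left _ _) (Real.rpow_nonneg (Nat.cast_nonneg _) _)

/-- transfer: if, for large `N`, the tuples of `S N ξ` are in `ExcR`, then there are few of them -/
theorem excR_transfer (m g d : ℕ) (hm : 1 ≤ m) (A B C ε T₀ : ℝ) (hε : 0 < ε) (hC : 0 ≤ C)
    (hcount : ∀ N : ℕ, 1 ≤ N → ∀ ξ : Fin g → ℝ, (ExcR m g d N A B ξ).Finite ∧
      ((ExcR m g d N A B ξ).ncard : ℝ) ≤ C * (N : ℝ) ^ ((m : ℝ) - 1 + ε)) (N : ℕ) (hN : 1 ≤ N) (ξ : Fin g → ℝ)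
    (S : Set (Fin m → ℕ)) (hS : ∀ x ∈ S, ∀ j, 1 ≤ x j ∧ x j ≤ N)
    (hsub : T₀ ≤ N → S ⊆ ExcR m g d N A B ξ) :
    S.Finite ∧ (S.ncard : ℝ) ≤ (C + (max T₀ 1) ^ m) * (N : ℝ) ^ ((m : ℝ) - 1 + ε) := by
  have hN1 : (1 : ℝ) ≤ N := by exact_mod_cast hN
  have hm1 : (1 : ℝ) ≤ m := by exact_mod_cast hm
  have hone : 1 ≤ (N : ℝ) ^ ((m : ℝ) - 1 + ε) := Real.one_le_rpow hN1 (by linarith)
  have hbox : S ⊆ (Fintype.piFinset fun _ : Fin m => Finset.Icc 1 N : Finset (Fin m → ℕ)) := by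
    intro t ht
    rw [Finset.mem_coe, Fintype.mem_piFinset]
    exact fun j => Finset.mem_Icc.2 (hS t ht j)
  have hmax : (0 : ℝ) ≤ (max T₀ 1) ^ m := by
    have : 0 ≤ max T₀ (1 : ℝ) := le_max_of_le_right zero_le_one
    positivity
  refine ⟨(Finset.finite_toSet _).subset hbox, ?_⟩
  rcases le_or_gt T₀ (N : ℝ) with hT | hT
  · have h1 := Set.ncard_le_ncard (hsub hT) (hcount N hN ξ).1
    have h2 := (hcount N hN ξ).2
    calc (S.ncard : ℝ) ≤ ((ExcR m g d N A B ξ).ncard : ℝ) := by exact_mod_cast h1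
      _ ≤ C * (N : ℝ) ^ ((m : ℝ) - 1 + ε) := h2
      _ ≤ _ := mul_le_mul_of_nonneg_right (by linarith) (by linarith)
  · have h2 : (S.ncard : ℝ) ≤ (N : ℝ) ^ m := by
      have h1 := Set.ncard_le_ncard hbox (Finset.finite_toSet _)
      rw [Set.ncard_coe_finset, Fintype.card_piFinset, Finset.prod_const, Finset.card_univ, Fintype.card_fin, Nat.card_Icc,
        Nat.add_sub_cancel] at h1
      exact_mod_cast h1
    have h3 : (N : ℝ) ^ m ≤ (max T₀ 1) ^ m := pow_le_pow_left₀ (by linarith) (hT.le.trans (le_max_left _ _)) m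
    calc (S.ncard : ℝ) ≤ (max T₀ 1) ^ m := h2.trans h3
      _ ≤ (C + (max T₀ 1) ^ m) * 1 := by linarith
      _ ≤ _ := mul_le_mul_of_nonneg_left hone (by linarith)

theorem log_le_rpow (N x : ℕ) (hx : 1 ≤ x) (hxN : x ≤ N) (H : ℝ) (hH : 1 ≤ H) : |Real.log x| ≤ (N : ℝ) ^ H := by
  have h1 : (1 : ℝ) ≤ x := by exact_mod_cast hx
  have h2 : (x : ℝ) ≤ N := by exact_mod_cast hxN
  have h3 : (1 : ℝ) ≤ N := h1.trans h2
  rw [abs_of_nonneg (Real.log_nonneg h1)]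
  calc Real.log x ≤ x := (Real.log_le_sub_one_of_pos (by linarith)).trans (by linarith)
    _ ≤ N := h2
    _ = (N : ℝ) ^ (1 : ℝ) := (Real.rpow_one _).symm
    _ ≤ _ := Real.rpow_le_rpow_of_exponent_le h3 hH

end Pool.Agent.Q29.Eqd
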