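import Pool.Agent.Y890.UC.LogInt

set_option autoImplicit false

/-! # Real powers of integers, over arbitrary constants -/

namespace Pool.Agent.Q29.Eqd

open Finset Pool.Agent.Y890.UC Pool.Agent.TH818.AR Pool.Agent.TH818.AP Pool.Agent.Y120 Filter Topology

/-- different real powers are linearly independent -/
theorem pow_indep {ι : Type} (S : Finset ι) (θ : ι → ℝ) (hθ : Set.InjOn θ S) (a : ι → ℝ)
    (h : ∀ t ∈ Set.Icc (1 : ℝ) 2, ∑ i ∈ S, a i * t ^ θ i = 0) : ∀ i ∈ S, a i = 0 := by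
  classical
  obtain ⟨f, hf⟩ : ∃ f : ℝ → ℝ, f = fun s => ∑ i ∈ S, a i * Real.exp (θ i * s) := ⟨_, rfl⟩
  have han : AnalyticOnNhd ℝ f Set.univ := by
    rw [hf]
    intro s _
    refine Finset.analyticAt_fun_sum _ fun i _ => ?_
    exact analyticAt_const.mul ((analyticAt_const.mul analyticAt_id).rexp)
  have hlog2 : 0 < Real.log 2 := Real.log_pos (by norm_num)
  have hev : f =ᶠ[𝓝 (Real.log 2 / 2)] 0 := by
    have h1 : Set.Ioo 0 (Real.log 2) ∈ 𝓝 (Real.log 2 / 2) := Ioo_mem_nhds (by linarith) (by linarith)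
    filter_upwards [h1] with s hs
    rw [hf]
    have h2 := h (Real.exp s) ⟨Real.one_le_exp hs.1.le, by
      calc Real.exp s ≤ Real.exp (Real.log 2) := Real.exp_le_exp.2 hs.2.le
        _ = 2 := Real.exp_log (by norm_num)⟩
    show ∑ i ∈ S, a i * Real.exp (θ i * s) = 0
    rw [← h2]
    refine Finset.sum_congr rfl fun i _ => ?_
    rw [← Real.exp_mul]
    congr 2
    ring
  have hzero : ∀ s, f s = 0 := fun s =>
    han.eqOn_zero_of_preconnected_of_eventuallyEq_zero isPreconnected_univ (Set.mem_univ _) hev (Set.mem_univ s)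
  by_contra hcon
  push Not at hcon
  obtain ⟨i₁, hi₁, hai₁⟩ := hcon
  obtain ⟨T, hT⟩ : ∃ T : Finset ι, T = S.filter fun i => a i ≠ 0 := ⟨_, rfl⟩
  have hTne : T.Nonempty := ⟨i₁, by rw [hT]; exact mem_filter.2 ⟨hi₁, hai₁⟩⟩
  obtain ⟨i₀, hi₀, hmax⟩ := T.exists_max_image θ hTne
  have hi₀S : i₀ ∈ S ∧ a i₀ ≠ 0 := by rw [hT] at hi₀; exact mem_filter.1 hi₀
  have hsum : ∀ s, a i₀ + ∑ i ∈ T.erase i₀, a i * Real.exp ((θ i - θ i₀) * s) = 0 := by
    intro s
    have h1 := hzero s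
    rw [hf] at h1
    simp only at h1
    have h2 : ∑ i ∈ S, a i * Real.exp (θ i * s) = ∑ i ∈ T, a i * Real.exp (θ i * s) := by
      rw [hT, Finset.sum_filter_of_ne]
      intro i _ hne h0
      apply hne
      rw [h0, zero_mul]
    rw [h2, ← Finset.add_sum_erase _ _ hi₀] at h1
    have h3 : Real.exp (-(θ i₀ * s)) * (a i₀ * Real.exp (θ i₀ * s) + ∑ i ∈ T.erase i₀, a i * Real.exp (θ i * s)) = 0 := by
      rw [h1, mul_zero]
    rw [mul_add, Finset.mul_sum] at h3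
    have h4 : Real.exp (-(θ i₀ * s)) * (a i₀ * Real.exp (θ i₀ * s)) = a i₀ := by
      rw [mul_left_comm, ← Real.exp_add]
      simp
    rw [h4] at h3
    rw [← h3]
    congr 1
    refine Finset.sum_congr rfl fun i _ => ?_
    rw [mul_left_comm, ← Real.exp_add]
    congr 2
    ring
  have hlim : Tendsto (fun s : ℝ => a i₀ + ∑ i ∈ T.erase i₀, a i * Real.exp ((θ i - θ i₀) * s)) atTop (𝓝 (a i₀ + ∑ i ∈ T.erase i₀, 0)) := by
    refine tendsto_const_nhds.add (tendsto_finsetSum _ fun i hi => ?_)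
    have hne : i ≠ i₀ := ne_of_mem_erase hi
    have hiT := mem_of_mem_erase hi
    have hiS : i ∈ S := by rw [hT] at hiT; exact (mem_filter.1 hiT).1
    have hlt : θ i < θ i₀ := lt_of_le_of_ne (hmax i hiT) fun h0 => hne (hθ hiS hi₀S.1 h0)
    have h1 : Tendsto (fun s : ℝ => (θ i - θ i₀) * s) atTop atBot :=
      tendsto_id.const_mul_atTop_of_neg (by linarith)
    have h2 := (Real.tendsto_exp_atBot.comp h1).const_mul (a i)
    rw [mul_zero] at h2
    exact h2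
  have hconst : Tendsto (fun s : ℝ => a i₀ + ∑ i ∈ T.erase i₀, a i * Real.exp ((θ i - θ i₀) * s)) atTop (𝓝 0) := by
    have : (fun s : ℝ => a i₀ + ∑ i ∈ T.erase i₀, a i * Real.exp ((θ i - θ i₀) * s)) = fun _ => 0 := funext hsum
    rw [this]
    exact tendsto_const_nhds
  have h5 := tendsto_nhds_unique hlim hconst
  rw [Finset.sum_const_zero, add_zero] at h5
  exact hi₀S.2 h5

theorem prod_pow {κ : Type} [Fintype κ] (lam : κ → ℝ) (l : κ → ℕ) (t : ℝ) (ht : 0 < t) :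
    ∏ i, (t ^ lam i) ^ l i = t ^ (∑ i, (l i : ℝ) * lam i) := by
  rw [Real.rpow_sum_of_pos ht]
  refine Finset.prod_congr rfl fun i _ => ?_
  rw [← Real.rpow_natCast, ← Real.rpow_mul ht.le]
  congr 1
  ring

/-- powers with exponents which are linearly independent over `ℚ` together with `1` -/
theorem AInd_pow {κ : Type} [Fintype κ] [DecidableEq κ] (lam : κ → ℝ)
    (hlam : ∀ (c : κ → ℤ) (m : ℤ), ∑ i, (c i : ℝ) * lam i = m → c = 0) :
    AInd (fun (i : κ) (t : ℝ) => t ^ lam i) 1 2 := by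
  classical
  intro d p hp
  obtain ⟨D, hD⟩ : ∃ D : ℕ, ∀ l, (p l).natDegree ≤ D := ⟨Finset.univ.sup fun l => (p l).natDegree,
    fun l => Finset.le_sup (f := fun l => (p l).natDegree) (mem_univ l)⟩
  obtain ⟨θ, hθE⟩ : ∃ θ : (κ → Fin (d + 1)) × ℕ → ℝ, θ = fun z => ∑ i, ((z.1 i : ℕ) : ℝ) * lam i + z.2 := ⟨_, rfl⟩
  have hinj : Set.InjOn θ (((univ : Finset (κ → Fin (d + 1))) ×ˢ range (D + 1) : Finset _) : Set _) := by
    rintro ⟨l, j⟩ _ ⟨l', j'⟩ _ h
    rw [hθE] at h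
    simp only at h
    have h1 := hlam (fun i => ((l i : ℕ) : ℤ) - ((l' i : ℕ) : ℤ)) ((j' : ℤ) - j) (by
      push_cast
      rw [Finset.sum_congr rfl (fun i _ => sub_mul ((l i : ℕ) : ℝ) ((l' i : ℕ) : ℝ) (lam i)), Finset.sum_sub_distrib]
      linarith)
    have h2 : l = l' := by
      funext i
      have h3 := congrFun h1 i
      simp only [Pi.zero_apply] at h3
      apply Fin.ext
      omega
    subst h2
    have h4 : (j : ℝ) = j' := by linarith
    have h5 : j = j' := by exact_mod_cast h4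
    rw [h5]
  have h := pow_indep ((univ : Finset (κ → Fin (d + 1))) ×ˢ range (D + 1)) θ hinj (fun z => (p z.1).coeff z.2) (by
    intro t ht
    have ht0 : 0 < t := by linarith [ht.1]
    rw [← hp t ht, Finset.sum_product]
    refine Finset.sum_congr rfl fun l _ => ?_
    rw [Polynomial.eval_eq_sum_range' (lt_of_le_of_lt (hD l) (Nat.lt_succ_self D)), Finset.sum_mul]
    refine Finset.sum_congr rfl fun j _ => ?_
    beta_reduce
    rw [prod_pow lam (fun i => (l i : ℕ)) t ht0, hθE]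
    simp only
    rw [Real.rpow_add ht0, Real.rpow_natCast]
    ring)
  funext l
  ext j
  by_cases hj : j ∈ range (D + 1)
  · have := h (l, j) (mem_product.2 ⟨mem_univ _, hj⟩)
    simpa using this
  · rw [mem_range] at hj
    rw [Polynomial.coeff_eq_zero_of_natDegree_lt (lt_of_le_of_lt (hD l) (by omega))]
    rfl

theorem oneVar_pow {κ : Type} [Fintype κ] [DecidableEq κ] (lam : κ → ℝ)
    (hlam : ∀ (c : κ → ℤ) (m : ℤ), ∑ i, (c i : ℝ) * lam i = m → c = 0) :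
    OneVar (fun T => IT T) (fun (x : ℕ) (i : κ) => (((x : ℝ) ^ lam i : ℝ) : ℂ)) := by
  classical
  intro h _ _ d A ε hε
  have hrat := oneVar_rat (fun (i : κ) (t : ℝ) => t ^ lam i) 1 2 (by norm_num)
    (fun i t ht => by
      have ht0 : 0 < t := by linarith [ht.1]
      have h1 : AnalyticAt ℝ (fun t : ℝ => Real.exp (Real.log t * lam i)) t :=
        ((analyticAt_log ht0).mul analyticAt_const).rexp
      refine h1.congr ?_
      filter_upwards [lt_mem_nhds ht0] with s hs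
      rw [Real.rpow_def_of_pos hs]) (AInd_pow lam hlam)
  obtain ⟨B₁, C₁, T₂, hC₁, hT₂, hu⟩ := hrat (h × (κ → Fin (d + 1))) d A (ε / 2) (by positivity)
  obtain ⟨Θ, hΘE⟩ : ∃ Θ : ℝ, Θ = d * ∑ i, |lam i| := ⟨_, rfl⟩
  have hΘ0 : 0 ≤ Θ := by rw [hΘE]; positivity
  have hΘ : ∀ l : κ → Fin (d + 1), |∑ i, ((l i : ℕ) : ℝ) * lam i| ≤ Θ := by
    intro l
    refine (Finset.abs_sum_le_sum_abs _ _).trans ?_
    rw [hΘE, Finset.mul_sum]
    refine Finset.sum_le_sum fun i _ => ?_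
    rw [abs_mul, Nat.abs_cast]
    have : ((l i : ℕ) : ℝ) ≤ d := by exact_mod_cast Nat.lt_succ_iff.1 (l i).2
    gcongr
  refine ⟨B₁ + Θ, C₁ * (4 / ε * 2 + 1), T₂, by positivity, hT₂, ?_⟩
  intro T hT ξ Y hY hrel
  have hT2 : 2 ≤ T := hT₂.trans hT
  have hT1 : 1 ≤ T := by linarith
  have hTp : 0 < T := by linarith
  have hYmem : ∀ x ∈ Y, 1 ≤ x ∧ (x : ℝ) ≤ T := by
    intro x hx
    have h1 := Finset.mem_Icc.1 (hY hx)
    exact ⟨h1.1, (Nat.le_floor_iff hTp.le).1 h1.2⟩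
  -- dyadic pieces
  set Kn : ℕ := Nat.log 2 ⌊T⌋₊ + 1 with hKn
  have hpiece : ∀ k : ℕ, (((Y.filter fun x => Nat.log 2 x = k).card : ℕ) : ℝ) ≤ C₁ * T ^ (ε / 2) := by
    intro k
    set Yk := Y.filter fun x => Nat.log 2 x = k with hYk
    have hk : ∀ x ∈ Yk, 2 ^ k ≤ x ∧ x < 2 ^ (k + 1) ∧ x ∈ Y := by
      intro x hx
      obtain ⟨h1, h2⟩ := Finset.mem_filter.1 hx
      have h3 := (hYmem x h1).1
      refine ⟨?_, ?_, h1⟩
      · rw [← h2]
        exact Nat.pow_log_le_self 2 (by omega)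
      · rw [← h2]
        exact Nat.lt_pow_succ_log_self (by norm_num) x
    have h2k : (0 : ℝ) < (2 : ℝ) ^ k := by positivity
    have h2k1 : (1 : ℝ) ≤ (2 : ℝ) ^ k := one_le_pow₀ (by norm_num)
    have h2kq : ((2 : ℚ) ^ k) ≠ 0 := by positivity
    have hinj : (Yk.image fun x : ℕ => (x : ℚ) / 2 ^ k).card = Yk.card := by
      refine Finset.card_image_of_injective _ ?_
      intro x y hxy
      have hxy' : (x : ℚ) / 2 ^ k = (y : ℚ) / 2 ^ k := hxy
      rw [div_left_inj' h2kq] at hxy'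
      exact_mod_cast hxy'
    rw [← hinj]
    obtain ⟨W, hWE⟩ : ∃ W : (κ → Fin (d + 1)) → ℝ, W = fun l => ((2 : ℝ) ^ k) ^ (∑ i, ((l i : ℕ) : ℝ) * lam i) := ⟨_, rfl⟩
    have hW0 : ∀ l, 0 < W l := fun l => by rw [hWE]; exact Real.rpow_pos_of_pos h2k _
    refine hu T hT (fun p => ξ p.1 * (W p.2 : ℂ)) _ ?_ ?_
    · intro q hq
      obtain ⟨x, hx, rfl⟩ := Finset.mem_image.1 hq
      obtain ⟨hx1, hx2, hxY⟩ := hk x hx
      have hxT := (hYmem x hxY).2
      have hx1' : (2 : ℝ) ^ k ≤ x := by exact_mod_cast hx1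
      have hx2' : (x : ℝ) < 2 ^ (k + 1) := by exact_mod_cast hx2
      rw [mem_RT]
      refine ⟨⟨?_, ?_⟩, ?_⟩
      · push_cast
        rw [le_div_iff₀ h2k]
        linarith
      · push_cast
        rw [div_le_iff₀ h2k]
        rw [pow_succ] at hx2'
        linarith
      · have h3 : ((x : ℚ) / 2 ^ k).den ∣ 2 ^ k := by
          have h4 : ((x : ℚ) / 2 ^ k) = ((x : ℤ) : ℚ) / ((2 ^ k : ℕ) : ℤ) := by push_cast; rfl
          rw [h4]
          have := Rat.den_dvd (x : ℤ) ((2 ^ k : ℕ) : ℤ)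
          exact_mod_cast this
        have h4 := Nat.le_of_dvd (by positivity) h3
        have h5 : (((x : ℚ) / 2 ^ k).den : ℝ) ≤ ((2 ^ k : ℕ) : ℝ) := by exact_mod_cast h4
        push_cast at h5
        linarith
    · intro q hq
      obtain ⟨x, hx, rfl⟩ := Finset.mem_image.1 hq
      obtain ⟨hx1, hx2, hxY⟩ := hk x hx
      have hxT := (hYmem x hxY).2
      have hx1' : (2 : ℝ) ^ k ≤ x := by exact_mod_cast hx1
      have hx0 : (0 : ℝ) < x := lt_of_lt_of_le h2k hx1'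
      have h2kT : (2 : ℝ) ^ k ≤ T := hx1'.trans hxT
      obtain ⟨c, hc, l₀, hl₀, hs⟩ := hrel x hxY
      set c' : (κ → Fin (d + 1)) → h × (κ → Fin (d + 1)) → ℤ := fun l p => if p.2 = l then c l p.1 else 0 with hc'
      have hsum : ∀ l : κ → Fin (d + 1), ∑ p : h × (κ → Fin (d + 1)), (ξ p.1 * (W p.2 : ℂ)) * (c' l p : ℂ) =
          (W l : ℂ) * ∑ s, ξ s * (c l s : ℂ) := by
        intro l
        rw [Fintype.sum_prod_type_right, Finset.sum_eq_single l]
        · rw [Finset.mul_sum]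
          refine Finset.sum_congr rfl fun s _ => ?_
          simp only [hc', if_true]
          ring
        · intro l' _ hne
          refine Finset.sum_eq_zero fun s _ => ?_
          simp only [hc', if_neg hne]
          simp
        · intro h1
          exact absurd (mem_univ l) h1
      refine ⟨c', ?_, l₀, ?_, ?_⟩
      · intro l p
        simp only [hc']
        split_ifs
        · exact hc _ _
        · simp only [Int.cast_zero, abs_zero]
          exact (Real.rpow_pos_of_pos hTp _).le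
      · change ∑ p : h × (κ → Fin (d + 1)), (ξ p.1 * (W p.2 : ℂ)) * (c' l₀ p : ℂ) ≠ 0
        rw [hsum]
        exact mul_ne_zero (by exact_mod_cast (hW0 l₀).ne') hl₀
      · change ‖∑ l : κ → Fin (d + 1), (∑ p : h × (κ → Fin (d + 1)), (ξ p.1 * (W p.2 : ℂ)) * (c' l p : ℂ)) *
            ∏ i, ((((((x : ℚ) / 2 ^ k : ℚ) : ℝ) ^ lam i : ℝ) : ℂ)) ^ (l i : ℕ)‖ ≤ T ^ (-B₁) *
            ‖∑ p : h × (κ → Fin (d + 1)), (ξ p.1 * (W p.2 : ℂ)) * (c' l₀ p : ℂ)‖
        rw [hsum l₀]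
        have h3 : ∑ l : κ → Fin (d + 1), (∑ p : h × (κ → Fin (d + 1)), (ξ p.1 * (W p.2 : ℂ)) * (c' l p : ℂ)) *
            ∏ i, ((((((x : ℚ) / 2 ^ k : ℚ) : ℝ) ^ lam i : ℝ) : ℂ)) ^ (l i : ℕ) =
            ∑ l : κ → Fin (d + 1), (∑ s, ξ s * (c l s : ℂ)) * ∏ i, ((((x : ℝ) ^ lam i : ℝ) : ℂ)) ^ (l i : ℕ) := by
          refine Finset.sum_congr rfl fun l _ => ?_
          rw [hsum]
          have h4 : ∏ i, ((((((x : ℚ) / 2 ^ k : ℚ) : ℝ) ^ lam i : ℝ) : ℂ)) ^ (l i : ℕ) =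
              (((((x : ℝ) / 2 ^ k) ^ (∑ i, ((l i : ℕ) : ℝ) * lam i) : ℝ)) : ℂ) := by
            rw [← prod_pow lam (fun i => (l i : ℕ)) _ (by positivity)]
            push_cast
            rfl
          have h5 : ∏ i, ((((x : ℝ) ^ lam i : ℝ) : ℂ)) ^ (l i : ℕ) =
              ((((x : ℝ) ^ (∑ i, ((l i : ℕ) : ℝ) * lam i) : ℝ)) : ℂ) := by
            rw [← prod_pow lam (fun i => (l i : ℕ)) _ hx0]
            push_cast
            rfl
          have h6 : (x : ℝ) ^ (∑ i, ((l i : ℕ) : ℝ) * lam i) = W l * ((x : ℝ) / 2 ^ k) ^ (∑ i, ((l i : ℕ) : ℝ) * lam i) := by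
            rw [hWE]
            simp only
            rw [← Real.mul_rpow h2k.le (by positivity)]
            congr 1
            field_simp
          rw [h4, h5, h6]
          push_cast
          ring
        rw [h3]
        refine hs.trans ?_
        rw [norm_mul, Complex.norm_real, Real.norm_eq_abs, abs_of_pos (hW0 l₀)]
        have h4 : T ^ (-(B₁ + Θ)) = T ^ (-B₁) * T ^ (-Θ) := by
          rw [← Real.rpow_add hTp]
          congr 1
          ring
        have h5 : T ^ (-Θ) ≤ W l₀ := by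
          rw [hWE]
          have h6 := (abs_le.1 (hΘ l₀)).1
          calc T ^ (-Θ) ≤ ((2 : ℝ) ^ k) ^ (-Θ) := Real.rpow_le_rpow_of_nonpos h2k h2kT (by linarith)
            _ ≤ _ := Real.rpow_le_rpow_of_exponent_le h2k1 h6
        rw [h4, mul_assoc]
        apply mul_le_mul_of_nonneg_left _ (Real.rpow_pos_of_pos hTp _).le
        exact mul_le_mul_of_nonneg_right h5 (norm_nonneg _)
  -- summation
  have hmaps : ∀ x ∈ Y, Nat.log 2 x ∈ Finset.range Kn := by
    intro x hx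
    rw [Finset.mem_range, hKn]
    have h1 := Finset.mem_Icc.1 (hY hx)
    have h2 : Nat.log 2 x ≤ Nat.log 2 ⌊T⌋₊ := Nat.log_mono_right h1.2
    omega
  have hcount := Finset.card_eq_sum_card_fiberwise (f := fun x => Nat.log 2 x) (s := Y) (t := Finset.range Kn)
    (fun x hx => hmaps x (Finset.mem_coe.1 hx))
  have hKle : (Kn : ℝ) ≤ (4 / ε * 2 + 1) * T ^ (ε / 2) := by
    have h1 : (2 : ℝ) ^ (Nat.log 2 ⌊T⌋₊) ≤ T := by
      have h2 : 2 ^ (Nat.log 2 ⌊T⌋₊) ≤ ⌊T⌋₊ := Nat.pow_log_le_self 2 (by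
        have : 1 ≤ ⌊T⌋₊ := (Nat.one_le_floor_iff T).2 hT1
        omega)
      have h3 : ((2 ^ (Nat.log 2 ⌊T⌋₊) : ℕ) : ℝ) ≤ (⌊T⌋₊ : ℝ) := by exact_mod_cast h2
      push_cast at h3
      exact h3.trans (Nat.floor_le hTp.le)
    have h2 : (Nat.log 2 ⌊T⌋₊ : ℝ) * Real.log 2 ≤ Real.log T := by
      rw [← Real.log_pow]
      exact Real.log_le_log (by positivity) h1
    have h3 : Real.log T ≤ T ^ (ε / 2) / (ε / 2) := Real.log_le_rpow_div hTp.le (by positivity)
    have h4 : (1 : ℝ) / 2 < Real.log 2 := by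
      have := Real.log_two_gt_d9
      linarith
    have h5 : (0 : ℝ) ≤ (Nat.log 2 ⌊T⌋₊ : ℝ) := Nat.cast_nonneg _
    have h6 : 1 ≤ T ^ (ε / 2) := Real.one_le_rpow hT1 (by positivity)
    have h7 : (Nat.log 2 ⌊T⌋₊ : ℝ) ≤ 2 * (T ^ (ε / 2) / (ε / 2)) := by nlinarith
    rw [hKn]
    push_cast
    calc (Nat.log 2 ⌊T⌋₊ : ℝ) + 1 ≤ 2 * (T ^ (ε / 2) / (ε / 2)) + T ^ (ε / 2) := add_le_add h7 h6
      _ = (4 / ε + 1) * T ^ (ε / 2) := by field_simp; ring
      _ ≤ (4 / ε * 2 + 1) * T ^ (ε / 2) := by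
          refine mul_le_mul_of_nonneg_right ?_ (by linarith)
          have : 0 < 4 / ε := by positivity
          linarith
  have hTε : T ^ (ε / 2) * T ^ (ε / 2) = T ^ ε := by
    rw [← Real.rpow_add hTp]
    congr 1
    ring
  rw [hcount]
  push_cast
  calc ∑ k ∈ Finset.range Kn, (((Y.filter fun x => Nat.log 2 x = k).card : ℕ) : ℝ)
      ≤ ∑ k ∈ Finset.range Kn, C₁ * T ^ (ε / 2) := Finset.sum_le_sum fun k _ => hpiece k
    _ = Kn * (C₁ * T ^ (ε / 2)) := by rw [Finset.sum_const, Finset.card_range, nsmul_eq_mul]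
    _ ≤ ((4 / ε * 2 + 1) * T ^ (ε / 2)) * (C₁ * T ^ (ε / 2)) :=
        mul_le_mul_of_nonneg_right hKle (by positivity)
    _ = C₁ * (4 / ε * 2 + 1) * (T ^ (ε / 2) * T ^ (ε / 2)) := by ring
    _ = C₁ * (4 / ε * 2 + 1) * T ^ ε := by rw [hTε]

end Pool.Agent.Q29.Eqd
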