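import Mathlib

/-!
# Path sums for words in three letters

Paths in the quadrant `(s, r)` with diagonal steps `(1, -1)` and letter steps `y = (1, 0)`, `x = (0, -1)`,
`z = (0, 0)`, with weights `wt`; `wt'` are the weights with `q` replaced by `1 / q` (up to sign). The
`q`-exponential of a weighted diagonal step intertwines the two sums.
-/

set_option autoImplicit false

namespace Pool.Agent.Q29.QInv

open Finset

/-- The three letters. -/
inductive Letter | x | y | z
  deriving DecidableEq

section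

variable {K : Type*} [Field K] (q : K)

/-- the weights -/
def wt : Letter → ℕ → ℕ → K
  | .x, s, _ => 1 / (1 - q ^ s)
  | .y, _, r => q ^ r / (1 - q ^ r)
  | .z, s, r => (1 - q ^ (s + r)) / ((1 - q ^ s) * (1 - q ^ r))

/-- the inverted weights -/
def wt' : Letter → ℕ → ℕ → K
  | .x, s, _ => q ^ s / (1 - q ^ s)
  | .y, _, r => 1 / (1 - q ^ r)
  | .z, s, r => (1 - q ^ (s + r)) / ((1 - q ^ s) * (1 - q ^ r))

/-- sum over the diagonal steps -/
def Sg (G : ℕ → ℕ → K) : ℕ → ℕ → K
  | s, 0 => G s 0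
  | s, r + 1 => G s (r + 1) + Sg G (s + 1) r

/-- the step of a letter -/
def L (w : Letter → ℕ → ℕ → K) : Letter → (ℕ → ℕ → K) → ℕ → ℕ → K
  | .y, G, s, r => w .y s r * G (s + 1) r
  | .x, _, _, 0 => 0
  | .x, G, s, r + 1 => w .x s (r + 1) * G s r
  | .z, G, s, r => w .z s r * G s r

/-- path sums -/
def P (w : Letter → ℕ → ℕ → K) : (k : ℕ) → (Fin k → Letter) → ℕ → ℕ → K
  | 0, _ => fun _ _ => 1
  | k + 1, u => Sg (L w (u 0) (P w k (Fin.tail u)))

/-- the `q`-factorial -/
def D (j : ℕ) : K := ∏ i ∈ range j, (1 - q ^ (i + 1))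

/-- coefficients of the intertwiner -/
def t (s j m : ℕ) : K := q ^ (s * m) * (∏ i ∈ range j, (1 - q ^ (s + i)) * (1 - q ^ (m + 1 + i))) / D q j

def t' (s j m : ℕ) : K := q ^ (s * m) * (∏ i ∈ range j, (1 - q ^ (s + 1 + i)) * (1 - q ^ (m + i))) / D q j

def T (G : ℕ → ℕ → K) (s r : ℕ) : K := ∑ p ∈ antidiagonal r, t q s p.1 p.2 * G (s + p.1) p.2

def T' (G : ℕ → ℕ → K) (s r : ℕ) : K := ∑ p ∈ antidiagonal r, t' q s p.1 p.2 * G (s + p.1) p.2

variable (hq : ∀ m : ℕ, 1 ≤ m → q ^ m ≠ 1)

include hq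

lemma one_sub_ne (m : ℕ) (hm : 1 ≤ m) : 1 - q ^ m ≠ 0 := sub_ne_zero.2 (hq m hm).symm

lemma D_ne (j : ℕ) : D q j ≠ 0 := by
  unfold D
  exact prod_ne_zero_iff.2 fun i _ => one_sub_ne q hq _ (by omega)

omit hq in
lemma D_succ (j : ℕ) : D q (j + 1) = D q j * (1 - q ^ (j + 1)) := prod_range_succ _ _

/-- the termwise identity -/
lemma t_rec (s j m : ℕ) :
    t q s (j + 1) m - t q (s + 1) j m = t' q s (j + 1) m - t' q s j (m + 1) := by
  have hD := D_ne q hq j
  have hj := one_sub_ne q hq (j + 1) (by omega)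
  have e1 : ∏ i ∈ range (j + 1), (1 - q ^ (s + i)) * (1 - q ^ (m + 1 + i)) =
      (1 - q ^ s) * (1 - q ^ (m + 1 + j)) *
        ∏ i ∈ range j, (1 - q ^ (s + 1 + i)) * (1 - q ^ (m + 1 + i)) := by
    rw [prod_mul_distrib, prod_mul_distrib, prod_range_succ', prod_range_succ (fun i => 1 - q ^ (m + 1 + i))]
    have : ∏ i ∈ range j, (1 - q ^ (s + (i + 1))) = ∏ i ∈ range j, (1 - q ^ (s + 1 + i)) :=
      prod_congr rfl fun i _ => by rw [show s + (i + 1) = s + 1 + i by ring]
    rw [this, add_zero]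
    ring
  have e2 : ∏ i ∈ range (j + 1), (1 - q ^ (s + 1 + i)) * (1 - q ^ (m + i)) =
      (1 - q ^ (s + 1 + j)) * (1 - q ^ m) *
        ∏ i ∈ range j, (1 - q ^ (s + 1 + i)) * (1 - q ^ (m + 1 + i)) := by
    rw [prod_mul_distrib, prod_mul_distrib, prod_range_succ' (fun i => 1 - q ^ (m + i)), prod_range_succ]
    have : ∏ i ∈ range j, (1 - q ^ (m + (i + 1))) = ∏ i ∈ range j, (1 - q ^ (m + 1 + i)) :=
      prod_congr rfl fun i _ => by rw [show m + (i + 1) = m + 1 + i by ring]
    rw [this, add_zero]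
    ring
  unfold t t'
  rw [e1, e2, D_succ]
  generalize ∏ i ∈ range j, (1 - q ^ (s + 1 + i)) * (1 - q ^ (m + 1 + i)) = C
  have hX : q ^ ((s + 1) * m) = q ^ (s * m) * q ^ m := by rw [← pow_add]; congr 1; ring
  have hX2 : q ^ (s * (m + 1)) = q ^ (s * m) * q ^ s := by rw [← pow_add]; congr 1
  rw [hX, hX2]
  have h1 : q ^ (m + 1 + j) = q ^ m * q ^ (j + 1) := by rw [← pow_add]; congr 1; ring
  have h2 : q ^ (s + 1 + j) = q ^ s * q ^ (j + 1) := by rw [← pow_add]; congr 1; ring
  rw [h1, h2]
  generalize q ^ (s * m) = a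
  generalize q ^ (j + 1) = b at hj ⊢
  generalize q ^ s = c
  generalize q ^ m = d
  field_simp
  ring

omit hq in
lemma t_zero (s m : ℕ) : t q s 0 m = q ^ (s * m) := by simp [t, D]

omit hq in
lemma t'_zero (s m : ℕ) : t' q s 0 m = q ^ (s * m) := by simp [t', D]

/-- the intertwining relation of the sum over diagonal steps -/
lemma T_Sg (H : ℕ → ℕ → K) (s r : ℕ) : T q (Sg H) s r = Sg (T' q H) s r := by
  induction r generalizing s with
  | zero => simp [T, T', Sg, t_zero, t'_zero]
  | succ r ih =>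
    rw [Sg, ← ih]
    have e1 : T q (Sg H) s (r + 1) = q ^ (s * (r + 1)) * Sg H s (r + 1) +
        ∑ p ∈ antidiagonal r, t q s (p.1 + 1) p.2 * Sg H (s + 1 + p.1) p.2 := by
      unfold T
      rw [Finset.Nat.sum_antidiagonal_succ]
      simp only [t_zero, add_zero]
      congr 1
      exact sum_congr rfl fun p _ => by rw [show s + (p.1 + 1) = s + 1 + p.1 by ring]
    have e2 : T q (Sg H) (s + 1) r =
        ∑ p ∈ antidiagonal r, t q (s + 1) p.1 p.2 * Sg H (s + 1 + p.1) p.2 := rfl
    have e3 : T' q H s (r + 1) = ∑ p ∈ antidiagonal (r + 1), t' q s p.1 p.2 * Sg H (s + p.1) p.2 -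
        ∑ p ∈ antidiagonal r, t' q s p.1 (p.2 + 1) * Sg H (s + 1 + p.1) p.2 := by
      unfold T'
      rw [Finset.Nat.sum_antidiagonal_succ', Finset.Nat.sum_antidiagonal_succ']
      have h0 : ∀ a, Sg H a 0 = H a 0 := fun a => by rw [Sg]
      have h1 : ∀ a b, H a (b + 1) = Sg H a (b + 1) - Sg H (a + 1) b := fun a b => by
        rw [Sg]; ring
      simp only [h0, h1]
      have h2 : ∑ x ∈ antidiagonal r, t' q s x.1 (x.2 + 1) *
          (Sg H (s + x.1) (x.2 + 1) - Sg H (s + x.1 + 1) x.2) =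
          ∑ x ∈ antidiagonal r, t' q s x.1 (x.2 + 1) * Sg H (s + x.1) (x.2 + 1) -
          ∑ p ∈ antidiagonal r, t' q s p.1 (p.2 + 1) * Sg H (s + 1 + p.1) p.2 := by
        rw [← sum_sub_distrib]
        exact sum_congr rfl fun p _ => by
          rw [show s + p.1 + 1 = s + 1 + p.1 by ring]; ring
      rw [h2]
      ring
    have e4 : ∑ p ∈ antidiagonal (r + 1), t' q s p.1 p.2 * Sg H (s + p.1) p.2 =
        q ^ (s * (r + 1)) * Sg H s (r + 1) +
        ∑ p ∈ antidiagonal r, t' q s (p.1 + 1) p.2 * Sg H (s + 1 + p.1) p.2 := by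
      rw [Finset.Nat.sum_antidiagonal_succ]
      simp only [t'_zero, add_zero]
      congr 1
      exact sum_congr rfl fun p _ => by rw [show s + (p.1 + 1) = s + 1 + p.1 by ring]
    rw [e1, e2, e3, e4]
    have e5 : ∑ p ∈ antidiagonal r, t q s (p.1 + 1) p.2 * Sg H (s + 1 + p.1) p.2 -
        ∑ p ∈ antidiagonal r, t q (s + 1) p.1 p.2 * Sg H (s + 1 + p.1) p.2 =
        ∑ p ∈ antidiagonal r, t' q s (p.1 + 1) p.2 * Sg H (s + 1 + p.1) p.2 -
        ∑ p ∈ antidiagonal r, t' q s p.1 (p.2 + 1) * Sg H (s + 1 + p.1) p.2 := by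
      rw [← sum_sub_distrib, ← sum_sub_distrib]
      refine sum_congr rfl fun p _ => ?_
      have := t_rec q hq s p.1 p.2
      rw [← sub_mul, ← sub_mul, this]
    linear_combination e5

/-- letter `y` -/
lemma T_y (G : ℕ → ℕ → K) (h0 : ∀ a, G a 0 = 0) (s r : ℕ) :
    T' q (L (wt q) .y G) s r = L (wt' q) .y (T q G) s r := by
  unfold T' T
  simp only [L, wt, wt']
  rw [mul_sum]
  refine sum_congr rfl fun p hp => ?_
  rw [show s + p.1 + 1 = s + 1 + p.1 by ring]
  rcases Nat.eq_zero_or_pos p.2 with h | h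
  · rw [h, h0]; ring
  obtain ⟨j, m⟩ := p
  simp only at h ⊢
  have hr : j + m = r := by simpa using hp
  have hm := one_sub_ne q hq m h
  have hr' := one_sub_ne q hq r (by omega)
  have hD := D_ne q hq j
  have key : (∏ i ∈ range j, (1 - q ^ (m + i))) * (1 - q ^ r) =
      (1 - q ^ m) * ∏ i ∈ range j, (1 - q ^ (m + 1 + i)) := by
    have h1 : ∏ i ∈ range (j + 1), (1 - q ^ (m + i)) = (∏ i ∈ range j, (1 - q ^ (m + i))) * (1 - q ^ r) := by
      rw [prod_range_succ, ← hr, add_comm j m]
    rw [← h1, prod_range_succ', add_zero, mul_comm]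
    congr 1
    exact prod_congr rfl fun i _ => by rw [show m + (i + 1) = m + 1 + i by ring]
  unfold t t'
  rw [prod_mul_distrib, prod_mul_distrib]
  have hX : q ^ ((s + 1) * m) = q ^ (s * m) * q ^ m := by rw [← pow_add]; congr 1; ring
  rw [hX]
  generalize q ^ (s * m) = a
  generalize (∏ i ∈ range j, (1 - q ^ (s + 1 + i))) = A
  generalize (∏ i ∈ range j, (1 - q ^ (m + i))) = B at key ⊢
  generalize (∏ i ∈ range j, (1 - q ^ (m + 1 + i))) = C at key ⊢
  field_simp
  linear_combination a * A * q ^ m * G (s + 1 + j) m * key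

/-- letter `z` -/
lemma T_z (G : ℕ → ℕ → K) (h0 : ∀ a, G a 0 = 0) (s r : ℕ) (hs : 1 ≤ s) :
    T' q (L (wt q) .z G) s r = L (wt' q) .z (T q G) s r := by
  unfold T' T
  simp only [L, wt, wt']
  rw [mul_sum]
  refine sum_congr rfl fun p hp => ?_
  rcases Nat.eq_zero_or_pos p.2 with h | h
  · rw [h, h0]; ring
  obtain ⟨j, m⟩ := p
  simp only at h ⊢
  have hr : j + m = r := by simpa using hp
  have hm := one_sub_ne q hq m h
  have hr' := one_sub_ne q hq r (by omega)
  have hs' := one_sub_ne q hq s hs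
  have hsj := one_sub_ne q hq (s + j) (by omega)
  have hD := D_ne q hq j
  have key : (∏ i ∈ range j, (1 - q ^ (m + i))) * (1 - q ^ r) =
      (1 - q ^ m) * ∏ i ∈ range j, (1 - q ^ (m + 1 + i)) := by
    have h1 : ∏ i ∈ range (j + 1), (1 - q ^ (m + i)) = (∏ i ∈ range j, (1 - q ^ (m + i))) * (1 - q ^ r) := by
      rw [prod_range_succ, ← hr, add_comm j m]
    rw [← h1, prod_range_succ', add_zero, mul_comm]
    congr 1
    exact prod_congr rfl fun i _ => by rw [show m + (i + 1) = m + 1 + i by ring]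
  have key2 : (∏ i ∈ range j, (1 - q ^ (s + i))) * (1 - q ^ (s + j)) =
      (1 - q ^ s) * ∏ i ∈ range j, (1 - q ^ (s + 1 + i)) := by
    have h1 : ∏ i ∈ range (j + 1), (1 - q ^ (s + i)) =
        (∏ i ∈ range j, (1 - q ^ (s + i))) * (1 - q ^ (s + j)) := by
      rw [prod_range_succ]
    rw [← h1, prod_range_succ', add_zero, mul_comm]
    congr 1
    exact prod_congr rfl fun i _ => by rw [show s + (i + 1) = s + 1 + i by ring]
  unfold t t'
  rw [prod_mul_distrib, prod_mul_distrib]
  have hsr : s + j + m = s + r := by omega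
  rw [hsr]
  generalize q ^ (s * m) = a
  generalize (∏ i ∈ range j, (1 - q ^ (s + 1 + i))) = A at key2 ⊢
  generalize (∏ i ∈ range j, (1 - q ^ (m + i))) = B at key ⊢
  generalize (∏ i ∈ range j, (1 - q ^ (m + 1 + i))) = C at key ⊢
  generalize (∏ i ∈ range j, (1 - q ^ (s + i))) = E at key2 ⊢
  have e1 : A = E * (1 - q ^ (s + j)) / (1 - q ^ s) := by
    rw [key2]; field_simp
  have e2 : C = B * (1 - q ^ r) / (1 - q ^ m) := by
    rw [key]; field_simp
  rw [e1, e2]
  field_simp

/-- letter `x` -/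
lemma T_x (G : ℕ → ℕ → K) (s r : ℕ) (hs : 1 ≤ s) :
    T' q (L (wt q) .x G) s r = L (wt' q) .x (T q G) s r := by
  cases r with
  | zero => simp [T', L]
  | succ r =>
    unfold T'
    rw [Finset.Nat.sum_antidiagonal_succ']
    simp only [L, mul_zero, zero_add, wt, wt']
    unfold T
    rw [mul_sum]
    refine sum_congr rfl fun p hp => ?_
    obtain ⟨j, m⟩ := p
    simp only
    have hs' := one_sub_ne q hq s hs
    have hsj := one_sub_ne q hq (s + j) (by omega)
    have hD := D_ne q hq j
    have key2 : (∏ i ∈ range j, (1 - q ^ (s + i))) * (1 - q ^ (s + j)) =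
        (1 - q ^ s) * ∏ i ∈ range j, (1 - q ^ (s + 1 + i)) := by
      have h1 : ∏ i ∈ range (j + 1), (1 - q ^ (s + i)) =
          (∏ i ∈ range j, (1 - q ^ (s + i))) * (1 - q ^ (s + j)) := by
        rw [prod_range_succ]
      rw [← h1, prod_range_succ', add_zero, mul_comm]
      congr 1
      exact prod_congr rfl fun i _ => by rw [show s + (i + 1) = s + 1 + i by ring]
    unfold t t'
    rw [prod_mul_distrib, prod_mul_distrib]
    have hX2 : q ^ (s * (m + 1)) = q ^ (s * m) * q ^ s := by rw [← pow_add]; congr 1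
    rw [hX2]
    generalize q ^ (s * m) = a
    generalize (∏ i ∈ range j, (1 - q ^ (s + 1 + i))) = A at key2 ⊢
    generalize (∏ i ∈ range j, (1 - q ^ (m + 1 + i))) = C
    generalize (∏ i ∈ range j, (1 - q ^ (s + i))) = E at key2 ⊢
    have e1 : A = E * (1 - q ^ (s + j)) / (1 - q ^ s) := by
      rw [key2]; field_simp
    rw [e1]
    field_simp

omit hq in
lemma Sg_congr {G H : ℕ → ℕ → K} (s₀ : ℕ) (h : ∀ s r, s₀ ≤ s → G s r = H s r) (s r : ℕ) (hs : s₀ ≤ s) :
    Sg G s r = Sg H s r := by
  induction r generalizing s with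
  | zero => rw [Sg, Sg, h s 0 hs]
  | succ r ih => rw [Sg, Sg, h s _ hs, ih (s + 1) (by omega)]

omit hq in
lemma Sg_delta (s r : ℕ) : Sg (fun _ r => if r = 0 then (1 : K) else 0) s r = 1 := by
  induction r generalizing s with
  | zero => simp [Sg]
  | succ r ih => simp [Sg, ih]

/-- the base case -/
lemma T_one (s r : ℕ) : T q (fun _ _ => 1) s r = 1 := by
  have h1 : (fun _ _ => (1 : K)) = Sg (fun _ r => if r = 0 then (1 : K) else 0) := by
    funext s r
    rw [Sg_delta]
  rw [h1, T_Sg q hq]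
  have h2 : T' q (fun _ r => if r = 0 then (1 : K) else 0) = (fun _ r => if r = 0 then (1 : K) else 0) := by
    funext s r
    unfold T'
    rw [sum_eq_single (r, 0)]
    · rcases Nat.eq_zero_or_pos r with h | h
      · simp [h, t'_zero]
      · rw [if_neg (by omega)]
        unfold t'
        rw [prod_eq_zero (i := 0) (by simpa using h) (by simp)]
        simp
    · intro p hp hne
      have : p.2 ≠ 0 := by
        intro h
        apply hne
        have h3 : p.1 + p.2 = r := by simpa using hp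
        ext
        · simp; omega
        · simp [h]
      simp [this]
    · simp
  rw [h2, Sg_delta]

/-- number of letters `x` -/
def cX {k : ℕ} (u : Fin k → Letter) : ℕ := (univ.filter fun h => u h = .x).card

omit hq in
lemma cX_succ {k : ℕ} (u : Fin (k + 1) → Letter) :
    cX u = (if u 0 = .x then 1 else 0) + cX (Fin.tail u) := by
  unfold cX
  rw [card_filter, card_filter, Fin.sum_univ_succ]
  rfl

omit hq in
/-- a path must come down to zero -/
lemma L_zero (w : Letter → ℕ → ℕ → K) (k : ℕ) (u : Fin (k + 1) → Letter)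
    (ih : ∀ s r, r < cX (Fin.tail u) → P w k (Fin.tail u) s r = 0) (s r : ℕ) (hr : r < cX u) :
    L w (u 0) (P w k (Fin.tail u)) s r = 0 := by
  rw [cX_succ] at hr
  cases hu : u 0 with
  | y => rw [L, ih _ _ (by rw [hu] at hr; simpa using hr), mul_zero]
  | z => rw [L, ih _ _ (by rw [hu] at hr; simpa using hr), mul_zero]
  | x =>
    rw [hu, if_pos rfl] at hr
    cases r with
    | zero => rfl
    | succ r => rw [L, ih _ _ (by omega), mul_zero]

omit hq in
/-- a path must come down to zero -/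
lemma P_zero (w : Letter → ℕ → ℕ → K) (k : ℕ) (u : Fin k → Letter) (s r : ℕ) (hr : r < cX u) :
    P w k u s r = 0 := by
  induction k generalizing s r with
  | zero => simp [cX] at hr
  | succ k ih =>
    have key : ∀ s r, r < cX u → L w (u 0) (P w k (Fin.tail u)) s r = 0 :=
      fun s r hr => L_zero w k u (fun s r hr => ih _ _ _ hr) s r hr
    rw [P]
    induction r generalizing s with
    | zero => rw [Sg, key _ _ hr]
    | succ r ih2 => rw [Sg, key _ _ hr, ih2 (s + 1) (by omega), add_zero]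

/-- the intertwiner maps the path sum to the inverted path sum -/
lemma P_T (k : ℕ) (u : Fin k → Letter) (hu : k ≠ 0 → 1 ≤ cX u ∧
    ∀ i : Fin k, i.1 + 1 = k → u i = .x) (s r : ℕ) (hs : 1 ≤ s) :
    P (wt' q) k u s r = T q (P (wt q) k u) s r := by
  induction k generalizing s r with
  | zero => rw [P]; exact (T_one q hq s r).symm
  | succ k ih =>
    have hu2 : k ≠ 0 → 1 ≤ cX (Fin.tail u) ∧ ∀ i : Fin k, i.1 + 1 = k → Fin.tail u i = .x := by
      intro hk
      obtain ⟨h1, h2⟩ := hu (by omega)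
      have h3 : ∀ i : Fin k, i.1 + 1 = k → Fin.tail u i = .x := fun i hi => by
        rw [Fin.tail]; exact h2 i.succ (by simp [hi])
      refine ⟨?_, h3⟩
      unfold cX
      refine Finset.card_pos.2 ⟨⟨k - 1, by omega⟩, ?_⟩
      simp only [mem_filter, mem_univ, true_and]
      exact h3 _ (by simp; omega)
    have ih' := ih (Fin.tail u) hu2
    have hz : u 0 ≠ .x → ∀ a, P (wt q) k (Fin.tail u) a 0 = 0 := by
      intro h0 a
      apply P_zero
      have hk : k ≠ 0 := by
        rintro rfl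
        exact h0 ((hu (by omega)).2 0 (by simp))
      exact (hu2 hk).1
    rw [P, P, T_Sg q hq]
    refine Sg_congr 1 (fun s r hs => ?_) s r hs
    cases h0 : u 0 with
    | y =>
      rw [T_y q hq _ (hz (by rw [h0]; simp))]
      simp only [L]
      rw [ih' _ _ (by omega)]
    | z =>
      rw [T_z q hq _ (hz (by rw [h0]; simp)) _ _ hs]
      simp only [L]
      rw [ih' _ _ hs]
    | x =>
      rw [T_x q hq _ _ _ hs]
      cases r with
      | zero => rfl
      | succ r =>
        simp only [L]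
        rw [ih' _ _ hs]

/-- the two path sums from the axis `s = 0` agree -/
lemma P_eq (k : ℕ) (u : Fin k → Letter) (hu : ∀ i : Fin k, (i.1 = 0 → u i = .y) ∧ (i.1 + 1 = k → u i = .x))
    (r : ℕ) : P (wt' q) k u 0 r = P (wt q) k u 0 r := by
  cases k with
  | zero => rfl
  | succ k =>
    have h0 : u 0 = .y := (hu 0).1 rfl
    have hk : k ≠ 0 := by
      rintro rfl
      have := (hu 0).2 rfl
      rw [h0] at this
      exact absurd this (by simp)
    have h3 : ∀ i : Fin k, i.1 + 1 = k → Fin.tail u i = .x := fun i hi => by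
      rw [Fin.tail]; exact (hu i.succ).2 (by simp [hi])
    have hc : 1 ≤ cX (Fin.tail u) := by
      unfold cX
      refine Finset.card_pos.2 ⟨⟨k - 1, by omega⟩, ?_⟩
      simp only [mem_filter, mem_univ, true_and]
      exact h3 _ (by simp; omega)
    have hz : ∀ a, P (wt q) k (Fin.tail u) a 0 = 0 := fun a => P_zero _ _ _ _ _ hc
    have e1 : ∀ s r, P (wt' q) (k + 1) u s r = T q (P (wt q) (k + 1) u) s r := by
      intro s r
      rw [P, P, T_Sg q hq]
      refine Sg_congr 0 (fun s r _ => ?_) s r (Nat.zero_le _)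
      rw [h0, T_y q hq _ hz]
      simp only [L]
      rw [P_T q hq k _ (fun _ => ⟨hc, h3⟩) _ _ (by omega)]
    rw [e1]
    unfold T
    rw [sum_eq_single (0, r)]
    · simp [t_zero]
    · rintro ⟨j, m⟩ hp hne
      have hj : 0 < j := by
        rcases Nat.eq_zero_or_pos j with h | h
        · exfalso
          apply hne
          have h3 : j + m = r := by simpa using hp
          ext
          · simpa using h
          · simp; omega
        · exact h
      have : t q 0 j m = 0 := by
        unfold t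
        rw [prod_eq_zero (i := 0) (by simpa using hj) (by simp)]
        simp
      simp only
      rw [this, zero_mul]
    · simp

omit hq in
/-- splitting off the diagonal steps that reach too far down -/
lemma Sg_range (G : ℕ → ℕ → K) (c : ℕ) (hG : ∀ s r, r < c → G s r = 0) (s d : ℕ) :
    Sg G s (d + c) = ∑ i ∈ range (d + 1), G (s + i) (d - i + c) := by
  induction d generalizing s with
  | zero =>
    simp only [zero_add, range_one, sum_singleton, add_zero]
    cases c with
    | zero => rw [Sg]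
    | succ c =>
      rw [Sg]
      have : ∀ r s, r ≤ c → Sg G s r = 0 := by
        intro r
        induction r with
        | zero => intro s _; rw [Sg, hG _ _ (by omega)]
        | succ r ih => intro s h; rw [Sg, hG _ _ (by omega), ih _ (by omega), add_zero]
      rw [this c _ le_rfl, add_zero, Nat.sub_self, zero_add]
  | succ d ih =>
    rw [show d + 1 + c = (d + c) + 1 by ring, Sg, ih, sum_range_succ' _ (d + 1)]
    rw [add_comm]
    congr 1
    · refine sum_congr rfl fun i _ => ?_
      rw [show s + (i + 1) = s + 1 + i by ring, show d + 1 - (i + 1) = d - i by omega]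
    · simp only [add_zero, Nat.sub_zero]
      congr 1
      ring

end

end Pool.Agent.Q29.QInv
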