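import Mathlib

/-!
# Near relations and the distance to rational subspaces

From a lower bound for the distance of `(1, z_0, …, z_{p - 1})` to the rational subspaces of dimension `D + 1` to the rank
of the near relations between `1, z_0, …, z_{p - 1}` and arbitrary real numbers `t_1, …, t_r`, in one step of elimination.
-/

set_option autoImplicit false

namespace Pool.Agent.Q29.SpaceRank

open Finset Matrix

/-- the distance of `(1, z)` to rational subspaces of dimension `D + 1` -/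
def SpaceDist {p : ℕ} (z : Fin p → ℝ) (D κ : ℕ) (c : ℝ) : Prop :=
  ∀ (q : ℕ) (a : Fin p → ℤ) (B : Fin D → Fin p → ℤ) (θ : Fin D → ℝ) (H : ℝ), 0 < q → (q : ℝ) ≤ H →
    (∀ d i, |(B d i : ℝ)| ≤ H) → ∃ i, c / H ^ κ ≤ |z i - ((a i : ℝ) + ∑ d, θ d * (B d i : ℝ)) / q|

/-- a form with parameters among the coordinates of `z` -/
theorem dist_sub {p : ℕ} (z : Fin p → ℝ) (D κ : ℕ) (c : ℝ) (h : SpaceDist z D κ c) (hDp : D ≤ p)
    (N : Finset (Fin p)) (hN : N.card ≤ D) (q : ℕ) (a : Fin p → ℤ) (B : Fin p → Fin p → ℤ) (H : ℝ) (hq : 0 < q)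
    (hqH : (q : ℝ) ≤ H) (hB : ∀ j i, |(B j i : ℝ)| ≤ H) :
    ∃ i, c / H ^ κ ≤ |z i - ((a i : ℝ) + ∑ j ∈ N, z j * (B j i : ℝ)) / q| := by
  classical
  obtain ⟨N', hNN', hN'⟩ := Finset.exists_superset_card_eq hN (by simpa using hDp)
  have e := Finset.equivFinOfCardEq hN'
  have hH : 0 ≤ H := le_trans (Nat.cast_nonneg _) hqH
  obtain ⟨i, hi⟩ := h q a (fun d i => if ((e.symm d : Fin p)) ∈ N then B (e.symm d) i else 0)
    (fun d => z (e.symm d)) H hq hqH (fun d i => by
      split_ifs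
      · exact hB _ _
      · simpa using hH)
  refine ⟨i, hi.trans (le_of_eq ?_)⟩
  congr 4
  have e1 : ∑ d, z (e.symm d) * (((if ((e.symm d : Fin p)) ∈ N then B (e.symm d) i else 0 : ℤ)) : ℝ) =
      ∑ j : N', z j * (((if (j : Fin p) ∈ N then B j i else 0 : ℤ)) : ℝ) :=
    Equiv.sum_comp e.symm (fun j : N' => z j * (((if (j : Fin p) ∈ N then B j i else 0 : ℤ)) : ℝ))
  rw [e1, Finset.sum_coe_sort N' (fun j => z j * (((if (j : Fin p) ∈ N then B j i else 0 : ℤ)) : ℝ)),
    ← Finset.sum_subset hNN' (fun j _ hj => by rw [if_neg hj]; simp)]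
  exact Finset.sum_congr rfl fun j hj => by rw [if_pos hj]

/-- a maximal minor, with preference for the columns in `T`, then those in `Z` -/
theorem select {m : ℕ} {ι : Type*} [Fintype ι] [DecidableEq ι] (V : Fin m → ι → ℤ) (hV : LinearIndependent ℤ V)
    (T Z : Set ι) (hTZ : T ⊆ Z) :
    ∃ f : Fin m → ι, Function.Injective f ∧ (Matrix.of fun k l => V k (f l)).det ≠ 0 ∧
      (∀ l, f l ∉ T → ∀ j ∈ T, (adjugate (Matrix.of fun k l => V k (f l)) *ᵥ (fun k => V k j)) l = 0) ∧
      (∀ l, f l ∉ Z → ∀ j ∈ Z, (adjugate (Matrix.of fun k l => V k (f l)) *ᵥ (fun k => V k j)) l = 0) := by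
  classical
  obtain ⟨C, hC⟩ : ∃ C : ι → Fin m → ℚ, C = fun j k => (V k j : ℚ) := ⟨_, rfl⟩
  obtain ⟨b₁, hb₁T, -, hTb₁, hb₁⟩ := exists_linearIndepOn_extension (K := ℚ) (v := C) (linearIndepOn_empty ℚ C)
    (Set.empty_subset T)
  obtain ⟨b₂, hb₂Z, hb₁b₂, hZb₂, hb₂⟩ := exists_linearIndepOn_extension (K := ℚ) (v := C) hb₁ (hb₁T.trans hTZ)
  obtain ⟨b, -, hb₂b, hub, hb⟩ := exists_linearIndepOn_extension (K := ℚ) (v := C) hb₂ (Set.subset_univ _)
  -- the rows are independent over `ℚ`
  have hVQ : LinearIndependent ℚ (fun k => fun j => (V k j : ℚ)) := by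
    rw [← LinearIndependent.iff_fractionRing (R := ℤ)]
    have h1 := hV.map' ((algebraMap ℤ ℚ).toIntAlgHom.toLinearMap.compLeft ι) (by
      rw [LinearMap.ker_eq_bot]
      intro x y hxy
      funext j
      have := congrFun hxy j
      simpa using this)
    exact h1
  have hspan : Submodule.span ℚ (Set.range C) = ⊤ := by
    obtain ⟨A, hA⟩ : ∃ A : Matrix (Fin m) ι ℚ, A = Matrix.of fun k j => (V k j : ℚ) := ⟨_, rfl⟩
    have h1 : A.rank = m := by
      have : LinearIndependent ℚ A.row := by rw [hA]; exact hVQ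
      simpa using this.rank_matrix
    rw [A.rank_eq_finrank_span_cols] at h1
    have h2 : A.col = C := by
      rw [hA, hC]
      rfl
    rw [h2] at h1
    apply Submodule.eq_top_of_finrank_eq
    rw [h1]
    simp
  have hspanb : Submodule.span ℚ (C '' b) = ⊤ := by
    rw [eq_top_iff, ← hspan, Submodule.span_le, ← Set.image_univ]
    exact hub
  have hbcard : Fintype.card b = m := by
    have h1 : LinearIndependent ℚ (fun x : b => C x) := hb
    have h2 : (⊤ : Submodule ℚ (Fin m → ℚ)) ≤ Submodule.span ℚ (Set.range (fun x : b => C x)) := by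
      rw [← hspanb, Set.image_eq_range]
    have h3 := Module.finrank_eq_card_basis (Module.Basis.mk h1 h2)
    simpa using h3.symm
  obtain ⟨e⟩ : Nonempty (Fin m ≃ b) := ⟨(Fintype.equivFinOfCardEq hbcard).symm⟩
  obtain ⟨f, hf⟩ : ∃ f : Fin m → ι, f = fun l => (e l : ι) := ⟨_, rfl⟩
  have hfinj : Function.Injective f := by
    rw [hf]
    exact Subtype.val_injective.comp e.injective
  have hfb : ∀ l, f l ∈ b := fun l => by rw [hf]; exact (e l).2
  have hbf : ∀ x ∈ b, ∃ l, f l = x := fun x hx => ⟨e.symm ⟨x, hx⟩, by rw [hf]; simp⟩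
  obtain ⟨M, hM⟩ : ∃ M : Matrix (Fin m) (Fin m) ℤ, M = Matrix.of fun k l => V k (f l) := ⟨_, rfl⟩
  have hdet : M.det ≠ 0 := by
    have h1 : LinearIndependent ℚ (M.map (Int.cast : ℤ → ℚ)).col := by
      have h2 : LinearIndependent ℚ (fun x : b => C x) := hb
      have h3 := h2.comp e e.injective
      have h4 : (M.map (Int.cast : ℤ → ℚ)).col = (fun x : b => C x) ∘ e := by
        funext l k
        rw [hM, hC, hf]
        rfl
      rw [h4]
      exact h3
    have h2 := Matrix.linearIndependent_cols_iff_isUnit.1 h1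
    rw [Matrix.isUnit_iff_isUnit_det] at h2
    intro h0
    have h3 : (M.map (Int.cast : ℤ → ℚ)).det = 0 := by
      have := (Int.castRingHom ℚ).map_det M
      rw [h0] at this
      simpa using this.symm
    rw [h3] at h2
    exact not_isUnit_zero h2
  -- rows of the adjugate kill the columns which do not need `f l`
  have hkill : ∀ (S : Set ι), S ⊆ b → ∀ l, f l ∉ S → ∀ j, C j ∈ Submodule.span ℚ (C '' S) →
      (adjugate M *ᵥ (fun k => V k j)) l = 0 := by
    intro S hS l hl j hj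
    obtain ⟨φ, hφ⟩ : ∃ φ : (Fin m → ℚ) →ₗ[ℚ] ℚ,
      φ = (LinearMap.proj l).comp (Matrix.mulVecLin ((adjugate M).map (Int.cast : ℤ → ℚ))) := ⟨_, rfl⟩
    have hφV : ∀ i, φ (C i) = (((adjugate M *ᵥ (fun k => V k i)) l : ℤ) : ℚ) := by
      intro i
      rw [hφ, hC]
      simp only [LinearMap.comp_apply, Matrix.mulVecLin_apply, LinearMap.proj_apply, Matrix.mulVec, dotProduct,
        Matrix.map_apply]
      push_cast
      rfl
    have h1 : Submodule.span ℚ (C '' S) ≤ LinearMap.ker φ := by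
      rw [Submodule.span_le]
      rintro x ⟨i, hi, rfl⟩
      obtain ⟨l', hl'⟩ := hbf i (hS hi)
      have hne : l ≠ l' := by
        intro h
        rw [h, hl'] at hl
        exact hl hi
      show φ (C i) = 0
      rw [hφV, ← hl']
      have h2 : (adjugate M *ᵥ (fun k => V k (f l'))) l = (adjugate M * M) l l' := by
        rw [Matrix.mul_apply]
        simp only [Matrix.mulVec, dotProduct]
        refine Finset.sum_congr rfl fun k _ => ?_
        rw [hM]
        rfl
      rw [h2, Matrix.adjugate_mul, Matrix.smul_apply, Matrix.one_apply_ne hne]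
      simp
    have h2 : φ (C j) = 0 := h1 hj
    rw [hφV] at h2
    exact_mod_cast h2
  refine ⟨f, hfinj, ?_, ?_, ?_⟩
  · rw [hM] at hdet
    exact hdet
  · intro l hl j hj
    have := hkill b₁ (hb₁b₂.trans hb₂b) l (fun h => hl (hb₁T h)) j (hTb₁ ⟨j, hj, rfl⟩)
    rw [hM] at this
    exact this
  · intro l hl j hj
    have := hkill b₂ hb₂b l (fun h => hl (hb₂Z h)) j (hZb₂ ⟨j, hj, rfl⟩)
    rw [hM] at this
    exact this

/-- the value of the form `a_0 + a_1 z_0 + … + a_p z_{p - 1} + e_1 t_1 + … + e_r t_r` -/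
noncomputable def val {p r : ℕ} (z : Fin p → ℝ) (t : Fin r → ℝ) (v : (Fin (p + 1) → ℤ) × (Fin r → ℤ)) : ℝ :=
  (v.1 0 : ℝ) + ∑ i : Fin p, (v.1 i.succ : ℝ) * z i + ∑ j, (v.2 j : ℝ) * t j

theorem det_bound {m : ℕ} (A : Matrix (Fin m) (Fin m) ℤ) (X : ℝ) (hA : ∀ i j, |(A i j : ℝ)| ≤ X) :
    |((A.det : ℤ) : ℝ)| ≤ m.factorial * X ^ m := by
  have h1 : ((A.det : ℤ) : ℝ) = (A.map (Int.cast : ℤ → ℝ)).det := by
    have := (Int.castRingHom ℝ).map_det A
    simpa using this
  rw [h1]
  have h2 := Matrix.det_le (A := A.map (Int.cast : ℤ → ℝ)) (abv := AbsoluteValue.abs) (x := X)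
    (fun i j => by simpa using hA i j)
  simpa [nsmul_eq_mul] using h2

/-- **the rank of the near relations** -/
theorem rank_space {p : ℕ} (z : Fin p → ℝ) (D κ : ℕ) (c : ℝ) (hc : 0 < c) (hDp : D ≤ p) (hz : SpaceDist z D κ c)
    (r : ℕ) : ∃ c' : ℝ, 0 < c' ∧ ∀ (t : Fin r → ℝ) (X : ℝ), 1 ≤ X →
      ∀ v : Fin (r + (p - D)) → (Fin (p + 1) → ℤ) × (Fin r → ℤ), LinearIndependent ℤ v → (∀ k, ‖v k‖ ≤ X) →
        ∃ k, c' / X ^ ((κ + 1) * (r + (p - D))) ≤ |val z t (v k)| := by
  classical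
  obtain ⟨m, hm⟩ : ∃ m : ℕ, m = r + (p - D) := ⟨_, rfl⟩
  rw [← hm]
  obtain ⟨F, hF⟩ : ∃ F : ℝ, F = m.factorial := ⟨_, rfl⟩
  have hF1 : 1 ≤ F := by
    rw [hF]
    exact_mod_cast Nat.one_le_iff_ne_zero.2 (Nat.factorial_ne_zero m)
  have hF0 : 0 < F := by linarith
  obtain ⟨μ, hμ⟩ : ∃ μ : ℝ, μ = min 1 (c / F ^ κ) := ⟨_, rfl⟩
  have hμ0 : 0 < μ := by rw [hμ]; positivity
  have hμ1 : μ ≤ 1 := by rw [hμ]; exact min_le_left _ _
  have hμc : μ ≤ c / F ^ κ := by rw [hμ]; exact min_le_right _ _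
  have hmF : (0 : ℝ) ≤ m * F := by positivity
  refine ⟨μ / (m * F + 1), by positivity, ?_⟩
  intro t X hX v hv hvX
  have hX0 : 0 < X := by linarith
  by_contra hcon
  push Not at hcon
  obtain ⟨ε, hε⟩ : ∃ ε : ℝ, ε = μ / (m * F + 1) / X ^ ((κ + 1) * m) := ⟨_, rfl⟩
  rw [← hε] at hcon
  have hε0 : 0 < ε := by rw [hε]; positivity
  obtain ⟨V, hV⟩ : ∃ V : Fin m → (Fin (p + 1) ⊕ Fin r) → ℤ, V = fun k => Sum.elim (v k).1 (v k).2 := ⟨_, rfl⟩
  have hVind : LinearIndependent ℤ V := by
    have h1 := hv.map' (LinearEquiv.sumArrowLequivProdArrow (Fin (p + 1)) (Fin r) ℤ ℤ).symm.toLinearMap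
      (LinearEquiv.ker _)
    have h2 : (LinearEquiv.sumArrowLequivProdArrow (Fin (p + 1)) (Fin r) ℤ ℤ).symm.toLinearMap ∘ v = V := by
      rw [hV]
      funext k j
      cases j <;> rfl
    rw [h2] at h1
    exact h1
  have hVX : ∀ k j, |(V k j : ℝ)| ≤ X := by
    intro k j
    rw [hV]
    have hcast : ∀ n : ℤ, ‖n‖ = |(n : ℝ)| := fun n => rfl
    cases j with
    | inl i =>
      show |((v k).1 i : ℝ)| ≤ X
      rw [← hcast]
      exact ((norm_le_pi_norm (v k).1 i).trans (_root_.norm_fst_le (v k))).trans (hvX _)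
    | inr i =>
      show |((v k).2 i : ℝ)| ≤ X
      rw [← hcast]
      exact ((norm_le_pi_norm (v k).2 i).trans (_root_.norm_snd_le (v k))).trans (hvX _)
  obtain ⟨f, hfinj, hdet, hT, hZ⟩ := select V hVind (Set.range Sum.inr) {j | j ≠ Sum.inl 0} (by
    rintro x ⟨y, rfl⟩
    simp)
  obtain ⟨M, hM⟩ : ∃ M : Matrix (Fin m) (Fin m) ℤ, M = Matrix.of fun k l => V k (f l) := ⟨_, rfl⟩
  rw [← hM] at hdet hT hZ
  obtain ⟨Δ, hΔ⟩ : ∃ Δ : ℤ, Δ = M.det := ⟨_, rfl⟩
  rw [← hΔ] at hdet
  obtain ⟨U, hU⟩ : ∃ U : (Fin (p + 1) ⊕ Fin r) → Fin m → ℤ, U = fun j => adjugate M *ᵥ (fun k => V k j) := ⟨_, rfl⟩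
  have hMX : ∀ i j, |(M i j : ℝ)| ≤ X := by
    intro i j
    rw [hM]
    exact hVX _ _
  have hHX : (1 : ℝ) ≤ F * X ^ m := by nlinarith [one_le_pow₀ hX (n := m)]
  have hUb : ∀ j l, |(U j l : ℝ)| ≤ F * X ^ m := by
    intro j l
    rw [hU]
    dsimp only
    rw [← Matrix.cramer_eq_adjugate_mulVec, Matrix.cramer_apply, hF]
    refine det_bound _ X fun i k => ?_
    rw [Matrix.updateCol_apply]
    split_ifs
    · exact hVX _ _
    · exact hMX _ _
  have hadj : ∀ l k, |((adjugate M l k : ℤ) : ℝ)| ≤ F * X ^ m := by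
    intro l k
    rw [Matrix.adjugate_apply, hF]
    refine det_bound _ X fun i j => ?_
    rw [Matrix.updateRow_apply]
    split_ifs
    · by_cases h : j = l
      · subst h
        simpa using hX
      · rw [Pi.single_eq_of_ne h]
        simpa using hX0.le
    · exact hMX _ _
  have hΔb : |(Δ : ℝ)| ≤ F * X ^ m := by
    rw [hF, hΔ]
    exact det_bound _ X hMX
  have hΔ1 : (1 : ℝ) ≤ |(Δ : ℝ)| := by exact_mod_cast Int.one_le_abs hdet
  have hΔ0 : (Δ : ℝ) ≠ 0 := by exact_mod_cast hdet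
  have hUf : ∀ l l', U (f l') l = if l = l' then Δ else 0 := by
    intro l l'
    have h2 : U (f l') l = (adjugate M * M) l l' := by
      rw [Matrix.mul_apply, hU]
      simp only [Matrix.mulVec, dotProduct]
      refine Finset.sum_congr rfl fun k _ => ?_
      have h3 : M k l' = V k (f l') := by
        rw [hM]
        rfl
      rw [h3]
    rw [h2, Matrix.adjugate_mul, Matrix.smul_apply, Matrix.one_apply, ← hΔ]
    split_ifs <;> simp
  -- the combinations of the forms
  obtain ⟨w, hw⟩ : ∃ w : Fin m → ℝ, w = fun l => ∑ k, ((adjugate M l k : ℤ) : ℝ) * val z t (v k) := ⟨_, rfl⟩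
  have hwb : ∀ l, |w l| ≤ m * (F * X ^ m) * ε := by
    intro l
    rw [hw]
    calc |∑ k, ((adjugate M l k : ℤ) : ℝ) * val z t (v k)|
        ≤ ∑ k, |((adjugate M l k : ℤ) : ℝ) * val z t (v k)| := Finset.abs_sum_le_sum_abs _ _
      _ ≤ ∑ _k : Fin m, F * X ^ m * ε := by
          refine Finset.sum_le_sum fun k _ => ?_
          rw [abs_mul]
          exact mul_le_mul (hadj l k) (hcon k).le (abs_nonneg _) (by positivity)
      _ = _ := by
          rw [Finset.sum_const, Finset.card_univ, Fintype.card_fin, nsmul_eq_mul]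
          ring
  have hsmall : (m : ℝ) * (F * X ^ m) * ε < μ / (X ^ m) ^ κ := by
    have e1 : (m : ℝ) * (F * X ^ m) * ε = (m * F / (m * F + 1)) * (μ / (X ^ m) ^ κ) := by
      rw [hε]
      have : X ^ ((κ + 1) * m) = (X ^ m) ^ κ * X ^ m := by
        rw [← pow_succ, ← pow_mul, mul_comm]
      rw [this]
      field_simp
    rw [e1]
    have h2 : (m : ℝ) * F / (m * F + 1) < 1 := by
      rw [div_lt_one (by positivity)]
      linarith
    have h3 : 0 < μ / (X ^ m) ^ κ := by positivity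
    nlinarith
  have hXm1 : (1 : ℝ) ≤ (X ^ m) ^ κ := one_le_pow₀ (one_le_pow₀ hX)
  have hsmall1 : ∀ l, |w l| < 1 := fun l => by
    refine ((hwb l).trans_lt hsmall).trans_le ?_
    rw [div_le_one (by positivity)]
    linarith
  have hsmall2 : ∀ l, |w l| < c / (F * X ^ m) ^ κ := fun l => by
    refine ((hwb l).trans_lt hsmall).trans_le ?_
    rw [mul_pow, ← div_div]
    exact div_le_div_of_nonneg_right hμc (by positivity)
  have hwU : ∀ l, w l = (U (Sum.inl 0) l : ℝ) + ∑ i : Fin p, (U (Sum.inl i.succ) l : ℝ) * z i +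
      ∑ j, (U (Sum.inr j) l : ℝ) * t j := by
    intro l
    have hUe : ∀ j, (U j l : ℝ) = ∑ k, ((adjugate M l k : ℤ) : ℝ) * (V k j : ℝ) := by
      intro j
      rw [hU]
      simp only [Matrix.mulVec, dotProduct]
      push_cast
      rfl
    rw [hw]
    simp only [hUe, Finset.sum_mul]
    unfold val
    simp only [mul_add, Finset.sum_add_distrib, Finset.mul_sum]
    rw [Finset.sum_comm (s := (Finset.univ : Finset (Fin m))) (t := (Finset.univ : Finset (Fin p))),
      Finset.sum_comm (s := (Finset.univ : Finset (Fin m))) (t := (Finset.univ : Finset (Fin r)))]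
    rw [hV]
    simp only [Sum.elim_inl, Sum.elim_inr, mul_assoc]
  by_cases hcase : ∃ l, f l = Sum.inl 0
  · obtain ⟨l, hl⟩ := hcase
    have h1 : ∀ j, j ≠ Sum.inl 0 → U j l = 0 := by
      intro j hj
      have := hZ l (by rw [hl]; simp) j hj
      rw [hU]
      exact this
    have h2 := hwU l
    have h3 : U (Sum.inl 0) l = Δ := by
      rw [← hl, hUf l l, if_pos rfl]
    rw [h3, Finset.sum_eq_zero (fun i _ => by rw [h1 _ (by simp [Fin.succ_ne_zero])]; simp),
      Finset.sum_eq_zero (fun i _ => by rw [h1 _ (by simp)]; simp), add_zero, add_zero] at h2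
    have h4 := hsmall1 l
    rw [h2] at h4
    linarith
  · push Not at hcase
    obtain ⟨N, hN⟩ : ∃ N : Finset (Fin p), N = Finset.univ.filter fun i => ∀ l, f l ≠ Sum.inl i.succ := ⟨_, rfl⟩
    have hNc : N.card ≤ D := by
      have h1 : (N.image (fun i => (Sum.inl i.succ : Fin (p + 1) ⊕ Fin r))).card = N.card :=
        Finset.card_image_of_injective _ (Sum.inl_injective.comp (Fin.succ_injective p))
      have h2 : (Finset.univ.image f).card = m := by
        rw [Finset.card_image_of_injective _ hfinj, Finset.card_univ, Fintype.card_fin]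
      have h3 : Disjoint (N.image (fun i => (Sum.inl i.succ : Fin (p + 1) ⊕ Fin r))) (Finset.univ.image f) := by
        rw [Finset.disjoint_left]
        intro x hx hx2
        obtain ⟨i, hi, rfl⟩ := Finset.mem_image.1 hx
        obtain ⟨l, -, hl⟩ := Finset.mem_image.1 hx2
        rw [hN, Finset.mem_filter] at hi
        exact hi.2 l hl
      have h4 : (N.image (fun i => (Sum.inl i.succ : Fin (p + 1) ⊕ Fin r))) ∪ (Finset.univ.image f) ⊆
          Finset.univ.erase (Sum.inl 0) := by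
        intro x hx
        rw [Finset.mem_erase]
        refine ⟨?_, Finset.mem_univ _⟩
        rcases Finset.mem_union.1 hx with h | h
        · obtain ⟨i, hi, rfl⟩ := Finset.mem_image.1 h
          simp [Fin.succ_ne_zero]
        · obtain ⟨l, -, rfl⟩ := Finset.mem_image.1 h
          exact hcase l
      have h5 := Finset.card_le_card h4
      rw [Finset.card_union_of_disjoint h3, h1, h2, Finset.card_erase_of_mem (Finset.mem_univ _), Finset.card_univ,
        Fintype.card_sum, Fintype.card_fin, Fintype.card_fin] at h5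
      omega
    have hNmem : ∀ i, i ∉ N → ∃ l, f l = Sum.inl i.succ := by
      intro i hi
      rw [hN, Finset.mem_filter] at hi
      push Not at hi
      exact hi (Finset.mem_univ _)
    choose L hL using hNmem
    obtain ⟨s, hs⟩ : ∃ s : ℤ, s = Int.sign Δ := ⟨_, rfl⟩
    obtain ⟨q, hqΔ⟩ : ∃ q : ℕ, q = Δ.natAbs := ⟨_, rfl⟩
    have hqpos : 0 < q := by
      rw [hqΔ]
      exact Int.natAbs_pos.2 hdet
    have hsq : ((q : ℕ) : ℤ) = s * Δ := by
      rw [hs, hqΔ, Int.sign_mul_self_eq_abs]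
      simp
    have hsqR : (q : ℝ) = (s : ℝ) * Δ := by
      exact_mod_cast congrArg (Int.cast : ℤ → ℝ) hsq
    have hs1 : |(s : ℝ)| = 1 := by
      have h1 : |s| = 1 := by
        rw [hs]
        rcases lt_or_gt_of_ne hdet with h | h
        · rw [Int.sign_eq_neg_one_of_neg h]; rfl
        · rw [Int.sign_eq_one_of_pos h]; rfl
      exact_mod_cast h1
    have hs0 : (s : ℝ) ≠ 0 := by
      intro h
      rw [h] at hs1
      simp at hs1
    have hqX : (q : ℝ) ≤ F * X ^ m := by
      rw [hsqR]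
      calc (s : ℝ) * Δ ≤ |(s : ℝ) * Δ| := le_abs_self _
        _ = |(Δ : ℝ)| := by rw [abs_mul, hs1, one_mul]
        _ ≤ _ := hΔb
    obtain ⟨i, hi⟩ := dist_sub z D κ c hz hDp N hNc q
      (fun i => if h : i ∈ N then 0 else -(s * U (Sum.inl 0) (L i h)))
      (fun j i => if h : i ∈ N then (if j = i then (q : ℤ) else 0) else -(s * U (Sum.inl j.succ) (L i h)))
      (F * X ^ m) (hqpos) hqX (fun j i => by
        by_cases h : i ∈ N
        · rw [dif_pos h]
          by_cases h' : j = i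
          · rw [if_pos h']
            rw [Int.cast_natCast, abs_of_nonneg (Nat.cast_nonneg _)]
            exact hqX
          · rw [if_neg h']
            simpa using by linarith
        · rw [dif_neg h]
          push_cast
          rw [abs_neg, abs_mul, hs1, one_mul]
          exact hUb _ _)
    by_cases hiN : i ∈ N
    · simp only [dif_pos hiN] at hi
      have e1 : ∑ j ∈ N, z j * (((if j = i then (q : ℤ) else 0 : ℤ)) : ℝ) =
          z i * (q : ℝ) := by
        rw [Finset.sum_eq_single i (fun j _ hj => by rw [if_neg hj]; simp) (fun h => absurd hiN h)]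
        rw [if_pos rfl]
        norm_cast
      rw [e1] at hi
      have hq0 : (q : ℝ) ≠ 0 := by
        rw [hsqR]
        exact mul_ne_zero hs0 hΔ0
      have e2 : z i - (((0 : ℤ) : ℝ) + z i * (q : ℝ)) / (q : ℝ) = 0 := by
        push_cast
        rw [zero_add, mul_div_assoc, div_self hq0, mul_one, sub_self]
      rw [e2, abs_zero] at hi
      have h3 : 0 < c / (F * X ^ m) ^ κ := by positivity
      linarith
    · simp only [dif_neg hiN] at hi
      have hLi := hL i hiN
      have hw1 := hwU (L i hiN)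
      have h1 : ∀ j : Fin r, U (Sum.inr j) (L i hiN) = 0 := by
        intro j
        have := hT (L i hiN) (by rw [hLi]; simp) (Sum.inr j) ⟨j, rfl⟩
        rw [hU]
        exact this
      rw [Finset.sum_eq_zero (fun j _ => by rw [h1 j]; simp : ∀ j ∈ (Finset.univ : Finset (Fin r)),
        (U (Sum.inr j) (L i hiN) : ℝ) * t j = 0), add_zero] at hw1
      have h2 : ∑ j : Fin p, (U (Sum.inl j.succ) (L i hiN) : ℝ) * z j =
          (Δ : ℝ) * z i + ∑ j ∈ N, (U (Sum.inl j.succ) (L i hiN) : ℝ) * z j := by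
        rw [← Finset.sum_subset (Finset.subset_univ (insert i N)) (fun j _ hj => by
          rw [Finset.mem_insert, not_or] at hj
          have h3 := hUf (L i hiN) (L j hj.2)
          rw [hL j hj.2, if_neg (fun h => hj.1 (by
            have h4 := hL j hj.2
            rw [← h, hLi] at h4
            exact (Fin.succ_injective p (Sum.inl_injective h4)).symm))] at h3
          rw [h3]
          simp), Finset.sum_insert hiN]
        have h3 := hUf (L i hiN) (L i hiN)
        rw [hLi, if_pos rfl] at h3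
        rw [h3]
      rw [h2] at hw1
      have h5 := hsmall2 (L i hiN)
      have e3 : z i - ((((-(s * U (Sum.inl 0) (L i hiN)) : ℤ)) : ℝ) +
          ∑ j ∈ N, z j * (((-(s * U (Sum.inl j.succ) (L i hiN)) : ℤ)) : ℝ)) / (q : ℝ) =
          w (L i hiN) / Δ := by
        rw [hsqR, hw1]
        have e4 : ∑ j ∈ N, z j * (((-(s * U (Sum.inl j.succ) (L i hiN)) : ℤ)) : ℝ) =
            -(s : ℝ) * ∑ j ∈ N, (U (Sum.inl j.succ) (L i hiN) : ℝ) * z j := by
          rw [Finset.mul_sum]
          exact Finset.sum_congr rfl fun j _ => by push_cast; ring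
        rw [e4]
        push_cast
        field_simp
        ring
      rw [e3] at hi
      have h6 : |w (L i hiN) / Δ| ≤ |w (L i hiN)| := by
        rw [abs_div]
        exact div_le_self (abs_nonneg _) hΔ1
      linarith

end Pool.Agent.Q29.SpaceRank
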