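import Pool.Agent.Q29.SpaceRank

/-!
# The dimension of the space spanned by the near relations
-/

set_option autoImplicit false

namespace Pool.Agent.Q29.SpaceRank

open Finset

/-- from independent vectors to the dimension of the span -/
theorem span_bound {n r m : ℕ} (S : Set ((Fin n → ℤ) × (Fin r → ℤ)))
    (h : ∀ v : Fin m → (Fin n → ℤ) × (Fin r → ℤ), LinearIndependent ℤ v → ∃ k, v k ∉ S) :
    Module.finrank ℚ (Submodule.span ℚ ((fun (v : (Fin n → ℤ) × (Fin r → ℤ)) =>
      (((fun i => (v.1 i : ℚ)), (fun j => (v.2 j : ℚ))) : (Fin n → ℚ) × (Fin r → ℚ))) '' S)) < m := by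
  by_contra hcon
  push Not at hcon
  obtain ⟨ι, hι⟩ : ∃ ι : (Fin n → ℤ) × (Fin r → ℤ) → (Fin n → ℚ) × (Fin r → ℚ),
    ι = fun v => ((fun i => (v.1 i : ℚ)), (fun j => (v.2 j : ℚ))) := ⟨_, rfl⟩
  rw [← hι] at hcon
  obtain ⟨B, hBS, hBspan, hBli⟩ := exists_linearIndependent ℚ (ι '' S)
  rw [← hBspan] at hcon
  have hBfin : B.Finite := hBli.setFinite
  have hcard : Module.finrank ℚ (Submodule.span ℚ B) = B.ncard := by
    have := hBfin.fintype
    rw [finrank_span_set_eq_card hBli, Set.toFinset_card, Set.ncard_eq_toFinset_card', Set.toFinset_card]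
  rw [hcard] at hcon
  obtain ⟨f, hf⟩ : ∃ f : Fin m → B, Function.Injective f := by
    have := hBfin.fintype
    have h1 : Fintype.card (Fin m) ≤ Fintype.card B := by
      rw [Fintype.card_fin, ← Set.toFinset_card, ← Set.ncard_eq_toFinset_card']
      omega
    exact (Function.Embedding.nonempty_of_card_le h1).elim fun e => ⟨e, e.injective⟩
  choose g hg using fun b : B => hBS b.2
  obtain ⟨k, hk⟩ := h (fun k => g (f k)) (by
    have h1 : LinearIndependent ℚ (fun k => (f k : (Fin n → ℚ) × (Fin r → ℚ))) :=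
      hBli.comp f hf
    rw [Fintype.linearIndependent_iff] at h1 ⊢
    intro w hw k
    have h2 := h1 (fun k => (w k : ℚ)) (by
      have h3 : ∀ k, (f k : (Fin n → ℚ) × (Fin r → ℚ)) = ι (g (f k)) := fun k => (hg (f k)).2.symm
      simp only [h3]
      refine Prod.ext ?_ ?_
      · rw [Prod.fst_sum]
        funext i
        rw [Finset.sum_apply]
        have h4 := congrFun (congrArg Prod.fst hw) i
        rw [Prod.fst_sum, Finset.sum_apply] at h4
        simp only [Prod.smul_fst, Pi.smul_apply, smul_eq_mul, Prod.fst_zero, Pi.zero_apply] at h4 ⊢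
        simp only [hι]
        exact_mod_cast h4
      · rw [Prod.snd_sum]
        funext i
        rw [Finset.sum_apply]
        have h4 := congrFun (congrArg Prod.snd hw) i
        rw [Prod.snd_sum, Finset.sum_apply] at h4
        simp only [Prod.smul_snd, Pi.smul_apply, smul_eq_mul, Prod.snd_zero, Pi.zero_apply] at h4 ⊢
        simp only [hι]
        exact_mod_cast h4) k
    exact_mod_cast h2)
  exact hk (hg (f k)).1

theorem lt_of_dist {p : ℕ} (z : Fin p → ℝ) (D κ : ℕ) (c : ℝ) (hc : 0 < c) (hz : SpaceDist z D κ c) : D < p := by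
  classical
  by_contra hcon
  push Not at hcon
  obtain ⟨i, hi⟩ := hz 1 0 (fun d i => if (d : ℕ) = i then 1 else 0) (fun d => if h : (d : ℕ) < p then z ⟨d, h⟩ else 0)
    1 (by norm_num) (by norm_num) (fun d i => by split_ifs <;> simp)
  have hiD : (i : ℕ) < D := i.2.trans_le hcon
  rw [Finset.sum_eq_single (⟨i, hiD⟩ : Fin D) (fun d _ hd => by
    rw [if_neg (fun h => hd (Fin.ext h))]
    simp) (fun h => absurd (Finset.mem_univ _) h)] at hi
  simp at hi
  linarith

/-- **the rank of the near relations**, both forms -/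
theorem near_rank {p : ℕ} (z : Fin p → ℝ) (D κ : ℕ) (c : ℝ) (hc : 0 < c) (hz : SpaceDist z D κ c) (r : ℕ) :
    D < p ∧ ∃ c' : ℝ, 0 < c' ∧ ∀ (t : Fin r → ℝ) (X : ℝ), 1 ≤ X →
      (∀ m : ℕ, m + D = r + p → ∀ v : Fin m → (Fin (p + 1) → ℤ) × (Fin r → ℤ), LinearIndependent ℤ v →
        (∀ k, ‖v k‖ ≤ X) → ∃ k, c' / X ^ ((κ + 1) * m) ≤ |val z t (v k)|) ∧
      ∀ m : ℕ, m + D = r + p →
        Module.finrank ℚ (Submodule.span ℚ ((fun (v : (Fin (p + 1) → ℤ) × (Fin r → ℤ)) =>
          (((fun i => (v.1 i : ℚ)), (fun j => (v.2 j : ℚ))) : (Fin (p + 1) → ℚ) × (Fin r → ℚ))) ''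
            {v | ‖v‖ ≤ X ∧ |val z t v| < c' / X ^ ((κ + 1) * m)})) < m := by
  have hD := lt_of_dist z D κ c hc hz
  obtain ⟨c', hc', h⟩ := rank_space z D κ c hc hD.le hz r
  have h1 : ∀ (t : Fin r → ℝ) (X : ℝ), 1 ≤ X →
      (∀ m : ℕ, m + D = r + p → ∀ v : Fin m → (Fin (p + 1) → ℤ) × (Fin r → ℤ), LinearIndependent ℤ v →
        (∀ k, ‖v k‖ ≤ X) → ∃ k, c' / X ^ ((κ + 1) * m) ≤ |val z t (v k)|) := by
    intro t X hX m hm v hv hvX
    obtain rfl : m = r + (p - D) := by omega
    exact h t X hX v hv hvX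
  refine ⟨hD, c', hc', fun t X hX => ⟨h1 t X hX, fun m hm => span_bound _ fun v hv => ?_⟩⟩
  by_contra hcon
  push Not at hcon
  obtain ⟨k, hk⟩ := h1 t X hX m hm v hv fun k => (hcon k).1
  exact absurd hk (not_le.2 (hcon k).2)

end Pool.Agent.Q29.SpaceRank
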