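import Pool.Agent.Q29.SpaceSpan
import Pool.Agent.Y926.TW.Main
import Pool.Agent.Y926.TW.Sim

/-!
# Odd zeta values: the distance to rational subspaces, uniformly
-/

set_option autoImplicit false

namespace Pool.Agent.Q29.SpaceRank

open Pool.Agent.H337R2 Pool.Agent.Y926.TW

/-- from the simultaneous approximation with exponent `1 / (D + 1)` to the distance to rational subspaces of dimension
`D + 1` -/
theorem dist_of_sim {p : ℕ} (z : Fin p → ℝ) (D q0 : ℕ)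
    (h : ∀ q : ℕ, q0 ≤ q → ∃ i, ∀ P : ℤ, (q : ℝ) ^ (-(1 / (((D + 1 : ℕ) : ℝ)))) ≤ |(q : ℝ) * z i - P|) :
    ∃ c : ℝ, 0 < c ∧ SpaceDist z D ((D + 1) * (D + 2)) c := by
  obtain ⟨g, hg⟩ : ∃ g : ℕ, g = q0 + 1 := ⟨_, rfl⟩
  obtain ⟨C, hC⟩ : ∃ C : ℕ, C = g ^ (D + 2) * (D + 1) ^ (D + 1) + 1 := ⟨_, rfl⟩
  have hC1 : 1 ≤ C := by omega
  have hCr : (1 : ℝ) ≤ C := by exact_mod_cast hC1
  have hC0 : (0 : ℝ) < C := by linarith
  refine ⟨1 / (C : ℝ) ^ (D + 1) / 2 ^ ((D + 1) * (D + 2)), by positivity, ?_⟩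
  intro q a B θ H hq hqH hB
  by_contra hcon
  push Not at hcon
  have hqr : (1 : ℝ) ≤ q := by exact_mod_cast hq
  have hH1 : 1 ≤ H := hqr.trans hqH
  obtain ⟨k, hk⟩ : ∃ k : ℕ, k = ⌈H⌉₊ := ⟨_, rfl⟩
  have hkH : H ≤ k := by rw [hk]; exact Nat.le_ceil H
  have hk2 : (k : ℝ) ≤ 2 * H := by
    have := (Nat.ceil_lt_add_one (by linarith : 0 ≤ H)).le
    rw [← hk] at this
    linarith
  have hk1 : (1 : ℝ) ≤ k := hH1.trans hkH
  have hk0 : (0 : ℝ) < k := by linarith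
  have hk1' : 1 ≤ k := by exact_mod_cast hk1
  obtain ⟨T, hT⟩ : ∃ T : ℕ, T = C * k ^ (D + 2) := ⟨_, rfl⟩
  have hTr : (T : ℝ) = C * (k : ℝ) ^ (D + 2) := by rw [hT]; push_cast; ring
  have hT0 : (0 : ℝ) < T := by rw [hTr]; positivity
  obtain ⟨n, hn1, hn2, hn3⟩ := dirichlet_sim D θ T (by
    rw [hT]
    exact Nat.one_le_iff_ne_zero.2 (by positivity))
  choose P hP using hn3
  have hnr : (n : ℝ) ≤ (T : ℝ) ^ D := by exact_mod_cast hn2
  have hn0 : (1 : ℝ) ≤ n := by exact_mod_cast hn1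
  obtain ⟨N, hN⟩ : ∃ N : ℕ, N = g * n * q := ⟨_, rfl⟩
  have hNr : (N : ℝ) = g * n * q := by rw [hN]; push_cast; ring
  have hg1 : (1 : ℝ) ≤ g := by rw [hg]; push_cast; linarith [Nat.cast_nonneg (α := ℝ) q0]
  have hNq : q0 ≤ N := by
    rw [hN, hg]
    calc q0 ≤ (q0 + 1) * 1 * 1 := by omega
      _ ≤ (q0 + 1) * n * q := Nat.mul_le_mul (Nat.mul_le_mul le_rfl hn1) hq
  obtain ⟨i, hi⟩ := h N hNq
  have h1 := hi (g * (n * a i + ∑ d, B d i * P d))
  have h2 := hcon i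
  have hN0 : (0 : ℝ) < N := by rw [hNr]; positivity
  -- the distance
  have e1 : (N : ℝ) * z i - ((g * (n * a i + ∑ d, B d i * P d) : ℤ) : ℝ) =
      (g : ℝ) * n * q * (z i - ((a i : ℝ) + ∑ d, θ d * (B d i : ℝ)) / q) +
        g * ∑ d, (B d i : ℝ) * ((n : ℝ) * θ d - P d) := by
    rw [hNr]
    push_cast
    have e2 : ∑ d, (B d i : ℝ) * ((n : ℝ) * θ d - P d) = (n : ℝ) * ∑ d, θ d * (B d i : ℝ) - ∑ d, (B d i : ℝ) * P d := by
      rw [Finset.mul_sum, ← Finset.sum_sub_distrib]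
      exact Finset.sum_congr rfl fun d _ => by ring
    rw [e2]
    have hq0 : (q : ℝ) ≠ 0 := by positivity
    field_simp
    ring
  have h2k : |z i - ((a i : ℝ) + ∑ d, θ d * (B d i : ℝ)) / q| ≤
      1 / (C : ℝ) ^ (D + 1) / (k : ℝ) ^ ((D + 1) * (D + 2)) := by
    refine h2.le.trans ?_
    have h3 : (k : ℝ) ^ ((D + 1) * (D + 2)) ≤ (2 * H) ^ ((D + 1) * (D + 2)) := by gcongr
    rw [mul_pow] at h3
    rw [div_div _ ((2 : ℝ) ^ ((D + 1) * (D + 2)))]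
    exact div_le_div_of_nonneg_left (by positivity) (by positivity) h3
  have hqk : (q : ℝ) ≤ k := hqH.trans hkH
  have b1 : |(g : ℝ) * n * q * (z i - ((a i : ℝ) + ∑ d, θ d * (B d i : ℝ)) / q)| ≤
      g * (1 / (C * (k : ℝ) ^ (D + 1))) := by
    rw [abs_mul, abs_of_nonneg (by positivity : (0 : ℝ) ≤ (g : ℝ) * n * q)]
    calc (g : ℝ) * n * q * |z i - ((a i : ℝ) + ∑ d, θ d * (B d i : ℝ)) / q|
        ≤ g * (T : ℝ) ^ D * k * (1 / (C : ℝ) ^ (D + 1) / (k : ℝ) ^ ((D + 1) * (D + 2))) := by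
          gcongr
      _ = g * (1 / (C * (k : ℝ) ^ (D + 1))) := by
          rw [hTr, mul_pow, ← pow_mul]
          have e3 : (k : ℝ) ^ ((D + 1) * (D + 2)) = (k : ℝ) ^ ((D + 2) * D) * (k * (k : ℝ) ^ (D + 1)) := by
            rw [← pow_succ', ← pow_add]
            congr 1
            ring
          rw [e3, pow_succ (C : ℝ) D]
          field_simp
  have b2 : |(g : ℝ) * ∑ d, (B d i : ℝ) * ((n : ℝ) * θ d - P d)| ≤ g * (D * (1 / (C * (k : ℝ) ^ (D + 1)))) := by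
    rw [abs_mul, abs_of_nonneg (by positivity : (0 : ℝ) ≤ (g : ℝ))]
    refine mul_le_mul_of_nonneg_left ?_ (by positivity)
    calc |∑ d, (B d i : ℝ) * ((n : ℝ) * θ d - P d)| ≤ ∑ d : Fin D, 1 / (C * (k : ℝ) ^ (D + 1)) := by
          refine (Finset.abs_sum_le_sum_abs _ _).trans (Finset.sum_le_sum fun d _ => ?_)
          rw [abs_mul]
          calc |(B d i : ℝ)| * |(n : ℝ) * θ d - P d| ≤ k * (1 / T) :=
                mul_le_mul ((hB d i).trans hkH) (hP d).le (abs_nonneg _) (by positivity)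
            _ = 1 / (C * (k : ℝ) ^ (D + 1)) := by
                rw [hTr, pow_succ (k : ℝ) (D + 1)]
                field_simp
      _ = _ := by
          rw [Finset.sum_const, Finset.card_univ, Fintype.card_fin, nsmul_eq_mul]
  have b3 : |(N : ℝ) * z i - ((g * (n * a i + ∑ d, B d i * P d) : ℤ) : ℝ)| ≤
      g * (D + 1) / (C * (k : ℝ) ^ (D + 1)) := by
    rw [e1]
    refine (abs_add_le _ _).trans ((add_le_add b1 b2).trans (le_of_eq ?_))
    field_simp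
    ring
  have hNle : (N : ℝ) ≤ g * ((C : ℝ) ^ D * (k : ℝ) ^ ((D + 2) * D)) * k := by
    rw [hNr]
    have : (n : ℝ) ≤ (C : ℝ) ^ D * (k : ℝ) ^ ((D + 2) * D) := by
      rw [pow_mul, ← mul_pow, ← hTr]
      exact hnr
    gcongr
  have e3 : ((g : ℝ) * (D + 1) / (C * (k : ℝ) ^ (D + 1))) ^ (D + 1) < ((N : ℝ))⁻¹ := by
    rw [lt_inv_comm₀ (by positivity) hN0, ← one_div, lt_div_iff₀ (by positivity), div_pow, mul_div_assoc',
      div_lt_one (by positivity)]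
    calc (N : ℝ) * ((g : ℝ) * (D + 1)) ^ (D + 1)
        ≤ (g * ((C : ℝ) ^ D * (k : ℝ) ^ ((D + 2) * D)) * k) * ((g : ℝ) * (D + 1)) ^ (D + 1) :=
          mul_le_mul_of_nonneg_right hNle (by positivity)
      _ = ((g : ℝ) ^ (D + 2) * ((D : ℝ) + 1) ^ (D + 1)) * ((C : ℝ) ^ D * (k : ℝ) ^ ((D + 1) * (D + 1))) := by
          rw [mul_pow]
          have e4 : (k : ℝ) ^ ((D + 1) * (D + 1)) = (k : ℝ) ^ ((D + 2) * D) * k := by
            rw [← pow_succ]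
            congr 1
            ring
          rw [e4]
          ring
      _ < (C : ℝ) * ((C : ℝ) ^ D * (k : ℝ) ^ ((D + 1) * (D + 1))) := by
          refine mul_lt_mul_of_pos_right ?_ (by positivity)
          rw [hC]
          push_cast
          linarith
      _ = (C * (k : ℝ) ^ (D + 1)) ^ (D + 1) := by
          rw [mul_pow, ← pow_mul]
          ring
  have e4' : ∀ y : ℝ, 0 ≤ y → y = (y ^ (D + 1)) ^ (1 / ((D : ℝ) + 1)) := by
    intro y hy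
    rw [← Real.rpow_natCast, ← Real.rpow_mul hy]
    push_cast
    rw [mul_one_div_cancel (by positivity), Real.rpow_one]
  have e4 := e4' ((g : ℝ) * (D + 1) / (C * (k : ℝ) ^ (D + 1))) (by positivity)
  have e5 : (N : ℝ) ^ (-(1 / (((D + 1 : ℕ) : ℝ)))) = ((N : ℝ)⁻¹) ^ (1 / ((D : ℝ) + 1)) := by
    rw [Real.rpow_neg hN0.le, Real.inv_rpow hN0.le]
    push_cast
    rfl
  have h5 : (g : ℝ) * (D + 1) / (C * (k : ℝ) ^ (D + 1)) < (N : ℝ) ^ (-(1 / (((D + 1 : ℕ) : ℝ)))) := by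
    rw [e4, e5]
    exact Real.rpow_lt_rpow (by positivity) e3 (by positivity)
  linarith

/-- odd zeta values in a window with fewer than `K` omissions -/
theorem window_space_dist {b K D s p : ℕ} (hK : 1 ≤ K)
    (hs : (2 : ℝ) ^ (132 * (D + 1)) * ((b : ℝ) + 1) ^ 2 * (K : ℝ) ^ 3 * Real.log (K + 1) ≤ (s : ℝ) ^ 2)
    (J : Fin p → ℕ) (hJ : Set.ncard {j : ℕ | b < j ∧ j ≤ s ∧ Odd j ∧ ∀ i, J i ≠ j} < K) :
    ∃ c : ℝ, 0 < c ∧ SpaceDist (fun i => zr (J i)) D ((D + 1) * (D + 2)) c := by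
  obtain ⟨q0, hq0⟩ := window_core (b := b) (K := K) (S := D + 1) (s := s) hK (by omega) hs
  refine dist_of_sim _ D q0 fun q hq => ?_
  obtain ⟨I, hI, hset⟩ := mem_win b s (fun j => ∀ i, J i ≠ j)
  rw [hset, Set.ncard_coe_finset] at hJ
  by_contra hcon
  push Not at hcon
  refine absurd (hq0 q hq I fun j h1 h2 h3 h4 => ?_) (not_le.2 hJ)
  have h5 : ∃ i, J i = j := by
    by_contra h6
    push Not at h6
    exact h4 ((hI j).2 ⟨h2, h3, h1, h6⟩)
  obtain ⟨i, rfl⟩ := h5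
  exact hcon i

end Pool.Agent.Q29.SpaceRank
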