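import Pool.Agent.TH120.HM.Cor
import Pool.Agent.TH647.NR.Lin
import Pool.Agent.TH647.NR.Rank

/-!
# The numbers `ζ(2) ζ(3), ζ(2), ζ(4)` divided by `ζ(2)`: measure of linear independence
-/

set_option autoImplicit false

namespace Pool.Agent.Q29.Z23

open Pool.Agent.H337R2

theorem zr4 : zr 4 = (2 / 5) * zr 2 ^ 2 := by
  have h1 := (hasSum_nat_add_iff' 1).2 hasSum_zeta_four
  rw [Finset.sum_range_one] at h1
  simp only [Nat.cast_zero, ne_eq, OfNat.ofNat_ne_zero, not_false_eq_true, zero_pow, div_zero, sub_zero] at h1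
  have h2 : HasSum (fun n : ℕ => 1 / ((n : ℝ) + 1) ^ 4) (Real.pi ^ 4 / 90) := by
    refine h1.congr_fun fun n => ?_
    push_cast
    rfl
  have h3 : zr 4 = Real.pi ^ 4 / 90 := h2.tsum_eq
  rw [h3, Pool.Agent.LZ.Z2_value]
  ring

theorem zr2_pos : 0 < zr 2 := by
  rw [Pool.Agent.LZ.Z2_value]
  positivity

theorem one_le_zr2 : 1 ≤ zr 2 := by
  rw [Pool.Agent.LZ.Z2_value]
  nlinarith [Real.pi_gt_three]

/-- `ζ(3), 1, (2/5) ζ(2)` -/
noncomputable def θ : Fin (2 + 1) → ℝ := ![zr 3, 1, 2 / 5 * zr 2]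

theorem meas : ∃ c : ℝ, 0 < c ∧ Pool.Agent.W472.AC.Meas θ 227 c := by
  obtain ⟨k, hk, h⟩ := Pool.Agent.TH120.HM.measure_all
  refine ⟨1 / 5 * (k * 5 ^ (-227 : ℝ)), by positivity, fun a ha H hH hb => ?_⟩
  have hH0 : 0 < H := by linarith
  have h1 := h (5 * a 1) (2 * a 2) (5 * a 0) (5 * H) (by linarith) (fun hh => ha (by
      obtain ⟨h1, h2, h3⟩ := hh
      funext i
      fin_cases i
      · show a 0 = 0
        omega
      · show a 1 = 0
        omega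
      · show a 2 = 0
        omega))
    (by
      have := hb 2
      push_cast
      rw [abs_mul, abs_of_pos (by norm_num : (0 : ℝ) < 2)]
      linarith [abs_nonneg (a 2 : ℝ)])
    (by
      have := hb 0
      push_cast
      rw [abs_mul, abs_of_pos (by norm_num : (0 : ℝ) < 5)]
      linarith)
  have e : ∑ j, (a j : ℝ) * θ j
      = 1 / 5 * (((5 * a 1 : ℤ) : ℝ) + ((2 * a 2 : ℤ) : ℝ) * zr 2 + ((5 * a 0 : ℤ) : ℝ) * zr 3) := by
    rw [Fin.sum_univ_three]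
    show (a 0 : ℝ) * zr 3 + a 1 * 1 + a 2 * (2 / 5 * zr 2) = _
    push_cast
    ring
  rw [e, abs_mul, abs_of_pos (by norm_num : (0 : ℝ) < 1 / 5)]
  rw [Real.mul_rpow (by norm_num) (by linarith)] at h1
  have hpow : H ^ (227 : ℝ) * H ^ (-227 : ℝ) = 1 := by
    rw [← Real.rpow_add hH0]
    norm_num
  calc 1 / 5 * (k * 5 ^ (-227 : ℝ))
      = H ^ (227 : ℝ) * (1 / 5 * (k * (5 ^ (-227 : ℝ) * H ^ (-227 : ℝ)))) := by
        rw [show H ^ (227 : ℝ) * (1 / 5 * (k * (5 ^ (-227 : ℝ) * H ^ (-227 : ℝ)))) =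
          (H ^ (227 : ℝ) * H ^ (-227 : ℝ)) * (1 / 5 * (k * 5 ^ (-227 : ℝ))) by ring, hpow, one_mul]
    _ ≤ _ := by
        apply mul_le_mul_of_nonneg_left _ (by positivity)
        exact mul_le_mul_of_nonneg_left h1 (by positivity)

end Pool.Agent.Q29.Z23
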